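import Pool.Agent.Lib.MP_1e9f59_co.Spec

/-!
# MP_1e9f59_co, module DIS (helper42): discharging
-/

set_option autoImplicit false

namespace Acyc75

namespace Dis

open CMap Function

variable {V : Type} (M : CMap V)

theorem rot_inj : Injective (rot : Dt V → Dt V) := by
  rintro ⟨v, i⟩ ⟨w, j⟩ h
  unfold rot at h
  simp only [Prod.mk.injEq, add_left_inj] at h
  exact Prod.ext h.1 h.2

theorem a_inj : Injective M.a := by
  intro x y h
  rw [← M.inv x, ← M.inv y, h]

theorem ph_inj : Injective M.ph := fun _ _ h => a_inj M (rot_inj h)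

theorem rot3 (d : Dt V) : rot (rot (rot d)) = d := by
  unfold rot
  obtain ⟨v, i⟩ := d
  dsimp only
  have : i + 1 + 1 + 1 = i := by
    revert i; decide
  rw [this]

theorem rot_ne (d : Dt V) : rot d ≠ d := by
  unfold rot
  obtain ⟨v, i⟩ := d
  intro h
  have h1 : i + 1 = i := congrArg Prod.snd h
  clear h
  revert i
  decide

theorem rot_fst (d : Dt V) : (rot d).1 = d.1 := rfl

variable [Finite V]

theorem mem_per (d : Dt V) : d ∈ periodicPts M.ph := (ph_inj M).mem_periodicPts d

theorem len_ph (d : Dt V) : M.len (M.ph d) = M.len d := minimalPeriod_apply (mem_per M d)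

theorem len_pos (d : Dt V) : 0 < M.len d := minimalPeriod_pos_of_mem_periodicPts (mem_per M d)

omit [Finite V] in
theorem iter_len (d : Dt V) : M.ph^[M.len d] d = d := isPeriodicPt_minimalPeriod M.ph d

omit [Finite V] in
theorem iter_of_len {n : ℕ} {d : Dt V} (h : M.len d = n) : M.ph^[n] d = d := by
  rw [← h]; exact iter_len M d

theorem len_ge_three (hS : SpecSimple) (hT : M.TEC) (hV : 3 ≤ Nat.card V) (d : Dt V) :
    3 ≤ M.len d := by
  obtain ⟨h1, h2⟩ := hS V M hT hV
  have h0 := len_pos M d
  by_contra hcon
  have h12 : M.len d = 1 ∨ M.len d = 2 := by omega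
  rcases h12 with h | h
  · have h3 := iter_of_len M h
    simp only [iterate_succ, iterate_zero, comp_apply, id_eq] at h3
    apply h1 d
    have h4 := congrArg Prod.fst h3
    unfold CMap.ph at h4
    rwa [rot_fst] at h4
  · have h3 := iter_of_len M h
    simp only [iterate_succ, iterate_zero, comp_apply, id_eq] at h3
    have h4 := congrArg Prod.fst h3
    have h5 : (M.ph (M.ph d)).1 = (M.a (M.ph d)).1 := rfl
    rw [h5] at h4
    have h6 := h2 (M.ph d) (M.a d) rfl (by rw [M.inv]; exact h4)
    exact rot_ne _ h6

/-- The weight of a face length. -/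
noncomputable def w (n : ℕ) : ℚ := 6 / (n : ℚ) - 1

theorem w_le {m n : ℕ} (hm : 0 < m) (h : m ≤ n) : w n ≤ w m := by
  unfold w
  have h1 : (0 : ℚ) < m := by exact_mod_cast hm
  have h2 : (m : ℚ) ≤ n := by exact_mod_cast h
  have : (6 : ℚ) / n ≤ 6 / m := div_le_div_of_nonneg_left (by norm_num) h1 h2
  linarith

theorem w4 : w 4 = 1 / 2 := by unfold w; norm_num
theorem w5 : w 5 = 1 / 5 := by unfold w; norm_num
theorem w6 : w 6 = 0 := by unfold w; norm_num
theorem w7 : w 7 = -(1 / 7) := by unfold w; norm_num

end Dis

open Dis CMap in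
theorem specDis (hE : SpecEuler) (hS : SpecSimple) : SpecDis := by
  classical
  intro V _ M hT hP hV
  have : Fintype V := Fintype.ofFinite V
  have hE' := hE V M hT hP (by omega)
  have hcardD : (Finset.univ : Finset (Dt V)).card = 3 * Nat.card V := by
    rw [Finset.card_univ, Fintype.card_prod, Fintype.card_fin, Nat.card_eq_fintype_card, mul_comm]
  have hE2 : (12 : ℚ) ≤ ∑ d : Dt V, w (M.len d) := hE'
  have h3 := len_ge_three M hS hT (by omega)
  have h4 : (∀ d, M.ph^[3] d ≠ d) → ∀ d, 4 ≤ M.len d := by
    intro h d
    have h5 := h3 d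
    rcases Nat.lt_or_ge 3 (M.len d) with h6 | h6
    · exact h6
    · exact absurd (iter_of_len M (show M.len d = 3 by omega)) (h d)
  have h5 : (∀ d, M.ph^[3] d ≠ d) → (∀ d, M.ph^[4] d ≠ d) → ∀ d, 5 ≤ M.len d := by
    intro h h' d
    have h5 := h4 h d
    rcases Nat.lt_or_ge 4 (M.len d) with h6 | h6
    · exact h6
    · exact absurd (iter_of_len M (show M.len d = 4 by omega)) (h' d)
  -- general upper bound
  have hsum : ∀ (n : ℕ), 0 < n → (∀ d, n ≤ M.len d) →
      ∑ d : Dt V, w (M.len d) ≤ 3 * (Nat.card V : ℚ) * w n := by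
    intro n hn h
    calc ∑ d : Dt V, w (M.len d) ≤ ∑ _d : Dt V, w n :=
          Finset.sum_le_sum fun d _ => w_le hn (h d)
      _ = _ := by
          rw [Finset.sum_const, hcardD, nsmul_eq_mul]
          push_cast
          ring
  refine ⟨?_, ?_, ?_, ?_, ?_⟩
  · intro h6
    by_contra hcon
    push Not at hcon
    have h7 := hsum 4 (by norm_num) (h4 hcon)
    rw [w4, h6] at h7
    norm_num at h7
    linarith
  · intro hno
    have h7 := hsum 4 (by norm_num) (h4 hno)
    rw [w4] at h7
    have : (8 : ℚ) ≤ Nat.card V := by linarith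
    exact_mod_cast this
  · intro hno h8 d
    by_contra hd
    have h7 : 5 ≤ M.len d := by
      have := h4 hno d
      rcases Nat.lt_or_ge 4 (M.len d) with h6 | h6
      · exact h6
      · exact absurd (iter_of_len M (show M.len d = 4 by omega)) hd
    have h9 : ∑ d : Dt V, w (M.len d) < ∑ _d : Dt V, w 4 := by
      apply Finset.sum_lt_sum
      · intro e _
        exact w_le (by norm_num) (h4 hno e)
      · refine ⟨d, Finset.mem_univ d, ?_⟩
        refine (w_le (by norm_num) h7).trans_lt ?_
        rw [w4, w5]; norm_num
    rw [Finset.sum_const, hcardD, nsmul_eq_mul, h8, w4] at h9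
    norm_num at h9
    linarith
  · intro hno h12
    by_contra hcon
    push Not at hcon
    have hA : ∀ d, M.len d = 4 → 5 ≤ M.len (M.a d) := by
      intro d hd
      have h6 := hcon d (iter_of_len M hd)
      have h7 := h4 hno (M.a d)
      rcases Nat.lt_or_ge 4 (M.len (M.a d)) with h8 | h8
      · exact h8
      · exact absurd (iter_of_len M (show M.len (M.a d) = 4 by omega)) h6
    -- consecutive darts at a vertex are not both on 4-faces
    have hB : ∀ d : Dt V, M.len d = 4 → 5 ≤ M.len (rot d) := by
      intro d hd
      have h6 := hA d hd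
      have h7 : M.ph (M.a d) = rot d := by unfold CMap.ph; rw [M.inv]
      rw [← h7, len_ph]
      exact h6
    have hle : ∀ d, w (M.len d) ≤ 1 / 2 := fun d => by
      rw [← w4]; exact w_le (by norm_num) (h4 hno d)
    have hle5 : ∀ d, 5 ≤ M.len d → w (M.len d) ≤ 1 / 5 := fun d hd => by
      rw [← w5]; exact w_le (by norm_num) hd
    have hvert : ∀ v : V, ∑ t : Fin 3, w (M.len (v, t)) ≤ 9 / 10 := by
      intro v
      rw [Fin.sum_univ_three]
      have g0 := hB (v, 0)
      have g1 := hB (v, 1)
      have g2 := hB (v, 2)
      have r0 : rot ((v, 0) : Dt V) = (v, 1) := rfl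
      have r1 : rot ((v, 1) : Dt V) = (v, 2) := rfl
      have r2 : rot ((v, 2) : Dt V) = (v, 0) := rfl
      rw [r0] at g0
      rw [r1] at g1
      rw [r2] at g2
      have a0 := hle (v, 0)
      have a1 := hle (v, 1)
      have a2 := hle (v, 2)
      have l0 := h4 hno (v, 0)
      have l1 := h4 hno (v, 1)
      have l2 := h4 hno (v, 2)
      by_cases e0 : M.len (v, 0) = 4
      · have b1 := hle5 _ (g0 e0)
        have b2 : 5 ≤ M.len (v, 2) := by
          by_contra hc
          have := g2 (by omega)
          omega
        have b2 := hle5 _ b2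
        linarith
      · have b0 := hle5 (v, 0) (by omega)
        by_cases e1 : M.len (v, 1) = 4
        · have b2 := hle5 _ (g1 e1)
          linarith
        · have b1 := hle5 (v, 1) (by omega)
          linarith
    have htot : ∑ d : Dt V, w (M.len d) ≤ 12 * (9 / 10) := by
      rw [Fintype.sum_prod_type]
      calc ∑ v : V, ∑ t : Fin 3, w (M.len (v, t)) ≤ ∑ _v : V, (9 / 10 : ℚ) :=
            Finset.sum_le_sum fun v _ => hvert v
        _ = 12 * (9 / 10) := by
            rw [Finset.sum_const, Finset.card_univ, ← Nat.card_eq_fintype_card, h12, nsmul_eq_mul]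
            norm_num
    norm_num at htot
    linarith
  · intro hno3 hno4
    have hge5 := h5 hno3 hno4
    refine ⟨?_, ?_⟩
    · have h7 := hsum 5 (by norm_num) hge5
      rw [w5] at h7
      have : (20 : ℚ) ≤ Nat.card V := by linarith
      exact_mod_cast this
    · by_contra hcon
      push Not at hcon
      have hA : ∀ d, M.len d = 5 → 7 ≤ M.len (M.a d) := by
        intro d hd
        obtain ⟨h6, h7⟩ := hcon d (iter_of_len M hd)
        have h8 := hge5 (M.a d)
        by_contra h9
        have h10 : M.len (M.a d) = 5 ∨ M.len (M.a d) = 6 := by omega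
        rcases h10 with h10 | h10
        · exact h6 (iter_of_len M h10)
        · exact h7 (iter_of_len M h10)
      let x : Dt V → ℚ := fun d => if M.len (M.a d) = 5 then 1 else 0
      let b : Dt V → ℚ := fun d => if 7 ≤ M.len d then 1 else 0
      have hx0 : ∀ d, 0 ≤ x d := by
        intro d; simp only [x]; split_ifs <;> norm_num
      have hw : ∀ d, w (M.len d) ≤ 1 / 5 * x (M.a d) - 1 / 7 * b d := by
        intro d
        simp only [x, b]
        rw [M.inv]
        have h6 := hge5 d
        by_cases e5 : M.len d = 5
        · rw [e5, w5]; norm_num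
        · rw [if_neg e5]
          by_cases e7 : 7 ≤ M.len d
          · rw [if_pos e7]
            have := w_le (by norm_num) e7
            rw [w7] at this
            linarith
          · rw [if_neg e7]
            have : M.len d = 6 := by omega
            rw [this, w6]; norm_num
      have hxb : ∀ d, x d + x (M.ph d) ≤ b d := by
        intro d
        simp only [x, b]
        by_cases e1 : M.len (M.a d) = 5
        · have f1 : 7 ≤ M.len d := by
            have := hA _ e1
            rwa [M.inv] at this
          have f2 : M.len (M.a (M.ph d)) ≠ 5 := by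
            intro e2
            let t := rot (M.ph d)
            have g1 : M.ph (M.a t) = M.a d := by
              unfold CMap.ph
              rw [M.inv]
              exact rot3 (M.a d)
            have g2 : M.len (M.a t) = 5 := by rw [← len_ph, g1]; exact e1
            have g3 : M.ph (M.a (M.ph d)) = t := by
              show rot (M.a (M.a (M.ph d))) = rot (M.ph d)
              rw [M.inv]
            have g4 : M.len t = 5 := by rw [← g3, len_ph]; exact e2
            have := hA _ g4
            omega
          rw [if_pos e1, if_neg f2, if_pos f1]; norm_num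
        · rw [if_neg e1]
          by_cases e2 : M.len (M.a (M.ph d)) = 5
          · have f1 : 7 ≤ M.len d := by
              have := hA _ e2
              rwa [M.inv, len_ph] at this
            rw [if_pos e2, if_pos f1]; norm_num
          · rw [if_neg e2]
            split_ifs <;> norm_num
      let ea : Equiv.Perm (Dt V) := Equiv.ofBijective M.a (Finite.injective_iff_bijective.1 (a_inj M))
      let ep : Equiv.Perm (Dt V) := Equiv.ofBijective M.ph (Finite.injective_iff_bijective.1 (ph_inj M))
      have hsa : ∑ d, x (M.a d) = ∑ d, x d := Equiv.sum_comp ea x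
      have hsp : ∑ d, x (M.ph d) = ∑ d, x d := Equiv.sum_comp ep x
      have h10 : ∑ d : Dt V, w (M.len d) ≤ 1 / 5 * ∑ d, x d - 1 / 7 * ∑ d, b d := by
        calc _ ≤ ∑ d : Dt V, (1 / 5 * x (M.a d) - 1 / 7 * b d) :=
              Finset.sum_le_sum fun d _ => hw d
          _ = _ := by
              rw [Finset.sum_sub_distrib, ← Finset.mul_sum, ← Finset.mul_sum, hsa]
      have h11 : ∑ d, x d + ∑ d, x d ≤ ∑ d, b d := by
        calc _ = ∑ d, (x d + x (M.ph d)) := by
              rw [Finset.sum_add_distrib, hsp]
          _ ≤ _ := Finset.sum_le_sum fun d _ => hxb d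
      have h12 : 0 ≤ ∑ d, x d := Finset.sum_nonneg fun d _ => hx0 d
      linarith

end Acyc75
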