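import Pool.Agent.Lib.MP_1e9f59_co.Fin54e

/-!
# MP_1e9f59_co : module FIN-54

`specFin54 : SpecFin54`. The colours are normalised to `a = 0`, `b = 1`, `z = 2`; then the finite
check `Fin54.chkA_true`, `Fin54.chkB_true` applies.
-/

set_option autoImplicit false

namespace Acyc75

namespace Fin54

theorem EL_perm {k : ℕ} (π : Equiv.Perm (Fin 3)) (c : Fin k → Fin 3) (L : Fin 3 → Fin k → Fin k)
    (p : Fin 3) (J : Fin k → ZMod 2) :
    EL (fun i => π (c i)) (fun p => L (π.symm p)) p J ↔ EL c L (π.symm p) J := by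
  unfold EL
  have : ∀ i, (π (c i) ≠ p ↔ c i ≠ π.symm p) := fun i => by
    rw [not_iff_not]; exact (Equiv.eq_symm_apply π).symm
  simp only [this]

theorem FA_perm {m k : ℕ} {T : Tab m k} {K : (Fin k → ZMod 2) → Prop} {c : Fin k → Fin 3}
    {L : Fin 3 → Fin k → Fin k} {g : Fin m → Fin 3} (π : Equiv.Perm (Fin 3))
    (h : FA T K c L g) :
    FA T K (fun i => π (c i)) (fun p => L (π.symm p)) (fun i => π (g i)) := by
  refine ⟨?_, ?_⟩
  · intro i t
    have := h.1 i t
    cases hT : T i t with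
    | inl q =>
      rw [hT] at this
      simp only [Sum.elim_inl] at this ⊢
      exact fun e => this (π.injective e)
    | inr j =>
      rw [hT] at this
      simp only [Sum.elim_inr] at this ⊢
      exact fun e => this (π.injective e)
  · intro p e J h1 h2 h3 hK hEL
    refine h.2 (π.symm p) e J h1 h2 (fun i t hne hg => h3 i t hne ?_) hK ((EL_perm π c L p J).1 hEL)
    change π (g i) = p; rw [hg]; exact π.apply_symm_apply p

theorem NC_perm {k : ℕ} {c : Fin k → Fin 3} {L : Fin 3 → Fin k → Fin k} (π : Equiv.Perm (Fin 3))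
    (h : NC (EL c L)) : NC (EL (fun i => π (c i)) (fun p => L (π.symm p))) := by
  intro p p' i j l n h1 h2 h3 h4 h5
  rw [EL_perm] at h4 h5
  obtain ⟨h6, h7⟩ := h (π.symm p) (π.symm p') i j l n h1 h2 h3 h4 h5
  exact ⟨π.symm.injective h6, (EL_perm π c L p _).2 h7⟩

theorem Lift_perm {c : Fin 7 → Fin 3} {L : Fin 3 → Fin 7 → Fin 7} {ρ : Fin 4 → Fin 3}
    {p : Fin 3} {J5 : Fin 5 → ZMod 2} (π : Equiv.Perm (Fin 3)) (h : Lift54 ρ (EL c L) p J5) :
    Lift54 (fun i => π (ρ i)) (EL (fun i => π (c i)) (fun p => L (π.symm p))) (π p) J5 := by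
  obtain ⟨e, J, e1, e2, e3, f1, f2, f3, f4, s, v, hF, j0, j1, j2, j3, j4⟩ := h
  refine ⟨e, J, e1, e2, e3, f1, f2, f3, f4, s, fun i t hne hp => v i t hne (π.injective hp), ?_,
    j0, j1, j2, j3, j4⟩
  rw [EL_perm, Equiv.symm_apply_apply]
  exact hF

theorem exists_perm (a b z : Fin 3) (h1 : a ≠ b) (h2 : a ≠ z) (h3 : b ≠ z) :
    ∃ π : Equiv.Perm (Fin 3), π a = 0 ∧ π b = 1 ∧ π z = 2 := by
  have h : ∀ a b z : Fin 3, (a = b ∨ a = z ∨ b = z) ∨
      ∃ π : Equiv.Perm (Fin 3), π a = 0 ∧ π b = 1 ∧ π z = 2 := by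
    decide +kernel
  rcases h a b z with (h | h | h) | h
  · exact absurd h h1
  · exact absurd h h2
  · exact absurd h h3
  · exact h

theorem b5 (a b c d e : Bool) (v : Fin 5 → ZMod 2) (h : v = ![zb a, zb b, zb c, zb d, zb e]) :
    (⟨a, b, c, d, e⟩ : Nd) = ⟨bd (v 0), bd (v 1), bd (v 2), bd (v 3), bd (v 4)⟩ := by
  subst h
  change _ = (⟨bd (zb a), bd (zb b), bd (zb c), bd (zb d), bd (zb e)⟩ : Nd)
  simp only [bd_zb]

/-- The normalised statement. -/
theorem normalised {c : Fin 7 → Fin 3} {L : Fin 3 → Fin 7 → Fin 7} {ρ : Fin 4 → Fin 3}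
    (hFA : FA T54r (fun J => J 0 = J 1) c L ![2, ρ 0, ρ 1, ρ 2, ρ 3]) (hNC : NC (EL c L))
    (hbad : (c 0 = 2 ∧ c 1 = 0 ∧ c 2 = 0 ∧ ρ 0 = 1 ∧ ρ 3 = 1 ∧ Lift54 ρ (EL c L) 0 (ei 3 + ei 0) ∧
        Lift54 ρ (EL c L) 1 (ei 2 + ei 0) ∧ Lift54 ρ (EL c L) 2 (ei 2 + ei 3)) ∨
      (c 0 = 0 ∧ c 1 = 2 ∧ c 2 = 1 ∧ ρ 0 = 1 ∧ ρ 3 = 0 ∧ Lift54 ρ (EL c L) 0 (ei 3 + ei 1) ∧
        Lift54 ρ (EL c L) 1 (ei 4 + ei 1) ∧ Lift54 ρ (EL c L) 2 (ei 4 + ei 3))) :
    ∃ g : Fin 9 → Fin 3, FA T54 (fun _ => True) c L g := by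
  have hr01 : ne (ρ 0).val (ρ 1).val = true := ne_of (by simpa [T54r] using hFA.1 1 0)
  have hr12 : ne (ρ 1).val (ρ 2).val = true := ne_of (by simpa [T54r] using hFA.1 2 0)
  have hr23 : ne (ρ 2).val (ρ 3).val = true := ne_of (by simpa [T54r] using hFA.1 3 0)
  have hc3 : ne (ρ 0).val (c 3).val = true := ne_of (by simpa [T54r] using hFA.1 1 1)
  have hc4 : ne (ρ 1).val (c 4).val = true := ne_of (by simpa [T54r] using hFA.1 2 1)
  have hc5 : ne (ρ 2).val (c 5).val = true := ne_of (by simpa [T54r] using hFA.1 3 1)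
  have hc6 : ne (ρ 3).val (c 6).val = true := ne_of (by simpa [T54r] using hFA.1 4 1)
  rcases hbad with ⟨h0, h1, h2, h3, h4, l0, l1, l2⟩ | ⟨h0, h1, h2, h3, h4, l0, l1, l2⟩
  · refine norm_case (J5 := ![ei 3 + ei 0, ei 2 + ei 0, ei 2 + ei 3])
      (n := ![⟨true, false, false, true, false⟩, ⟨true, false, true, false, false⟩,
        ⟨false, false, true, true, false⟩]) ?_ ?_ hFA hNC ?_
    · intro p
      fin_cases p
      · exact b5 _ _ _ _ _ _ (by decide)
      · exact b5 _ _ _ _ _ _ (by decide)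
      · exact b5 _ _ _ _ _ _ (by decide)
    · have hA := chkA_true
      unfold chkA at hA
      have hA := List.all_eq_true.1 hA (c 3).val (mem_CC _)
      have hA := List.all_eq_true.1 hA (c 4).val (mem_CC _)
      have hA := List.all_eq_true.1 hA (c 5).val (mem_CC _)
      have hA := List.all_eq_true.1 hA (c 6).val (mem_CC _)
      have hA := List.all_eq_true.1 hA (ρ 1).val (mem_CC _)
      have hA := List.all_eq_true.1 hA (ρ 2).val (mem_CC _)
      rw [h3] at hr01 hc3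
      rw [h4] at hr23 hc6
      change ne 1 _ = true at hr01 hc3 hc6
      change ne _ 1 = true at hr23
      rw [hr01, hr12, hr23, hc3, hc4, hc5, hc6] at hA
      unfold cL
      rw [h0, h1, h2, h3, h4]
      exact hA
    · intro p
      fin_cases p
      · exact l0
      · exact l1
      · exact l2
  · refine norm_case (J5 := ![ei 3 + ei 1, ei 4 + ei 1, ei 4 + ei 3])
      (n := ![⟨false, true, false, true, false⟩, ⟨false, true, false, false, true⟩,
        ⟨false, false, false, true, true⟩]) ?_ ?_ hFA hNC ?_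
    · intro p
      fin_cases p
      · exact b5 _ _ _ _ _ _ (by decide)
      · exact b5 _ _ _ _ _ _ (by decide)
      · exact b5 _ _ _ _ _ _ (by decide)
    · have hB : ∀ v : Fin 3, chkB v.val = true := by
        have := chkB_true
        simp only [Bool.and_eq_true] at this
        intro v
        fin_cases v
        · exact this.1.1
        · exact this.1.2
        · exact this.2
      have hB := hB (c 3)
      unfold chkB at hB
      have hB := List.all_eq_true.1 hB (c 4).val (mem_CC _)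
      have hB := List.all_eq_true.1 hB (c 5).val (mem_CC _)
      have hB := List.all_eq_true.1 hB (c 6).val (mem_CC _)
      have hB := List.all_eq_true.1 hB (ρ 1).val (mem_CC _)
      have hB := List.all_eq_true.1 hB (ρ 2).val (mem_CC _)
      rw [h3] at hr01 hc3
      rw [h4] at hr23 hc6
      change ne 1 _ = true at hr01 hc3
      change ne 0 _ = true at hc6
      change ne _ 0 = true at hr23
      rw [hr01, hr12, hr23, hc3, hc4, hc5, hc6] at hB
      unfold cL
      rw [h0, h1, h2, h3, h4]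
      exact hB
    · intro p
      fin_cases p
      · exact l0
      · exact l1
      · exact l2

end Fin54

open Fin54

theorem specFin54 : SpecFin54 := by
  intro c L z ρ hc hFA hNC hBad
  have main : ∀ a b : Fin 3, a ≠ b → a ≠ z → b ≠ z →
      ((c 0 = z ∧ c 1 = a ∧ c 2 = a ∧ ρ 0 = b ∧ ρ 3 = b ∧ Lift54 ρ (EL c L) a (ei 3 + ei 0) ∧
        Lift54 ρ (EL c L) b (ei 2 + ei 0) ∧ Lift54 ρ (EL c L) z (ei 2 + ei 3)) ∨
      (c 0 = a ∧ c 1 = z ∧ c 2 = b ∧ ρ 0 = b ∧ ρ 3 = a ∧ Lift54 ρ (EL c L) a (ei 3 + ei 1) ∧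
        Lift54 ρ (EL c L) b (ei 4 + ei 1) ∧ Lift54 ρ (EL c L) z (ei 4 + ei 3))) →
      ∃ g : Fin 9 → Fin 3, FA T54 (fun _ => True) c L g := by
    intro a b hab haz hbz h
    obtain ⟨π, pa, pb, pz⟩ := exists_perm a b z hab haz hbz
    have hFA' := FA_perm π hFA
    have hcols : (fun i => π ((![z, ρ 0, ρ 1, ρ 2, ρ 3] : Fin 5 → Fin 3) i)) =
        ![2, π (ρ 0), π (ρ 1), π (ρ 2), π (ρ 3)] := by
      rw [← pz]
      funext i
      fin_cases i <;> rfl
    rw [hcols] at hFA'
    have key := normalised (c := fun i => π (c i)) (L := fun p => L (π.symm p))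
      (ρ := fun i => π (ρ i)) hFA' (NC_perm π hNC) ?_
    · obtain ⟨g, hg⟩ := key
      have hg' := FA_perm π.symm hg
      simp only [Equiv.symm_apply_apply, Equiv.symm_symm] at hg'
      exact ⟨_, hg'⟩
    · rcases h with ⟨h0, h1, h2, h3, h4, l0, l1, l2⟩ | ⟨h0, h1, h2, h3, h4, l0, l1, l2⟩
      · left
        have l0' := Lift_perm π l0
        have l1' := Lift_perm π l1
        have l2' := Lift_perm π l2
        rw [pa] at l0'
        rw [pb] at l1'
        rw [pz] at l2'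
        exact ⟨by rw [h0, pz], by rw [h1, pa], by rw [h2, pa], by rw [h3, pb], by rw [h4, pb],
          l0', l1', l2'⟩
      · right
        have l0' := Lift_perm π l0
        have l1' := Lift_perm π l1
        have l2' := Lift_perm π l2
        rw [pa] at l0'
        rw [pb] at l1'
        rw [pz] at l2'
        exact ⟨by rw [h0, pa], by rw [h1, pz], by rw [h2, pb], by rw [h3, pb], by rw [h4, pa],
          l0', l1', l2'⟩
  rcases hBad with ⟨a, b, hab, haz, hbz, h0, h1, h2, h3, h4, la, lb, lz⟩ |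
    ⟨a, b, hab, haz, hbz, h0, h1, h2, h3, h4, la, lb, lz⟩
  · exact main a b hab haz hbz (Or.inl ⟨h0, h1, h2, h3, h4, la, lb, lz⟩)
  · exact main a b hab haz hbz (Or.inr ⟨h0, h1, h2, h3, h4, la, lb, lz⟩)

end Acyc75
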