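import Pool.Agent.Lib.MP_1e9f59_co.Spec
import Mathlib.LinearAlgebra.FiniteDimensional.Lemmas
import Mathlib.Data.ZMod.QuotientGroup

section
/-!
# MP_1e9f59_co : Euler's formula from planarity, and planarity from Euler's formula
-/
set_option autoImplicit false

open Module

namespace Acyc75.Euler

open CMap

/-! ## Permutations of finite sets -/

section Perm

variable {X : Type} (π : Equiv.Perm X)

/-- Functions invariant under `π`. -/
def W : Submodule (ZMod 2) (X → ZMod 2) where
  carrier := {A | ∀ x, A (π x) = A x}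
  add_mem' := by
    intro A B hA hB x
    simp only [Pi.add_apply]
    rw [hA x, hB x]
  zero_mem' := fun _ => rfl
  smul_mem' := by
    intro c A hA x
    simp only [Pi.smul_apply]
    rw [hA x]

/-- The orbits. -/
abbrev Q : Type := MulAction.orbitRel.Quotient (Subgroup.zpowers π) X

noncomputable instance [Fintype X] : Fintype (Q π) := Fintype.ofFinite _

/-- Projection to the orbits. -/
def mk (x : X) : Q π := Quotient.mk _ x

lemma mk_eq {x y : X} : mk π x = mk π y ↔ x ∈ MulAction.orbit (Subgroup.zpowers π) y :=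
  Quotient.eq.trans MulAction.orbitRel_apply

lemma mem_orbit {x y : X} : x ∈ MulAction.orbit (Subgroup.zpowers π) y ↔
    ∃ n : ℤ, (π ^ n) y = x := by
  constructor
  · rintro ⟨⟨g, n, rfl⟩, rfl⟩
    exact ⟨n, rfl⟩
  · rintro ⟨n, rfl⟩
    exact ⟨⟨π ^ n, n, rfl⟩, rfl⟩

lemma W_zpow {A : X → ZMod 2} (hA : A ∈ W π) (n : ℤ) (x : X) : A ((π ^ n) x) = A x := by
  have h1 : ∀ x, A (π.symm x) = A x := by
    intro x
    have := hA (π.symm x)
    rw [Equiv.apply_symm_apply] at this
    exact this.symm
  induction n using Int.induction_on with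
  | zero => simp
  | succ i ih =>
    rw [add_comm, zpow_add, zpow_one, Equiv.Perm.mul_apply, hA, ih]
  | pred i ih =>
    rw [sub_eq_add_neg, add_comm, zpow_add, zpow_neg_one, Equiv.Perm.mul_apply,
      Equiv.Perm.inv_def, h1, ih]

lemma W_eq_range : W π = LinearMap.range (LinearMap.funLeft (ZMod 2) (ZMod 2) (mk π)) := by
  ext A
  constructor
  · intro hA
    refine ⟨fun q => A q.out, ?_⟩
    funext x
    rw [LinearMap.funLeft_apply]
    have h : mk π (mk π x).out = mk π x := Quotient.out_eq _
    obtain ⟨n, hn⟩ := (mem_orbit π).mp ((mk_eq π).mp h)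
    rw [← hn]
    exact W_zpow π hA n x
  · rintro ⟨B, rfl⟩ x
    rw [LinearMap.funLeft_apply, LinearMap.funLeft_apply]
    congr 1
    rw [mk_eq, mem_orbit]
    exact ⟨1, by simp⟩

lemma finrank_W [Fintype X] : finrank (ZMod 2) (W π) = Fintype.card (Q π) := by
  rw [W_eq_range, LinearMap.finrank_range_of_inj, Module.finrank_fintype_fun_eq_card]
  exact LinearMap.funLeft_injective_of_surjective _ _ _ Quotient.mk_surjective

lemma sum_inv [Fintype X] : ∑ x : X, (1 / (Function.minimalPeriod π x : ℚ)) = Fintype.card (Q π) := by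
  classical
  have h1 : ∀ x : X, Function.minimalPeriod π x =
      (Finset.univ.filter fun y => mk π y = mk π x).card := by
    intro x
    have h2 : Function.minimalPeriod (π • ·) x =
        Fintype.card (MulAction.orbit (Subgroup.zpowers π) x) :=
      MulAction.minimalPeriod_eq_card π x
    have h3 : Function.minimalPeriod π x = Function.minimalPeriod (π • ·) x := rfl
    rw [h3, h2, ← Set.toFinset_card]
    congr 1
    ext y
    simp [mk_eq]
  rw [← Finset.sum_fiberwise (Finset.univ : Finset X) (mk π)]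
  have h4 : ∀ q : Q π, ∑ x ∈ Finset.univ.filter (fun y => mk π y = q),
      (1 / (Function.minimalPeriod π x : ℚ)) = 1 := by
    intro q
    have h5 : ∀ x ∈ Finset.univ.filter (fun y => mk π y = q),
        (1 / (Function.minimalPeriod π x : ℚ)) =
          1 / ((Finset.univ.filter (fun y => mk π y = q)).card : ℚ) := by
      intro x hx
      rw [Finset.mem_filter] at hx
      rw [h1 x, hx.2]
    rw [Finset.sum_congr rfl h5, Finset.sum_const, nsmul_eq_mul, mul_one_div, div_self]
    rw [Nat.cast_ne_zero]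
    have : (Finset.univ.filter (fun y => mk π y = q)).Nonempty := by
      refine ⟨q.out, ?_⟩
      rw [Finset.mem_filter]
      exact ⟨Finset.mem_univ _, Quotient.out_eq q⟩
    exact Finset.card_ne_zero.mpr this
  rw [Finset.sum_congr rfl fun q _ => h4 q]
  simp

end Perm

/-! ## The linear maps -/

variable {V : Type} (M : CMap V)

/-- The involution as a permutation. -/
def aP : Equiv.Perm (Dt V) := ⟨M.a, M.a, M.inv, M.inv⟩

/-- The rotation as a permutation. -/
def rotP : Equiv.Perm (Dt V) where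
  toFun := rot
  invFun d := (d.1, d.2 - 1)
  left_inv d := by simp [rot]
  right_inv d := by simp [rot]

/-- The face permutation as a permutation. -/
def phP : Equiv.Perm (Dt V) := (aP M).trans rotP

lemma phP_coe : (phP M : Dt V → Dt V) = M.ph := rfl

lemma aP_coe : (aP M : Dt V → Dt V) = M.a := rfl

/-- The boundary. -/
def bd : (Dt V → ZMod 2) →ₗ[ZMod 2] (V → ZMod 2) where
  toFun C v := C (v, 0) + C (v, 1) + C (v, 2)
  map_add' C D := by
    funext v
    simp only [Pi.add_apply]
    ring
  map_smul' c C := by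
    funext v
    simp only [Pi.smul_apply, smul_eq_mul, RingHom.id_apply]
    ring

/-- The coboundary of face functions. -/
def de : (Dt V → ZMod 2) →ₗ[ZMod 2] (Dt V → ZMod 2) where
  toFun A d := A d + A (M.a d)
  map_add' C D := by
    funext v
    simp only [Pi.add_apply]
    ring
  map_smul' c C := by
    funext v
    simp only [Pi.smul_apply, smul_eq_mul, RingHom.id_apply]
    ring

/-- The sum of the values. -/
def su [Fintype V] : (V → ZMod 2) →ₗ[ZMod 2] ZMod 2 where
  toFun y := ∑ v, y v
  map_add' C D := by simp [Finset.sum_add_distrib]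
  map_smul' c C := by simp [Finset.mul_sum]

/-- Even edge sets. -/
def EvS : Submodule (ZMod 2) (Dt V → ZMod 2) where
  carrier := {C | M.Ev C}
  add_mem' := by
    rintro C D ⟨h1, h2⟩ ⟨h3, h4⟩
    refine ⟨fun d => ?_, fun v => ?_⟩
    · simp only [Pi.add_apply]
      rw [h1, h3]
    · simp only [Pi.add_apply]
      linear_combination h2 v + h4 v
  zero_mem' := ⟨fun _ => rfl, fun _ => by simp⟩
  smul_mem' := by
    rintro c C ⟨h1, h2⟩
    refine ⟨fun d => ?_, fun v => ?_⟩
    · simp only [Pi.smul_apply]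
      rw [h1]
    · simp only [Pi.smul_apply, smul_eq_mul]
      linear_combination c * h2 v

lemma sum_inv_zero {X : Type} [Fintype X] (f : X → X) (hf : ∀ x, f (f x) = x)
    (hne : ∀ x, f x ≠ x) (C : X → ZMod 2) (hC : ∀ x, C (f x) = C x) : ∑ x, C x = 0 := by
  classical
  refine Finset.sum_involution (fun x _ => f x) ?_ ?_ (by simp) (by simp [hf])
  · intro x _
    rw [hC]
    exact CharTwo.add_self_eq_zero _
  · intro x _ _
    exact hne x

variable [Fintype V]

lemma sum_bd (C : Dt V → ZMod 2) (hC : ∀ d, C (M.a d) = C d) : ∑ v, bd C v = 0 := by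
  have h := sum_inv_zero M.a M.inv M.ne C hC
  rw [Fintype.sum_prod_type] at h
  rw [← h]
  refine Finset.sum_congr rfl fun v _ => ?_
  rw [Fin.sum_univ_three]
  rfl

lemma finrank_Wa : 2 * finrank (ZMod 2) (W (aP M)) = 3 * Fintype.card V := by
  have h := sum_inv (aP M)
  have h2 : ∀ d : Dt V, Function.minimalPeriod (aP M) d = 2 := by
    intro d
    rw [aP_coe]
    refine le_antisymm ?_ ?_
    · refine Function.IsPeriodicPt.minimalPeriod_le (by norm_num) ?_
      rw [Function.IsPeriodicPt, Function.IsFixedPt, Function.iterate_succ, Function.iterate_one]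
      exact M.inv d
    · have h3 : 0 < Function.minimalPeriod M.a d := by
        rw [Function.minimalPeriod_pos_iff_mem_periodicPts]
        exact ⟨2, by norm_num, M.inv d⟩
      have h4 : Function.minimalPeriod M.a d ≠ 1 := by
        intro h5
        rw [Function.minimalPeriod_eq_one_iff_isFixedPt] at h5
        exact M.ne d h5
      omega
  have h5 : ∑ x : Dt V, (1 / (Function.minimalPeriod (aP M) x : ℚ)) =
      3 * Fintype.card V / 2 := by
    rw [Finset.sum_congr rfl fun d _ => by rw [h2 d]]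
    rw [Finset.sum_const, Finset.card_univ, Fintype.card_prod, Fintype.card_fin]
    push_cast
    ring
  rw [h5, ← finrank_W] at h
  have h6 : (2 * finrank (ZMod 2) (W (aP M)) : ℚ) = 3 * Fintype.card V := by
    rw [← h]
    ring
  exact_mod_cast h6

lemma finrank_ker_su (hV : 0 < Fintype.card V) :
    finrank (ZMod 2) (LinearMap.ker (su : (V → ZMod 2) →ₗ[ZMod 2] ZMod 2)) + 1 =
      Fintype.card V := by
  classical
  have h := LinearMap.finrank_range_add_finrank_ker (su : (V → ZMod 2) →ₗ[ZMod 2] ZMod 2)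
  rw [Module.finrank_fintype_fun_eq_card] at h
  have hr : LinearMap.range (su : (V → ZMod 2) →ₗ[ZMod 2] ZMod 2) = ⊤ := by
    rw [LinearMap.range_eq_top]
    intro y
    obtain ⟨v⟩ := Fintype.card_pos_iff.mp hV
    refine ⟨Pi.single v y, ?_⟩
    show ∑ w, (Pi.single v y : V → ZMod 2) w = y
    simp
  rw [hr, finrank_top, finrank_self] at h
  omega

/-- The boundary restricted to edge functions. -/
noncomputable def bdW : W (aP M) →ₗ[ZMod 2] (V → ZMod 2) := bd ∘ₗ (W (aP M)).subtype

omit [Fintype V] in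
lemma finrank_ker_bdW : finrank (ZMod 2) (LinearMap.ker (bdW M)) = finrank (ZMod 2) (EvS M) := by
  have h : (LinearMap.ker (bdW M)).map (W (aP M)).subtype = EvS M := by
    ext C
    constructor
    · rintro ⟨⟨D, hD⟩, h1, rfl⟩
      refine ⟨hD, fun v => ?_⟩
      exact congrFun (LinearMap.mem_ker.mp h1) v
    · intro hC
      refine ⟨⟨C, hC.1⟩, ?_, rfl⟩
      rw [SetLike.mem_coe, LinearMap.mem_ker]
      funext v
      exact hC.2 v
  rw [← h]
  exact ((W (aP M)).equivSubtypeMap (LinearMap.ker (bdW M))).finrank_eq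

lemma range_bdW_le : LinearMap.range (bdW M) ≤ LinearMap.ker (su : (V → ZMod 2) →ₗ[ZMod 2] ZMod 2) := by
  rintro y ⟨⟨C, hC⟩, rfl⟩
  rw [LinearMap.mem_ker]
  exact sum_bd M C hC

lemma finrank_rel : finrank (ZMod 2) (LinearMap.range (bdW M)) + finrank (ZMod 2) (EvS M) =
    finrank (ZMod 2) (W (aP M)) := by
  rw [← finrank_ker_bdW]
  exact LinearMap.finrank_range_add_finrank_ker (bdW M)

/-- The coboundary restricted to face functions. -/
noncomputable def deW : W (phP M) →ₗ[ZMod 2] (Dt V → ZMod 2) := de M ∘ₗ (W (phP M)).subtype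

omit [Fintype V] in
lemma range_deW_le : LinearMap.range (deW M) ≤ EvS M := by
  rintro _ ⟨⟨A, hA⟩, rfl⟩
  have hrot : ∀ d, A (M.a d) = A (rot d) := by
    intro d
    have h := hA (M.a d)
    rw [← h]
    show A (rot (M.a (M.a d))) = A (rot d)
    rw [M.inv]
  refine ⟨fun d => ?_, fun v => ?_⟩
  · show A (M.a d) + A (M.a (M.a d)) = A d + A (M.a d)
    rw [M.inv]
    ring
  · show (A (v, 0) + A (M.a (v, 0))) + (A (v, 1) + A (M.a (v, 1))) +
      (A (v, 2) + A (M.a (v, 2))) = 0
    rw [hrot, hrot, hrot]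
    have h0 : rot (v, (0 : Fin 3)) = (v, 1) := rfl
    have h1 : rot (v, (1 : Fin 3)) = (v, 2) := rfl
    have h2 : rot (v, (2 : Fin 3)) = (v, 0) := rfl
    rw [h0, h1, h2]
    have : ∀ x y z : ZMod 2, (x + y) + (y + z) + (z + x) = 0 := by decide
    exact this _ _ _

end Acyc75.Euler

namespace Acyc75

open CMap Euler

theorem specEuler : SpecEuler := by
  intro V _ M _ hPlan hV
  classical
  rw [Nat.card_eq_fintype_card] at hV
  have h1 := finrank_Wa M
  have h2 := finrank_ker_su (V := V) (by omega)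
  have h3 := finrank_rel M
  have h4 := Submodule.finrank_mono (range_bdW_le M)
  have h5 : EvS M ≤ LinearMap.range (deW M) := by
    intro C hC
    obtain ⟨A, hA1, hA2⟩ := hPlan C hC
    refine ⟨⟨A, hA1⟩, ?_⟩
    funext d
    exact hA2 d
  have h6 := Submodule.finrank_mono h5
  have h7 := LinearMap.finrank_range_add_finrank_ker (deW M)
  have h8 : 1 ≤ finrank (ZMod 2) (LinearMap.ker (deW M)) := by
    have hone : (fun _ => 1 : Dt V → ZMod 2) ∈ W (phP M) := fun _ => rfl
    have hmem : (⟨fun _ => 1, hone⟩ : W (phP M)) ∈ LinearMap.ker (deW M) := by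
      rw [LinearMap.mem_ker]
      funext d
      show (1 : ZMod 2) + 1 = 0
      decide
    rw [Nat.one_le_iff_ne_zero]
    intro h0
    rw [Submodule.finrank_eq_zero] at h0
    rw [h0, Submodule.mem_bot] at hmem
    obtain ⟨v⟩ := Fintype.card_pos_iff.mp (show 0 < Fintype.card V by omega)
    have h' : (1 : ZMod 2) = 0 := congrFun (congrArg Subtype.val hmem) (v, 0)
    exact absurd h' (by decide)
  have h9 := sum_inv (phP M)
  rw [finrank_W] at h7
  have h10 : Fintype.card V + 4 ≤ 2 * Fintype.card (Q (phP M)) := by omega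
  have h11 : ∑ d : Dt V, (6 / (M.len d : ℚ) - 1) =
      6 * Fintype.card (Q (phP M)) - 3 * Fintype.card V := by
    rw [Finset.sum_sub_distrib, ← h9, Finset.mul_sum]
    congr 1
    · refine Finset.sum_congr rfl fun d _ => ?_
      rw [phP_coe, CMap.len]
      ring
    · rw [Finset.sum_const, Finset.card_univ, Fintype.card_prod, Fintype.card_fin]
      ring
  rw [h11]
  have h12 : ((Fintype.card V : ℚ) + 4) ≤ 2 * Fintype.card (Q (phP M)) := by exact_mod_cast h10
  linarith

theorem specPlanEuler (hTJ : SpecTJoin) : SpecPlanEuler := by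
  intro V _ M k face hne hcon hsurj hface hk
  classical
  have := Fintype.ofFinite V
  rw [Nat.card_eq_fintype_card] at hk
  have hV : 0 < Fintype.card V := Fintype.card_pos_iff.mpr hne
  have h1 := finrank_Wa M
  have h2 := finrank_ker_su (V := V) hV
  have h3 := finrank_rel M
  -- the boundary map is onto
  have h4 : LinearMap.ker (su : (V → ZMod 2) →ₗ[ZMod 2] ZMod 2) ≤ LinearMap.range (bdW M) := by
    obtain ⟨v₀⟩ := hne
    have hT : ∀ w : V, ((Pi.single v₀ 1 : V → ZMod 2) + Pi.single w 1) ∈
        LinearMap.range (bdW M) := by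
      intro w
      obtain ⟨C, hC1, -, hC3⟩ := hTJ V M Set.univ (by
        intro U _ hU1 hU2
        have hc := hcon U hU1 hU2
        have hn : {d : Dt V | d.1 ∈ U ∧ (M.a d).1 ∉ U}.Nonempty := by
          rw [← Set.ncard_pos]
          exact hc
        obtain ⟨d, hd1, hd2⟩ := hn
        exact ⟨d, hd1, ⟨Set.mem_univ _, hd2⟩⟩) v₀ (Set.mem_univ _) w (Set.mem_univ _)
      refine ⟨⟨C, hC1⟩, ?_⟩
      funext v
      have h := hC3 v
      show C (v, 0) + C (v, 1) + C (v, 2) = _
      rw [h]
      simp only [Pi.add_apply, Set.indicator_apply, Set.mem_singleton_iff, Pi.single_apply]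
    intro y hy
    have hy0 : ∑ v, y v = 0 := LinearMap.mem_ker.mp hy
    have hy2 : y = ∑ w, y w • ((Pi.single v₀ 1 : V → ZMod 2) + Pi.single w 1) := by
      simp only [smul_add, Finset.sum_add_distrib]
      rw [← Finset.sum_smul, hy0, zero_smul, zero_add]
      funext v
      rw [Finset.sum_apply]
      simp [Pi.single_apply]
    rw [hy2]
    exact Submodule.sum_mem _ fun w _ => Submodule.smul_mem _ _ (hT w)
  have h5 := Submodule.finrank_mono h4
  have h5' := Submodule.finrank_mono (range_bdW_le M)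
  have h7 := LinearMap.finrank_range_add_finrank_ker (deW M)
  -- the number of faces
  have h8 : Fintype.card (Q (phP M)) = k := by
    have hsm : ∀ d d' : Dt V, mk (phP M) d = mk (phP M) d' ↔ face d = face d' := by
      intro d d'
      rw [mk_eq, mem_orbit, hface]
      constructor
      · rintro ⟨n, hn⟩
        have hsc : (phP M).SameCycle d d' := by
          refine Equiv.Perm.SameCycle.symm ⟨n, hn⟩
        obtain ⟨i, -, hi⟩ := hsc.exists_pow_eq'
        refine ⟨i, ?_⟩
        rw [← hi, ← phP_coe, Equiv.Perm.iterate_eq_pow]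
      · rintro ⟨n, hn⟩
        rw [← phP_coe, Equiv.Perm.iterate_eq_pow] at hn
        have hsc : (phP M).SameCycle d d' := ⟨n, by exact_mod_cast hn⟩
        exact hsc.symm
    have e : Q (phP M) ≃ Fin k := by
      refine Equiv.ofBijective (Quotient.lift face ?_) ⟨?_, ?_⟩
      · intro d d' hdd
        exact (hsm d d').mp (Quotient.sound hdd)
      · intro q q'
        refine Quotient.inductionOn₂ q q' ?_
        intro d d' hdd
        exact (hsm d d').mpr hdd
      · intro i
        obtain ⟨d, hd⟩ := hsurj i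
        exact ⟨mk (phP M) d, hd⟩
    rw [Fintype.card_congr e, Fintype.card_fin]
  rw [finrank_W, h8] at h7
  -- the kernel
  have h9 : finrank (ZMod 2) (LinearMap.ker (deW M)) ≤ 1 := by
    obtain ⟨v₀⟩ := hne
    refine finrank_le_one (⟨⟨fun _ => 1, fun _ => rfl⟩, ?_⟩ : LinearMap.ker (deW M)) ?_
    · rw [LinearMap.mem_ker]
      funext d
      show (1 : ZMod 2) + 1 = 0
      decide
    · rintro ⟨⟨A, hA⟩, hker⟩
      rw [LinearMap.mem_ker] at hker
      have hk1 : ∀ d, A (M.a d) = A d := by
        intro d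
        have h := congrFun hker d
        have h' : A d + A (M.a d) = 0 := h
        have : ∀ x y : ZMod 2, x + y = 0 → y = x := by decide
        exact this _ _ h'
      have hk2 : ∀ d, A (rot d) = A d := by
        intro d
        have h := hA (M.a d)
        have h' : A (rot (M.a (M.a d))) = A (M.a d) := h
        rw [M.inv, hk1] at h'
        exact h'
      have hk3 : ∀ v (i : Fin 3), A (v, i) = A (v, 0) := by
        intro v i
        have e0 : A (v, 1) = A (v, 0) := hk2 (v, 0)
        have e1 : A (v, 2) = A (v, 1) := hk2 (v, 1)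
        fin_cases i
        · rfl
        · exact e0
        · exact e1.trans e0
      have hk4 : ∀ d, A d = A (v₀, 0) := by
        by_contra hcon2
        push Not at hcon2
        obtain ⟨d, hd⟩ := hcon2
        let S : Set V := {v | A (v, 0) = A (v₀, 0)}
        have hS1 : S.Nonempty := ⟨v₀, rfl⟩
        have hS2 : S ≠ Set.univ := by
          intro h
          have : d.1 ∈ S := h ▸ Set.mem_univ _
          have h' : A (d.1, 0) = A (v₀, 0) := this
          rw [← hk3 d.1 d.2] at h'
          exact hd h'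
        have hc := hcon S hS1 hS2
        have hn : {d : Dt V | d.1 ∈ S ∧ (M.a d).1 ∉ S}.Nonempty := by
          rw [← Set.ncard_pos]
          exact hc
        obtain ⟨e, he1, he2⟩ := hn
        apply he2
        show A ((M.a e).1, 0) = A (v₀, 0)
        rw [← hk3 (M.a e).1 (M.a e).2]
        show A (M.a e) = A (v₀, 0)
        rw [hk1 e]
        have he1' : A (e.1, 0) = A (v₀, 0) := he1
        rw [← he1', ← hk3 e.1 e.2]
      refine ⟨A (v₀, 0), ?_⟩
      apply Subtype.ext
      apply Subtype.ext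
      funext d
      show A (v₀, 0) * 1 = A d
      rw [mul_one, hk4 d]
  have h10 : EvS M = LinearMap.range (deW M) := by
    symm
    apply Submodule.eq_of_le_of_finrank_le (range_deW_le M)
    omega
  intro C hC
  have hC' : C ∈ EvS M := hC
  rw [h10] at hC'
  obtain ⟨⟨A, hA⟩, hA2⟩ := hC'
  exact ⟨A, hA, fun d => congrFun hA2 d⟩

end Acyc75
end

section
/-!
# MP_1e9f59_co : contraction of one side of a 3-edge-cut
-/
set_option autoImplicit false

namespace Acyc75.Ctr

open CMap Euler

variable {V : Type} (M : CMap V)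

lemma const_of_mk {A : Dt V → ZMod 2} (hA : ∀ d, A (M.ph d) = A d) {d d' : Dt V}
    (h : mk (phP M) d = mk (phP M) d') : A d = A d' := by
  obtain ⟨n, hn⟩ := (mem_orbit _).mp ((mk_eq _).mp h)
  rw [← hn]
  exact W_zpow (phP M) (A := A) hA n d'

/-- The darts of the cut of `S`. -/
def D (S : Set V) : Set (Dt V) := {d | d.1 ∈ S ∧ (M.a d).1 ∉ S}

section fin

variable [Fintype V]

open Classical in
lemma fiber_card (S : Set V) (q : Q (phP M)) :
    (Finset.univ.filter fun d => d ∈ D M S ∧ mk (phP M) d = q).card =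
      (Finset.univ.filter fun d => d ∈ D M S ∧ mk (phP M) (M.a d) = q).card := by
  have hmk : ∀ d, mk (phP M) (M.ph d) = mk (phP M) d := by
    intro d
    rw [mk_eq, mem_orbit]
    exact ⟨1, by simp [phP_coe]⟩
  -- the number of darts of `q` starting in `S`
  have h1 : (Finset.univ.filter fun d : Dt V => mk (phP M) d = q ∧ (M.a d).1 ∈ S).card =
      (Finset.univ.filter fun d : Dt V => mk (phP M) d = q ∧ d.1 ∈ S).card := by
    refine Finset.card_bij (fun d _ => M.ph d) ?_ ?_ ?_
    · intro d hd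
      rw [Finset.mem_filter] at hd ⊢
      exact ⟨Finset.mem_univ _, by rw [hmk]; exact hd.2.1, hd.2.2⟩
    · intro d _ d' _ h
      exact (phP M).injective h
    · intro d hd
      rw [Finset.mem_filter] at hd
      refine ⟨(phP M).symm d, ?_, (phP M).apply_symm_apply d⟩
      have h2 : M.ph ((phP M).symm d) = d := (phP M).apply_symm_apply d
      rw [Finset.mem_filter]
      refine ⟨Finset.mem_univ _, ?_, ?_⟩
      · rw [← hmk, h2]
        exact hd.2.1
      · have h3 : (M.ph ((phP M).symm d)).1 = (M.a ((phP M).symm d)).1 := rfl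
        rw [← h3, h2]
        exact hd.2.2
  have h2 : (Finset.univ.filter fun d : Dt V => mk (phP M) d = q ∧ d.1 ∈ S).card =
      (Finset.univ.filter fun d : Dt V => mk (phP M) d = q ∧ d.1 ∈ S ∧ (M.a d).1 ∈ S).card +
      (Finset.univ.filter fun d => d ∈ D M S ∧ mk (phP M) d = q).card := by
    rw [← Finset.card_union_of_disjoint]
    · congr 1
      ext d
      simp only [Finset.mem_filter, Finset.mem_univ, true_and, Finset.mem_union, D,
        Set.mem_ofPred_eq]
      tauto
    · rw [Finset.disjoint_filter]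
      intro d _ h3 h4
      exact h4.1.2 h3.2.2
  have h3 : (Finset.univ.filter fun d : Dt V => mk (phP M) d = q ∧ (M.a d).1 ∈ S).card =
      (Finset.univ.filter fun d : Dt V => mk (phP M) d = q ∧ d.1 ∈ S ∧ (M.a d).1 ∈ S).card +
      (Finset.univ.filter fun d => d.1 ∉ S ∧ (M.a d).1 ∈ S ∧ mk (phP M) d = q).card := by
    rw [← Finset.card_union_of_disjoint]
    · congr 1
      ext d
      simp only [Finset.mem_filter, Finset.mem_univ, true_and, Finset.mem_union]
      tauto
    · rw [Finset.disjoint_filter]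
      intro d _ h3 h4
      exact h4.1 h3.2.1
  have h4 : (Finset.univ.filter fun d : Dt V => d.1 ∉ S ∧ (M.a d).1 ∈ S ∧ mk (phP M) d = q).card =
      (Finset.univ.filter fun d => d ∈ D M S ∧ mk (phP M) (M.a d) = q).card := by
    refine Finset.card_bij (fun d _ => M.a d) ?_ ?_ ?_
    · intro d hd
      rw [Finset.mem_filter] at hd ⊢
      refine ⟨Finset.mem_univ _, ⟨hd.2.2.1, ?_⟩, ?_⟩
      · rw [M.inv]
        exact hd.2.1
      · rw [M.inv]
        exact hd.2.2.2
    · intro d _ d' _ h
      exact (aP M).injective h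
    · intro d hd
      rw [Finset.mem_filter] at hd
      refine ⟨M.a d, ?_, M.inv d⟩
      rw [Finset.mem_filter]
      refine ⟨Finset.mem_univ _, hd.2.1.2, ?_, hd.2.2⟩
      rw [M.inv]
      exact hd.2.1.1
  omega

lemma perm3 : ∀ σ : Equiv.Perm (Fin 3), (∀ x, σ x ≠ x) →
    (∀ l, σ l = l + 1) ∨ (∀ l, σ l = l + 2) := by decide

/-- Enumeration of the cut darts in their cyclic order. -/
lemma exists_al (hEF : SpecEdgeFace) (S : Set V) (hTEC : M.TEC) (hPlan : M.Plan)
    (hcut : M.cut S = 3) (h2 : 2 ≤ Nat.card V) :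
    ∃ al : Fin 3 → Dt V, Function.Injective al ∧ (∀ d, d ∈ D M S ↔ ∃ l, al l = d) ∧
      ∀ l, mk (phP M) (M.a (al (l + 1))) = mk (phP M) (al l) := by
  classical
  have hcard : Fintype.card (D M S) = 3 := by
    rw [← Nat.card_eq_fintype_card]
    exact hcut
  let e : D M S ≃ Fin 3 := Fintype.equivFinOfCardEq hcard
  have hfib : ∀ q : Q (phP M), Nonempty ({d : D M S // mk (phP M) d.1 = q} ≃
      {d : D M S // mk (phP M) (M.a d.1) = q}) := by
    intro q
    rw [← Finite.card_eq]
    have h := fiber_card M S q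
    have key : ∀ P : Dt V → Prop, Nat.card {d : D M S // P d.1} =
        (Finset.univ.filter fun d => d ∈ D M S ∧ P d).card := by
      intro P
      rw [Nat.card_eq_fintype_card, Fintype.card_subtype]
      refine Finset.card_bij (fun d _ => d.1) ?_ ?_ ?_
      · intro d hd
        rw [Finset.mem_filter] at hd ⊢
        exact ⟨Finset.mem_univ _, d.2, hd.2⟩
      · intro d _ d' _ h
        exact Subtype.ext h
      · intro d hd
        rw [Finset.mem_filter] at hd
        refine ⟨⟨d, hd.2.1⟩, ?_, rfl⟩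
        rw [Finset.mem_filter]
        exact ⟨Finset.mem_univ _, hd.2.2⟩
    have k1 := key (fun d => mk (phP M) d = q)
    have k2 := key (fun d => mk (phP M) (M.a d) = q)
    refine k1.trans (Eq.trans ?_ k2.symm)
    convert h
  let π : D M S ≃ D M S := Equiv.ofFiberEquiv
    (f := fun d : D M S => mk (phP M) d.1) (g := fun d : D M S => mk (phP M) (M.a d.1))
    fun q => (hfib q).some
  have hπ : ∀ d : D M S, mk (phP M) (M.a (π d).1) = mk (phP M) d.1 := fun d =>
    Equiv.ofFiberEquiv_map (f := fun d : D M S => mk (phP M) d.1)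
      (g := fun d : D M S => mk (phP M) (M.a d.1)) (fun q => (hfib q).some) d
  have hfp : ∀ d, π d ≠ d := by
    intro d h
    have h3 := hπ d
    rw [h, mk_eq, mem_orbit] at h3
    obtain ⟨n, hn⟩ := h3
    have hsc : (phP M).SameCycle d.1 (M.a d.1) := ⟨n, hn⟩
    obtain ⟨i, -, hi⟩ := hsc.exists_pow_eq'
    refine hEF V M hTEC hPlan h2 d.1 i ?_
    rw [← hi, ← phP_coe, Equiv.Perm.iterate_eq_pow]
  let σ : Equiv.Perm (Fin 3) := (e.symm.trans π).trans e
  have hσ : ∀ x, σ x ≠ x := by
    intro x h
    apply hfp (e.symm x)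
    apply e.injective
    rw [e.apply_symm_apply]
    exact h
  have hrange : ∀ (g : Fin 3 ≃ Fin 3) (d : Dt V), d ∈ D M S ↔ ∃ l, (e.symm (g l)).1 = d := by
    intro g d
    constructor
    · intro hd
      refine ⟨g.symm (e ⟨d, hd⟩), ?_⟩
      simp
    · rintro ⟨l, rfl⟩
      exact (e.symm (g l)).2
  rcases perm3 σ hσ with h | h
  · refine ⟨fun l => (e.symm l).1, fun x y hxy => e.symm.injective (Subtype.ext hxy),
      hrange (Equiv.refl _), fun l => ?_⟩
    have h3 : π (e.symm l) = e.symm (l + 1) := by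
      apply e.injective
      rw [e.apply_symm_apply, ← h l]
      rfl
    show mk (phP M) (M.a (e.symm (l + 1)).1) = _
    rw [← h3]
    exact hπ _
  · let g : Fin 3 ≃ Fin 3 := Equiv.swap 1 2
    have hg : ∀ l : Fin 3, g (l + 1) = g l + 2 := by
      show ∀ l : Fin 3, (Equiv.swap (1 : Fin 3) 2) (l + 1) = (Equiv.swap (1 : Fin 3) 2) l + 2
      decide
    refine ⟨fun l => (e.symm (g l)).1, fun x y hxy => g.injective (e.symm.injective
      (Subtype.ext hxy)), hrange g, fun l => ?_⟩
    have h3 : π (e.symm (g l)) = e.symm (g (l + 1)) := by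
      apply e.injective
      rw [e.apply_symm_apply, hg, ← h (g l)]
      rfl
    show mk (phP M) (M.a (e.symm (g (l + 1))).1) = _
    rw [← h3]
    exact hπ _

end fin

/-! ## The contracted map -/

section contracted

variable {S : Set V} (al : Fin 3 → Dt V) (hal : Function.Injective al)
  (hD : ∀ d, d ∈ D M S ↔ ∃ l, al l = d)

include hD in
lemma al_mem (l : Fin 3) : (al l).1 ∈ S := ((hD (al l)).mpr ⟨l, rfl⟩).1

include hD in
lemma al_out (l : Fin 3) : (M.a (al l)).1 ∉ S := ((hD (al l)).mpr ⟨l, rfl⟩).2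

/-- Darts of the contracted map as darts of `M`. -/
def Th : Dt (Option S) → Dt V
  | (some v, i) => (v.1, i)
  | (none, l) => M.a (al l)

open Classical in
/-- The involution of the contracted map. -/
noncomputable def a' : Dt (Option S) → Dt (Option S)
  | (some v, i) => if h : (M.a (v.1, i)).1 ∈ S then (some ⟨(M.a (v.1, i)).1, h⟩, (M.a (v.1, i)).2)
      else (none, if hl : ∃ l, al l = (v.1, i) then hl.choose else 0)
  | (none, l) => if h : (al l).1 ∈ S then (some ⟨(al l).1, h⟩, (al l).2) else (none, 0)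

include hD in
lemma Th_a' (x : Dt (Option S)) : Th M al (a' M al x) = M.a (Th M al x) := by
  obtain ⟨v | v, i⟩ := x
  · have h := al_mem M al hD i
    simp only [a', h, dif_pos, Th, M.inv]
  · by_cases h : (M.a (v.1, i)).1 ∈ S
    · simp only [a', h, dif_pos, Th]
    · have hl : ∃ l, al l = (v.1, i) := (hD _).mp ⟨v.2, h⟩
      simp only [a', h, dif_neg, not_false_eq_true, hl, dif_pos, Th]
      rw [hl.choose_spec]

include hal hD in
lemma Th_inj : Function.Injective (Th M al : Dt (Option S) → Dt V) := by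
  rintro ⟨v | v, i⟩ ⟨w | w, j⟩ h
  · have h2 : al i = al j := (aP M).injective h
    rw [hal h2]
  · exfalso
    have h2 : M.a (al i) = (w.1, j) := h
    have := al_out M al hD i
    rw [h2] at this
    exact this w.2
  · exfalso
    have h2 : (v.1, i) = M.a (al j) := h
    have := al_out M al hD j
    rw [← h2] at this
    exact this v.2
  · have h2 : (v.1, i) = (w.1, j) := h
    have h3 := congrArg Prod.fst h2
    have h4 := congrArg Prod.snd h2
    have h5 : v = w := Subtype.ext h3
    have h6 : i = j := h4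
    rw [h5, h6]

/-- The contracted map. -/
noncomputable def M' : CMap (Option S) where
  a := a' M al
  inv x := by
    apply Th_inj M al hal hD
    rw [Th_a' M al hD, Th_a' M al hD, M.inv]
  ne x h := by
    have := congrArg (Th M al) h
    rw [Th_a' M al hD] at this
    exact M.ne _ this

lemma isCtr : M.IsCtr S (M' M al hal hD) where
  int := by
    intro v w hv hw i j h
    have h1 : (M.a (v, i)).1 ∈ S := by rw [h]; exact hw
    show a' M al (some ⟨v, hv⟩, i) = _
    simp only [a', h1, dif_pos]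
    apply Prod.ext
    · simp only [h]
    · simp only [h]
  bd := by
    intro v hv i h
    show (a' M al (some ⟨v, hv⟩, i)).1 = none
    simp only [a', h, dif_neg, not_false_eq_true]

include hal hD in
lemma al_a' (l : Fin 3) : a' M al (some ⟨(al l).1, al_mem M al hD l⟩, (al l).2) =
    ((none, l) : Dt (Option S)) := by
  apply Th_inj M al hal hD
  rw [Th_a' M al hD]
  rfl

/-- The projection of the vertices. -/
noncomputable def q (v : V) : Option S := open Classical in if h : v ∈ S then some ⟨v, h⟩ else none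

lemma q_Th (x : Dt (Option S)) (hD : ∀ d, d ∈ D M S ↔ ∃ l, al l = d) :
    q (S := S) (Th M al x).1 = x.1 := by
  obtain ⟨v | v, i⟩ := x
  · have h := al_out M al hD i
    simp only [q, Th, h, dif_neg, not_false_eq_true]
  · simp only [q, Th, v.2, dif_pos]

lemma cut_eq (T : Set (Option S)) :
    (M' M al hal hD).cut T = M.cut {v | q (S := S) v ∈ T} := by
  rw [CMap.cut, CMap.cut]
  have himg : {d : Dt V | d.1 ∈ {v | q (S := S) v ∈ T} ∧ (M.a d).1 ∉ {v | q (S := S) v ∈ T}} =
      Th M al '' {x : Dt (Option S) | x.1 ∈ T ∧ ((M' M al hal hD).a x).1 ∉ T} := by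
    ext d
    constructor
    · rintro ⟨h1, h2⟩
      have h1' : q (S := S) d.1 ∈ T := h1
      have h2' : q (S := S) (M.a d).1 ∉ T := h2
      have hx : ∃ x : Dt (Option S), Th M al x = d := by
        by_cases hS : d.1 ∈ S
        · exact ⟨(some ⟨d.1, hS⟩, d.2), rfl⟩
        · by_cases hS2 : (M.a d).1 ∈ S
          · have hd : M.a d ∈ D M S := ⟨hS2, by rw [M.inv]; exact hS⟩
            obtain ⟨l, hl⟩ := (hD _).mp hd
            refine ⟨(none, l), ?_⟩
            show M.a (al l) = d
            rw [hl, M.inv]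
          · exfalso
            apply h2'
            have e1 : q (S := S) d.1 = none := by simp only [q, hS, dif_neg, not_false_eq_true]
            have e2 : q (S := S) (M.a d).1 = none := by
              simp only [q, hS2, dif_neg, not_false_eq_true]
            rw [e2, ← e1]
            exact h1'
      obtain ⟨x, rfl⟩ := hx
      refine ⟨x, ⟨?_, ?_⟩, rfl⟩
      · rw [q_Th M al x hD] at h1'
        exact h1'
      · rw [← Th_a' M al hD, q_Th M al _ hD] at h2'
        exact h2'
    · rintro ⟨x, ⟨h1, h2⟩, rfl⟩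
      refine ⟨?_, ?_⟩
      · show q (S := S) (Th M al x).1 ∈ T
        rw [q_Th M al x hD]
        exact h1
      · show q (S := S) (M.a (Th M al x)).1 ∉ T
        rw [← Th_a' M al hD, q_Th M al _ hD]
        exact h2
  rw [himg, Set.ncard_image_of_injective _ (Th_inj M al hal hD)]

lemma tec (hTEC : M.TEC) (hS : Sᶜ.Nonempty) : (M' M al hal hD).TEC := by
  intro T hT1 hT2
  rw [cut_eq]
  have hsurj : ∀ x : Option S, ∃ v, q (S := S) v = x := by
    rintro (_ | v)
    · obtain ⟨w, hw⟩ := hS
      have hw' : w ∉ S := hw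
      exact ⟨w, by simp only [q, hw', dif_neg, not_false_eq_true]⟩
    · exact ⟨v.1, by simp only [q, v.2, dif_pos]⟩
  refine hTEC _ ?_ ?_
  · obtain ⟨x, hx⟩ := hT1
    obtain ⟨v, hv⟩ := hsurj x
    exact ⟨v, by show q (S := S) v ∈ T; rw [hv]; exact hx⟩
  · intro h
    apply hT2
    rw [Set.eq_univ_iff_forall] at h ⊢
    intro x
    obtain ⟨v, hv⟩ := hsurj x
    rw [← hv]
    exact h v

lemma conn [Finite V] (hTEC : M.TEC) (hcut : M.cut S = 3) (U : Set V) (hU : U ⊆ Sᶜ)
    (hne : U.Nonempty) (hU2 : U ≠ Sᶜ) : ∃ d : Dt V, d.1 ∈ U ∧ (M.a d).1 ∈ Sᶜ \ U := by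
  by_contra hcon
  push Not at hcon
  have hSne : S.Nonempty := by
    by_contra h
    rw [Set.not_nonempty_iff_eq_empty] at h
    rw [h, CMap.cut] at hcut
    simp at hcut
  have hU3 : (Sᶜ \ U).Nonempty := by
    rw [Set.nonempty_iff_ne_empty]
    intro h
    apply hU2
    exact Set.Subset.antisymm hU (Set.sdiff_eq_empty.mp h)
  have h1 : 3 ≤ M.cut U := by
    refine hTEC U hne ?_
    intro h
    obtain ⟨s, hs⟩ := hSne
    exact hU (h ▸ Set.mem_univ s) hs
  have h2 : 3 ≤ M.cut (Sᶜ \ U) := by
    refine hTEC _ hU3 ?_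
    intro h
    obtain ⟨s, hs⟩ := hSne
    have : s ∈ Sᶜ \ U := h ▸ Set.mem_univ s
    exact this.1 hs
  have hcon2 : ∀ d : Dt V, d.1 ∈ Sᶜ \ U → (M.a d).1 ∉ U := by
    intro d hd h
    exact hcon (M.a d) h (by rw [M.inv]; exact hd)
  have h3 : M.cut U + M.cut (Sᶜ \ U) ≤ M.cut S := by
    rw [CMap.cut, CMap.cut, CMap.cut]
    rw [← Set.ncard_union_eq]
    · rw [← Set.ncard_image_of_injective _ (aP M).injective]
      refine Set.ncard_le_ncard ?_ (Set.toFinite _)
      rintro _ ⟨d, hd | hd, rfl⟩
      · refine ⟨?_, ?_⟩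
        · by_contra h
          exact hcon d hd.1 ⟨h, hd.2⟩
        · show (M.a (M.a d)).1 ∉ S
          rw [M.inv]
          exact hU hd.1
      · refine ⟨?_, ?_⟩
        · by_contra h
          exact hd.2 ⟨h, hcon2 d hd.1⟩
        · show (M.a (M.a d)).1 ∉ S
          rw [M.inv]
          exact hd.1.1
    · rw [Set.disjoint_left]
      intro d h1 h2
      exact h2.1.2 h1.1
  omega

/-! ## Planarity of the contracted map -/

section plan

open Classical

/-- The chain on `M` extending the chain `C'` of the contracted map; `T` is the part inside the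
complement of `S`. -/
noncomputable def ext (C' : Dt (Option S) → ZMod 2) (T : Dt V → ZMod 2) (d : Dt V) : ZMod 2 :=
  if h : d.1 ∈ S then C' (some ⟨d.1, h⟩, d.2)
  else if h : (M.a d).1 ∈ S then C' (some ⟨(M.a d).1, h⟩, (M.a d).2) else T d

/-- The value of `C'` at the `l`-th cut dart. -/
noncomputable def J (C' : Dt (Option S) → ZMod 2) (hmem : ∀ l, (al l).1 ∈ S) (l : Fin 3) : ZMod 2 :=
  C' (some ⟨(al l).1, hmem l⟩, (al l).2)

lemma ext_ev [Fintype V] (C' : Dt (Option S) → ZMod 2) (hev : (M' M al hal hD).Ev C')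
    (T : Dt V → ZMod 2)
    (hT1 : ∀ d, T (M.a d) = T d) (hT2 : ∀ d, T d ≠ 0 → d.1 ∈ Sᶜ ∧ (M.a d).1 ∈ Sᶜ)
    (hT3 : ∀ v, v ∉ S → T (v, 0) + T (v, 1) + T (v, 2) =
      ∑ l, if (M.a (al l)).1 = v then J al C' (al_mem M al hD) l else 0) :
    M.Ev (ext M C' T) := by
  refine ⟨fun d => ?_, fun v => ?_⟩
  · by_cases h1 : d.1 ∈ S
    · by_cases h2 : (M.a d).1 ∈ S
      · simp only [ext, h1, h2, dif_pos]
        have h3 := hev.1 (some ⟨d.1, h1⟩, d.2)
        have h4 : (M' M al hal hD).a (some ⟨d.1, h1⟩, d.2) =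
            (some ⟨(M.a d).1, h2⟩, (M.a d).2) :=
          (isCtr M al hal hD).int d.1 (M.a d).1 h1 h2 d.2 (M.a d).2 rfl
        rw [h4] at h3
        exact h3
      · simp only [ext, h1, h2, dif_pos, dif_neg, not_false_eq_true, M.inv]
    · by_cases h2 : (M.a d).1 ∈ S
      · simp only [ext, h1, h2, dif_pos, dif_neg, not_false_eq_true]
      · simp only [ext, h1, h2, dif_neg, not_false_eq_true, M.inv]
        exact hT1 d
  · by_cases hv : v ∈ S
    · simp only [ext, hv, dif_pos]
      exact hev.2 (some ⟨v, hv⟩)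
    · have hdec : ∀ i : Fin 3, ext M C' T (v, i) = T (v, i) +
          ∑ l, if M.a (al l) = (v, i) then J al C' (al_mem M al hD) l else 0 := by
        intro i
        by_cases h2 : (M.a (v, i)).1 ∈ S
        · have hT0 : T (v, i) = 0 := by
            by_contra h
            exact (hT2 _ h).2 h2
          have hd : M.a (v, i) ∈ D M S := ⟨h2, by rw [M.inv]; exact hv⟩
          obtain ⟨l₀, hl₀⟩ := (hD _).mp hd
          rw [hT0, zero_add, Finset.sum_eq_single l₀]
          · have h3 : M.a (al l₀) = (v, i) := by rw [hl₀, M.inv]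
            simp only [ext, hv, h2, dif_pos, dif_neg, not_false_eq_true, h3, if_true, J]
            congr 1
            apply Prod.ext
            · simp only [hl₀]
            · simp only [hl₀]
          · intro l _ hl
            rw [if_neg]
            intro h3
            apply hl
            apply hal
            rw [hl₀, ← h3, M.inv]
          · intro h
            exact absurd (Finset.mem_univ _) h
        · rw [Finset.sum_eq_zero, add_zero]
          · simp only [ext, hv, h2, dif_neg, not_false_eq_true]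
          · intro l _
            rw [if_neg]
            intro h3
            apply h2
            rw [← h3, M.inv]
            exact al_mem M al hD l
      rw [hdec 0, hdec 1, hdec 2]
      have h3 := hT3 v hv
      have h4 : ∀ l : Fin 3, (if (M.a (al l)).1 = v then J al C' (al_mem M al hD) l else 0) =
          (if M.a (al l) = (v, 0) then J al C' (al_mem M al hD) l else 0) +
          (if M.a (al l) = (v, 1) then J al C' (al_mem M al hD) l else 0) +
          (if M.a (al l) = (v, 2) then J al C' (al_mem M al hD) l else 0) := by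
        intro l
        obtain ⟨w, j⟩ := M.a (al l)
        by_cases hw : w = v
        · subst hw
          fin_cases j <;> simp
        · simp [hw]
      rw [Finset.sum_congr rfl fun l _ => h4 l, Finset.sum_add_distrib, Finset.sum_add_distrib] at h3
      have h5 : ∀ a b c x y z : ZMod 2, a + b + c = x + y + z → (a + x) + (b + y) + (c + z) = 0 := by
        decide
      exact h5 _ _ _ _ _ _ h3

include hD in
lemma exists_T [Fintype V] (hTJ : SpecTJoin) (hTEC : M.TEC) (hcut : M.cut S = 3)
    (j : Fin 3 → ZMod 2) (hj : j 0 + j 1 + j 2 = 0) :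
    ∃ T : Dt V → ZMod 2, (∀ d, T (M.a d) = T d) ∧ (∀ d, T d ≠ 0 → d.1 ∈ Sᶜ ∧ (M.a d).1 ∈ Sᶜ) ∧
      ∀ v, v ∉ S → T (v, 0) + T (v, 1) + T (v, 2) =
        ∑ l, if (M.a (al l)).1 = v then j l else 0 := by
  have hc := conn M (S := S) hTEC hcut
  obtain ⟨T1, a1, a2, a3⟩ := hTJ V M Sᶜ hc (M.a (al 0)).1 (al_out M al hD 0) (M.a (al 1)).1
    (al_out M al hD 1)
  obtain ⟨T2, b1, b2, b3⟩ := hTJ V M Sᶜ hc (M.a (al 0)).1 (al_out M al hD 0) (M.a (al 2)).1
    (al_out M al hD 2)
  refine ⟨fun d => j 1 * T1 d + j 2 * T2 d, fun d => by simp only [a1, b1], fun d hd => ?_, fun v _ => ?_⟩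
  · by_cases h : T1 d = 0
    · have h2 : T2 d ≠ 0 := by
        intro h2
        apply hd
        show j 1 * T1 d + j 2 * T2 d = 0
        rw [h, h2]
        ring
      exact b2 d h2
    · exact a2 d h
  · have e1 := a3 v
    have e2 := b3 v
    have e3 : j 1 * T1 (v, 0) + j 2 * T2 (v, 0) + (j 1 * T1 (v, 1) + j 2 * T2 (v, 1)) +
        (j 1 * T1 (v, 2) + j 2 * T2 (v, 2)) = j 1 * (T1 (v, 0) + T1 (v, 1) + T1 (v, 2)) +
          j 2 * (T2 (v, 0) + T2 (v, 1) + T2 (v, 2)) := by ring
    rw [e3, e1, e2, Fin.sum_univ_three]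
    simp only [Set.indicator_apply, Set.mem_singleton_iff]
    have e4 : j 0 = j 1 + j 2 := by
      have : ∀ a b c : ZMod 2, a + b + c = 0 → a = b + c := by decide
      exact this _ _ _ hj
    rw [e4]
    simp only [eq_comm (a := v)]
    split_ifs <;> ring

/-- The face function of the contracted map. -/
noncomputable def A' (A : Dt V → ZMod 2) : Dt (Option S) → ZMod 2
  | (some v, i) => A (v.1, i)
  | (none, l) => A (al (l + 2))

lemma plan [Fintype V] (hTJ : SpecTJoin) (hTEC : M.TEC) (hPlan : M.Plan) (hcut : M.cut S = 3)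
    (hcyc : ∀ l, mk (phP M) (M.a (al (l + 1))) = mk (phP M) (al l)) :
    (M' M al hal hD).Plan := by
  intro C' hC'
  have hsum : J al C' (al_mem M al hD) 0 + J al C' (al_mem M al hD) 1 +
      J al C' (al_mem M al hD) 2 = 0 := by
    have h := hC'.2 none
    have h2 : ∀ l, C' (none, l) = J al C' (al_mem M al hD) l := by
      intro l
      rw [← hC'.1 (none, l)]
      show C' (a' M al (none, l)) = _
      have h3 := al_mem M al hD l
      simp only [a', h3, dif_pos, J]
    rw [h2, h2, h2] at h
    exact h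
  obtain ⟨T, t1, t2, t3⟩ := exists_T M al hD hTJ hTEC hcut (J al C' (al_mem M al hD)) hsum
  obtain ⟨A, hA1, hA2⟩ := hPlan (ext M C' T) (ext_ev M al hal hD C' hC' T t1 t2 t3)
  have hkey : ∀ l, A (M.a (al l)) = A (al (l + 2)) := by
    intro l
    have h := const_of_mk M hA1 (hcyc (l + 2))
    have h2 : l + 2 + 1 = l := by
      have : ∀ l : Fin 3, l + 2 + 1 = l := by decide
      exact this l
    rw [h2] at h
    exact h
  refine ⟨A' al A, ?_, ?_⟩
  · rintro ⟨v | v, i⟩
    · -- the dart `(none, i)`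
      have h3 := al_mem M al hD i
      have e : (M' M al hal hD).ph (none, i) = (some ⟨(al i).1, h3⟩, (al i).2 + 1) := by
        show rot (a' M al (none, i)) = _
        simp only [a', h3, dif_pos, rot]
      rw [e]
      show A ((al i).1, (al i).2 + 1) = A (al (i + 2))
      rw [← hkey i, ← hA1 (M.a (al i))]
      show A (rot (al i)) = A (rot (M.a (M.a (al i))))
      rw [M.inv]
    · by_cases h : (M.a (v.1, i)).1 ∈ S
      · have e : (M' M al hal hD).ph (some v, i) =
            (some ⟨(M.a (v.1, i)).1, h⟩, (M.a (v.1, i)).2 + 1) := by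
          show rot (a' M al (some v, i)) = _
          simp only [a', h, dif_pos, rot]
        rw [e]
        exact hA1 (v.1, i)
      · obtain ⟨l, hl⟩ := (hD (v.1, i)).mp ⟨v.2, h⟩
        have hv : (al l).1 = v.1 := by rw [hl]
        have e0 : (some v, i) = ((some ⟨(al l).1, al_mem M al hD l⟩, (al l).2) :
            Dt (Option S)) := by
          apply Prod.ext
          · show some v = some _
            congr 1
            exact Subtype.ext hv.symm
          · show i = (al l).2
            rw [hl]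
        have e : (M' M al hal hD).ph (some v, i) = (none, l + 1) := by
          show rot (a' M al (some v, i)) = _
          rw [e0, al_a' M al hal hD]
          rfl
        rw [e]
        show A (al (l + 1 + 2)) = A (v.1, i)
        have h2 : l + 1 + 2 = l := by
          have : ∀ l : Fin 3, l + 1 + 2 = l := by decide
          exact this l
        rw [h2, hl]
  · -- sums
    have hcutd : ∀ l, A (al l) + A (al (l + 2)) = C' (none, l) := by
      intro l
      rw [← hkey l, hA2 (al l)]
      have h3 := al_mem M al hD l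
      have h4 : ext M C' T (al l) = C' (some ⟨(al l).1, h3⟩, (al l).2) := by
        simp only [ext, h3, dif_pos]
      rw [h4, ← hC'.1 (none, l)]
      show _ = C' (a' M al (none, l))
      simp only [a', h3, dif_pos]
    rintro ⟨v | v, i⟩
    · have h3 := al_mem M al hD i
      have e : (M' M al hal hD).a (none, i) = (some ⟨(al i).1, h3⟩, (al i).2) := by
        show a' M al (none, i) = _
        simp only [a', h3, dif_pos]
      rw [e]
      show A (al (i + 2)) + A ((al i).1, (al i).2) = C' (none, i)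
      rw [← hcutd i, add_comm]
    · by_cases h : (M.a (v.1, i)).1 ∈ S
      · have e : (M' M al hal hD).a (some v, i) =
            (some ⟨(M.a (v.1, i)).1, h⟩, (M.a (v.1, i)).2) := by
          show a' M al (some v, i) = _
          simp only [a', h, dif_pos]
        rw [e]
        have h5 := hA2 (v.1, i)
        have h4 : ext M C' T (v.1, i) = C' (some v, i) := by
          have hv := v.2
          simp only [ext, hv, dif_pos]
        rw [h4] at h5
        exact h5
      · obtain ⟨l, hl⟩ := (hD (v.1, i)).mp ⟨v.2, h⟩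
        have hv : (al l).1 = v.1 := by rw [hl]
        have e0 : (some v, i) = ((some ⟨(al l).1, al_mem M al hD l⟩, (al l).2) :
            Dt (Option S)) := by
          apply Prod.ext
          · show some v = some _
            congr 1
            exact Subtype.ext hv.symm
          · show i = (al l).2
            rw [hl]
        have e : (M' M al hal hD).a (some v, i) = (none, l) := by
          show a' M al (some v, i) = _
          rw [e0, al_a' M al hal hD]
        rw [e, ← hC'.1 (some v, i), e]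
        show A (v.1, i) + A (al (l + 2)) = C' (none, l)
        rw [← hcutd l, hl]

end plan

end contracted

end Acyc75.Ctr

namespace Acyc75

open CMap Ctr

theorem specCtr (hEF : SpecEdgeFace) (hTJ : SpecTJoin) : SpecCtr := by
  intro V _ M S hTEC hPlan hcut
  classical
  have := Fintype.ofFinite V
  have hne : ∃ d : Dt V, d.1 ∈ S ∧ (M.a d).1 ∉ S := by
    have h : 0 < M.cut S := by omega
    rw [CMap.cut, Set.ncard_pos] at h
    exact h
  obtain ⟨d₀, hd1, hd2⟩ := hne
  have h2 : 2 ≤ Nat.card V := by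
    rw [Nat.card_eq_fintype_card]
    have hlt : 1 < Fintype.card V := by
      rw [Fintype.one_lt_card_iff]
      refine ⟨d₀.1, (M.a d₀).1, ?_⟩
      intro h
      exact hd2 (h ▸ hd1)
    exact hlt
  obtain ⟨al, hal, hD, hcyc⟩ := exists_al M hEF S hTEC hPlan hcut h2
  exact ⟨M' M al hal hD, isCtr M al hal hD, tec M al hal hD hTEC ⟨_, hd2⟩,
    plan M al hal hD hTJ hTEC hPlan hcut hcyc⟩

end Acyc75
end

section
/-!
# MP_1e9f59_co : colourings of the contracted map
-/
set_option autoImplicit false

namespace Acyc75.CtrGood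

open CMap Euler

variable {V : Type} {M : CMap V} {S : Set V} {N : CMap (Option S)}

lemma hin (h : M.IsCtr S N) (v : V) (hv : v ∈ S) (i : Fin 3) (h1 : (M.a (v, i)).1 ∈ S) :
    N.a (some ⟨v, hv⟩, i) = (some ⟨(M.a (v, i)).1, h1⟩, (M.a (v, i)).2) :=
  h.int v (M.a (v, i)).1 hv h1 i (M.a (v, i)).2 rfl

/-- The chain on the contracted map, before the definition at the vertex `none`. -/
noncomputable def C0 (C : Dt V → ZMod 2) : Dt (Option S) → ZMod 2
  | (some v, i) => C (v.1, i)
  | (none, _) => 0

/-- The chain on the contracted map. -/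
noncomputable def C1 (N : CMap (Option S)) (C : Dt V → ZMod 2) : Dt (Option S) → ZMod 2
  | (some v, i) => C (v.1, i)
  | (none, l) => C0 C (N.a (none, l))

lemma C1_symm (h : M.IsCtr S N) (C : Dt V → ZMod 2) (hC : M.RCh Sᶜ C) (x : Dt (Option S)) :
    C1 N C (N.a x) = C1 N C x := by
  obtain ⟨v | v, i⟩ := x
  · have h2 : N.a (N.a (none, i)) = (none, i) := N.inv _
    rcases hx : N.a (none, i) with ⟨w | w, j⟩
    · rw [hx] at h2
      show C0 C (N.a (none, j)) = C0 C (N.a (none, i))
      rw [h2, hx]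
      rfl
    · show C (w.1, j) = C0 C (N.a (none, i))
      rw [hx]
      rfl
  · by_cases h1 : (M.a (v.1, i)).1 ∈ S
    · have h2 := hin h v.1 v.2 i h1
      have h2' : N.a (some v, i) = (some ⟨(M.a (v.1, i)).1, h1⟩, (M.a (v.1, i)).2) := h2
      rw [h2']
      show C ((M.a (v.1, i)).1, (M.a (v.1, i)).2) = C (v.1, i)
      exact hC.1 (v.1, i) (fun h3 => h3 v.2) (fun h3 => h3 h1)
    · have h2 := h.bd v.1 v.2 i h1
      have h2' : (N.a (some v, i)).1 = none := h2
      rcases hx : N.a (some v, i) with ⟨w | w, j⟩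
      · have h3 : N.a (N.a (some v, i)) = (some v, i) := N.inv _
        rw [hx] at h3
        show C0 C (N.a (none, j)) = C (v.1, i)
        rw [h3]
        rfl
      · rw [hx] at h2'
        exact absurd h2' (by simp)

lemma C1_ev [Finite V] (h : M.IsCtr S N) (C : Dt V → ZMod 2) (hC : M.RCh Sᶜ C) :
    N.Ev (C1 N C) := by
  classical
  have := Fintype.ofFinite V
  have hsome : ∀ v : S, C1 N C (some v, 0) + C1 N C (some v, 1) + C1 N C (some v, 2) = 0 := by
    intro v
    exact hC.2 v.1 (fun h3 => h3 v.2)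
  refine ⟨C1_symm h C hC, fun v => ?_⟩
  rcases v with _ | v
  · have h1 := sum_inv_zero N.a N.inv N.ne (C1 N C) (C1_symm h C hC)
    rw [Fintype.sum_prod_type, Fintype.sum_option] at h1
    simp only [Fin.sum_univ_three] at h1
    rw [Finset.sum_eq_zero fun v _ => hsome v, add_zero] at h1
    exact h1
  · exact hsome v

/-- The colouring of `V` from a colouring of the contracted map. -/
noncomputable def lft (f : Option S → Fin 3) (v : V) : Fin 3 :=
  open Classical in if h : v ∈ S then f (some ⟨v, h⟩) else 0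

lemma lft_mem (f : Option S → Fin 3) (v : V) (h : v ∈ S) : lft f v = f (some ⟨v, h⟩) := by
  simp only [lft, h, dif_pos]

end Acyc75.CtrGood

namespace Acyc75

open CMap Euler CtrGood

theorem specCtrGood : SpecCtrGood := by
  intro V _ M S N hcut hN
  refine ⟨?_, ?_⟩
  · rintro ⟨f', hf1, hf2⟩
    refine ⟨lft f', f' none, ?_, ?_, ?_⟩
    · intro d h1 h2
      rw [lft_mem _ _ h1, lft_mem _ _ h2]
      have h3 := hf1 (some ⟨d.1, h1⟩, d.2)
      have h4 := hin hN d.1 h1 d.2 h2
      rw [h4] at h3
      exact h3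
    · intro d h1 h2
      rw [lft_mem _ _ h1]
      have h3 := hf1 (some ⟨d.1, h1⟩, d.2)
      have h4 := hN.bd d.1 h1 d.2 h2
      rw [h4] at h3
      exact h3.symm
    · intro p C hC hS hcp d hd
      have hz := hf2 p (C1 N C) (C1_ev hN C hC) (by
        rintro ⟨v | v, i⟩ hx
        · intro hp
          apply hx
          show C0 C (N.a (none, i)) = 0
          rcases hy : N.a (none, i) with ⟨w | w, j⟩
          · rfl
          · show C (w.1, j) = 0
            apply hcp hp (w.1, j) w.2
            intro h5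
            have h6 := hin hN w.1 w.2 j h5
            have h7 : N.a (N.a (none, i)) = (none, i) := N.inv _
            rw [hy] at h7
            have h6' : N.a (some w, j) = (some ⟨(M.a (w.1, j)).1, h5⟩, (M.a (w.1, j)).2) := h6
            rw [h6'] at h7
            have h8 := congrArg Prod.fst h7
            exact absurd h8 (by simp)
        · have h5 := hS (v.1, i) (fun h3 => h3 v.2) hx
          rw [lft_mem _ _ v.2] at h5
          exact h5)
      exact hz (some ⟨d.1, hd⟩, d.2)
  · rintro ⟨d₁, d₂, hne, hd⟩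
    have hsome : ∀ d : Dt (Option S), (d = d₁ ∨ d = d₂) → ∃ (v : S), d.1 = some v := by
      intro d h
      have h1 := (hd d h).1
      rcases h2 : d.1 with _ | v
      · rw [h2] at h1
        exact absurd rfl h1
      · exact ⟨v, rfl⟩
    obtain ⟨v₁, hv₁⟩ := hsome d₁ (Or.inl rfl)
    obtain ⟨v₂, hv₂⟩ := hsome d₂ (Or.inr rfl)
    have e1 : d₁ = (some v₁, d₁.2) := Prod.ext hv₁ rfl
    have e2 : d₂ = (some v₂, d₂.2) := Prod.ext hv₂ rfl
    refine ⟨(v₁.1, d₁.2), (v₂.1, d₂.2), ?_, ?_⟩
    · intro h
      apply hne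
      rw [e1, e2]
      have h1 : v₁ = v₂ := Subtype.ext (Prod.mk.inj h).1
      have h2 : d₁.2 = d₂.2 := (Prod.mk.inj h).2
      rw [h1, h2]
    · intro e he
      -- the dart of the contracted map
      have hex : ∃ (v : S) (i : Fin 3), e = (v.1, i) ∧
          (((some v, i) : Dt (Option S)) = d₁ ∨ ((some v, i) : Dt (Option S)) = d₂) := by
        rcases he with he | he
        · exact ⟨v₁, d₁.2, he, Or.inl e1.symm⟩
        · exact ⟨v₂, d₂.2, he, Or.inr e2.symm⟩
      obtain ⟨v, i, rfl, hvi⟩ := hex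
      obtain ⟨-, h2, h, x, y, hP, hxy, hy, hall⟩ := hd _ hvi
      have hout : ∀ (w : S) (j : Fin 3), (M.a (w.1, j)).1 ∉ S ↔
          (N.a (some w, j)).1 ∉ ({none}ᶜ : Set (Option S)) := by
        intro w j
        constructor
        · intro h3
          have h4 := hN.bd w.1 w.2 j h3
          have h4' : (N.a (some w, j)).1 = none := h4
          rw [h4']
          simp
        · intro h3 h4
          apply h3
          have h5 := hin hN w.1 w.2 j h4
          have h5' : N.a (some w, j) = (some ⟨(M.a (w.1, j)).1, h4⟩, (M.a (w.1, j)).2) := h5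
          rw [h5']
          simp
      refine ⟨v.2, (hout v i).mpr h2, lft h, x, y, ?_, hxy, ?_, ?_⟩
      · refine ⟨?_, ?_⟩
        · intro d h3 h4
          rw [lft_mem _ _ h3, lft_mem _ _ h4]
          have h5 := hin hN d.1 h3 d.2 h4
          have h6 := hP.1 (some ⟨d.1, h3⟩, d.2) (by simp) (by rw [h5]; simp)
          rw [h5] at h6
          exact h6
        · intro p C hC hSup h0 d h3
          refine hP.2 p (C0 C) ?_ ?_ ?_ (some ⟨d.1, h3⟩, d.2) (by simp)
          · refine ⟨?_, ?_⟩
            · rintro ⟨w | w, j⟩ h5 h6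
              · exact absurd (by simp) h5
              · by_cases h7 : (M.a (w.1, j)).1 ∈ S
                · have h8 : N.a (some w, j) = (some ⟨(M.a (w.1, j)).1, h7⟩, (M.a (w.1, j)).2) :=
                    hin hN w.1 w.2 j h7
                  rw [h8]
                  exact hC.1 (w.1, j) (fun h3 => h3 w.2) (fun h3 => h3 h7)
                · exact absurd ((hout w j).mp h7) h6
            · rintro (_ | w) h5
              · exact absurd (by simp) h5
              · exact hC.2 w.1 (fun h3 => h3 w.2)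
          · rintro ⟨w | w, j⟩ h5 h6
            · exact absurd rfl h6
            · have h7 := hSup (w.1, j) (fun h3 => h3 w.2) h6
              rw [lft_mem _ _ w.2] at h7
              exact h7
          · rintro ⟨w | w, j⟩ h5 h6
            · rfl
            · exact h0 (w.1, j) w.2 ((hout w j).mpr h6)
      · rw [lft_mem _ _ v.2]
        exact hy
      · intro d' h3 h4 h5
        rw [lft_mem _ _ h4]
        refine hall (some ⟨d'.1, h4⟩, d'.2) ?_ (by simp) ((hout ⟨d'.1, h4⟩ d'.2).mp h5)
        intro h6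
        apply h3
        have h7 : (⟨d'.1, h4⟩ : S) = v := Option.some.inj (congrArg Prod.fst h6)
        have h8 : d'.2 = i := congrArg Prod.snd h6
        rw [← h7, ← h8]

end Acyc75
end

section
set_option autoImplicit false

namespace Acyc75

open CMap

namespace Cut

variable {V : Type}

open Classical in
/-- Counting darts as a sum. -/
lemma ncard_sum [Fintype V] (P : Dt V → Prop) :
    {d : Dt V | P d}.ncard = ∑ d : Dt V, if P d then 1 else 0 := by
  rw [Set.ncard_eq_toFinset_card', Finset.card_eq_sum_ones, ← Finset.sum_filter]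
  congr 1
  ext d
  simp

/-- Reindexing along the edge reversal. -/
lemma sum_a [Fintype V] (M : CMap V) (F : Dt V → ℕ) : ∑ d, F (M.a d) = ∑ d, F d :=
  Fintype.sum_equiv (Function.Involutive.toPerm M.a M.inv) _ _ (fun _ => rfl)

open Classical in
/-- Twice the number of darts with the property `P` as a symmetrised sum. -/
lemma two_ncard [Fintype V] (M : CMap V) (P : Dt V → Prop) :
    2 * {d : Dt V | P d}.ncard =
      ∑ d : Dt V, ((if P d then 1 else 0) + if P (M.a d) then 1 else 0) := by
  rw [Finset.sum_add_distrib, sum_a M (fun d => if P d then 1 else 0), ncard_sum, two_mul]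

/-- The darts at the vertices of `S`. -/
lemma ncard_darts [Finite V] (S : Set V) : {d : Dt V | d.1 ∈ S}.ncard = 3 * S.ncard := by
  have h : {d : Dt V | d.1 ∈ S} = S ×ˢ (Set.univ : Set (Fin 3)) := by
    ext d; simp
  rw [h, Set.ncard_prod, Set.ncard_univ, Nat.card_eq_fintype_card, Fintype.card_fin, mul_comm]

/-- Parity of the number of inner darts. -/
lemma even_inner [Finite V] (M : CMap V) (S : Set V) :
    Even {d : Dt V | d.1 ∈ S ∧ (M.a d).1 ∈ S}.ncard := by
  classical
  have := Fintype.ofFinite V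
  rw [← ZMod.natCast_eq_zero_iff_even, ncard_sum]
  push_cast
  refine Finset.sum_involution (fun d _ => M.a d) ?_ ?_ (fun _ _ => Finset.mem_univ _)
    (fun d _ => M.inv d)
  · intro d _
    rw [M.inv]
    by_cases h1 : d.1 ∈ S <;> by_cases h2 : (M.a d).1 ∈ S <;> simp [h1, h2]
    decide
  · intro d _ _
    exact M.ne d

/-- All darts at `S`: cut darts and inner darts. -/
lemma darts_eq [Finite V] (M : CMap V) (S : Set V) :
    3 * S.ncard = M.cut S + {d : Dt V | d.1 ∈ S ∧ (M.a d).1 ∈ S}.ncard := by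
  classical
  have := Fintype.ofFinite V
  rw [← ncard_darts, CMap.cut, ncard_sum, ncard_sum, ncard_sum, ← Finset.sum_add_distrib]
  refine Finset.sum_congr rfl fun d _ => ?_
  by_cases h1 : d.1 ∈ S <;> by_cases h2 : (M.a d).1 ∈ S <;> simp [h1, h2]

lemma cut_compl [Finite V] (M : CMap V) (S : Set V) : M.cut Sᶜ = M.cut S := by
  classical
  have := Fintype.ofFinite V
  have h : 2 * M.cut Sᶜ = 2 * M.cut S := by
    unfold CMap.cut
    rw [two_ncard M, two_ncard M]
    refine Finset.sum_congr rfl fun d _ => ?_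
    rw [M.inv]
    by_cases h1 : d.1 ∈ S <;> by_cases h2 : (M.a d).1 ∈ S <;> simp [h1, h2]
  omega

lemma cut_parity [Finite V] (M : CMap V) (S : Set V) : M.cut S % 2 = S.ncard % 2 := by
  have h1 := darts_eq M S
  obtain ⟨m, hm⟩ := even_inner M S
  omega

lemma cut_submod [Finite V] (M : CMap V) (S T : Set V) :
    M.cut (S ∩ T) + M.cut (S ∪ T) ≤ M.cut S + M.cut T := by
  classical
  have := Fintype.ofFinite V
  have h : 2 * M.cut (S ∩ T) + 2 * M.cut (S ∪ T) ≤ 2 * M.cut S + 2 * M.cut T := by
    unfold CMap.cut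
    rw [two_ncard M, two_ncard M, two_ncard M, two_ncard M, ← Finset.sum_add_distrib,
      ← Finset.sum_add_distrib]
    refine Finset.sum_le_sum fun d _ => ?_
    rw [M.inv]
    by_cases h1 : d.1 ∈ S <;> by_cases h2 : (M.a d).1 ∈ S <;> by_cases h3 : d.1 ∈ T <;>
      by_cases h4 : (M.a d).1 ∈ T <;> simp [h1, h2, h3, h4]
  omega

lemma cut_posimod [Finite V] (M : CMap V) (S T : Set V) :
    M.cut (S \ T) + M.cut (T \ S) +
      2 * {d : Dt V | d.1 ∈ S ∩ T ∧ (M.a d).1 ∉ S ∪ T}.ncard = M.cut S + M.cut T := by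
  classical
  have := Fintype.ofFinite V
  have h : 2 * M.cut (S \ T) + 2 * M.cut (T \ S) +
      2 * (2 * {d : Dt V | d.1 ∈ S ∩ T ∧ (M.a d).1 ∉ S ∪ T}.ncard) =
        2 * M.cut S + 2 * M.cut T := by
    unfold CMap.cut
    rw [two_ncard M, two_ncard M, two_ncard M, two_ncard M, two_ncard M, Finset.mul_sum,
      ← Finset.sum_add_distrib, ← Finset.sum_add_distrib, ← Finset.sum_add_distrib]
    refine Finset.sum_congr rfl fun d _ => ?_
    rw [M.inv]
    by_cases h1 : d.1 ∈ S <;> by_cases h2 : (M.a d).1 ∈ S <;> by_cases h3 : d.1 ∈ T <;>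
      by_cases h4 : (M.a d).1 ∈ T <;> simp [h1, h2, h3, h4]
  omega

/-- Adding the inner side of a boundary. -/
lemma cut_union_bdry [Finite V] (M : CMap V) (X U : Set V) {k : ℕ} (b : Fin k → Dt V)
    (hb : M.Bdry X b) (hU : ∀ v ∈ U, v ∉ X) :
    M.cut (U ∪ X) + 2 * {j : Fin k | (b j).1 ∈ U}.ncard = M.cut U + k := by
  classical
  have := Fintype.ofFinite V
  have hk : {d : Dt V | d.1 ∉ X ∧ (M.a d).1 ∈ X}.ncard = k := by
    have : {d : Dt V | d.1 ∉ X ∧ (M.a d).1 ∈ X} = b '' Set.univ := by
      ext d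
      simp only [Set.mem_ofPred_eq, Set.image_univ, Set.mem_range]
      exact hb.2 d
    rw [this, Set.ncard_image_of_injective _ hb.1, Set.ncard_univ, Nat.card_eq_fintype_card,
      Fintype.card_fin]
  have hkU : {d : Dt V | d.1 ∈ U ∧ (M.a d).1 ∈ X}.ncard = {j : Fin k | (b j).1 ∈ U}.ncard := by
    have : {d : Dt V | d.1 ∈ U ∧ (M.a d).1 ∈ X} = b '' {j : Fin k | (b j).1 ∈ U} := by
      ext d
      simp only [Set.mem_ofPred_eq, Set.mem_image]
      constructor
      · rintro ⟨h1, h2⟩
        obtain ⟨i, hi⟩ := (hb.2 d).1 ⟨hU _ h1, h2⟩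
        exact ⟨i, by rw [hi]; exact h1, hi⟩
      · rintro ⟨i, hi, rfl⟩
        exact ⟨hi, ((hb.2 (b i)).2 ⟨i, rfl⟩).2⟩
    rw [this, Set.ncard_image_of_injective _ hb.1]
  have h : 2 * M.cut (U ∪ X) + 2 * (2 * {d : Dt V | d.1 ∈ U ∧ (M.a d).1 ∈ X}.ncard) =
      2 * M.cut U + 2 * {d : Dt V | d.1 ∉ X ∧ (M.a d).1 ∈ X}.ncard := by
    unfold CMap.cut
    rw [two_ncard M, two_ncard M, two_ncard M, two_ncard M, Finset.mul_sum,
      ← Finset.sum_add_distrib, ← Finset.sum_add_distrib]
    refine Finset.sum_congr rfl fun d _ => ?_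
    rw [M.inv]
    by_cases h1 : d.1 ∈ U
    · have h1' := hU _ h1
      by_cases h2 : (M.a d).1 ∈ U
      · have h2' := hU _ h2
        simp [h1, h1', h2, h2']
      · by_cases h3 : (M.a d).1 ∈ X <;> simp [h1, h1', h2, h3]
    · by_cases h2 : (M.a d).1 ∈ U
      · have h2' := hU _ h2
        by_cases h4 : d.1 ∈ X <;> simp [h1, h2, h2', h4]
      · by_cases h4 : d.1 ∈ X <;> by_cases h3 : (M.a d).1 ∈ X <;> simp [h1, h2, h3, h4]
  rw [hk, hkU] at h
  omega

/-- No loops. -/
lemma no_loop [Finite V] (M : CMap V) (hT : M.TEC) (hV : 2 ≤ Nat.card V) (d : Dt V) :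
    (M.a d).1 ≠ d.1 := by
  intro h
  have h1 := darts_eq M ({d.1} : Set V)
  have h2 : 3 ≤ M.cut ({d.1} : Set V) := by
    refine hT _ (Set.singleton_nonempty _) ?_
    intro h3
    have := congrArg Set.ncard h3
    rw [Set.ncard_singleton, Set.ncard_univ] at this
    omega
  have h4 : ({d, M.a d} : Set (Dt V)).ncard ≤
      {e : Dt V | e.1 ∈ ({d.1} : Set V) ∧ (M.a e).1 ∈ ({d.1} : Set V)}.ncard := by
    refine Set.ncard_le_ncard ?_ (Set.toFinite _)
    intro e he
    rcases he with rfl | he
    · exact ⟨rfl, h⟩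
    · rw [Set.mem_singleton_iff] at he
      subst he
      exact ⟨h, by rw [M.inv]; rfl⟩
  rw [Set.ncard_pair (M.ne d).symm] at h4
  rw [Set.ncard_singleton] at h1
  omega

end Cut

theorem specCut : SpecCut := fun V _ M S T =>
  ⟨Cut.cut_compl M S, Cut.cut_parity M S, Cut.cut_submod M S T, Cut.cut_posimod M S T⟩

theorem specSimple : SpecSimple := by
  intro V _ M hT hV
  have hl : ∀ d, (M.a d).1 ≠ d.1 := fun d => Cut.no_loop M hT (by omega) d
  refine ⟨hl, ?_⟩
  intro d d' h1 h2
  by_contra hne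
  set v := d.1 with hv
  set w := (M.a d).1 with hw
  have hvw : v ≠ w := fun h => hl d h.symm
  have h3 := Cut.darts_eq M ({v, w} : Set V)
  have h4 : 3 ≤ M.cut ({v, w} : Set V) := by
    refine hT _ ⟨v, by simp⟩ ?_
    intro h5
    have := congrArg Set.ncard h5
    rw [Set.ncard_pair hvw, Set.ncard_univ] at this
    omega
  rw [Set.ncard_pair hvw] at h3
  have h6 : ({d, d', M.a d, M.a d'} : Set (Dt V)).ncard ≤
      {e : Dt V | e.1 ∈ ({v, w} : Set V) ∧ (M.a e).1 ∈ ({v, w} : Set V)}.ncard := by
    refine Set.ncard_le_ncard ?_ (Set.toFinite _)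
    intro e he
    simp only [Set.mem_insert_iff, Set.mem_singleton_iff] at he
    simp only [Set.mem_ofPred_eq, Set.mem_insert_iff, Set.mem_singleton_iff]
    rcases he with rfl | rfl | rfl | rfl
    · exact ⟨Or.inl rfl, Or.inr rfl⟩
    · exact ⟨Or.inl h1.symm, Or.inr h2.symm⟩
    · rw [M.inv]; exact ⟨Or.inr rfl, Or.inl rfl⟩
    · rw [M.inv]; exact ⟨Or.inr h2.symm, Or.inl h1.symm⟩
  have h7 : ({d, d', M.a d, M.a d'} : Set (Dt V)).ncard = 4 := by
    have e1 : M.a d ≠ M.a d' := fun h => hne (by rw [← M.inv d, h, M.inv])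
    have e2 : d ≠ M.a d := (M.ne d).symm
    have e3 : d' ≠ M.a d' := (M.ne d').symm
    have e4 : d ≠ M.a d' := fun h => hvw (by
      have := congrArg Prod.fst h
      rw [← h2] at this
      exact this)
    have e5 : d' ≠ M.a d := fun h => hvw (by
      have := congrArg Prod.fst h
      rw [← h1] at this
      exact this)
    rw [Set.ncard_insert_of_notMem, Set.ncard_insert_of_notMem, Set.ncard_pair e1]
    · simp only [Set.mem_insert_iff, Set.mem_singleton_iff, not_or]
      exact ⟨e5, e3⟩
    · simp only [Set.mem_insert_iff, Set.mem_singleton_iff, not_or]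
      exact ⟨hne, e2, e4⟩
  omega

end Acyc75
end

section
/-!
# EDGEFACE: the two sides of an edge are different faces
-/
set_option autoImplicit false

namespace Acyc75

namespace EdgeFace

variable {V : Type}

/-- vertex sum -/
def vs (C : Dt V → ZMod 2) (v : V) : ZMod 2 := C (v, 0) + C (v, 1) + C (v, 2)

open Classical in
/-- indicator of a dart -/
noncomputable def dl (e : Dt V) (x : Dt V) : ZMod 2 := if x = e then 1 else 0

theorem vs_add (C D : Dt V → ZMod 2) (v : V) : vs (fun x => C x + D x) v = vs C v + vs D v := by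
  unfold vs
  ring

open Classical in
theorem vs_dl (e : Dt V) (v : V) : vs (dl e) v = if v = e.1 then 1 else 0 := by
  obtain ⟨w, t⟩ := e
  unfold vs dl
  by_cases h : v = w
  · subst h
    fin_cases t <;> simp
  · simp [h]

theorem ph_iter {M : CMap V} {A : Dt V → ZMod 2} (hA : ∀ d, A (M.ph d) = A d) (n : ℕ) (d : Dt V) :
    A (M.ph^[n] d) = A d := by
  induction n with
  | zero => rfl
  | succ n ih => rw [Function.iterate_succ_apply', hA, ih]

open Classical in
/-- Chains joining `d.1` to `w` and avoiding the edge `d`. -/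
theorem exists_chain [Finite V] {M : CMap V} (hT : M.TEC) (d : Dt V) (w : V) :
    ∃ C : Dt V → ZMod 2, (∀ x, C (M.a x) = C x) ∧ C d = 0 ∧
      ∀ v, vs C v = (if v = d.1 then 1 else 0) + (if v = w then 1 else 0) := by
  set U : Set V := {w | ∃ C : Dt V → ZMod 2, (∀ x, C (M.a x) = C x) ∧ C d = 0 ∧
      ∀ v, vs C v = (if v = d.1 then 1 else 0) + (if v = w then 1 else 0)} with hU
  have h1 : d.1 ∈ U := by
    refine ⟨fun _ => 0, fun _ => rfl, rfl, fun v => ?_⟩
    rw [CharTwo.add_self_eq_zero]
    simp [vs]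
  have h2 : ∀ e : Dt V, e.1 ∈ U → e ≠ d → e ≠ M.a d → (M.a e).1 ∈ U := by
    rintro e ⟨C, hC1, hC2, hC3⟩ he1 he2
    refine ⟨fun x => C x + (dl e x + dl (M.a e) x), fun x => ?_, ?_, fun v => ?_⟩
    · have e1 : dl e (M.a x) = dl (M.a e) x := by
        unfold dl
        congr 1
        rw [eq_iff_iff]
        constructor
        · intro h; rw [← h, M.inv]
        · intro h; rw [h, M.inv]
      have e2 : dl (M.a e) (M.a x) = dl e x := by
        unfold dl
        congr 1
        rw [eq_iff_iff]
        constructor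
        · intro h
          have := congrArg M.a h
          rwa [M.inv, M.inv] at this
        · intro h; rw [h]
      show C (M.a x) + (dl e (M.a x) + dl (M.a e) (M.a x)) = _
      rw [hC1, e1, e2, add_comm (dl (M.a e) x)]
    · have e1 : dl e d = 0 := by
        unfold dl
        rw [if_neg (Ne.symm he1)]
      have e2 : dl (M.a e) d = 0 := by
        unfold dl
        rw [if_neg]
        intro h
        apply he2
        rw [h, M.inv]
      show C d + (dl e d + dl (M.a e) d) = 0
      rw [hC2, e1, e2]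
      simp
    · rw [vs_add, vs_add, vs_dl, vs_dl, hC3]
      have : ∀ a b c : ZMod 2, a + b + (b + c) = a + c := by decide
      exact this _ _ _
  have h3 : U = Set.univ := by
    by_contra hne
    have h4 := hT U ⟨_, h1⟩ hne
    have h5 : M.cut U ≤ 1 := by
      unfold CMap.cut
      rw [Set.ncard_le_one_iff]
      intro x y hx hy
      have key : ∀ z : Dt V, z.1 ∈ U → (M.a z).1 ∉ U → z = d ∨ z = M.a d := by
        intro z hz1 hz2
        by_contra hcon
        push Not at hcon
        exact hz2 (h2 z hz1 hcon.1 hcon.2)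
      rcases key x hx.1 hx.2 with rfl | rfl <;> rcases key y hy.1 hy.2 with rfl | rfl
      · rfl
      · exact absurd hy.1 hx.2
      · exact absurd hx.1 hy.2
      · rfl
    omega
  have h6 : w ∈ U := by rw [h3]; trivial
  exact h6

/-- There is an even set through the edge `d`. -/
theorem exists_even [Finite V] {M : CMap V} (hT : M.TEC) (d : Dt V) :
    ∃ C : Dt V → ZMod 2, M.Ev C ∧ C d = 1 := by
  classical
  obtain ⟨C, hC1, hC2, hC3⟩ := exists_chain hT d (M.a d).1
  refine ⟨fun x => C x + (dl d x + dl (M.a d) x), ⟨fun x => ?_, fun v => ?_⟩, ?_⟩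
  · have e1 : dl d (M.a x) = dl (M.a d) x := by
      unfold dl
      congr 1
      rw [eq_iff_iff]
      constructor
      · intro h; rw [← h, M.inv]
      · intro h; rw [h, M.inv]
    have e2 : dl (M.a d) (M.a x) = dl d x := by
      unfold dl
      congr 1
      rw [eq_iff_iff]
      constructor
      · intro h
        have := congrArg M.a h
        rwa [M.inv, M.inv] at this
      · intro h; rw [h]
    show C (M.a x) + (dl d (M.a x) + dl (M.a d) (M.a x)) = _
    rw [hC1, e1, e2, add_comm (dl (M.a d) x)]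
  · show vs (fun x => C x + (dl d x + dl (M.a d) x)) v = 0
    rw [vs_add, vs_add, vs_dl, vs_dl, hC3]
    have : ∀ a b : ZMod 2, a + b + (a + b) = 0 := by decide
    exact this _ _
  · show C d + (dl d d + dl (M.a d) d) = 1
    have e1 : dl (M.a d) d = 0 := by
      unfold dl
      rw [if_neg (M.ne d).symm]
    have e2 : dl d d = 1 := by
      unfold dl
      rw [if_pos rfl]
    rw [hC2, e1, e2]
    simp

end EdgeFace

theorem specEdgeFace : SpecEdgeFace := by
  intro V _ M hT hP _ d n h
  obtain ⟨C, hC, hC1⟩ := EdgeFace.exists_even hT d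
  obtain ⟨A, hA1, hA2⟩ := hP C hC
  have h1 := hA2 d
  rw [← h, EdgeFace.ph_iter hA1, hC1, CharTwo.add_self_eq_zero] at h1
  exact zero_ne_one h1

end Acyc75
end

section
/-!
# MP_1e9f59_co : module FIN
-/
set_option autoImplicit false

namespace Acyc75

namespace FinC

open SimpleGraph

/-- A subset of `Fin 3` of even cardinality has indicator sum zero. -/
theorem sum3 (P : Fin 3 → Prop) [DecidablePred P] (h : Even (Finset.univ.filter P).card) :
    (if P 0 then (1 : ZMod 2) else 0) + (if P 1 then 1 else 0) + (if P 2 then 1 else 0) = 0 := by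
  have h1 : ((Finset.univ.filter P).card : ZMod 2) = 0 := by
    obtain ⟨k, hk⟩ := h
    rw [hk]
    push_cast
    exact CharTwo.add_self_eq_zero _
  rw [Finset.card_filter] at h1
  push_cast at h1
  rw [Fin.sum_univ_three] at h1
  exact h1

open Classical in
/-- The indicator of the edges of a cycle is even. -/
theorem even_cycle {V : Type} [Fintype V] (G : SimpleGraph V) (M : CMap V)
    (hA : ∀ v w, M.Adj v w ↔ G.Adj v w)
    (hS : ∀ d d' : Dt V, d.1 = d'.1 → (M.a d).1 = (M.a d').1 → d = d')
    {u : V} (w : G.Walk u u) (hw : w.IsCycle) (v : V) :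
    Even (Finset.univ.filter (fun i : Fin 3 => s(v, (M.a (v, i)).1) ∈ w.edges)).card := by
  have h1 : ((Finset.univ.filter (fun i : Fin 3 => s(v, (M.a (v, i)).1) ∈ w.edges)).card) =
      (w.toSubgraph.neighborSet v).ncard := by
    rw [← Set.ncard_coe_finset]
    apply Set.ncard_congr (fun i _ => (M.a (v, i)).1)
    · intro i hi
      simp only [Finset.coe_filter, Finset.mem_univ, true_and, Set.mem_ofPred_eq] at hi
      rw [SimpleGraph.Subgraph.mem_neighborSet]
      rw [← SimpleGraph.Subgraph.mem_edgeSet, SimpleGraph.Walk.mem_edges_toSubgraph]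
      exact hi
    · intro i j hi hj hij
      have := hS (v, i) (v, j) rfl hij
      exact (Prod.mk.inj this).2
    · intro x hx
      rw [SimpleGraph.Subgraph.mem_neighborSet] at hx
      have hx' : G.Adj v x := hx.adj_sub
      obtain ⟨i, hi⟩ := (hA v x).2 hx'
      refine ⟨i, ?_, hi⟩
      simp only [Finset.coe_filter, Finset.mem_univ, true_and, Set.mem_ofPred_eq]
      rw [← SimpleGraph.Subgraph.mem_edgeSet, SimpleGraph.Walk.mem_edges_toSubgraph] at hx
      rw [hi]
      exact hx
  rw [h1]
  by_cases hv : v ∈ w.support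
  · rw [hw.ncard_neighborSet_toSubgraph_eq_two hv]
    exact ⟨1, rfl⟩
  · have : w.toSubgraph.neighborSet v = ∅ := by
      ext x
      simp only [Set.mem_empty_iff_false, iff_false]
      intro hx
      rw [SimpleGraph.Subgraph.mem_neighborSet] at hx
      exact hv (by
        have := hx.fst_mem
        simpa using this)
    rw [this, Set.ncard_empty]
    exact ⟨0, rfl⟩

open Classical in
/-- A part without the colour `p` induces a forest. -/
theorem acyclic {V : Type} [Fintype V] (G : SimpleGraph V) (M : CMap V)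
    (hA : ∀ v w, M.Adj v w ↔ G.Adj v w)
    (hS : ∀ d d' : Dt V, d.1 = d'.1 → (M.a d).1 = (M.a d').1 → d = d')
    (f : V → Fin 3) (hf : M.Good f) (p : Fin 3) (S : Set V) (hp : ∀ v ∈ S, f v ≠ p) :
    (G.induce S).IsAcyclic := by
  intro u w hw
  have hw' : (w.map (SimpleGraph.Embedding.induce (G := G) S).toHom).IsCycle :=
    hw.map (f := (SimpleGraph.Embedding.induce (G := G) S).toHom) Subtype.val_injective
  set w' := w.map (SimpleGraph.Embedding.induce (G := G) S).toHom with hw'def
  have hsupp : ∀ v ∈ w'.support, v ∈ S := by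
    intro v hv
    rw [hw'def, SimpleGraph.Walk.support_map, List.mem_map] at hv
    obtain ⟨y, -, rfl⟩ := hv
    exact y.2
  have hC := hf.2 p (fun d => if s(d.1, (M.a d).1) ∈ w'.edges then 1 else 0)
    ⟨fun d => by
      show (if s((M.a d).1, (M.a (M.a d)).1) ∈ w'.edges then (1 : ZMod 2) else 0) = _
      rw [M.inv, Sym2.eq_swap], fun v => by
      exact sum3 (fun i => s(v, (M.a (v, i)).1) ∈ w'.edges) (even_cycle G M hA hS w' hw' v)⟩
    (by
      intro d hd
      have h1 : s(d.1, (M.a d).1) ∈ w'.edges := by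
        by_contra h
        exact hd (if_neg h)
      exact hp _ (hsupp _ (w'.fst_mem_support_of_mem_edges h1)))
  have hne : w'.edges ≠ [] := by
    intro h
    have h3 := hw'.three_le_length
    rw [← SimpleGraph.Walk.length_edges, h] at h3
    simp at h3
  obtain ⟨e, he⟩ := List.exists_mem_of_ne_nil _ hne
  induction e using Sym2.ind with
  | _ a b =>
    have hab : G.Adj a b := w'.adj_of_mem_edges he
    obtain ⟨i, hi⟩ := (hA a b).2 hab
    have h1 := hC (a, i)
    simp only at h1
    rw [hi, if_pos he] at h1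
    exact one_ne_zero h1

end FinC

theorem specFin : SpecFin := by
  intro V _ G M hA hS ⟨f, hf⟩
  refine ⟨SimpleGraph.Coloring.mk f ?_, ?_⟩
  · intro v w hvw
    obtain ⟨i, hi⟩ := (hA v w).2 hvw
    have := hf.1 (v, i)
    rw [hi] at this
    exact this.symm
  · intro i j
    have hij : ∃ p : Fin 3, i ≠ p ∧ j ≠ p := by
      revert i j
      decide
    obtain ⟨p, hpi, hpj⟩ := hij
    apply FinC.acyclic G M hA hS f hf p
    intro v hv
    rcases hv with hv | hv
    · intro h
      exact hpi (hv.symm.trans h)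
    · intro h
      exact hpj (hv.symm.trans h)

end Acyc75
end

section
/-!
# MP_1e9f59_co : module FIN-53
-/
set_option autoImplicit false

namespace Acyc75

namespace Fin53

theorem z2 (x : ZMod 2) : x = 0 ∨ x = 1 := by
  revert x; decide

theorem z2' {x : ZMod 2} (h : x ≠ 0) : x = 1 := (z2 x).resolve_left h

/-- a colour different from two different colours is the third one -/
theorem third (a b z x : Fin 3) (h1 : a ≠ b) (h2 : a ≠ z) (h3 : b ≠ z) (h4 : x ≠ a)
    (h5 : x ≠ b) : x = z := by
  omega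

theorem zero_of {x : ZMod 2} {P : Prop} (h : x ≠ 0 → P) (hP : ¬ P) : x = 0 := by
  by_contra hx
  exact hP (h hx)

theorem ei_self {k : ℕ} (i : Fin k) : ei i i = (1 : ZMod 2) := by simp [ei]
theorem ei_ne {k : ℕ} {i j : Fin k} (h : j ≠ i) : ei i j = (0 : ZMod 2) := by simp [ei, h]

end Fin53

open Fin53

theorem specFin53 : SpecFin53 := by
  intro c L z ρ hc hFA hNC hBad
  obtain ⟨hP, hA⟩ := hFA
  -- properness of the reduced colouring
  have hzr0 : z ≠ ρ 0 := by simpa [T53r] using hP 0 1
  have hzr2 : z ≠ ρ 2 := by simpa [T53r] using hP 0 0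
  have hr01 : ρ 0 ≠ ρ 1 := by simpa [T53r] using hP 1 0
  have hr12 : ρ 1 ≠ ρ 2 := by simpa [T53r] using hP 2 0
  have hc3 : ρ 0 ≠ c 3 := by simpa [T53r] using hP 1 1
  have hc4 : ρ 1 ≠ c 4 := by simpa [T53r] using hP 2 1
  have hc5 : ρ 2 ≠ c 5 := by simpa [T53r] using hP 3 1
  exfalso
  rcases hBad with ⟨a, b, hab, haz, hbz, h0, h1, h2, h3, h4, la, lb, lz⟩ |
    ⟨a, b, hab, haz, hbz, h0, h1, h2, h3, h4, la, lb, lz⟩
  · change c 0 = z at h0
    change c 1 = a at h1
    change c 2 = a at h2
    change ρ 0 = b at h3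
    change ρ 2 = b at h4
    have hr1a : ρ 1 = a := by
      rcases eq_or_ne (ρ 1) z with h | h
      · exfalso
        have := (hA a ![![1, 1, 0], ![1, 0, 1], ![1, 0, 1], ![1, 0, 1]] (fun _ => 0)
          (by decide) (by decide) ?_ rfl ⟨fun i hi => absurd rfl hi, fun l => by simp⟩).2 1 0
        · simp at this
        · intro i t _
          fin_cases i
          · exact haz.symm
          · change ρ 0 ≠ a; rw [h3]; exact hab.symm
          · change ρ 1 ≠ a; rw [h]; exact haz.symm
          · change ρ 2 ≠ a; rw [h4]; exact hab.symm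
      · exact third b z a _ hbz hab.symm haz.symm (h3 ▸ hr01.symm) h
    have v30 : (ei 3 + ei 0 : Fin 5 → ZMod 2) = ![1, 0, 0, 1, 0] := by decide
    have v23 : (ei 2 + ei 3 : Fin 5 → ZMod 2) = ![0, 0, 1, 1, 0] := by decide
    rw [v30] at la
    rw [v23] at lz
    have hA3 : EL c L a (ei 0 + ei 3) ∧ c 3 ≠ a := by
      obtain ⟨e, J, e1, e2, e3, e4, e5, s, v, n, j0, j1, j2, j3, j4⟩ := la
      have hJ3 : J 3 = 1 := by
        have h10 := zero_of (v 1 2) (by rw [hr1a]; exact fun h => h rfl)
        have hs := s 0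
        rw [e1, h10, e3, ← j3] at hs
        revert hs; change 0 + J 3 + 1 = 0 → J 3 = 1; generalize J 3 = x; revert x; decide
      have hJ4 : J 4 = 0 := by
        rw [← e4]; exact zero_of (v 1 1) (by rw [hr1a]; exact fun h => h rfl)
      have hJ5 : J 5 = 0 := by
        have h10 := zero_of (v 1 0) (by rw [hr1a]; exact fun h => h rfl)
        have hs := s 2
        rw [← e2, h10, e5, ← j4] at hs
        revert hs; change 0 + J 5 + 0 = 0 → J 5 = 0; generalize J 5 = x; revert x; decide
      have hJ : J = ei 0 + ei 3 := by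
        have : (ei 0 + ei 3 : Fin 6 → ZMod 2) = ![1, 0, 0, 1, 0, 0] := by decide
        rw [this]
        funext i
        fin_cases i
        · exact j0.symm
        · exact j1.symm
        · exact j2.symm
        · exact hJ3
        · exact hJ4
        · exact hJ5
      rw [← hJ]
      exact ⟨n, n.1 3 (by rw [hJ3]; decide)⟩
    have hc3z : c 3 = z := third a b z _ hab haz hbz hA3.2 (h3 ▸ hc3.symm)
    obtain ⟨e, J, e1, e2, e3, e4, e5, s, v, n, j0, j1, j2, j3, j4⟩ := lz
    have hJ3 : J 3 = 0 := zero_of (n.1 3) (by rw [hc3z]; exact fun h => h rfl)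
    have x00 : e 0 0 = 1 := by
      have hs := s 0
      rw [e3, hJ3, ← j3] at hs
      revert hs; change e 0 0 + 0 + 1 = 0 → e 0 0 = 1; generalize e 0 0 = x; revert x; decide
    have key : J 4 + J 5 = 1 := by
      have hs := s 1
      have hs2 := s 2
      rw [e4, ← e1, x00, e2] at hs
      rw [e5, ← j4] at hs2
      revert hs hs2; change _ → 0 + J 5 + e 2 2 = 0 → _
      generalize J 4 = x; generalize J 5 = y; generalize e 2 2 = w; revert x y w; decide
    have hcase : J = ei 2 + ei 4 ∨ J = ei 2 + ei 5 := by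
      have w24 : (ei 2 + ei 4 : Fin 6 → ZMod 2) = ![0, 0, 1, 0, 1, 0] := by decide
      have w25 : (ei 2 + ei 5 : Fin 6 → ZMod 2) = ![0, 0, 1, 0, 0, 1] := by decide
      rw [w24, w25]
      rcases z2 (J 4) with h | h
      · right
        rw [h, zero_add] at key
        funext i
        fin_cases i
        · exact j0.symm
        · exact j1.symm
        · exact j2.symm
        · exact hJ3
        · exact h
        · exact key
      · left
        have h5 : J 5 = 0 := by
          rw [h] at key; revert key; generalize J 5 = y; revert y; decide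
        funext i
        fin_cases i
        · exact j0.symm
        · exact j1.symm
        · exact j2.symm
        · exact hJ3
        · exact h
        · exact h5
    rcases hcase with h | h
    · rw [h] at n
      exact haz (hNC a z 0 2 3 4 (by decide) (by decide) (by decide) hA3.1 n).1
    · rw [h] at n
      exact haz (hNC a z 0 2 3 5 (by decide) (by decide) (by decide) hA3.1 n).1
  · change c 0 = a at h0
    change c 1 = z at h1
    change c 2 = b at h2
    change ρ 0 = b at h3
    change ρ 2 = a at h4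
    have v31 : (ei 3 + ei 1 : Fin 5 → ZMod 2) = ![0, 1, 0, 1, 0] := by decide
    have v41 : (ei 4 + ei 1 : Fin 5 → ZMod 2) = ![0, 1, 0, 0, 1] := by decide
    have v43 : (ei 4 + ei 3 : Fin 5 → ZMod 2) = ![0, 0, 0, 1, 1] := by decide
    rw [v31] at la
    rw [v41] at lb
    rw [v43] at lz
    have hr1 : ρ 1 = z := third a b z _ hab haz hbz (h4 ▸ hr12) (h3 ▸ hr01.symm)
    have hz : c 3 = a ∧ c 5 = b := by
      obtain ⟨e, J, e1, e2, e3, e4, e5, s, v, n, j0, j1, j2, j3, j4⟩ := lz
      have x12 := zero_of (v 1 2) (by rw [hr1]; exact fun h => h rfl)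
      have x10 := zero_of (v 1 0) (by rw [hr1]; exact fun h => h rfl)
      have hJ3 : J 3 ≠ 0 := by
        have hs := s 0
        rw [e1, x12, e3, ← j3] at hs
        revert hs; change 0 + J 3 + 1 = 0 → J 3 ≠ 0; generalize J 3 = x; revert x; decide
      have hJ5 : J 5 ≠ 0 := by
        have hs := s 2
        rw [← e2, x10, e5, ← j4] at hs
        revert hs; change 1 + J 5 + 0 = 0 → J 5 ≠ 0; generalize J 5 = x; revert x; decide
      exact ⟨third b z a _ hbz hab.symm haz.symm (h3 ▸ hc3.symm) (n.1 3 hJ3),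
        third a z b _ haz hab hbz.symm (h4 ▸ hc5.symm) (n.1 5 hJ5)⟩
    have ha : c 4 ≠ a := by
      obtain ⟨e, J, e1, e2, e3, e4, e5, s, v, n, j0, j1, j2, j3, j4⟩ := la
      have hJ3 : J 3 = 0 := zero_of (n.1 3) (by rw [hz.1]; exact fun h => h rfl)
      have x22 := zero_of (v 2 2) (by rw [h4]; exact fun h => h rfl)
      apply n.1 4
      have hs := s 0
      have hs1 := s 1
      rw [e1, e3, hJ3, ← j3] at hs
      rw [e2, x22, e4] at hs1
      revert hs hs1; change e 1 2 + 0 + 1 = 0 → _
      generalize J 4 = x; generalize e 1 2 = y; revert x y; decide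
    have hb : c 4 ≠ b := by
      obtain ⟨e, J, e1, e2, e3, e4, e5, s, v, n, j0, j1, j2, j3, j4⟩ := lb
      have hJ5 : J 5 = 0 := zero_of (n.1 5) (by rw [hz.2]; exact fun h => h rfl)
      have x00 := zero_of (v 0 0) (by rw [h3]; exact fun h => h rfl)
      apply n.1 4
      have hs := s 2
      have hs1 := s 1
      rw [e5, hJ5, ← j4] at hs
      rw [e2, ← e1, x00, e4] at hs1
      revert hs hs1; change 1 + 0 + e 2 2 = 0 → _
      generalize J 4 = x; generalize e 2 2 = y; revert x y; decide
    exact hc4 (hr1.trans (third a b z _ hab haz hbz ha hb).symm)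

end Acyc75
end

section
/-!
# MP_1e9f59_co : module FIN-54, part 1

Sets of boundary vectors `J : Fin 7 → ZMod 2` are coded by natural numbers with 128 bits.
-/
set_option autoImplicit false

namespace Acyc75

namespace Fin54

/-! ### Parity -/

/-- The table of the hyperplanes. -/
def HT7 : ℕ := 0x69969669966969969669699669969669c33c3cc33cc3c33c3cc3c33cc33c3cc3a55a5aa55aa5a55a5aa5a55aa55a5aa50ff0f00ff00f0ff0f00f0ff00ff0f00f9966669966999966669999669966669933cccc33cc3333cccc3333cc33cccc3355aaaa55aa5555aaaa5555aa55aaaa55ff0000ff00ffff0000ffff00ff0000ff969669696969969669699696969669693c3cc3c3c3c33c3cc3c33c3c3c3cc3c35a5aa5a5a5a55a5aa5a55a5a5a5aa5a5f0f00f0f0f0ff0f00f0ff0f0f0f00f0f66669999999966669999666666669999cccc33333333cccc3333cccccccc3333aaaa55555555aaaa5555aaaaaaaa55550000ffffffff0000ffff00000000ffff966996696996699669966996966996693cc33cc3c33cc33cc33cc33c3cc33cc35aa55aa5a55aa55aa55aa55a5aa55aa5f00ff00f0ff00ff00ff00ff0f00ff00f66996699996699669966996666996699cc33cc3333cc33cc33cc33cccc33cc3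3aa55aa5555aa55aa55aa55aaaa55aa5500ff00ffff00ff00ff00ff0000ff00ff69696969969696969696969669696969c3c3c3c33c3c3c3c3c3c3c3cc3c3c3c3a5a5a5a55a5a5a5a5a5a5a5aa5a5a5a50f0f0f0ff0f0f0f0f0f0f0f00f0f0f0f9999999966666666666666669999999933333333cccccccccccccccc3333333355555555aaaaaaaaaaaaaaaa55555555ffffffff0000000000000000ffffffff966969969669699669969669699696693cc3c33c3cc3c33cc33c3cc3c33c3cc35aa5a55a5aa5a55aa55a5aa5a55a5aa5f00f0ff0f00f0ff00ff0f00f0ff0f00f66999966669999669966669999666699cc3333cccc3333cc33cccc3333cccc33aa5555aaaa5555aa55aaaa5555aaaa5500ffff0000ffff00ff0000ffff0000ff69699696696996969696696996966969c3c33c3cc3c33c3c3c3cc3c33c3cc3c3a5a55a5aa5a55a5a5a5aa5a55a5aa5a50f0ff0f00f0ff0f0f0f00f0ff0f00f0f999966669999666666669999666699993333cccc3333cccccccc3333cccc33335555aaaa5555aaaaaaaa5555aaaa5555ffff0000ffff00000000ffff0000ffff69966996699669969669966996699669c33cc33cc33cc33c3cc33cc33cc33cc3a55aa55aa55aa55a5aa55aa55aa55aa50ff00ff00ff00ff0f00ff00ff00ff00f9966996699669966669966996699669933cc33cc33cc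33cccc33cc33cc33cc3355aa55aa55aa55aaaa55aa55aa55aa55ff00ff00ff00ff0000ff00ff00ff00ff969696969696969669696969696969693c3c3c3c3c3c3c3cc3c3c3c3c3c3c3c35a5a5a5a5a5a5a5aa5a5a5a5a5a5a5a5f0f0f0f0f0f0f0f00f0f0f0f0f0f0f0f66666666666666669999999999999999cccccccccccccccc3333333333333333aaaaaaaaaaaaaaaa55555555555555550000000000000000ffffffffffffffff966969966996966996696996699696693cc3c33cc33c3cc33cc3c33cc33c3cc35aa5a55aa55a5aa55aa5a55aa55a5aa5f00f0ff00ff0f00ff00f0ff00ff0f00f66999966996666996699996699666699cc3333cc33cccc33cc3333cc33cccc33aa5555aa55aaaa55aa5555aa55aaaa5500ffff00ff0000ff00ffff00ff0000ff69699696969669696969969696966969c3c33c3c3c3cc3c3c3c33c3c3c3cc3c3a5a55a5a5a5aa5a5a5a55a5a5a5aa5a50f0ff0f0f0f00f0f0f0ff0f0f0f00f0f999966666666999999996666666699993333cccccccc33333333cccccccc33335555aaaaaaaa55555555aaaaaaaa5555ffff00000000ffffffff00000000ffff69966996966996696996699696699669c33cc33c3cc33cc3c33cc33c3cc33cc3a55aa55a5aa55aa5a55aa55a5aa55aa50ff00ff0f00ff00f0ff00ff0f00ff00f9966996666996699996699666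699669933cc33cccc33cc3333cc33cccc33cc3355aa55aaaa55aa5555aa55aaaa55aa55ff00ff0000ff00ffff00ff0000ff00ff969696966969696996969696696969693c3c3c3cc3c3c3c33c3c3c3cc3c3c3c35a5a5a5aa5a5a5a55a5a5a5aa5a5a5a5f0f0f0f00f0f0f0ff0f0f0f00f0f0f0f66666666999999996666666699999999cccccccc33333333cccccccc33333333aaaaaaaa55555555aaaaaaaa5555555500000000ffffffff00000000ffffffff69969669699696696996966969969669c33c3cc3c33c3cc3c33c3cc3c33c3cc3a55a5aa5a55a5aa5a55a5aa5a55a5aa50ff0f00f0ff0f00f0ff0f00f0ff0f00f9966669999666699996666999966669933cccc3333cccc3333cccc3333cccc3355aaaa5555aaaa5555aaaa5555aaaa55ff0000ffff0000ffff0000ffff0000ff969669699696696996966969969669693c3cc3c33c3cc3c33c3cc3c33c3cc3c35a5aa5a55a5aa5a55a5aa5a55a5aa5a5f0f00f0ff0f00f0ff0f00f0ff0f00f0f66669999666699996666999966669999cccc3333cccc3333cccc3333cccc3333aaaa5555aaaa5555aaaa5555aaaa55550000ffff0000ffff0000ffff0000ffff966996699669966996699669966996693cc33cc33cc33cc33cc33cc33cc33cc35aa55aa55aa55aa55aa55aa55aa55aa5f00ff00ff00ff00ff00ff00ff00ff00f66996699669966996699669966996699cc33cc33cc33cc33cc33cc33cc33cc33aa55aa55aa55aa55aa55aa55aa55aa5500ff00ff00ff00ff00ff00ff00ff00ff69696969696969696969696969696969c3c3c3c3c3c3c3c3c3c3c3c3c3c3c3c3a5a5a5a5a5a5a5a5a5a5a5a5a5a5a5a50f0f0f0f0f0f0f0f0f0f0f0f0f0f0f0f999999999999999999999999999999993333333333333333333333333333333355555555555555555555555555555555ffffffffffffffffffffffffffffffff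

/-- The set of all vectors. -/
def full7 : ℕ := 340282366920938463463374607431768211455

/-- The set of the vectors orthogonal to `m`. -/
def Hx (m : ℕ) : ℕ := Nat.land (Nat.shiftRight HT7 (Nat.mul 128 m)) full7

/-- Parity of the intersection of `m` with `f`, first `k` places. -/
def prf : ℕ → ℕ → (ℕ → Bool) → Bool
  | 0, _, _ => false
  | k + 1, m, f => xor (prf k m f) (Nat.testBit m k && f k)

def allB : ℕ → (ℕ → Bool) → Bool
  | 0, _ => true
  | n + 1, f => f n && allB n f

theorem allB_spec {n : ℕ} {f : ℕ → Bool} (h : allB n f = true) : ∀ i < n, f i = true := by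
  induction n with
  | zero => intro i hi; omega
  | succ n ih =>
    simp only [allB, Bool.and_eq_true] at h
    intro i hi
    rcases Nat.lt_succ_iff_lt_or_eq.1 hi with h' | h'
    · exact ih h.2 i h'
    · rw [h']; exact h.1

theorem Hx_check : allB 128 (fun m => allB 128 fun n =>
    Bool.xor (Nat.testBit (Hx m) n) (prf 7 m (Nat.testBit n))) = true := by
  decide +kernel

theorem Hx_prf {m n : ℕ} (hm : m < 128) (hn : n < 128) :
    (Hx m).testBit n = !(prf 7 m (Nat.testBit n)) := by
  have := allB_spec (allB_spec Hx_check m hm) n hn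
  revert this
  cases (Hx m).testBit n <;> cases prf 7 m (Nat.testBit n) <;> simp

/-- Pairing of a mask with a vector. -/
def ip {k : ℕ} (m : ℕ) (J : Fin k → ZMod 2) : ZMod 2 := ∑ i : Fin k, if m.testBit i then J i else 0

theorem prf_eq : ∀ (k : ℕ) (m : ℕ) (J : Fin k → ZMod 2) (f : ℕ → Bool),
    (∀ i : Fin k, f i = decide (J i ≠ 0)) → prf k m f = decide (ip m J ≠ 0) := by
  intro k
  induction k with
  | zero => intro m J f _; simp [prf, ip]
  | succ k ih =>
    intro m J f hf
    have h1 := ih m (fun i => J i.castSucc) f (fun i => hf i.castSucc)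
    have h2 := hf (Fin.last k)
    simp only [Fin.val_last] at h2
    simp only [prf, h1, h2]
    have h3 : ip m J = ip m (fun i => J i.castSucc) + (if m.testBit k then J (Fin.last k) else 0) := by
      simp [ip, Fin.sum_univ_castSucc]
    rw [h3]
    generalize ip m (fun i => J i.castSucc) = x
    generalize J (Fin.last k) = y
    generalize m.testBit k = b
    revert x y b
    decide

/-- The code of a vector. -/
def enc (J : Fin 7 → ZMod 2) : ℕ := Nat.ofBits (fun i => decide (J i ≠ 0))

theorem enc_lt (J : Fin 7 → ZMod 2) : enc J < 128 := Nat.ofBits_lt_two_pow _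

theorem testBit_enc (J : Fin 7 → ZMod 2) (i : Fin 7) : (enc J).testBit i = decide (J i ≠ 0) :=
  Nat.testBit_ofBits_lt _ i i.2

theorem Hx_spec {m : ℕ} (hm : m < 128) (J : Fin 7 → ZMod 2) :
    (Hx m).testBit (enc J) = true ↔ ip m J = 0 := by
  rw [Hx_prf hm (enc_lt J), prf_eq 7 m J _ (testBit_enc J)]
  simp

theorem enc_eq_zero {J : Fin 7 → ZMod 2} (h : enc J = 0) (i : Fin 7) : J i = 0 := by
  have := testBit_enc J i
  rw [h] at this
  simpa using this.symm

theorem full7_spec (J : Fin 7 → ZMod 2) : full7.testBit (enc J) = true := by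
  have h : allB 128 (fun n => full7.testBit n) = true := by decide +kernel
  exact allB_spec h _ (enc_lt J)

/-- Intersection with hyperplanes. -/
def As : List ℕ → ℕ → ℕ
  | [], a => a
  | m :: P, a => As P (Nat.land a (Hx m))

theorem As_spec (n : ℕ) : ∀ (P : List ℕ) (a : ℕ),
    (As P a).testBit n = true ↔ a.testBit n = true ∧ ∀ m ∈ P, (Hx m).testBit n = true := by
  intro P
  induction P with
  | nil => intro a; simp [As]
  | cons m P ih =>
    intro a
    have : (Nat.land a (Hx m)).testBit n = (a.testBit n && (Hx m).testBit n) := Nat.testBit_and ..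
    rw [As, ih, this]
    simp [and_assoc]

end Fin54

end Acyc75
end

section
/-!
# MP_1e9f59_co : module FIN-54, part 2

Enumeration of all partitions of the relevant boundary edges.
-/
set_option autoImplicit false

namespace Acyc75

namespace Fin54

/-- Add the bit `b` to one of the classes. -/
def repl (b : ℕ) : List ℕ → List (List ℕ)
  | [] => []
  | m :: P => (Nat.lor m b :: P) :: (repl b P).map (m :: ·)

/-- All partitions of the set of all `i < n` with `r i`. -/
def parts (r : ℕ → Bool) : ℕ → List (List ℕ)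
  | 0 => [[]]
  | n + 1 => bif r n then
      (parts r n).flatMap (fun P => (Nat.pow 2 n :: P) :: repl (Nat.pow 2 n) P) else parts r n

/-- The class of the label `v`. -/
def cl (r : ℕ → Bool) (lab : ℕ → ℕ) (v : ℕ) : ℕ → ℕ
  | 0 => 0
  | n + 1 => bif r n && Nat.beq (lab n) v then Nat.lor (cl r lab v n) (Nat.pow 2 n)
      else cl r lab v n

theorem cl_succ_ne {r : ℕ → Bool} {lab : ℕ → ℕ} {v n : ℕ} (h : lab n ≠ v) :
    cl r lab v (n + 1) = cl r lab v n := by
  have : Nat.beq (lab n) v = false := by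
    cases hb : Nat.beq (lab n) v
    · rfl
    · exact absurd (Nat.eq_of_beq_eq_true hb) h
  simp [cl, this]

theorem cl_succ_eq {r : ℕ → Bool} {lab : ℕ → ℕ} {n : ℕ} (h : r n = true) :
    cl r lab (lab n) (n + 1) = Nat.lor (cl r lab (lab n) n) (Nat.pow 2 n) := by
  have : Nat.beq (lab n) (lab n) = true := Nat.beq_refl _
  simp [cl, this, h]

theorem cl_succ_false {r : ℕ → Bool} {lab : ℕ → ℕ} {v n : ℕ} (h : r n = false) :
    cl r lab v (n + 1) = cl r lab v n := by
  simp [cl, h]

theorem cl_zero {r : ℕ → Bool} {lab : ℕ → ℕ} {v : ℕ} :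
    ∀ n, (∀ i < n, r i = true → lab i ≠ v) → cl r lab v n = 0 := by
  intro n
  induction n with
  | zero => intro _; rfl
  | succ n ih =>
    intro h
    have h1 := ih (fun i hi => h i (by omega))
    cases hr : r n
    · rw [cl_succ_false hr, h1]
    · rw [cl_succ_ne (h n (by omega) hr), h1]

theorem repl_mem {r : ℕ → Bool} {lab : ℕ → ℕ} {n : ℕ} (h : r n = true) :
    ∀ vs : List ℕ, vs.Nodup → lab n ∈ vs →
      vs.map (fun v => cl r lab v (n + 1)) ∈ repl (Nat.pow 2 n) (vs.map (fun v => cl r lab v n)) := by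
  intro vs
  induction vs with
  | nil => intro _ h; simp at h
  | cons v vs ih =>
    intro hnd hmem
    rw [List.nodup_cons] at hnd
    simp only [List.map_cons, repl, List.mem_cons]
    by_cases hv : lab n = v
    · left
      subst hv
      rw [cl_succ_eq h]
      congr 1
      apply List.map_congr_left
      intro w hw
      exact cl_succ_ne (fun e => hnd.1 (e ▸ hw))
    · right
      rw [cl_succ_ne hv]
      refine List.mem_map.2 ⟨_, ih hnd.2 ?_, rfl⟩
      rcases List.mem_cons.1 hmem with h' | h'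
      · exact absurd h' hv
      · exact h'

theorem parts_complete (r : ℕ → Bool) (lab : ℕ → ℕ) : ∀ n : ℕ, ∃ vs : List ℕ, vs.Nodup ∧
    (∀ v, v ∈ vs ↔ ∃ i < n, r i = true ∧ lab i = v) ∧
    vs.map (fun v => cl r lab v n) ∈ parts r n := by
  intro n
  induction n with
  | zero => exact ⟨[], List.nodup_nil, by simp, by simp [parts]⟩
  | succ n ih =>
    obtain ⟨vs, hnd, hvs, hP⟩ := ih
    cases hr : r n
    · refine ⟨vs, hnd, ?_, ?_⟩
      · intro v
        rw [hvs]
        constructor
        · rintro ⟨i, hi, h⟩; exact ⟨i, by omega, h⟩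
        · rintro ⟨i, hi, h1, h2⟩
          rcases Nat.lt_succ_iff_lt_or_eq.1 hi with h' | h'
          · exact ⟨i, h', h1, h2⟩
          · rw [h', hr] at h1; cases h1
      · simp only [parts, hr, cond_false]
        have : vs.map (fun v => cl r lab v (n + 1)) = vs.map (fun v => cl r lab v n) :=
          List.map_congr_left (fun v _ => cl_succ_false hr)
        rw [this]; exact hP
    · by_cases hm : lab n ∈ vs
      · refine ⟨vs, hnd, ?_, ?_⟩
        · intro v
          rw [hvs]
          constructor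
          · rintro ⟨i, hi, h⟩; exact ⟨i, by omega, h⟩
          · rintro ⟨i, hi, h1, h2⟩
            rcases Nat.lt_succ_iff_lt_or_eq.1 hi with h' | h'
            · exact ⟨i, h', h1, h2⟩
            · rw [h'] at h2; rw [h2] at hm; exact (hvs v).1 hm
        · simp only [parts, hr, cond_true]
          rw [List.mem_flatMap]
          exact ⟨_, hP, List.mem_cons_of_mem _ (repl_mem hr vs hnd hm)⟩
      · refine ⟨lab n :: vs, List.nodup_cons.2 ⟨hm, hnd⟩, ?_, ?_⟩
        · intro v
          rw [List.mem_cons, hvs]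
          constructor
          · rintro (h | ⟨i, hi, h⟩)
            · exact ⟨n, by omega, hr, h.symm⟩
            · exact ⟨i, by omega, h⟩
          · rintro ⟨i, hi, h1, h2⟩
            rcases Nat.lt_succ_iff_lt_or_eq.1 hi with h' | h'
            · right; exact ⟨i, h', h1, h2⟩
            · left; rw [← h2, h']
        · simp only [parts, hr, cond_true]
          rw [List.mem_flatMap]
          refine ⟨_, hP, List.mem_cons.2 (Or.inl ?_)⟩
          have h0 : cl r lab (lab n) n = 0 := cl_zero n (fun i hi h1 h2 => hm ((hvs _).2 ⟨i, hi, h1, h2⟩))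
          simp only [List.map_cons]
          congr 1
          · rw [cl_succ_eq hr, h0]; exact Nat.zero_or _
          · apply List.map_congr_left
            intro w hw
            exact cl_succ_ne (fun e => hm (e ▸ hw))

theorem testBit_cl (r : ℕ → Bool) (lab : ℕ → ℕ) (v : ℕ) : ∀ n i : ℕ,
    (cl r lab v n).testBit i = (decide (i < n) && (r i && decide (lab i = v))) := by
  intro n
  induction n with
  | zero => intro i; simp [cl]
  | succ n ih =>
    intro i
    by_cases hc : r n = true ∧ lab n = v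
    · obtain ⟨h1, h2⟩ := hc
      subst h2
      rw [cl_succ_eq h1]
      have : (Nat.lor (cl r lab (lab n) n) (Nat.pow 2 n)).testBit i =
          ((cl r lab (lab n) n).testBit i || (2 ^ n).testBit i) := Nat.testBit_or ..
      rw [this, ih, Nat.testBit_two_pow]
      by_cases hin : i = n
      · subst hin; simp [h1]
      · have : (i < n + 1) ↔ (i < n) := by omega
        have h3 : ¬ (n = i) := fun h => hin h.symm
        simp [this, h3]
    · have h0 : cl r lab v (n + 1) = cl r lab v n := by
        cases hr : r n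
        · exact cl_succ_false hr
        · exact cl_succ_ne (fun h => hc ⟨hr, h⟩)
      rw [h0, ih]
      by_cases hin : i = n
      · subst hin
        have : (r i && decide (lab i = v)) = false := by
          cases hr : r i
          · simp
          · simp; exact fun h => hc ⟨hr, h⟩
        rw [this]; simp
      · have : (i < n + 1) ↔ (i < n) := by omega
        simp [this]

theorem cl_lt (r : ℕ → Bool) (lab : ℕ → ℕ) (v : ℕ) : cl r lab v 7 < 128 := by
  apply Nat.lt_pow_two_of_testBit (n := 7)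
  intro i hi
  rw [testBit_cl]
  have : ¬ i < 7 := by omega
  simp [this]

/-- The vectors supported on `r`. -/
def avoid (r : ℕ → Bool) : ℕ → ℕ
  | 0 => full7
  | n + 1 => bif r n then avoid r n else Nat.land (avoid r n) (Hx (Nat.pow 2 n))

theorem avoid_spec (r : ℕ → Bool) (J : Fin 7 → ZMod 2) : ∀ n ≤ 7,
    ((avoid r n).testBit (enc J) = true ↔ ∀ i : Fin 7, i.val < n → r i = false → J i = 0) := by
  intro n
  induction n with
  | zero => intro _; simp [avoid, full7_spec]
  | succ n ih =>
    intro hn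
    have ih := ih (by omega)
    cases hr : r n
    · simp only [avoid, hr, cond_false]
      have h1 : (Nat.land (avoid r n) (Hx (Nat.pow 2 n))).testBit (enc J) =
        ((avoid r n).testBit (enc J) && (Hx (2 ^ n)).testBit (enc J)) := Nat.testBit_and ..
      have h2 : (2 : ℕ) ^ n < 128 := by
        have : (2 : ℕ) ^ n ≤ 2 ^ 6 := Nat.pow_le_pow_right (by norm_num) (by omega)
        omega
      have h3 : ip (2 ^ n) J = J ⟨n, by omega⟩ := by
        unfold ip
        rw [Finset.sum_eq_single (⟨n, by omega⟩ : Fin 7)]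
        · simp
        · intro b _ hb
          have : ¬ (n = b.val) := fun h => hb (Fin.ext h.symm)
          simp [Nat.testBit_two_pow, this]
        · simp
      rw [h1, Bool.and_eq_true, ih, Hx_spec h2, h3]
      constructor
      · rintro ⟨h4, h5⟩ i hi hri
        rcases Nat.lt_succ_iff_lt_or_eq.1 hi with h' | h'
        · exact h4 i h' hri
        · have : i = ⟨n, by omega⟩ := Fin.ext h'
          rw [this]; exact h5
      · intro h
        exact ⟨fun i hi => h i (by omega), h ⟨n, by omega⟩ (by simp) hr⟩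
    · simp only [avoid, hr, cond_true]
      rw [ih]
      constructor
      · intro h4 i hi hri
        rcases Nat.lt_succ_iff_lt_or_eq.1 hi with h' | h'
        · exact h4 i h' hri
        · rw [h', hr] at hri; cases hri
      · intro h i hi
        exact h i (by omega)

/-- The admissible sets of all partitions. -/
def AL (r : ℕ → Bool) : List ℕ := (parts r 7).map (fun P => As P (avoid r 7))

theorem AL_complete (r : ℕ → Bool) (L : Fin 7 → Fin 7) : ∃ A ∈ AL r, ∀ J : Fin 7 → ZMod 2,
    A.testBit (enc J) = true ↔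
      (∀ i : Fin 7, r i = false → J i = 0) ∧ ∀ l, (∑ i, if L i = l then J i else 0) = 0 := by
  let lab : ℕ → ℕ := fun i => if h : i < 7 then (L ⟨i, h⟩).val else 0
  have hlab : ∀ i : Fin 7, lab i = (L i).val := fun i => by simp [lab]
  obtain ⟨vs, -, hvs, hP⟩ := parts_complete r lab 7
  refine ⟨_, List.mem_map.2 ⟨_, hP, rfl⟩, fun J => ?_⟩
  rw [As_spec, avoid_spec r J 7 le_rfl]
  have hip : ∀ (l : Fin 7), (∀ i : Fin 7, r i = false → J i = 0) →
      ip (cl r lab l 7) J = ∑ i, if L i = l then J i else 0 := by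
    intro l h
    unfold ip
    apply Finset.sum_congr rfl
    intro i _
    rw [testBit_cl, hlab]
    by_cases h1 : L i = l
    · cases hr : r i
      · simp [h i hr]
      · simp [h1]
    · have : ¬ ((L i).val = l.val) := fun e => h1 (Fin.ext e)
      simp [h1, this]
  constructor
  · rintro ⟨h1, h2⟩
    have h1' : ∀ i : Fin 7, r i = false → J i = 0 := fun i => h1 i i.2
    refine ⟨h1', fun l => ?_⟩
    by_cases hl : l.val ∈ vs
    · have := h2 _ (List.mem_map.2 ⟨l.val, hl, rfl⟩)
      rw [Hx_spec (cl_lt _ _ _), hip l h1'] at this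
      exact this
    · apply Finset.sum_eq_zero
      intro i _
      split
      · rename_i h
        cases hr : r i
        · exact h1' i hr
        · exact absurd ((hvs _).2 ⟨i, i.2, hr, by rw [hlab, h]⟩) hl
      · rfl
  · rintro ⟨h1, h2⟩
    refine ⟨fun i _ => h1 i, fun m hm => ?_⟩
    obtain ⟨v, hv, rfl⟩ := List.mem_map.1 hm
    obtain ⟨i, hi, hri, rfl⟩ := (hvs v).1 hv
    have : lab i = (L ⟨i, hi⟩).val := hlab ⟨i, hi⟩
    rw [Hx_spec (cl_lt _ _ _), this, hip _ h1]
    exact h2 _

end Fin54

end Acyc75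
end

section
/-!
# MP_1e9f59_co : module FIN-54, part 3

Conditions on the admissible sets which follow from the hypotheses.
-/
set_option autoImplicit false

namespace Acyc75

namespace Fin54

def b2 (x : Bool) (v : ℕ) : ℕ := bif x then v else 0

/-- The code of a vector given by bits. -/
def code (b0 b1 b2' b3 b4 b5 b6 : Bool) : ℕ :=
  b2 b0 1 + b2 b1 2 + b2 b2' 4 + b2 b3 8 + b2 b4 16 + b2 b5 32 + b2 b6 64

def bd (x : ZMod 2) : Bool := decide (x ≠ 0)

def zb (b : Bool) : ZMod 2 := bif b then 1 else 0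

theorem bd_zb (b : Bool) : bd (zb b) = b := by cases b <;> rfl
theorem zb_bd (x : ZMod 2) : zb (bd x) = x := by revert x; decide
theorem bd_add (x y : ZMod 2) : bd (x + y) = xor (bd x) (bd y) := by revert x y; decide
theorem bd_false {x : ZMod 2} (h : x = 0) : bd x = false := by subst h; rfl

theorem enc_eq (J : Fin 7 → ZMod 2) :
    enc J = code (bd (J 0)) (bd (J 1)) (bd (J 2)) (bd (J 3)) (bd (J 4)) (bd (J 5)) (bd (J 6)) := by
  have h : ∀ b0 b1 b2' b3 b4 b5 b6 : Bool,
      Nat.ofBits ![b0, b1, b2', b3, b4, b5, b6] = code b0 b1 b2' b3 b4 b5 b6 := by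
    decide +kernel
  rw [← h]
  unfold enc
  congr 1
  funext i
  fin_cases i <;> rfl

def BB : List Bool := [false, true]

theorem mem_BB (b : Bool) : b ∈ BB := by cases b <;> simp [BB]

def okp (ρ p : ℕ) (x y : Bool) : Bool := !(Nat.beq ρ p) || (!x && !y)

theorem okp_of {ρ p : Fin 3} {x y : Bool} (h : ρ = p → x = false ∧ y = false) :
    okp ρ.val p.val x y = true := by
  unfold okp
  by_cases hp : ρ = p
  · obtain ⟨h1, h2⟩ := h hp
    simp [h1, h2]
  · have : Nat.beq ρ.val p.val = false := by
      cases hb : Nat.beq ρ.val p.val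
      · rfl
      · exact absurd (Fin.ext (Nat.eq_of_beq_eq_true hb)) hp
    simp [this]

theorem of_okp {ρ p : Fin 3} {x y : Bool} (h : okp ρ.val p.val x y = true) (hp : ρ = p) :
    x = false ∧ y = false := by
  subst hp
  have : Nat.beq ρ.val ρ.val = true := Nat.beq_refl _
  unfold okp at h
  rw [this] at h
  revert h; cases x <;> cases y <;> simp

/-- Bits `n0 n1 n2 x0 x4` of a boundary vector of the pentagon. -/
structure Nd where
  n0 : Bool
  n1 : Bool
  n2 : Bool
  x0 : Bool
  x4 : Bool

/-- Codes of the vectors which lift to the vector `n`. -/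
def LS (r0 r1 r2 r3 p : ℕ) (n : Nd) : List ℕ :=
  BB.flatMap fun x1 => BB.flatMap fun x2 => BB.flatMap fun x3 =>
    bif okp r0 p n.x0 x1 && okp r1 p x1 x2 && okp r2 p x2 x3 && okp r3 p x3 n.x4
    then [code n.n0 n.n1 n.n2 (xor n.x0 x1) (xor x1 x2) (xor x2 x3) (xor x3 n.x4)] else []

theorem lift_sound {ρ : Fin 4 → Fin 3} {F : Fin 3 → (Fin 7 → ZMod 2) → Prop} {p : Fin 3}
    {J5 : Fin 5 → ZMod 2} {A : ℕ} (hA : ∀ J, F p J → A.testBit (enc J) = true)
    (h : Lift54 ρ F p J5) :
    (LS (ρ 0).val (ρ 1).val (ρ 2).val (ρ 3).val p.val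
      ⟨bd (J5 0), bd (J5 1), bd (J5 2), bd (J5 3), bd (J5 4)⟩).any (Nat.testBit A) = true := by
  obtain ⟨e, J, e1, e2, e3, f1, f2, f3, f4, s, v, hF, j0, j1, j2, j3, j4⟩ := h
  rw [List.any_eq_true]
  refine ⟨enc J, ?_, hA J hF⟩
  have hv : ∀ i t, ρ i = p → e i t = 0 := by
    intro i t hi
    by_contra hne
    exact v i t hne hi
  unfold LS
  rw [List.mem_flatMap]
  refine ⟨bd (e 0 0), mem_BB _, ?_⟩
  rw [List.mem_flatMap]
  refine ⟨bd (e 1 0), mem_BB _, ?_⟩
  rw [List.mem_flatMap]
  refine ⟨bd (e 2 0), mem_BB _, ?_⟩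
  have k0 : okp (ρ 0).val p.val (bd (J5 3)) (bd (e 0 0)) = true :=
    okp_of (fun hp => ⟨bd_false (by rw [j3]; exact hv 0 2 hp), bd_false (hv 0 0 hp)⟩)
  have k1 : okp (ρ 1).val p.val (bd (e 0 0)) (bd (e 1 0)) = true :=
    okp_of (fun hp => ⟨bd_false (by rw [e1]; exact hv 1 2 hp), bd_false (hv 1 0 hp)⟩)
  have k2 : okp (ρ 2).val p.val (bd (e 1 0)) (bd (e 2 0)) = true :=
    okp_of (fun hp => ⟨bd_false (by rw [e2]; exact hv 2 2 hp), bd_false (hv 2 0 hp)⟩)
  have k3 : okp (ρ 3).val p.val (bd (e 2 0)) (bd (J5 4)) = true :=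
    okp_of (fun hp => ⟨bd_false (by rw [e3]; exact hv 3 2 hp), bd_false (by rw [j4]; exact hv 3 0 hp)⟩)
  simp only [k0, k1, k2, k3, Bool.and_self, cond_true, List.mem_singleton]
  have add3 : ∀ x y z : ZMod 2, x + y + z = 0 → y = z + x := by decide
  rw [enc_eq, ← j0, ← j1, ← j2, ← bd_add, ← bd_add, ← bd_add, ← bd_add]
  have q3 : J 3 = J5 3 + e 0 0 := by rw [← f1, j3]; exact add3 _ _ _ (s 0)
  have q4 : J 4 = e 0 0 + e 1 0 := by rw [← f2, e1]; exact add3 _ _ _ (s 1)
  have q5 : J 5 = e 1 0 + e 2 0 := by rw [← f3, e2]; exact add3 _ _ _ (s 2)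
  have q6 : J 6 = e 2 0 + J5 4 := by rw [← f4, e3, j4]; exact add3 _ _ _ (s 3)
  rw [q3, q4, q5, q6]

/-- Codes of the boundary vectors (with equal entries 0, 1) of the non-zero chains on the reduced
configuration. -/
def CS (z r0 r1 r2 r3 p : ℕ) : List ℕ :=
  BB.flatMap fun w0 => BB.flatMap fun w1 => BB.flatMap fun w2 => BB.flatMap fun w3 =>
    BB.flatMap fun w4 => BB.flatMap fun x =>
    bif (w0 || w1 || w2 || w3 || w4 || x) && okp z p w0 w4 && okp r0 p w0 w1 && okp r1 p w1 w2 &&
      okp r2 p w2 w3 && okp r3 p w3 w4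
    then [code x x (xor w4 w0) (xor w0 w1) (xor w1 w2) (xor w2 w3) (xor w3 w4)] else []

theorem cs_sound {ρ : Fin 4 → Fin 3} {z p : Fin 3} {c : Fin 7 → Fin 3}
    {L : Fin 3 → Fin 7 → Fin 7} {A : ℕ}
    (hA : ∀ J, A.testBit (enc J) = true → EL c L p J)
    (h : FA T54r (fun J => J 0 = J 1) c L ![z, ρ 0, ρ 1, ρ 2, ρ 3]) :
    (CS z.val (ρ 0).val (ρ 1).val (ρ 2).val (ρ 3).val p.val).all
      (fun n => !(Nat.testBit A n)) = true := by
  rw [List.all_eq_true]
  intro n hn
  cases hb : Nat.testBit A n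
  · rfl
  exfalso
  unfold CS at hn
  simp only [List.mem_flatMap] at hn
  obtain ⟨w0, -, w1, -, w2, -, w3, -, w4, -, x, -, hn⟩ := hn
  cases hc : ((w0 || w1 || w2 || w3 || w4 || x) && okp z p w0 w4 && okp (ρ 0) p w0 w1 &&
      okp (ρ 1) p w1 w2 && okp (ρ 2) p w2 w3 && okp (ρ 3) p w3 w4)
  · rw [hc] at hn; simp at hn
  rw [hc] at hn
  simp only [cond_true, List.mem_singleton] at hn
  simp only [Bool.and_eq_true] at hc
  obtain ⟨⟨⟨⟨⟨h0, kz⟩, k0⟩, k1⟩, k2⟩, k3⟩ := hc
  let J : Fin 7 → ZMod 2 := ![zb x, zb x, zb (xor w4 w0), zb (xor w0 w1), zb (xor w1 w2),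
    zb (xor w2 w3), zb (xor w3 w4)]
  have hJ : enc J = n := by
    rw [enc_eq, hn]
    change code (bd (zb x)) (bd (zb x)) (bd (zb (xor w4 w0))) (bd (zb (xor w0 w1)))
      (bd (zb (xor w1 w2))) (bd (zb (xor w2 w3))) (bd (zb (xor w3 w4))) = _
    simp only [bd_zb]
  have hEL := hA J (by rw [hJ]; exact hb)
  let e : Fin 5 → Fin 3 → ZMod 2 := ![![zb w4, zb w0, zb (xor w4 w0)],
    ![zb w1, zb (xor w0 w1), zb w0], ![zb w2, zb (xor w1 w2), zb w1],
    ![zb w3, zb (xor w2 w3), zb w2], ![zb w4, zb (xor w3 w4), zb w3]]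
  have hz := h.2 p e J ?_ ?_ ?_ rfl hEL
  · have a0 : bd (e 0 1) = false := bd_false (hz.2 0 1)
    have a1 : bd (e 1 0) = false := bd_false (hz.2 1 0)
    have a2 : bd (e 2 0) = false := bd_false (hz.2 2 0)
    have a3 : bd (e 3 0) = false := bd_false (hz.2 3 0)
    have a4 : bd (e 4 0) = false := bd_false (hz.2 4 0)
    have ax : bd (J 0) = false := bd_false (hz.1 0)
    change bd (zb w0) = false at a0
    change bd (zb w1) = false at a1
    change bd (zb w2) = false at a2
    change bd (zb w3) = false at a3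
    change bd (zb w4) = false at a4
    change bd (zb x) = false at ax
    rw [bd_zb] at a0 a1 a2 a3 a4 ax
    rw [a0, a1, a2, a3, a4, ax] at h0
    exact absurd h0 (by decide)
  · intro i t
    fin_cases i <;> fin_cases t <;> rfl
  · have h3 : ∀ a b : Bool, zb a + zb b + zb (xor a b) = 0 ∧ zb b + zb (xor a b) + zb a = 0 := by
      decide
    intro i
    fin_cases i
    · exact (h3 w4 w0).1
    · exact (h3 w0 w1).2
    · exact (h3 w1 w2).2
    · exact (h3 w2 w3).2
    · exact (h3 w3 w4).2
  · have hzf : zb false = 0 := rfl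
    intro i t hne hi
    apply hne
    fin_cases i
    · obtain ⟨q0, q1⟩ := of_okp kz hi
      fin_cases t
      · change zb w4 = 0; rw [q1]; rfl
      · change zb w0 = 0; rw [q0]; rfl
      · change zb (xor w4 w0) = 0; rw [q0, q1]; rfl
    · obtain ⟨q0, q1⟩ := of_okp k0 hi
      fin_cases t
      · change zb w1 = 0; rw [q1]; rfl
      · change zb (xor w0 w1) = 0; rw [q0, q1]; rfl
      · change zb w0 = 0; rw [q0]; rfl
    · obtain ⟨q0, q1⟩ := of_okp k1 hi
      fin_cases t
      · change zb w2 = 0; rw [q1]; rfl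
      · change zb (xor w1 w2) = 0; rw [q0, q1]; rfl
      · change zb w1 = 0; rw [q0]; rfl
    · obtain ⟨q0, q1⟩ := of_okp k2 hi
      fin_cases t
      · change zb w3 = 0; rw [q1]; rfl
      · change zb (xor w2 w3) = 0; rw [q0, q1]; rfl
      · change zb w2 = 0; rw [q0]; rfl
    · obtain ⟨q0, q1⟩ := of_okp k3 hi
      fin_cases t
      · change zb w4 = 0; rw [q1]; rfl
      · change zb (xor w3 w4) = 0; rw [q0, q1]; rfl
      · change zb w3 = 0; rw [q0]; rfl

/-! ### Crossings -/

/-- All quadruples `i < j < l < n`. -/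
def Q4 : List (Fin 7 × Fin 7 × Fin 7 × Fin 7) :=
  [(0, 1, 2, 3), (0, 1, 2, 4), (0, 1, 2, 5), (0, 1, 2, 6), (0, 1, 3, 4), (0, 1, 3, 5),
  (0, 1, 3, 6), (0, 1, 4, 5), (0, 1, 4, 6), (0, 1, 5, 6), (0, 2, 3, 4), (0, 2, 3, 5),
  (0, 2, 3, 6), (0, 2, 4, 5), (0, 2, 4, 6), (0, 2, 5, 6), (0, 3, 4, 5), (0, 3, 4, 6),
  (0, 3, 5, 6), (0, 4, 5, 6), (1, 2, 3, 4), (1, 2, 3, 5), (1, 2, 3, 6), (1, 2, 4, 5),
  (1, 2, 4, 6), (1, 2, 5, 6), (1, 3, 4, 5), (1, 3, 4, 6), (1, 3, 5, 6), (1, 4, 5, 6),
  (2, 3, 4, 5), (2, 3, 4, 6), (2, 3, 5, 6), (2, 4, 5, 6), (3, 4, 5, 6)]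

/-- Codes of `e_i + e_l`, `e_j + e_n`, `e_i + e_j`. -/
def Qs : List (ℕ × ℕ × ℕ) :=
  [(5, 10, 3), (5, 18, 3), (5, 34, 3), (5, 66, 3), (9, 18, 3), (9, 34, 3), (9, 66, 3),
  (17, 34, 3), (17, 66, 3), (33, 66, 3), (9, 20, 5), (9, 36, 5), (9, 68, 5), (17, 36, 5),
  (17, 68, 5), (33, 68, 5), (17, 40, 9), (17, 72, 9), (33, 72, 9), (33, 80, 17), (10, 20, 6),
  (10, 36, 6), (10, 68, 6), (18, 36, 6), (18, 68, 6), (34, 68, 6), (18, 40, 10), (18, 72, 10),
  (34, 72, 10), (34, 80, 18), (20, 40, 12), (20, 72, 12), (36, 72, 12), (36, 80, 20),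
  (40, 80, 24)]

def pc (i j : Fin 7) : ℕ := 2 ^ i.val + 2 ^ j.val

theorem Qs_eq : Qs = Q4.map (fun q => (pc q.1 q.2.2.1, pc q.2.1 q.2.2.2, pc q.1 q.2.1)) := by
  decide +kernel

theorem Q4_lt : ∀ q ∈ Q4, q.1 < q.2.1 ∧ q.2.1 < q.2.2.1 ∧ q.2.2.1 < q.2.2.2 := by
  decide +kernel

theorem enc_pc : ∀ i j : Fin 7, i < j → enc (ei i + ei j) = pc i j := by
  decide +kernel

def selfNC (A : ℕ) : Bool :=
  Qs.all (fun q => !(Nat.testBit A q.1 && Nat.testBit A q.2.1) || Nat.testBit A q.2.2)

def crossOK (A A' : ℕ) : Bool := Qs.all (fun q => !(Nat.testBit A q.1 && Nat.testBit A' q.2.1)) &&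
  Qs.all (fun q => !(Nat.testBit A' q.1 && Nat.testBit A q.2.1))

theorem selfNC_sound {F : Fin 3 → (Fin 7 → ZMod 2) → Prop} (hNC : NC F) {p : Fin 3} {A : ℕ}
    (hA : ∀ J, A.testBit (enc J) = true ↔ F p J) : selfNC A = true := by
  unfold selfNC
  rw [List.all_eq_true]
  intro q hq
  rw [Qs_eq, List.mem_map] at hq
  obtain ⟨⟨i, j, l, n⟩, hm, rfl⟩ := hq
  obtain ⟨h1, h2, h3⟩ := Q4_lt _ hm
  simp only at h1 h2 h3 ⊢
  cases ha : Nat.testBit A (pc i l)
  · rfl
  cases hb : Nat.testBit A (pc j n)
  · rfl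
  rw [← enc_pc i l (h1.trans h2), hA] at ha
  rw [← enc_pc j n (h2.trans h3), hA] at hb
  have := (hNC p p i j l n h1 h2 h3 ha hb).2
  rw [← hA, enc_pc i j h1] at this
  rw [this]; rfl

theorem cross_half {F : Fin 3 → (Fin 7 → ZMod 2) → Prop} (hNC : NC F) {p p' : Fin 3}
    (hp : p ≠ p') {A A' : ℕ} (hA : ∀ J, A.testBit (enc J) = true ↔ F p J)
    (hA' : ∀ J, A'.testBit (enc J) = true ↔ F p' J) :
    Qs.all (fun q => !(Nat.testBit A q.1 && Nat.testBit A' q.2.1)) = true := by
  rw [List.all_eq_true]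
  intro q hq
  rw [Qs_eq, List.mem_map] at hq
  obtain ⟨⟨i, j, l, n⟩, hm, rfl⟩ := hq
  obtain ⟨h1, h2, h3⟩ := Q4_lt _ hm
  simp only at h1 h2 h3 ⊢
  cases ha : Nat.testBit A (pc i l)
  · rfl
  cases hb : Nat.testBit A' (pc j n)
  · rfl
  rw [← enc_pc i l (h1.trans h2), hA] at ha
  rw [← enc_pc j n (h2.trans h3), hA'] at hb
  exact absurd (hNC p p' i j l n h1 h2 h3 ha hb).1 hp

theorem cross_sound {F : Fin 3 → (Fin 7 → ZMod 2) → Prop} (hNC : NC F) {p p' : Fin 3}
    (hp : p ≠ p') {A A' : ℕ} (hA : ∀ J, A.testBit (enc J) = true ↔ F p J)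
    (hA' : ∀ J, A'.testBit (enc J) = true ↔ F p' J) : crossOK A A' = true := by
  unfold crossOK
  rw [cross_half hNC hp hA hA', cross_half hNC hp.symm hA' hA]
  rfl

end Fin54

end Acyc75
end
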