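import Pool.Agent.Lib.MP_1e9f59_co.Fc

section
/-!
# MP_1e9f59_co : FIN-THR
-/
set_option autoImplicit false
set_option maxRecDepth 100000

namespace Acyc75

namespace Fc

/-- from a list to a function -/
theorem exists_fun (m : ℕ) (gl : List ℕ) (h : gl.all (fun x => Nat.blt x 3) = true) :
    ∃ g : Fin m → Fin 3, ∀ i, gl.getD i.val 0 = (g i).val := by
  have h1 : ∀ i : Fin m, gl.getD i.val 0 < 3 := by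
    intro i
    rw [List.all_eq_true] at h
    by_cases hi : i.val < gl.length
    · have h2 := h _ (List.getElem_mem hi)
      rw [List.getD_eq_getElem _ _ hi]
      simpa using h2
    · rw [List.getD_eq_default _ _ (by omega)]
      norm_num
  exact ⟨fun i => ⟨gl.getD i.val 0, h1 i⟩, fun i => rfl⟩

theorem mem_R3 (x : Fin 3) : x.val ∈ R3 := by
  revert x
  decide

/-- one of the colourings in the list works -/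
def anyg (k : ℕ) (tc : TC) (gs : List (List ℕ)) (c m0 m1 m2 : List ℕ) : Bool :=
  gs.any fun g => g.all (fun x => Nat.blt x 3) && proper k tc g c &&
    fa tc g (nem 0 c) 0 m0 && fa tc g (nem 1 c) 1 m1 && fa tc g (nem 2 c) 2 m2

theorem anyg_sound {m k : ℕ} {T : Tab m k} {tc : TC} (ok : OK T tc) (gs : List (List ℕ))
    {c : Fin k → Fin 3} {L : Fin 3 → Fin k → Fin k}
    (h : anyg k tc gs (lst c) (cd (Rel c L 0) k) (cd (Rel c L 1) k) (cd (Rel c L 2) k) = true) :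
    ∃ g : Fin m → Fin 3, FA T (fun _ => True) c L g := by
  unfold anyg at h
  rw [List.any_eq_true] at h
  obtain ⟨gl, _, hgl⟩ := h
  simp only [Bool.and_eq_true] at hgl
  obtain ⟨⟨⟨⟨h1, h2⟩, h3⟩, h4⟩, h5⟩ := hgl
  obtain ⟨g, hg⟩ := exists_fun m gl h1
  refine ⟨g, fa_sound ok gl hg h2 fun p => ?_⟩
  fin_cases p
  · exact h3
  · exact h4
  · exact h5

/-- data of the empty table -/
def tc0 : TC := ⟨0, [], []⟩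

theorem ok0 : OK T0 tc0 := by
  refine ⟨fun i => i.elim0, ?_, fun i => i.elim0, fun i => i.elim0, fun i => i.elim0, ?_⟩
  · rfl
  · intro q hq
    exact absurd hq (by simp [tc0])

/-- forbidden vectors of the empty table -/
def hv0 : List ℕ := [3, 12, 15]

theorem valid0 : ∀ v ∈ hv0, Valid T0 (fun J => J 0 = J 1 ∧ J 2 = J 3) v := by
  intro v hv
  simp only [hv0, List.mem_cons, List.not_mem_nil, or_false] at hv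
  refine ⟨fun i => i.elim0, ?_, Or.inl ?_⟩
  · rcases hv with rfl | rfl | rfl <;> decide
  · rcases hv with rfl | rfl | rfl
    · exact ⟨0, rfl⟩
    · exact ⟨2, rfl⟩
    · exact ⟨0, rfl⟩

/-- check of one colouring of the boundary -/
def chkThr (tc : TC) (tab : List (List ℕ × List (List ℕ))) (c : List ℕ) : Bool :=
  (enum (nem 0 c) (hvs 4 hv0 (un tc0 [] (nem 0 c) 0)) 4).all fun m0 =>
    (enum (nem 1 c) (hvs 4 hv0 (un tc0 [] (nem 1 c) 1)) 4).all fun m1 =>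
      (enum (nem 2 c) (hvs 4 hv0 (un tc0 [] (nem 2 c) 2)) 4).all fun m2 =>
        anyg 4 tc (look tab c) c m0 m1 m2

/-- check of all colourings of the boundary -/
def allThr (tc : TC) (tab : List (List ℕ × List (List ℕ))) : Bool :=
  R3.all fun c0 => R3.all fun c1 => R3.all fun c2 => R3.all fun c3 =>
    Nat.beq c0 c1 || Nat.beq c2 c3 || chkThr tc tab [c0, c1, c2, c3]

theorem finThr_of {m : ℕ} {T : Tab m 4} {tc : TC} (ok : OK T tc)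
    (tab : List (List ℕ × List (List ℕ))) (h : allThr tc tab = true) : FinThr T := by
  intro c L h01 h23 hFA
  unfold allThr at h
  simp only [List.all_eq_true] at h
  have h1 := h _ (mem_R3 (c 0)) _ (mem_R3 (c 1)) _ (mem_R3 (c 2)) _ (mem_R3 (c 3))
  have hl : [(c 0).val, (c 1).val, (c 2).val, (c 3).val] = lst c := by
    simp [lst, List.ofFn_succ]
  rw [hl] at h1
  have n1 : Nat.beq (c 0).val (c 1).val = false := by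
    rw [Bool.eq_false_iff, Ne, beq_iff]
    exact fun h => h01 (Fin.ext h)
  have n2 : Nat.beq (c 2).val (c 3).val = false := by
    rw [Bool.eq_false_iff, Ne, beq_iff]
    exact fun h => h23 (Fin.ext h)
  rw [n1, n2, Bool.false_or, Bool.false_or] at h1
  unfold chkThr at h1
  simp only [List.all_eq_true] at h1
  have hm := fun p => code_mem (by norm_num) ok0 valid0 hFA p
  have hg : lst (fun i : Fin 0 => (i.elim0 : Fin 3)) = [] := rfl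
  rw [hg] at hm
  exact anyg_sound ok _ (h1 _ (hm 0) _ (hm 1) _ (hm 2))

/-- data of the table -/
def tcSq : TC := ⟨1232, [(4, 0, 1), (0, 0, 0), (6, 0, 3), (7, 1, 2), (1, 1, 1), (10, 2, 3), (2, 2, 2), (3, 3, 3)],
  [81, 146, 1156, 1096]⟩

/-- colourings of the table -/
def tabSq : List (List ℕ × List (List ℕ)) := [
  ([1, 0, 1, 0], [[2, 1, 0, 1], [0, 2, 0, 1]]),
  ([2, 0, 1, 0], [[0, 2, 0, 1]]),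
  ([0, 1, 1, 0], [[2, 0, 2, 1]]),
  ([2, 1, 1, 0], [[0, 2, 0, 1]]),
  ([0, 2, 1, 0], [[2, 1, 0, 1]]),
  ([1, 2, 1, 0], [[2, 1, 0, 1]]),
  ([1, 0, 2, 0], [[0, 1, 0, 2]]),
  ([2, 0, 2, 0], [[0, 2, 0, 1], [0, 2, 1, 2]]),
  ([0, 1, 2, 0], [[1, 2, 0, 2]]),
  ([2, 1, 2, 0], [[1, 2, 0, 2]]),
  ([0, 2, 2, 0], [[2, 1, 0, 1]]),
  ([1, 2, 2, 0], [[2, 1, 0, 1]]),
  ([1, 0, 0, 1], [[2, 1, 2, 0]]),
  ([2, 0, 0, 1], [[1, 2, 1, 0]]),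
  ([0, 1, 0, 1], [[2, 0, 1, 0], [1, 2, 1, 0]]),
  ([2, 1, 0, 1], [[1, 2, 1, 0]]),
  ([0, 2, 0, 1], [[2, 0, 1, 0]]),
  ([1, 2, 0, 1], [[2, 0, 1, 0]]),
  ([1, 0, 2, 1], [[0, 1, 0, 2]]),
  ([2, 0, 2, 1], [[0, 2, 1, 2]]),
  ([0, 1, 2, 1], [[1, 0, 1, 2]]),
  ([2, 1, 2, 1], [[1, 2, 1, 0], [1, 2, 0, 2]]),
  ([0, 2, 2, 1], [[2, 0, 1, 0]]),
  ([1, 2, 2, 1], [[2, 0, 1, 0]]),
  ([1, 0, 0, 2], [[2, 1, 2, 0]]),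
  ([2, 0, 0, 2], [[1, 2, 1, 0]]),
  ([0, 1, 0, 2], [[1, 0, 2, 0]]),
  ([2, 1, 0, 2], [[1, 2, 1, 0]]),
  ([0, 2, 0, 2], [[2, 0, 1, 0], [2, 0, 2, 1]]),
  ([1, 2, 0, 2], [[2, 1, 2, 0]]),
  ([1, 0, 1, 2], [[0, 1, 2, 1]]),
  ([2, 0, 1, 2], [[0, 2, 0, 1]]),
  ([0, 1, 1, 2], [[1, 0, 2, 0]]),
  ([2, 1, 1, 2], [[1, 0, 2, 0]]),
  ([0, 2, 1, 2], [[2, 0, 2, 1]]),
  ([1, 2, 1, 2], [[2, 1, 2, 0], [2, 1, 0, 1]])]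

theorem okSq : OK Tsq tcSq where
  inv := by decide +kernel
  vm := by decide +kernel
  bitA := by decide +kernel
  inr := by decide +kernel
  inl := by decide +kernel
  inc := by decide +kernel

theorem finSq : FinThr Tsq := finThr_of okSq tabSq (by decide +kernel)

/-- data of the table -/
def tcX4 : TC := ⟨2256, [(4, 0, 1), (0, 0, 0), (6, 0, 2), (7, 1, 2), (1, 1, 1), (11, 2, 3), (2, 3, 3), (3, 3, 3)],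
  [81, 146, 2240, 2060]⟩

/-- colourings of the table -/
def tabX4 : List (List ℕ × List (List ℕ)) := [
  ([1, 0, 1, 0], [[2, 1, 0, 2]]),
  ([2, 0, 1, 0], [[0, 2, 1, 2]]),
  ([0, 1, 1, 0], [[1, 2, 0, 2]]),
  ([2, 1, 1, 0], [[1, 2, 0, 2]]),
  ([0, 2, 1, 0], [[2, 0, 1, 2]]),
  ([1, 2, 1, 0], [[2, 1, 0, 2]]),
  ([1, 0, 2, 0], [[0, 1, 2, 1]]),
  ([2, 0, 2, 0], [[1, 2, 0, 1]]),
  ([0, 1, 2, 0], [[1, 0, 2, 1]]),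
  ([2, 1, 2, 0], [[1, 2, 0, 1]]),
  ([0, 2, 2, 0], [[2, 1, 0, 1]]),
  ([1, 2, 2, 0], [[2, 1, 0, 1]]),
  ([1, 0, 0, 1], [[2, 1, 0, 2]]),
  ([2, 0, 0, 1], [[0, 2, 1, 2]]),
  ([0, 1, 0, 1], [[1, 2, 0, 2]]),
  ([2, 1, 0, 1], [[1, 2, 0, 2]]),
  ([0, 2, 0, 1], [[2, 0, 1, 2]]),
  ([1, 2, 0, 1], [[2, 1, 0, 2]]),
  ([1, 0, 2, 1], [[0, 1, 2, 0]]),
  ([2, 0, 2, 1], [[0, 2, 1, 0]]),
  ([0, 1, 2, 1], [[1, 0, 2, 0]]),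
  ([2, 1, 2, 1], [[0, 2, 1, 0]]),
  ([0, 2, 2, 1], [[2, 0, 1, 0]]),
  ([1, 2, 2, 1], [[2, 0, 1, 0]]),
  ([1, 0, 0, 2], [[0, 1, 2, 1]]),
  ([2, 0, 0, 2], [[1, 2, 0, 1]]),
  ([0, 1, 0, 2], [[1, 0, 2, 1]]),
  ([2, 1, 0, 2], [[1, 2, 0, 1]]),
  ([0, 2, 0, 2], [[2, 1, 0, 1]]),
  ([1, 2, 0, 2], [[2, 1, 0, 1]]),
  ([1, 0, 1, 2], [[0, 1, 2, 0]]),
  ([2, 0, 1, 2], [[0, 2, 1, 0]]),
  ([0, 1, 1, 2], [[1, 0, 2, 0]]),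
  ([2, 1, 1, 2], [[0, 2, 1, 0]]),
  ([0, 2, 1, 2], [[2, 0, 1, 0]]),
  ([1, 2, 1, 2], [[2, 0, 1, 0]])]

theorem okX4 : OK Tx4 tcX4 where
  inv := by decide +kernel
  vm := by decide +kernel
  bitA := by decide +kernel
  inr := by decide +kernel
  inl := by decide +kernel
  inc := by decide +kernel

theorem finX4 : FinThr Tx4 := finThr_of okX4 tabX4 (by decide +kernel)

/-- data of the table -/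
def tcX6 : TC := ⟨108752, [(4, 0, 1), (0, 0, 0), (6, 0, 2), (7, 1, 2), (1, 1, 1), (11, 2, 5), (13, 3, 4), (2, 3, 3), (15, 3, 5), (16, 4, 5), (3, 4, 4)],
  [81, 146, 2240, 40964, 73736, 100352]⟩

/-- colourings of the table -/
def tabX6 : List (List ℕ × List (List ℕ)) := [
  ([1, 0, 1, 0], [[0, 1, 2, 2, 1, 0]]),
  ([2, 0, 1, 0], [[0, 2, 1, 2, 1, 0]]),
  ([0, 1, 1, 0], [[1, 0, 2, 2, 1, 0]]),
  ([2, 1, 1, 0], [[0, 2, 1, 2, 1, 0]]),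
  ([0, 2, 1, 0], [[2, 0, 1, 2, 1, 0]]),
  ([1, 2, 1, 0], [[2, 0, 1, 2, 1, 0]]),
  ([1, 0, 2, 0], [[0, 2, 1, 1, 2, 0]]),
  ([2, 0, 2, 0], [[0, 2, 1, 1, 2, 0]]),
  ([0, 1, 2, 0], [[2, 0, 1, 1, 2, 0]]),
  ([2, 1, 2, 0], [[0, 2, 1, 1, 2, 0]]),
  ([0, 2, 2, 0], [[2, 0, 1, 1, 2, 0]]),
  ([1, 2, 2, 0], [[2, 0, 1, 1, 2, 0]]),
  ([1, 0, 0, 1], [[0, 1, 2, 1, 2, 0]]),
  ([2, 0, 0, 1], [[0, 2, 1, 1, 2, 0]]),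
  ([0, 1, 0, 1], [[1, 0, 2, 1, 2, 0]]),
  ([2, 1, 0, 1], [[0, 2, 1, 1, 2, 0]]),
  ([0, 2, 0, 1], [[2, 0, 1, 1, 2, 0]]),
  ([1, 2, 0, 1], [[2, 0, 1, 1, 2, 0]]),
  ([1, 0, 2, 1], [[0, 2, 1, 1, 2, 0]]),
  ([2, 0, 2, 1], [[0, 2, 1, 1, 2, 0]]),
  ([0, 1, 2, 1], [[2, 0, 1, 1, 2, 0]]),
  ([2, 1, 2, 1], [[0, 2, 1, 1, 2, 0]]),
  ([0, 2, 2, 1], [[2, 0, 1, 1, 2, 0]]),
  ([1, 2, 2, 1], [[2, 0, 1, 1, 2, 0]]),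
  ([1, 0, 0, 2], [[0, 2, 1, 2, 1, 0]]),
  ([2, 0, 0, 2], [[0, 2, 1, 2, 1, 0]]),
  ([0, 1, 0, 2], [[2, 0, 1, 2, 1, 0]]),
  ([2, 1, 0, 2], [[0, 2, 1, 2, 1, 0]]),
  ([0, 2, 0, 2], [[2, 0, 1, 2, 1, 0]]),
  ([1, 2, 0, 2], [[2, 0, 1, 2, 1, 0]]),
  ([1, 0, 1, 2], [[0, 2, 1, 2, 1, 0]]),
  ([2, 0, 1, 2], [[0, 2, 1, 2, 1, 0]]),
  ([0, 1, 1, 2], [[2, 0, 1, 2, 1, 0]]),
  ([2, 1, 1, 2], [[0, 2, 1, 2, 1, 0]]),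
  ([0, 2, 1, 2], [[2, 0, 1, 2, 1, 0]]),
  ([1, 2, 1, 2], [[2, 0, 1, 2, 1, 0]])]

theorem okX6 : OK Tx6 tcX6 where
  inv := by decide +kernel
  vm := by decide +kernel
  bitA := by decide +kernel
  inr := by decide +kernel
  inl := by decide +kernel
  inc := by decide +kernel

theorem finX6 : FinThr Tx6 := finThr_of okX6 tabX6 (by decide +kernel)

/-- data of the table -/
def tcDA : TC := ⟨67056, [(4, 0, 1), (5, 0, 4), (6, 0, 3), (7, 1, 2), (8, 1, 5), (10, 2, 3), (0, 2, 2), (1, 3, 3), (16, 4, 5), (2, 4, 4), (3, 5, 5)],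
  [112, 400, 1153, 1090, 65572, 65800]⟩

/-- colourings of the table -/
def tabDA : List (List ℕ × List (List ℕ)) := [
  ([1, 0, 1, 0], [[2, 0, 2, 1, 0, 1]]),
  ([2, 0, 1, 0], [[1, 2, 0, 2, 0, 1]]),
  ([0, 1, 1, 0], [[1, 0, 2, 0, 2, 1], [1, 0, 1, 2, 0, 2]]),
  ([2, 1, 1, 0], [[1, 2, 0, 2, 0, 1]]),
  ([0, 2, 1, 0], [[2, 0, 2, 1, 0, 1]]),
  ([1, 2, 1, 0], [[2, 0, 2, 1, 0, 1]]),
  ([1, 0, 2, 0], [[2, 0, 2, 1, 0, 1]]),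
  ([2, 0, 2, 0], [[1, 2, 0, 2, 0, 1]]),
  ([0, 1, 2, 0], [[1, 0, 1, 2, 0, 2]]),
  ([2, 1, 2, 0], [[1, 2, 0, 2, 0, 1]]),
  ([0, 2, 2, 0], [[2, 0, 2, 1, 0, 1], [2, 0, 1, 0, 1, 2]]),
  ([1, 2, 2, 0], [[2, 0, 2, 1, 0, 1]]),
  ([1, 0, 0, 1], [[0, 1, 2, 1, 2, 0], [0, 1, 0, 2, 1, 2]]),
  ([2, 0, 0, 1], [[0, 2, 1, 2, 1, 0]]),
  ([0, 1, 0, 1], [[2, 1, 2, 0, 1, 0]]),
  ([2, 1, 0, 1], [[0, 2, 1, 2, 1, 0]]),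
  ([0, 2, 0, 1], [[2, 1, 2, 0, 1, 0]]),
  ([1, 2, 0, 1], [[2, 1, 2, 0, 1, 0]]),
  ([1, 0, 2, 1], [[2, 1, 0, 1, 0, 2]]),
  ([2, 0, 2, 1], [[0, 2, 1, 2, 1, 0]]),
  ([0, 1, 2, 1], [[2, 1, 2, 0, 1, 0]]),
  ([2, 1, 2, 1], [[0, 2, 1, 2, 1, 0]]),
  ([0, 2, 2, 1], [[2, 1, 2, 0, 1, 0]]),
  ([1, 2, 2, 1], [[2, 1, 2, 0, 1, 0], [2, 1, 0, 1, 0, 2]]),
  ([1, 0, 0, 2], [[0, 1, 2, 1, 2, 0]]),
  ([2, 0, 0, 2], [[0, 2, 1, 2, 1, 0], [0, 2, 0, 1, 2, 1]]),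
  ([0, 1, 0, 2], [[2, 1, 2, 0, 1, 0]]),
  ([2, 1, 0, 2], [[0, 2, 1, 2, 1, 0]]),
  ([0, 2, 0, 2], [[2, 1, 2, 0, 1, 0]]),
  ([1, 2, 0, 2], [[2, 1, 2, 0, 1, 0]]),
  ([1, 0, 1, 2], [[0, 1, 2, 1, 2, 0]]),
  ([2, 0, 1, 2], [[1, 2, 0, 2, 0, 1]]),
  ([0, 1, 1, 2], [[1, 2, 1, 0, 2, 0]]),
  ([2, 1, 1, 2], [[1, 2, 1, 0, 2, 0], [1, 2, 0, 2, 0, 1]]),
  ([0, 2, 1, 2], [[1, 2, 1, 0, 2, 0]]),
  ([1, 2, 1, 2], [[0, 1, 2, 1, 2, 0]])]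

theorem okDA : OK TdA tcDA where
  inv := by decide +kernel
  vm := by decide +kernel
  bitA := by decide +kernel
  inr := by decide +kernel
  inl := by decide +kernel
  inc := by decide +kernel

theorem finDA : FinThr TdA := finThr_of okDA tabDA (by decide +kernel)

/-- data of the table -/
def tcDB : TC := ⟨67056, [(4, 0, 1), (5, 0, 4), (6, 0, 3), (7, 1, 2), (8, 1, 5), (10, 2, 3), (3, 2, 2), (0, 3, 3), (16, 4, 5), (1, 4, 4), (2, 5, 5)],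
  [112, 400, 1160, 1089, 65570, 65796]⟩

/-- colourings of the table -/
def tabDB : List (List ℕ × List (List ℕ)) := [
  ([1, 0, 1, 0], [[2, 1, 2, 0, 1, 0], [1, 2, 1, 0, 2, 0]]),
  ([2, 0, 1, 0], [[1, 2, 1, 0, 2, 0]]),
  ([0, 1, 1, 0], [[0, 1, 2, 1, 2, 0], [1, 0, 1, 2, 0, 2]]),
  ([2, 1, 1, 0], [[1, 2, 1, 0, 2, 0]]),
  ([0, 2, 1, 0], [[0, 2, 1, 2, 1, 0]]),
  ([1, 2, 1, 0], [[2, 1, 2, 0, 1, 0]]),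
  ([1, 0, 2, 0], [[2, 1, 2, 0, 1, 0]]),
  ([2, 0, 2, 0], [[2, 1, 2, 0, 1, 0], [1, 2, 1, 0, 2, 0]]),
  ([0, 1, 2, 0], [[0, 1, 2, 1, 2, 0]]),
  ([2, 1, 2, 0], [[1, 2, 1, 0, 2, 0]]),
  ([0, 2, 2, 0], [[0, 2, 1, 2, 1, 0], [2, 0, 2, 1, 0, 1]]),
  ([1, 2, 2, 0], [[2, 1, 2, 0, 1, 0]]),
  ([1, 0, 0, 1], [[1, 0, 2, 0, 2, 1], [0, 1, 0, 2, 1, 2]]),
  ([2, 0, 0, 1], [[1, 0, 2, 0, 2, 1]]),
  ([0, 1, 0, 1], [[2, 0, 2, 1, 0, 1], [0, 2, 0, 1, 2, 1]]),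
  ([2, 1, 0, 1], [[1, 0, 2, 0, 2, 1]]),
  ([0, 2, 0, 1], [[2, 0, 2, 1, 0, 1]]),
  ([1, 2, 0, 1], [[1, 2, 0, 2, 0, 1]]),
  ([1, 0, 2, 1], [[2, 1, 2, 0, 1, 0]]),
  ([2, 0, 2, 1], [[2, 1, 2, 0, 1, 0]]),
  ([0, 1, 2, 1], [[0, 1, 2, 1, 2, 0]]),
  ([2, 1, 2, 1], [[0, 1, 2, 1, 2, 0], [1, 0, 2, 0, 2, 1]]),
  ([0, 2, 2, 1], [[2, 0, 2, 1, 0, 1]]),
  ([1, 2, 2, 1], [[2, 1, 2, 0, 1, 0], [1, 2, 0, 2, 0, 1]]),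
  ([1, 0, 0, 2], [[2, 0, 1, 0, 1, 2]]),
  ([2, 0, 0, 2], [[0, 2, 0, 1, 2, 1], [2, 0, 1, 0, 1, 2]]),
  ([0, 1, 0, 2], [[0, 2, 0, 1, 2, 1]]),
  ([2, 1, 0, 2], [[0, 2, 0, 1, 2, 1]]),
  ([0, 2, 0, 2], [[1, 2, 0, 2, 0, 1], [2, 1, 0, 1, 0, 2]]),
  ([1, 2, 0, 2], [[1, 2, 0, 2, 0, 1]]),
  ([1, 0, 1, 2], [[1, 2, 1, 0, 2, 0]]),
  ([2, 0, 1, 2], [[1, 2, 1, 0, 2, 0]]),
  ([0, 1, 1, 2], [[2, 1, 0, 1, 0, 2]]),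
  ([2, 1, 1, 2], [[1, 2, 1, 0, 2, 0], [2, 1, 0, 1, 0, 2]]),
  ([0, 2, 1, 2], [[0, 2, 1, 2, 1, 0]]),
  ([1, 2, 1, 2], [[0, 2, 1, 2, 1, 0], [2, 0, 1, 0, 1, 2]])]

theorem okDB : OK TdB tcDB where
  inv := by decide +kernel
  vm := by decide +kernel
  bitA := by decide +kernel
  inr := by decide +kernel
  inl := by decide +kernel
  inc := by decide +kernel

theorem finDB : FinThr TdB := finThr_of okDB tabDB (by decide +kernel)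

end Fc

/-- FIN-THR -/
theorem specFinThr : SpecFinThr := ⟨Fc.finSq, Fc.finX4, Fc.finX6, Fc.finDA, Fc.finDB⟩

end Acyc75
end

section
/-!
# MP_1e9f59_co : FIN-PENT
-/
set_option autoImplicit false
set_option maxRecDepth 100000

namespace Acyc75

namespace Fc

/-- data of the table -/
def tcZ : TC := ⟨0, [(4, 0, 0), (3, 0, 0), (2, 0, 0)],
  [28]⟩

/-- data of the table -/
def tcP : TC := ⟨18848, [(5, 0, 1), (0, 0, 0), (7, 0, 4), (8, 1, 2), (1, 1, 1), (11, 2, 3), (2, 2, 2), (14, 3, 4), (3, 3, 3), (4, 4, 4)],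
  [161, 290, 2308, 18440, 16528]⟩

theorem okZ : OK Tz tcZ where
  inv := by decide +kernel
  vm := by decide +kernel
  bitA := by decide +kernel
  inr := by decide +kernel
  inl := by decide +kernel
  inc := by decide +kernel

theorem okP : OK Tp tcP where
  inv := by decide +kernel
  vm := by decide +kernel
  bitA := by decide +kernel
  inr := by decide +kernel
  inl := by decide +kernel
  inc := by decide +kernel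

/-- forbidden vectors of the reduced pentagon -/
def hvZ : List ℕ := [3, 12, 15, 20, 23, 24, 27]

theorem validZ : ∀ v ∈ hvZ, Valid Tz (fun J => J 0 = J 1) v := by
  unfold Valid
  decide +kernel

/-- colourings of the pentagon -/
def tabP : List (List ℕ × List (List ℕ)) := [
  ([1, 0, 0, 0, 0, 1], [[0, 1, 2, 1, 2]]),
  ([1, 0, 0, 0, 0, 2], [[0, 1, 2, 1, 2]]),
  ([2, 0, 0, 0, 0, 1], [[0, 2, 1, 2, 1]]),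
  ([2, 0, 0, 0, 0, 2], [[0, 2, 1, 2, 1]]),
  ([0, 1, 0, 0, 0, 1], [[1, 0, 2, 1, 2]]),
  ([0, 1, 0, 0, 0, 2], [[1, 0, 2, 1, 2]]),
  ([2, 1, 0, 0, 0, 1], [[0, 2, 1, 2, 1]]),
  ([2, 1, 0, 0, 0, 2], [[0, 2, 1, 2, 1]]),
  ([0, 2, 0, 0, 0, 1], [[2, 0, 1, 2, 1]]),
  ([0, 2, 0, 0, 0, 2], [[2, 0, 1, 2, 1]]),
  ([1, 2, 0, 0, 0, 1], [[2, 0, 1, 2, 1]]),
  ([1, 2, 0, 0, 0, 2], [[2, 0, 1, 2, 1]]),
  ([1, 0, 1, 0, 0, 2], [[0, 1, 2, 1, 2]]),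
  ([2, 0, 1, 0, 0, 2], [[0, 2, 0, 2, 1], [0, 1, 2, 1, 2]]),
  ([0, 1, 1, 0, 0, 2], [[1, 0, 2, 1, 2]]),
  ([2, 1, 1, 0, 0, 2], [[0, 2, 0, 2, 1], [0, 2, 0, 1, 2], [1, 0, 2, 1, 2]]),
  ([0, 2, 1, 0, 0, 2], [[2, 1, 0, 2, 1]]),
  ([1, 2, 1, 0, 0, 2], [[2, 1, 0, 2, 1]]),
  ([1, 0, 2, 0, 0, 1], [[0, 2, 1, 2, 1], [0, 1, 0, 1, 2]]),
  ([2, 0, 2, 0, 0, 1], [[0, 2, 1, 2, 1]]),
  ([0, 1, 2, 0, 0, 1], [[2, 0, 1, 2, 1]]),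
  ([2, 1, 2, 0, 0, 1], [[1, 2, 0, 1, 2]]),
  ([0, 2, 2, 0, 0, 1], [[2, 0, 1, 2, 1]]),
  ([1, 2, 2, 0, 0, 1], [[0, 1, 0, 1, 2], [0, 1, 0, 2, 1], [2, 0, 1, 2, 1]]),
  ([1, 0, 0, 1, 0, 2], [[0, 1, 2, 0, 2]]),
  ([2, 0, 0, 1, 0, 2], [[0, 2, 1, 2, 1]]),
  ([0, 1, 0, 1, 0, 2], [[1, 0, 2, 0, 2]]),
  ([2, 1, 0, 1, 0, 2], [[1, 0, 2, 0, 2]]),
  ([0, 2, 0, 1, 0, 2], [[2, 0, 1, 2, 1]]),
  ([1, 2, 0, 1, 0, 2], [[0, 1, 2, 0, 2]]),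
  ([1, 0, 1, 1, 0, 2], [[0, 1, 2, 0, 2]]),
  ([2, 0, 1, 1, 0, 2], [[0, 2, 0, 2, 1]]),
  ([0, 1, 1, 1, 0, 2], [[1, 0, 2, 0, 2]]),
  ([2, 1, 1, 1, 0, 2], [[0, 2, 0, 2, 1]]),
  ([0, 2, 1, 1, 0, 2], [[2, 1, 0, 2, 1], [2, 0, 2, 0, 1], [1, 0, 2, 0, 2]]),
  ([1, 2, 1, 1, 0, 2], [[2, 1, 0, 2, 1], [0, 1, 2, 0, 2]]),
  ([1, 0, 0, 2, 0, 1], [[0, 1, 2, 1, 2]]),
  ([2, 0, 0, 2, 0, 1], [[0, 2, 1, 0, 1]]),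
  ([0, 1, 0, 2, 0, 1], [[1, 0, 2, 1, 2]]),
  ([2, 1, 0, 2, 0, 1], [[0, 2, 1, 0, 1]]),
  ([0, 2, 0, 2, 0, 1], [[2, 0, 1, 0, 1]]),
  ([1, 2, 0, 2, 0, 1], [[2, 0, 1, 0, 1]]),
  ([1, 0, 2, 2, 0, 1], [[0, 1, 0, 1, 2]]),
  ([2, 0, 2, 2, 0, 1], [[0, 2, 1, 0, 1]]),
  ([0, 1, 2, 2, 0, 1], [[1, 2, 0, 1, 2], [2, 0, 1, 0, 1], [1, 0, 1, 0, 2]]),
  ([2, 1, 2, 2, 0, 1], [[0, 2, 1, 0, 1], [1, 2, 0, 1, 2]]),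
  ([0, 2, 2, 2, 0, 1], [[2, 0, 1, 0, 1]]),
  ([1, 2, 2, 2, 0, 1], [[2, 0, 1, 0, 1]]),
  ([1, 0, 0, 0, 1, 2], [[0, 1, 2, 1, 2]]),
  ([2, 0, 0, 0, 1, 2], [[1, 2, 1, 2, 0]]),
  ([0, 1, 0, 0, 1, 2], [[1, 0, 2, 1, 2]]),
  ([2, 1, 0, 0, 1, 2], [[1, 2, 1, 2, 0]]),
  ([0, 2, 0, 0, 1, 2], [[2, 0, 1, 2, 0], [1, 0, 2, 1, 2]]),
  ([1, 2, 0, 0, 1, 2], [[2, 0, 1, 2, 0], [2, 0, 2, 1, 0], [0, 1, 2, 1, 2]]),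
  ([1, 0, 1, 0, 1, 2], [[0, 1, 2, 1, 2]]),
  ([2, 0, 1, 0, 1, 2], [[0, 1, 2, 1, 2]]),
  ([0, 1, 1, 0, 1, 2], [[1, 0, 2, 1, 2]]),
  ([2, 1, 1, 0, 1, 2], [[1, 2, 0, 2, 0]]),
  ([0, 2, 1, 0, 1, 2], [[1, 0, 2, 1, 2]]),
  ([1, 2, 1, 0, 1, 2], [[2, 1, 0, 2, 0]]),
  ([1, 0, 0, 1, 1, 2], [[0, 1, 2, 0, 2]]),
  ([2, 0, 0, 1, 1, 2], [[1, 2, 1, 2, 0], [0, 2, 1, 0, 2], [0, 1, 2, 0, 2]]),
  ([0, 1, 0, 1, 1, 2], [[1, 0, 2, 0, 2]]),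
  ([2, 1, 0, 1, 1, 2], [[1, 2, 1, 2, 0], [1, 0, 2, 0, 2]]),
  ([0, 2, 0, 1, 1, 2], [[2, 0, 1, 2, 0]]),
  ([1, 2, 0, 1, 1, 2], [[2, 0, 1, 2, 0]]),
  ([1, 0, 1, 1, 1, 0], [[0, 1, 2, 0, 2]]),
  ([1, 0, 1, 1, 1, 2], [[0, 1, 2, 0, 2]]),
  ([2, 0, 1, 1, 1, 0], [[1, 2, 0, 2, 0]]),
  ([2, 0, 1, 1, 1, 2], [[1, 2, 0, 2, 0]]),
  ([0, 1, 1, 1, 1, 0], [[1, 0, 2, 0, 2]]),
  ([0, 1, 1, 1, 1, 2], [[1, 0, 2, 0, 2]]),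
  ([2, 1, 1, 1, 1, 0], [[1, 2, 0, 2, 0]]),
  ([2, 1, 1, 1, 1, 2], [[1, 2, 0, 2, 0]]),
  ([0, 2, 1, 1, 1, 0], [[2, 1, 0, 2, 0]]),
  ([0, 2, 1, 1, 1, 2], [[2, 1, 0, 2, 0]]),
  ([1, 2, 1, 1, 1, 0], [[2, 1, 0, 2, 0]]),
  ([1, 2, 1, 1, 1, 2], [[2, 1, 0, 2, 0]]),
  ([1, 0, 2, 1, 1, 0], [[2, 1, 0, 2, 0]]),
  ([2, 0, 2, 1, 1, 0], [[0, 2, 1, 0, 2]]),
  ([0, 1, 2, 1, 1, 0], [[1, 2, 0, 2, 0], [1, 0, 1, 0, 2]]),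
  ([2, 1, 2, 1, 1, 0], [[1, 2, 0, 2, 0]]),
  ([0, 2, 2, 1, 1, 0], [[1, 0, 1, 0, 2], [2, 1, 0, 2, 0], [1, 0, 1, 2, 0]]),
  ([1, 2, 2, 1, 1, 0], [[2, 1, 0, 2, 0]]),
  ([1, 0, 1, 2, 1, 0], [[0, 1, 2, 0, 2]]),
  ([2, 0, 1, 2, 1, 0], [[1, 2, 0, 1, 0]]),
  ([0, 1, 1, 2, 1, 0], [[1, 0, 2, 0, 2]]),
  ([2, 1, 1, 2, 1, 0], [[1, 2, 0, 1, 0]]),
  ([0, 2, 1, 2, 1, 0], [[2, 1, 0, 1, 0]]),
  ([1, 2, 1, 2, 1, 0], [[2, 1, 0, 1, 0]]),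
  ([1, 0, 2, 2, 1, 0], [[0, 2, 1, 0, 2], [2, 1, 0, 1, 0], [0, 1, 0, 1, 2]]),
  ([2, 0, 2, 2, 1, 0], [[1, 2, 0, 1, 0], [0, 2, 1, 0, 2]]),
  ([0, 1, 2, 2, 1, 0], [[1, 0, 1, 0, 2]]),
  ([2, 1, 2, 2, 1, 0], [[1, 2, 0, 1, 0]]),
  ([0, 2, 2, 2, 1, 0], [[2, 1, 0, 1, 0]]),
  ([1, 2, 2, 2, 1, 0], [[2, 1, 0, 1, 0]]),
  ([1, 0, 0, 0, 2, 1], [[2, 1, 2, 1, 0]]),
  ([2, 0, 0, 0, 2, 1], [[0, 2, 1, 2, 1]]),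
  ([0, 1, 0, 0, 2, 1], [[1, 0, 2, 1, 0], [2, 0, 1, 2, 1]]),
  ([2, 1, 0, 0, 2, 1], [[1, 0, 2, 1, 0], [1, 0, 1, 2, 0], [0, 2, 1, 2, 1]]),
  ([0, 2, 0, 0, 2, 1], [[2, 0, 1, 2, 1]]),
  ([1, 2, 0, 0, 2, 1], [[2, 1, 2, 1, 0]]),
  ([1, 0, 2, 0, 2, 1], [[0, 2, 1, 2, 1]]),
  ([2, 0, 2, 0, 2, 1], [[0, 2, 1, 2, 1]]),
  ([0, 1, 2, 0, 2, 1], [[2, 0, 1, 2, 1]]),
  ([2, 1, 2, 0, 2, 1], [[1, 2, 0, 1, 0]]),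
  ([0, 2, 2, 0, 2, 1], [[2, 0, 1, 2, 1]]),
  ([1, 2, 2, 0, 2, 1], [[2, 1, 0, 1, 0]]),
  ([1, 0, 1, 1, 2, 0], [[2, 1, 0, 2, 0], [0, 1, 2, 0, 1]]),
  ([2, 0, 1, 1, 2, 0], [[0, 1, 2, 0, 1], [1, 2, 0, 2, 0], [0, 1, 0, 2, 1]]),
  ([0, 1, 1, 1, 2, 0], [[1, 2, 0, 2, 0]]),
  ([2, 1, 1, 1, 2, 0], [[1, 2, 0, 2, 0]]),
  ([0, 2, 1, 1, 2, 0], [[2, 0, 2, 0, 1]]),
  ([1, 2, 1, 1, 2, 0], [[2, 1, 0, 2, 0]]),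
  ([1, 0, 2, 1, 2, 0], [[2, 1, 0, 2, 0]]),
  ([2, 0, 2, 1, 2, 0], [[0, 2, 1, 0, 1]]),
  ([0, 1, 2, 1, 2, 0], [[1, 2, 0, 2, 0]]),
  ([2, 1, 2, 1, 2, 0], [[1, 2, 0, 2, 0]]),
  ([0, 2, 2, 1, 2, 0], [[2, 0, 1, 0, 1]]),
  ([1, 2, 2, 1, 2, 0], [[2, 1, 0, 2, 0]]),
  ([1, 0, 0, 2, 2, 1], [[2, 1, 2, 1, 0], [0, 2, 1, 0, 1], [0, 1, 2, 0, 1]]),
  ([2, 0, 0, 2, 2, 1], [[0, 2, 1, 0, 1]]),
  ([0, 1, 0, 2, 2, 1], [[1, 0, 2, 1, 0]]),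
  ([2, 1, 0, 2, 2, 1], [[1, 0, 2, 1, 0]]),
  ([0, 2, 0, 2, 2, 1], [[2, 0, 1, 0, 1]]),
  ([1, 2, 0, 2, 2, 1], [[2, 1, 2, 1, 0], [2, 0, 1, 0, 1]]),
  ([1, 0, 1, 2, 2, 0], [[0, 1, 2, 0, 1]]),
  ([2, 0, 1, 2, 2, 0], [[1, 2, 0, 1, 0]]),
  ([0, 1, 1, 2, 2, 0], [[2, 0, 2, 0, 1], [1, 2, 0, 1, 0], [1, 0, 2, 1, 0]]),
  ([2, 1, 1, 2, 2, 0], [[1, 2, 0, 1, 0]]),
  ([0, 2, 1, 2, 2, 0], [[2, 1, 0, 1, 0], [2, 0, 2, 0, 1]]),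
  ([1, 2, 1, 2, 2, 0], [[2, 1, 0, 1, 0]]),
  ([1, 0, 2, 2, 2, 0], [[2, 1, 0, 1, 0]]),
  ([1, 0, 2, 2, 2, 1], [[2, 1, 0, 1, 0]]),
  ([2, 0, 2, 2, 2, 0], [[0, 2, 1, 0, 1]]),
  ([2, 0, 2, 2, 2, 1], [[0, 2, 1, 0, 1]]),
  ([0, 1, 2, 2, 2, 0], [[1, 2, 0, 1, 0]]),
  ([0, 1, 2, 2, 2, 1], [[1, 2, 0, 1, 0]]),
  ([2, 1, 2, 2, 2, 0], [[1, 2, 0, 1, 0]]),
  ([2, 1, 2, 2, 2, 1], [[1, 2, 0, 1, 0]]),
  ([0, 2, 2, 2, 2, 0], [[2, 0, 1, 0, 1]]),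
  ([0, 2, 2, 2, 2, 1], [[2, 0, 1, 0, 1]]),
  ([1, 2, 2, 2, 2, 0], [[2, 1, 0, 1, 0]]),
  ([1, 2, 2, 2, 2, 1], [[2, 1, 0, 1, 0]])]

/-- the boundary vector `v` is realised -/
def lk (c : List ℕ) (q v : ℕ) (m0 m1 m2 : List ℕ) : Bool :=
  Nat.beq (Nat.land v (nem q c)) v &&
    evn v (if Nat.beq q 0 then m0 else if Nat.beq q 1 then m1 else m2)

/-- the first bad state -/
def bA (c : List ℕ) (z : ℕ) (m0 m1 m2 : List ℕ) : Bool :=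
  !(Nat.beq (c.getD 1 0) (c.getD 3 0)) && !(Nat.beq (c.getD 1 0) z) && !(Nat.beq (c.getD 3 0) z) &&
    Nat.beq (c.getD 0 0) z && Nat.beq (c.getD 2 0) (c.getD 1 0) &&
    Nat.beq (c.getD 4 0) (c.getD 3 0) && lk c (c.getD 1 0) 9 m0 m1 m2 &&
    lk c (c.getD 3 0) 5 m0 m1 m2 && lk c z 12 m0 m1 m2

/-- the second bad state -/
def bB (c : List ℕ) (z : ℕ) (m0 m1 m2 : List ℕ) : Bool :=
  !(Nat.beq (c.getD 0 0) (c.getD 2 0)) && !(Nat.beq (c.getD 0 0) z) && !(Nat.beq (c.getD 2 0) z) &&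
    Nat.beq (c.getD 1 0) z && Nat.beq (c.getD 3 0) (c.getD 2 0) &&
    Nat.beq (c.getD 4 0) (c.getD 0 0) && lk c (c.getD 0 0) 10 m0 m1 m2 &&
    lk c (c.getD 2 0) 18 m0 m1 m2 && lk c z 24 m0 m1 m2

/-- check of one colouring of the boundary -/
def chkP (c : List ℕ) (z : ℕ) : Bool :=
  (enum (nem 0 c) (hvs 5 hvZ (un tcZ [z] (nem 0 c) 0)) 5).all fun m0 =>
    (enum (nem 1 c) (hvs 5 hvZ (un tcZ [z] (nem 1 c) 1)) 5).all fun m1 =>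
      (enum (nem 2 c) (hvs 5 hvZ (un tcZ [z] (nem 2 c) 2)) 5).all fun m2 =>
        bA c z m0 m1 m2 || bB c z m0 m1 m2 || anyg 5 tcP (look tabP (c ++ [z])) c m0 m1 m2

/-- check of all colourings of the boundary -/
def allP : Bool :=
  R3.all fun c0 => R3.all fun c1 => R3.all fun c2 => R3.all fun c3 => R3.all fun c4 =>
    R3.all fun z => Nat.beq c0 c1 || !(proper 5 tcZ [z] [c0, c1, c2, c3, c4]) ||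
      chkP [c0, c1, c2, c3, c4] z

theorem allP_true : allP = true := by decide +kernel

/-- the masks for the colour `q` -/
theorem sel {k : ℕ} {c : Fin k → Fin 3} {L : Fin 3 → Fin k → Fin k} (q : Fin 3) :
    (if Nat.beq q.val 0 then cd (Rel c L 0) k else if Nat.beq q.val 1 then cd (Rel c L 1) k
      else cd (Rel c L 2) k) = cd (Rel c L q) k := by
  fin_cases q <;> rfl

theorem lk_sound {c : Fin 5 → Fin 3} {L : Fin 3 → Fin 5 → Fin 5} {q : Fin 3} {v : ℕ}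
    (hv : v < 2 ^ 5) (h : lk (lst c) q.val v (cd (Rel c L 0) 5) (cd (Rel c L 1) 5)
      (cd (Rel c L 2) 5) = true) : EL c L q (dec 5 v) := by
  unfold lk at h
  rw [Bool.and_eq_true, sel] at h
  exact EL_of_even le_rfl (fun i _ => i.2) ((evn_iff (by norm_num) hv _).1 h.2)

theorem finPent : FinPent := by
  intro c L z h01 hFA
  have h := allP_true
  unfold allP at h
  simp only [List.all_eq_true] at h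
  have h1 := h _ (mem_R3 (c 0)) _ (mem_R3 (c 1)) _ (mem_R3 (c 2)) _ (mem_R3 (c 3)) _
    (mem_R3 (c 4)) _ (mem_R3 (z 0))
  have hl : [(c 0).val, (c 1).val, (c 2).val, (c 3).val, (c 4).val] = lst c := by
    simp [lst, List.ofFn_succ]
  have hlz : [(z 0).val] = lst z := by
    simp [lst, List.ofFn_succ]
  rw [hl, hlz] at h1
  have n1 : Nat.beq (c 0).val (c 1).val = false := by
    rw [Bool.eq_false_iff, Ne, beq_iff]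
    exact fun h => h01 (Fin.ext h)
  rw [n1, hyp_proper okZ hFA, Bool.false_or, Bool.not_true, Bool.false_or] at h1
  unfold chkP at h1
  rw [hlz] at h1
  simp only [List.all_eq_true] at h1
  have hm := fun p => code_mem (by norm_num) okZ validZ hFA p
  have h2 := h1 _ (hm 0) _ (hm 1) _ (hm 2)
  rw [Bool.or_eq_true, Bool.or_eq_true] at h2
  have g0 := getD_lst c 0
  have g1 := getD_lst c 1
  have g2 := getD_lst c 2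
  have g3 := getD_lst c 3
  have g4 := getD_lst c 4
  simp only [Fin.val_zero, Fin.val_one, Fin.val_two] at g0 g1 g2 g3 g4
  have e9 : dec 5 9 = ei 3 + ei 0 := by decide +kernel
  have e5 : dec 5 5 = ei 2 + ei 0 := by decide +kernel
  have e12 : dec 5 12 = ei 2 + ei 3 := by decide +kernel
  have e10 : dec 5 10 = ei 3 + ei 1 := by decide +kernel
  have e18 : dec 5 18 = ei 4 + ei 1 := by decide +kernel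
  have e24 : dec 5 24 = ei 4 + ei 3 := by decide +kernel
  have hne : ∀ a b : Fin 3, (!(Nat.beq a.val b.val)) = true → a ≠ b := by
    intro a b hab hc
    rw [hc] at hab
    rw [Bool.not_eq_true', Bool.eq_false_iff, Ne, beq_iff] at hab
    exact hab rfl
  have heq : ∀ a b : Fin 3, Nat.beq a.val b.val = true → a = b := fun a b hab =>
    Fin.ext ((beq_iff _ _).1 hab)
  rcases h2 with (h2 | h2) | h2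
  · right
    left
    unfold bA at h2
    simp only [Bool.and_eq_true] at h2
    obtain ⟨⟨⟨⟨⟨⟨⟨⟨a1, a2⟩, a3⟩, a4⟩, a5⟩, a6⟩, a7⟩, a8⟩, a9⟩ := h2
    have g3' : (lst c).getD 3 0 = (c 3).val := g3
    rw [g1, g3'] at a1
    rw [g1] at a2 a7
    rw [g3'] at a3 a8
    rw [g0] at a4
    have g2' : (lst c).getD 2 0 = (c 2).val := g2
    have g4' : (lst c).getD 4 0 = (c 4).val := g4
    rw [g2', g1] at a5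
    rw [g4', g3'] at a6
    refine ⟨c 1, c 3, hne _ _ a1, hne _ _ a2, hne _ _ a3, heq _ _ a4, rfl, heq _ _ a5, rfl,
      heq _ _ a6, ?_, ?_, ?_⟩
    · rw [← e9]
      exact lk_sound (by norm_num) a7
    · rw [← e5]
      exact lk_sound (by norm_num) a8
    · rw [← e12]
      exact lk_sound (by norm_num) a9
  · right
    right
    unfold bB at h2
    simp only [Bool.and_eq_true] at h2
    obtain ⟨⟨⟨⟨⟨⟨⟨⟨a1, a2⟩, a3⟩, a4⟩, a5⟩, a6⟩, a7⟩, a8⟩, a9⟩ := h2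
    have g3' : (lst c).getD 3 0 = (c 3).val := g3
    have g2' : (lst c).getD 2 0 = (c 2).val := g2
    have g4' : (lst c).getD 4 0 = (c 4).val := g4
    rw [g0, g2'] at a1
    rw [g0] at a2 a7
    rw [g2'] at a3 a8
    rw [g1] at a4
    rw [g3', g2'] at a5
    rw [g4', g0] at a6
    refine ⟨c 0, c 2, hne _ _ a1, hne _ _ a2, hne _ _ a3, rfl, heq _ _ a4, rfl, heq _ _ a5,
      heq _ _ a6, ?_, ?_, ?_⟩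
    · rw [← e10]
      exact lk_sound (by norm_num) a7
    · rw [← e18]
      exact lk_sound (by norm_num) a8
    · rw [← e24]
      exact lk_sound (by norm_num) a9
  · exact Or.inl (anyg_sound okP _ h2)

end Fc

/-- FIN-PENT -/
theorem specFinPent : SpecFinPent := Fc.finPent

end Acyc75
end
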