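import Pool.Agent.Lib.MP_1e9f59_co.Spec

/-!
# MP_1e9f59_co : module ISO
-/

set_option autoImplicit false

namespace Acyc75

namespace IsoC

/-- The bits of a number below `8`. -/
def bits (a : Fin 8) : Fin 3 → Bool := fun i => a.val.testBit i.val

/-- The number with given bits. -/
def unbits (x : Fin 3 → Bool) : Fin 8 :=
  (if x 0 then 1 else 0) + (if x 1 then 2 else 0) + (if x 2 then 4 else 0)

/-- Numbers below `8` and their bits. -/
def bitsEquiv : Fin 8 ≃ (Fin 3 → Bool) where
  toFun := bits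
  invFun := unbits
  left_inv := by decide
  right_inv := by decide

theorem adjQ_iff : ∀ a b : Fin 8, (bits a ≠ bits b ∧
    ((∃ i, bits a i ≠ bits b i ∧ ∀ j, j ≠ i → bits a j = bits b j) ∨
      ∃ i, bits b i ≠ bits a i ∧ ∀ j, j ≠ i → bits b j = bits a j)) ↔ adjQ a b = true := by
  decide

theorem adjH_iff : ∀ a b : Fin 8, (a ≠ b ∧
    (((a, b) ∈ ({(0, 6), (0, 1), (1, 2), (2, 7), (3, 6), (3, 4),
        (4, 5), (5, 7), (0, 3), (1, 4), (2, 5), (6, 7)} : Finset (Fin 8 × Fin 8))) ∨
    ((b, a) ∈ ({(0, 6), (0, 1), (1, 2), (2, 7), (3, 6), (3, 4),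
        (4, 5), (5, 7), (0, 3), (1, 4), (2, 5), (6, 7)} : Finset (Fin 8 × Fin 8))))) ↔
    adjH a b = true := by
  decide

end IsoC

open IsoC in
theorem specIso (hFour : SpecFour) (hEight : SpecEight) : SpecIso := by
  intro V _ G M hA hT hP
  constructor
  · intro h4
    have h5 : Fintype.card V = Fintype.card (Fin 4) := by
      rw [← Nat.card_eq_fintype_card, h4, Fintype.card_fin]
    have e : V ≃ Fin 4 := Fintype.equivOfCardEq h5
    refine ⟨⟨e, ?_⟩⟩
    intro v w
    rw [SimpleGraph.top_adj]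
    constructor
    · intro h
      exact (hA v w).1 (hFour V M hT h4 v w fun h' => h (by rw [h']))
    · intro h h'
      exact h.ne (e.injective h')
  · intro h8
    obtain ⟨e, he | he⟩ := hEight V M hT hP h8
    · left
      refine ⟨⟨e.trans bitsEquiv, ?_⟩⟩
      intro v w
      rw [SimpleGraph.fromRel_adj, ← hA, he]
      exact adjQ_iff (e v) (e w)
    · right
      refine ⟨⟨e, ?_⟩⟩
      intro v w
      rw [SimpleGraph.fromRel_adj, ← hA, he]
      exact adjH_iff (e v) (e w)

end Acyc75
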