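import Pool.Agent.Lib.MP_1e9f59_co.Defs

/-!
# MP_1e9f59_co : specifications of the modules

Paper proof: `/team-store/MP_1e9f59_co_PROOF.md`. Each module proves one (or several) of the `Spec...`
propositions below as `theorem specX : SpecX := ...`; it may take other Specs as hypotheses.
-/

set_option autoImplicit false

namespace Acyc75

open CMap

/-! ## The main theorem -/

/-- MAIN. -/
def SpecMain : Prop := ∀ (V : Type) [Finite V] (M : CMap V), M.TEC → M.Plan →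
  4 ≤ Nat.card V → Nat.card V ≠ 4 → Nat.card V ≠ 8 → M.Col

/-- The induction hypothesis for maps with fewer than `n` vertices. -/
def IH (n : ℕ) : Prop := ∀ (W : Type) [Finite W] (N : CMap W), N.TEC → N.Plan →
  4 ≤ Nat.card W → Nat.card W ≠ 4 → Nat.card W ≠ 8 → Nat.card W < n → N.Col

/-! ## Cuts -/

/-- CUT. -/
def SpecCut : Prop := ∀ (V : Type) [Finite V] (M : CMap V) (S T : Set V),
  M.cut Sᶜ = M.cut S ∧ M.cut S % 2 = S.ncard % 2 ∧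
  M.cut (S ∩ T) + M.cut (S ∪ T) ≤ M.cut S + M.cut T ∧
  M.cut (S \ T) + M.cut (T \ S) +
    2 * {d : Dt V | d.1 ∈ S ∩ T ∧ (M.a d).1 ∉ S ∪ T}.ncard = M.cut S + M.cut T

/-- SIMPLE. No loops, no parallel edges. -/
def SpecSimple : Prop := ∀ (V : Type) [Finite V] (M : CMap V), M.TEC → 3 ≤ Nat.card V →
  (∀ d, (M.a d).1 ≠ d.1) ∧ ∀ d d' : Dt V, d.1 = d'.1 → (M.a d).1 = (M.a d').1 → d = d'

/-- CORNER. If the cut condition fails for both pairings then there are only four vertices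
outside `X`. -/
def SpecCorner : Prop := ∀ (V : Type) [Finite V] (M : CMap V) (X : Set V) (b : Fin 4 → Dt V),
  M.TEC → M.NT → M.Bdry X b → 2 ≤ X.ncard → ¬ M.CutA X b → ¬ M.CutA X ![b 1, b 2, b 3, b 0] →
  Nat.card V = X.ncard + 4

/-- PINCH. Two adjacent edges of a pentagon are not both pinched. -/
def SpecPinch : Prop := ∀ (V : Type) [Finite V] (M : CMap V) (E : M.Emb Tp), M.TEC → M.NT →
  (Function.Injective fun i => (E.b i).1) → ¬ M.Adj (E.b 0).1 (E.b 1).1 →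
  ¬ M.Adj (E.b 1).1 (E.b 2).1 →
  M.CutP (Set.range E.x) (E.b 0).1 (E.b 1).1 ∨ M.CutP (Set.range E.x) (E.b 1).1 (E.b 2).1

/-! ## Chains -/

/-- TJOIN. In a connected part `R` two vertices are joined by a chain. -/
def SpecTJoin : Prop := ∀ (V : Type) [Finite V] (M : CMap V) (R : Set V),
  (∀ U : Set V, U ⊆ R → U.Nonempty → U ≠ R → ∃ d : Dt V, d.1 ∈ U ∧ (M.a d).1 ∈ R \ U) →
  ∀ u ∈ R, ∀ w ∈ R, ∃ C : Dt V → ZMod 2, (∀ d, C (M.a d) = C d) ∧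
    (∀ d, C d ≠ 0 → d.1 ∈ R ∧ (M.a d).1 ∈ R) ∧
    ∀ v, C (v, 0) + C (v, 1) + C (v, 2) =
      Set.indicator {u} (fun _ => (1 : ZMod 2)) v + Set.indicator {w} (fun _ => (1 : ZMod 2)) v

/-- STATE. The boundary vectors realised by chains avoiding the colour `p` are the vectors which
avoid `p` and are even on the classes of a labelling. -/
def SpecState : Prop := ∀ (V : Type) [Finite V] (M : CMap V) (X : Set V) (k : ℕ)
  (b : Fin k → Dt V) (f : V → Fin 3) (p : Fin 3), M.Bdry X b →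
  ∃ L : Fin k → Fin k, ∀ J : Fin k → ZMod 2, M.E X b f p J ↔
    (∀ i, J i ≠ 0 → f (b i).1 ≠ p) ∧ ∀ l, (∑ i, if L i = l then J i else 0) = 0

/-- GLUE. A colouring of the configuration which fits the boundary state of the outside colouring
gives a good colouring. -/
def SpecGlue : Prop := ∀ (V : Type) [Finite V] (M : CMap V) (m k : ℕ) (T : Tab m k), SurT T →
  ∀ (E : M.Emb T) (f : V → Fin 3) (g : Fin m → Fin 3) (L : Fin 3 → Fin k → Fin k),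
  (∀ d : Dt V, d.1 ∉ Set.range E.x → (M.a d).1 ∉ Set.range E.x → f (M.a d).1 ≠ f d.1) →
  (∀ p J, M.E (Set.range E.x) E.b f p J → EL (fun i => f (E.b i).1) L p J) →
  (∀ p C, M.RCh (Set.range E.x) C → Sup (Set.range E.x) f p C → (∀ i, C (E.b i) = 0) →
    ∀ d : Dt V, d.1 ∉ Set.range E.x → C d = 0) →
  FA T (fun _ => True) (fun i => f (E.b i).1) L g → M.Col

/-- BDRY. The boundary darts of an embedded configuration. -/
def SpecBdry : Prop := ∀ (V : Type) (M : CMap V) (m k : ℕ) (T : Tab m k), SurT T →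
  ∀ E : M.Emb T, M.Bdry (Set.range E.x) E.b

/-- THR-EXT. Colourings extend in the reductions with two through edges. -/
def SpecThrExt : Prop := ∀ (m : ℕ) (T : Tab m 4), SurT T → FinThr T →
  ∀ (V : Type) [Finite V] (M : CMap V) (E : M.Emb T) (M' : CMap {v // v ∉ Set.range E.x}),
  M.IsThr E M' → M'.Col → M.Col

/-- PENT-EXT 53. Colourings extend in the pentagon reduction, second face a pentagon. -/
def SpecPentExt53 : Prop := ∀ (V : Type) [Finite V] (M : CMap V) (E : M.Emb T53)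
  (M' : CMap {v // v ∉ Set.range E.sub53.x ∨ v = E.sub53.x 3}), M.Plan →
  M.IsPent E.sub53 M' → M'.Col → M.Col

/-- PENT-EXT 54. Colourings extend in the pentagon reduction, second face a hexagon. -/
def SpecPentExt54 : Prop := ∀ (V : Type) [Finite V] (M : CMap V) (E : M.Emb T54)
  (M' : CMap {v // v ∉ Set.range E.sub54.x ∨ v = E.sub54.x 3}), M.Plan →
  M.IsPent E.sub54 M' → M'.Col → M.Col

/-! ## The finite statements -/

/-- FIN-THR. -/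
def SpecFinThr : Prop := FinThr Tsq ∧ FinThr Tx4 ∧ FinThr Tx6 ∧ FinThr TdA ∧ FinThr TdB

/-- FIN-PENT. -/
def SpecFinPent : Prop := FinPent

/-- FIN-53. -/
def SpecFin53 : Prop := FinSt53

/-- FIN-54. -/
def SpecFin54 : Prop := FinSt54

/-! ## The reduced maps -/

/-- THR-EX. The reduced map exists. -/
def SpecThrEx : Prop := ∀ (m : ℕ) (T : Tab m 4), SurT T → ∀ (V : Type) (M : CMap V) (E : M.Emb T),
  ∃ M' : CMap {v // v ∉ Set.range E.x}, M.IsThr E M'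

/-- THR-TEC. It is three-edge-connected. -/
def SpecThrTEC : Prop := ∀ (m : ℕ) (T : Tab m 4), SurT T → ∀ (V : Type) [Finite V] (M : CMap V)
  (E : M.Emb T) (M' : CMap {v // v ∉ Set.range E.x}), M.IsThr E M' → M.TEC →
  M.CutA (Set.range E.x) E.b → M'.TEC

/-- Planarity of the reduced map, for the table `T`. -/
def ThrPlan {m : ℕ} (T : Tab m 4) : Prop := ∀ (V : Type) (M : CMap V)
  (E : M.Emb T) (M' : CMap {v // v ∉ Set.range E.x}), M.IsThr E M' → M.Plan → M'.Plan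

/-- THR-PLAN. -/
def SpecThrPlan : Prop := ThrPlan Tsq ∧ ThrPlan Tx4 ∧ ThrPlan Tx6 ∧ ThrPlan TdA ∧ ThrPlan TdB

/-- PENT-EX. -/
def SpecPentEx : Prop := ∀ (V : Type) (M : CMap V) (E : M.Emb Tp),
  ∃ M' : CMap {v // v ∉ Set.range E.x ∨ v = E.x 3}, M.IsPent E M'

/-- PENT-TEC. -/
def SpecPentTEC : Prop := ∀ (V : Type) [Finite V] (M : CMap V) (E : M.Emb Tp)
  (M' : CMap {v // v ∉ Set.range E.x ∨ v = E.x 3}), M.IsPent E M' → M.TEC →
  M.CutP (Set.range E.x) (E.b 0).1 (E.b 1).1 → M'.TEC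

/-- PENT-PLAN. -/
def SpecPentPlan : Prop := ∀ (V : Type) (M : CMap V) (E : M.Emb Tp)
  (M' : CMap {v // v ∉ Set.range E.x ∨ v = E.x 3}), M.IsPent E M' → M.Plan → M'.Plan

/-! ## Planarity -/

/-- EDGEFACE. The two sides of an edge are different faces. -/
def SpecEdgeFace : Prop := ∀ (V : Type) [Finite V] (M : CMap V), M.TEC → M.Plan →
  2 ≤ Nat.card V → ∀ (d : Dt V) (n : ℕ), M.ph^[n] d ≠ M.a d

/-- JC3. Triangles are faces. -/
def SpecJC3 : Prop := ∀ (V : Type) [Finite V] (M : CMap V), M.TEC → M.Plan → 4 ≤ Nat.card V →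
  ∀ d₀ d₁ d₂ : Dt V, (M.a d₀).1 = d₁.1 → (M.a d₁).1 = d₂.1 → (M.a d₂).1 = d₀.1 →
  (M.ph d₀ = d₁ ∧ M.ph d₁ = d₂ ∧ M.ph d₂ = d₀) ∨
    (M.ph (M.a d₁) = M.a d₀ ∧ M.ph (M.a d₂) = M.a d₁ ∧ M.ph (M.a d₀) = M.a d₂)

/-- JC4. Without triangular faces, 4-cycles are faces. -/
def SpecJC4 : Prop := ∀ (V : Type) [Finite V] (M : CMap V), M.TEC → M.Plan → 5 ≤ Nat.card V →
  (∀ d, M.ph^[3] d ≠ d) →
  ∀ d₀ d₁ d₂ d₃ : Dt V, (M.a d₀).1 = d₁.1 → (M.a d₁).1 = d₂.1 → (M.a d₂).1 = d₃.1 →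
  (M.a d₃).1 = d₀.1 → d₁ ≠ M.a d₀ → d₂ ≠ M.a d₁ → d₃ ≠ M.a d₂ → d₀ ≠ M.a d₃ →
  (M.ph d₀ = d₁ ∧ M.ph d₁ = d₂ ∧ M.ph d₂ = d₃ ∧ M.ph d₃ = d₀) ∨
    (M.ph (M.a d₁) = M.a d₀ ∧ M.ph (M.a d₂) = M.a d₁ ∧ M.ph (M.a d₃) = M.a d₂ ∧
      M.ph (M.a d₀) = M.a d₃)

/-- JC5. Without faces of length 3 or 4, 5-cycles are faces. -/
def SpecJC5 : Prop := ∀ (V : Type) [Finite V] (M : CMap V), M.TEC → M.Plan → 5 ≤ Nat.card V →
  (∀ d, M.ph^[3] d ≠ d) → (∀ d, M.ph^[4] d ≠ d) →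
  ∀ d₀ d₁ d₂ d₃ d₄ : Dt V, (M.a d₀).1 = d₁.1 → (M.a d₁).1 = d₂.1 → (M.a d₂).1 = d₃.1 →
  (M.a d₃).1 = d₄.1 → (M.a d₄).1 = d₀.1 →
  d₁ ≠ M.a d₀ → d₂ ≠ M.a d₁ → d₃ ≠ M.a d₂ → d₄ ≠ M.a d₃ → d₀ ≠ M.a d₄ →
  (M.ph d₀ = d₁ ∧ M.ph d₁ = d₂ ∧ M.ph d₂ = d₃ ∧ M.ph d₃ = d₄ ∧ M.ph d₄ = d₀) ∨
    (M.ph (M.a d₁) = M.a d₀ ∧ M.ph (M.a d₂) = M.a d₁ ∧ M.ph (M.a d₃) = M.a d₂ ∧
      M.ph (M.a d₄) = M.a d₃ ∧ M.ph (M.a d₀) = M.a d₄)

/-- NC53. -/
def SpecNC53 : Prop := ∀ (V : Type) [Finite V] (M : CMap V) (E : M.Emb T53) (f : V → Fin 3),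
  M.Plan →
  (∀ d : Dt V, d.1 ∉ Set.range E.x → (M.a d).1 ∉ Set.range E.x → f (M.a d).1 ≠ f d.1) →
  NC (M.E (Set.range E.x) E.b f)

/-- NC54. -/
def SpecNC54 : Prop := ∀ (V : Type) [Finite V] (M : CMap V) (E : M.Emb T54) (f : V → Fin 3),
  M.Plan →
  (∀ d : Dt V, d.1 ∉ Set.range E.x → (M.a d).1 ∉ Set.range E.x → f (M.a d).1 ≠ f d.1) →
  NC (M.E (Set.range E.x) E.b f)

/-- MIR. The mirror image. -/
def SpecMir : Prop := ∀ (V : Type) [Finite V] (M : CMap V), (M.TEC → M.mir.TEC) ∧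
  (M.Plan → M.mir.Plan) ∧ (M.mir.Col → M.Col) ∧ (M.NT → M.mir.NT) ∧
  ∀ (n : ℕ) (d : Dt V), M.mir.ph^[n] (rfl3 (M.a (M.ph^[n] d))) = rfl3 (M.a d)

/-- EULER (from planarity). -/
def SpecEuler : Prop := ∀ (V : Type) [Fintype V] (M : CMap V), M.TEC → M.Plan →
  2 ≤ Nat.card V → (12 : ℚ) ≤ ∑ d : Dt V, (6 / (M.len d : ℚ) - 1)

/-- PLAN-EULER. Planarity from Euler's formula. -/
def SpecPlanEuler : Prop := ∀ (V : Type) [Finite V] (M : CMap V) (k : ℕ) (face : Dt V → Fin k),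
  Nonempty V → (∀ S : Set V, S.Nonempty → S ≠ Set.univ → 1 ≤ M.cut S) →
  Function.Surjective face → (∀ d d', face d = face d' ↔ ∃ n, M.ph^[n] d = d') →
  2 * k = 4 + Nat.card V → M.Plan

/-! ## Discharging -/

/-- DIS. -/
def SpecDis : Prop := ∀ (V : Type) [Finite V] (M : CMap V), M.TEC → M.Plan → 4 ≤ Nat.card V →
  (Nat.card V = 6 → ∃ d, M.ph^[3] d = d) ∧
  ((∀ d, M.ph^[3] d ≠ d) → 8 ≤ Nat.card V) ∧
  ((∀ d, M.ph^[3] d ≠ d) → Nat.card V = 8 → ∀ d, M.ph^[4] d = d) ∧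
  ((∀ d, M.ph^[3] d ≠ d) → Nat.card V = 12 → ∃ d, M.ph^[4] d = d ∧ M.ph^[4] (M.a d) = M.a d) ∧
  ((∀ d, M.ph^[3] d ≠ d) → (∀ d, M.ph^[4] d ≠ d) → 20 ≤ Nat.card V ∧
    ∃ d, M.ph^[5] d = d ∧ (M.ph^[5] (M.a d) = M.a d ∨ M.ph^[6] (M.a d) = M.a d))

/-! ## Three-edge-cuts -/

/-- CTR. Contraction of one side. -/
def SpecCtr : Prop := ∀ (V : Type) [Finite V] (M : CMap V) (S : Set V), M.TEC → M.Plan →
  M.cut S = 3 → ∃ M' : CMap (Option S), M.IsCtr S M' ∧ M'.TEC ∧ M'.Plan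

/-- CTR-GOOD. -/
def SpecCtrGood : Prop := ∀ (V : Type) [Finite V] (M : CMap V) (S : Set V) (M' : CMap (Option S)),
  M.cut S = 3 → M.IsCtr S M' → (M'.Col → ∃ f c, M.SideGood S f c) ∧
  (M'.SideU {none}ᶜ → M.SideU S)

/-- MERGE. -/
def SpecMerge : Prop := ∀ (V : Type) [Finite V] (M : CMap V) (S : Set V), M.cut S = 3 →
  ((∃ f c, M.SideGood S f c) → (∃ f c, M.SideGood Sᶜ f c) → M.Col) ∧
  ((∃ f c, M.SideGood S f c) → M.SideU Sᶜ → M.Col) ∧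
  (M.SideU S → M.SideU Sᶜ → M.Col)

/-- U2. -/
def SpecU2 : Prop := ∀ (V : Type) [Finite V] (M : CMap V), M.TEC → M.Plan → Nat.card V = 8 →
  ∀ z : V, M.SideU {z}ᶜ

/-- THREE. 3-edge-cuts with two large sides. -/
def SpecThree : Prop := ∀ (V : Type) [Finite V] (M : CMap V), M.TEC → M.Plan →
  IH (Nat.card V) → ¬ M.NT5 → M.Col

/-! ## Small maps -/

/-- FOUR. -/
def SpecFour : Prop := ∀ (V : Type) [Finite V] (M : CMap V), M.TEC → Nat.card V = 4 →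
  ∀ v w, v ≠ w → M.Adj v w

/-- SIX. -/
def SpecSix : Prop := ∀ (V : Type) [Finite V] (M : CMap V), M.TEC → M.Plan → Nat.card V = 6 →
  (∃ t : Fin 3 → V, Function.Injective t ∧ (∀ i j, i ≠ j → M.Adj (t i) (t j)) ∧
    ∃ t' : Fin 3 → V, Function.Injective t' ∧ (∀ i j, i ≠ j → M.Adj (t' i) (t' j)) ∧
      (∀ i j, t i ≠ t' j) ∧ ∀ i, M.Adj (t i) (t' i)) ∧ M.Col

/-- EIGHT. -/
def SpecEight : Prop := ∀ (V : Type) [Finite V] (M : CMap V), M.TEC → M.Plan →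
  Nat.card V = 8 → ∃ e : V ≃ Fin 8, (∀ v w, M.Adj v w ↔ adjQ (e v) (e w) = true) ∨
    ∀ v w, M.Adj v w ↔ adjH (e v) (e w) = true

/-- TWELVE. -/
def SpecTwelve : Prop := ∀ (V : Type) [Finite V] (M : CMap V) (E : M.Emb Tx4)
  (M' : CMap {v // v ∉ Set.range E.x}), M.TEC → Nat.card V = 12 → M.IsThr E M' → M'.TEC →
  M'.Plan → M.Col

/-! ## Configurations and their cut conditions -/

/-- X4. A triangle one of whose outer neighbours is not on a triangle. -/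
def SpecX4 : Prop := ∀ (V : Type) [Finite V] (M : CMap V) (d : Dt V), M.TEC → M.Plan → M.NT5 →
  8 < Nat.card V → M.ph^[3] d = d →
  (∀ t, M.ph^[3] ((M.a (rot (M.ph^[2] d))).1, t) ≠ ((M.a (rot (M.ph^[2] d))).1, t)) →
  ∃ E : M.Emb Tx4, M.CutA (Set.range E.x) E.b

/-- X6. All vertices on triangles. -/
def SpecX6 : Prop := ∀ (V : Type) [Finite V] (M : CMap V), M.TEC → M.Plan → M.NT5 →
  8 < Nat.card V → (∀ v, ∃ t, M.ph^[3] (v, t) = (v, t)) →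
  3 ∣ Nat.card V ∧ ∃ E : M.Emb Tx6, M.CutA (Set.range E.x) E.b

/-- SQ. -/
def SpecSq : Prop := ∀ (V : Type) [Finite V] (M : CMap V) (d : Dt V), M.TEC → M.Plan → M.NT →
  8 < Nat.card V → (∀ d, M.ph^[3] d ≠ d) → M.ph^[4] d = d →
  ∃ E : M.Emb Tsq, M.CutA (Set.range E.x) E.b

/-- DOM. -/
def SpecDom : Prop := ∀ (V : Type) [Finite V] (M : CMap V) (d : Dt V), M.TEC → M.Plan → M.NT →
  10 < Nat.card V → (∀ d, M.ph^[3] d ≠ d) → M.ph^[4] d = d → M.ph^[4] (M.a d) = M.a d →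
  (∃ E : M.Emb TdA, M.CutA (Set.range E.x) E.b) ∨ ∃ E : M.Emb TdB, M.CutA (Set.range E.x) E.b

/-- EMB5. A pentagonal face `d` such that the face across `ph^[3] d` has length 5 or 6. -/
def SpecEmb5 : Prop := ∀ (V : Type) [Finite V] (M : CMap V) (d : Dt V), M.TEC → M.Plan →
  8 < Nat.card V → (∀ d, M.ph^[3] d ≠ d) → (∀ d, M.ph^[4] d ≠ d) → M.ph^[5] d = d →
  (M.ph^[5] (M.a (M.ph^[3] d)) = M.a (M.ph^[3] d) → ∃ E : M.Emb T53, (E.x 0, E.pos 0) = d) ∧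
  (M.ph^[6] (M.a (M.ph^[3] d)) = M.a (M.ph^[3] d) → ∃ E : M.Emb T54, (E.x 0, E.pos 0) = d) ∧
  ∃ E : M.Emb Tp, (E.x 0, E.pos 0) = d ∧ (Function.Injective fun i => (E.b i).1) ∧
    ∀ i, ¬ M.Adj (E.b i).1 (E.b (i + 1)).1

/-- PAIR. The configuration for the pentagon reduction, with its cut condition. -/
def SpecPair : Prop := ∀ (V : Type) [Finite V] (M : CMap V), M.TEC → M.Plan → M.NT →
  8 < Nat.card V → (∀ d, M.ph^[3] d ≠ d) → (∀ d, M.ph^[4] d ≠ d) →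
  (∃ d, M.ph^[5] d = d ∧ (M.ph^[5] (M.a d) = M.a d ∨ M.ph^[6] (M.a d) = M.a d)) →
  ∃ N : CMap V, (N = M ∨ N = M.mir) ∧
    ((∃ E : N.Emb T53, N.CutP (Set.range E.sub53.x) (E.sub53.b 0).1 (E.sub53.b 1).1) ∨
      ∃ E : N.Emb T54, N.CutP (Set.range E.sub54.x) (E.sub54.b 0).1 (E.sub54.b 1).1)

/-! ## The statement about graphs -/

/-- INIT. From the hypotheses of the frozen statement to a map. -/
def SpecInit : Prop := ∀ (V : Type) [Fintype V] (G : SimpleGraph V),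
  (∀ v : V, Nat.card (G.neighborSet v) = 3) → G.Connected → 4 ≤ Fintype.card V →
  (∀ u v : V, (G.induce ({u, v}ᶜ : Set V)).Connected) →
  (∃ k : ℕ, k + Fintype.card V = 2 + Nat.card G.edgeSet ∧
    ∃ (σ φ : Equiv.Perm G.Dart) (face : G.Dart → Fin k),
      (∀ d : G.Dart, (σ d).fst = d.fst) ∧
      (∀ d d' : G.Dart, d.fst = d'.fst → ∃ n : ℕ, (σ ^ n) d = d') ∧
      (∀ d : G.Dart, φ d = σ d.symm) ∧
      (∀ d d' : G.Dart, face d = face d' ↔ ∃ n : ℕ, (φ ^ n) d = d') ∧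
      Function.Surjective face) →
  ∃ M : CMap V, M.TEC ∧ M.Plan ∧ ∀ v w, M.Adj v w ↔ G.Adj v w

/-- FIN. From a good colouring of the map to an acyclic colouring of the graph. -/
def SpecFin : Prop := ∀ (V : Type) [Fintype V] (G : SimpleGraph V) (M : CMap V),
  (∀ v w, M.Adj v w ↔ G.Adj v w) →
  (∀ d d' : Dt V, d.1 = d'.1 → (M.a d).1 = (M.a d').1 → d = d') → M.Col →
  ∃ c : G.Coloring (Fin 3), ∀ i j : Fin 3, (G.induce {v : V | c v = i ∨ c v = j}).IsAcyclic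

/-- ISO. The exceptional graphs. -/
def SpecIso : Prop := ∀ (V : Type) [Fintype V] (G : SimpleGraph V) (M : CMap V),
  (∀ v w, M.Adj v w ↔ G.Adj v w) → M.TEC → M.Plan →
  (Nat.card V = 4 → Nonempty (G ≃g (⊤ : SimpleGraph (Fin 4)))) ∧
  (Nat.card V = 8 → Nonempty (G ≃g SimpleGraph.fromRel
      (fun x y : Fin 3 → Bool => ∃ i, x i ≠ y i ∧ ∀ j, j ≠ i → x j = y j)) ∨
    Nonempty (G ≃g SimpleGraph.fromRel
      (fun a b : Fin 8 => (a, b) ∈ ({(0, 6), (0, 1), (1, 2), (2, 7), (3, 6), (3, 4),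
        (4, 5), (5, 7), (0, 3), (1, 4), (2, 5), (6, 7)} : Finset (Fin 8 × Fin 8)))))

end Acyc75
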