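import Pool.Agent.Lib.MP_1e9f59_co.Defs
import Pool.Agent.Lib.MP_1e9f59_co.Spec
import Pool.Agent.Lib.MP_1e9f59_co.Fin54c

section
/-!
# MP_1e9f59_co : small API
-/
set_option autoImplicit false

namespace Acyc75

section rot

variable {V : Type}

@[simp] theorem rot_fst (d : Dt V) : (rot d).1 = d.1 := rfl

@[simp] theorem rot_snd (d : Dt V) : (rot d).2 = d.2 + 1 := rfl

theorem fin3_add3 (t : Fin 3) : t + 1 + 1 + 1 = t := by decide +revert

@[simp] theorem rot_rot_rot (d : Dt V) : rot (rot (rot d)) = d := by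
  obtain ⟨v, t⟩ := d
  simp only [rot, fin3_add3]

theorem rot_ne (d : Dt V) : rot d ≠ d := by
  obtain ⟨v, t⟩ := d
  intro h
  have h2 : t + 1 = t := congrArg Prod.snd h
  clear h
  revert h2; revert t; decide

theorem rot_rot_ne (d : Dt V) : rot (rot d) ≠ d := by
  obtain ⟨v, t⟩ := d
  intro h
  have h2 : t + 1 + 1 = t := congrArg Prod.snd h
  clear h
  revert h2; revert t; decide

theorem rot_rot_ne_rot (d : Dt V) : rot (rot d) ≠ rot d := rot_ne (rot d)

theorem rot_injective : Function.Injective (rot : Dt V → Dt V) := by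
  intro d d' h
  have := congrArg rot (congrArg rot h)
  simpa using this

/-- The three darts at a vertex. -/
theorem dart_cases {d d' : Dt V} (h : d'.1 = d.1) : d' = d ∨ d' = rot d ∨ d' = rot (rot d) := by
  obtain ⟨v, t⟩ := d
  obtain ⟨v', t'⟩ := d'
  obtain rfl : v' = v := h
  have : t' = t ∨ t' = t + 1 ∨ t' = t + 1 + 1 := by decide +revert
  rcases this with h | h | h
  · left; rw [h]
  · right; left; rw [h]; rfl
  · right; right; rw [h]; rfl

/-- The sum of a function over the darts at a vertex, starting at any dart. -/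
theorem sum_at {C : Dt V → ZMod 2} (d : Dt V) :
    C (d.1, 0) + C (d.1, 1) + C (d.1, 2) = C d + C (rot d) + C (rot (rot d)) := by
  obtain ⟨v, t⟩ := d
  simp only [rot]
  fin_cases t
  · rfl
  · simp only [Fin.mk_one, Fin.isValue]
    change _ = C (v, 1) + C (v, 2) + C (v, 0)
    ring
  · change _ = C (v, 2) + C (v, 0) + C (v, 1)
    ring

theorem zmod2_cases (x : ZMod 2) : x = 0 ∨ x = 1 := by decide +revert

theorem zmod2_ne_zero {x : ZMod 2} : x ≠ 0 ↔ x = 1 := by decide +revert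

theorem zmod2_add_self (x : ZMod 2) : x + x = 0 := by decide +revert

theorem zmod2_add_eq_zero {x y : ZMod 2} : x + y = 0 ↔ x = y := by decide +revert

theorem zmod2_add_eq_iff {x y z : ZMod 2} : x + y = z ↔ x = y + z := by decide +revert

end rot

namespace CMap

variable {V : Type} (M : CMap V)

theorem a_injective : Function.Injective M.a := fun d d' h => by
  rw [← M.inv d, h, M.inv]

theorem a_eq_iff {d d' : Dt V} : M.a d = d' ↔ d = M.a d' :=
  ⟨fun h => by rw [← h, M.inv], fun h => by rw [h, M.inv]⟩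

theorem ph_def (d : Dt V) : M.ph d = rot (M.a d) := rfl

@[simp] theorem ph_fst (d : Dt V) : (M.ph d).1 = (M.a d).1 := rfl

@[simp] theorem ph_a (d : Dt V) : M.ph (M.a d) = rot d := by rw [ph_def, M.inv]

theorem ph_a_rot_rot (d : Dt V) : M.ph (M.a (rot (rot d))) = d := by rw [ph_a, rot_rot_rot]

theorem ph_injective : Function.Injective M.ph := fun _ _ h => M.a_injective (rot_injective h)

theorem ph_surjective : Function.Surjective M.ph := fun d => ⟨_, M.ph_a_rot_rot d⟩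

theorem ph_bijective : Function.Bijective M.ph := ⟨M.ph_injective, M.ph_surjective⟩

variable {M}

/-- The values of an even set at the three darts of a vertex, starting at any dart. -/
theorem Ev.sum {C : Dt V → ZMod 2} (h : M.Ev C) (d : Dt V) :
    C d + C (rot d) + C (rot (rot d)) = 0 := by
  rw [← sum_at]; exact h.2 d.1

/-- (P1) -/
theorem pot_rot {A C : Dt V → ZMod 2} (hA : ∀ d, A (M.ph d) = A d)
    (hC : ∀ d, A d + A (M.a d) = C d) (e : Dt V) : A (rot e) = A e + C e := by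
  have h1 := hA (M.a e)
  rw [ph_a] at h1
  have h2 := hC e
  rw [h1, ← h2]
  generalize A e = x; generalize A (M.a e) = y; revert x y; decide

theorem pot_a {A C : Dt V → ZMod 2} (hC : ∀ d, A d + A (M.a d) = C d) (e : Dt V) :
    A (M.a e) = A e + C e := by
  have h2 := hC e
  rw [← h2]
  generalize A e = x; generalize A (M.a e) = y; revert x y; decide

/-- (P2), the first dart after `a d`. -/
theorem pot_turn1 {A : Dt V → ZMod 2} (hA : ∀ d, A (M.ph d) = A d) (d : Dt V) :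
    A (rot (M.a d)) = A d := hA d

/-- (P2), the second dart after `a d`. -/
theorem pot_turn2 {A C : Dt V → ZMod 2} (hA : ∀ d, A (M.ph d) = A d)
    (hC : ∀ d, A d + A (M.a d) = C d) (d : Dt V) (h0 : C (rot (M.a d)) = 0) :
    A (rot (rot (M.a d))) = A d := by
  rw [pot_rot hA hC, h0, add_zero]
  exact hA d

/-! ### Parity -/

open Classical in
/-- (PAR), inner darts. -/
theorem par_inner [Fintype V] (M : CMap V) (U : Set V) (C : Dt V → ZMod 2)
    (h : ∀ d : Dt V, d.1 ∈ U → (M.a d).1 ∈ U → C (M.a d) = C d) :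
    ∑ d : Dt V with (d.1 ∈ U ∧ (M.a d).1 ∈ U), C d = 0 := by
  refine Finset.sum_involution (fun d _ => M.a d) ?_ ?_ ?_ ?_
  · intro d hd
    simp only [Finset.mem_filter, Finset.mem_univ, true_and] at hd
    rw [h d hd.1 hd.2]
    exact zmod2_add_self _
  · intro d _ _
    exact M.ne d
  · intro d hd
    simp only [Finset.mem_filter, Finset.mem_univ, true_and] at hd ⊢
    rw [M.inv]
    exact ⟨hd.2, hd.1⟩
  · intro d _
    exact M.inv d

open Classical in
theorem sum_vertices [Fintype V] (U : Set V) (C : Dt V → ZMod 2)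
    (hs : ∀ v ∈ U, C (v, 0) + C (v, 1) + C (v, 2) = 0) :
    ∑ d : Dt V with d.1 ∈ U, C d = 0 := by
  rw [Finset.sum_filter, Fintype.sum_prod_type]
  refine Finset.sum_eq_zero fun v _ => ?_
  by_cases hv : v ∈ U
  · simp only [hv, if_true]
    rw [Fin.sum_univ_three]
    exact hs v hv
  · simp [hv]

open Classical in
/-- (PAR): the sum of a chain over the outgoing darts of `U` vanishes. -/
theorem par [Fintype V] (M : CMap V) (U : Set V) (C : Dt V → ZMod 2)
    (h : ∀ d : Dt V, d.1 ∈ U → (M.a d).1 ∈ U → C (M.a d) = C d)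
    (hs : ∀ v ∈ U, C (v, 0) + C (v, 1) + C (v, 2) = 0) :
    ∑ d : Dt V with (d.1 ∈ U ∧ (M.a d).1 ∉ U), C d = 0 := by
  have h1 := sum_vertices U C hs
  rw [← Finset.sum_filter_add_sum_filter_not _ (fun d => (M.a d).1 ∈ U)] at h1
  rw [Finset.filter_filter, Finset.filter_filter, par_inner M U C h, zero_add] at h1
  exact h1

/-! ### Path chains -/

/-- One step inside `R`. -/
def Step (M : CMap V) (R : Set V) (x y : V) : Prop := y ∈ R ∧ ∃ d : Dt V, d.1 = x ∧ (M.a d).1 = y

open Classical in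
/-- The indicator of the edge `{d, a d}`. -/
noncomputable def edgeInd (M : CMap V) (d : Dt V) : Dt V → ZMod 2 :=
  fun e => if e = d ∨ e = M.a d then 1 else 0

theorem edgeInd_a (M : CMap V) (d e : Dt V) : M.edgeInd d (M.a e) = M.edgeInd d e := by
  unfold edgeInd
  have : (M.a e = d ∨ M.a e = M.a d) ↔ (e = d ∨ e = M.a d) := by
    rw [M.a_eq_iff, M.a_injective.eq_iff]
    tauto
  by_cases h : e = d ∨ e = M.a d
  · rw [if_pos h, if_pos (this.2 h)]
  · rw [if_neg h, if_neg (fun h' => h (this.1 h'))]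

open Classical in
theorem single_sum (d : Dt V) (v : V) :
    (if (v, (0 : Fin 3)) = d then (1 : ZMod 2) else 0) + (if (v, (1 : Fin 3)) = d then 1 else 0) +
      (if (v, (2 : Fin 3)) = d then 1 else 0) = if v = d.1 then 1 else 0 := by
  obtain ⟨w, t⟩ := d
  by_cases h : v = w
  · subst h
    fin_cases t <;> simp
  · have : ∀ s : Fin 3, (v, s) ≠ (w, t) := fun s hs => h (congrArg Prod.fst hs)
    simp [this, h]

open Classical in
theorem edgeInd_sum (M : CMap V) (d : Dt V) (v : V) :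
    M.edgeInd d (v, 0) + M.edgeInd d (v, 1) + M.edgeInd d (v, 2) =
      (if v = d.1 then 1 else 0) + (if v = (M.a d).1 then 1 else 0) := by
  have hne : ∀ e : Dt V, M.edgeInd d e = (if e = d then 1 else 0) + (if e = M.a d then 1 else 0) := by
    intro e
    unfold edgeInd
    by_cases h1 : e = d
    · subst h1
      have : e ≠ M.a e := fun h => M.ne e h.symm
      simp [this]
    · by_cases h2 : e = M.a d <;> simp [h1, h2]
      exact fun h => absurd h (M.ne d)
  rw [hne, hne, hne, ← single_sum d v, ← single_sum (M.a d) v]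
  ring

theorem edgeInd_ne_zero (M : CMap V) {d e : Dt V} (h : M.edgeInd d e ≠ 0) : e = d ∨ e = M.a d := by
  by_contra hc
  exact h (by unfold edgeInd; rw [if_neg hc])

open Classical in
/-- (PC): path chains. -/
theorem pathChain (M : CMap V) (R : Set V) {u w : V} (hu : u ∈ R)
    (h : Relation.ReflTransGen (M.Step R) u w) :
    ∃ C : Dt V → ZMod 2, (∀ d, C (M.a d) = C d) ∧
      (∀ d, C d ≠ 0 → d.1 ∈ R ∧ (M.a d).1 ∈ R) ∧
      ∀ v, C (v, 0) + C (v, 1) + C (v, 2) = (if v = u then 1 else 0) + (if v = w then 1 else 0) := by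
  have key : w ∈ R ∧ ∃ C : Dt V → ZMod 2, (∀ d, C (M.a d) = C d) ∧
      (∀ d, C d ≠ 0 → d.1 ∈ R ∧ (M.a d).1 ∈ R) ∧
      ∀ v, C (v, 0) + C (v, 1) + C (v, 2) =
        (if v = u then 1 else 0) + (if v = w then 1 else 0) := by
    induction h with
    | refl => exact ⟨hu, fun _ => 0, fun _ => rfl, fun d h => absurd rfl h, fun v => by
        by_cases h : v = u <;> simp [h]; decide⟩
    | tail _ hs ih =>
      rename_i x y _
      obtain ⟨hx, C, h1, h2, h3⟩ := ih
      obtain ⟨hy, d, hd1, hd2⟩ := hs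
      refine ⟨hy, fun e => C e + M.edgeInd d e, fun e => by
        change C (M.a e) + M.edgeInd d (M.a e) = C e + M.edgeInd d e
        rw [h1, edgeInd_a], ?_, ?_⟩
      · intro e he
        change C e + M.edgeInd d e ≠ 0 at he
        by_cases hc : C e = 0
        · have he' : M.edgeInd d e ≠ 0 := fun h => he (by rw [hc, h, add_zero])
          rcases M.edgeInd_ne_zero he' with rfl | rfl
          · exact ⟨hd1 ▸ hx, hd2 ▸ hy⟩
          · rw [M.inv]; exact ⟨hd2 ▸ hy, hd1 ▸ hx⟩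
        · exact h2 e hc
      · intro v
        have e1 := h3 v
        have e2 := M.edgeInd_sum d v
        rw [hd1, hd2] at e2
        have : C (v, 0) + M.edgeInd d (v, 0) + (C (v, 1) + M.edgeInd d (v, 1)) +
            (C (v, 2) + M.edgeInd d (v, 2)) = (C (v, 0) + C (v, 1) + C (v, 2)) +
            (M.edgeInd d (v, 0) + M.edgeInd d (v, 1) + M.edgeInd d (v, 2)) := by ring
        rw [this, e1, e2]
        generalize (if v = u then (1 : ZMod 2) else 0) = a
        generalize (if v = x then (1 : ZMod 2) else 0) = b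
        generalize (if v = y then (1 : ZMod 2) else 0) = c
        revert a b c; decide
  exact key.2

theorem Step.symm (M : CMap V) {R : Set V} {x y : V} (hx : x ∈ R) (h : M.Step R x y) :
    M.Step R y x := by
  obtain ⟨_, d, rfl, rfl⟩ := h
  exact ⟨hx, M.a d, rfl, by rw [M.inv]⟩

/-- Reachability inside `R` is symmetric. -/
theorem reach_symm (M : CMap V) {R : Set V} {u w : V} (hu : u ∈ R)
    (h : Relation.ReflTransGen (M.Step R) u w) :
    w ∈ R ∧ Relation.ReflTransGen (M.Step R) w u := by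
  induction h with
  | refl => exact ⟨hu, .refl⟩
  | tail _ hs ih => exact ⟨hs.1, .head (Step.symm M ih.1 hs) ih.2⟩

/-! ### Forest lemma -/

/-- (FL): a chain supported on a part `W` with a ranking such that every vertex has at most one dart
to a vertex of at least the same rank vanishes. -/
theorem forest [Finite V] (M : CMap V) (C : Dt V → ZMod 2) (W : Set V) (rk : V → ℕ)
    (hC : ∀ d, C d ≠ 0 → d.1 ∈ W ∧ (M.a d).1 ∈ W ∧ C (M.a d) ≠ 0)
    (hs : ∀ v ∈ W, C (v, 0) + C (v, 1) + C (v, 2) = 0)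
    (hrk : ∀ d d' : Dt V, d.1 = d'.1 → d.1 ∈ W → (M.a d).1 ∈ W → (M.a d').1 ∈ W →
      rk d.1 ≤ rk (M.a d).1 → rk d.1 ≤ rk (M.a d').1 → d = d') : ∀ d, C d = 0 := by
  by_contra hne
  push Not at hne
  obtain ⟨d0, hd0⟩ := hne
  haveI : Nonempty {d : Dt V // C d ≠ 0} := ⟨⟨d0, hd0⟩⟩
  obtain ⟨⟨d, hd⟩, hmin⟩ := Finite.exists_min (fun d : {d : Dt V // C d ≠ 0} => rk d.1.1)
  have hmin' : ∀ e : Dt V, C e ≠ 0 → rk d.1 ≤ rk e.1 := fun e he => hmin ⟨e, he⟩
  have hsum := hs d.1 (hC d hd).1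
  rw [sum_at d] at hsum
  have h2 : ∃ d' : Dt V, d'.1 = d.1 ∧ d' ≠ d ∧ C d' ≠ 0 := by
    by_cases h : C (rot d) = 0
    · refine ⟨rot (rot d), rfl, rot_rot_ne d, fun h' => ?_⟩
      rw [h, h', add_zero, add_zero] at hsum
      exact hd hsum
    · exact ⟨rot d, rfl, rot_ne d, h⟩
  obtain ⟨d', h1', hne', hd'⟩ := h2
  refine hne' (hrk d' d h1' (hC d' hd').1 (hC d' hd').2.1 (hC d hd).2.1 ?_ ?_)
  · rw [h1']; exact hmin' _ (hC d' hd').2.2
  · rw [h1']; exact hmin' _ (hC d hd).2.2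

/-! ### Cuts -/

theorem cut_finite [Finite V] (M : CMap V) (S : Set V) :
    {d : Dt V | d.1 ∈ S ∧ (M.a d).1 ∉ S}.Finite := Set.toFinite _

open Classical in
theorem cut_eq_card [Fintype V] (M : CMap V) (S : Set V) :
    M.cut S = (Finset.univ.filter fun d : Dt V => d.1 ∈ S ∧ (M.a d).1 ∉ S).card := by
  unfold cut
  rw [Set.ncard_eq_toFinset_card']
  congr 1
  ext d; simp

theorem cut_le_of_subset [Finite V] (M : CMap V) (S : Set V) (F : Set (Dt V))
    (h : ∀ d : Dt V, d.1 ∈ S → (M.a d).1 ∉ S → d ∈ F) : M.cut S ≤ F.ncard :=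
  Set.ncard_le_ncard (fun d hd => h d hd.1 hd.2) (Set.toFinite _)

end CMap

end Acyc75
end

section
/-!
# Module EIGHT

A planar three-edge-connected map with eight vertices has the graph `Q₃` or `H`.
-/
set_option autoImplicit false

namespace Acyc75

open CMap

namespace Eight

variable {V : Type}

theorem adj_symm (M : CMap V) {v w : V} (h : M.Adj v w) : M.Adj w v := by
  obtain ⟨i, hi⟩ := h
  refine ⟨(M.a (v, i)).2, ?_⟩
  rw [← hi, Prod.mk.eta, M.inv]

theorem adj_of_dart (M : CMap V) (d : Dt V) : M.Adj d.1 (M.a d).1 := ⟨d.2, rfl⟩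

/-- A numbering of the vertices with the right adjacencies. -/
theorem build [Finite V] (M : CMap V) (h8 : Nat.card V = 8) (adj : Fin 8 → Fin 8 → Bool)
    (hdeg : ∀ i, (Finset.univ.filter fun j => adj i j = true).card = 3)
    (g : Fin 8 → V) (hg : Function.Injective g)
    (hadj : ∀ i j, adj i j = true → M.Adj (g i) (g j)) :
    ∃ e : V ≃ Fin 8, ∀ v w, M.Adj v w ↔ adj (e v) (e w) = true := by
  classical
  have := Fintype.ofFinite V
  have hbij : Function.Bijective g := by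
    rw [Fintype.bijective_iff_injective_and_card]
    refine ⟨hg, ?_⟩
    rw [← Nat.card_eq_fintype_card, ← Nat.card_eq_fintype_card, h8, Nat.card_eq_fintype_card,
      Fintype.card_fin]
  refine ⟨(Equiv.ofBijective g hbij).symm, ?_⟩
  have key : ∀ i j, M.Adj (g i) (g j) ↔ adj i j = true := by
    intro i j
    refine ⟨fun h => ?_, hadj i j⟩
    have hsub : (Finset.univ.filter fun j => adj i j = true).image g ⊆
        Finset.univ.image (fun t : Fin 3 => (M.a (g i, t)).1) := by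
      intro x hx
      obtain ⟨j', hj', rfl⟩ := Finset.mem_image.1 hx
      obtain ⟨t, ht⟩ := hadj i j' (Finset.mem_filter.1 hj').2
      exact Finset.mem_image.2 ⟨t, Finset.mem_univ _, ht⟩
    have heq := Finset.eq_of_subset_of_card_le hsub (by
      rw [Finset.card_image_of_injective _ hg, hdeg i]
      exact Finset.card_image_le)
    obtain ⟨t, ht⟩ := h
    have hmem : g j ∈ Finset.univ.image (fun t : Fin 3 => (M.a (g i, t)).1) :=
      Finset.mem_image.2 ⟨t, Finset.mem_univ _, ht⟩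
    rw [← heq] at hmem
    obtain ⟨j', hj', hjj⟩ := Finset.mem_image.1 hmem
    rw [← hg hjj]
    exact (Finset.mem_filter.1 hj').2
  intro v w
  obtain ⟨i, rfl⟩ := hbij.2 v
  obtain ⟨j, rfl⟩ := hbij.2 w
  rw [key]
  have h1 : ∀ i, (Equiv.ofBijective g hbij).symm (g i) = i := fun i =>
    (Equiv.ofBijective g hbij).symm_apply_apply i
  rw [h1, h1]

/-! ## No triangular faces: the cube -/

section cube

variable (M : CMap V) (d0 : Dt V)

/-- The darts of the first face. -/
def D (n : ℕ) : Dt V := M.ph^[n] d0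

theorem D_succ (n : ℕ) : D M d0 (n + 1) = M.ph (D M d0 n) := by
  unfold D; rw [Function.iterate_succ_apply']

theorem D_succ' (n : ℕ) : D M d0 (n + 1) = rot (M.a (D M d0 n)) := by
  rw [D_succ]; rfl

theorem D_add (n m : ℕ) : D M d0 (n + m) = M.ph^[m] (D M d0 n) := by
  unfold D; rw [Nat.add_comm, Function.iterate_add_apply]

/-- The outer neighbours. -/
def W (n : ℕ) : V := (M.a (rot (D M d0 n))).1

theorem a_D (n : ℕ) : M.a (D M d0 n) = rot (rot (D M d0 (n + 1))) := by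
  rw [D_succ', rot_rot_rot]

theorem D_fst_succ (n : ℕ) : (D M d0 (n + 1)).1 = (M.a (D M d0 n)).1 := by
  rw [D_succ']; rfl

/-- The dart from `W n` to `W (n+1)`. -/
theorem across (h4 : ∀ d, M.ph^[4] d = d) (n : ℕ) :
    M.a (rot (M.a (rot (D M d0 n)))) = rot (rot (M.a (rot (D M d0 (n + 1))))) := by
  have h := h4 (M.a (D M d0 n))
  change M.ph (M.ph (M.ph (M.ph (M.a (D M d0 n))))) = M.a (D M d0 n) at h
  rw [ph_a] at h
  have h2 : M.ph (rot (D M d0 n)) = rot (M.a (rot (D M d0 n))) := rfl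
  rw [h2] at h
  set f2 := rot (M.a (rot (D M d0 n))) with hf2
  -- `ph (ph f2) = a (D n)`
  have h3 : M.ph f2 = M.a (rot (D M d0 (n + 1))) := by
    apply M.ph_injective
    rw [h, ph_a, a_D]
  have h4' : rot (M.a f2) = M.a (rot (D M d0 (n + 1))) := h3
  rw [← h4', rot_rot_rot]

theorem W_adj (h4 : ∀ d, M.ph^[4] d = d) (n : ℕ) : M.Adj (W M d0 n) (W M d0 (n + 1)) := by
  have h := across M d0 h4 n
  refine ⟨(rot (M.a (rot (D M d0 n)))).2, ?_⟩
  have : ((W M d0 n, (rot (M.a (rot (D M d0 n)))).2) : Dt V) = rot (M.a (rot (D M d0 n))) := rfl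
  rw [this, h]
  rfl

variable {M} {d0}

/-- No triangles. -/
def NoTri (M : CMap V) : Prop := ∀ d₀ d₁ d₂ : Dt V, (M.a d₀).1 = d₁.1 → (M.a d₁).1 = d₂.1 →
  (M.a d₂).1 = d₀.1 → False

theorem noTri_of (hJ : SpecJC3) [Finite V] (hT : M.TEC) (hP : M.Plan) (hc : 4 ≤ Nat.card V)
    (h3 : ∀ d, M.ph^[3] d ≠ d) : NoTri M := by
  intro e0 e1 e2 h1 h2 h4
  rcases hJ V M hT hP hc e0 e1 e2 h1 h2 h4 with ⟨a1, a2, a3⟩ | ⟨a1, a2, a3⟩
  · apply h3 e0
    change M.ph (M.ph (M.ph e0)) = e0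
    rw [a1, a2, a3]
  · apply h3 (M.a e1)
    change M.ph (M.ph (M.ph (M.a e1))) = M.a e1
    rw [a1, a3, a2]

theorem v_ne1 (hl : ∀ d, (M.a d).1 ≠ d.1) (n : ℕ) : (D M d0 n).1 ≠ (D M d0 (n + 1)).1 := by
  rw [D_fst_succ]; exact (hl _).symm

theorem v_ne2 (hs : ∀ d d' : Dt V, d.1 = d'.1 → (M.a d).1 = (M.a d').1 → d = d') (n : ℕ) :
    (D M d0 n).1 ≠ (D M d0 (n + 2)).1 := by
  intro h
  have h1 : (D M d0 (n + 1)).1 = (M.a (D M d0 n)).1 := D_fst_succ M d0 n
  have h2 : (M.a (D M d0 (n + 1))).1 = (M.a (M.a (D M d0 n))).1 := by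
    rw [← D_fst_succ, M.inv, h]
  have h3 := hs _ _ h1 h2
  rw [D_succ'] at h3
  exact rot_ne _ h3

theorem D_period (h4 : ∀ d, M.ph^[4] d = d) (n : ℕ) : D M d0 (n + 4) = D M d0 n := by
  rw [D_add]; exact h4 _

theorem W_ne0 (hl : ∀ d, (M.a d).1 ≠ d.1) (n : ℕ) : W M d0 n ≠ (D M d0 n).1 := hl _

theorem W_ne1 (hs : ∀ d d' : Dt V, d.1 = d'.1 → (M.a d).1 = (M.a d').1 → d = d') (n : ℕ) :
    W M d0 n ≠ (D M d0 (n + 1)).1 := by
  intro h
  have := hs (rot (D M d0 n)) (D M d0 n) rfl (by rw [← D_fst_succ]; exact h)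
  exact rot_ne _ this

theorem W_ne2 (hN : NoTri M) (n : ℕ) : W M d0 n ≠ (D M d0 (n + 2)).1 := by
  intro h
  exact hN (D M d0 n) (D M d0 (n + 1)) (M.a (rot (D M d0 n))) (D_fst_succ M d0 n).symm
    ((D_fst_succ M d0 (n + 1)).symm.trans h.symm) (by rw [M.inv]; rfl)

theorem W_ne3 (hs : ∀ d d' : Dt V, d.1 = d'.1 → (M.a d).1 = (M.a d').1 → d = d')
    (h4 : ∀ d, M.ph^[4] d = d) (n : ℕ) : W M d0 n ≠ (D M d0 (n + 3)).1 := by
  intro h
  have h1 : M.a (D M d0 (n + 3)) = rot (rot (D M d0 n)) := by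
    rw [a_D]
    have : D M d0 (n + 3 + 1) = D M d0 n := D_period h4 n
    rw [this]
  have h2 := hs (rot (D M d0 n)) (M.a (D M d0 (n + 3))) (by rw [h1]; rfl) (by
    rw [M.inv]; exact h)
  rw [h1] at h2
  exact rot_ne _ h2.symm

theorem WW_ne1 (hN : NoTri M) (n : ℕ) : W M d0 n ≠ W M d0 (n + 1) := by
  intro h
  exact hN (D M d0 n) (rot (D M d0 (n + 1))) (M.a (rot (D M d0 n))) (D_fst_succ M d0 n).symm
    h.symm (by rw [M.inv]; rfl)

theorem WW_ne2 (hs : ∀ d d' : Dt V, d.1 = d'.1 → (M.a d).1 = (M.a d').1 → d = d')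
    (h4 : ∀ d, M.ph^[4] d = d) (n : ℕ) : W M d0 n ≠ W M d0 (n + 2) := by
  intro h
  have hd : (M.a (rot (D M d0 (n + 2)))).1 = (M.a (rot (D M d0 n))).1 := h.symm
  rcases dart_cases hd with h1 | h1 | h1
  · have h2 := rot_injective (M.a_injective h1)
    exact v_ne2 hs n (congrArg Prod.fst h2).symm
  · have h2 : rot (D M d0 (n + 2)) = M.a (rot (M.a (rot (D M d0 n)))) := by
      rw [← h1, M.inv]
    rw [across M d0 h4] at h2
    have h3 : (D M d0 (n + 2)).1 = W M d0 (n + 1) := by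
      have := congrArg Prod.fst h2
      exact this
    exact W_ne1 hs (n + 1) h3.symm
  · have h5 := across M d0 h4 (n + 3)
    have h6 : D M d0 (n + 3 + 1) = D M d0 n := D_period h4 n
    rw [h6, ← h1] at h5
    have h7 := M.a_injective h5
    have h8 : W M d0 (n + 3) = (D M d0 (n + 2)).1 := by
      have := congrArg Prod.fst h7
      exact this
    have h9 := W_ne3 (d0 := d0) hs h4 (n + 3)
    have h10 : D M d0 (n + 3 + 3) = D M d0 (n + 2) := D_period h4 (n + 2)
    rw [h10] at h9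
    exact h9 h8

theorem cube [Finite V] (h8 : Nat.card V = 8) (hl : ∀ d, (M.a d).1 ≠ d.1)
    (hs : ∀ d d' : Dt V, d.1 = d'.1 → (M.a d).1 = (M.a d').1 → d = d')
    (hN : NoTri M) (h4 : ∀ d, M.ph^[4] d = d) (d0 : Dt V) :
    ∃ e : V ≃ Fin 8, ∀ v w, M.Adj v w ↔ adjQ (e v) (e w) = true := by
  set v : ℕ → V := fun n => (D M d0 n).1 with hv
  set w : ℕ → V := W M d0 with hw
  have p0 : v 4 = v 0 := congrArg Prod.fst (D_period (d0 := d0) h4 0)
  have p1 : v 5 = v 1 := congrArg Prod.fst (D_period (d0 := d0) h4 1)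
  have p2 : v 6 = v 2 := congrArg Prod.fst (D_period (d0 := d0) h4 2)
  have q0 : w 4 = w 0 := by
    have := D_period (d0 := d0) h4 0
    change (M.a (rot (D M d0 4))).1 = (M.a (rot (D M d0 0))).1
    rw [this]
  have v01 : v 0 ≠ v 1 := v_ne1 hl 0
  have v12 : v 1 ≠ v 2 := v_ne1 hl 1
  have v23 : v 2 ≠ v 3 := v_ne1 hl 2
  have v30 : v 3 ≠ v 0 := p0 ▸ v_ne1 hl 3
  have v02 : v 0 ≠ v 2 := v_ne2 hs 0
  have v13 : v 1 ≠ v 3 := v_ne2 hs 1
  have w01 : w 0 ≠ w 1 := WW_ne1 hN 0
  have w12 : w 1 ≠ w 2 := WW_ne1 hN 1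
  have w23 : w 2 ≠ w 3 := WW_ne1 hN 2
  have w30 : w 3 ≠ w 0 := q0 ▸ WW_ne1 hN 3
  have w02 : w 0 ≠ w 2 := WW_ne2 hs h4 0
  have w13 : w 1 ≠ w 3 := WW_ne2 hs h4 1
  have a00 : w 0 ≠ v 0 := W_ne0 hl 0
  have a01 : w 0 ≠ v 1 := W_ne1 hs 0
  have a02 : w 0 ≠ v 2 := W_ne2 hN 0
  have a03 : w 0 ≠ v 3 := W_ne3 hs h4 0
  have a11 : w 1 ≠ v 1 := W_ne0 hl 1
  have a12 : w 1 ≠ v 2 := W_ne1 hs 1
  have a13 : w 1 ≠ v 3 := W_ne2 hN 1
  have a10 : w 1 ≠ v 0 := p0 ▸ W_ne3 (d0 := d0) hs h4 1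
  have a22 : w 2 ≠ v 2 := W_ne0 hl 2
  have a23 : w 2 ≠ v 3 := W_ne1 hs 2
  have a20 : w 2 ≠ v 0 := p0 ▸ W_ne2 (d0 := d0) hN 2
  have a21 : w 2 ≠ v 1 := p1 ▸ W_ne3 (d0 := d0) hs h4 2
  have a33 : w 3 ≠ v 3 := W_ne0 hl 3
  have a30 : w 3 ≠ v 0 := p0 ▸ W_ne1 (d0 := d0) hs 3
  have a31 : w 3 ≠ v 1 := p1 ▸ W_ne2 (d0 := d0) hN 3
  have a32 : w 3 ≠ v 2 := p2 ▸ W_ne3 (d0 := d0) hs h4 3
  have A : ∀ n, M.Adj (v n) (v (n + 1)) := fun n => by
    rw [hv]; simp only; rw [D_fst_succ]; exact adj_of_dart M _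
  have B : ∀ n, M.Adj (v n) (w n) := fun n => adj_of_dart M (rot (D M d0 n))
  have C : ∀ n, M.Adj (w n) (w (n + 1)) := fun n => W_adj M d0 h4 n
  have A3 : M.Adj (v 3) (v 0) := p0 ▸ A 3
  have C3 : M.Adj (w 3) (w 0) := q0 ▸ C 3
  clear_value v w
  refine build M h8 adjQ (by decide) ![v 0, v 1, v 3, v 2, w 0, w 1, w 3, w 2] ?_ ?_
  · intro i j h
    fin_cases i <;> fin_cases j <;> first
      | rfl
      | exact absurd h ‹_ ≠ _›
      | exact absurd h.symm ‹_ ≠ _›
  · intro i j h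
    fin_cases i <;> fin_cases j <;> first
      | exact absurd h (by decide)
      | exact A _
      | exact adj_symm M (A _)
      | exact B _
      | exact adj_symm M (B _)
      | exact C _
      | exact adj_symm M (C _)
      | exact A3
      | exact adj_symm M A3
      | exact C3
      | exact adj_symm M C3

end cube

/-! ## A triangular face: the graph `H` -/

theorem fin3_ne {i j : Fin 3} (h : i ≠ j) : j = i + 1 ∨ j = i + 2 := by
  revert i j; decide

theorem fin3_21 : ∀ i : Fin 3, i = i + 2 + 1 := by decide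

theorem exists_none (α : Type) [Finite α] (h6 : Nat.card (Option α) = 6)
    (A : Option α → Option α → Prop) (hA : ∀ p q, A p q → A q p)
    (h : ∃ t : Fin 3 → Option α, Function.Injective t ∧ (∀ i j, i ≠ j → A (t i) (t j)) ∧
      ∃ t' : Fin 3 → Option α, Function.Injective t' ∧ (∀ i j, i ≠ j → A (t' i) (t' j)) ∧
      (∀ i j, t i ≠ t' j) ∧ ∀ i, A (t i) (t' i)) :
    ∃ t : Fin 3 → Option α, Function.Injective t ∧ (∀ i j, i ≠ j → A (t i) (t j)) ∧
      ∃ t' : Fin 3 → Option α, Function.Injective t' ∧ (∀ i j, i ≠ j → A (t' i) (t' j)) ∧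
      (∀ i j, t i ≠ t' j) ∧ (∀ i, A (t i) (t' i)) ∧ t 0 = none := by
  classical
  have key : ∀ t t' : Fin 3 → Option α, Function.Injective t → (∀ i j, i ≠ j → A (t i) (t j)) →
      Function.Injective t' → (∀ i j, i ≠ j → A (t' i) (t' j)) → (∀ i j, t i ≠ t' j) →
      (∀ i, A (t i) (t' i)) → (∃ i, t i = none) →
      ∃ t : Fin 3 → Option α, Function.Injective t ∧ (∀ i j, i ≠ j → A (t i) (t j)) ∧
      ∃ t' : Fin 3 → Option α, Function.Injective t' ∧ (∀ i j, i ≠ j → A (t' i) (t' j)) ∧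
      (∀ i j, t i ≠ t' j) ∧ (∀ i, A (t i) (t' i)) ∧ t 0 = none := by
    rintro t t' h1 h2 h3 h4 h5 h6 ⟨i, hi⟩
    refine ⟨t ∘ Equiv.swap 0 i, h1.comp (Equiv.injective _), fun a b hab => h2 _ _
      (fun h => hab (Equiv.injective _ h)), t' ∘ Equiv.swap 0 i, h3.comp (Equiv.injective _),
      fun a b hab => h4 _ _ (fun h => hab (Equiv.injective _ h)), fun a b => h5 _ _,
      fun a => h6 _, ?_⟩
    simp [hi]
  obtain ⟨t, h1, h2, t', h3, h4, h5, h7⟩ := h
  have hinj : Function.Injective (Sum.elim t t') := by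
    rintro (a | a) (b | b) hab
    · exact congrArg Sum.inl (h1 hab)
    · exact absurd hab (h5 a b)
    · exact absurd hab.symm (h5 b a)
    · exact congrArg Sum.inr (h3 hab)
  have hsur : Function.Surjective (Sum.elim t t') := by
    have := Fintype.ofFinite α
    refine ((Fintype.bijective_iff_injective_and_card _).2 ⟨hinj, ?_⟩).2
    rw [Nat.card_eq_fintype_card] at h6
    rw [h6]
    simp
  obtain ⟨i | i, hi⟩ := hsur none
  · exact key t t' h1 h2 h3 h4 h5 h7 ⟨i, hi⟩
  · exact key t' t h3 h4 h1 h2 (fun a b h => h5 b a h.symm) (fun a => hA _ _ (h7 a)) ⟨i, hi⟩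

theorem tri [Finite V] (M : CMap V) (hT : M.TEC) (hP : M.Plan) (h8 : Nat.card V = 8)
    (hS : SpecSimple) (hCtr : SpecCtr) (hSix : SpecSix) (d : Dt V) (hd : M.ph^[3] d = d) :
    ∃ e : V ≃ Fin 8, ∀ v w, M.Adj v w ↔ adjH (e v) (e w) = true := by
  classical
  obtain ⟨hl, hs⟩ := hS V M hT (by omega)
  -- the triangle
  obtain ⟨ee, hee⟩ : ∃ ee : Fin 3 → Dt V, ∀ i, ee (i + 1) = rot (M.a (ee i)) := by
    refine ⟨![d, M.ph d, M.ph (M.ph d)], ?_⟩
    intro i
    fin_cases i
    · rfl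
    · rfl
    · exact hd.symm
  have ha : ∀ i, M.a (ee i) = rot (rot (ee (i + 1))) := fun i => by
    rw [hee, rot_rot_rot]
  have ha2 : ∀ i, M.a (ee (i + 2)) = rot (rot (ee i)) := fun i => by
    rw [ha]
    have : i + 2 + 1 = i := by revert i; decide
    rw [this]
  have hx1 : ∀ i, (M.a (ee i)).1 = (ee (i + 1)).1 := fun i => by rw [ha]; rfl
  set x : Fin 3 → V := fun i => (ee i).1 with hx
  set y : Fin 3 → V := fun i => (M.a (rot (ee i))).1 with hy
  have hxinj : Function.Injective x := by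
    have h1 : ∀ i, x i ≠ x (i + 1) := fun i h => hl (ee i) (by rw [hx1]; exact h.symm)
    intro i j h
    by_contra hij
    rcases fin3_ne hij with h' | h'
    · rw [h'] at h; exact h1 i h
    · have h2 : i = j + 1 := by rw [h']; exact fin3_21 i
      rw [h2] at h; exact h1 j h.symm
  have hy0 : ∀ i, y i ∉ Set.range x := by
    rintro i ⟨j, hj⟩
    by_cases hij : i = j
    · subst hij; exact hl (rot (ee i)) hj.symm
    · rcases fin3_ne hij with h' | h'
      · have := hs (rot (ee i)) (ee i) rfl (by rw [hx1, ← h']; exact hj.symm)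
        exact rot_ne _ this
      · have := hs (rot (ee i)) (rot (rot (ee i))) rfl (by
          rw [← ha2, M.inv, ← h']; exact hj.symm)
        exact rot_ne _ this.symm
  have hout : ∀ e : Dt V, e.1 ∉ Set.range x → (M.a e).1 ∈ Set.range x →
      ∃ i, e = M.a (rot (ee i)) := by
    rintro e he ⟨i, hi⟩
    rcases dart_cases (d := ee i) (d' := M.a e) hi.symm with h | h | h
    · exfalso
      apply he
      have : e = M.a (ee i) := by rw [← h, M.inv]
      rw [this, hx1]
      exact ⟨_, rfl⟩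
    · exact ⟨i, by rw [← h, M.inv]⟩
    · exfalso
      apply he
      have : e = ee (i + 2) := by
        apply M.a_injective
        rw [h, ha2]
      rw [this]
      exact ⟨_, rfl⟩
  have hxadj : ∀ i j, i ≠ j → M.Adj (x i) (x j) := by
    intro i j hij
    have h1 : ∀ i, M.Adj (x i) (x (i + 1)) := fun i => by
      have := adj_of_dart M (ee i)
      rwa [hx1] at this
    rcases fin3_ne hij with h' | h'
    · rw [h']; exact h1 i
    · have h2 : i = j + 1 := by rw [h']; exact fin3_21 i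
      rw [h2]; exact adj_symm M (h1 j)
  have hxy : ∀ i, M.Adj (x i) (y i) := fun i => adj_of_dart M (rot (ee i))
  -- the cut
  set S : Set V := (Set.range x)ᶜ with hSdef
  have hcut : M.cut S = 3 := by
    have h1 : {d : Dt V | d.1 ∈ S ∧ (M.a d).1 ∉ S} = Set.range fun i => M.a (rot (ee i)) := by
      ext e
      constructor
      · rintro ⟨h1, h2⟩
        obtain ⟨i, hi⟩ := hout e h1 (by simpa [S] using h2)
        exact ⟨i, hi.symm⟩
      · rintro ⟨i, rfl⟩
        refine ⟨hy0 i, ?_⟩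
        change (M.a (M.a (rot (ee i)))).1 ∉ S
        rw [M.inv]
        simp only [S, Set.mem_compl_iff, not_not]
        exact ⟨i, rfl⟩
    unfold CMap.cut
    rw [h1, Set.ncard_range_of_injective]
    · simp
    · intro i j h
      exact hxinj (congrArg Prod.fst (rot_injective (M.a_injective h)))
  obtain ⟨M', hM', hT', hP'⟩ := hCtr V M S hT hP hcut
  have hcard : Nat.card (Option S) = 6 := by
    have := Fintype.ofFinite V
    rw [Finite.card_option]
    have h1 : Nat.card (Set.range x) = 3 := by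
      rw [Nat.card_range_of_injective hxinj, Nat.card_eq_fintype_card, Fintype.card_fin]
    have h2 : Nat.card {v // v ∈ Set.range x} + Nat.card {v // v ∉ Set.range x} =
        Nat.card V := by
      rw [← Nat.card_sum]
      exact Nat.card_congr (Equiv.sumCompl _)
    have h3 : Nat.card {v // v ∈ Set.range x} = 3 := h1
    have h4 : Nat.card S = Nat.card {v // v ∉ Set.range x} := rfl
    omega
  have hsix := (hSix _ M' hT' hP' hcard).1
  obtain ⟨t, t1, t2, t', t3, t4, t5, t6, t0⟩ := exists_none S hcard M'.Adj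
    (fun p q h => adj_symm M' h) hsix
  -- adjacency in M from M'
  have L1 : ∀ v w : S, M'.Adj (some v) (some w) → M.Adj v w := by
    rintro v w ⟨k, hk⟩
    by_cases h : (M.a (v.1, k)).1 ∈ S
    · have := hM'.int v.1 (M.a (v.1, k)).1 v.2 h k (M.a (v.1, k)).2 rfl
      rw [this] at hk
      have hk := congrArg Subtype.val (Option.some_injective _ hk)
      exact ⟨k, hk⟩
    · have := hM'.bd v.1 v.2 k h
      rw [this] at hk
      exact absurd hk (by simp)
  have L2 : ∀ v : S, M'.Adj (some v) none → ∃ i, v.1 = y i := by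
    rintro v ⟨k, hk⟩
    by_cases h : (M.a (v.1, k)).1 ∈ S
    · have := hM'.int v.1 (M.a (v.1, k)).1 v.2 h k (M.a (v.1, k)).2 rfl
      rw [this] at hk
      exact absurd hk (by simp)
    · obtain ⟨i, hi⟩ := hout (v.1, k) v.2 (by simpa [S] using h)
      exact ⟨i, congrArg Prod.fst hi⟩
  have ht1 : ∃ s : S, t 1 = some s := by
    cases h : t 1 with
    | none => exact absurd (t1 (h.trans t0.symm)) (by decide)
    | some s => exact ⟨s, rfl⟩
  have ht2 : ∃ s : S, t 2 = some s := by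
    cases h : t 2 with
    | none => exact absurd (t1 (h.trans t0.symm)) (by decide)
    | some s => exact ⟨s, rfl⟩
  have ht' : ∀ i, ∃ r : S, t' i = some r := by
    intro i
    cases h : t' i with
    | none => exact absurd (t0.trans h.symm) (t5 0 i)
    | some s => exact ⟨s, rfl⟩
  obtain ⟨s1, hs1⟩ := ht1
  obtain ⟨s2, hs2⟩ := ht2
  choose r hr using ht'
  have n12 : s1.1 ≠ s2.1 := fun h => by
    have := t1 ((hs1.trans (congrArg some (Subtype.ext h))).trans hs2.symm)
    exact absurd this (by decide)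
  have n1r : ∀ i, s1.1 ≠ (r i).1 := fun i h =>
    t5 1 i ((hs1.trans (congrArg some (Subtype.ext h))).trans (hr i).symm)
  have n2r : ∀ i, s2.1 ≠ (r i).1 := fun i h =>
    t5 2 i ((hs2.trans (congrArg some (Subtype.ext h))).trans (hr i).symm)
  have nrr : ∀ i j, i ≠ j → (r i).1 ≠ (r j).1 := fun i j hij h =>
    hij (t3 (((hr i).trans (congrArg some (Subtype.ext h))).trans (hr j).symm))
  have nx : ∀ (v : S) i, x i ≠ v.1 := fun v i h => v.2 ⟨i, h⟩
  have A12 : M.Adj s1 s2 := L1 _ _ (hs1 ▸ hs2 ▸ t2 1 2 (by decide))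
  have A1r : M.Adj s1 (r 1) := L1 _ _ (hs1 ▸ hr 1 ▸ t6 1)
  have A2r : M.Adj s2 (r 2) := L1 _ _ (hs2 ▸ hr 2 ▸ t6 2)
  have Arr : ∀ i j, i ≠ j → M.Adj (r i).1 (r j).1 := fun i j hij =>
    L1 _ _ (hr i ▸ hr j ▸ t4 i j hij)
  obtain ⟨i1, hi1⟩ := L2 s1 (hs1 ▸ t0 ▸ t2 1 0 (by decide))
  obtain ⟨i2, hi2⟩ := L2 s2 (hs2 ▸ t0 ▸ t2 2 0 (by decide))
  obtain ⟨k, hk⟩ := L2 (r 0) (hr 0 ▸ t0 ▸ adj_symm M' (t6 0))
  have m12 : i1 ≠ i2 := fun h => n12 (by rw [hi1, hi2, h])
  have m1k : i1 ≠ k := fun h => n1r 0 (by rw [hi1, hk, h])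
  have m2k : i2 ≠ k := fun h => n2r 0 (by rw [hi2, hk, h])
  have B1 : M.Adj (x i1) s1 := by rw [hi1]; exact hxy i1
  have B2 : M.Adj (x i2) s2 := by rw [hi2]; exact hxy i2
  have Bk : M.Adj (x k) (r 0) := by rw [hk]; exact hxy k
  have C12 : M.Adj (x i1) (x i2) := hxadj _ _ m12
  have C1k : M.Adj (x i1) (x k) := hxadj _ _ m1k
  have C2k : M.Adj (x i2) (x k) := hxadj _ _ m2k
  have X12 : x i1 ≠ x i2 := fun h => m12 (hxinj h)
  have X1k : x i1 ≠ x k := fun h => m1k (hxinj h)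
  have X2k : x i2 ≠ x k := fun h => m2k (hxinj h)
  refine build M h8 adjH (by decide)
    ![x i1, s1.1, (r 1).1, x i2, s2.1, (r 2).1, x k, (r 0).1] ?_ ?_
  · intro i j h
    fin_cases i <;> fin_cases j <;> first
      | rfl
      | exact absurd h ‹_ ≠ _›
      | exact absurd h.symm ‹_ ≠ _›
      | exact absurd h (n1r _)
      | exact absurd h.symm (n1r _)
      | exact absurd h (n2r _)
      | exact absurd h.symm (n2r _)
      | exact absurd h (nrr _ _ (by decide))
      | exact absurd h (nx _ _)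
      | exact absurd h.symm (nx _ _)
  · intro i j h
    fin_cases i <;> fin_cases j <;> first
      | exact absurd h (by decide)
      | exact A12
      | exact adj_symm M A12
      | exact A1r
      | exact adj_symm M A1r
      | exact A2r
      | exact adj_symm M A2r
      | exact Arr _ _ (by decide)
      | exact B1
      | exact adj_symm M B1
      | exact B2
      | exact adj_symm M B2
      | exact Bk
      | exact adj_symm M Bk
      | exact C12
      | exact adj_symm M C12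
      | exact C1k
      | exact adj_symm M C1k
      | exact C2k
      | exact adj_symm M C2k

end Eight

open Eight in
/-- EIGHT. -/
theorem specEight (hSimple : SpecSimple) (hJ : SpecJC3) (hDis : SpecDis) (hCtr : SpecCtr)
    (hSix : SpecSix) : SpecEight := by
  intro V _ M hT hP h8
  by_cases h3 : ∀ d, M.ph^[3] d ≠ d
  · obtain ⟨hl, hs⟩ := hSimple V M hT (by omega)
    have hN := noTri_of hJ hT hP (by omega) h3
    have h4 := (hDis V M hT hP (by omega)).2.2.1 h3 h8
    have hne : Nonempty V := by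
      by_contra hne
      rw [not_nonempty_iff] at hne
      rw [Nat.card_of_isEmpty] at h8
      omega
    obtain ⟨v⟩ := hne
    obtain ⟨e, he⟩ := cube h8 hl hs hN h4 (v, 0)
    exact ⟨e, Or.inl he⟩
  · push Not at h3
    obtain ⟨d, hd⟩ := h3
    obtain ⟨e, he⟩ := tri M hT hP h8 hSimple hCtr hSix d hd
    exact ⟨e, Or.inr he⟩

end Acyc75
end

section
/-!
# MP_1e9f59_co : construction of embeddings of configurations

A configuration with distinct vertices and the right inner edges is an embedding unless two of its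
outgoing darts are matched with each other; for four outgoing edges the latter is excluded by
three-edge-connectivity.
-/
set_option autoImplicit false

namespace Acyc75

namespace EmbPre

variable {V : Type} {M : CMap V} {m k : ℕ}

/-- A symmetric table; `bd j` is the place of the `j`-th outgoing dart. -/
structure Tb (T : Tab m k) (bd : Fin k → Fin m × Fin 3) : Prop where
  sym : ∀ i t q, T i t = .inl q → T q.1 q.2 = .inl (i, t)
  bdj : ∀ j, T (bd j).1 (bd j).2 = .inr j
  uniq : ∀ i t j, T i t = .inr j → (i, t) = bd j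

/-- Distinct vertices and the right inner edges. -/
structure Pre (M : CMap V) (T : Tab m k) (x : Fin m → V) (pos : Fin m → Fin 3) : Prop where
  inj : Function.Injective x
  inn : ∀ i t q, T i t = .inl q → M.a (x i, pos i + t) = (x q.1, pos q.1 + q.2)

/-- the dart at a place of the configuration -/
def dt (x : Fin m → V) (pos : Fin m → Fin 3) (p : Fin m × Fin 3) : Dt V :=
  (x p.1, pos p.1 + p.2)

theorem dt_inj {x : Fin m → V} {pos : Fin m → Fin 3} (hx : Function.Injective x)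
    {p q : Fin m × Fin 3} (h : dt x pos p = dt x pos q) : p = q := by
  obtain ⟨i, t⟩ := p
  obtain ⟨i', t'⟩ := q
  have h1 : i = i' := hx (congrArg Prod.fst h)
  subst h1
  have h2 : pos i + t = pos i + t' := congrArg Prod.snd h
  rw [add_left_cancel h2]

theorem exists_dt {x : Fin m → V} {pos : Fin m → Fin 3} {d : Dt V} (h : d.1 ∈ Set.range x) :
    ∃ p, d = dt x pos p := by
  obtain ⟨i, hi⟩ := h
  refine ⟨(i, d.2 - pos i), ?_⟩
  unfold dt
  simp only
  rw [hi, add_sub_cancel]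

variable {T : Tab m k} {x : Fin m → V} {pos : Fin m → Fin 3} {bd : Fin k → Fin m × Fin 3}

/-- An outgoing dart which ends in the configuration is matched with another outgoing dart. -/
theorem Pre.matched (h : Pre M T x pos) (hT : Tb T bd) (j : Fin k)
    (hj : (M.a (dt x pos (bd j))).1 ∈ Set.range x) :
    ∃ j', j' ≠ j ∧ M.a (dt x pos (bd j)) = dt x pos (bd j') := by
  obtain ⟨p, hp⟩ := exists_dt (pos := pos) hj
  cases hTp : T p.1 p.2 with
  | inl q =>
    exfalso
    have h2 : M.a (dt x pos p) = dt x pos q := h.inn p.1 p.2 q hTp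
    rw [← hp, M.inv] at h2
    have h3 := dt_inj h.inj h2
    have h4 := hT.bdj j
    have h5 := hT.sym p.1 p.2 q hTp
    rw [← h3, h4] at h5
    simp at h5
  | inr j' =>
    have h2 : p = bd j' := hT.uniq p.1 p.2 j' hTp
    refine ⟨j', ?_, by rw [hp, h2]⟩
    rintro rfl
    rw [h2] at hp
    exact M.ne _ hp

theorem Tb.bd_inj (hT : Tb T bd) : Function.Injective bd := by
  intro j j' h
  have h1 := hT.bdj j
  rw [h, hT.bdj j'] at h1
  exact (Sum.inr_injective h1).symm

/-- the cut darts of the configuration are outgoing darts -/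
theorem Pre.cut_sub (h : Pre M T x pos) {d : Dt V} (h1 : d.1 ∈ Set.range x)
    (h2 : (M.a d).1 ∉ Set.range x) (hT : Tb T bd) : ∃ j, d = dt x pos (bd j) := by
  obtain ⟨p, hp⟩ := exists_dt (pos := pos) h1
  cases hTp : T p.1 p.2 with
  | inl q =>
    exfalso
    have h3 : M.a (dt x pos p) = dt x pos q := h.inn p.1 p.2 q hTp
    apply h2
    rw [hp, h3]
    exact ⟨q.1, rfl⟩
  | inr j => exact ⟨j, by rw [hp, ← hT.uniq p.1 p.2 j hTp]⟩

/-- If two outgoing darts are matched then the cut of the configuration is at most `k - 2`. -/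
theorem Pre.cut_le [Finite V] (h : Pre M T x pos) (hT : Tb T bd) {j j' : Fin k} (hne : j' ≠ j)
    (hj : M.a (dt x pos (bd j)) = dt x pos (bd j')) : M.cut (Set.range x) + 2 ≤ k := by
  classical
  have h1 : M.cut (Set.range x) ≤
      ((fun i => dt x pos (bd i)) '' (({j, j'} : Finset (Fin k))ᶜ : Finset (Fin k))).ncard := by
    refine M.cut_le_of_subset _ _ fun d hd1 hd2 => ?_
    obtain ⟨i, rfl⟩ := h.cut_sub hd1 hd2 hT
    refine ⟨i, ?_, rfl⟩
    simp only [Finset.coe_compl, Finset.coe_insert, Finset.coe_singleton, Set.mem_compl_iff,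
      Set.mem_insert_iff, Set.mem_singleton_iff, not_or]
    constructor
    · rintro rfl
      exact hd2 (by rw [hj]; exact ⟨_, rfl⟩)
    · rintro rfl
      apply hd2
      rw [← hj, M.inv]
      exact ⟨_, rfl⟩
  have h2 : ((fun i => dt x pos (bd i)) '' (({j, j'} : Finset (Fin k))ᶜ : Finset (Fin k))).ncard ≤
      (({j, j'} : Finset (Fin k))ᶜ : Finset (Fin k)).card := by
    refine (Set.ncard_image_le (Set.toFinite _)).trans ?_
    rw [Set.ncard_coe_finset]
  have h3 : (({j, j'} : Finset (Fin k))ᶜ : Finset (Fin k)).card = k - 2 := by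
    rw [Finset.card_compl, Fintype.card_fin, Finset.card_pair hne.symm]
  have h4 : 2 ≤ k := by
    have := Finset.card_le_univ ({j, j'} : Finset (Fin k))
    rw [Finset.card_pair hne.symm, Fintype.card_fin] at this
    exact this
  omega

/-- The embedding, if the outgoing darts end outside. -/
def Pre.emb (h : Pre M T x pos) (hT : Tb T bd)
    (hout : ∀ j, (M.a (dt x pos (bd j))).1 ∉ Set.range x) : M.Emb T where
  x := x
  pos := pos
  b := fun j => M.a (dt x pos (bd j))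
  inj := h.inj
  out := hout
  tgt := by
    intro i t
    cases hTp : T i t with
    | inl q => exact h.inn i t q hTp
    | inr j =>
      change M.a (dt x pos (i, t)) = M.a (dt x pos (bd j))
      rw [hT.uniq i t j hTp]

theorem range_ne_univ [Finite V] (hm : m < Nat.card V) : Set.range x ≠ Set.univ := by
  intro h
  have h1 : Function.Surjective x := Set.range_eq_univ.1 h
  have h2 := Nat.card_le_card_of_surjective x h1
  rw [Nat.card_fin] at h2
  omega

/-- With four outgoing edges they end outside. -/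
theorem Pre.out4 [Finite V] {T : Tab m 4} {bd : Fin 4 → Fin m × Fin 3} (h : Pre M T x pos)
    (hT : Tb T bd) (hM : M.TEC) (hm0 : 0 < m) (hm : m < Nat.card V) (j : Fin 4) :
    (M.a (dt x pos (bd j))).1 ∉ Set.range x := by
  intro hj
  obtain ⟨j', hne, h1⟩ := h.matched hT j hj
  have h2 := h.cut_le hT hne h1
  have h3 := hM (Set.range x) ⟨x ⟨0, hm0⟩, _, rfl⟩ (range_ne_univ hm)
  omega

/-- With four outgoing edges we get an embedding. -/
theorem Pre.emb4 [Finite V] {T : Tab m 4} {bd : Fin 4 → Fin m × Fin 3} (h : Pre M T x pos)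
    (hT : Tb T bd) (hM : M.TEC) (hm0 : 0 < m) (hm : m < Nat.card V) :
    ∃ E : M.Emb T, E.x = x ∧ E.pos = pos ∧ ∀ j, E.b j = M.a (dt x pos (bd j)) :=
  ⟨h.emb hT (h.out4 hT hM hm0 hm), rfl, rfl, fun _ => rfl⟩

/-! ### The concrete tables -/

theorem tb_sq : Tb Tsq ![(0, 1), (1, 1), (2, 1), (3, 1)] :=
  ⟨by decide, by decide, by decide⟩

theorem tb_x4 : Tb Tx4 ![(0, 1), (1, 1), (3, 1), (3, 2)] :=
  ⟨by decide, by decide, by decide⟩

theorem tb_x6 : Tb Tx6 ![(0, 1), (1, 1), (3, 1), (4, 1)] :=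
  ⟨by decide, by decide, by decide⟩

theorem tb_dA : Tb TdA ![(2, 1), (3, 1), (4, 1), (5, 1)] :=
  ⟨by decide, by decide, by decide⟩

theorem tb_dB : Tb TdB ![(3, 1), (4, 1), (5, 1), (2, 1)] :=
  ⟨by decide, by decide, by decide⟩

theorem tb_p : Tb Tp ![(0, 1), (1, 1), (2, 1), (3, 1), (4, 1)] :=
  ⟨by decide, by decide, by decide⟩

theorem tb_53 : Tb T53 ![(0, 1), (1, 1), (2, 1), (5, 1), (6, 1), (7, 1)] :=
  ⟨by decide, by decide, by decide⟩

theorem tb_54 : Tb T54 ![(0, 1), (1, 1), (2, 1), (5, 1), (6, 1), (7, 1), (8, 1)] :=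
  ⟨by decide, by decide, by decide⟩

/-! ### Darts as functions -/

/-- A dart with a given vertex and index. -/
theorem rot_eq (d : Dt V) : rot d = (d.1, d.2 + 1) := rfl

theorem rot_rot_eq (d : Dt V) : rot (rot d) = (d.1, d.2 + 2) := by
  obtain ⟨v, t⟩ := d
  have : t + 1 + 1 = t + 2 := by decide +revert
  simp only [rot, this]

/-- the places of the three darts at a vertex -/
theorem dt0 (x : Fin m → V) (pos : Fin m → Fin 3) (i : Fin m) :
    dt x pos (i, 0) = (x i, pos i) := by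
  simp [dt]

theorem dt_of (D : Fin m → Dt V) (i : Fin m) (t : Fin 3) :
    dt (fun i => (D i).1) (fun i => (D i).2) (i, t) = rot^[(t : ℕ)] (D i) := by
  fin_cases t
  · simp [dt]
  · rfl
  · change ((D i).1, (D i).2 + 2) = rot (rot (D i))
    rw [rot_rot_eq]

/-- The last dart of the face before `d`. -/
theorem a_of_ph {d e : Dt V} (h : M.ph d = e) : M.a d = rot (rot e) := by
  rw [← h, CMap.ph_def, rot_rot_rot]

theorem a_rot_rot_of_ph {d e : Dt V} (h : M.ph d = e) : M.a (rot (rot e)) = d := by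
  rw [← a_of_ph h, M.inv]

end EmbPre

end Acyc75
end

section
/-!
# MP_1e9f59_co : X4
-/
set_option autoImplicit false

namespace Acyc75

open CMap EmbPre

namespace EmbPre

variable {V : Type} {M : CMap V} {m k : ℕ}

/-- `Pre` for a family of darts. -/
theorem pre_of {T : Tab m k} (D : Fin m → Dt V) (inj : Function.Injective fun i => (D i).1)
    (inn : ∀ (i : Fin m) (t : Fin 3), Sum.elim (fun q : Fin m × Fin 3 =>
      M.a (rot^[(t : ℕ)] (D i)) = rot^[(q.2 : ℕ)] (D q.1)) (fun _ => True) (T i t)) :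
    Pre M T (fun i => (D i).1) (fun i => (D i).2) where
  inj := inj
  inn := by
    intro i t q h
    have h1 := inn i t
    rw [h] at h1
    change M.a (dt (fun i => (D i).1) (fun i => (D i).2) (i, t)) =
      dt (fun i => (D i).1) (fun i => (D i).2) (q.1, q.2)
    rw [dt_of, dt_of]
    exact h1

end EmbPre

namespace X4

variable {V : Type} [Finite V] {M : CMap V}

/-- the triangle of a face of length three -/
structure Tri (M : CMap V) (D0 D1 D2 : Dt V) : Prop where
  p0 : M.ph D0 = D1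
  p1 : M.ph D1 = D2
  p2 : M.ph D2 = D0

namespace Tri

variable {D0 D1 D2 : Dt V}

omit [Finite V] in
theorem of_ph {d : Dt V} (h : M.ph^[3] d = d) : Tri M d (M.ph d) (M.ph^[2] d) :=
  ⟨rfl, rfl, h⟩

omit [Finite V] in
theorem cyc (h : Tri M D0 D1 D2) : Tri M D1 D2 D0 := ⟨h.p1, h.p2, h.p0⟩

omit [Finite V] in
theorem a0 (h : Tri M D0 D1 D2) : M.a D0 = rot (rot D1) := a_of_ph h.p0
omit [Finite V] in
theorem a1 (h : Tri M D0 D1 D2) : M.a D1 = rot (rot D2) := a_of_ph h.p1
omit [Finite V] in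
theorem a2 (h : Tri M D0 D1 D2) : M.a D2 = rot (rot D0) := a_of_ph h.p2
omit [Finite V] in
theorem r0 (h : Tri M D0 D1 D2) : M.a (rot (rot D0)) = D2 := a_rot_rot_of_ph h.p2
omit [Finite V] in
theorem r1 (h : Tri M D0 D1 D2) : M.a (rot (rot D1)) = D0 := a_rot_rot_of_ph h.p0
omit [Finite V] in
theorem r2 (h : Tri M D0 D1 D2) : M.a (rot (rot D2)) = D1 := a_rot_rot_of_ph h.p1

omit [Finite V] in
theorem ne01 (h : Tri M D0 D1 D2) (hl : ∀ d, (M.a d).1 ≠ d.1) : D0.1 ≠ D1.1 := by
  intro he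
  apply hl D0
  rw [h.a0]
  exact he.symm

/-- the cut of the three vertices -/
theorem cut_add (h : Tri M D0 D1 D2) (hl : ∀ d, (M.a d).1 ≠ d.1) {S : Set V}
    (h0 : D0.1 ∉ S) (h1 : D1.1 ∉ S) (h2 : D2.1 ∉ S)
    (hb0 : (M.a (rot D0)).1 ∈ S) (hb1 : (M.a (rot D1)).1 ∈ S) :
    M.cut (S ∪ {D0.1, D1.1, D2.1}) + 1 ≤ M.cut S := by
  have hne : M.a (rot D0) ≠ M.a (rot D1) := by
    intro he
    have := rot_injective (M.a_injective he)
    exact h.ne01 hl (by rw [this])
  have hsub : {d : Dt V | d.1 ∈ S ∪ {D0.1, D1.1, D2.1} ∧ (M.a d).1 ∉ S ∪ {D0.1, D1.1, D2.1}} ⊆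
      insert (rot D2) ({d : Dt V | d.1 ∈ S ∧ (M.a d).1 ∉ S} \ {M.a (rot D0), M.a (rot D1)}) := by
    rintro d ⟨hd1, hd2⟩
    simp only [Set.mem_union, Set.mem_insert_iff, Set.mem_singleton_iff, not_or] at hd1 hd2
    obtain ⟨hd2, hd3, hd4, hd5⟩ := hd2
    rcases hd1 with hd1 | hd1 | hd1 | hd1
    · right
      refine ⟨⟨hd1, hd2⟩, ?_⟩
      rintro (rfl | rfl)
      · apply hd3; rw [M.inv]; rfl
      · apply hd4; rw [M.inv]; rfl
    · exfalso
      rcases dart_cases hd1 with rfl | rfl | rfl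
      · apply hd4; rw [h.a0]; rfl
      · exact hd2 hb0
      · apply hd5; rw [h.r0]
    · exfalso
      rcases dart_cases hd1 with rfl | rfl | rfl
      · apply hd5; rw [h.a1]; rfl
      · exact hd2 hb1
      · apply hd3; rw [h.r1]
    · rcases dart_cases hd1 with rfl | rfl | rfl
      · exfalso; apply hd3; rw [h.a2]; rfl
      · left; rfl
      · exfalso; apply hd4; rw [h.r2]
  have e1 : M.cut (S ∪ {D0.1, D1.1, D2.1}) ≤
      ({d : Dt V | d.1 ∈ S ∧ (M.a d).1 ∉ S} \ {M.a (rot D0), M.a (rot D1)}).ncard + 1 :=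
    (Set.ncard_le_ncard hsub (Set.toFinite _)).trans (Set.ncard_insert_le _ _)
  have hpair : ({M.a (rot D0), M.a (rot D1)} : Set (Dt V)) ⊆
      {d : Dt V | d.1 ∈ S ∧ (M.a d).1 ∉ S} := by
    rintro d (rfl | rfl)
    · exact ⟨hb0, by rw [M.inv]; exact h0⟩
    · exact ⟨hb1, by rw [M.inv]; exact h1⟩
  have e2 := Set.ncard_sdiff_add_ncard_of_subset hpair (Set.toFinite _)
  rw [Set.ncard_pair hne] at e2
  unfold CMap.cut at e1 ⊢
  omega

/-- the outer neighbours of two vertices of a triangle are different -/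
theorem out_ne (h : Tri M D0 D1 D2) (hl : ∀ d, (M.a d).1 ≠ d.1) (hM : M.TEC)
    (hV : 4 < Nat.card V) : (M.a (rot D0)).1 ≠ (M.a (rot D1)).1 := by
  intro he
  have hne : M.a (rot D0) ≠ M.a (rot D1) := by
    intro he
    have := rot_injective (M.a_injective he)
    exact h.ne01 hl (by rw [this])
  set w := (M.a (rot D0)).1 with hw
  -- the third dart at `w`
  obtain ⟨z, hz⟩ : ∃ z : Dt V, ∀ d : Dt V, d.1 = w → d = M.a (rot D0) ∨ d = M.a (rot D1) ∨ d = z := by
    rcases dart_cases (d := M.a (rot D0)) (d' := M.a (rot D1)) he.symm with h1 | h1 | h1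
    · exact absurd h1.symm hne
    · refine ⟨rot (rot (M.a (rot D0))), fun d hd => ?_⟩
      rcases dart_cases (d := M.a (rot D0)) hd with h2 | h2 | h2
      · exact Or.inl h2
      · exact Or.inr (Or.inl (h2.trans h1.symm))
      · exact Or.inr (Or.inr h2)
    · refine ⟨rot (M.a (rot D0)), fun d hd => ?_⟩
      rcases dart_cases (d := M.a (rot D0)) hd with h2 | h2 | h2
      · exact Or.inl h2
      · exact Or.inr (Or.inr h2)
      · exact Or.inr (Or.inl (h2.trans h1.symm))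
  have hcut : M.cut {D0.1, D1.1, D2.1, w} ≤ ({rot D2, z} : Set (Dt V)).ncard := by
    refine M.cut_le_of_subset _ _ fun d hd1 hd2 => ?_
    simp only [Set.mem_insert_iff, Set.mem_singleton_iff, not_or] at hd1 hd2
    obtain ⟨hd3, hd4, hd5, hd6⟩ := hd2
    rcases hd1 with hd1 | hd1 | hd1 | hd1
    · exfalso
      rcases dart_cases hd1 with rfl | rfl | rfl
      · apply hd4; rw [h.a0]; rfl
      · exact hd6 rfl
      · apply hd5; rw [h.r0]
    · exfalso
      rcases dart_cases hd1 with rfl | rfl | rfl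
      · apply hd5; rw [h.a1]; rfl
      · exact hd6 he.symm
      · apply hd3; rw [h.r1]
    · rcases dart_cases hd1 with rfl | rfl | rfl
      · exfalso; apply hd3; rw [h.a2]; rfl
      · left; rfl
      · exfalso; apply hd4; rw [h.r2]
    · rcases hz d hd1 with rfl | rfl | rfl
      · exfalso; apply hd3; rw [M.inv]; rfl
      · exfalso; apply hd4; rw [M.inv]; rfl
      · right; rfl
  have h2 : ({rot D2, z} : Set (Dt V)).ncard ≤ 2 := by
    refine (Set.ncard_insert_le _ _).trans ?_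
    rw [Set.ncard_singleton]
  have h3 : ({D0.1, D1.1, D2.1, w} : Set V) ≠ Set.univ := by
    intro hu
    have h4 : ({D0.1, D1.1, D2.1, w} : Set V).ncard ≤ 4 := by
      refine (Set.ncard_insert_le _ _).trans ?_
      have := (Set.ncard_insert_le D1.1 ({D2.1, w} : Set V))
      have h5 := (Set.ncard_insert_le D2.1 ({w} : Set V))
      rw [Set.ncard_singleton] at h5
      omega
    rw [hu, Set.ncard_univ] at h4
    omega
  have h4 := hM _ ⟨D0.1, Or.inl rfl⟩ h3
  omega

/-- the common part of the cut conditions -/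
theorem key (h : Tri M D0 D1 D2) (hl : ∀ d, (M.a d).1 ≠ d.1) (hM : M.TEC) (hN : M.NT5)
    (hV : 4 < Nat.card V) {S : Set V}
    (h0 : D0.1 ∉ S) (h1 : D1.1 ∉ S) (h2 : D2.1 ∉ S)
    (hb0 : (M.a (rot D0)).1 ∈ S) (hb1 : (M.a (rot D1)).1 ∈ S)
    {v : V} (hv : v ∉ S ∪ {D0.1, D1.1, D2.1}) (hS : M.cut S ≤ 4) :
    M.cut (S ∪ {D0.1, D1.1, D2.1})ᶜ = 3 ∧ (S ∪ {D0.1, D1.1, D2.1})ᶜ.ncard < 5 ∧
      (S ∪ {D0.1, D1.1, D2.1})ᶜ.ncard % 2 = 1 := by
  have e1 := h.cut_add hl h0 h1 h2 hb0 hb1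
  have e2 := hM (S ∪ {D0.1, D1.1, D2.1}) ⟨_, Or.inl hb0⟩ (fun hu => hv (by rw [hu]; trivial))
  have e3 : M.cut (S ∪ {D0.1, D1.1, D2.1}) = 3 := by omega
  have e4 : M.cut (S ∪ {D0.1, D1.1, D2.1})ᶜ = 3 := by rw [Cut.cut_compl, e3]
  have e5 := Cut.cut_parity M (S ∪ {D0.1, D1.1, D2.1})ᶜ
  refine ⟨e4, ?_, by omega⟩
  rcases hN _ e3 with h5 | h5
  · exfalso
    have hsub : ({(M.a (rot D0)).1, (M.a (rot D1)).1, D0.1, D1.1, D2.1} : Set V) ⊆
        S ∪ {D0.1, D1.1, D2.1} := by
      rintro x (rfl | rfl | hx)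
      · exact Or.inl hb0
      · exact Or.inl hb1
      · exact Or.inr hx
    have h6 := Set.ncard_le_ncard hsub (Set.toFinite _)
    have h7 : ({(M.a (rot D0)).1, (M.a (rot D1)).1, D0.1, D1.1, D2.1} : Set V).ncard = 5 := by
      have n01 := h.ne01 hl
      have n12 := h.cyc.ne01 hl
      have n20 := h.cyc.cyc.ne01 hl
      rw [Set.ncard_insert_of_notMem, Set.ncard_insert_of_notMem, Set.ncard_insert_of_notMem,
        Set.ncard_pair n12]
      · rintro (hx | hx)
        · exact n01 hx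
        · exact n20 hx.symm
      · rintro (hx | hx | hx)
        · exact h0 (hx ▸ hb1)
        · exact h1 (hx ▸ hb1)
        · exact h2 (hx ▸ hb1)
      · rintro (hx | hx | hx | hx)
        · exact h.out_ne hl hM hV hx
        · exact h0 (hx ▸ hb0)
        · exact h1 (hx ▸ hb0)
        · exact h2 (hx ▸ hb0)
    omega
  · exact h5

end Tri

end X4

open X4

theorem specX4 (hJ : SpecJC3) : SpecX4 := by
  intro V _ M d hM hP hN hV hd hfree
  obtain ⟨hl, hp⟩ := specSimple V M hM (by omega)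
  have h := Tri.of_ph hd
  set D0 := d with hD0
  set D1 := M.ph d with hD1
  set D2 := M.ph^[2] d with hD2
  set D3 := M.a (rot D2) with hD3
  have n01 := h.ne01 hl
  have n12 := h.cyc.ne01 hl
  have n20 := h.cyc.cyc.ne01 hl
  have n32 : D3.1 ≠ D2.1 := hl (rot D2)
  have n30 : D3.1 ≠ D0.1 := by
    intro he
    refine rot_ne D2 (hp (rot D2) D2 rfl ?_)
    rw [h.a2]
    exact he
  have n31 : D3.1 ≠ D1.1 := by
    intro he
    refine rot_ne (rot D2) (hp (rot (rot D2)) (rot D2) rfl ?_)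
    rw [h.r2]
    exact he.symm
  have a3 : M.a D3 = rot D2 := M.inv _
  have hpre : Pre M Tx4 (fun i => ((![D0, D1, D2, D3] : Fin 4 → Dt V) i).1)
      (fun i => ((![D0, D1, D2, D3] : Fin 4 → Dt V) i).2) := by
    refine pre_of (T := Tx4) ![D0, D1, D2, D3] ?_ ?_
    · intro i j hij
      fin_cases i <;> fin_cases j
      exacts [rfl, absurd hij n01, absurd hij n20.symm, absurd hij n30.symm,
        absurd hij n01.symm, rfl, absurd hij n12, absurd hij n31.symm,
        absurd hij n20, absurd hij n12.symm, rfl, absurd hij n32.symm,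
        absurd hij n30, absurd hij n31, absurd hij n32, rfl]
    · intro i t
      fin_cases i <;> fin_cases t
      exacts [h.a0, trivial, h.r0, h.a1, trivial, h.r1, h.a2, rfl, h.r2, a3, trivial, trivial]
  obtain ⟨E, hx, hpos, hb⟩ := hpre.emb4 tb_x4 hM (by norm_num) (by omega)
  have b0 : E.b 0 = M.a (rot D0) := hb 0
  have b1 : E.b 1 = M.a (rot D1) := hb 1
  have b2 : E.b 2 = M.a (rot D3) := hb 2
  have b3 : E.b 3 = M.a (rot (rot D3)) := by
    rw [hb 3]
    change M.a (dt _ _ (3, 2)) = _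
    rw [dt_of]
    rfl
  have hx0 : E.x 0 = D0.1 := by rw [hx]; rfl
  have hx1 : E.x 1 = D1.1 := by rw [hx]; rfl
  have hx2 : E.x 2 = D2.1 := by rw [hx]; rfl
  have hx3 : E.x 3 = D3.1 := by rw [hx]; rfl
  refine ⟨E, ?_⟩
  intro S hS s0 s1 s2 s3
  by_contra hcut
  have hS0 : D0.1 ∉ S := fun hm => hS _ hm ⟨0, hx0⟩
  have hS1 : D1.1 ∉ S := fun hm => hS _ hm ⟨1, hx1⟩
  have hS2 : D2.1 ∉ S := fun hm => hS _ hm ⟨2, hx2⟩
  have hS3 : D3.1 ∉ S := fun hm => hS _ hm ⟨3, hx3⟩
  rw [b0] at s0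
  rw [b1] at s1
  rw [b2] at s2
  rw [b3] at s3
  have ho : ∀ j, ∀ v ∈ ({D0.1, D1.1, D2.1, D3.1} : Set V), (E.b j).1 ≠ v := by
    intro j v hv he
    apply E.out j
    rw [he]
    rcases hv with rfl | rfl | rfl | rfl
    · exact ⟨0, hx0⟩
    · exact ⟨1, hx1⟩
    · exact ⟨2, hx2⟩
    · exact ⟨3, hx3⟩
  have h3W : D3.1 ∉ S ∪ {D0.1, D1.1, D2.1} := by
    rintro (hm | hm | hm | hm)
    · exact hS3 hm
    · exact n30 hm
    · exact n31 hm
    · exact n32 hm
  obtain ⟨c1, c2, c3⟩ := h.key hl hM hN (by omega) hS0 hS1 hS2 s0 s1 h3W (by omega)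
  set W := (S ∪ {D0.1, D1.1, D2.1})ᶜ with hW
  set v := (M.a (rot D3)).1 with hv
  set w := (M.a (rot (rot D3))).1 with hw
  have hvW : v ∈ W := by
    rintro (hm | hm | hm | hm)
    · exact s2 hm
    · exact ho 2 D0.1 (Or.inl rfl) (by rw [b2]; exact hm)
    · exact ho 2 D1.1 (Or.inr (Or.inl rfl)) (by rw [b2]; exact hm)
    · exact ho 2 D2.1 (Or.inr (Or.inr (Or.inl rfl))) (by rw [b2]; exact hm)
  have hwW : w ∈ W := by
    rintro (hm | hm | hm | hm)
    · exact s3 hm
    · exact ho 3 D0.1 (Or.inl rfl) (by rw [b3]; exact hm)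
    · exact ho 3 D1.1 (Or.inr (Or.inl rfl)) (by rw [b3]; exact hm)
    · exact ho 3 D2.1 (Or.inr (Or.inr (Or.inl rfl))) (by rw [b3]; exact hm)
  have nv : D3.1 ≠ v := (hl (rot D3)).symm
  have nw : D3.1 ≠ w := (hl (rot (rot D3))).symm
  have nvw : v ≠ w := by
    intro he
    exact rot_ne (rot D3) (hp (rot (rot D3)) (rot D3) rfl he.symm)
  have hsub : ({D3.1, v, w} : Set V) ⊆ W := by
    rintro x (rfl | rfl | rfl)
    · exact h3W
    · exact hvW
    · exact hwW
  have hcard : ({D3.1, v, w} : Set V).ncard = 3 := by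
    rw [Set.ncard_insert_of_notMem, Set.ncard_pair nvw]
    rintro (hx | hx)
    · exact nv hx
    · exact nw hx
  have hWeq : ({D3.1, v, w} : Set V) = W := by
    refine Set.eq_of_subset_of_ncard_le hsub ?_ (Set.toFinite _)
    have := Set.ncard_le_ncard hsub (Set.toFinite _)
    omega
  -- the darts at `v` and `w` to the vertex `3`
  set g2 := M.a (rot D3) with hg2
  set g3 := M.a (rot (rot D3)) with hg3
  have ag2 : M.a g2 = rot D3 := M.inv _
  have ag3 : M.a g3 = rot (rot D3) := M.inv _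
  -- a dart from `v` to `w`
  obtain ⟨e, he1, he2⟩ : ∃ e : Dt V, e.1 = v ∧ (M.a e).1 = w := by
    by_contra hno
    push Not at hno
    have hno' : ∀ e : Dt V, e.1 = w → (M.a e).1 ≠ v := by
      intro e h1 h2
      exact hno (M.a e) h2 (by rw [M.inv]; exact h1)
    have hin : ({rot g2, rot (rot g2), rot g3, rot (rot g3)} : Set (Dt V)) ⊆
        {d : Dt V | d.1 ∈ W ∧ (M.a d).1 ∉ W} := by
      have hh : ∀ x : V, x ≠ D3.1 → x ≠ v → x ≠ w → x ∉ W := by
        intro x h1 h2 h3 h4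
        rw [← hWeq] at h4
        rcases h4 with h4 | h4 | h4
        · exact h1 h4
        · exact h2 h4
        · exact h3 h4
      rintro x (rfl | rfl | rfl | rfl)
      · refine ⟨hvW, hh _ ?_ (hl _) (hno _ rfl)⟩
        intro he
        exact rot_ne g2 (hp (rot g2) g2 rfl (by rw [he, ag2]; rfl))
      · refine ⟨hvW, hh _ ?_ (hl _) (hno _ rfl)⟩
        intro he
        exact rot_rot_ne g2 (hp (rot (rot g2)) g2 rfl (by rw [he, ag2]; rfl))
      · refine ⟨hwW, hh _ ?_ (hno' _ rfl) (hl _)⟩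
        intro he
        exact rot_ne g3 (hp (rot g3) g3 rfl (by rw [he, ag3]; rfl))
      · refine ⟨hwW, hh _ ?_ (hno' _ rfl) (hl _)⟩
        intro he
        exact rot_rot_ne g3 (hp (rot (rot g3)) g3 rfl (by rw [he, ag3]; rfl))
    have h4 : ({rot g2, rot (rot g2), rot g3, rot (rot g3)} : Set (Dt V)).ncard = 4 := by
      have hd : ∀ x y : Dt V, x.1 = v → y.1 = w → x ≠ y := by
        rintro x y h1 h2 rfl
        exact nvw (h1.symm.trans h2)
      rw [Set.ncard_insert_of_notMem, Set.ncard_insert_of_notMem,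
        Set.ncard_pair (rot_ne (rot g3)).symm]
      · rintro (hx | hx)
        · exact hd (rot (rot g2)) (rot g3) rfl rfl hx
        · exact hd (rot (rot g2)) (rot (rot g3)) rfl rfl hx
      · rintro (hx | hx | hx)
        · exact rot_ne (rot g2) hx.symm
        · exact hd (rot g2) (rot g3) rfl rfl hx
        · exact hd (rot g2) (rot (rot g3)) rfl rfl hx
    have h5 := Set.ncard_le_ncard hin (Set.toFinite _)
    unfold CMap.cut at c1
    omega
  have hfree' : ∀ x : Dt V, x.1 = D3.1 → M.ph^[3] x ≠ x := by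
    rintro ⟨y, t⟩ hy
    obtain rfl : y = D3.1 := hy
    exact hfree t
  rcases hJ V M hM hP (by omega) (rot D3) e g3 he1.symm he2 (by rw [ag3]; rfl) with
    ⟨f1, f2, f3⟩ | ⟨f1, f2, f3⟩
  · refine hfree' (rot D3) rfl ?_
    change M.ph (M.ph (M.ph (rot D3))) = rot D3
    rw [f1, f2, f3]
  · refine hfree' (M.a g3) (by rw [ag3]; rfl) ?_
    change M.ph (M.ph (M.ph (M.a g3))) = M.a g3
    rw [f2, f1, f3]

end Acyc75
end

section
/-!
# MP_1e9f59_co : EMB5
-/
set_option autoImplicit false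

namespace Acyc75

open CMap EmbPre

namespace Emb5

variable {V : Type} {M : CMap V}

theorem adj_symm {v w : V} (h : M.Adj v w) : M.Adj w v := by
  obtain ⟨i, hi⟩ := h
  refine ⟨(M.a (v, i)).2, ?_⟩
  have : (w, (M.a (v, i)).2) = M.a (v, i) := by rw [← hi]
  rw [this, M.inv]

theorem adj_dart (d : Dt V) : M.Adj d.1 (M.a d).1 := ⟨d.2, rfl⟩

theorem adj_of {d : Dt V} {w : V} (h : (M.a d).1 = w) : M.Adj d.1 w := ⟨d.2, h⟩

/-- girth conditions -/
structure Ctx (M : CMap V) : Prop where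
  hl : ∀ d, (M.a d).1 ≠ d.1
  hp : ∀ d d' : Dt V, d.1 = d'.1 → (M.a d).1 = (M.a d').1 → d = d'
  no3 : ∀ a b c, M.Adj a b → M.Adj b c → M.Adj c a → False
  no4 : ∀ a b c d, a ≠ c → b ≠ d → M.Adj a b → M.Adj b c → M.Adj c d → M.Adj d a → False
  no5 : ∀ d₀ d₁ d₂ d₃ d₄ : Dt V, (M.a d₀).1 = d₁.1 → (M.a d₁).1 = d₂.1 → (M.a d₂).1 = d₃.1 →
    (M.a d₃).1 = d₄.1 → (M.a d₄).1 = d₀.1 →
    d₀.1 ≠ d₂.1 → d₁.1 ≠ d₃.1 → d₂.1 ≠ d₄.1 → d₃.1 ≠ d₀.1 → d₄.1 ≠ d₁.1 →
    ¬ (M.ph d₀ = d₁ ∧ M.ph d₁ = d₂ ∧ M.ph d₂ = d₃ ∧ M.ph d₃ = d₄ ∧ M.ph d₄ = d₀) →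
    ¬ (M.ph (M.a d₁) = M.a d₀ ∧ M.ph (M.a d₂) = M.a d₁ ∧ M.ph (M.a d₃) = M.a d₂ ∧
      M.ph (M.a d₄) = M.a d₃ ∧ M.ph (M.a d₀) = M.a d₄) → False

theorem ctx [Finite V] (h3 : SpecJC3) (h4 : SpecJC4) (h5 : SpecJC5) (hM : M.TEC)
    (hP : M.Plan) (hV : 8 < Nat.card V) (f3 : ∀ d, M.ph^[3] d ≠ d) (f4 : ∀ d, M.ph^[4] d ≠ d) :
    Ctx M := by
  obtain ⟨hl, hp⟩ := specSimple V M hM (by omega)
  refine ⟨hl, hp, ?_, ?_, ?_⟩
  · rintro a b c ⟨i, hi⟩ ⟨j, hj⟩ ⟨k, hk⟩
    rcases h3 V M hM hP (by omega) (a, i) (b, j) (c, k) hi hj hk with ⟨g1, g2, g3⟩ | ⟨g1, g2, g3⟩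
    · refine f3 (a, i) ?_
      change M.ph (M.ph (M.ph (a, i))) = (a, i)
      rw [g1, g2, g3]
    · refine f3 (M.a (a, i)) ?_
      change M.ph (M.ph (M.ph (M.a (a, i)))) = M.a (a, i)
      rw [g3, g2, g1]
  · rintro a b c d hac hbd ⟨i, hi⟩ ⟨j, hj⟩ ⟨k, hk⟩ ⟨l, hl'⟩
    have n1 : (b, j) ≠ M.a (a, i) := by
      intro he
      apply hac
      have := congrArg (fun e => (M.a e).1) he
      simp only [M.inv] at this
      rw [← this, hj]
    have n2 : (c, k) ≠ M.a (b, j) := by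
      intro he
      apply hbd
      have := congrArg (fun e => (M.a e).1) he
      simp only [M.inv] at this
      rw [← this, hk]
    have n3 : (d, l) ≠ M.a (c, k) := by
      intro he
      apply hac
      have := congrArg (fun e => (M.a e).1) he
      simp only [M.inv] at this
      rw [← this, hl']
    have n4 : (a, i) ≠ M.a (d, l) := by
      intro he
      apply hbd
      have := congrArg (fun e => (M.a e).1) he
      simp only [M.inv] at this
      rw [← this, hi]
    rcases h4 V M hM hP (by omega) f3 (a, i) (b, j) (c, k) (d, l) hi hj hk hl' n1 n2 n3 n4 with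
      ⟨g1, g2, g3, g4⟩ | ⟨g1, g2, g3, g4⟩
    · refine f4 (a, i) ?_
      change M.ph (M.ph (M.ph (M.ph (a, i)))) = (a, i)
      rw [g1, g2, g3, g4]
    · refine f4 (M.a (a, i)) ?_
      change M.ph (M.ph (M.ph (M.ph (M.a (a, i))))) = M.a (a, i)
      rw [g4, g3, g2, g1]
  · intro d₀ d₁ d₂ d₃ d₄ e0 e1 e2 e3 e4 n0 n1 n2 n3 n4 hA hB
    have hn : ∀ d d' : Dt V, (M.a d').1 ≠ d.1 → d' ≠ M.a d := by
      rintro d d' h rfl
      rw [M.inv] at h
      exact h rfl
    rcases h5 V M hM hP (by omega) f3 f4 d₀ d₁ d₂ d₃ d₄ e0 e1 e2 e3 e4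
      (hn _ _ (by rw [e1]; exact n0.symm)) (hn _ _ (by rw [e2]; exact n1.symm))
      (hn _ _ (by rw [e3]; exact n2.symm)) (hn _ _ (by rw [e4]; exact n3.symm))
      (hn _ _ (by rw [e0]; exact n4.symm)) with h | h
    · exact hA h
    · exact hB h

/-- a face of length five -/
structure Pent (M : CMap V) (D0 D1 D2 D3 D4 : Dt V) : Prop where
  p0 : M.ph D0 = D1
  p1 : M.ph D1 = D2
  p2 : M.ph D2 = D3
  p3 : M.ph D3 = D4
  p4 : M.ph D4 = D0

/-- a face of length six -/
structure Hex (M : CMap V) (D0 D1 D2 D3 D4 D5 : Dt V) : Prop where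
  p0 : M.ph D0 = D1
  p1 : M.ph D1 = D2
  p2 : M.ph D2 = D3
  p3 : M.ph D3 = D4
  p4 : M.ph D4 = D5
  p5 : M.ph D5 = D0

/-- one step of a face -/
theorem step_adj {D0 D1 : Dt V} (h : M.ph D0 = D1) : M.Adj D0.1 D1.1 := by
  rw [← h]
  exact adj_dart D0

theorem step_ne {D0 D1 : Dt V} (c : Ctx M) (h : M.ph D0 = D1) : D0.1 ≠ D1.1 := by
  rw [← h]
  exact (c.hl D0).symm

theorem step_ne2 {D0 D1 D2 : Dt V} (c : Ctx M) (h : M.ph D0 = D1) (h' : M.ph D1 = D2) :
    D0.1 ≠ D2.1 := by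
  intro he
  have e1 : (M.a D1).1 = D0.1 := by
    rw [he, ← h']; rfl
  have e2 : (M.a (rot (rot D1))).1 = D0.1 := by rw [a_rot_rot_of_ph h]
  exact rot_rot_ne D1 (c.hp (rot (rot D1)) D1 rfl (by rw [e1, e2]))

/-- the outer neighbour is not one of the two neighbours along the face -/
theorem out_next {D0 D1 : Dt V} (c : Ctx M) (h : M.ph D0 = D1) : (M.a (rot D0)).1 ≠ D1.1 := by
  intro he
  refine rot_ne D0 (c.hp (rot D0) D0 rfl ?_)
  rw [he, ← h]; rfl

theorem out_prev {D0 D1 : Dt V} (c : Ctx M) (h : M.ph D0 = D1) : (M.a (rot D1)).1 ≠ D0.1 := by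
  intro he
  refine rot_ne (rot D1) (c.hp (rot (rot D1)) (rot D1) rfl ?_)
  rw [he, a_rot_rot_of_ph h]

theorem out_self {D0 : Dt V} (c : Ctx M) : (M.a (rot D0)).1 ≠ D0.1 := c.hl (rot D0)

theorem out_adj (D0 : Dt V) : M.Adj D0.1 (M.a (rot D0)).1 := adj_dart (rot D0)

namespace Pent

variable {D0 D1 D2 D3 D4 : Dt V}

theorem of_ph {d : Dt V} (h : M.ph^[5] d = d) :
    Pent M d (M.ph d) (M.ph^[2] d) (M.ph^[3] d) (M.ph^[4] d) := ⟨rfl, rfl, rfl, rfl, h⟩

theorem cyc (h : Pent M D0 D1 D2 D3 D4) : Pent M D1 D2 D3 D4 D0 :=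
  ⟨h.p1, h.p2, h.p3, h.p4, h.p0⟩

theorem inj (h : Pent M D0 D1 D2 D3 D4) (c : Ctx M) :
    D0.1 ≠ D1.1 ∧ D0.1 ≠ D2.1 ∧ D0.1 ≠ D3.1 ∧ D0.1 ≠ D4.1 := by
  refine ⟨step_ne c h.p0, step_ne2 c h.p0 h.p1, (step_ne2 c h.p3 h.p4).symm,
    (step_ne c h.p4).symm⟩

/-- the outer neighbour of the first vertex is outside -/
theorem out (h : Pent M D0 D1 D2 D3 D4) (c : Ctx M) :
    (M.a (rot D0)).1 ≠ D0.1 ∧ (M.a (rot D0)).1 ≠ D1.1 ∧ (M.a (rot D0)).1 ≠ D2.1 ∧
      (M.a (rot D0)).1 ≠ D3.1 ∧ (M.a (rot D0)).1 ≠ D4.1 := by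
  refine ⟨out_self c, out_next c h.p0, ?_, ?_, out_prev c h.p4⟩
  · intro he
    exact c.no3 D0.1 D1.1 D2.1 (step_adj h.p0) (step_adj h.p1) (adj_symm (adj_of (d := rot D0) he))
  · intro he
    exact c.no3 D0.1 D3.1 D4.1 (adj_of (d := rot D0) he) (step_adj h.p3) (step_adj h.p4)

/-- the outer neighbours are distinct -/
theorem out_inj (h : Pent M D0 D1 D2 D3 D4) (c : Ctx M) :
    (M.a (rot D0)).1 ≠ (M.a (rot D1)).1 ∧ (M.a (rot D0)).1 ≠ (M.a (rot D2)).1 := by
  constructor
  · intro he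
    exact c.no3 D0.1 D1.1 (M.a (rot D1)).1 (step_adj h.p0) (out_adj D1)
      (adj_symm (he ▸ out_adj D0))
  · intro he
    exact c.no4 D0.1 D1.1 D2.1 (M.a (rot D2)).1 (h.inj c).2.1 (h.cyc.cyc.out c).2.2.2.2.symm
      (step_adj h.p0) (step_adj h.p1) (out_adj D2) (adj_symm (he ▸ out_adj D0))

/-- consecutive outer neighbours are not adjacent -/
theorem out_nadj (h : Pent M D0 D1 D2 D3 D4) (c : Ctx M) :
    ¬ M.Adj (M.a (rot D0)).1 (M.a (rot D1)).1 := by
  intro he
  exact c.no4 D0.1 D1.1 (M.a (rot D1)).1 (M.a (rot D0)).1 (h.cyc.out c).2.2.2.2.symm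
    (h.out c).2.1.symm (step_adj h.p0) (out_adj D1) (adj_symm he) (adj_symm (out_adj D0))

end Pent

/-! ### The embedding of the pentagon -/

theorem emb_p {D0 D1 D2 D3 D4 : Dt V} (h : Pent M D0 D1 D2 D3 D4) (c : Ctx M) :
    ∃ E : M.Emb Tp, (E.x 0, E.pos 0) = D0 ∧ (Function.Injective fun i => (E.b i).1) ∧
      ∀ i, ¬ M.Adj (E.b i).1 (E.b (i + 1)).1 := by
  have h1 := h.cyc
  have h2 := h1.cyc
  have h3 := h2.cyc
  have h4 := h3.cyc
  obtain ⟨n01, n02, n03, n04⟩ := h.inj c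
  obtain ⟨n12, n13, n14, n10⟩ := h1.inj c
  obtain ⟨n23, n24, n20, n21⟩ := h2.inj c
  obtain ⟨n34, n30, n31, n32⟩ := h3.inj c
  obtain ⟨n40, n41, n42, n43⟩ := h4.inj c
  have hpre : Pre M Tp (fun i => ((![D0, D1, D2, D3, D4] : Fin 5 → Dt V) i).1)
      (fun i => ((![D0, D1, D2, D3, D4] : Fin 5 → Dt V) i).2) := by
    refine pre_of (T := Tp) ![D0, D1, D2, D3, D4] ?_ ?_
    · intro i j hij
      fin_cases i <;> fin_cases j
      exacts [rfl, absurd hij n01, absurd hij n02, absurd hij n03, absurd hij n04,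
        absurd hij n10, rfl, absurd hij n12, absurd hij n13, absurd hij n14,
        absurd hij n20, absurd hij n21, rfl, absurd hij n23, absurd hij n24,
        absurd hij n30, absurd hij n31, absurd hij n32, rfl, absurd hij n34,
        absurd hij n40, absurd hij n41, absurd hij n42, absurd hij n43, rfl]
    · intro i t
      fin_cases i <;> fin_cases t
      exacts [a_of_ph h.p0, trivial, a_rot_rot_of_ph h.p4, a_of_ph h.p1, trivial,
        a_rot_rot_of_ph h.p0, a_of_ph h.p2, trivial, a_rot_rot_of_ph h.p1,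
        a_of_ph h.p3, trivial, a_rot_rot_of_ph h.p2, a_of_ph h.p4, trivial,
        a_rot_rot_of_ph h.p3]
  have hout : ∀ j, (M.a (dt (fun i => ((![D0, D1, D2, D3, D4] : Fin 5 → Dt V) i).1)
      (fun i => ((![D0, D1, D2, D3, D4] : Fin 5 → Dt V) i).2)
      ((![(0, 1), (1, 1), (2, 1), (3, 1), (4, 1)] : Fin 5 → Fin 5 × Fin 3) j))).1 ∉
      Set.range (fun i => ((![D0, D1, D2, D3, D4] : Fin 5 → Dt V) i).1) := by
    obtain ⟨m00, m01, m02, m03, m04⟩ := h.out c
    obtain ⟨m11, m12, m13, m14, m10⟩ := h1.out c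
    obtain ⟨m22, m23, m24, m20, m21⟩ := h2.out c
    obtain ⟨m33, m34, m30, m31, m32⟩ := h3.out c
    obtain ⟨m44, m40, m41, m42, m43⟩ := h4.out c
    rintro j ⟨i, hi⟩
    fin_cases j <;> fin_cases i
    exacts [m00 hi.symm, m01 hi.symm, m02 hi.symm, m03 hi.symm, m04 hi.symm,
      m10 hi.symm, m11 hi.symm, m12 hi.symm, m13 hi.symm, m14 hi.symm,
      m20 hi.symm, m21 hi.symm, m22 hi.symm, m23 hi.symm, m24 hi.symm,
      m30 hi.symm, m31 hi.symm, m32 hi.symm, m33 hi.symm, m34 hi.symm,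
      m40 hi.symm, m41 hi.symm, m42 hi.symm, m43 hi.symm, m44 hi.symm]
  refine ⟨hpre.emb tb_p hout, rfl, ?_, ?_⟩
  · obtain ⟨g01, g02⟩ := h.out_inj c
    obtain ⟨g12, g13⟩ := h1.out_inj c
    obtain ⟨g23, g24⟩ := h2.out_inj c
    obtain ⟨g34, g30⟩ := h3.out_inj c
    obtain ⟨g40, g41⟩ := h4.out_inj c
    intro i j hij
    fin_cases i <;> fin_cases j
    exacts [rfl, absurd hij g01, absurd hij g02, absurd hij g30.symm, absurd hij g40.symm,
      absurd hij g01.symm, rfl, absurd hij g12, absurd hij g13, absurd hij g41.symm,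
      absurd hij g02.symm, absurd hij g12.symm, rfl, absurd hij g23, absurd hij g24,
      absurd hij g30, absurd hij g13.symm, absurd hij g23.symm, rfl, absurd hij g34,
      absurd hij g40, absurd hij g41, absurd hij g24.symm, absurd hij g34.symm, rfl]
  · intro i
    fin_cases i
    exacts [h.out_nadj c, h1.out_nadj c, h2.out_nadj c, h3.out_nadj c, h4.out_nadj c]

/-! ### Two adjacent pentagons -/

/-- matched darts are excluded in one direction if they are excluded in the other -/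
theorem no_match {m k : ℕ} {T : Tab m k} {x : Fin m → V} {pos : Fin m → Fin 3}
    {bd : Fin k → Fin m × Fin 3} (h : Pre M T x pos) (hT : Tb T bd)
    (hbad : ∀ j j' : Fin k, j < j' → M.a (dt x pos (bd j)) ≠ dt x pos (bd j')) (j : Fin k) :
    (M.a (dt x pos (bd j))).1 ∉ Set.range x := by
  intro hj
  obtain ⟨j', hne, h1⟩ := h.matched hT j hj
  rcases lt_or_gt_of_ne hne with h2 | h2
  · refine hbad j' j h2 ?_
    rw [← h1, M.inv]
  · exact hbad j j' h2 h1

theorem emb_53 {D0 D1 D2 D3 D4 F1 F2 F3 F4 : Dt V} (h : Pent M D0 D1 D2 D3 D4)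
    (g : Pent M (M.a D3) F1 F2 F3 F4) (c : Ctx M) :
    ∃ E : M.Emb T53, (E.x 0, E.pos 0) = D0 := by
  have h1 := h.cyc
  have h2 := h1.cyc
  have h3 := h2.cyc
  have h4 := h3.cyc
  have g1 := g.cyc
  have g2 := g1.cyc
  have g3 := g2.cyc
  have g4 := g3.cyc
  have hF0 : M.a D3 = rot (rot D4) := a_of_ph h.p3
  have hF1 : F1 = rot D3 := by rw [← g.p0, CMap.ph_a]
  have aF4 : M.a F4 = rot D4 := by
    rw [a_of_ph g.p4, hF0, rot_rot_rot]
  have arD4 : M.a (rot D4) = F4 := by rw [← aF4, M.inv]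
  have hF01 : (M.a D3).1 = D4.1 := by rw [hF0]; rfl
  have hF11 : F1.1 = D3.1 := by rw [hF1]; rfl
  have arD3 : M.a (rot D3) = rot (rot F2) := by rw [← hF1]; exact a_of_ph g.p1
  obtain ⟨n01, n02, n03, n04⟩ := h.inj c
  obtain ⟨n12, n13, n14, n10⟩ := h1.inj c
  obtain ⟨n23, n24, n20, n21⟩ := h2.inj c
  obtain ⟨n34, n30, n31, n32⟩ := h3.inj c
  obtain ⟨n40, n41, n42, n43⟩ := h4.inj c
  obtain ⟨n56, n57, n54, n53⟩ := g2.inj c
  obtain ⟨n67, n64, n63, n65⟩ := g3.inj c
  obtain ⟨n74, n73, n75, n76⟩ := g4.inj c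
  rw [hF01] at n54 n64 n74
  rw [hF11] at n53 n63 n73
  -- the neighbours `5` and `7`
  obtain ⟨-, -, n50', n51', n52'⟩ := h3.out c
  rw [arD3] at n50' n51' n52'
  have n50 : F2.1 ≠ D0.1 := n50'
  have n51 : F2.1 ≠ D1.1 := n51'
  have n52 : F2.1 ≠ D2.1 := n52'
  obtain ⟨-, n70, n71, n72, -⟩ := h4.out c
  rw [arD4] at n70 n71 n72
  -- adjacencies
  have A01 := step_adj h.p0
  have A12 := step_adj h.p1
  have A23 := step_adj h.p2
  have A34 := step_adj h.p3
  have A40 := step_adj h.p4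
  have A35 : M.Adj D3.1 F2.1 := hF11 ▸ step_adj g.p1
  have A56 := step_adj g.p2
  have A67 := step_adj g.p3
  have A74 : M.Adj F4.1 D4.1 := hF01 ▸ step_adj g.p4
  -- the vertex `6`
  have n60 : F3.1 ≠ D0.1 := fun he => c.no3 D0.1 F4.1 D4.1 (he ▸ A67) A74 A40
  have n62 : F3.1 ≠ D2.1 := fun he => c.no3 D2.1 D3.1 F2.1 A23 A35 (he ▸ A56)
  have n61 : F3.1 ≠ D1.1 := fun he =>
    c.no4 D1.1 D2.1 D3.1 F2.1 n13 n52.symm A12 A23 A35 (he ▸ A56)
  have hpre : Pre M T53 (fun i => ((![D0, D1, D2, D3, D4, F2, F3, F4] : Fin 8 → Dt V) i).1)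
      (fun i => ((![D0, D1, D2, D3, D4, F2, F3, F4] : Fin 8 → Dt V) i).2) := by
    refine pre_of (T := T53) ![D0, D1, D2, D3, D4, F2, F3, F4] ?_ ?_
    · intro i j hij
      fin_cases i <;> fin_cases j
      exacts [rfl, absurd hij n01, absurd hij n02, absurd hij n03, absurd hij n04,
        absurd hij n50.symm, absurd hij n60.symm, absurd hij n70.symm,
        absurd hij n10, rfl, absurd hij n12, absurd hij n13, absurd hij n14,
        absurd hij n51.symm, absurd hij n61.symm, absurd hij n71.symm,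
        absurd hij n20, absurd hij n21, rfl, absurd hij n23, absurd hij n24,
        absurd hij n52.symm, absurd hij n62.symm, absurd hij n72.symm,
        absurd hij n30, absurd hij n31, absurd hij n32, rfl, absurd hij n34,
        absurd hij n53.symm, absurd hij n63.symm, absurd hij n73.symm,
        absurd hij n40, absurd hij n41, absurd hij n42, absurd hij n43, rfl,
        absurd hij n54.symm, absurd hij n64.symm, absurd hij n74.symm,
        absurd hij n50, absurd hij n51, absurd hij n52, absurd hij n53, absurd hij n54,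
        rfl, absurd hij n56, absurd hij n57,
        absurd hij n60, absurd hij n61, absurd hij n62, absurd hij n63, absurd hij n64,
        absurd hij n65, rfl, absurd hij n67,
        absurd hij n70, absurd hij n71, absurd hij n72, absurd hij n73, absurd hij n74,
        absurd hij n75, absurd hij n76, rfl]
    · intro i t
      fin_cases i <;> fin_cases t
      exacts [a_of_ph h.p0, trivial, a_rot_rot_of_ph h.p4, a_of_ph h.p1, trivial,
        a_rot_rot_of_ph h.p0, a_of_ph h.p2, trivial, a_rot_rot_of_ph h.p1,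
        a_of_ph h.p3, arD3, a_rot_rot_of_ph h.p2, a_of_ph h.p4, arD4,
        a_rot_rot_of_ph h.p3,
        a_of_ph g.p2, trivial, (a_rot_rot_of_ph g.p1).trans hF1,
        a_of_ph g.p3, trivial, a_rot_rot_of_ph g.p2,
        aF4, trivial, a_rot_rot_of_ph g.p3]
  refine ⟨hpre.emb tb_53 (no_match hpre tb_53 ?_), rfl⟩
  intro j j' hlt he
  have he1 := congrArg Prod.fst he
  fin_cases j <;> fin_cases j' <;> first | exact absurd hlt (by decide) | skip
  · exact (h.out c).2.1 he1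
  · exact (h.out c).2.2.1 he1
  · exact c.no4 D0.1 F2.1 D3.1 D4.1 n03 n54 (adj_of (d := rot D0) he1) (adj_symm A35) A34 A40
  · exact c.no4 D0.1 F3.1 F4.1 D4.1 n70.symm n64 (adj_of (d := rot D0) he1) A67 A74 A40
  · exact c.no3 D0.1 F4.1 D4.1 (adj_of (d := rot D0) he1) A74 A40
  · exact (h1.out c).2.1 he1
  · exact c.no4 D1.1 F2.1 D3.1 D2.1 n13 n52 (adj_of (d := rot D1) he1) (adj_symm A35)
      (adj_symm A23) (adj_symm A12)
  · refine c.no5 (rot D1) F3 F4 D4 D0 he1 (by rw [← g.p3]; rfl) (by rw [aF4]; rfl)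
      (by rw [← h.p4]; rfl) (by rw [a_of_ph h.p0]; rfl) n71.symm n64 n70 n41 n60.symm ?_ ?_
    · rintro ⟨-, -, e, -⟩
      rw [g.p4, hF0] at e
      exact rot_rot_ne D4 e
    · rintro ⟨-, e, -⟩
      rw [CMap.ph_a, a_of_ph g.p3] at e
      exact rot_rot_ne_rot F4 e.symm
  · exact c.no4 D1.1 F4.1 D4.1 D0.1 n14 n70 (adj_of (d := rot D1) he1) A74 A40 A01
  · exact c.no3 D2.1 F2.1 D3.1 (adj_of (d := rot D2) he1) (adj_symm A35) (adj_symm A23)
  · exact c.no4 D2.1 F3.1 F2.1 D3.1 n52.symm n63 (adj_of (d := rot D2) he1) (adj_symm A56)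
      (adj_symm A35) (adj_symm A23)
  · exact c.no4 D2.1 F4.1 D4.1 D3.1 n24 n73 (adj_of (d := rot D2) he1) A74 (adj_symm A34)
      (adj_symm A23)
  · exact (g2.out c).2.1 he1
  · exact (g2.out c).2.2.1 he1
  · exact (g3.out c).2.1 he1

/-! ### A pentagon and an adjacent hexagon -/

theorem emb_54 {D0 D1 D2 D3 D4 F1 F2 F3 F4 F5 : Dt V} (h : Pent M D0 D1 D2 D3 D4)
    (g : Hex M (M.a D3) F1 F2 F3 F4 F5) (c : Ctx M) :
    ∃ E : M.Emb T54, (E.x 0, E.pos 0) = D0 := by
  have h1 := h.cyc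
  have h2 := h1.cyc
  have h3 := h2.cyc
  have h4 := h3.cyc
  have hF0 : M.a D3 = rot (rot D4) := a_of_ph h.p3
  have hF1 : F1 = rot D3 := by rw [← g.p0, CMap.ph_a]
  have aF5 : M.a F5 = rot D4 := by
    rw [a_of_ph g.p5, hF0, rot_rot_rot]
  have arD4 : M.a (rot D4) = F5 := by rw [← aF5, M.inv]
  have hF01 : (M.a D3).1 = D4.1 := by rw [hF0]; rfl
  have hF11 : F1.1 = D3.1 := by rw [hF1]; rfl
  have arD3 : M.a (rot D3) = rot (rot F2) := by rw [← hF1]; exact a_of_ph g.p1
  obtain ⟨n01, n02, n03, n04⟩ := h.inj c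
  obtain ⟨n12, n13, n14, n10⟩ := h1.inj c
  obtain ⟨n23, n24, n20, n21⟩ := h2.inj c
  obtain ⟨n34, n30, n31, n32⟩ := h3.inj c
  obtain ⟨n40, n41, n42, n43⟩ := h4.inj c
  -- adjacencies
  have A01 := step_adj h.p0
  have A12 := step_adj h.p1
  have A23 := step_adj h.p2
  have A34 := step_adj h.p3
  have A40 := step_adj h.p4
  have A35 : M.Adj D3.1 F2.1 := hF11 ▸ step_adj g.p1
  have A56 := step_adj g.p2
  have A67 := step_adj g.p3
  have A78 := step_adj g.p4
  have A84 : M.Adj F5.1 D4.1 := hF01 ▸ step_adj g.p5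
  -- distinctness in the hexagon
  have n56 := step_ne c g.p2
  have n67 := step_ne c g.p3
  have n78 := step_ne c g.p4
  have n84 : F5.1 ≠ D4.1 := hF01 ▸ step_ne c g.p5
  have n53 : F2.1 ≠ D3.1 := (hF11 ▸ step_ne c g.p1 : D3.1 ≠ F2.1).symm
  have n57 := step_ne2 c g.p2 g.p3
  have n68 := step_ne2 c g.p3 g.p4
  have n74 : F4.1 ≠ D4.1 := hF01 ▸ step_ne2 c g.p4 g.p5
  have n63 : F3.1 ≠ D3.1 := (hF11 ▸ step_ne2 c g.p1 g.p2 : D3.1 ≠ F3.1).symm
  have n83 : F5.1 ≠ D3.1 := hF11 ▸ step_ne2 c g.p5 g.p0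
  have n54 : F2.1 ≠ D4.1 := (hF01 ▸ step_ne2 c g.p0 g.p1 : D4.1 ≠ F2.1).symm
  have n58 : F2.1 ≠ F5.1 := fun he => c.no3 F2.1 F3.1 F4.1 A56 A67 (by rw [he]; exact A78)
  have n64 : F3.1 ≠ D4.1 := fun he => c.no3 D4.1 D3.1 F2.1 (adj_symm A34) A35 (he ▸ A56)
  have n73 : F4.1 ≠ D3.1 := fun he => c.no3 D3.1 F2.1 F3.1 A35 A56 (he ▸ A67)
  -- the neighbours `5` and `8`
  obtain ⟨-, -, n50', n51', n52'⟩ := h3.out c
  rw [arD3] at n50' n51' n52'
  have n50 : F2.1 ≠ D0.1 := n50'
  have n51 : F2.1 ≠ D1.1 := n51'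
  have n52 : F2.1 ≠ D2.1 := n52'
  obtain ⟨-, n80, n81, n82, -⟩ := h4.out c
  rw [arD4] at n80 n81 n82
  -- the vertices `6` and `7`
  have n60 : F3.1 ≠ D0.1 := fun he =>
    c.no4 D0.1 D4.1 D3.1 F2.1 n03 n54.symm (adj_symm A40) (adj_symm A34) A35 (he ▸ A56)
  have n62 : F3.1 ≠ D2.1 := fun he => c.no3 D2.1 D3.1 F2.1 A23 A35 (he ▸ A56)
  have n61 : F3.1 ≠ D1.1 := fun he =>
    c.no4 D1.1 D2.1 D3.1 F2.1 n13 n52.symm A12 A23 A35 (he ▸ A56)
  have n70 : F4.1 ≠ D0.1 := fun he => c.no3 D0.1 F5.1 D4.1 (he ▸ A78) A84 A40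
  have n71 : F4.1 ≠ D1.1 := fun he =>
    c.no4 D1.1 F5.1 D4.1 D0.1 n14 n80 (he ▸ A78) A84 A40 A01
  have n72 : F4.1 ≠ D2.1 := fun he =>
    c.no4 D2.1 F5.1 D4.1 D3.1 n24 n83 (he ▸ A78) A84 (adj_symm A34) (adj_symm A23)
  have hpre : Pre M T54 (fun i => ((![D0, D1, D2, D3, D4, F2, F3, F4, F5] : Fin 9 → Dt V) i).1)
      (fun i => ((![D0, D1, D2, D3, D4, F2, F3, F4, F5] : Fin 9 → Dt V) i).2) := by
    refine pre_of (T := T54) ![D0, D1, D2, D3, D4, F2, F3, F4, F5] ?_ ?_
    · intro i j hij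
      fin_cases i <;> fin_cases j
      exacts [rfl, absurd hij n01, absurd hij n02, absurd hij n03, absurd hij n04,
        absurd hij n50.symm, absurd hij n60.symm, absurd hij n70.symm, absurd hij n80.symm,
        absurd hij n10, rfl, absurd hij n12, absurd hij n13, absurd hij n14,
        absurd hij n51.symm, absurd hij n61.symm, absurd hij n71.symm, absurd hij n81.symm,
        absurd hij n20, absurd hij n21, rfl, absurd hij n23, absurd hij n24,
        absurd hij n52.symm, absurd hij n62.symm, absurd hij n72.symm, absurd hij n82.symm,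
        absurd hij n30, absurd hij n31, absurd hij n32, rfl, absurd hij n34,
        absurd hij n53.symm, absurd hij n63.symm, absurd hij n73.symm, absurd hij n83.symm,
        absurd hij n40, absurd hij n41, absurd hij n42, absurd hij n43, rfl,
        absurd hij n54.symm, absurd hij n64.symm, absurd hij n74.symm, absurd hij n84.symm,
        absurd hij n50, absurd hij n51, absurd hij n52, absurd hij n53, absurd hij n54,
        rfl, absurd hij n56, absurd hij n57, absurd hij n58,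
        absurd hij n60, absurd hij n61, absurd hij n62, absurd hij n63, absurd hij n64,
        absurd hij n56.symm, rfl, absurd hij n67, absurd hij n68,
        absurd hij n70, absurd hij n71, absurd hij n72, absurd hij n73, absurd hij n74,
        absurd hij n57.symm, absurd hij n67.symm, rfl, absurd hij n78,
        absurd hij n80, absurd hij n81, absurd hij n82, absurd hij n83, absurd hij n84,
        absurd hij n58.symm, absurd hij n68.symm, absurd hij n78.symm, rfl]
    · intro i t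
      fin_cases i <;> fin_cases t
      exacts [a_of_ph h.p0, trivial, a_rot_rot_of_ph h.p4, a_of_ph h.p1, trivial,
        a_rot_rot_of_ph h.p0, a_of_ph h.p2, trivial, a_rot_rot_of_ph h.p1,
        a_of_ph h.p3, arD3, a_rot_rot_of_ph h.p2, a_of_ph h.p4, arD4,
        a_rot_rot_of_ph h.p3,
        a_of_ph g.p2, trivial, (a_rot_rot_of_ph g.p1).trans hF1,
        a_of_ph g.p3, trivial, a_rot_rot_of_ph g.p2,
        a_of_ph g.p4, trivial, a_rot_rot_of_ph g.p3,
        aF5, trivial, a_rot_rot_of_ph g.p4]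
  refine ⟨hpre.emb tb_54 (no_match hpre tb_54 ?_), rfl⟩
  intro j j' hlt he
  have he1 := congrArg Prod.fst he
  fin_cases j <;> fin_cases j' <;> first | exact absurd hlt (by decide) | skip
  · exact (h.out c).2.1 he1
  · exact (h.out c).2.2.1 he1
  · exact c.no4 D0.1 F2.1 D3.1 D4.1 n03 n54 (adj_of (d := rot D0) he1) (adj_symm A35) A34 A40
  · refine c.no5 (rot D0) F3 F4 F5 D4 he1 (by rw [← g.p3]; rfl) (by rw [← g.p4]; rfl)
      (by rw [aF5]; rfl) (by rw [← h.p4]; rfl) n70.symm n68 n74 n80 n64.symm ?_ ?_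
    · rintro ⟨-, -, -, e, -⟩
      rw [g.p5, hF0] at e
      exact rot_rot_ne D4 e
    · rintro ⟨-, e, -⟩
      rw [CMap.ph_a, a_of_ph g.p3] at e
      exact rot_rot_ne_rot F4 e.symm
  · exact c.no4 D0.1 F4.1 F5.1 D4.1 n80.symm n74 (adj_of (d := rot D0) he1) A78 A84 A40
  · exact c.no3 D0.1 F5.1 D4.1 (adj_of (d := rot D0) he1) A84 A40
  · exact (h1.out c).2.1 he1
  · exact c.no4 D1.1 F2.1 D3.1 D2.1 n13 n52 (adj_of (d := rot D1) he1) (adj_symm A35)
      (adj_symm A23) (adj_symm A12)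
  · have he' : M.a (rot F3) = rot D1 := by
      have : M.a (rot D1) = rot F3 := he
      rw [← this, M.inv]
    refine c.no5 (rot F3) D1 D2 (rot D3) F2 (by rw [he']; rfl) (by rw [← h.p1]; rfl)
      (by rw [a_of_ph h.p2]; rfl) (by rw [arD3]; rfl) (by rw [a_of_ph g.p2]; rfl)
      n62 n13 n52.symm n63.symm n51 ?_ ?_
    · rintro ⟨-, -, e, -⟩
      rw [h.p2] at e
      exact rot_ne D3 e.symm
    · rintro ⟨-, -, -, e, -⟩
      rw [CMap.ph_a, arD3] at e
      exact rot_rot_ne_rot F2 e.symm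
  · refine c.no5 (rot D1) F4 F5 D4 D0 he1 (by rw [← g.p4]; rfl) (by rw [aF5]; rfl)
      (by rw [← h.p4]; rfl) (by rw [a_of_ph h.p0]; rfl) n81.symm n74 n80 n41 n70.symm ?_ ?_
    · rintro ⟨-, -, e, -⟩
      rw [g.p5, hF0] at e
      exact rot_rot_ne D4 e
    · rintro ⟨-, e, -⟩
      rw [CMap.ph_a, a_of_ph g.p4] at e
      exact rot_rot_ne_rot F5 e.symm
  · exact c.no4 D1.1 F5.1 D4.1 D0.1 n14 n80 (adj_of (d := rot D1) he1) A84 A40 A01
  · exact c.no3 D2.1 F2.1 D3.1 (adj_of (d := rot D2) he1) (adj_symm A35) (adj_symm A23)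
  · exact c.no4 D2.1 F3.1 F2.1 D3.1 n52.symm n63 (adj_of (d := rot D2) he1) (adj_symm A56)
      (adj_symm A35) (adj_symm A23)
  · have he' : M.a (rot F4) = rot D2 := by
      have : M.a (rot D2) = rot F4 := he
      rw [← this, M.inv]
    refine c.no5 (rot F4) D2 (rot D3) F2 F3 (by rw [he']; rfl) (by rw [a_of_ph h.p2]; rfl)
      (by rw [arD3]; rfl) (by rw [a_of_ph g.p2]; rfl) (by rw [a_of_ph g.p3]; rfl)
      n73 n52.symm n63.symm n57 n62 ?_ ?_
    · rintro ⟨-, e, -⟩
      rw [h.p2] at e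
      exact rot_ne D3 e.symm
    · rintro ⟨-, -, e, -⟩
      rw [CMap.ph_a, arD3] at e
      exact rot_rot_ne_rot F2 e.symm
  · exact c.no4 D2.1 F5.1 D4.1 D3.1 n24 n83 (adj_of (d := rot D2) he1) A84 (adj_symm A34)
      (adj_symm A23)
  · exact out_next c g.p2 he1
  · exact c.no3 F2.1 F3.1 F4.1 A56 A67 (adj_symm (adj_of (d := rot F2) he1))
  · exact c.no4 F2.1 F5.1 D4.1 D3.1 n54 n83 (adj_of (d := rot F2) he1) A84 (adj_symm A34) A35
  · exact out_next c g.p3 he1
  · exact c.no3 F3.1 F4.1 F5.1 A67 A78 (adj_symm (adj_of (d := rot F3) he1))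
  · exact out_next c g.p4 he1

end Emb5

open Emb5

theorem specEmb5 (h3 : SpecJC3) (h4 : SpecJC4) (h5 : SpecJC5) : SpecEmb5 := by
  intro V _ M d hM hP hV f3 f4 f5
  have c := ctx h3 h4 h5 hM hP hV f3 f4
  have h := Pent.of_ph f5
  refine ⟨fun hg => ?_, fun hg => ?_, emb_p h c⟩
  · exact emb_53 h (Pent.of_ph hg) c
  · exact emb_54 (F1 := M.ph (M.a (M.ph^[3] d))) (F2 := M.ph^[2] (M.a (M.ph^[3] d)))
      (F3 := M.ph^[3] (M.a (M.ph^[3] d))) (F4 := M.ph^[4] (M.a (M.ph^[3] d)))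
      (F5 := M.ph^[5] (M.a (M.ph^[3] d))) h ⟨rfl, rfl, rfl, rfl, rfl, hg⟩ c

end Acyc75
end

section
/-!
# MP_1e9f59_co : from maps to graphs
-/
set_option autoImplicit false

namespace Acyc75

theorem final (hMain : SpecMain) (hInit : SpecInit) (hFin : SpecFin) (hIso : SpecIso)
    (hSimple : SpecSimple) :
    ∀ (V : Type) [Fintype V] (G : SimpleGraph V),
      (∀ v : V, Nat.card (G.neighborSet v) = 3) →
      G.Connected →
      4 ≤ Fintype.card V →
      (∀ u v : V, (G.induce ({u, v}ᶜ : Set V)).Connected) →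
      (∃ k : ℕ, k + Fintype.card V = 2 + Nat.card G.edgeSet ∧
        ∃ (σ φ : Equiv.Perm G.Dart) (face : G.Dart → Fin k),
          (∀ d : G.Dart, (σ d).fst = d.fst) ∧
          (∀ d d' : G.Dart, d.fst = d'.fst → ∃ n : ℕ, (σ ^ n) d = d') ∧
          (∀ d : G.Dart, φ d = σ d.symm) ∧
          (∀ d d' : G.Dart, face d = face d' ↔ ∃ n : ℕ, (φ ^ n) d = d') ∧
          Function.Surjective face) →
      ¬ Nonempty (G ≃g (⊤ : SimpleGraph (Fin 4))) →
      ¬ Nonempty (G ≃g SimpleGraph.fromRel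
          (fun x y : Fin 3 → Bool => ∃ i, x i ≠ y i ∧ ∀ j, j ≠ i → x j = y j)) →
      ¬ Nonempty (G ≃g SimpleGraph.fromRel
          (fun a b : Fin 8 => (a, b) ∈ ({(0, 6), (0, 1), (1, 2), (2, 7), (3, 6), (3, 4),
            (4, 5), (5, 7), (0, 3), (1, 4), (2, 5), (6, 7)} : Finset (Fin 8 × Fin 8)))) →
      ∃ c : G.Coloring (Fin 3),
        ∀ i j : Fin 3, (G.induce {v : V | c v = i ∨ c v = j}).IsAcyclic := by
  intro V _ G h3 hconn hcard h3c hplan hK4 hQ3 hH
  obtain ⟨M, hT, hP, hAdj⟩ := hInit V G h3 hconn hcard h3c hplan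
  have hc : 4 ≤ Nat.card V := by rwa [Nat.card_eq_fintype_card]
  have hI := hIso V G M hAdj hT hP
  have h4 : Nat.card V ≠ 4 := fun h => hK4 (hI.1 h)
  have h8 : Nat.card V ≠ 8 := fun h => by
    rcases hI.2 h with h' | h'
    · exact hQ3 h'
    · exact hH h'
  exact hFin V G M hAdj (hSimple V M hT (by omega)).2 (hMain V M hT hP hc h4 h8)

end Acyc75
end

section
/-!
# Modules FOUR and SIX
-/
set_option autoImplicit false

namespace Acyc75

open CMap

theorem specFour (hS : SpecSimple) : SpecFour := by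
  classical
  intro V _ M hT h4 v w hvw
  have := Fintype.ofFinite V
  obtain ⟨hl, hp⟩ := hS V M hT (by omega)
  have hinj : Function.Injective fun i : Fin 3 => (M.a (v, i)).1 := by
    intro i j h
    have := hp (v, i) (v, j) rfl h
    exact congrArg Prod.snd this
  have hsub : Finset.univ.image (fun i : Fin 3 => (M.a (v, i)).1) ⊆ Finset.univ.erase v := by
    intro x hx
    obtain ⟨i, _, rfl⟩ := Finset.mem_image.1 hx
    exact Finset.mem_erase.2 ⟨hl (v, i), Finset.mem_univ _⟩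
  have hcard : (Finset.univ.erase v).card ≤
      (Finset.univ.image (fun i : Fin 3 => (M.a (v, i)).1)).card := by
    rw [Finset.card_image_of_injective _ hinj, Finset.card_erase_of_mem (Finset.mem_univ _),
      Finset.card_univ, Finset.card_univ, ← Nat.card_eq_fintype_card, h4]
    simp
  have heq := Finset.eq_of_subset_of_card_le hsub hcard
  have hw : w ∈ Finset.univ.image (fun i : Fin 3 => (M.a (v, i)).1) := by
    rw [heq]
    exact Finset.mem_erase.2 ⟨hvw.symm, Finset.mem_univ _⟩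
  obtain ⟨i, _, hi⟩ := Finset.mem_image.1 hw
  exact ⟨i, hi⟩

namespace Six

variable {V : Type}

/-- the third dart -/
theorem third (x y : Dt V) (h1 : x.1 = y.1) (hne : x ≠ y) :
    ∃ z : Dt V, ∀ d : Dt V, d.1 = x.1 → d = x ∨ d = y ∨ d = z := by
  rcases dart_cases h1.symm with h | h | h
  · exact absurd h.symm hne
  · refine ⟨rot (rot x), fun d hd => ?_⟩
    rcases dart_cases hd with h' | h' | h'
    · exact Or.inl h'
    · exact Or.inr (Or.inl (by rw [h', h]))
    · exact Or.inr (Or.inr h')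
  · refine ⟨rot x, fun d hd => ?_⟩
    rcases dart_cases hd with h' | h' | h'
    · exact Or.inl h'
    · exact Or.inr (Or.inr h')
    · exact Or.inr (Or.inl (by rw [h', h]))

theorem pair_le {α : Type} (a b : α) : ({a, b} : Set α).ncard ≤ 2 := by
  refine (Set.ncard_insert_le a {b}).trans ?_
  rw [Set.ncard_singleton]

section face

variable (M : CMap V) (d : Dt V) (h3 : M.ph (M.ph (M.ph d)) = d)

include h3

theorem rr0 : rot (rot d) = M.a (M.ph (M.ph d)) := by
  have h : rot (M.a (M.ph (M.ph d))) = d := h3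
  have := congrArg (fun x => rot (rot x)) h
  simp only [rot_rot_rot] at this
  exact this.symm

omit h3 in
theorem rr1 : rot (rot (M.ph d)) = M.a d := by
  show rot (rot (rot (M.a d))) = M.a d
  rw [rot_rot_rot]

/-- the outer neighbours of two vertices of a triangular face are different -/
theorem outer_ne [Finite V] (hT : M.TEC) (hc : 4 < Nat.card V)
    (hp : ∀ d d' : Dt V, d.1 = d'.1 → (M.a d).1 = (M.a d').1 → d = d') :
    (M.a (rot d)).1 ≠ (M.a (rot (M.ph d))).1 := by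
  intro hu
  have hne : M.a (rot d) ≠ M.a (rot (M.ph d)) := by
    intro h
    have h1 := rot_injective (M.a_injective h)
    have h2 : rot (M.a d) = d := h1.symm
    have h4 : (M.a d).1 = d.1 := (congrArg Prod.fst h2 : (rot (M.a d)).1 = d.1)
    have h5 := hp d (M.a d) h4.symm (by rw [M.inv]; exact h4)
    exact M.ne d h5.symm
  obtain ⟨z, hz⟩ := third (M.a (rot d)) (M.a (rot (M.ph d))) hu hne
  set S : Set V := {d.1, (M.ph d).1, (M.ph (M.ph d)).1, (M.a (rot d)).1} with hS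
  have hcut : M.cut S ≤ 2 := by
    have h1 := M.cut_le_of_subset S {rot (M.ph (M.ph d)), z} ?_
    · exact h1.trans (pair_le _ _)
    · intro x hx hx'
      have hx0 : x.1 = d.1 ∨ x.1 = (M.ph d).1 ∨ x.1 = (M.ph (M.ph d)).1 ∨
          x.1 = (M.a (rot d)).1 := by simpa [hS] using hx
      have hn : (M.a x).1 ≠ d.1 ∧ (M.a x).1 ≠ (M.ph d).1 ∧ (M.a x).1 ≠ (M.ph (M.ph d)).1 ∧
          (M.a x).1 ≠ (M.a (rot d)).1 := by
        refine ⟨?_, ?_, ?_, ?_⟩ <;> intro h <;> exact hx' (by simp [hS, h])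
      obtain ⟨n1, n2, n3, n4⟩ := hn
      rcases hx0 with h | h | h | h
      · rcases dart_cases h with h | h | h
        · exact absurd (by rw [h]; rfl) n2
        · exact absurd (by rw [h]) n4
        · exact absurd (by rw [h, rr0 M d h3, M.inv]) n3
      · rcases dart_cases h with h | h | h
        · exact absurd (by rw [h]; rfl) n3
        · exact absurd (by rw [h, ← hu]) n4
        · exact absurd (by rw [h, rr1 M d, M.inv]) n1
      · rcases dart_cases h with h | h | h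
        · refine absurd ?_ n1
          rw [h]
          exact (congrArg Prod.fst h3 : (M.ph (M.ph (M.ph d))).1 = d.1)
        · exact Or.inl h
        · exact absurd (by rw [h, rr1 M (M.ph d), M.inv]) n2
      · rcases hz x h with h | h | h
        · exact absurd (by rw [h, M.inv]; rfl) n1
        · exact absurd (by rw [h, M.inv]; rfl) n2
        · exact Or.inr h
  have hcard : S.ncard ≤ 4 := by
    rw [hS]
    refine (Set.ncard_insert_le _ _).trans ?_
    refine Nat.succ_le_succ ((Set.ncard_insert_le _ _).trans ?_)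
    exact Nat.succ_le_succ (pair_le _ _)
  have h5 := hT S ⟨d.1, by simp [hS]⟩ (by
    intro h
    rw [h, Set.ncard_univ] at hcard
    omega)
  omega

end face

/-- the prism -/
def adjP (i j : Fin 6) : Bool :=
  ((i.val < 3 && j.val < 3) && i != j) || ((3 ≤ i.val && 3 ≤ j.val) && i != j) ||
    (i.val + 3 == j.val) || (j.val + 3 == i.val)

def col : Fin 6 → Fin 3 := ![0, 1, 2, 1, 2, 0]

def lo : Fin 3 → Fin 6 := ![0, 1, 2]

def hi : Fin 3 → Fin 6 := ![3, 4, 5]

theorem lo_hi : (∀ i j : Fin 3, lo i = lo j → i = j) ∧ (∀ i j : Fin 3, hi i = hi j → i = j) ∧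
    (∀ i j : Fin 3, lo i ≠ hi j) := by decide

def rkP : Fin 3 → Fin 6 → ℕ := ![![0, 1, 0, 3, 2, 0], ![0, 0, 1, 0, 3, 2], ![1, 0, 0, 2, 0, 3]]

theorem adjP_symm : ∀ i j, adjP i j = adjP j i := by decide

theorem adjP_card : ∀ i, (Finset.univ.filter fun j => adjP i j = true).card = 3 := by decide

theorem col_proper : ∀ i j, adjP i j = true → col j ≠ col i := by decide

theorem adj_ok : (∀ i j : Fin 3, i ≠ j → adjP (lo i) (lo j) = true) ∧
    (∀ i j : Fin 3, i ≠ j → adjP (hi i) (hi j) = true) ∧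
    (∀ i : Fin 3, adjP (lo i) (hi i) = true) := by decide

theorem rk_ok : ∀ (p : Fin 3) (x y z : Fin 6), adjP x y = true → adjP x z = true → col x ≠ p →
    col y ≠ p → col z ≠ p → rkP p x ≤ rkP p y → rkP p x ≤ rkP p z → y = z := by decide

/-- a map whose adjacency is contained in that of the prism -/
theorem prism [Finite V] (M : CMap V) (e : Fin 6 ≃ V)
    (hp : ∀ d d' : Dt V, d.1 = d'.1 → (M.a d).1 = (M.a d').1 → d = d')
    (hadj : ∀ x : Dt V, adjP (e.symm x.1) (e.symm (M.a x).1) = true) :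
    (∀ i j, adjP i j = true → M.Adj (e i) (e j)) ∧ M.Col := by
  classical
  constructor
  · intro i j hij
    have hinj : Function.Injective fun t : Fin 3 => e.symm (M.a (e i, t)).1 := by
      intro t s h
      exact congrArg Prod.snd (hp (e i, t) (e i, s) rfl (e.symm.injective h))
    have hsub : Finset.univ.image (fun t : Fin 3 => e.symm (M.a (e i, t)).1) ⊆
        Finset.univ.filter fun j => adjP i j = true := by
      intro x hx
      obtain ⟨t, _, rfl⟩ := Finset.mem_image.1 hx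
      have := hadj (e i, t)
      rw [Equiv.symm_apply_apply] at this
      exact Finset.mem_filter.2 ⟨Finset.mem_univ _, this⟩
    have heq := Finset.eq_of_subset_of_card_le hsub (by
      rw [adjP_card, Finset.card_image_of_injective _ hinj]
      simp)
    have hj : j ∈ Finset.univ.image (fun t : Fin 3 => e.symm (M.a (e i, t)).1) := by
      rw [heq]
      exact Finset.mem_filter.2 ⟨Finset.mem_univ _, hij⟩
    obtain ⟨t, _, ht⟩ := Finset.mem_image.1 hj
    exact ⟨t, by rw [← ht, Equiv.apply_symm_apply]⟩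
  · refine ⟨fun v => col (e.symm v), fun x => col_proper _ _ (hadj x), ?_⟩
    intro p C hC hs
    refine M.forest C {v | col (e.symm v) ≠ p} (fun v => rkP p (e.symm v)) ?_ ?_ ?_
    · intro x hx
      have h' : C (M.a x) ≠ 0 := by rw [hC.1]; exact hx
      exact ⟨hs x hx, hs _ h', h'⟩
    · exact fun v _ => hC.2 v
    · intro x x' hxx h1 h2 h3 h4 h5
      refine hp x x' hxx (e.symm.injective ?_)
      have e' := hadj x'
      rw [← hxx] at e'
      exact rk_ok p _ _ _ (hadj x) e' h1 h2 h3 h4 h5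

end Six

open Six in
theorem specSix (hS : SpecSimple) (hD : SpecDis) : SpecSix := by
  classical
  intro V _ M hT hP h6
  have := Fintype.ofFinite V
  obtain ⟨hl, hp⟩ := hS V M hT (by omega)
  obtain ⟨d, hd⟩ := (hD V M hT hP (by omega)).1 h6
  have h3 : M.ph (M.ph (M.ph d)) = d := hd
  have h3' : M.ph (M.ph (M.ph (M.ph d))) = M.ph d := by rw [h3]
  have h3'' : M.ph (M.ph (M.ph (M.ph (M.ph d)))) = M.ph (M.ph d) := by rw [h3]
  have o1 := outer_ne M d h3 hT (by omega) hp
  have o2 := outer_ne M (M.ph d) h3' hT (by omega) hp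
  have o3 := outer_ne M (M.ph (M.ph d)) h3'' hT (by omega) hp
  rw [h3] at o3
  set t0 := d.1 with ht0
  set t1 := (M.ph d).1 with ht1
  set t2 := (M.ph (M.ph d)).1 with ht2
  set u0 := (M.a (rot d)).1 with hu0
  set u1 := (M.a (rot (M.ph d))).1 with hu1
  set u2 := (M.a (rot (M.ph (M.ph d)))).1 with hu2
  -- the darts
  have a0 : (M.a d).1 = t1 := rfl
  have a1 : (M.a (M.ph d)).1 = t2 := rfl
  have a2 : (M.a (M.ph (M.ph d))).1 = t0 :=
    (congrArg Prod.fst h3 : (M.ph (M.ph (M.ph d))).1 = d.1)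
  have b0 : (M.a (rot (rot d))).1 = t2 := by rw [rr0 M d h3, M.inv]
  have b1 : (M.a (rot (rot (M.ph d)))).1 = t0 := by rw [rr1 M d, M.inv]
  have b2 : (M.a (rot (rot (M.ph (M.ph d))))).1 = t1 := by rw [rr1 M (M.ph d), M.inv]
  have n01 : t0 ≠ t1 := fun h => hl d (a0.trans h.symm)
  have n12 : t1 ≠ t2 := fun h => hl (M.ph d) (a1.trans h.symm)
  have n20 : t2 ≠ t0 := fun h => hl (M.ph (M.ph d)) (a2.trans h.symm)
  -- outer neighbours are not on the triangle
  have m0 : u0 ≠ t0 ∧ u0 ≠ t1 ∧ u0 ≠ t2 := by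
    refine ⟨hl (rot d), fun h => ?_, fun h => ?_⟩
    · exact rot_ne d (hp (rot d) d rfl (h.trans a0.symm))
    · exact rot_ne (rot d) (hp (rot (rot d)) (rot d) rfl (b0.trans h.symm))
  have m1 : u1 ≠ t0 ∧ u1 ≠ t1 ∧ u1 ≠ t2 := by
    refine ⟨fun h => ?_, hl (rot (M.ph d)), fun h => ?_⟩
    · exact rot_ne (rot (M.ph d)) (hp (rot (rot (M.ph d))) (rot (M.ph d)) rfl (b1.trans h.symm))
    · exact rot_ne (M.ph d) (hp (rot (M.ph d)) (M.ph d) rfl (h.trans a1.symm))
  have m2 : u2 ≠ t0 ∧ u2 ≠ t1 ∧ u2 ≠ t2 := by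
    refine ⟨fun h => ?_, fun h => ?_, hl (rot (M.ph (M.ph d)))⟩
    · exact rot_ne (M.ph (M.ph d))
        (hp (rot (M.ph (M.ph d))) (M.ph (M.ph d)) rfl (h.trans a2.symm))
    · exact rot_ne (rot (M.ph (M.ph d)))
        (hp (rot (rot (M.ph (M.ph d)))) (rot (M.ph (M.ph d))) rfl (b2.trans h.symm))
  set g : Fin 6 → V := ![t0, t1, t2, u0, u1, u2] with hg
  have ginj : Function.Injective g := by
    intro i j h
    fin_cases i <;> fin_cases j <;> first
      | rfl
      | exact absurd h n01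
      | exact absurd h n01.symm
      | exact absurd h n12
      | exact absurd h n12.symm
      | exact absurd h n20
      | exact absurd h n20.symm
      | exact absurd h m0.1
      | exact absurd h m0.1.symm
      | exact absurd h m0.2.1
      | exact absurd h m0.2.1.symm
      | exact absurd h m0.2.2
      | exact absurd h m0.2.2.symm
      | exact absurd h m1.1
      | exact absurd h m1.1.symm
      | exact absurd h m1.2.1
      | exact absurd h m1.2.1.symm
      | exact absurd h m1.2.2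
      | exact absurd h m1.2.2.symm
      | exact absurd h m2.1
      | exact absurd h m2.1.symm
      | exact absurd h m2.2.1
      | exact absurd h m2.2.1.symm
      | exact absurd h m2.2.2
      | exact absurd h m2.2.2.symm
      | exact absurd h o1
      | exact absurd h o1.symm
      | exact absurd h o2
      | exact absurd h o2.symm
      | exact absurd h o3
      | exact absurd h o3.symm
  have gbij : Function.Bijective g :=
    (Fintype.bijective_iff_injective_and_card g).2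
      ⟨ginj, by rw [← Nat.card_eq_fintype_card (α := V), h6]; rfl⟩
  set e : Fin 6 ≃ V := Equiv.ofBijective g gbij with he
  have eg : ∀ i, e i = g i := fun i => rfl
  -- darts at the triangle
  have key : ∀ (x : Dt V) (i j : Fin 6), i.val < 3 → x.1 = g i → (M.a x).1 = g j →
      adjP i j = true := by
    intro x i j hi hx hj
    have hc : ∀ (k : Fin 6), (M.a x).1 = g k → j = k := fun k hk => ginj (hj.symm.trans hk)
    fin_cases i
    · rcases dart_cases (d := d) hx with h | h | h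
      · rw [hc 1 (by rw [h]; rfl)]; decide
      · rw [hc 3 (by rw [h]; rfl)]; decide
      · rw [hc 2 (by rw [h, b0]; rfl)]; decide
    · rcases dart_cases (d := M.ph d) hx with h | h | h
      · rw [hc 2 (by rw [h]; rfl)]; decide
      · rw [hc 4 (by rw [h]; rfl)]; decide
      · rw [hc 0 (by rw [h, b1]; rfl)]; decide
    · rcases dart_cases (d := M.ph (M.ph d)) hx with h | h | h
      · rw [hc 0 (by rw [h, a2]; rfl)]; decide
      · rw [hc 5 (by rw [h]; rfl)]; decide
      · rw [hc 1 (by rw [h, b2]; rfl)]; decide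
    · simp at hi
    · simp at hi
    · simp at hi
  have hadj : ∀ x : Dt V, adjP (e.symm x.1) (e.symm (M.a x).1) = true := by
    intro x
    set i := e.symm x.1 with hi
    set j := e.symm (M.a x).1 with hj
    have hi' : x.1 = g i := by rw [← eg, hi, Equiv.apply_symm_apply]
    have hj' : (M.a x).1 = g j := by rw [← eg, hj, Equiv.apply_symm_apply]
    have hij : i ≠ j := by
      intro h
      rw [h] at hi'
      exact hl x (hj'.trans hi'.symm)
    by_cases h1 : i.val < 3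
    · exact key x i j h1 hi' hj'
    · by_cases h2 : j.val < 3
      · have := key (M.a x) j i h2 hj' (by rw [M.inv]; exact hi')
        rw [adjP_symm]
        exact this
      · have : ∀ a b : Fin 6, ¬ a.val < 3 → ¬ b.val < 3 → a ≠ b → adjP a b = true := by decide
        exact this i j h1 h2 hij
  obtain ⟨hA, hCol⟩ := prism M e hp hadj
  have hlo : ∀ i : Fin 3, (![t0, t1, t2] : Fin 3 → V) i = g (lo i) := by
    intro i; fin_cases i <;> rfl
  have hhi : ∀ i : Fin 3, (![u0, u1, u2] : Fin 3 → V) i = g (hi i) := by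
    intro i; fin_cases i <;> rfl
  refine ⟨⟨![t0, t1, t2], ?_, ?_, ![u0, u1, u2], ?_, ?_, ?_, ?_⟩, hCol⟩
  · intro i j h
    rw [hlo, hlo] at h
    exact lo_hi.1 i j (ginj h)
  · intro i j hij
    rw [hlo, hlo]
    exact hA _ _ (adj_ok.1 i j hij)
  · intro i j h
    rw [hhi, hhi] at h
    exact lo_hi.2.1 i j (ginj h)
  · intro i j hij
    rw [hhi, hhi]
    exact hA _ _ (adj_ok.2.1 i j hij)
  · intro i j h
    rw [hlo, hhi] at h
    exact lo_hi.2.2 i j (ginj h)
  · intro i
    rw [hlo, hhi]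
    exact hA _ _ (adj_ok.2.2 i)

end Acyc75
end

section
/-!
# MP_1e9f59_co : modules BDRY and GLUE
-/
set_option autoImplicit false

namespace Acyc75

open CMap

theorem specBdry : SpecBdry := by
  intro V M m k T hT E
  refine ⟨?_, ?_⟩
  · intro j j' hjj
    obtain ⟨i, t, h1⟩ := hT j
    obtain ⟨i', t', h2⟩ := hT j'
    have e1 := E.tgt i t
    have e2 := E.tgt i' t'
    rw [h1, Sum.elim_inr] at e1
    rw [h2, Sum.elim_inr] at e2
    have e3 : M.a (E.x i, E.pos i + t) = M.a (E.x i', E.pos i' + t') := by rw [e1, e2, hjj]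
    have e4 := M.a_injective e3
    have e5 : i = i' := E.inj (congrArg Prod.fst e4)
    subst e5
    have e6 : E.pos i + t = E.pos i + t' := congrArg Prod.snd e4
    have e7 : t = t' := add_left_cancel e6
    subst e7
    rw [h1] at h2
    exact Sum.inr_injective h2
  · intro d
    constructor
    · rintro ⟨hd, i, hi⟩
      have e0 : (E.x i, E.pos i + ((M.a d).2 - E.pos i)) = M.a d := by
        rw [add_sub_cancel, hi]
      have e1 := E.tgt i ((M.a d).2 - E.pos i)
      rw [e0, M.inv] at e1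
      rcases hq : T i ((M.a d).2 - E.pos i) with q | j
      · rw [hq, Sum.elim_inl] at e1
        exact absurd ⟨q.1, by rw [e1]⟩ hd
      · rw [hq, Sum.elim_inr] at e1
        exact ⟨j, e1.symm⟩
    · rintro ⟨j, rfl⟩
      refine ⟨E.out j, ?_⟩
      obtain ⟨i, t, h1⟩ := hT j
      have e1 := E.tgt i t
      rw [h1, Sum.elim_inr] at e1
      rw [← e1, M.inv]
      exact ⟨i, rfl⟩

theorem Glue.mem_dart {V : Type} {M : CMap V} {m k : ℕ} {T : Tab m k} (E : M.Emb T) {d : Dt V}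
    (hd : d.1 ∈ Set.range E.x) : ∃ i t, d = (E.x i, E.pos i + t) := by
  obtain ⟨i, hi⟩ := hd
  refine ⟨i, d.2 - E.pos i, ?_⟩
  rw [add_sub_cancel, hi]

theorem specGlue : SpecGlue := by
  intro V _ M m k T hT E f g L h1 h2 h3 h4
  set h : V → Fin 3 := Function.extend E.x g f with hh
  have hx : ∀ i, h (E.x i) = g i := fun i => E.inj.extend_apply g f i
  have ho : ∀ v, v ∉ Set.range E.x → h v = f v := fun v hv => Function.extend_apply' g f v hv
  -- properness for darts of the configuration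
  have hp : ∀ d : Dt V, d.1 ∈ Set.range E.x → h (M.a d).1 ≠ h d.1 := by
    intro d hd
    obtain ⟨i, t, rfl⟩ := Glue.mem_dart E hd
    have e1 := h4.1 i t
    rw [E.tgt i t]
    rcases hq : T i t with q | j
    · rw [hq, Sum.elim_inl] at e1
      rw [Sum.elim_inl]
      change h (E.x q.1) ≠ h (E.x i)
      rw [hx, hx]
      exact e1.symm
    · rw [hq, Sum.elim_inr] at e1
      rw [Sum.elim_inr]
      change h (E.b j).1 ≠ h (E.x i)
      rw [hx, ho _ (E.out j)]
      exact e1.symm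
  refine ⟨h, ?_, ?_⟩
  · intro d
    by_cases hd : d.1 ∈ Set.range E.x
    · exact hp d hd
    · by_cases hd' : (M.a d).1 ∈ Set.range E.x
      · have := hp (M.a d) hd'
        rw [M.inv] at this
        exact this.symm
      · rw [ho _ hd, ho _ hd']
        exact h1 d hd hd'
  · intro p C hC hCp
    have hR : M.RCh (Set.range E.x) C := ⟨fun d _ _ => hC.1 d, fun v _ => hC.2 v⟩
    have hS : Sup (Set.range E.x) f p C := by
      intro d hd hCd
      rw [← ho _ hd]
      exact hCp d hCd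
    have key := h4.2 p (fun i t => C (E.x i, E.pos i + t)) (fun j => C (E.b j)) ?_ ?_ ?_ trivial
      (h2 p _ ⟨C, hR, hS, fun _ => rfl⟩)
    · intro d
      by_cases hd : d.1 ∈ Set.range E.x
      · obtain ⟨i, t, rfl⟩ := Glue.mem_dart E hd
        exact key.2 i t
      · exact h3 p C hR hS key.1 d hd
    · intro i t
      have e1 := hC.1 (E.x i, E.pos i + t)
      rw [E.tgt i t] at e1
      rw [← e1]
      rcases T i t with q | j <;> rfl
    · intro i
      have e1 := hC.sum (E.x i, E.pos i)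
      simp only [rot] at e1
      rw [add_assoc (E.pos i) 1 1] at e1
      rw [add_zero]
      exact e1
    · intro i t hne
      rw [← hx i]
      exact hCp _ hne

end Acyc75
end

section
/-!
# MP_1e9f59_co : MIR, the mirror image of a map
-/
set_option autoImplicit false

namespace Acyc75

open CMap

namespace Mir

variable {V : Type}

@[simp] theorem rfl3_fst (d : Dt V) : (rfl3 d).1 = d.1 := rfl

theorem rfl3_inj : Function.Injective (rfl3 : Dt V → Dt V) := fun d d' h => by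
  rw [← rfl3_rfl3 d, h, rfl3_rfl3]

theorem rot_rfl3_rot (d : Dt V) : rot (rfl3 (rot d)) = rfl3 d := by
  obtain ⟨v, t⟩ := d
  simp only [rot, rfl3]
  congr 1
  revert t; decide

theorem rfl3_rot_rfl3 (d : Dt V) : rfl3 (rot (rfl3 d)) = rot (rot d) := by
  obtain ⟨v, t⟩ := d
  simp only [rot, rfl3]
  congr 1
  revert t; decide

theorem mir_a (M : CMap V) (d : Dt V) : M.mir.a d = rfl3 (M.a (rfl3 d)) := rfl

theorem mir_ph (M : CMap V) (d : Dt V) : M.mir.ph d = rot (rfl3 (M.a (rfl3 d))) := rfl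

theorem mir_cut (M : CMap V) (S : Set V) : M.mir.cut S = M.cut S := by
  have h : {d : Dt V | d.1 ∈ S ∧ (M.mir.a d).1 ∉ S} =
      rfl3 '' {d : Dt V | d.1 ∈ S ∧ (M.a d).1 ∉ S} := by
    ext d
    constructor
    · intro hd
      exact ⟨rfl3 d, hd, rfl3_rfl3 d⟩
    · rintro ⟨e, he, rfl⟩
      refine ⟨he.1, ?_⟩
      rw [mir_a, rfl3_rfl3]
      exact he.2
  unfold CMap.cut
  rw [h, Set.ncard_image_of_injective _ rfl3_inj]

theorem sum_rfl3 (C : Dt V → ZMod 2) (v : V) :
    C (rfl3 (v, 0)) + C (rfl3 (v, 1)) + C (rfl3 (v, 2)) = C (v, 0) + C (v, 1) + C (v, 2) := by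
  have h0 : (rfl3 (v, 0) : Dt V) = (v, 0) := Prod.ext rfl (by decide : (-0 : Fin 3) = 0)
  have h1 : (rfl3 (v, 1) : Dt V) = (v, 2) := Prod.ext rfl (by decide : (-1 : Fin 3) = 2)
  have h2 : (rfl3 (v, 2) : Dt V) = (v, 1) := Prod.ext rfl (by decide : (-2 : Fin 3) = 1)
  rw [h0, h1, h2]
  ring

theorem ev_of_mir (M : CMap V) {C : Dt V → ZMod 2} (h : M.mir.Ev C) :
    M.Ev (fun d => C (rfl3 d)) := by
  refine ⟨fun d => ?_, fun v => ?_⟩
  · have := h.1 (rfl3 d)
    rw [mir_a, rfl3_rfl3] at this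
    exact this
  · change C (rfl3 (v, 0)) + C (rfl3 (v, 1)) + C (rfl3 (v, 2)) = 0
    rw [sum_rfl3]; exact h.2 v

theorem mir_ev (M : CMap V) {C : Dt V → ZMod 2} (h : M.Ev C) :
    M.mir.Ev (fun d => C (rfl3 d)) := by
  refine ⟨fun d => ?_, fun v => ?_⟩
  · change C (rfl3 (rfl3 (M.a (rfl3 d)))) = C (rfl3 d)
    rw [rfl3_rfl3]; exact h.1 _
  · change C (rfl3 (v, 0)) + C (rfl3 (v, 1)) + C (rfl3 (v, 2)) = 0
    rw [sum_rfl3]; exact h.2 v

theorem mir_plan (M : CMap V) (h : M.Plan) : M.mir.Plan := by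
  intro C hC
  obtain ⟨A, hA, hA2⟩ := h _ (ev_of_mir M hC)
  refine ⟨fun d => A (M.a (rfl3 d)), fun d => ?_, fun d => ?_⟩
  · change A (M.a (rfl3 (rot (rfl3 (M.a (rfl3 d)))))) = A (M.a (rfl3 d))
    rw [rfl3_rot_rfl3, ← hA (M.a (rot (rot (M.a (rfl3 d))))), ph_a_rot_rot]
  · change A (M.a (rfl3 d)) + A (M.a (rfl3 (rfl3 (M.a (rfl3 d))))) = C d
    rw [rfl3_rfl3, M.inv, add_comm, hA2, rfl3_rfl3]

theorem col_of_mir (M : CMap V) (h : M.mir.Col) : M.Col := by
  obtain ⟨f, hf, hf2⟩ := h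
  refine ⟨f, fun d => ?_, fun p C hC hp d => ?_⟩
  · have := hf (rfl3 d)
    rw [mir_a, rfl3_rfl3] at this
    exact this
  · have := hf2 p _ (mir_ev M hC) (fun e he => hp (rfl3 e) he) (rfl3 d)
    change C (rfl3 (rfl3 d)) = 0 at this
    rwa [rfl3_rfl3] at this

theorem mir_iter (M : CMap V) (n : ℕ) (d : Dt V) :
    M.mir.ph^[n] (rfl3 (M.a (M.ph^[n] d))) = rfl3 (M.a d) := by
  induction n with
  | zero => rfl
  | succ n ih =>
    rw [Function.iterate_succ_apply, Function.iterate_succ_apply' M.ph]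
    have : M.mir.ph (rfl3 (M.a (M.ph (M.ph^[n] d)))) = rfl3 (M.a (M.ph^[n] d)) := by
      rw [mir_ph, rfl3_rfl3, M.inv, ph_def, rot_rfl3_rot]
    rw [this, ih]

end Mir

theorem specMir : SpecMir := by
  intro V _ M
  refine ⟨fun h S hS hS' => ?_, Mir.mir_plan M, Mir.col_of_mir M, fun h S hS => ?_,
    Mir.mir_iter M⟩
  · rw [Mir.mir_cut]; exact h S hS hS'
  · rw [Mir.mir_cut] at hS; exact h S hS

end Acyc75
end

section
/-!
# MP_1e9f59_co : THREE, the case of a 3-edge-cut with two large sides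
-/
set_option autoImplicit false

namespace Acyc75

open CMap

namespace Three

/-- One side of a 3-edge-cut with two large sides. -/
theorem side (hCut : SpecCut) (hCtr : SpecCtr) (hCG : SpecCtrGood) (hU2 : SpecU2)
    {V : Type} [Finite V] (M : CMap V) (hT : M.TEC) (hP : M.Plan) (hIH : IH (Nat.card V))
    (S : Set V) (hS : M.cut S = 3) (h1 : 5 ≤ S.ncard) (h2 : 5 ≤ Sᶜ.ncard) :
    (∃ f c, M.SideGood S f c) ∨ M.SideU S := by
  obtain ⟨M', hM', hT', hP'⟩ := hCtr V M S hT hP hS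
  have hG := hCG V M S M' hS hM'
  have hcard : Nat.card (Option S) = S.ncard + 1 := by
    rw [Finite.card_option, Nat.card_coe_set_eq]
  have hodd : S.ncard % 2 = 1 := by
    have := (hCut V M S S).2.1
    rw [hS] at this
    omega
  have hsum : S.ncard + Sᶜ.ncard = Nat.card V := Set.ncard_add_ncard_compl S
  by_cases h8 : Nat.card (Option S) = 8
  · right
    exact hG.2 (hU2 (Option S) M' hT' hP' h8 none)
  · left
    refine hG.1 (hIH (Option S) M' hT' hP' ?_ ?_ h8 ?_)
    · omega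
    · omega
    · omega

end Three

theorem specThree (hCut : SpecCut) (hCtr : SpecCtr) (hCG : SpecCtrGood) (hMerge : SpecMerge)
    (hU2 : SpecU2) : SpecThree := by
  intro V _ M hT hP hIH hN
  unfold CMap.NT5 at hN
  push Not at hN
  obtain ⟨S, hS, h1, h2⟩ := hN
  have hSc : M.cut Sᶜ = 3 := by rw [(hCut V M S S).1, hS]
  have hA := Three.side hCut hCtr hCG hU2 M hT hP hIH S hS h1 h2
  have hB := Three.side hCut hCtr hCG hU2 M hT hP hIH Sᶜ hSc h2 (by rw [compl_compl]; exact h1)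
  rcases hA with hA | hA <;> rcases hB with hB | hB
  · exact (hMerge V M S hS).1 hA hB
  · exact (hMerge V M S hS).2.1 hA hB
  · exact (hMerge V M Sᶜ hSc).2.1 hB (by rw [compl_compl]; exact hA)
  · exact (hMerge V M S hS).2.2 hA hB

end Acyc75
end
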