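import Pool.Agent.Lib.MP_1e9f59_co.Fin54c
import Pool.Agent.Lib.MP_1e9f59_co.Three

section
set_option autoImplicit false

namespace Acyc75

open CMap

namespace Pinch

variable {V : Type}

lemma surT_Tp : SurT Tp := by
  intro j
  fin_cases j
  · exact ⟨0, 1, rfl⟩
  · exact ⟨1, 1, rfl⟩
  · exact ⟨2, 1, rfl⟩
  · exact ⟨3, 1, rfl⟩
  · exact ⟨4, 1, rfl⟩

lemma bdry_of_emb (M : CMap V) {m k : ℕ} (T : Tab m k) (hT : SurT T) (E : M.Emb T) :
    M.Bdry (Set.range E.x) E.b := by
  refine ⟨?_, ?_⟩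
  · intro j j' h
    obtain ⟨i, t, h1⟩ := hT j
    obtain ⟨i', t', h2⟩ := hT j'
    have e1 := E.tgt i t
    have e2 := E.tgt i' t'
    rw [h1] at e1
    rw [h2] at e2
    simp only [Sum.elim_inr] at e1 e2
    have e3 : ((E.x i, E.pos i + t) : Dt V) = (E.x i', E.pos i' + t') := by
      rw [← M.inv (E.x i, E.pos i + t), e1, h, ← e2, M.inv]
    have e4 := congrArg Prod.fst e3
    have e5 := congrArg Prod.snd e3
    simp only at e4 e5
    have e6 := E.inj e4
    subst e6
    have e7 := add_left_cancel e5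
    subst e7
    rw [h1] at h2
    exact Sum.inr.inj h2
  · intro d
    constructor
    · rintro ⟨h1, i, hi⟩
      have e1 := E.tgt i ((M.a d).2 - E.pos i)
      rw [add_sub_cancel, hi] at e1
      rw [show (((M.a d).1, (M.a d).2) : Dt V) = M.a d from rfl, M.inv] at e1
      rcases h2 : T i ((M.a d).2 - E.pos i) with q | j
      · rw [h2] at e1
        simp only [Sum.elim_inl] at e1
        exact absurd ⟨q.1, (congrArg Prod.fst e1).symm⟩ h1
      · rw [h2] at e1
        simp only [Sum.elim_inr] at e1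
        exact ⟨j, e1.symm⟩
    · rintro ⟨j, rfl⟩
      refine ⟨E.out j, ?_⟩
      obtain ⟨i, t, h1⟩ := hT j
      have e1 := E.tgt i t
      rw [h1] at e1
      simp only [Sum.elim_inr] at e1
      rw [← e1, M.inv]
      exact ⟨i, rfl⟩

/-- A set outside the pentagon with a small cut contains at most two boundary vertices. -/
lemma small_cut [Finite V] (M : CMap V) (E : M.Emb Tp) (hT : M.TEC) (hN : M.NT)
    (hq : Function.Injective fun i => (E.b i).1) (U : Set V) (hU : ∀ v ∈ U, v ∉ Set.range E.x)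
    (hc : M.cut U ≤ 4) : {j : Fin 5 | (E.b j).1 ∈ U}.ncard ≤ 2 := by
  by_contra hk
  push Not at hk
  have hB := bdry_of_emb M Tp surT_Tp E
  have h1 := Cut.cut_union_bdry M (Set.range E.x) U E.b hB hU
  set k := {j : Fin 5 | (E.b j).1 ∈ U}.ncard with hkdef
  set W := (U ∪ Set.range E.x)ᶜ with hW
  have hWc : M.cut W = M.cut (U ∪ Set.range E.x) := Cut.cut_compl M _
  have hrange : (Set.range E.x).ncard = 5 := by
    rw [← Set.image_univ, Set.ncard_image_of_injective _ E.inj, Set.ncard_univ,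
      Nat.card_eq_fintype_card, Fintype.card_fin]
  -- the boundary vertices outside `U` lie in `W`
  have hWk : 5 - k ≤ W.ncard := by
    have e1 : {j : Fin 5 | (E.b j).1 ∈ U}ᶜ.ncard = 5 - k := by
      have := Set.ncard_add_ncard_compl {j : Fin 5 | (E.b j).1 ∈ U}
      rw [Nat.card_eq_fintype_card, Fintype.card_fin, ← hkdef] at this
      omega
    rw [← e1, ← Set.ncard_image_of_injective _ hq]
    refine Set.ncard_le_ncard ?_ (Set.toFinite _)
    rintro _ ⟨j, hj, rfl⟩
    rintro (h | h)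
    · exact hj h
    · exact E.out j h
  by_cases hW0 : W.Nonempty
  · have hWu : W ≠ Set.univ := by
      intro h
      have : E.x 0 ∈ W := h ▸ Set.mem_univ _
      exact this (Or.inr ⟨0, rfl⟩)
    have h3 := hT W hW0 hWu
    have h4 : M.cut W = 3 := by omega
    have h5 : k = 3 := by omega
    rcases hN W h4 with h6 | h6
    · omega
    · rw [hW, compl_compl] at h6
      have : (Set.range E.x).ncard ≤ (U ∪ Set.range E.x).ncard :=
        Set.ncard_le_ncard Set.subset_union_right (Set.toFinite _)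
      omega
  · rw [Set.not_nonempty_iff_eq_empty] at hW0
    rw [hW0, Set.ncard_empty] at hWk
    omega

lemma cut_eq_four [Finite V] (M : CMap V) (E : M.Emb Tp) (hT : M.TEC) (hN : M.NT)
    (hq : Function.Injective fun i => (E.b i).1) (U : Set V) (hU : ∀ v ∈ U, v ∉ Set.range E.x)
    (hc : M.cut U ≤ 4) (i j : Fin 5) (hij : i ≠ j) (hi : (E.b i).1 ∈ U) (hj : (E.b j).1 ∈ U) :
    M.cut U = 4 := by
  have h1 : U ≠ Set.univ := fun h => hU _ (h ▸ Set.mem_univ (E.x 0)) ⟨0, rfl⟩
  have h2 := hT U ⟨_, hi⟩ h1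
  by_contra h3
  have h4 : M.cut U = 3 := by omega
  rcases hN U h4 with h5 | h5
  · rw [Set.ncard_eq_one] at h5
    obtain ⟨a, ha⟩ := h5
    rw [ha, Set.mem_singleton_iff] at hi hj
    exact hij (hq (by simp only; rw [hi, hj]))
  · have hrange : (Set.range E.x).ncard = 5 := by
      rw [← Set.image_univ, Set.ncard_image_of_injective _ E.inj, Set.ncard_univ,
        Nat.card_eq_fintype_card, Fintype.card_fin]
    have : (Set.range E.x).ncard ≤ Uᶜ.ncard :=
      Set.ncard_le_ncard (fun x hx h => hU x h hx) (Set.toFinite _)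
    omega

lemma singleton_of_three [Finite V] (M : CMap V) (E : M.Emb Tp) (hN : M.NT)
    (U : Set V) (hU : ∀ v ∈ U, v ∉ Set.range E.x) (hc : M.cut U = 3) (v : V) (hv : v ∈ U) :
    U = {v} := by
  rcases hN U hc with h5 | h5
  · rw [Set.ncard_eq_one] at h5
    obtain ⟨a, ha⟩ := h5
    rw [ha, Set.mem_singleton_iff] at hv
    rw [ha, hv]
  · exfalso
    have hrange : (Set.range E.x).ncard = 5 := by
      rw [← Set.image_univ, Set.ncard_image_of_injective _ E.inj, Set.ncard_univ,
        Nat.card_eq_fintype_card, Fintype.card_fin]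
    have : (Set.range E.x).ncard ≤ Uᶜ.ncard :=
      Set.ncard_le_ncard (fun x hx h => hU x h hx) (Set.toFinite _)
    omega

/-- Two vertices with a cut of size four are adjacent. -/
lemma adj_of_cut [Finite V] (M : CMap V) (hT : M.TEC) (hV : 2 ≤ Nat.card V) (u w : V)
    (huw : u ≠ w) (h : M.cut {u, w} = 4) : M.Adj u w := by
  have h1 := Cut.darts_eq M ({u, w} : Set V)
  rw [Set.ncard_pair huw, h] at h1
  have h2 : ({d : Dt V | d.1 ∈ ({u, w} : Set V) ∧ (M.a d).1 ∈ ({u, w} : Set V)}).Nonempty := by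
    rw [← Set.ncard_pos]; omega
  obtain ⟨d, hd1, hd2⟩ := h2
  have h3 := Cut.no_loop M hT hV d
  simp only [Set.mem_insert_iff, Set.mem_singleton_iff] at hd1 hd2
  rcases hd1 with h4 | h4
  · rcases hd2 with h5 | h5
    · exact absurd (h5.trans h4.symm) h3
    · refine ⟨d.2, ?_⟩
      rw [← h4]
      exact h5
  · rcases hd2 with h5 | h5
    · refine ⟨(M.a d).2, ?_⟩
      rw [← h5]
      show (M.a (M.a d)).1 = w
      rw [M.inv, h4]
    · exact absurd (h5.trans h4.symm) h3

end Pinch

open Pinch in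
theorem specPinch : SpecPinch := by
  intro V _ M E hT hN hq h01 h12
  by_contra hcon
  push Not at hcon
  obtain ⟨hA, hB⟩ := hcon
  unfold CMap.CutP at hA hB
  push Not at hA hB
  obtain ⟨S, hSX, hS0, hS1, hSc⟩ := hA
  obtain ⟨T, hTX, hT1, hT2, hTc⟩ := hB
  have hSc' : M.cut S ≤ 4 := by omega
  have hTc' : M.cut T ≤ 4 := by omega
  have hV : 2 ≤ Nat.card V := by
    have : 5 ≤ Nat.card V := by
      have h := Nat.card_le_card_of_injective E.x E.inj
      rwa [Nat.card_eq_fintype_card, Fintype.card_fin] at h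
    omega
  -- the boundary vertices in `S`
  have key : ∀ (U : Set V), (∀ v ∈ U, v ∉ Set.range E.x) → M.cut U ≤ 4 → ∀ i j l : Fin 5,
      i ≠ j → i ≠ l → j ≠ l → (E.b i).1 ∈ U → (E.b j).1 ∈ U → (E.b l).1 ∉ U := by
    intro U hU hc i j l hij hil hjl hi hj hl
    have h1 := small_cut M E hT hN hq U hU hc
    have h2 : ({i, j, l} : Set (Fin 5)).ncard ≤ {j : Fin 5 | (E.b j).1 ∈ U}.ncard := by
      refine Set.ncard_le_ncard ?_ (Set.toFinite _)
      rintro x (rfl | rfl | rfl)
      · exact hi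
      · exact hj
      · exact hl
    have h3 : ({i, j, l} : Set (Fin 5)).ncard = 3 := by
      rw [Set.ncard_insert_of_notMem, Set.ncard_pair hjl]
      simp only [Set.mem_insert_iff, Set.mem_singleton_iff, not_or]
      exact ⟨hij, hil⟩
    omega
  have hS2 : (E.b 2).1 ∉ S := key S hSX hSc' 0 1 2 (by decide) (by decide) (by decide) hS0 hS1
  have hT0 : (E.b 0).1 ∉ T := key T hTX hTc' 1 2 0 (by decide) (by decide) (by decide) hT1 hT2
  have c1 := cut_eq_four M E hT hN hq S hSX hSc' 0 1 (by decide) hS0 hS1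
  have hU : ∀ v ∈ S ∪ T, v ∉ Set.range E.x := by
    rintro v (hv | hv)
    · exact hSX v hv
    · exact hTX v hv
  have h5 : 5 ≤ M.cut (S ∪ T) := by
    by_contra h6
    have h7 : M.cut (S ∪ T) ≤ 4 := by omega
    exact key (S ∪ T) hU h7 0 1 2 (by decide) (by decide) (by decide) (Or.inl hS0) (Or.inl hS1)
      (Or.inr hT2)
  have hX0 : ∀ C : Set V, C.Nonempty → (∀ v ∈ C, v ∉ Set.range E.x) → 3 ≤ M.cut C := by
    intro C hC hCX
    exact hT C hC fun h => hCX _ (h ▸ Set.mem_univ (E.x 0)) ⟨0, rfl⟩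
  have h1 := Cut.cut_submod M S T
  have h2 := hX0 (S ∩ T) ⟨_, hS1, hT1⟩ (fun v hv => hSX v hv.1)
  have h3 := Cut.cut_posimod M S T
  have h4 := hX0 (S \ T) ⟨_, hS0, hT0⟩ (fun v hv => hSX v hv.1)
  have h6 := hX0 (T \ S) ⟨_, hT2, hS2⟩ (fun v hv => hTX v hv.1)
  have he : 1 ≤ {d : Dt V | d.1 ∈ S ∩ T ∧ (M.a d).1 ∉ S ∪ T}.ncard := by
    rw [Nat.one_le_iff_ne_zero, Ne, Set.ncard_eq_zero (Set.toFinite _)]
    intro h7
    have hB := bdry_of_emb M Tp surT_Tp E
    have : E.b 1 ∈ {d : Dt V | d.1 ∈ S ∩ T ∧ (M.a d).1 ∉ S ∪ T} :=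
      ⟨⟨hS1, hT1⟩, fun h8 => hU _ h8 ((hB.2 (E.b 1)).2 ⟨1, rfl⟩).2⟩
    rw [h7] at this
    exact this
  have s1 := singleton_of_three M E hN (S ∩ T) (fun v hv => hSX v hv.1) (by omega) _ ⟨hS1, hT1⟩
  have s2 := singleton_of_three M E hN (S \ T) (fun v hv => hSX v hv.1) (by omega) _ ⟨hS0, hT0⟩
  have hS : S = {(E.b 0).1, (E.b 1).1} := by
    rw [← Set.sdiff_union_inter S T, s1, s2]
    rfl
  rw [hS] at c1
  have hne : (E.b 0).1 ≠ (E.b 1).1 := fun h => absurd (hq h) (by decide)
  exact h01 (adj_of_cut M hT hV _ _ hne c1)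

end Acyc75
end

section
/-!
# MP_1e9f59_co : NC53, NC54

Non-crossing of the boundary vectors realised outside two adjacent faces. The proof is a computation
with a face potential `A` of the first chain: the product of the second chain with `A` is again a
chain outside `X` if the two chains are vertex-disjoint, so its boundary sum vanishes.
-/
set_option autoImplicit false

namespace Acyc75

namespace NCr

open CMap

theorem ei_apply {k : ℕ} (i t : Fin k) : ei i t = if t = i then 1 else 0 := by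
  unfold ei
  rw [Pi.single_apply]

theorem sum_ei_mul {k : ℕ} (i l : Fin k) (g : Fin k → ZMod 2) :
    ∑ t, (ei i + ei l) t * g t = g i + g l := by
  simp only [Pi.add_apply, ei_apply, add_mul, Finset.sum_add_distrib, ite_mul, one_mul, zero_mul,
    Finset.sum_ite_eq', Finset.mem_univ, if_true]

theorem ei_left {k : ℕ} {i l : Fin k} (h : i ≠ l) : (ei i + ei l) i = 1 := by
  simp [ei_apply, h]

theorem ei_right {k : ℕ} {i l : Fin k} (h : i ≠ l) : (ei i + ei l) l = 1 := by
  simp [ei_apply, h.symm]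

theorem ei_other {k : ℕ} {i l t : Fin k} (h : t ≠ i) (h' : t ≠ l) : (ei i + ei l) t = 0 := by
  simp [ei_apply, h, h']

variable {V : Type} {M : CMap V}

/-- The boundary sum of a chain vanishes. -/
theorem sum_bdry [Finite V] {X : Set V} {k : ℕ} {b : Fin k → Dt V} (hb : M.Bdry X b)
    {C : Dt V → ZMod 2} (hC : M.RCh X C) : ∑ i, C (b i) = 0 := by
  classical
  have := Fintype.ofFinite V
  have h := par M Xᶜ C (fun d h1 h2 => hC.1 d h1 h2) (fun v hv => hC.2 v hv)
  have hE : Finset.univ.image b =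
      Finset.univ.filter (fun d : Dt V => d.1 ∈ Xᶜ ∧ (M.a d).1 ∉ Xᶜ) := by
    ext d
    have h1 := hb.2 d
    simp only [Finset.mem_image, Finset.mem_univ, true_and, Finset.mem_filter]
    rw [← h1]
    simp
  rw [← Finset.sum_image (s := Finset.univ) (g := b) (f := C) (fun x _ y _ hxy => hb.1 hxy), hE]
  convert h

/-- The crossing property of a potential of the first chain. -/
def Crs (M : CMap V) (X : Set V) {k : ℕ} (b : Fin k → Dt V) (i j l n : Fin k) : Prop :=
  ∀ C1 : Dt V → ZMod 2, M.RCh X C1 → (∀ t, C1 (b t) = (ei i + ei l) t) →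
    ∃ A : Dt V → ZMod 2, (∀ d : Dt V, d.1 ∉ X → A (rot d) = A d + C1 d) ∧
      (∀ d : Dt V, d.1 ∉ X → A (M.a d) = A d + C1 d) ∧ A (b j) ≠ A (b n)

theorem cross [Finite V] {X : Set V} {k : ℕ} {b : Fin k → Dt V} (hb : M.Bdry X b)
    {i j l n : Fin k} (hH : Crs M X b i j l n) {C1 C2 : Dt V → ZMod 2} (h1 : M.RCh X C1)
    (b1 : ∀ t, C1 (b t) = (ei i + ei l) t) (h2 : M.RCh X C2)
    (b2 : ∀ t, C2 (b t) = (ei j + ei n) t)
    (hdis : ∀ d : Dt V, d.1 ∉ X → (∀ e : Dt V, e.1 = d.1 → C1 e = 0) ∨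
      ∀ e : Dt V, e.1 = d.1 → C2 e = 0) : False := by
  obtain ⟨A, hr, ha, hne⟩ := hH C1 h1 b1
  have hG : M.RCh X (fun d => C2 d * A d) := by
    constructor
    · intro d hd hd'
      change C2 (M.a d) * A (M.a d) = C2 d * A d
      rw [h2.1 d hd hd', ha d hd]
      rcases hdis d hd with h | h
      · rw [h d rfl, add_zero]
      · rw [h d rfl, zero_mul, zero_mul]
    · intro v hv
      change C2 (v, 0) * A (v, 0) + C2 (v, 1) * A (v, 1) + C2 (v, 2) * A (v, 2) = 0
      rcases hdis (v, 0) hv with h | h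
      · have e1 : A (v, 1) = A (v, 0) := by
          have := hr (v, 0) hv
          rw [h (v, 0) rfl, add_zero] at this
          exact this
        have e2 : A (v, 2) = A (v, 1) := by
          have := hr (v, 1) hv
          rw [h (v, 1) rfl, add_zero] at this
          exact this
        rw [e2, e1, ← add_mul, ← add_mul, h2.2 v hv, zero_mul]
      · rw [h (v, 0) rfl, h (v, 1) rfl, h (v, 2) rfl]
        simp
  have hs := sum_bdry hb hG
  simp only [b2] at hs
  rw [sum_ei_mul j n (fun t => A (b t))] at hs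
  exact hne (zmod2_add_eq_zero.mp hs)

theorem share : ∀ a0 a1 a2 b0 b1 b2 : ZMod 2, a0 + a1 + a2 = 0 → b0 + b1 + b2 = 0 →
    (a0 ≠ 0 ∨ a1 ≠ 0 ∨ a2 ≠ 0) → (b0 ≠ 0 ∨ b1 ≠ 0 ∨ b2 ≠ 0) →
    (a0 ≠ 0 ∧ b0 ≠ 0) ∨ (a1 ≠ 0 ∧ b1 ≠ 0) ∨ (a2 ≠ 0 ∧ b2 ≠ 0) := by decide

theorem third_unique : ∀ p p' x y : Fin 3, p ≠ p' → x ≠ p → x ≠ p' → y ≠ p → y ≠ p' → x = y := by
  decide

open Classical in
theorem nc_of [Finite V] {X : Set V} {k : ℕ} {b : Fin k → Dt V} (hb : M.Bdry X b)
    (f : V → Fin 3) (hf : ∀ d : Dt V, d.1 ∉ X → (M.a d).1 ∉ X → f (M.a d).1 ≠ f d.1)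
    (hH : ∀ i j l n : Fin k, i < j → j < l → l < n → Crs M X b i j l n) :
    NC (M.E X b f) := by
  rintro p p' i j l n hij hjl hln ⟨C1, h1, s1, b1⟩ ⟨C2, h2, s2, b2⟩
  have hcr := hH i j l n hij hjl hln
  have hil : i ≠ l := (hij.trans hjl).ne
  have hjn : j ≠ n := (hjl.trans hln).ne
  have hbX : ∀ t, (b t).1 ∉ X := fun t => ((hb.2 (b t)).mpr ⟨t, rfl⟩).1
  have hbaX : ∀ t, (M.a (b t)).1 ∈ X := fun t => ((hb.2 (b t)).mpr ⟨t, rfl⟩).2
  have hpp : p = p' := by
    by_contra hpp
    refine cross hb hcr h1 b1 h2 b2 ?_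
    intro d hd
    by_contra hcon
    push Not at hcon
    obtain ⟨⟨e, he, he0⟩, ⟨e', he', he0'⟩⟩ := hcon
    have hfe : f d.1 ≠ p := by
      have := s1 e (by rw [he]; exact hd) he0
      rwa [he] at this
    have hfe' : f d.1 ≠ p' := by
      have := s2 e' (by rw [he']; exact hd) he0'
      rwa [he'] at this
    have q1 : C1 d + C1 (rot d) + C1 (rot (rot d)) = 0 := by
      rw [← sum_at]; exact h1.2 d.1 hd
    have q2 : C2 d + C2 (rot d) + C2 (rot (rot d)) = 0 := by
      rw [← sum_at]; exact h2.2 d.1 hd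
    have r1 : C1 d ≠ 0 ∨ C1 (rot d) ≠ 0 ∨ C1 (rot (rot d)) ≠ 0 := by
      rcases dart_cases he with h | h | h
      · exact Or.inl (h ▸ he0)
      · exact Or.inr (Or.inl (h ▸ he0))
      · exact Or.inr (Or.inr (h ▸ he0))
    have r2 : C2 d ≠ 0 ∨ C2 (rot d) ≠ 0 ∨ C2 (rot (rot d)) ≠ 0 := by
      rcases dart_cases he' with h | h | h
      · exact Or.inl (h ▸ he0')
      · exact Or.inr (Or.inl (h ▸ he0'))
      · exact Or.inr (Or.inr (h ▸ he0'))
    have hsh : ∃ c : Dt V, c.1 = d.1 ∧ C1 c ≠ 0 ∧ C2 c ≠ 0 := by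
      rcases share _ _ _ _ _ _ q1 q2 r1 r2 with h | h | h
      · exact ⟨d, rfl, h⟩
      · exact ⟨rot d, rfl, h⟩
      · exact ⟨rot (rot d), rfl, h⟩
    obtain ⟨c, hc, hc1, hc2⟩ := hsh
    have hcX : c.1 ∉ X := by rw [hc]; exact hd
    by_cases hX : (M.a c).1 ∈ X
    · obtain ⟨t, rfl⟩ := (hb.2 c).mp ⟨hcX, hX⟩
      rw [b1] at hc1
      rw [b2] at hc2
      have t1 : t = i ∨ t = l := by
        by_contra h
        push Not at h
        exact hc1 (ei_other h.1 h.2)
      have t2 : t = j ∨ t = n := by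
        by_contra h
        push Not at h
        exact hc2 (ei_other h.1 h.2)
      rcases t1 with rfl | rfl <;> rcases t2 with rfl | rfl
      · exact lt_irrefl _ hij
      · exact lt_irrefl _ (hij.trans (hjl.trans hln))
      · exact lt_irrefl _ hjl
      · exact lt_irrefl _ hln
    · have k1 : C1 (M.a c) ≠ 0 := by rw [h1.1 c hcX hX]; exact hc1
      have k2 : C2 (M.a c) ≠ 0 := by rw [h2.1 c hcX hX]; exact hc2
      exact hf c hcX hX (third_unique p p' _ _ hpp (s1 _ hX k1) (s2 _ hX k2)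
        (s1 _ hcX hc1) (s2 _ hcX hc2))
  subst hpp
  refine ⟨rfl, ?_⟩
  set U : Set V := {w | w ∉ X ∧ f w ≠ p ∧ ∃ C : Dt V → ZMod 2,
    (∀ d : Dt V, d.1 ∉ X → (M.a d).1 ∉ X → C (M.a d) = C d) ∧ Sup X f p C ∧
    (∀ t, C (b t) = ei i t) ∧ ∀ v, v ∉ X →
      C (v, 0) + C (v, 1) + C (v, 2) = if v = w then 1 else 0} with hU
  have fi : f (b i).1 ≠ p := s1 _ (hbX i) (by rw [b1, ei_left hil]; decide)
  have fj : f (b j).1 ≠ p := s2 _ (hbX j) (by rw [b2, ei_left hjn]; decide)
  have baseU : (b i).1 ∈ U := by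
    refine ⟨hbX i, fi, fun e => if e = b i then 1 else 0, ?_, ?_, ?_, ?_⟩
    · intro d hd hd'
      have e1 : d ≠ b i := by
        rintro rfl; exact hd' (hbaX i)
      have e2 : M.a d ≠ b i := by
        intro h
        have := hbaX i
        rw [← h, M.inv] at this
        exact hd this
      change (if M.a d = b i then (1 : ZMod 2) else 0) = if d = b i then 1 else 0
      rw [if_neg e1, if_neg e2]
    · intro d _ hne
      have : d = b i := by
        by_contra h
        exact hne (if_neg h)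
      rw [this]; exact fi
    · intro t
      change (if b t = b i then (1 : ZMod 2) else 0) = _
      rw [ei_apply]
      by_cases h : t = i
      · rw [if_pos h, if_pos (by rw [h])]
      · rw [if_neg h, if_neg (fun h' => h (hb.1 h'))]
    · intro v _
      exact single_sum (b i) v
  have stepU : ∀ d : Dt V, d.1 ∈ U → (M.a d).1 ∉ X → f (M.a d).1 ≠ p → (M.a d).1 ∈ U := by
    rintro d ⟨hd, hfd, C, c1, c2, c3, c4⟩ hX hfa
    refine ⟨hX, hfa, fun e => C e + M.edgeInd d e, ?_, ?_, ?_, ?_⟩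
    · intro e he he'
      change C (M.a e) + M.edgeInd d (M.a e) = C e + M.edgeInd d e
      rw [c1 e he he', edgeInd_a]
    · intro e he hne
      change C e + M.edgeInd d e ≠ 0 at hne
      by_cases hc : C e = 0
      · have hne' : M.edgeInd d e ≠ 0 := fun h => hne (by rw [hc, h, add_zero])
        rcases M.edgeInd_ne_zero hne' with rfl | rfl
        · exact hfd
        · exact hfa
      · exact c2 e he hc
    · intro t
      change C (b t) + M.edgeInd d (b t) = _
      have : M.edgeInd d (b t) = 0 := by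
        by_contra h
        rcases M.edgeInd_ne_zero h with h | h
        · apply hX; rw [← h]; exact hbaX t
        · apply hd
          have := hbaX t
          rwa [h, M.inv] at this
      rw [this, add_zero]
      exact c3 t
    · intro v hv
      have e1 := c4 v hv
      have e2 := M.edgeInd_sum d v
      have : C (v, 0) + M.edgeInd d (v, 0) + (C (v, 1) + M.edgeInd d (v, 1)) +
          (C (v, 2) + M.edgeInd d (v, 2)) = (C (v, 0) + C (v, 1) + C (v, 2)) +
          (M.edgeInd d (v, 0) + M.edgeInd d (v, 1) + M.edgeInd d (v, 2)) := by ring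
      change C (v, 0) + M.edgeInd d (v, 0) + (C (v, 1) + M.edgeInd d (v, 1)) +
          (C (v, 2) + M.edgeInd d (v, 2)) = _
      rw [this, e1, e2]
      generalize (if v = d.1 then (1 : ZMod 2) else 0) = x
      generalize (if v = (M.a d).1 then (1 : ZMod 2) else 0) = y
      revert x y; decide
  by_cases hjU : (b j).1 ∈ U
  · obtain ⟨_, _, C, c1, c2, c3, c4⟩ := hjU
    refine ⟨fun e => C e + if e = b j then 1 else 0, ⟨?_, ?_⟩, ?_, ?_⟩
    · intro d hd hd'
      have e1 : d ≠ b j := by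
        rintro rfl; exact hd' (hbaX j)
      have e2 : M.a d ≠ b j := by
        intro h
        have := hbaX j
        rw [← h, M.inv] at this
        exact hd this
      change C (M.a d) + (if M.a d = b j then (1 : ZMod 2) else 0) =
        C d + if d = b j then 1 else 0
      rw [if_neg e1, if_neg e2, c1 d hd hd']
    · intro v hv
      have e1 := c4 v hv
      have e2 := single_sum (b j) v
      change C (v, 0) + (if (v, (0 : Fin 3)) = b j then (1 : ZMod 2) else 0) +
        (C (v, 1) + (if (v, (1 : Fin 3)) = b j then (1 : ZMod 2) else 0)) +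
        (C (v, 2) + (if (v, (2 : Fin 3)) = b j then (1 : ZMod 2) else 0)) = 0
      generalize (if (v, (0 : Fin 3)) = b j then (1 : ZMod 2) else 0) = x0 at *
      generalize (if (v, (1 : Fin 3)) = b j then (1 : ZMod 2) else 0) = x1 at *
      generalize (if (v, (2 : Fin 3)) = b j then (1 : ZMod 2) else 0) = x2 at *
      generalize (if v = (b j).1 then (1 : ZMod 2) else 0) = y at *
      generalize C (v, 0) = z0 at *
      generalize C (v, 1) = z1 at *
      generalize C (v, 2) = z2 at *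
      clear * - e1 e2
      revert x0 x1 x2 y z0 z1 z2
      decide
    · intro d hd hne
      by_cases hc : C d = 0
      · have : d = b j := by
          by_contra h
          apply hne
          change C d + (if d = b j then (1 : ZMod 2) else 0) = 0
          rw [hc, if_neg h, add_zero]
        rw [this]; exact fj
      · exact c2 d hd hc
    · intro t
      change C (b t) + (if b t = b j then (1 : ZMod 2) else 0) = ei i t + ei j t
      rw [c3, ei_apply j t]
      by_cases h : t = j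
      · rw [if_pos h, if_pos (by rw [h])]
      · rw [if_neg h, if_neg (fun h' => h (hb.1 h'))]
  · exfalso
    have hC1 : ∀ d : Dt V, d.1 ∉ X → (M.a d).1 ∉ X → C1 d ≠ 0 → (d.1 ∈ U ↔ (M.a d).1 ∈ U) := by
      intro d hd hd' hne
      have hne' : C1 (M.a d) ≠ 0 := by rw [h1.1 d hd hd']; exact hne
      constructor
      · intro h; exact stepU d h hd' (s1 _ hd' hne')
      · intro h
        have := stepU (M.a d) h (by rw [M.inv]; exact hd) (by rw [M.inv]; exact s1 _ hd hne)
        rwa [M.inv] at this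
    have hC2 : ∀ d : Dt V, d.1 ∉ X → (M.a d).1 ∉ X → C2 d ≠ 0 → (d.1 ∈ U ↔ (M.a d).1 ∈ U) := by
      intro d hd hd' hne
      have hne' : C2 (M.a d) ≠ 0 := by rw [h2.1 d hd hd']; exact hne
      constructor
      · intro h; exact stepU d h hd' (s2 _ hd' hne')
      · intro h
        have := stepU (M.a d) h (by rw [M.inv]; exact hd) (by rw [M.inv]; exact s2 _ hd hne)
        rwa [M.inv] at this
    set D1 : Dt V → ZMod 2 := fun d => C1 d * if d.1 ∈ U then 1 else 0 with hD1
    set D2 : Dt V → ZMod 2 := fun d => C2 d * if d.1 ∈ U then 0 else 1 with hD2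
    have r1 : M.RCh X D1 := by
      constructor
      · intro d hd hd'
        simp only [hD1]
        rw [h1.1 d hd hd']
        by_cases hc : C1 d = 0
        · rw [hc, zero_mul, zero_mul]
        · have := hC1 d hd hd' hc
          by_cases hu : d.1 ∈ U
          · rw [if_pos hu, if_pos (this.mp hu)]
          · rw [if_neg hu, if_neg (fun h => hu (this.mpr h))]
      · intro v hv
        simp only [hD1]
        rw [← add_mul, ← add_mul, h1.2 v hv, zero_mul]
    have r2 : M.RCh X D2 := by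
      constructor
      · intro d hd hd'
        simp only [hD2]
        rw [h2.1 d hd hd']
        by_cases hc : C2 d = 0
        · rw [hc, zero_mul, zero_mul]
        · have := hC2 d hd hd' hc
          by_cases hu : d.1 ∈ U
          · rw [if_pos hu, if_pos (this.mp hu)]
          · rw [if_neg hu, if_neg (fun h => hu (this.mpr h))]
      · intro v hv
        simp only [hD2]
        rw [← add_mul, ← add_mul, h2.2 v hv, zero_mul]
    have hlU : (b l).1 ∈ U := by
      by_contra hl
      have hs := sum_bdry hb r1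
      simp only [hD1, b1] at hs
      rw [sum_ei_mul i l (fun t => if (b t).1 ∈ U then (1 : ZMod 2) else 0), if_pos baseU,
        if_neg hl] at hs
      exact absurd hs (by decide)
    have hnU : (b n).1 ∉ U := by
      intro hn
      have hs := sum_bdry hb r2
      simp only [hD2, b2] at hs
      rw [sum_ei_mul j n (fun t => if (b t).1 ∈ U then (0 : ZMod 2) else 1), if_neg hjU,
        if_pos hn] at hs
      exact absurd hs (by decide)
    refine cross hb hcr r1 ?_ r2 ?_ ?_
    · intro t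
      simp only [hD1]
      rw [b1]
      by_cases h1' : t = i
      · rw [h1', if_pos baseU, mul_one]
      · by_cases h2' : t = l
        · rw [h2', if_pos hlU, mul_one]
        · rw [ei_other h1' h2', zero_mul]
    · intro t
      simp only [hD2]
      rw [b2]
      by_cases h1' : t = j
      · rw [h1', if_neg hjU, mul_one]
      · by_cases h2' : t = n
        · rw [h2', if_neg hnU, mul_one]
        · rw [ei_other h1' h2', zero_mul]
    · intro d _
      by_cases hu : d.1 ∈ U
      · right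
        intro e he
        simp only [hD2]
        rw [if_pos (by rw [he]; exact hu), mul_zero]
      · left
        intro e he
        simp only [hD1]
        rw [if_neg (by rw [he]; exact hu), mul_zero]

/-- Extension of a chain outside an embedded configuration. -/
theorem ext_emb {m k : ℕ} {T : Tab m k} (E : M.Emb T) {C1 : Dt V → ZMod 2}
    (h1 : M.RCh (Set.range E.x) C1) {J : Fin k → ZMod 2} (hJ : ∀ t, C1 (E.b t) = J t)
    (e : Fin m → Fin 3 → ZMod 2)
    (he : ∀ i t, e i t = Sum.elim (fun q => e q.1 q.2) J (T i t))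
    (hs : ∀ i, e i 0 + e i 1 + e i 2 = 0) :
    ∃ C : Dt V → ZMod 2, M.Ev C ∧ (∀ d : Dt V, d.1 ∉ Set.range E.x → C d = C1 d) ∧
      ∀ i t, C (E.x i, E.pos i + t) = e i t := by
  classical
  set C : Dt V → ZMod 2 := fun d => if h : d.1 ∈ Set.range E.x then
    e h.choose (d.2 - E.pos h.choose) else C1 d with hC
  have hout : ∀ d : Dt V, d.1 ∉ Set.range E.x → C d = C1 d := by
    intro d hd
    simp only [hC]
    rw [dif_neg hd]
  have hin : ∀ i t, C (E.x i, E.pos i + t) = e i t := by
    intro i t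
    have h : E.x i ∈ Set.range E.x := ⟨i, rfl⟩
    have h' : h.choose = i := E.inj h.choose_spec
    simp only [hC]
    rw [dif_pos h, h', add_sub_cancel_left]
  have hpos : ∀ d : Dt V, d.1 ∈ Set.range E.x → ∃ i t, d = (E.x i, E.pos i + t) := by
    rintro ⟨v, s⟩ ⟨i, rfl⟩
    exact ⟨i, s - E.pos i, by simp⟩
  have hedge : ∀ d : Dt V, d.1 ∈ Set.range E.x → C (M.a d) = C d := by
    intro d hd
    obtain ⟨i, t, rfl⟩ := hpos d hd
    rw [E.tgt, hin, he i t]
    rcases T i t with q | j
    · simp only [Sum.elim_inl]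
      exact hin q.1 q.2
    · simp only [Sum.elim_inr]
      rw [hout _ (E.out j), hJ]
  refine ⟨C, ⟨?_, ?_⟩, hout, hin⟩
  · intro d
    by_cases hd : d.1 ∈ Set.range E.x
    · exact hedge d hd
    · by_cases hd' : (M.a d).1 ∈ Set.range E.x
      · have := hedge (M.a d) hd'
        rw [M.inv] at this
        exact this.symm
      · rw [hout _ hd, hout _ hd', h1.1 d hd hd']
  · intro v
    by_cases hv : v ∈ Set.range E.x
    · obtain ⟨i, rfl⟩ := hv
      have h := sum_at (C := C) (E.x i, E.pos i + 0)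
      simp only at h
      rw [h]
      have e1 : rot ((E.x i, E.pos i + 0) : Dt V) = (E.x i, E.pos i + 1) := by
        simp [rot]
      have e2 : rot ((E.x i, E.pos i + 1) : Dt V) = (E.x i, E.pos i + 2) := by
        simp only [rot, add_assoc]
        congr 1
      rw [e1, e2, hin, hin, hin]
      exact hs i
    · rw [hout _ hv, hout _ hv, hout _ hv]
      exact h1.2 v hv

/-! ### The outer cycle of two adjacent faces -/

/-- The chain on the configuration: the part of the outer cycle from the edge `i` to the edge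
`l`. -/
def Dch {m k : ℕ} (T : Tab m k) (ed : Fin m → Fin 3 → ℕ) (s : Fin k → ℕ) (i l : Fin k)
    (v : Fin m) (t : Fin 3) : ZMod 2 :=
  Sum.elim (fun _ => if s i ≤ ed v t ∧ ed v t < s l then 1 else 0)
    (fun j => (if j = i then 1 else 0) + (if j = l then 1 else 0)) (T v t)

/-- The combinatorial conditions on the outer cycle. -/
structure Outer {m k : ℕ} (T : Tab m k) (ed : Fin m → Fin 3 → ℕ) (s : Fin k → ℕ)
    (vb : Fin k → Fin m) (zz : Fin m) : Prop where
  con : ∀ i l : Fin k, i < l → ∀ v t, Dch T ed s i l v t =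
    Sum.elim (fun q => Dch T ed s i l q.1 q.2)
      (fun j => (if j = i then 1 else 0) + (if j = l then 1 else 0)) (T v t)
  sum : ∀ i l : Fin k, i < l → ∀ v, Dch T ed s i l v 0 + Dch T ed s i l v 1 +
    Dch T ed s i l v 2 = 0
  zer : ∀ i l : Fin k, i < l → Dch T ed s i l zz 0 = 0
  bd : ∀ j, T (vb j) 1 = Sum.inr j
  fw : ∀ i j l : Fin k, i < j → j < l → Dch T ed s i l (vb j) 0 = 1
  fw' : ∀ i l n : Fin k, i < l → l < n → Dch T ed s i l (vb n) 0 = 0

/-- `Crs` from the equality of the potential along the outer cycle. -/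
theorem crs_of {m k : ℕ} {T : Tab m k} (hT : SurT T) (E : M.Emb T) (hP : M.Plan)
    {ed : Fin m → Fin 3 → ℕ} {s : Fin k → ℕ} {vb : Fin k → Fin m} {zz : Fin m}
    (hO : Outer T ed s vb zz)
    (hcyc : ∀ α : Fin m → Fin 3 → ZMod 2,
      (∀ v t q, T v t = Sum.inl q → α q.1 (q.2 + 1) = α v t) → α zz 1 = α zz 0 →
      ∀ j j', α (vb j) 0 = α (vb j') 0)
    {i j l n : Fin k} (hij : i < j) (hjl : j < l) (hln : l < n) :
    Crs M (Set.range E.x) E.b i j l n := by
  intro C1 h1 b1
  have hil := hij.trans hjl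
  have hb1 : ∀ t, C1 (E.b t) = (fun j => (if j = i then 1 else 0) + (if j = l then 1 else 0)) t := by
    intro t
    rw [b1, Pi.add_apply, ei_apply, ei_apply]
  obtain ⟨C, hE, hout, hin⟩ := ext_emb E h1 hb1 (Dch T ed s i l) (hO.con i l hil) (hO.sum i l hil)
  obtain ⟨A, hA, hAC⟩ := hP C hE
  have hrot := pot_rot hA hAC
  have hae := pot_a hAC
  refine ⟨A, fun d hd => ?_, fun d hd => ?_, ?_⟩
  · rw [hrot, hout d hd]
  · rw [hae, hout d hd]
  · have hstep : ∀ v t, A (E.x v, E.pos v + (t + 1)) = A (E.x v, E.pos v + t) + Dch T ed s i l v t := by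
      intro v t
      have := hrot (E.x v, E.pos v + t)
      rw [hin] at this
      rw [← this]
      simp only [rot, add_assoc]
    have hc := hcyc (fun v t => A (E.x v, E.pos v + t)) (by
      intro v t q hq
      have h2 := hA (E.x v, E.pos v + t)
      rw [ph_def, E.tgt, hq] at h2
      simp only [Sum.elim_inl, rot, add_assoc] at h2
      exact h2) (by
      have := hstep zz 0
      rw [hO.zer i l hil, add_zero] at this
      simpa using this) j n
    have hbk : ∀ t, t ≠ i → t ≠ l → A (E.b t) = A (E.x (vb t), E.pos (vb t) + 0) +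
        Dch T ed s i l (vb t) 0 := by
      intro t h1' h2'
      have h3 := hae (E.x (vb t), E.pos (vb t) + 1)
      rw [hin, E.tgt, hO.bd t] at h3
      simp only [Sum.elim_inr] at h3
      have h4 : Dch T ed s i l (vb t) 1 = 0 := by
        unfold Dch
        rw [hO.bd t]
        simp [h1', h2']
      rw [h4, add_zero] at h3
      rw [h3]
      exact hstep (vb t) 0
    have hj := hbk j hij.ne' hjl.ne
    have hn := hbk n (hil.trans hln).ne' hln.ne'
    rw [hj, hn, hO.fw i j l hij hjl, hO.fw' i l n hil hln]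
    rw [hc]
    generalize A (E.x (vb n), E.pos (vb n) + 0) = x
    revert x
    decide

/-- Edge numbers on the outer cycle of `T53`. -/
def ed53 : Fin 8 → Fin 3 → ℕ := ![![0, 100, 7], ![1, 100, 0], ![2, 100, 1], ![100, 3, 2],
  ![7, 6, 100], ![4, 100, 3], ![5, 100, 4], ![6, 100, 5]]

theorem outer53 : Outer T53 ed53 ![0, 1, 2, 4, 5, 6] ![0, 1, 2, 5, 6, 7] 3 where
  con := by decide
  sum := by decide
  zer := by decide
  bd := by decide
  fw := by decide
  fw' := by decide

theorem surT53 : SurT T53 := by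
  intro j
  fin_cases j
  · exact ⟨0, 1, rfl⟩
  · exact ⟨1, 1, rfl⟩
  · exact ⟨2, 1, rfl⟩
  · exact ⟨5, 1, rfl⟩
  · exact ⟨6, 1, rfl⟩
  · exact ⟨7, 1, rfl⟩

theorem cyc53 (α : Fin 8 → Fin 3 → ZMod 2)
    (h : ∀ v t q, T53 v t = Sum.inl q → α q.1 (q.2 + 1) = α v t) (h3 : α 3 1 = α 3 0) :
    ∀ j j' : Fin 6, α ((![0, 1, 2, 5, 6, 7] : Fin 6 → Fin 8) j) 0 =
      α ((![0, 1, 2, 5, 6, 7] : Fin 6 → Fin 8) j') 0 := by
  have e1 : α 1 0 = α 0 0 := h 0 0 (1, 2) rfl
  have e2 : α 2 0 = α 1 0 := h 1 0 (2, 2) rfl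
  have e3 : α 3 0 = α 2 0 := h 2 0 (3, 2) rfl
  have e5 : α 5 0 = α 3 1 := h 3 1 (5, 2) rfl
  have e6 : α 6 0 = α 5 0 := h 5 0 (6, 2) rfl
  have e7 : α 7 0 = α 6 0 := h 6 0 (7, 2) rfl
  have key : ∀ j : Fin 6, α ((![0, 1, 2, 5, 6, 7] : Fin 6 → Fin 8) j) 0 = α 0 0 := by
    intro j
    fin_cases j
    · rfl
    · exact e1
    · exact e2.trans e1
    · exact e5.trans (h3.trans (e3.trans (e2.trans e1)))
    · exact e6.trans (e5.trans (h3.trans (e3.trans (e2.trans e1))))
    · exact e7.trans (e6.trans (e5.trans (h3.trans (e3.trans (e2.trans e1)))))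
  intro j j'
  rw [key j, key j']

/-- Edge numbers on the outer cycle of `T54`. -/
def ed54 : Fin 9 → Fin 3 → ℕ := ![![0, 100, 8], ![1, 100, 0], ![2, 100, 1], ![100, 3, 2],
  ![8, 7, 100], ![4, 100, 3], ![5, 100, 4], ![6, 100, 5], ![7, 100, 6]]

theorem outer54 : Outer T54 ed54 ![0, 1, 2, 4, 5, 6, 7] ![0, 1, 2, 5, 6, 7, 8] 3 where
  con := by decide
  sum := by decide
  zer := by decide
  bd := by decide
  fw := by decide
  fw' := by decide

theorem surT54 : SurT T54 := by
  intro j
  fin_cases j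
  · exact ⟨0, 1, rfl⟩
  · exact ⟨1, 1, rfl⟩
  · exact ⟨2, 1, rfl⟩
  · exact ⟨5, 1, rfl⟩
  · exact ⟨6, 1, rfl⟩
  · exact ⟨7, 1, rfl⟩
  · exact ⟨8, 1, rfl⟩

theorem cyc54 (α : Fin 9 → Fin 3 → ZMod 2)
    (h : ∀ v t q, T54 v t = Sum.inl q → α q.1 (q.2 + 1) = α v t) (h3 : α 3 1 = α 3 0) :
    ∀ j j' : Fin 7, α ((![0, 1, 2, 5, 6, 7, 8] : Fin 7 → Fin 9) j) 0 =
      α ((![0, 1, 2, 5, 6, 7, 8] : Fin 7 → Fin 9) j') 0 := by
  have e1 : α 1 0 = α 0 0 := h 0 0 (1, 2) rfl
  have e2 : α 2 0 = α 1 0 := h 1 0 (2, 2) rfl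
  have e3 : α 3 0 = α 2 0 := h 2 0 (3, 2) rfl
  have e5 : α 5 0 = α 3 1 := h 3 1 (5, 2) rfl
  have e6 : α 6 0 = α 5 0 := h 5 0 (6, 2) rfl
  have e7 : α 7 0 = α 6 0 := h 6 0 (7, 2) rfl
  have e8 : α 8 0 = α 7 0 := h 7 0 (8, 2) rfl
  have key : ∀ j : Fin 7, α ((![0, 1, 2, 5, 6, 7, 8] : Fin 7 → Fin 9) j) 0 = α 0 0 := by
    intro j
    fin_cases j
    · rfl
    · exact e1
    · exact e2.trans e1
    · exact e5.trans (h3.trans (e3.trans (e2.trans e1)))
    · exact e6.trans (e5.trans (h3.trans (e3.trans (e2.trans e1))))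
    · exact e7.trans (e6.trans (e5.trans (h3.trans (e3.trans (e2.trans e1)))))
    · exact e8.trans (e7.trans (e6.trans (e5.trans (h3.trans (e3.trans (e2.trans e1))))))
  intro j j'
  rw [key j, key j']

end NCr

open NCr CMap

/-- NC53. -/
theorem specNC53 : SpecNC53 := by
  intro V _ M E f hP hf
  exact nc_of (Pinch.bdry_of_emb M T53 surT53 E) f hf
    (fun i j l n hij hjl hln => crs_of surT53 E hP outer53 cyc53 hij hjl hln)

/-- NC54. -/
theorem specNC54 : SpecNC54 := by
  intro V _ M E f hP hf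
  exact nc_of (Pinch.bdry_of_emb M T54 surT54 E) f hf
    (fun i j l n hij hjl hln => crs_of surT54 E hP outer54 cyc54 hij hjl hln)

end Acyc75
end
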