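import Pool.Agent.Lib.MP_1e9f59_co.Spec
import Pool.Agent.Lib.MP_1e9f59_co.Three
import Pool.Agent.Lib.MP_1e9f59_co.Fin54c

/-!
# MP_1e9f59_co : modules THR-EX, THR-TEC, PENT-EX, PENT-TEC
-/

set_option autoImplicit false

namespace Acyc75

open CMap

namespace Reduce

variable {V : Type} {Y : V → Prop}

/-- Forget the restriction to `Y`. -/
def vl (d : Dt {v // Y v}) : Dt V := (d.1.1, d.2)

theorem vl_inj : Function.Injective (vl (V := V) (Y := Y)) := by
  intro d d' h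
  have h1 : d.1.1 = d'.1.1 := congrArg (fun e : Dt V => e.1) h
  have h2 : d.2 = d'.2 := congrArg (fun e : Dt V => e.2) h
  exact Prod.ext (Subtype.ext h1) h2

theorem vl_fst (d : Dt {v // Y v}) : (vl d).1 = d.1.1 := rfl

/-- `M'` is obtained from `M` by restriction to `Y`, joining the outgoing darts by `s`. -/
structure Red (M : CMap V) (Y : V → Prop) (M' : CMap {v // Y v}) {k : ℕ}
    (z : Fin k → Dt V) (s : Fin k → Fin k) : Prop where
  inj : Function.Injective z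
  bdry : ∀ d : Dt V, (Y d.1 ∧ ¬ Y (M.a d).1) ↔ ∃ i, z i = d
  int : ∀ d : Dt {v // Y v}, Y (M.a (vl d)).1 → vl (M'.a d) = M.a (vl d)
  bd : ∀ (d : Dt {v // Y v}) (i : Fin k), vl d = z i → vl (M'.a d) = z (s i)

theorem exists_red (M : CMap V) (Y : V → Prop) {k : ℕ} (z : Fin k → Dt V) (s : Fin k → Fin k)
    (hz : Function.Injective z) (hb : ∀ d : Dt V, (Y d.1 ∧ ¬ Y (M.a d).1) ↔ ∃ i, z i = d)
    (hs : ∀ i, s (s i) = i) (hs' : ∀ i, s i ≠ i) :
    ∃ M' : CMap {v // Y v}, Red M Y M' z s := by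
  classical
  have hY : ∀ i, Y (z i).1 := fun i => ((hb (z i)).2 ⟨i, rfl⟩).1
  have hY' : ∀ i, ¬ Y (M.a (z i)).1 := fun i => ((hb (z i)).2 ⟨i, rfl⟩).2
  have hex : ∀ d : Dt {v // Y v}, ∃ d' : Dt {v // Y v},
      (Y (M.a (vl d)).1 → vl d' = M.a (vl d)) ∧ ∀ i, vl d = z i → vl d' = z (s i) := by
    intro d
    by_cases h : Y (M.a (vl d)).1
    · refine ⟨(⟨(M.a (vl d)).1, h⟩, (M.a (vl d)).2), fun _ => rfl, fun i hi => ?_⟩
      rw [hi] at h
      exact absurd h (hY' i)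
    · obtain ⟨i, hi⟩ := (hb (vl d)).1 ⟨d.1.2, h⟩
      refine ⟨(⟨(z (s i)).1, hY _⟩, (z (s i)).2), fun h' => absurd h' h, fun j hj => ?_⟩
      have : i = j := hz (hi.trans hj)
      subst this
      rfl
  choose a' ha1 ha2 using hex
  have hinv : ∀ d, a' (a' d) = d := by
    intro d
    apply vl_inj
    by_cases h : Y (M.a (vl d)).1
    · have e1 := ha1 d h
      have e2 : Y (M.a (vl (a' d))).1 := by
        rw [e1, M.inv]
        exact d.1.2
      rw [ha1 _ e2, e1, M.inv]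
    · obtain ⟨i, hi⟩ := (hb (vl d)).1 ⟨d.1.2, h⟩
      have e1 := ha2 d i hi.symm
      rw [ha2 _ _ e1, hs, hi]
  have hne : ∀ d, a' d ≠ d := by
    intro d hd
    by_cases h : Y (M.a (vl d)).1
    · have e1 := ha1 d h
      rw [hd] at e1
      exact M.ne _ e1.symm
    · obtain ⟨i, hi⟩ := (hb (vl d)).1 ⟨d.1.2, h⟩
      have e1 := ha2 d i hi.symm
      rw [hd, ← hi] at e1
      exact hs' i (hz e1.symm)
  exact ⟨⟨a', hinv, hne⟩, hz, hb, ha1, ha2⟩

/-- The cuts before and after the reduction. -/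
theorem cut_formula [Finite V] {M : CMap V} {M' : CMap {v // Y v}} {k : ℕ} {z : Fin k → Dt V}
    {s : Fin k → Fin k} (R : Red M Y M' z s) (S' : Set {v // Y v}) :
    ∃ e : ℕ, M.cut (Subtype.val '' S') = e + {i | (z i).1 ∈ Subtype.val '' S'}.ncard ∧
      M'.cut S' = e + {i | (z i).1 ∈ Subtype.val '' S' ∧
        (z (s i)).1 ∉ Subtype.val '' S'}.ncard := by
  classical
  set S : Set V := Subtype.val '' S' with hS
  have hmem : ∀ x : {v // Y v}, x.1 ∈ S ↔ x ∈ S' := fun x =>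
    Subtype.val_injective.mem_set_image
  have hSY : ∀ v ∈ S, Y v := by
    rintro v ⟨x, _, rfl⟩
    exact x.2
  have hY' : ∀ i, ¬ Y (M.a (z i)).1 := fun i => ((R.bdry (z i)).2 ⟨i, rfl⟩).2
  set A : Set (Dt V) := {d | d.1 ∈ S ∧ Y (M.a d).1 ∧ (M.a d).1 ∉ S} with hA
  have hdisj : ∀ P : Fin k → Prop, Disjoint A (z '' {i | P i}) := by
    intro P
    rw [Set.disjoint_left]
    rintro d hd ⟨i, _, rfl⟩
    exact hY' i hd.2.1
  refine ⟨A.ncard, ?_, ?_⟩
  · have h1 : {d : Dt V | d.1 ∈ S ∧ (M.a d).1 ∉ S} = A ∪ z '' {i | (z i).1 ∈ S} := by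
      ext d
      constructor
      · rintro ⟨h1, h2⟩
        by_cases h : Y (M.a d).1
        · exact Or.inl ⟨h1, h, h2⟩
        · obtain ⟨i, rfl⟩ := (R.bdry d).1 ⟨hSY _ h1, h⟩
          exact Or.inr ⟨i, h1, rfl⟩
      · rintro (⟨h1, _, h2⟩ | ⟨i, hi, rfl⟩)
        · exact ⟨h1, h2⟩
        · exact ⟨hi, fun h => hY' i (hSY _ h)⟩
    unfold CMap.cut
    rw [h1, Set.ncard_union_eq (hdisj _) (Set.toFinite _) (Set.toFinite _),
      Set.ncard_image_of_injective _ R.inj]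
  · have h1 : vl '' {d : Dt {v // Y v} | d.1 ∈ S' ∧ (M'.a d).1 ∉ S'} =
        A ∪ z '' {i | (z i).1 ∈ S ∧ (z (s i)).1 ∉ S} := by
      ext d
      constructor
      · rintro ⟨d, ⟨h1, h2⟩, rfl⟩
        have h1' : (vl d).1 ∈ S := (hmem _).2 h1
        have h2' : (vl (M'.a d)).1 ∉ S := fun h => h2 ((hmem _).1 h)
        by_cases h : Y (M.a (vl d)).1
        · rw [R.int d h] at h2'
          exact Or.inl ⟨h1', h, h2'⟩
        · obtain ⟨i, hi⟩ := (R.bdry (vl d)).1 ⟨d.1.2, h⟩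
          rw [R.bd d i hi.symm] at h2'
          rw [← hi] at h1'
          exact Or.inr ⟨i, ⟨h1', h2'⟩, hi⟩
      · rintro (⟨h1, h, h2⟩ | ⟨i, ⟨h1, h2⟩, rfl⟩)
        · have h1' : vl (⟨⟨d.1, hSY _ h1⟩, d.2⟩ : Dt {v // Y v}) = d := rfl
          refine ⟨⟨⟨d.1, hSY _ h1⟩, d.2⟩, ⟨(hmem _).1 h1, fun h3 => h2 ?_⟩, h1'⟩
          have h4 := (hmem _).2 h3
          have h5 := R.int ⟨⟨d.1, hSY _ h1⟩, d.2⟩ h
          rw [← h1', ← h5]
          exact h4
        · have h1' : vl (⟨⟨(z i).1, hSY _ h1⟩, (z i).2⟩ : Dt {v // Y v}) = z i := rfl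
          refine ⟨⟨⟨(z i).1, hSY _ h1⟩, (z i).2⟩, ⟨(hmem _).1 h1, fun h3 => h2 ?_⟩, h1'⟩
          have h4 := (hmem _).2 h3
          have h5 := R.bd ⟨⟨(z i).1, hSY _ h1⟩, (z i).2⟩ i rfl
          rw [← h5]
          exact h4
    unfold CMap.cut
    rw [← Set.ncard_image_of_injective _ (vl_inj (V := V) (Y := Y)), h1,
      Set.ncard_union_eq (hdisj _) (Set.toFinite _) (Set.toFinite _),
      Set.ncard_image_of_injective _ R.inj]

open Classical in
theorem ncard_fin {k : ℕ} (P : Fin k → Prop) :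
    {i | P i}.ncard = ∑ i : Fin k, if P i then 1 else 0 := by
  rw [Set.ncard_eq_toFinset_card']
  simp

theorem red_thr {M : CMap V} {m : ℕ} {T : Tab m 4} (hT : SurT T) {E : M.Emb T}
    {M' : CMap {v // v ∉ Set.range E.x}} (h : M.IsThr E M') :
    Red M (fun v => v ∉ Set.range E.x) M' E.b sw := by
  have hB := specBdry V M m 4 T hT E
  refine ⟨hB.1, fun d => ?_, ?_, ?_⟩
  · rw [← hB.2 d, not_not]
  · intro d hd
    have := h.int d.1.1 (M.a (vl d)).1 d.1.2 hd d.2 (M.a (vl d)).2 rfl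
    have h2 : M'.a d = (⟨(M.a (vl d)).1, hd⟩, (M.a (vl d)).2) := this
    rw [h2]
    rfl
  · intro d i hi
    have h1 : d = (⟨(E.b i).1, E.out i⟩, (E.b i).2) := vl_inj hi
    rw [h1, h.bd i]
    rfl

end Reduce

open Reduce

theorem specThrEx : SpecThrEx := by
  intro m T hT V M E
  have hB := specBdry V M m 4 T hT E
  obtain ⟨M', hM'⟩ := exists_red M (fun v => v ∉ Set.range E.x) E.b sw hB.1
    (fun d => by rw [← hB.2 d, not_not]) (by decide) (by decide)
  refine ⟨M', ?_, ?_⟩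
  · intro v w hv hw i j hij
    apply vl_inj
    have hd : (M.a (vl (⟨⟨v, hv⟩, i⟩ : Dt {v // v ∉ Set.range E.x}))).1 ∉ Set.range E.x := by
      change (M.a (v, i)).1 ∉ Set.range E.x
      rw [hij]
      exact hw
    rw [hM'.int _ hd]
    exact hij
  · intro j
    apply vl_inj
    exact hM'.bd _ j rfl

theorem specThrTEC : SpecThrTEC := by
  classical
  intro m T hT V _ M E M' hM' hTEC hcut S' hS' hS'u
  have R := red_thr hT hM'
  obtain ⟨e, h1, h2⟩ := cut_formula R S'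
  obtain ⟨e', h1', h2'⟩ := cut_formula R S'ᶜ
  rw [(specCut _ M' S' S').1] at h2'
  set S : Set V := Subtype.val '' S' with hS
  set S₂ : Set V := Subtype.val '' S'ᶜ with hS₂
  have hmem : ∀ x : {v // v ∉ Set.range E.x}, x.1 ∈ S ↔ x ∈ S' := fun x =>
    Subtype.val_injective.mem_set_image
  have hmem₂ : ∀ x : {v // v ∉ Set.range E.x}, x.1 ∈ S₂ ↔ ¬ x ∈ S' := fun x =>
    Subtype.val_injective.mem_set_image
  have hz : ∀ i, (E.b i).1 ∈ S₂ ↔ ¬ (E.b i).1 ∈ S := fun i => by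
    rw [hmem₂ ⟨(E.b i).1, E.out i⟩, hmem ⟨(E.b i).1, E.out i⟩]
  have hSX : ∀ v ∈ S, v ∉ Set.range E.x := by
    rintro v ⟨x, _, rfl⟩
    exact x.2
  have hSX₂ : ∀ v ∈ S₂, v ∉ Set.range E.x := by
    rintro v ⟨x, _, rfl⟩
    exact x.2
  obtain ⟨x, hx⟩ := hS'
  obtain ⟨y, hy⟩ := (Set.ne_univ_iff_exists_notMem _).1 hS'u
  have c1 : 3 ≤ M.cut S := hTEC S ⟨x.1, (hmem x).2 hx⟩
    (fun h => hy ((hmem y).1 (h ▸ Set.mem_univ _)))
  have c2 : 3 ≤ M.cut S₂ := hTEC S₂ ⟨y.1, (hmem₂ y).2 hy⟩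
    (fun h => ((hmem₂ x).1 (h ▸ Set.mem_univ _)) hx)
  have c3 := hcut S hSX
  have c4 := hcut S₂ hSX₂
  simp only [hz] at c4 h1' h2'
  rw [ncard_fin, Fin.sum_univ_four] at h1 h2 h1' h2'
  simp only [sw, Matrix.cons_val_zero, Matrix.cons_val_one, Matrix.cons_val] at h2 h2'
  by_cases p0 : (E.b 0).1 ∈ S <;> by_cases p1 : (E.b 1).1 ∈ S <;>
    by_cases p2 : (E.b 2).1 ∈ S <;> by_cases p3 : (E.b 3).1 ∈ S <;>
    simp only [p0, p1, p2, p3, not_true_eq_false, not_false_eq_true, and_true, and_false,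
      if_true, if_false, true_imp_iff, false_imp_iff, and_self] at h1 h2 h1' h2' c3 c4 <;>
    omega

namespace Reduce

variable {V : Type}

/-- The vertices which are kept in the pentagon reduction. -/
abbrev YP {M : CMap V} (E : M.Emb Tp) : V → Prop := fun v => v ∉ Set.range E.x ∨ v = E.x 3

/-- The outgoing darts of the kept part. -/
def zP {M : CMap V} (E : M.Emb Tp) : Fin 6 → Dt V :=
  ![E.b 0, E.b 1, E.b 4, (E.x 3, E.pos 3), E.b 2, (E.x 3, E.pos 3 + 2)]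

/-- The pairing of the outgoing darts of the kept part. -/
def sP : Fin 6 → Fin 6 := ![1, 0, 3, 2, 5, 4]

theorem a_b {M : CMap V} (E : M.Emb Tp) (j : Fin 5) : M.a (E.b j) = (E.x j, E.pos j + 1) := by
  have h : M.a (E.x j, E.pos j + 1) = E.b j := by
    rw [E.tgt j 1]
    fin_cases j <;> rfl
  rw [← h, M.inv]

theorem x_ne {M : CMap V} (E : M.Emb Tp) {i j : Fin 5} (h : i ≠ j) : E.x i ≠ E.x j :=
  fun h' => h (E.inj h')

theorem not_YP {M : CMap V} (E : M.Emb Tp) {i : Fin 5} (h : i ≠ 3) : ¬ YP E (E.x i) := by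
  rintro (h' | h')
  · exact h' ⟨i, rfl⟩
  · exact h (E.inj h')

theorem a30 {M : CMap V} (E : M.Emb Tp) : M.a (E.x 3, E.pos 3) = (E.x 4, E.pos 4 + 2) := by
  have h := E.tgt 3 0
  rw [add_zero] at h
  exact h

theorem a32 {M : CMap V} (E : M.Emb Tp) : M.a (E.x 3, E.pos 3 + 2) = (E.x 2, E.pos 2) := by
  have h := E.tgt 3 2
  change _ = (E.x 2, E.pos 2 + 0) at h
  rw [add_zero] at h
  exact h

theorem bdryP {M : CMap V} (E : M.Emb Tp) (d : Dt V) :
    (YP E d.1 ∧ ¬ YP E (M.a d).1) ↔ ∃ i, zP E i = d := by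
  constructor
  · rintro ⟨hd, hd'⟩
    have hX : (M.a d).1 ∈ Set.range E.x := by
      by_contra h
      exact hd' (Or.inl h)
    obtain ⟨i, t, hit⟩ := Glue.mem_dart E hX
    have hi3 : i ≠ 3 := by
      rintro rfl
      rw [hit] at hd'
      exact hd' (Or.inr rfl)
    have e1 : d = Sum.elim (fun q => (E.x q.1, E.pos q.1 + q.2)) E.b (Tp i t) := by
      rw [← E.tgt i t, ← hit, M.inv]
    rw [e1] at hd
    fin_cases i <;> fin_cases t <;>
      first
      | exact absurd rfl hi3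
      | (exfalso; revert hd; exact not_YP E (by decide))
      | exact ⟨0, e1.symm⟩
      | exact ⟨1, e1.symm⟩
      | exact ⟨2, e1.symm⟩
      | exact ⟨4, e1.symm⟩
      | exact ⟨5, e1.symm⟩
      | (refine ⟨3, ?_⟩
         rw [e1]
         change (E.x 3, E.pos 3) = (E.x 3, E.pos 3 + 0)
         rw [add_zero])
  · rintro ⟨i, rfl⟩
    fin_cases i
    · refine ⟨Or.inl (E.out 0), ?_⟩
      change ¬ YP E (M.a (E.b 0)).1
      rw [a_b]; exact not_YP E (by decide)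
    · refine ⟨Or.inl (E.out 1), ?_⟩
      change ¬ YP E (M.a (E.b 1)).1
      rw [a_b]; exact not_YP E (by decide)
    · refine ⟨Or.inl (E.out 4), ?_⟩
      change ¬ YP E (M.a (E.b 4)).1
      rw [a_b]; exact not_YP E (by decide)
    · refine ⟨Or.inr rfl, ?_⟩
      change ¬ YP E (M.a (E.x 3, E.pos 3)).1
      rw [a30]; exact not_YP E (by decide)
    · refine ⟨Or.inl (E.out 2), ?_⟩
      change ¬ YP E (M.a (E.b 2)).1
      rw [a_b]; exact not_YP E (by decide)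
    · refine ⟨Or.inr rfl, ?_⟩
      change ¬ YP E (M.a (E.x 3, E.pos 3 + 2)).1
      rw [a32]; exact not_YP E (by decide)

theorem injP {M : CMap V} (E : M.Emb Tp) : Function.Injective (zP E) := by
  have h : ∀ i, M.a (zP E i) = (E.x (![0, 1, 4, 4, 2, 2] i), E.pos (![0, 1, 4, 4, 2, 2] i) +
      (![1, 1, 1, 2, 1, 0] i)) := by
    intro i
    fin_cases i
    · exact a_b E 0
    · exact a_b E 1
    · exact a_b E 4
    · exact a30 E
    · exact a_b E 2
    · change M.a (E.x 3, E.pos 3 + 2) = (E.x 2, E.pos 2 + 0)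
      rw [add_zero]
      exact a32 E
  intro i j hij
  have h1 : M.a (zP E i) = M.a (zP E j) := by rw [hij]
  rw [h, h] at h1
  have h2 := E.inj (congrArg Prod.fst h1)
  have h3 := congrArg Prod.snd h1
  simp only [] at h3
  rw [h2, add_right_inj] at h3
  clear h1 h hij
  revert h2 h3
  revert i j
  decide

theorem red_pent {M : CMap V} {E : M.Emb Tp}
    {M' : CMap {v // v ∉ Set.range E.x ∨ v = E.x 3}} (h : M.IsPent E M') :
    Red M (YP E) M' (zP E) sP := by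
  refine ⟨injP E, bdryP E, ?_, ?_⟩
  · intro d hd
    obtain ⟨⟨v, hv⟩, i⟩ := d
    rcases hv with hv | hv
    · rcases hd with hd | hd
      · have h1 := h.int v (M.a (v, i)).1 hv hd i (M.a (v, i)).2 rfl
        exact congrArg vl h1
      · -- the other end is `x 3`
        change (M.a (v, i)).1 = E.x 3 at hd
        obtain ⟨t, ht⟩ : ∃ t, M.a (v, i) = (E.x 3, E.pos 3 + t) := by
          refine ⟨(M.a (v, i)).2 - E.pos 3, ?_⟩
          rw [add_sub_cancel, ← hd]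
        have h1 : (v, i) = M.a (E.x 3, E.pos 3 + t) := by rw [← ht, M.inv]
        have ht1 : t = 1 := by
          fin_cases t
          · exfalso
            change (v, i) = M.a (E.x 3, E.pos 3 + 0) at h1
            rw [add_zero, a30] at h1
            exact hv ⟨4, (congrArg Prod.fst h1).symm⟩
          · rfl
          · exfalso
            change (v, i) = M.a (E.x 3, E.pos 3 + 2) at h1
            rw [a32] at h1
            exact hv ⟨2, (congrArg Prod.fst h1).symm⟩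
        subst ht1
        rw [← a_b E 3, M.inv] at h1
        have h2 : ((⟨v, Or.inl hv⟩, i) : Dt {v // v ∉ Set.range E.x ∨ v = E.x 3}) =
            (⟨(E.b 3).1, Or.inl (E.out 3)⟩, (E.b 3).2) := vl_inj h1
        rw [h2, h.b3]
        exact (a_b E 3).symm
    · obtain ⟨t, ht⟩ : ∃ t, (v, i) = (E.x 3, E.pos 3 + t) := by
        refine ⟨i - E.pos 3, ?_⟩
        rw [add_sub_cancel, hv]
      have ht1 : t = 1 := by
        fin_cases t
        · exfalso
          change (v, i) = (E.x 3, E.pos 3 + 0) at ht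
          change YP E (M.a (v, i)).1 at hd
          rw [ht, add_zero, a30] at hd
          exact not_YP E (by decide) hd
        · rfl
        · exfalso
          change (v, i) = (E.x 3, E.pos 3 + 2) at ht
          change YP E (M.a (v, i)).1 at hd
          rw [ht, a32] at hd
          exact not_YP E (by decide) hd
      subst ht1
      have h2 : ((⟨v, Or.inr hv⟩, i) : Dt {v // v ∉ Set.range E.x ∨ v = E.x 3}) =
          (⟨E.x 3, Or.inr rfl⟩, E.pos 3 + 1) := vl_inj ht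
      have h4 : M'.a (⟨E.x 3, Or.inr rfl⟩, E.pos 3 + 1) =
          (⟨(E.b 3).1, Or.inl (E.out 3)⟩, (E.b 3).2) := by rw [← h.b3, M'.inv]
      rw [h2, h4]
      change E.b 3 = M.a (E.x 3, E.pos 3 + 1)
      rw [← a_b E 3, M.inv]
  · intro d i hi
    fin_cases i
    · have h1 : d = (⟨(E.b 0).1, Or.inl (E.out 0)⟩, (E.b 0).2) := vl_inj hi
      rw [h1, h.b01]; rfl
    · have h1 : d = (⟨(E.b 1).1, Or.inl (E.out 1)⟩, (E.b 1).2) := vl_inj hi
      rw [h1, ← h.b01, M'.inv]; rfl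
    · have h1 : d = (⟨(E.b 4).1, Or.inl (E.out 4)⟩, (E.b 4).2) := vl_inj hi
      rw [h1, h.b4]; rfl
    · have h1 : d = (⟨E.x 3, Or.inr rfl⟩, E.pos 3) := vl_inj hi
      rw [h1, ← h.b4, M'.inv]; rfl
    · have h1 : d = (⟨(E.b 2).1, Or.inl (E.out 2)⟩, (E.b 2).2) := vl_inj hi
      rw [h1, h.b2]; rfl
    · have h1 : d = (⟨E.x 3, Or.inr rfl⟩, E.pos 3 + 2) := vl_inj hi
      rw [h1, ← h.b2, M'.inv]; rfl

end Reduce

theorem specPentEx : SpecPentEx := by
  intro V M E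
  obtain ⟨M', hM'⟩ := exists_red M (YP E) (zP E) sP (injP E) (bdryP E) (by decide) (by decide)
  refine ⟨M', ?_, ?_, ?_, ?_, ?_⟩
  · intro v w hv hw i j hij
    apply vl_inj
    have hd : YP E (M.a (vl (⟨⟨v, Or.inl hv⟩, i⟩ : Dt {v // YP E v}))).1 := by
      change YP E (M.a (v, i)).1
      rw [hij]
      exact Or.inl hw
    rw [hM'.int _ hd]
    exact hij
  · exact vl_inj (hM'.bd _ 0 rfl)
  · exact vl_inj (hM'.bd _ 2 rfl)
  · apply vl_inj
    have hd : YP E (M.a (vl (⟨⟨(E.b 3).1, Or.inl (E.out 3)⟩, (E.b 3).2⟩ :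
        Dt {v // YP E v}))).1 := by
      change YP E (M.a (E.b 3)).1
      rw [a_b]
      exact Or.inr rfl
    rw [hM'.int _ hd]
    exact a_b E 3
  · exact vl_inj (hM'.bd _ 4 rfl)

/-- The case of the side which does not contain `x 3`. -/
theorem Reduce.pent_aux {V : Type} [Finite V] {M : CMap V} {E : M.Emb Tp}
    {M' : CMap {v // v ∉ Set.range E.x ∨ v = E.x 3}} (h : M.IsPent E M') (hTEC : M.TEC)
    (hcut : M.CutP (Set.range E.x) (E.b 0).1 (E.b 1).1)
    (S' : Set {v // v ∉ Set.range E.x ∨ v = E.x 3}) (hS' : S'.Nonempty)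
    (h3 : (⟨E.x 3, Or.inr rfl⟩ : {v // v ∉ Set.range E.x ∨ v = E.x 3}) ∉ S') :
    3 ≤ M'.cut S' := by
  classical
  have R := red_pent h
  obtain ⟨e, h1, h2⟩ := cut_formula R S'
  set S : Set V := Subtype.val '' S' with hS
  have hmem : ∀ x : {v // v ∉ Set.range E.x ∨ v = E.x 3}, x.1 ∈ S ↔ x ∈ S' := fun x =>
    Subtype.val_injective.mem_set_image
  have hx3 : E.x 3 ∉ S := fun h' => h3 ((hmem ⟨E.x 3, Or.inr rfl⟩).1 h')
  have hSX : ∀ v ∈ S, v ∉ Set.range E.x := by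
    rintro v ⟨x, hx, rfl⟩
    rcases x.2 with h' | h'
    · exact h'
    · exact absurd (h' ▸ (hmem x).2 hx) hx3
  obtain ⟨x, hx⟩ := hS'
  have c1 : 3 ≤ M.cut S := hTEC S ⟨x.1, (hmem x).2 hx⟩
    (fun h => hx3 (h ▸ Set.mem_univ _))
  have c2 := hcut S hSX
  rw [ncard_fin, Fin.sum_univ_six] at h1 h2
  have z0 : zP E 0 = E.b 0 := rfl
  have z1 : zP E 1 = E.b 1 := rfl
  have z2 : zP E 2 = E.b 4 := rfl
  have z3 : zP E 3 = (E.x 3, E.pos 3) := rfl
  have z4 : zP E 4 = E.b 2 := rfl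
  have z5 : zP E 5 = (E.x 3, E.pos 3 + 2) := rfl
  have s0 : sP 0 = 1 := rfl
  have s1 : sP 1 = 0 := rfl
  have s2 : sP 2 = 3 := rfl
  have s3 : sP 3 = 2 := rfl
  have s4 : sP 4 = 5 := rfl
  have s5 : sP 5 = 4 := rfl
  rw [s0, s1, s2, s3, s4, s5] at h2
  rw [z0, z1, z2, z3, z4, z5] at h1 h2
  by_cases p0 : (E.b 0).1 ∈ S <;> by_cases p1 : (E.b 1).1 ∈ S <;>
    by_cases p2 : (E.b 2).1 ∈ S <;> by_cases p4 : (E.b 4).1 ∈ S <;>
    simp only [p0, p1, p2, p4, hx3, not_true_eq_false, not_false_eq_true, and_true, and_false,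
      if_true, if_false, true_imp_iff, false_imp_iff, and_self] at h1 h2 c2 <;>
    omega

theorem specPentTEC : SpecPentTEC := by
  intro V _ M E M' h hTEC hcut S' hS' hS'u
  by_cases h3 : (⟨E.x 3, Or.inr rfl⟩ : {v // v ∉ Set.range E.x ∨ v = E.x 3}) ∈ S'
  · rw [← (specCut _ M' S' S').1]
    refine Reduce.pent_aux h hTEC hcut S'ᶜ ?_ (fun h' => h' h3)
    obtain ⟨y, hy⟩ := (Set.ne_univ_iff_exists_notMem _).1 hS'u
    exact ⟨y, hy⟩
  · exact Reduce.pent_aux h hTEC hcut S' hS' h3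

end Acyc75
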