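import Pool.Agent.Lib.MP_1e9f59_co.Fin54c
import Pool.Agent.Lib.MP_1e9f59_co.Three
import Pool.Agent.Lib.MP_1e9f59_co.NC

section
set_option autoImplicit false

namespace Acyc75

open CMap

namespace Corner

variable {V : Type}

lemma singleton_of_cut [Finite V] (M : CMap V) (hT : M.TEC) (hN : M.NT) (X C : Set V)
    (hX : 2 ≤ X.ncard) (hC : C.Nonempty) (hCX : ∀ v ∈ C, v ∉ X) (h : M.cut C ≤ 3) :
    M.cut C = 3 ∧ C.ncard = 1 := by
  have hCu : C ≠ Set.univ := by
    intro h1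
    have : X.Nonempty := by
      rw [← Set.ncard_pos]; omega
    obtain ⟨x, hx⟩ := this
    exact hCX x (h1 ▸ Set.mem_univ x) hx
  have h2 := hT C hC hCu
  have h3 : M.cut C = 3 := le_antisymm h h2
  refine ⟨h3, ?_⟩
  rcases hN C h3 with h4 | h4
  · exact h4
  · exfalso
    have : X.ncard ≤ Cᶜ.ncard := Set.ncard_le_ncard (fun x hx h5 => hCX x h5 hx) (Set.toFinite _)
    omega

end Corner

theorem specCorner : SpecCorner := by
  intro V _ M X b hT hN hb hX hA hB
  unfold CMap.CutA at hA hB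
  push Not at hA hB
  obtain ⟨S, hSX, hS0, hS1, hS2, hS3, hS⟩ := hA
  obtain ⟨T, hTX, hT0, hT1, hT2, hT3, hTc⟩ := hB
  simp only [Matrix.cons_val_zero, Matrix.cons_val_one, Matrix.cons_val] at hT0 hT1 hT2 hT3
  have hbX : ∀ j, (b j).1 ∉ X := fun j => ((hb.2 (b j)).2 ⟨j, rfl⟩).1
  have hbX' : ∀ j, (M.a (b j)).1 ∈ X := fun j => ((hb.2 (b j)).2 ⟨j, rfl⟩).2
  have hU : ∀ v ∈ S ∪ T, v ∉ X := by
    rintro v (hv | hv)
    · exact hSX v hv
    · exact hTX v hv
  have h1 := Cut.cut_submod M S T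
  have h2 := Cut.cut_union_bdry M X (S ∪ T) b hb hU
  have h3 := Cut.cut_posimod M S T
  -- number of boundary vertices in `S ∪ T`
  have hk : {j : Fin 4 | (b j).1 ∈ S ∪ T}.ncard = 3 := by
    have : {j : Fin 4 | (b j).1 ∈ S ∪ T} = {0, 1, 2} := by
      ext j
      fin_cases j <;> simp [hS0, hS1, hT1, hS3, hT2]
    rw [this]
    rw [Set.ncard_eq_toFinset_card']
    rfl
  rw [hk] at h2
  -- one dart leaves `S ∩ T` towards `X`
  have he : 1 ≤ {d : Dt V | d.1 ∈ S ∩ T ∧ (M.a d).1 ∉ S ∪ T}.ncard := by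
    rw [Nat.one_le_iff_ne_zero, Ne, Set.ncard_eq_zero (Set.toFinite _)]
    intro h4
    have : b 1 ∈ {d : Dt V | d.1 ∈ S ∩ T ∧ (M.a d).1 ∉ S ∪ T} :=
      ⟨⟨hS1, hT0⟩, fun h5 => hU _ h5 (hbX' 1)⟩
    rw [h4] at this
    exact this
  set C0 := S \ T
  set C1 := S ∩ T
  set C2 := T \ S
  set C3 := ((S ∪ T) ∪ X)ᶜ with hC3
  have hc3 : M.cut C3 = M.cut ((S ∪ T) ∪ X) := Cut.cut_compl M _
  have n0 : C0.Nonempty := ⟨_, hS0, hT3⟩
  have n1 : C1.Nonempty := ⟨_, hS1, hT0⟩
  have n2 : C2.Nonempty := ⟨_, hT1, hS2⟩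
  have n3 : C3.Nonempty := ⟨(b 3).1, by
    rintro ((h | h) | h)
    · exact hS3 h
    · exact hT2 h
    · exact hbX 3 h⟩
  have x0 : ∀ v ∈ C0, v ∉ X := fun v hv => hSX v hv.1
  have x1 : ∀ v ∈ C1, v ∉ X := fun v hv => hSX v hv.1
  have x2 : ∀ v ∈ C2, v ∉ X := fun v hv => hTX v hv.1
  have x3 : ∀ v ∈ C3, v ∉ X := fun v hv h => hv (Or.inr h)
  have hne : ∀ C : Set V, C.Nonempty → (∀ v ∈ C, v ∉ X) → 3 ≤ M.cut C := by
    intro C hC hCX
    refine hT C hC ?_
    intro h5
    obtain ⟨x, hx⟩ : X.Nonempty := by rw [← Set.ncard_pos]; omega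
    exact hCX x (h5 ▸ Set.mem_univ x) hx
  have l0 := hne C0 n0 x0
  have l1 := hne C1 n1 x1
  have l2 := hne C2 n2 x2
  have l3 := hne C3 n3 x3
  have s0 := (Corner.singleton_of_cut M hT hN X C0 hX n0 x0 (by omega)).2
  have s1 := (Corner.singleton_of_cut M hT hN X C1 hX n1 x1 (by omega)).2
  have s2 := (Corner.singleton_of_cut M hT hN X C2 hX n2 x2 (by omega)).2
  have s3 := (Corner.singleton_of_cut M hT hN X C3 hX n3 x3 (by omega)).2
  have e1 : S.ncard = C0.ncard + C1.ncard := by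
    rw [add_comm]
    exact (Set.ncard_inter_add_ncard_sdiff_eq_ncard S T (Set.toFinite _)).symm
  have e2 : (S ∪ T).ncard = S.ncard + C2.ncard := by
    have : S ∪ T = S ∪ C2 := by
      ext v; simp [C2]
    rw [this, Set.ncard_union_eq]
    rw [Set.disjoint_left]
    exact fun v h1 h2 => h2.2 h1
  have e3 : ((S ∪ T) ∪ X).ncard = (S ∪ T).ncard + X.ncard := by
    rw [Set.ncard_union_eq]
    rw [Set.disjoint_left]
    exact hU
  have e4 := Set.ncard_add_ncard_compl ((S ∪ T) ∪ X)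
  rw [← hC3] at e4
  omega

end Acyc75
end

section
/-!
# MP_1e9f59_co : SQ and DOM
-/
set_option autoImplicit false

namespace Acyc75

open CMap

namespace SqDom

variable {V : Type} {M : CMap V}

/-- Every dart at `v` is in some position. -/
theorem pos_surj (d : Dt V) (s : Fin 3) : ∃ t, d = (d.1, s + t) :=
  ⟨d.2 - s, by rw [add_sub_cancel]⟩

/-- The outgoing darts of an embedded table lead outside. -/
theorem out_of_table [Finite V] {m : ℕ} (T : Tab m 4) (x : Fin m → V) (pos : Fin m → Fin 3)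
    (loc : Fin 4 → Fin m × Fin 3)
    (hin : ∀ i t q, T i t = Sum.inl q → M.a (x i, pos i + t) = (x q.1, pos q.1 + q.2))
    (hloc : ∀ i t j, T i t = Sum.inr j ↔ loc j = (i, t))
    (hsym : ∀ i t q, T i t = Sum.inl q → T q.1 q.2 = Sum.inl (i, t))
    (hx : Function.Injective x)
    (hT : M.TEC) (hm : 0 < m) (hne : Set.range x ≠ Set.univ) (j : Fin 4) :
    (M.a (x (loc j).1, pos (loc j).1 + (loc j).2)).1 ∉ Set.range x := by
  rintro ⟨i', hi'⟩
  have hTj : T (loc j).1 (loc j).2 = Sum.inr j := (hloc _ _ j).2 rfl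
  obtain ⟨t', ht'⟩ := pos_surj (M.a (x (loc j).1, pos (loc j).1 + (loc j).2)) (pos i')
  rw [← hi'] at ht'
  have hback : M.a (x i', pos i' + t') = (x (loc j).1, pos (loc j).1 + (loc j).2) := by
    rw [← ht', M.inv]
  rcases hq : T i' t' with q | j'
  · have h1 := hin i' t' q hq
    rw [hback] at h1
    have h2 : (loc j).1 = q.1 := hx (congrArg Prod.fst h1)
    have h3 : pos (loc j).1 + (loc j).2 = pos q.1 + q.2 := congrArg Prod.snd h1
    rw [← h2] at h3
    have h4 : (loc j).2 = q.2 := add_left_cancel h3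
    have h5 := hsym i' t' q hq
    rw [← h2, ← h4, hTj] at h5
    exact absurd h5 (by simp)
  · have hjj : j ≠ j' := by
      rintro rfl
      have h1 := (hloc _ _ _).1 hq
      rw [h1] at ht'
      exact M.ne _ ht'
    have hne' : (Set.range x).Nonempty := ⟨x ⟨0, hm⟩, ⟨0, hm⟩, rfl⟩
    have hcut := hT (Set.range x) hne' hne
    let g : Fin 4 → Dt V := fun l => (x (loc l).1, pos (loc l).1 + (loc l).2)
    have hle : M.cut (Set.range x) ≤ (g '' ({j, j'}ᶜ : Set (Fin 4))).ncard := by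
      apply cut_le_of_subset
      rintro d ⟨i, hi⟩ hd
      obtain ⟨t, ht⟩ := pos_surj d (pos i)
      rw [← hi] at ht
      rcases hq' : T i t with q | l
      · have h1 := hin i t q hq'
        rw [← ht] at h1
        exact absurd ⟨q.1, (congrArg Prod.fst h1).symm⟩ hd
      · have h1 := (hloc _ _ _).1 hq'
        have hdl : d = g l := by rw [ht]; simp only [g]; rw [h1]
        refine ⟨l, ?_, hdl.symm⟩
        rintro (rfl | hl)
        · apply hd
          rw [hdl]
          exact ⟨i', hi'⟩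
        · obtain rfl : l = j' := hl
          apply hd
          have h2 := (hloc _ _ _).1 hq
          rw [hdl]
          simp only [g]
          rw [h2, hback]
          exact ⟨_, rfl⟩
    have hle2 : (g '' ({j, j'}ᶜ : Set (Fin 4))).ncard ≤ 2 := by
      refine (Set.ncard_image_le (Set.toFinite _)).trans ?_
      have h1 := Set.ncard_add_ncard_compl ({j, j'} : Set (Fin 4))
      rw [Set.ncard_pair hjj] at h1
      simp at h1
      omega
    omega

/-- Embeddings of tables with four outgoing edges. -/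
def mkEmb [Finite V] {m : ℕ} (T : Tab m 4) (x : Fin m → V) (pos : Fin m → Fin 3)
    (loc : Fin 4 → Fin m × Fin 3)
    (hin : ∀ i t q, T i t = Sum.inl q → M.a (x i, pos i + t) = (x q.1, pos q.1 + q.2))
    (hloc : ∀ i t j, T i t = Sum.inr j ↔ loc j = (i, t))
    (hsym : ∀ i t q, T i t = Sum.inl q → T q.1 q.2 = Sum.inl (i, t))
    (hx : Function.Injective x)
    (hT : M.TEC) (hm : 0 < m) (hne : Set.range x ≠ Set.univ) : M.Emb T where
  x := x
  pos := pos
  b := fun j => M.a (x (loc j).1, pos (loc j).1 + (loc j).2)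
  inj := hx
  out := out_of_table T x pos loc hin hloc hsym hx hT hm hne
  tgt := by
    intro i t
    rcases hq : T i t with q | j
    · exact hin i t q hq
    · have h1 := (hloc _ _ _).1 hq
      simp only [Sum.elim_inr, h1]

theorem range_ne_univ [Finite V] {m : ℕ} {x : Fin m → V} (hx : Function.Injective x)
    (h : m < Nat.card V) : Set.range x ≠ Set.univ := by
  intro he
  have h1 : (Set.range x).ncard = m := by
    rw [← Set.image_univ, Set.ncard_image_of_injective _ hx, Set.ncard_univ, Nat.card_fin]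
  rw [he, Set.ncard_univ] at h1
  omega

theorem ncard_range {m : ℕ} {x : Fin m → V} (hx : Function.Injective x) :
    (Set.range x).ncard = m := by
  rw [← Set.image_univ, Set.ncard_image_of_injective _ hx, Set.ncard_univ, Nat.card_fin]

/-- `a` in terms of `ph`. -/
theorem a_eq_rr (d : Dt V) : M.a d = rot (rot (M.ph d)) := by
  rw [ph_def, rot_rot_rot]

theorem a_rr_ph (d : Dt V) : M.a (rot (rot (M.ph d))) = d := by
  rw [← a_eq_rr, M.inv]

theorem pair_add_zero (d : Dt V) : ((d.1, d.2 + 0) : Dt V) = d := by rw [add_zero]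

theorem pair_add_one (d : Dt V) : ((d.1, d.2 + 1) : Dt V) = rot d := rfl

theorem pair_add_two (d : Dt V) : ((d.1, d.2 + 2) : Dt V) = rot (rot d) := by
  simp only [rot]
  rw [add_assoc]
  rfl

/-- The vertices of a face of length four are distinct. -/
theorem sq_inj [Finite V] (hS : (∀ d, (M.a d).1 ≠ d.1) ∧
      ∀ d d' : Dt V, d.1 = d'.1 → (M.a d).1 = (M.a d').1 → d = d') (d : Dt V)
    (h4 : M.ph (M.ph (M.ph (M.ph d))) = d) :
    (M.ph d).1 ≠ d.1 ∧ (M.ph (M.ph d)).1 ≠ d.1 ∧ (M.ph (M.ph (M.ph d))).1 ≠ d.1 ∧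
      (M.ph (M.ph d)).1 ≠ (M.ph d).1 ∧ (M.ph (M.ph (M.ph d))).1 ≠ (M.ph d).1 ∧
      (M.ph (M.ph (M.ph d))).1 ≠ (M.ph (M.ph d)).1 := by
  have hop : ∀ e : Dt V, (M.ph (M.ph e)).1 ≠ e.1 := by
    intro e he
    have h1 : M.a e = M.ph e := hS.2 _ _ rfl (by
      rw [M.inv]
      exact he.symm)
    rw [ph_def] at h1
    exact rot_ne _ h1.symm
  refine ⟨hS.1 d, hop d, ?_, hS.1 _, hop _, hS.1 _⟩
  intro he
  have h1 := hS.1 (M.ph (M.ph (M.ph d)))
  rw [← ph_fst, h4] at h1
  exact h1 he.symm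

/-- The boundary darts, shifted. -/
theorem cutA_or [Finite V] (X : Set V) (b b' : Fin 4 → Dt V) (hTEC : M.TEC) (hNT : M.NT)
    (hb : M.Bdry X b) (hX : 2 ≤ X.ncard) (hcard : Nat.card V ≠ X.ncard + 4)
    (hb' : ![b 1, b 2, b 3, b 0] = b') : M.CutA X b ∨ M.CutA X b' := by
  by_contra hcon
  push Not at hcon
  rw [← hb'] at hcon
  exact hcard (specCorner V M X b hTEC hNT hb hX hcon.1 hcon.2)

/-! ### The square -/

def locSq : Fin 4 → Fin 4 × Fin 3 := ![(0, 1), (1, 1), (2, 1), (3, 1)]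

theorem surTsq : SurT Tsq := by
  intro j
  refine ⟨(locSq j).1, (locSq j).2, ?_⟩
  fin_cases j <;> rfl

section square

variable [Finite V] (hS : (∀ d, (M.a d).1 ≠ d.1) ∧
      ∀ d d' : Dt V, d.1 = d'.1 → (M.a d).1 = (M.a d').1 → d = d') (hT : M.TEC)
  (hcard : 4 < Nat.card V) (d : Dt V) (h4 : M.ph (M.ph (M.ph (M.ph d))) = d)

def xs (M : CMap V) (d : Dt V) : Fin 4 → V :=
  ![d.1, (M.ph d).1, (M.ph (M.ph d)).1, (M.ph (M.ph (M.ph d))).1]

def ps (M : CMap V) (d : Dt V) : Fin 4 → Fin 3 :=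
  ![d.2, (M.ph d).2, (M.ph (M.ph d)).2, (M.ph (M.ph (M.ph d))).2]

include hS h4 in
theorem xs_inj : Function.Injective (xs M d) := by
  obtain ⟨h1, h2, h3, h5, h6, h7⟩ := sq_inj hS d h4
  intro i j hij
  fin_cases i <;> fin_cases j <;> first | rfl | (exfalso; revert hij; simp only [xs]; first
    | exact fun h => h1 h.symm | exact fun h => h1 h | exact fun h => h2 h.symm
    | exact fun h => h2 h | exact fun h => h3 h.symm | exact fun h => h3 h
    | exact fun h => h5 h.symm | exact fun h => h5 h | exact fun h => h6 h.symm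
    | exact fun h => h6 h | exact fun h => h7 h.symm | exact fun h => h7 h)

omit [Finite V] in
include h4 in
theorem xs_in (i : Fin 4) (t : Fin 3) (q : Fin 4 × Fin 3) (hq : Tsq i t = Sum.inl q) :
    M.a (xs M d i, ps M d i + t) = (xs M d q.1, ps M d q.1 + q.2) := by
  have e0 : M.a d = rot (rot (M.ph d)) := a_eq_rr d
  have e1 : M.a (M.ph d) = rot (rot (M.ph (M.ph d))) := a_eq_rr _
  have e2 : M.a (M.ph (M.ph d)) = rot (rot (M.ph (M.ph (M.ph d)))) := a_eq_rr _
  have e3 : M.a (M.ph (M.ph (M.ph d))) = rot (rot d) := by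
    rw [a_eq_rr, h4]
  have f0 : M.a (rot (rot (M.ph d))) = d := a_rr_ph _
  have f1 : M.a (rot (rot (M.ph (M.ph d)))) = M.ph d := a_rr_ph _
  have f2 : M.a (rot (rot (M.ph (M.ph (M.ph d))))) = M.ph (M.ph d) := a_rr_ph _
  have f3 : M.a (rot (rot d)) = M.ph (M.ph (M.ph d)) := by
    conv_lhs => rw [← h4]
    exact a_rr_ph _
  fin_cases i <;> fin_cases t <;> first | (exfalso; revert hq; simp [Tsq]; done) | skip
  all_goals
    obtain rfl := Sum.inl.inj hq
    simp only [xs, ps]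
  · exact (congrArg M.a (pair_add_zero d)).trans (e0.trans (pair_add_two _).symm)
  · exact (congrArg M.a (pair_add_two d)).trans (f3.trans (pair_add_zero _).symm)
  · exact (congrArg M.a (pair_add_zero _)).trans (e1.trans (pair_add_two _).symm)
  · exact (congrArg M.a (pair_add_two _)).trans (f0.trans (pair_add_zero _).symm)
  · exact (congrArg M.a (pair_add_zero _)).trans (e2.trans (pair_add_two _).symm)
  · exact (congrArg M.a (pair_add_two _)).trans (f1.trans (pair_add_zero _).symm)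
  · exact (congrArg M.a (pair_add_zero _)).trans (e3.trans (pair_add_two _).symm)
  · exact (congrArg M.a (pair_add_two _)).trans (f2.trans (pair_add_zero _).symm)

/-- The embedded square. -/
def embSq : M.Emb Tsq :=
  mkEmb Tsq (xs M d) (ps M d) locSq (xs_in d h4)
    (by intro i t j; fin_cases i <;> fin_cases t <;> fin_cases j <;> decide)
    (by intro i t q; revert i t q; decide) (xs_inj hS d h4) hT (by norm_num)
    (range_ne_univ (xs_inj hS d h4) hcard)

end square

end SqDom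

open SqDom in
theorem specSq : SpecSq := by
  intro V _ M d hTEC hPlan hNT hcard _ h4
  have hS := specSimple V M hTEC (by omega)
  have h4' : M.ph (M.ph (M.ph (M.ph d))) = d := h4
  have h4'' : M.ph (M.ph (M.ph (M.ph (M.ph d)))) = M.ph d := by rw [h4']
  set E := embSq hS hTEC (by omega) d h4' with hE
  set E' := embSq hS hTEC (by omega) (M.ph d) h4'' with hE'
  have hrange : Set.range E'.x = Set.range E.x := by
    have h1 : ∀ i, E'.x i = E.x (i + 1) := by
      intro i
      fin_cases i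
      · rfl
      · rfl
      · rfl
      · exact congrArg Prod.fst h4'
    ext v
    constructor
    · rintro ⟨i, rfl⟩
      exact ⟨i + 1, (h1 i).symm⟩
    · rintro ⟨i, rfl⟩
      exact ⟨i - 1, by rw [h1, sub_add_cancel]⟩
  have hb : ![E.b 1, E.b 2, E.b 3, E.b 0] = E'.b := by
    funext i
    fin_cases i
    · rfl
    · rfl
    · rfl
    · change M.a (d.1, d.2 + 1) = M.a ((M.ph (M.ph (M.ph (M.ph d)))).1,
        (M.ph (M.ph (M.ph (M.ph d)))).2 + 1)
      rw [h4']
  have hn : (Set.range E.x).ncard = 4 := ncard_range E.inj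
  rcases cutA_or (Set.range E.x) E.b E'.b hTEC hNT (Pinch.bdry_of_emb M Tsq surTsq E)
    (by omega) (by omega) hb with h | h
  · exact ⟨E, h⟩
  · rw [← hrange] at h
    exact ⟨E', h⟩

/-! ### The domino -/

namespace SqDom

variable {V : Type} {M : CMap V}

def locA : Fin 4 → Fin 6 × Fin 3 := ![(2, 1), (3, 1), (4, 1), (5, 1)]
def locB : Fin 4 → Fin 6 × Fin 3 := ![(3, 1), (4, 1), (5, 1), (2, 1)]

theorem surTdA : SurT TdA := by
  intro j
  refine ⟨(locA j).1, (locA j).2, ?_⟩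
  fin_cases j <;> rfl

/-- No closed walks of length three. -/
theorem no_tri [Finite V] (hJ : SpecJC3) (hT : M.TEC) (hP : M.Plan) (hcard : 4 ≤ Nat.card V)
    (h3 : ∀ d, M.ph^[3] d ≠ d) (d₀ d₁ d₂ : Dt V) (h0 : (M.a d₀).1 = d₁.1)
    (h1 : (M.a d₁).1 = d₂.1) (h2 : (M.a d₂).1 = d₀.1) : False := by
  rcases hJ V M hT hP hcard d₀ d₁ d₂ h0 h1 h2 with h | h
  · apply h3 d₀
    change M.ph (M.ph (M.ph d₀)) = d₀
    rw [h.1, h.2.1, h.2.2]
  · apply h3 (M.a d₀)
    change M.ph (M.ph (M.ph (M.a d₀))) = M.a d₀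
    rw [h.2.2, h.2.1, h.1]

section domino

variable [Finite V] (hS : (∀ d, (M.a d).1 ≠ d.1) ∧
      ∀ d d' : Dt V, d.1 = d'.1 → (M.a d).1 = (M.a d').1 → d = d') (hT : M.TEC)
  (hnt : ∀ d₀ d₁ d₂ : Dt V, (M.a d₀).1 = d₁.1 → (M.a d₁).1 = d₂.1 → (M.a d₂).1 = d₀.1 → False)
  (hcard : 6 < Nat.card V) (d : Dt V) (h4 : M.ph (M.ph (M.ph (M.ph d))) = d)
  (h4' : M.ph (M.ph (M.ph (M.ph (M.a d)))) = M.a d)

def xd (M : CMap V) (d : Dt V) : Fin 6 → V :=
  ![d.1, (M.ph d).1, (M.ph (M.ph d)).1, (M.ph (M.ph (M.ph d))).1, (M.ph (M.ph (M.a d))).1,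
    (M.ph (M.ph (M.ph (M.a d)))).1]

def pd (M : CMap V) (d : Dt V) : Fin 6 → Fin 3 :=
  ![d.2, (M.ph d).2, (M.ph (M.ph d)).2, (M.ph (M.ph (M.ph d))).2, (M.ph (M.ph (M.a d))).2,
    (M.ph (M.ph (M.ph (M.a d)))).2]

include hS h4 h4' hnt in
theorem xd_inj : Function.Injective (xd M d) := by
  obtain ⟨h1, h2, h3, h5, h6, h7⟩ := sq_inj hS d h4
  obtain ⟨g1, g2, g3, g5, g6, g7⟩ := sq_inj hS (M.a d) h4'
  have ea : M.ph (M.a d) = rot d := ph_a M d
  have e1 : (M.ph (M.a d)).1 = d.1 := by rw [ea]; rfl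
  have e2 : (M.a d).1 = (M.ph d).1 := rfl
  rw [e1] at g1 g5 g6
  rw [e2] at g1 g2 g3
  -- 3 and 4
  have f34 : (M.ph (M.ph (M.ph d))).1 ≠ (M.ph (M.ph (M.a d))).1 := by
    intro he
    have k1 : M.a (rot (rot d)) = M.ph (M.ph (M.ph d)) := by
      conv_lhs => rw [← h4]
      exact a_rr_ph _
    have k2 : (M.a (rot d)).1 = (M.ph (M.ph (M.a d))).1 := by rw [ea]; rfl
    have := hS.2 (rot (rot d)) (rot d) rfl (by rw [k1, k2, he])
    exact rot_ne _ this
  -- 2 and 5
  have f25 : (M.ph (M.ph d)).1 ≠ (M.ph (M.ph (M.ph (M.a d)))).1 := by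
    intro he
    have k1 : M.a (rot (M.ph d)) = M.ph (M.ph (M.ph (M.a d))) := by
      have : rot (M.ph d) = M.a (M.ph (M.ph (M.ph (M.a d)))) := by
        rw [a_eq_rr (M.ph (M.ph (M.ph (M.a d)))), h4']
        rfl
      rw [this, M.inv]
    have := hS.2 (M.ph d) (rot (M.ph d)) rfl (by rw [k1]; exact he)
    exact rot_ne _ this.symm
  -- 2 and 4
  have f24 : (M.ph (M.ph d)).1 ≠ (M.ph (M.ph (M.a d))).1 := by
    intro he
    refine hnt d (M.ph d) (rot (rot (M.ph (M.ph (M.a d))))) rfl he ?_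
    rw [a_rr_ph, ea]
    rfl
  -- 3 and 5
  have f35 : (M.ph (M.ph (M.ph d))).1 ≠ (M.ph (M.ph (M.ph (M.a d)))).1 := by
    intro he
    refine hnt d (rot (M.ph d)) (M.ph (M.ph (M.ph d))) rfl ?_ (by rw [← ph_fst, h4])
    have k1 : M.a (rot (M.ph d)) = M.ph (M.ph (M.ph (M.a d))) := by
      have : rot (M.ph d) = M.a (M.ph (M.ph (M.ph (M.a d)))) := by
        rw [a_eq_rr (M.ph (M.ph (M.ph (M.a d)))), h4']
        rfl
      rw [this, M.inv]
    rw [k1]
    exact he.symm
  intro i j hij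
  fin_cases i <;> fin_cases j <;> first | rfl | (exfalso; revert hij; simp only [xd]; first
    | exact fun h => h1 h.symm | exact fun h => h1 h | exact fun h => h2 h.symm
    | exact fun h => h2 h | exact fun h => h3 h.symm | exact fun h => h3 h
    | exact fun h => h5 h.symm | exact fun h => h5 h | exact fun h => h6 h.symm
    | exact fun h => h6 h | exact fun h => h7 h.symm | exact fun h => h7 h
    | exact fun h => g2 h.symm | exact fun h => g2 h | exact fun h => g3 h.symm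
    | exact fun h => g3 h | exact fun h => g5 h.symm | exact fun h => g5 h
    | exact fun h => g6 h.symm | exact fun h => g6 h | exact fun h => g7 h.symm
    | exact fun h => g7 h | exact fun h => f34 h.symm | exact fun h => f34 h
    | exact fun h => f25 h.symm | exact fun h => f25 h | exact fun h => f24 h.symm
    | exact fun h => f24 h | exact fun h => f35 h.symm | exact fun h => f35 h)

omit [Finite V] in
include h4 h4' in
theorem xd_in (T : Tab 6 4) (hTd : ∀ i t q, T i t = Sum.inl q → TdA i t = Sum.inl q) (i : Fin 6)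
    (t : Fin 3) (q : Fin 6 × Fin 3) (hq' : T i t = Sum.inl q) :
    M.a (xd M d i, pd M d i + t) = (xd M d q.1, pd M d q.1 + q.2) := by
  have hq := hTd i t q hq'
  clear hq' hTd
  have ea : M.ph (M.a d) = rot d := ph_a M d
  have e0 : M.a d = rot (rot (M.ph d)) := a_eq_rr d
  have e1 : M.a (M.ph d) = rot (rot (M.ph (M.ph d))) := a_eq_rr _
  have e2 : M.a (M.ph (M.ph d)) = rot (rot (M.ph (M.ph (M.ph d)))) := a_eq_rr _
  have e3 : M.a (M.ph (M.ph (M.ph d))) = rot (rot d) := by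
    rw [a_eq_rr, h4]
  have f0 : M.a (rot (rot (M.ph d))) = d := a_rr_ph _
  have f1 : M.a (rot (rot (M.ph (M.ph d)))) = M.ph d := a_rr_ph _
  have f2 : M.a (rot (rot (M.ph (M.ph (M.ph d))))) = M.ph (M.ph d) := a_rr_ph _
  have f3 : M.a (rot (rot d)) = M.ph (M.ph (M.ph d)) := by
    conv_lhs => rw [← h4]
    exact a_rr_ph _
  have g0 : M.a (rot d) = rot (rot (M.ph (M.ph (M.a d)))) := by
    rw [ea]; exact a_eq_rr _
  have g1 : M.a (M.ph (M.ph (M.ph (M.a d)))) = rot (M.ph d) := by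
    rw [a_eq_rr (M.ph (M.ph (M.ph (M.a d)))), h4']
    rfl
  have g2 : M.a (rot (M.ph d)) = M.ph (M.ph (M.ph (M.a d))) := by rw [← g1, M.inv]
  have g3 : M.a (M.ph (M.ph (M.a d))) = rot (rot (M.ph (M.ph (M.ph (M.a d))))) := a_eq_rr _
  have g4 : M.a (rot (rot (M.ph (M.ph (M.a d))))) = rot d := by rw [a_rr_ph, ea]
  have g5 : M.a (rot (rot (M.ph (M.ph (M.ph (M.a d)))))) = M.ph (M.ph (M.a d)) := a_rr_ph _
  fin_cases i <;> fin_cases t <;> first | (exfalso; revert hq; simp [TdA]; done) | skip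
  all_goals
    obtain rfl := Sum.inl.inj hq
    simp only [xd, pd]
  · exact (congrArg M.a (pair_add_zero d)).trans (e0.trans (pair_add_two _).symm)
  · exact (congrArg M.a (pair_add_one d)).trans (g0.trans (pair_add_two _).symm)
  · exact (congrArg M.a (pair_add_two d)).trans (f3.trans (pair_add_zero _).symm)
  · exact (congrArg M.a (pair_add_zero _)).trans (e1.trans (pair_add_two _).symm)
  · exact (congrArg M.a (pair_add_one _)).trans (g2.trans (pair_add_zero _).symm)
  · exact (congrArg M.a (pair_add_two _)).trans (f0.trans (pair_add_zero _).symm)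
  · exact (congrArg M.a (pair_add_zero _)).trans (e2.trans (pair_add_two _).symm)
  · exact (congrArg M.a (pair_add_two _)).trans (f1.trans (pair_add_zero _).symm)
  · exact (congrArg M.a (pair_add_zero _)).trans (e3.trans (pair_add_two _).symm)
  · exact (congrArg M.a (pair_add_two _)).trans (f2.trans (pair_add_zero _).symm)
  · exact (congrArg M.a (pair_add_zero _)).trans (g3.trans (pair_add_two _).symm)
  · exact (congrArg M.a (pair_add_two _)).trans (g4.trans (pair_add_one _).symm)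
  · exact (congrArg M.a (pair_add_zero _)).trans (g1.trans (pair_add_one _).symm)
  · exact (congrArg M.a (pair_add_two _)).trans (g5.trans (pair_add_zero _).symm)

end domino

theorem locA_spec : ∀ i t j, TdA i t = Sum.inr j ↔ locA j = (i, t) := by decide +kernel

theorem locB_spec : ∀ i t j, TdB i t = Sum.inr j ↔ locB j = (i, t) := by decide +kernel

theorem symA : ∀ i t q, TdA i t = Sum.inl q → TdA q.1 q.2 = Sum.inl (i, t) := by decide +kernel

theorem symB : ∀ i t q, TdB i t = Sum.inl q → TdB q.1 q.2 = Sum.inl (i, t) := by decide +kernel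

theorem subBA : ∀ i t q, TdB i t = Sum.inl q → TdA i t = Sum.inl q := by decide +kernel

section domino

variable [Finite V] (hS : (∀ d, (M.a d).1 ≠ d.1) ∧
      ∀ d d' : Dt V, d.1 = d'.1 → (M.a d).1 = (M.a d').1 → d = d') (hT : M.TEC)
  (hnt : ∀ d₀ d₁ d₂ : Dt V, (M.a d₀).1 = d₁.1 → (M.a d₁).1 = d₂.1 → (M.a d₂).1 = d₀.1 → False)
  (hcard : 6 < Nat.card V) (d : Dt V) (h4 : M.ph (M.ph (M.ph (M.ph d))) = d)
  (h4' : M.ph (M.ph (M.ph (M.ph (M.a d)))) = M.a d)

/-- The embedded domino. -/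
def embA : M.Emb TdA :=
  mkEmb TdA (xd M d) (pd M d) locA (xd_in d h4 h4' TdA (fun _ _ _ h => h)) locA_spec symA
    (xd_inj hS hnt d h4 h4') hT (by norm_num) (range_ne_univ (xd_inj hS hnt d h4 h4') hcard)

/-- The embedded domino with the boundary shifted. -/
def embB : M.Emb TdB :=
  mkEmb TdB (xd M d) (pd M d) locB (xd_in d h4 h4' TdB subBA) locB_spec symB
    (xd_inj hS hnt d h4 h4') hT (by norm_num) (range_ne_univ (xd_inj hS hnt d h4 h4') hcard)

end domino

end SqDom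

namespace SqDom

section domino

variable {V : Type} {M : CMap V} [Finite V] (hS : (∀ d, (M.a d).1 ≠ d.1) ∧
      ∀ d d' : Dt V, d.1 = d'.1 → (M.a d).1 = (M.a d').1 → d = d') (hT : M.TEC)
  (hnt : ∀ d₀ d₁ d₂ : Dt V, (M.a d₀).1 = d₁.1 → (M.a d₁).1 = d₂.1 → (M.a d₂).1 = d₀.1 → False)
  (hcard : 6 < Nat.card V) (d : Dt V) (h4 : M.ph (M.ph (M.ph (M.ph d))) = d)
  (h4' : M.ph (M.ph (M.ph (M.ph (M.a d)))) = M.a d)

theorem embA_x : (embA hS hT hnt hcard d h4 h4').x = xd M d := rfl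

theorem embB_x : (embB hS hT hnt hcard d h4 h4').x = xd M d := rfl

theorem embA_b (j : Fin 4) : (embA hS hT hnt hcard d h4 h4').b j =
    M.a (xd M d (locA j).1, pd M d (locA j).1 + (locA j).2) := rfl

theorem embB_b (j : Fin 4) : (embB hS hT hnt hcard d h4 h4').b j =
    M.a (xd M d (locB j).1, pd M d (locB j).1 + (locB j).2) := rfl

theorem loc_shift : locA 1 = locB 0 ∧ locA 2 = locB 1 ∧ locA 3 = locB 2 ∧ locA 0 = locB 3 := by
  decide

end domino

end SqDom

open SqDom in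
theorem specDom (hJ : SpecJC3) : SpecDom := by
  intro V _ M d hTEC hPlan hNT hcard h3 h4 h4'
  have hS := specSimple V M hTEC (by omega)
  have hnt := fun d₀ d₁ d₂ => no_tri (M := M) hJ hTEC hPlan (by omega) h3 d₀ d₁ d₂
  have hcard' : 6 < Nat.card V := by omega
  have hA := embA_b hS hTEC hnt hcard' d h4 h4'
  have hB := embB_b hS hTEC hnt hcard' d h4 h4'
  have hxA := embA_x hS hTEC hnt hcard' d h4 h4'
  have hxB := embB_x hS hTEC hnt hcard' d h4 h4'
  generalize embA hS hTEC hnt hcard' d h4 h4' = E at hA hxA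
  generalize embB hS hTEC hnt hcard' d h4 h4' = E' at hB hxB
  obtain ⟨l1, l2, l3, l4⟩ := loc_shift
  have hb : ![E.b 1, E.b 2, E.b 3, E.b 0] = E'.b := by
    funext i
    fin_cases i
    · change E.b 1 = E'.b 0
      rw [hA, hB, l1]
    · change E.b 2 = E'.b 1
      rw [hA, hB, l2]
    · change E.b 3 = E'.b 2
      rw [hA, hB, l3]
    · change E.b 0 = E'.b 3
      rw [hA, hB, l4]
  have hn : (Set.range E.x).ncard = 6 := ncard_range E.inj
  rcases cutA_or (Set.range E.x) E.b E'.b hTEC hNT (Pinch.bdry_of_emb M TdA surTdA E)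
    (by omega) (by omega) hb with h | h
  · exact Or.inl ⟨E, h⟩
  · right
    refine ⟨E', ?_⟩
    rw [hxB, ← hxA]
    exact h

end Acyc75
end
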