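import Pool.Agent.Lib.MP_1e9f59_co.Spec

section
/-!
# MP_1e9f59_co : module INIT
-/
set_option autoImplicit false

namespace Acyc75

namespace Init

open SimpleGraph

/-! ### Three-edge-connectivity -/

/-- `cut Sᶜ = cut S`. -/
theorem cut_compl {V : Type} (M : CMap V) (S : Set V) : M.cut Sᶜ = M.cut S := by
  unfold CMap.cut
  apply Set.ncard_congr (fun d _ => M.a d)
  · intro d hd
    refine ⟨?_, ?_⟩
    · have := hd.2
      simpa using this
    · rw [M.inv]
      exact hd.1
  · intro d d' _ _ h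
    have := congrArg M.a h
    rwa [M.inv, M.inv] at this
  · intro d hd
    refine ⟨M.a d, ⟨?_, ?_⟩, M.inv d⟩
    · exact hd.2
    · rw [M.inv]
      have := hd.1
      simpa using this

/-- Small sets have large cuts in simple cubic maps. -/
theorem cut_small {V : Type} [Finite V] (M : CMap V) (hL : ∀ d, (M.a d).1 ≠ d.1)
    (hS : ∀ d d' : Dt V, d.1 = d'.1 → (M.a d).1 = (M.a d').1 → d = d') (S : Set V)
    (h0 : S.Nonempty) (h3 : S.ncard ≤ 3) : 3 ≤ M.cut S := by
  classical
  have := Fintype.ofFinite V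
  -- all darts at `S`
  have h1 : ({d : Dt V | d.1 ∈ S}).ncard = 3 * S.ncard := by
    have : {d : Dt V | d.1 ∈ S} = S ×ˢ (Set.univ : Set (Fin 3)) := by
      ext d
      simp
    rw [this, Set.ncard_prod, Set.ncard_univ]
    simp [mul_comm]
  have h2 : ({d : Dt V | d.1 ∈ S ∧ (M.a d).1 ∈ S}).ncard ≤ S.ncard * S.ncard - S.ncard := by
    have hcard : (S.toFinset.offDiag : Finset (V × V)).card = S.ncard * S.ncard - S.ncard := by
      rw [Finset.offDiag_card, Set.ncard_eq_toFinset_card']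
    rw [← hcard, ← Set.ncard_coe_finset]
    apply Set.ncard_le_ncard_of_injOn (fun d => (d.1, (M.a d).1))
    · intro d hd
      simp only [Finset.mem_coe, Finset.mem_offDiag, Set.mem_toFinset]
      exact ⟨hd.1, hd.2, (hL d).symm⟩
    · intro d _ d' _ h
      exact hS d d' (Prod.mk.inj h).1 (Prod.mk.inj h).2
  have h4 : ({d : Dt V | d.1 ∈ S}).ncard ≤ M.cut S + S.ncard * S.ncard - S.ncard := by
    have : {d : Dt V | d.1 ∈ S} = {d : Dt V | d.1 ∈ S ∧ (M.a d).1 ∉ S} ∪
        {d : Dt V | d.1 ∈ S ∧ (M.a d).1 ∈ S} := by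
      ext d
      simp only [Set.mem_ofPred_eq, Set.mem_union]
      tauto
    rw [this]
    refine (Set.ncard_union_le _ _).trans ?_
    unfold CMap.cut
    have h5 : S.ncard ≤ S.ncard * S.ncard := Nat.le_mul_self _
    omega
  rw [h1] at h4
  have h6 : 1 ≤ S.ncard := (Set.ncard_pos (Set.toFinite S)).2 h0
  generalize S.ncard = n at *
  interval_cases n <;> omega

/-- Large sets, from connectivity after the deletion of two vertices. -/
theorem cut_large {V : Type} [Finite V] (G : SimpleGraph V) (M : CMap V)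
    (hA : ∀ v w, M.Adj v w ↔ G.Adj v w)
    (hC : ∀ u v : V, (G.induce ({u, v}ᶜ : Set V)).Connected) (S : Set V)
    (h3 : 3 ≤ S.ncard) (hU : S ≠ Set.univ) : 3 ≤ M.cut S := by
  classical
  by_contra hlt
  push Not at hlt
  have hne : S.Nonempty := by
    rw [← Set.ncard_pos (Set.toFinite S)]
    omega
  -- the cut darts start in two vertices of `S`
  obtain ⟨u, v, hu, hv, huv⟩ : ∃ u v : V, u ∈ S ∧ v ∈ S ∧
      ∀ d : Dt V, d.1 ∈ S → (M.a d).1 ∉ S → d.1 = u ∨ d.1 = v := by
    obtain ⟨s, hs⟩ := hne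
    set I : Set V := Prod.fst '' {d : Dt V | d.1 ∈ S ∧ (M.a d).1 ∉ S} with hI
    have hIc : I.ncard ≤ 2 := by
      have h8 : I.ncard ≤ ({d : Dt V | d.1 ∈ S ∧ (M.a d).1 ∉ S}).ncard := Set.ncard_image_le
        (Set.toFinite {d : Dt V | d.1 ∈ S ∧ (M.a d).1 ∉ S})
      unfold CMap.cut at hlt
      omega
    have hIS : ∀ x ∈ I, x ∈ S := by
      rintro x ⟨d, hd, rfl⟩
      exact hd.1
    have key : ∀ d : Dt V, d.1 ∈ S → (M.a d).1 ∉ S → d.1 ∈ I := fun d h1 h2 => ⟨d, ⟨h1, h2⟩, rfl⟩
    have : I.ncard = 0 ∨ I.ncard = 1 ∨ I.ncard = 2 := by omega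
    rcases this with h | h | h
    · rw [Set.ncard_eq_zero (Set.toFinite I)] at h
      refine ⟨s, s, hs, hs, fun d h1 h2 => ?_⟩
      have := key d h1 h2
      rw [h] at this
      exact this.elim
    · rw [Set.ncard_eq_one] at h
      obtain ⟨x, hx⟩ := h
      have hxS : x ∈ S := hIS x (by rw [hx]; rfl)
      refine ⟨x, x, hxS, hxS, fun d h1 h2 => ?_⟩
      have := key d h1 h2
      rw [hx] at this
      exact Or.inl this
    · rw [Set.ncard_eq_two] at h
      obtain ⟨x, y, -, hxy⟩ := h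
      refine ⟨x, y, hIS x (by rw [hxy]; simp), hIS y (by rw [hxy]; simp), fun d h1 h2 => ?_⟩
      have := key d h1 h2
      rw [hxy] at this
      simpa using this
  -- a vertex of `S` different from `u`, `v`
  obtain ⟨s, hsS, hsu, hsv⟩ : ∃ s ∈ S, s ≠ u ∧ s ≠ v := by
    by_contra hcon
    push Not at hcon
    have : S ⊆ {u, v} := by
      intro x hx
      by_cases hxu : x = u
      · simp [hxu]
      · simp [hcon x hx hxu]
    have h4 := Set.ncard_le_ncard this (Set.toFinite _)
    have h5 : ({u, v} : Set V).ncard ≤ 2 := by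
      refine (Set.ncard_insert_le u {v}).trans ?_
      rw [Set.ncard_singleton]
    omega
  obtain ⟨t, htS⟩ : ∃ t, t ∉ S := by
    by_contra hcon
    push Not at hcon
    exact hU (Set.eq_univ_of_forall hcon)
  have hs' : s ∈ ({u, v}ᶜ : Set V) := by simp [hsu, hsv]
  have ht' : t ∈ ({u, v}ᶜ : Set V) := by
    simp only [Set.mem_compl_iff, Set.mem_insert_iff, Set.mem_singleton_iff, not_or]
    exact ⟨fun h => htS (h ▸ hu), fun h => htS (h ▸ hv)⟩
  obtain ⟨w⟩ := (hC u v).preconnected ⟨s, hs'⟩ ⟨t, ht'⟩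
  obtain ⟨d, hd, h1, h2⟩ := w.exists_boundary_dart {x | x.1 ∈ S} hsS htS
  have hadj : G.Adj d.fst.1 d.snd.1 := d.adj
  obtain ⟨i, hi⟩ := (hA _ _).2 hadj
  have h7 := huv (d.fst.1, i) h1 (by rw [hi]; exact h2)
  have h8 := d.fst.2
  simp only [Set.mem_compl_iff, Set.mem_insert_iff, Set.mem_singleton_iff] at h8
  exact h8 h7

theorem tec {V : Type} [Finite V] (G : SimpleGraph V) (M : CMap V)
    (hA : ∀ v w, M.Adj v w ↔ G.Adj v w) (hL : ∀ d, (M.a d).1 ≠ d.1)
    (hS : ∀ d d' : Dt V, d.1 = d'.1 → (M.a d).1 = (M.a d').1 → d = d')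
    (hC : ∀ u v : V, (G.induce ({u, v}ᶜ : Set V)).Connected) : M.TEC := by
  intro S h0 hU
  by_cases h : S.ncard ≤ 3
  · exact cut_small M hL hS S h0 h
  · exact cut_large G M hA hC S (by omega) hU

/-! ### The rotation system -/

/-- The darts at a vertex are the powers `0, 1, 2` of the rotation. -/
theorem three {V : Type} [Fintype V] (G : SimpleGraph V)
    (hc : ∀ v : V, Nat.card (G.neighborSet v) = 3) (σ : Equiv.Perm G.Dart)
    (hσ : ∀ d : G.Dart, (σ d).fst = d.fst)
    (ht : ∀ d d' : G.Dart, d.fst = d'.fst → ∃ n : ℕ, (σ ^ n) d = d') (d : G.Dart) :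
    Function.minimalPeriod σ d = 3 := by
  classical
  have hfst : ∀ n : ℕ, (σ^[n] d).fst = d.fst := by
    intro n
    induction n with
    | zero => rfl
    | succ n ih => rw [Function.iterate_succ_apply', hσ, ih]
  have hp : 0 < Function.minimalPeriod σ d := by
    apply Function.minimalPeriod_pos_of_mem_periodicPts
    refine ⟨orderOf σ, orderOf_pos σ, ?_⟩
    show σ^[orderOf σ] d = d
    rw [← Equiv.Perm.coe_pow, pow_orderOf_eq_one]
    rfl
  have e1 : Nat.card (Fin (Function.minimalPeriod σ d)) = Nat.card (G.neighborSet d.fst) := by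
    apply Nat.card_congr
    refine Equiv.ofBijective (fun i => ⟨(σ^[i.1] d).snd, ?_⟩) ⟨?_, ?_⟩
    · have := (σ^[i.1] d).adj
      rw [hfst] at this
      exact this
    · intro i j hij
      have h1 : (σ^[i.1] d).snd = (σ^[j.1] d).snd := congrArg Subtype.val hij
      have h2 : σ^[i.1] d = σ^[j.1] d := by
        apply SimpleGraph.Dart.ext
        apply Prod.ext
        · exact (hfst i.1).trans (hfst j.1).symm
        · exact h1
      exact Fin.ext (Function.iterate_injOn_Iio_minimalPeriod i.2 j.2 h2)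
    · rintro ⟨x, hx⟩
      obtain ⟨n, hn⟩ := ht d ⟨(d.fst, x), hx⟩ rfl
      refine ⟨⟨n % Function.minimalPeriod σ d, Nat.mod_lt _ hp⟩, ?_⟩
      apply Subtype.ext
      show (σ^[n % Function.minimalPeriod σ d] d).snd = x
      rw [Function.iterate_mod_minimalPeriod_eq, ← Equiv.Perm.coe_pow, hn]
  rw [hc, Nat.card_eq_fintype_card, Fintype.card_fin] at e1
  exact e1

end Init

open Init in
theorem specInit (hPE : SpecPlanEuler) : SpecInit := by
  classical
  intro V _ G hc hconn h4 hC ⟨k, hk, σ, φ, face, hσ, ht, hφ, hface, hsurj⟩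
  -- the base dart at each vertex
  have hd0 : ∀ v : V, ∃ d : G.Dart, d.fst = v := by
    intro v
    have h1 : 0 < Nat.card (G.neighborSet v) := by rw [hc]; norm_num
    rw [Nat.card_pos_iff] at h1
    obtain ⟨⟨x, hx⟩⟩ := h1.1
    exact ⟨⟨(v, x), hx⟩, rfl⟩
  choose d0 hd0 using hd0
  have hfst : ∀ (n : ℕ) (d : G.Dart), (σ^[n] d).fst = d.fst := by
    intro n d
    induction n with
    | zero => rfl
    | succ n ih => rw [Function.iterate_succ_apply', hσ, ih]
  have h3 : ∀ d, Function.minimalPeriod σ d = 3 := three G hc σ hσ ht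
  have hper : ∀ d, σ^[3] d = d := by
    intro d
    have := Function.isPeriodicPt_minimalPeriod σ d
    rw [h3] at this
    exact this
  let e0 : Dt V → G.Dart := fun d => σ^[d.2.val] (d0 d.1)
  have he0 : Function.Bijective e0 := by
    constructor
    · intro d d' h
      have h1 : d.1 = d'.1 := by
        have := congrArg (fun x : G.Dart => x.fst) h
        simp only [e0] at this
        rwa [hfst, hfst, hd0, hd0] at this
      have h2 : d.2 = d'.2 := by
        have h5 : σ^[d.2.val] (d0 d.1) = σ^[d'.2.val] (d0 d.1) := by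
          have := h
          simp only [e0] at this
          rw [← h1] at this
          exact this
        apply Fin.ext
        have h6 := Function.iterate_injOn_Iio_minimalPeriod (f := σ) (x := d0 d.1)
        rw [h3] at h6
        exact h6 (Set.mem_Iio.2 d.2.2) (Set.mem_Iio.2 d'.2.2) h5
      exact Prod.ext h1 h2
    · intro d
      obtain ⟨n, hn⟩ := ht (d0 d.fst) d (hd0 _)
      refine ⟨(d.fst, ⟨n % 3, Nat.mod_lt _ (by norm_num)⟩), ?_⟩
      show σ^[n % 3] (d0 d.fst) = d
      have h7 := Function.iterate_mod_minimalPeriod_eq (f := σ) (x := d0 d.fst) (n := n)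
      rw [h3] at h7
      rw [h7, ← Equiv.Perm.coe_pow, hn]
  let e : Dt V ≃ G.Dart := Equiv.ofBijective e0 he0
  have hefst : ∀ d, (e d).fst = d.1 := by
    intro d
    show (σ^[d.2.val] (d0 d.1)).fst = d.1
    rw [hfst, hd0]
  have herot : ∀ d, e (rot d) = σ (e d) := by
    rintro ⟨v, i⟩
    show σ^[(i + 1 : Fin 3).val] (d0 v) = σ (σ^[i.val] (d0 v))
    fin_cases i
    · rfl
    · rfl
    · exact (hper (d0 v)).symm
  let M : CMap V :=
    { a := fun d => e.symm (e d).symm
      inv := fun d => by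
        show e.symm (e (e.symm (e d).symm)).symm = d
        rw [Equiv.apply_symm_apply, SimpleGraph.Dart.symm_symm, Equiv.symm_apply_apply]
      ne := fun d h => by
        have h1 : (e d).symm = e d := by
          have := congrArg e h
          rwa [Equiv.apply_symm_apply] at this
        exact SimpleGraph.Dart.symm_ne (e d) h1 }
  have hMa : ∀ d, e (M.a d) = (e d).symm := fun d => Equiv.apply_symm_apply e _
  have hMa1 : ∀ d, (M.a d).1 = (e d).snd := by
    intro d
    rw [← hefst, hMa]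
    rfl
  have hA : ∀ v w, M.Adj v w ↔ G.Adj v w := by
    intro v w
    constructor
    · rintro ⟨i, hi⟩
      rw [hMa1] at hi
      have := (e (v, i)).adj
      rw [hi] at this
      have h8 : (e (v, i)).toProd.1 = v := hefst (v, i)
      rw [h8] at this
      exact this
    · intro h
      obtain ⟨d, hd⟩ := e.surjective ⟨(v, w), h⟩
      have hd1 : d.1 = v := by rw [← hefst, hd]
      refine ⟨d.2, ?_⟩
      have : (v, d.2) = d := by rw [← hd1]
      rw [this, hMa1, hd]
  have hL : ∀ d, (M.a d).1 ≠ d.1 := by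
    intro d h
    have := (e d).adj
    rw [hMa1] at h
    have h9 : (e d).toProd.1 = d.1 := hefst d
    have h10 : (e d).toProd.2 = d.1 := h
    rw [h9, h10] at this
    exact G.loopless.irrefl _ this
  have hS : ∀ d d' : Dt V, d.1 = d'.1 → (M.a d).1 = (M.a d').1 → d = d' := by
    intro d d' h1 h2
    apply e.injective
    apply SimpleGraph.Dart.ext
    apply Prod.ext
    · exact (hefst d).trans (h1.trans (hefst d').symm)
    · rw [hMa1, hMa1] at h2
      exact h2
  have hT : M.TEC := tec G M hA hL hS hC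
  have hne : Nonempty V := hconn.nonempty
  refine ⟨M, hT, ?_, hA⟩
  have hph : ∀ d, e (M.ph d) = φ (e d) := by
    intro d
    show e (rot (M.a d)) = φ (e d)
    rw [herot, hMa, hφ]
  have hphn : ∀ (n : ℕ) d, e (M.ph^[n] d) = (φ ^ n) (e d) := by
    intro n d
    induction n with
    | zero => rfl
    | succ n ih => rw [Function.iterate_succ_apply', hph, ih, pow_succ']; rfl
  apply hPE V M k (fun d => face (e d)) hne
  · intro S h0 hU
    have := hT S h0 hU
    omega
  · exact hsurj.comp e.surjective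
  · intro d d'
    show face (e d) = face (e d') ↔ _
    rw [hface]
    constructor
    · rintro ⟨n, hn⟩
      exact ⟨n, e.injective (by rw [hphn, hn])⟩
    · rintro ⟨n, hn⟩
      exact ⟨n, by rw [← hphn, hn]⟩
  · have h10 : Fintype.card G.Dart = 2 * G.edgeFinset.card := G.dart_card_eq_twice_card_edges
    have h11 : Fintype.card G.Dart = Fintype.card V * 3 := by
      rw [← Fintype.card_congr e, Fintype.card_prod, Fintype.card_fin]
    have h12 : Nat.card G.edgeSet = G.edgeFinset.card := by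
      rw [Nat.card_eq_fintype_card, SimpleGraph.edgeFinset, Set.toFinset_card]
    rw [Nat.card_eq_fintype_card]
    omega

end Acyc75
end

section
/-!
# JC: short cycles are faces
-/
set_option autoImplicit false

namespace Acyc75

namespace JC

variable {V : Type}

theorem rot_fst (d : Dt V) : (rot d).1 = d.1 := rfl

theorem rot3 (d : Dt V) : rot (rot (rot d)) = d := by
  obtain ⟨v, t⟩ := d
  unfold rot
  ext
  · rfl
  · fin_cases t <;> rfl

theorem rot_ne (d : Dt V) : rot d ≠ d := by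
  obtain ⟨v, t⟩ := d
  intro h
  have := congrArg Prod.snd h
  revert this
  unfold rot
  fin_cases t <;> simp

theorem rot2_ne (d : Dt V) : rot (rot d) ≠ d := by
  obtain ⟨v, t⟩ := d
  intro h
  have := congrArg Prod.snd h
  revert this
  unfold rot
  fin_cases t <;> simp

/-- the darts at a vertex -/
theorem at_vertex (d e : Dt V) (h : e.1 = d.1) : e = d ∨ e = rot d ∨ e = rot (rot d) := by
  obtain ⟨v, t⟩ := d
  obtain ⟨w, s⟩ := e
  simp only at h
  subst h
  unfold rot
  simp only [Prod.mk.injEq, true_and]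
  revert s t
  decide

theorem sum_rot (C : Dt V → ZMod 2) (d : Dt V) :
    C (d.1, 0) + C (d.1, 1) + C (d.1, 2) = C d + C (rot d) + C (rot (rot d)) := by
  obtain ⟨v, t⟩ := d
  unfold rot
  fin_cases t
  · rfl
  · show C (v, 0) + C (v, 1) + C (v, 2) = C (v, 1) + C (v, 2) + C (v, 0)
    ring
  · show C (v, 0) + C (v, 1) + C (v, 2) = C (v, 2) + C (v, 0) + C (v, 1)
    ring

theorem z2 (a : ZMod 2) : a = 0 ∨ a = 1 := by
  revert a
  decide

/-- A chordless cycle of length at most 5 is a face. -/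
theorem cyc [Finite V] {M : CMap V} (hT : M.TEC) (hP : M.Plan) {k : ℕ} [NeZero k] (hk3 : 3 ≤ k)
    (hk5 : k ≤ 5) (d : Fin k → Dt V) (h1 : ∀ i, (M.a (d i)).1 = (d (i + 1)).1)
    (hinj : Function.Injective fun i => (d i).1)
    (hoff : ∀ i (e : Dt V), e.1 = (d (i + 1)).1 → e ≠ d (i + 1) → e ≠ M.a (d i) →
      ∀ j, (M.a e).1 ≠ (d j).1) :
    (∀ i, M.ph (d i) = d (i + 1)) ∨ (∀ i, M.ph (M.a (d (i + 1))) = M.a (d i)) := by
  classical
  have hinj' : ∀ i j, (d i).1 = (d j).1 → i = j := fun i j h => hinj h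
  -- `i + 2 ≠ i`
  have h11 : ∀ i : Fin k, i + 1 + 1 ≠ i := by
    intro i h
    have h2 : (1 : Fin k) + 1 = 0 := by
      rw [add_assoc] at h
      simpa using h
    have h3 := congrArg Fin.val h2
    rw [Fin.val_add, Fin.val_one', Fin.val_zero] at h3
    have h4 : 1 % k = 1 := Nat.mod_eq_of_lt (by omega)
    rw [h4, Nat.mod_eq_of_lt (by omega)] at h3
    omega
  have h01 : ∀ i : Fin k, i + 1 ≠ i := by
    intro i h
    have h2 : (1 : Fin k) = 0 := by simpa using h
    have h3 := congrArg Fin.val h2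
    rw [Fin.val_one', Fin.val_zero, Nat.mod_eq_of_lt (by omega)] at h3
    omega
  have hda : ∀ i, M.a (d i) ≠ d (i + 1) := by
    intro i h
    have h2 : (M.a (d (i + 1))).1 = (d i).1 := by rw [← h, M.inv]
    rw [h1] at h2
    exact h11 i (hinj' _ _ h2)
  have hsurj : ∀ j : Fin k, ∃ i, i + 1 = j := fun j => ⟨j - 1, by simp⟩
  -- the even set
  set C : Dt V → ZMod 2 := fun e => if ∃ i, e = d i ∨ e = M.a (d i) then 1 else 0 with hC
  have hCd : ∀ i, C (d i) = 1 := fun i => if_pos ⟨i, Or.inl rfl⟩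
  have hCa : ∀ i, C (M.a (d i)) = 1 := fun i => if_pos ⟨i, Or.inr rfl⟩
  have hC0 : ∀ e, (∀ j, e.1 ≠ (d j).1) → C e = 0 := by
    intro e he
    simp only [hC]
    rw [if_neg]
    rintro ⟨i, rfl | rfl⟩
    · exact he i rfl
    · exact he (i + 1) (h1 i)
  have hCt : ∀ i (e : Dt V), e.1 = (d (i + 1)).1 → e ≠ d (i + 1) → e ≠ M.a (d i) → C e = 0 := by
    intro i e he1 he2 he3
    simp only [hC]
    rw [if_neg]
    rintro ⟨j, rfl | rfl⟩
    · rw [hinj' _ _ he1] at he2
      exact he2 rfl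
    · rw [h1] at he1
      have h2 := hinj' _ _ he1
      have h3 : j = i := add_right_cancel h2
      rw [h3] at he3
      exact he3 rfl
  have hCinv : ∀ e, C (M.a e) = C e := by
    intro e
    simp only [hC]
    congr 1
    rw [eq_iff_iff]
    constructor
    · rintro ⟨i, h | h⟩
      · exact ⟨i, Or.inr (by rw [← h, M.inv])⟩
      · exact ⟨i, Or.inl (by
          have := congrArg M.a h
          rwa [M.inv, M.inv] at this)⟩
    · rintro ⟨i, h | h⟩
      · exact ⟨i, Or.inr (by rw [h])⟩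
      · exact ⟨i, Or.inl (by rw [h, M.inv])⟩
  -- the third dart at the vertex `i + 1`
  set t : Fin k → Dt V := fun i =>
    if rot (M.a (d i)) = d (i + 1) then rot (rot (M.a (d i))) else rot (M.a (d i)) with ht
  have ht1 : ∀ i, (t i).1 = (d (i + 1)).1 := by
    intro i
    simp only [ht]
    split_ifs
    · rw [rot_fst, rot_fst, h1]
    · rw [rot_fst, h1]
  have hcase : ∀ i, (rot (M.a (d i)) = d (i + 1) ∧ t i = rot (rot (M.a (d i)))) ∨
      (rot (rot (M.a (d i))) = d (i + 1) ∧ t i = rot (M.a (d i))) := by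
    intro i
    by_cases h : rot (M.a (d i)) = d (i + 1)
    · left
      refine ⟨h, ?_⟩
      simp only [ht]
      rw [if_pos h]
    · right
      refine ⟨?_, ?_⟩
      · rcases at_vertex (M.a (d i)) (d (i + 1)) (h1 i).symm with h2 | h2 | h2
        · exact absurd h2.symm (hda i)
        · exact absurd h2.symm h
        · exact h2.symm
      · simp only [ht]
        rw [if_neg h]
  have ht2 : ∀ i, t i ≠ d (i + 1) := by
    intro i h
    rcases hcase i with ⟨h2, h3⟩ | ⟨h2, h3⟩
    · rw [h3, ← h2] at h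
      exact rot_ne _ h
    · rw [h3, ← h2] at h
      exact rot_ne _ h.symm
  have ht3 : ∀ i, t i ≠ M.a (d i) := by
    intro i h
    rcases hcase i with ⟨h2, h3⟩ | ⟨h2, h3⟩
    · rw [h3] at h
      exact rot2_ne _ h
    · rw [h3] at h
      exact rot_ne _ h
  have ht4 : ∀ i (e : Dt V), e.1 = (d (i + 1)).1 → e ≠ d (i + 1) → e ≠ M.a (d i) → e = t i := by
    intro i e he1 he2 he3
    rcases at_vertex (M.a (d i)) e (by rw [he1, h1]) with h2 | h2 | h2
    · exact absurd h2 he3
    · rcases hcase i with ⟨h3, h4⟩ | ⟨h3, h4⟩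
      · exact absurd (h2.trans h3) he2
      · rw [h2, h4]
    · rcases hcase i with ⟨h3, h4⟩ | ⟨h3, h4⟩
      · rw [h2, h4]
      · exact absurd (h2.trans h3) he2
  have hCti : ∀ i, C (t i) = 0 := fun i => hCt i _ (ht1 i) (ht2 i) (ht3 i)
  have hEv : M.Ev C := by
    refine ⟨hCinv, fun v => ?_⟩
    by_cases hv : ∃ j, v = (d j).1
    · obtain ⟨j, rfl⟩ := hv
      obtain ⟨i, rfl⟩ := hsurj j
      rw [← h1 i, sum_rot, hCa]
      rcases hcase i with ⟨h3, h4⟩ | ⟨h3, h4⟩
      · rw [← h4, hCti, h3, hCd]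
        decide
      · rw [h3, hCd, ← h4, hCti]
        decide
    · push Not at hv
      rw [hC0 (v, 0) hv, hC0 (v, 1) hv, hC0 (v, 2) hv]
      decide
  obtain ⟨A, hA1, hA2⟩ := hP C hEv
  have hAa : ∀ e, A (M.a e) = A e + C e := by
    intro e
    have h2 := hA2 e
    have : ∀ x y z : ZMod 2, x + y = z → y = x + z := by decide
    exact this _ _ _ h2
  have hAr : ∀ e, A (rot e) = A e + C e := by
    intro e
    have h2 := hA1 (M.a e)
    unfold CMap.ph at h2
    rw [M.inv] at h2
    rw [h2, hAa]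
  -- the potential on the cycle
  have hAd : ∀ i, A (d (i + 1)) = A (d i) := by
    intro i
    have h2 : A (rot (M.a (d i))) = A (d i) := hA1 (d i)
    rcases hcase i with ⟨h3, h4⟩ | ⟨h3, h4⟩
    · rw [← h3, h2]
    · rw [← h3, hAr, ← h4, hCti, h4, h2, add_zero]
  have hAconst : ∀ i, A (d i) = A (d 0) := by
    have h2 : ∀ n : ℕ, ∀ hn : n < k, A (d ⟨n, hn⟩) = A (d 0) := by
      intro n
      induction n with
      | zero => intro hn; rfl
      | succ n ih =>
        intro hn
        have h3 : (⟨n + 1, hn⟩ : Fin k) = ⟨n, by omega⟩ + 1 := by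
          apply Fin.ext
          rw [Fin.val_add, Fin.val_one', Nat.mod_eq_of_lt (show 1 < k by omega)]
          show n + 1 = (n + 1) % k
          rw [Nat.mod_eq_of_lt hn]
        rw [h3, hAd, ih]
    exact fun i => h2 i.1 i.2
  set α := A (d 0) with hα
  have hAt : ∀ i, (rot (M.a (d i)) = d (i + 1) ∧ A (t i) = α + 1) ∨
      (rot (rot (M.a (d i))) = d (i + 1) ∧ A (t i) = α) := by
    intro i
    rcases hcase i with ⟨h3, h4⟩ | ⟨h3, h4⟩
    · left
      refine ⟨h3, ?_⟩
      rw [h4, h3, hAr, hCd, hAconst]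
    · right
      refine ⟨h3, ?_⟩
      rw [h4]
      have h2 : A (rot (M.a (d i))) = A (d i) := hA1 (d i)
      rw [h2, hAconst]
  -- off the cycle the potential is constant at vertices
  have hoffv : ∀ e : Dt V, (∀ j, e.1 ≠ (d j).1) → ∀ e' : Dt V, e'.1 = e.1 → A e' = A e := by
    intro e he e' he'
    rcases at_vertex e e' he' with h2 | h2 | h2
    · rw [h2]
    · rw [h2, hAr, hC0 e he, add_zero]
    · rw [h2, hAr, hAr, hC0 e he, hC0 (rot e) he, add_zero, add_zero]
  -- the number of third darts on each side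
  have hside : ∀ β : ZMod 2, (∀ i, A (t i) ≠ β) ∨
      3 ≤ (Finset.univ.filter fun i => A (t i) = β).card := by
    intro β
    by_cases hβ : ∀ i, A (t i) ≠ β
    · exact Or.inl hβ
    right
    push Not at hβ
    obtain ⟨i₀, hi₀⟩ := hβ
    set S : Set V := {v | (∀ j, v ≠ (d j).1) ∧ A (v, 0) = β} with hS
    have hS1 : ∀ e : Dt V, (∀ j, e.1 ≠ (d j).1) → A e = β → e.1 ∈ S := by
      intro e he1 he2
      exact ⟨he1, (hoffv e he1 (e.1, 0) rfl).trans he2⟩
    have hoff' : ∀ i j, (M.a (t i)).1 ≠ (d j).1 := fun i j =>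
      hoff i (t i) (ht1 i) (ht2 i) (ht3 i) j
    have hAat : ∀ i, A (M.a (t i)) = A (t i) := by
      intro i
      rw [hAa, hCti, add_zero]
    have h2 : (M.a (t i₀)).1 ∈ S := hS1 _ (hoff' i₀) (by rw [hAat, hi₀])
    have h3 : S ≠ Set.univ := by
      intro h
      have h4 : (d 0).1 ∈ S := by rw [h]; trivial
      exact h4.1 0 rfl
    have h4 := hT S ⟨_, h2⟩ h3
    refine h4.trans ?_
    unfold CMap.cut
    have h5 : {e : Dt V | e.1 ∈ S ∧ (M.a e).1 ∉ S} ⊆
        ((Finset.univ.filter fun i => A (t i) = β).image fun i => M.a (t i) : Finset (Dt V)) := by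
      rintro e ⟨he1, he2⟩
      have hCe : C e = 0 := hC0 e he1.1
      have hAe : A e = β := (hoffv (e.1, 0) he1.1 e rfl).trans he1.2
      have hAae : A (M.a e) = β := by rw [hAa, hCe, add_zero, hAe]
      have h6 : ∃ j, (M.a e).1 = (d j).1 := by
        by_contra hcon
        push Not at hcon
        exact he2 (hS1 _ hcon hAae)
      obtain ⟨j, hj⟩ := h6
      obtain ⟨i, rfl⟩ := hsurj j
      have h7 : M.a e = t i := by
        apply ht4 i _ hj
        · intro h
          have h8 : e = M.a (d (i + 1)) := by rw [← h, M.inv]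
          apply he1.1 (i + 1 + 1)
          rw [h8, h1]
        · intro h
          have h8 : e = d i := by
            have := congrArg M.a h
            rwa [M.inv, M.inv] at this
          exact he1.1 i (by rw [h8])
      rw [Finset.coe_image]
      refine ⟨i, ?_, ?_⟩
      · simp only [Finset.coe_filter, Finset.mem_univ, true_and, Set.mem_ofPred_eq]
        rw [← h7, hAae]
      · show M.a (t i) = e
        rw [← h7, M.inv]
    refine (Set.ncard_le_ncard h5 (Finset.finite_toSet _)).trans ?_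
    rw [Set.ncard_coe_finset]
    exact Finset.card_image_le
  have hne1 : ∀ x : ZMod 2, x ≠ x + 1 := by decide
  rcases hside α with hl | hl
  · -- no left darts
    left
    intro i
    rcases hAt i with ⟨h3, _⟩ | ⟨_, h4⟩
    · exact h3
    · exact absurd h4 (hl i)
  · rcases hside (α + 1) with hr | hr
    · right
      intro i
      rcases hAt i with ⟨_, h4⟩ | ⟨h3, _⟩
      · exact absurd h4 (hr i)
      · show rot (M.a (M.a (d (i + 1)))) = M.a (d i)
        rw [M.inv, ← h3, rot3]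
    · exfalso
      have h5 : Disjoint (Finset.univ.filter fun i => A (t i) = α)
          (Finset.univ.filter fun i => A (t i) = α + 1) := by
        rw [Finset.disjoint_left]
        intro i hi hi'
        rw [Finset.mem_filter] at hi hi'
        exact hne1 α (hi.2.symm.trans hi'.2)
      have h6 := Finset.card_le_univ ((Finset.univ.filter fun i => A (t i) = α) ∪
          (Finset.univ.filter fun i => A (t i) = α + 1))
      rw [Finset.card_union_of_disjoint h5, Fintype.card_fin] at h6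
      omega

/-- the hypotheses of `cyc` for vertices at distance one -/
theorem adj_ne {M : CMap V} {k : ℕ} [NeZero k]
    (hl : ∀ d, (M.a d).1 ≠ d.1) {d : Fin k → Dt V} (h1 : ∀ i, (M.a (d i)).1 = (d (i + 1)).1)
    (i : Fin k) : (d (i + 1)).1 ≠ (d i).1 := by
  rw [← h1]
  exact hl _

/-- the hypotheses of `cyc` for vertices at distance two -/
theorem two_ne {M : CMap V} {k : ℕ} [NeZero k]
    (hp : ∀ d d' : Dt V, d.1 = d'.1 → (M.a d).1 = (M.a d').1 → d = d')
    {d : Fin k → Dt V} (h1 : ∀ i, (M.a (d i)).1 = (d (i + 1)).1)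
    (hnb : ∀ i, d (i + 1) ≠ M.a (d i)) (i : Fin k) : (d (i + 1 + 1)).1 ≠ (d i).1 := by
  intro h
  apply hnb i
  apply hp
  · rw [h1]
  · rw [h1, M.inv, h]

/-- third darts do not go to the same or to the adjacent vertices -/
theorem third_near {M : CMap V} {k : ℕ} [NeZero k]
    (hl : ∀ d, (M.a d).1 ≠ d.1) (hp : ∀ d d' : Dt V, d.1 = d'.1 → (M.a d).1 = (M.a d').1 → d = d')
    {d : Fin k → Dt V} (h1 : ∀ i, (M.a (d i)).1 = (d (i + 1)).1) (i : Fin k) (e : Dt V)
    (he1 : e.1 = (d (i + 1)).1) (he2 : e ≠ d (i + 1)) (he3 : e ≠ M.a (d i)) (j : Fin k)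
    (hj : j = i ∨ j = i + 1 ∨ j = i + 1 + 1) : (M.a e).1 ≠ (d j).1 := by
  intro h
  rcases hj with rfl | rfl | rfl
  · exact he3 (hp e (M.a (d j)) (by rw [he1, h1]) (by rw [h, M.inv]))
  · exact hl e (by rw [h, he1])
  · exact he2 (hp e (d (i + 1)) he1 (by rw [h, h1]))

end JC

theorem specJC3 (hS : SpecSimple) : SpecJC3 := by
  intro V _ M hT hP hV d₀ d₁ d₂ h0 h1 h2
  obtain ⟨hl, hp⟩ := hS V M hT (by omega)
  set d : Fin 3 → Dt V := ![d₀, d₁, d₂] with hd
  have hd1 : ∀ i, (M.a (d i)).1 = (d (i + 1)).1 := by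
    intro i
    fin_cases i
    · exact h0
    · exact h1
    · exact h2
  have hadj := JC.adj_ne hl hd1
  have hinj : Function.Injective fun i => (d i).1 := by
    intro i j h
    have hij : i = j ∨ i = j + 1 ∨ j = i + 1 := by
      clear h
      revert i j
      decide
    rcases hij with rfl | rfl | rfl
    · rfl
    · exact absurd h (hadj j)
    · exact absurd h.symm (hadj i)
  have hoff : ∀ i (e : Dt V), e.1 = (d (i + 1)).1 → e ≠ d (i + 1) → e ≠ M.a (d i) →
      ∀ j, (M.a e).1 ≠ (d j).1 := by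
    intro i e he1 he2 he3 j
    refine JC.third_near hl hp hd1 i e he1 he2 he3 j ?_
    clear he1 he2 he3
    revert i j
    decide
  rcases JC.cyc hT hP le_rfl (by norm_num) d hd1 hinj hoff with h | h
  · exact Or.inl ⟨h 0, h 1, h 2⟩
  · exact Or.inr ⟨h 0, h 1, h 2⟩

theorem specJC4 (hS : SpecSimple) : SpecJC4 := by
  intro V _ M hT hP hV hf d₀ d₁ d₂ d₃ h0 h1 h2 h3 n0 n1 n2 n3
  obtain ⟨hl, hp⟩ := hS V M hT (by omega)
  set d : Fin 4 → Dt V := ![d₀, d₁, d₂, d₃] with hd
  have hd1 : ∀ i, (M.a (d i)).1 = (d (i + 1)).1 := by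
    intro i
    fin_cases i
    · exact h0
    · exact h1
    · exact h2
    · exact h3
  have hnb : ∀ i, d (i + 1) ≠ M.a (d i) := by
    intro i
    fin_cases i
    · exact n0
    · exact n1
    · exact n2
    · exact n3
  have hadj := JC.adj_ne hl hd1
  have htwo := JC.two_ne hp hd1 hnb
  have hinj : Function.Injective fun i => (d i).1 := by
    intro i j h
    have hij : i = j ∨ i = j + 1 ∨ j = i + 1 ∨ i = j + 1 + 1 := by
      clear h
      revert i j
      decide
    rcases hij with rfl | rfl | rfl | rfl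
    · rfl
    · exact absurd h (hadj j)
    · exact absurd h.symm (hadj i)
    · exact absurd h (htwo j)
  have hoff : ∀ i (e : Dt V), e.1 = (d (i + 1)).1 → e ≠ d (i + 1) → e ≠ M.a (d i) →
      ∀ j, (M.a e).1 ≠ (d j).1 := by
    intro i e he1 he2 he3 j
    have hj : (j = i ∨ j = i + 1 ∨ j = i + 1 + 1) ∨ j = i + 1 + 1 + 1 := by
      clear he1 he2 he3
      revert i j
      decide
    rcases hj with hj | rfl
    · exact JC.third_near hl hp hd1 i e he1 he2 he3 j hj
    -- a chord: the cycle has only two outgoing darts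
    intro hch
    set S : Set V := Set.range fun i => (d i).1 with hSdef
    have hScard : S.ncard = 4 := by
      rw [hSdef, ← Set.image_univ, Set.ncard_image_of_injective _ hinj, Set.ncard_univ]
      simp
    have hne : S ≠ Set.univ := by
      intro h
      rw [h, Set.ncard_univ] at hScard
      omega
    have hcut := hT S ⟨_, ⟨0, rfl⟩⟩ hne
    -- the darts at a vertex of the cycle
    have hthird : ∀ j : Fin 4, ∀ x y : Dt V, x.1 = (d (j + 1)).1 → x ≠ d (j + 1) →
        x ≠ M.a (d j) → y.1 = (d (j + 1)).1 → y ≠ d (j + 1) → y ≠ M.a (d j) → x = y := by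
      intro j x y hx1 hx2 hx3 hy1 hy2 hy3
      rcases JC.at_vertex (d (j + 1)) x hx1 with a1 | a1 | a1 <;>
        rcases JC.at_vertex (d (j + 1)) y hy1 with a2 | a2 | a2
      · exact absurd a1 hx2
      · exact absurd a1 hx2
      · exact absurd a1 hx2
      · exact absurd a2 hy2
      · rw [a1, a2]
      · rcases JC.at_vertex (d (j + 1)) (M.a (d j)) (hd1 j) with a3 | a3 | a3
        · exact absurd a3 (hnb j).symm
        · exact absurd (a1.trans a3.symm) hx3
        · exact absurd (a2.trans a3.symm) hy3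
      · exact absurd a2 hy2
      · rcases JC.at_vertex (d (j + 1)) (M.a (d j)) (hd1 j) with a3 | a3 | a3
        · exact absurd a3 (hnb j).symm
        · exact absurd (a2.trans a3.symm) hy3
        · exact absurd (a1.trans a3.symm) hx3
      · rw [a1, a2]
    -- outgoing darts of `S` are third darts
    have hout : ∀ x : Dt V, x.1 ∈ S → (M.a x).1 ∉ S → ∀ j : Fin 4, x ≠ d j ∧ x ≠ M.a (d j) := by
      intro x _ hx2 j
      constructor
      · rintro rfl
        exact hx2 ⟨j + 1, (hd1 j).symm⟩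
      · rintro rfl
        rw [M.inv] at hx2
        exact hx2 ⟨j, rfl⟩
    have hsub : {x : Dt V | x.1 ∈ S ∧ (M.a x).1 ∉ S} ⊆
        {x : Dt V | x.1 = (d i).1 ∧ (M.a x).1 ∉ S} ∪ {x : Dt V | x.1 = (d (i + 1 + 1)).1 ∧
          (M.a x).1 ∉ S} := by
      rintro x ⟨⟨j, hj⟩, hx2⟩
      have hx1 : x.1 ∈ S := ⟨j, hj⟩
      have hj' : j = i ∨ j = i + 1 + 1 ∨ j = i + 1 ∨ j = i + 1 + 1 + 1 := by
        clear hj he1 he2 he3 hch
        revert i j
        decide
      have hj2 : x.1 = (d j).1 := hj.symm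
      rcases hj' with rfl | rfl | rfl | rfl
      · exact Or.inl ⟨hj2, hx2⟩
      · exact Or.inr ⟨hj2, hx2⟩
      · exfalso
        have h5 : x = e := hthird i x e hj2 (hout x hx1 hx2 _).1 (hout x hx1 hx2 _).2 he1 he2 he3
        rw [h5] at hx2
        exact hx2 ⟨_, hch.symm⟩
      · exfalso
        have h5 : x = M.a e := by
          refine hthird (i + 1 + 1) x (M.a e) hj2 (hout x hx1 hx2 _).1 (hout x hx1 hx2 _).2 hch ?_ ?_
          · intro h
            have h6 : e = M.a (d (i + 1 + 1 + 1)) := by rw [← h, M.inv]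
            have h7 : e.1 = (d (i + 1 + 1 + 1 + 1)).1 := by rw [h6, hd1]
            have h8 : i + 1 = i + 1 + 1 + 1 + 1 := hinj (by
              show (d (i + 1)).1 = (d (i + 1 + 1 + 1 + 1)).1
              rw [← h7, he1])
            clear * - h8
            revert i
            decide
          · intro h
            have h6 : e = d (i + 1 + 1) := by
              have := congrArg M.a h
              rwa [M.inv, M.inv] at this
            have h8 : i + 1 = i + 1 + 1 := hinj (by
              show (d (i + 1)).1 = (d (i + 1 + 1)).1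
              rw [← h6, he1])
            clear * - h8
            revert i
            decide
        rw [h5, M.inv] at hx2
        exact hx2 ⟨_, he1.symm⟩
    have hone : ∀ j : Fin 4, {x : Dt V | x.1 = (d (j + 1)).1 ∧ (M.a x).1 ∉ S}.ncard ≤ 1 := by
      intro j
      rw [Set.ncard_le_one_iff]
      rintro x y ⟨hx1, hx2⟩ ⟨hy1, hy2⟩
      have hx0 : x.1 ∈ S := ⟨_, hx1.symm⟩
      have hy0 : y.1 ∈ S := ⟨_, hy1.symm⟩
      exact hthird j x y hx1 (hout x hx0 hx2 _).1 (hout x hx0 hx2 _).2 hy1 (hout y hy0 hy2 _).1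
        (hout y hy0 hy2 _).2
    have hi3 : i = i + 1 + 1 + 1 + 1 := by
      clear * - i
      revert i
      decide
    have c1 : {x : Dt V | x.1 = (d i).1 ∧ (M.a x).1 ∉ S}.ncard ≤ 1 := by
      have := hone (i + 1 + 1 + 1)
      rwa [← hi3] at this
    have c2 := hone (i + 1)
    have c3 := Set.ncard_le_ncard hsub (Set.toFinite _)
    have c4 := Set.ncard_union_le {x : Dt V | x.1 = (d i).1 ∧ (M.a x).1 ∉ S}
      {x : Dt V | x.1 = (d (i + 1 + 1)).1 ∧ (M.a x).1 ∉ S}
    unfold CMap.cut at hcut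
    omega
  rcases JC.cyc hT hP (by norm_num) (by norm_num) d hd1 hinj hoff with h | h
  · exact Or.inl ⟨h 0, h 1, h 2, h 3⟩
  · exact Or.inr ⟨h 0, h 1, h 2, h 3⟩

theorem specJC5 (hS : SpecSimple) : SpecJC5 := by
  intro V _ M hT hP hV hf3 hf4 d₀ d₁ d₂ d₃ d₄ h0 h1 h2 h3 h4 n0 n1 n2 n3 n4
  obtain ⟨hl, hp⟩ := hS V M hT (by omega)
  set d : Fin 5 → Dt V := ![d₀, d₁, d₂, d₃, d₄] with hd
  have hd1 : ∀ i, (M.a (d i)).1 = (d (i + 1)).1 := by
    intro i
    fin_cases i
    · exact h0
    · exact h1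
    · exact h2
    · exact h3
    · exact h4
  have hnb : ∀ i, d (i + 1) ≠ M.a (d i) := by
    intro i
    fin_cases i
    · exact n0
    · exact n1
    · exact n2
    · exact n3
    · exact n4
  have hadj := JC.adj_ne hl hd1
  have htwo := JC.two_ne hp hd1 hnb
  have hinj : Function.Injective fun i => (d i).1 := by
    intro i j h
    have hij : i = j ∨ i = j + 1 ∨ j = i + 1 ∨ i = j + 1 + 1 ∨ j = i + 1 + 1 := by
      clear h
      revert i j
      decide
    rcases hij with rfl | rfl | rfl | rfl | rfl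
    · rfl
    · exact absurd h (hadj j)
    · exact absurd h.symm (hadj i)
    · exact absurd h (htwo j)
    · exact absurd h.symm (htwo i)
  -- no chord
  have hchord : ∀ (i : Fin 5) (e : Dt V), e.1 = (d (i + 1 + 1)).1 → (M.a e).1 ≠ (d i).1 := by
    intro i e he1 he2
    rcases specJC3 hS V M hT hP (by omega) (d i) (d (i + 1)) e (hd1 i) (by rw [hd1, he1]) he2 with
      ⟨a1, a2, a3⟩ | ⟨a1, a2, a3⟩
    · apply hf3 (d i)
      show M.ph (M.ph (M.ph (d i))) = d i
      rw [a1, a2, a3]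
    · apply hf3 (M.a (d i))
      show M.ph (M.ph (M.ph (M.a (d i)))) = M.a (d i)
      rw [a3, a2, a1]
  have hoff : ∀ i (e : Dt V), e.1 = (d (i + 1)).1 → e ≠ d (i + 1) → e ≠ M.a (d i) →
      ∀ j, (M.a e).1 ≠ (d j).1 := by
    intro i e he1 he2 he3 j
    have hj : (j = i ∨ j = i + 1 ∨ j = i + 1 + 1) ∨ j = i + 1 + 1 + 1 ∨ j + 1 + 1 = i + 1 := by
      clear he1 he2 he3
      revert i j
      decide
    rcases hj with hj | rfl | hj
    · exact JC.third_near hl hp hd1 i e he1 he2 he3 j hj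
    · intro hch
      apply hchord (i + 1) (M.a e) hch
      rw [M.inv, he1]
    · intro hch
      exact hchord j e (by rw [he1, hj]) hch
  rcases JC.cyc hT hP (by norm_num) le_rfl d hd1 hinj hoff with h | h
  · exact Or.inl ⟨h 0, h 1, h 2, h 3, h 4⟩
  · exact Or.inr ⟨h 0, h 1, h 2, h 3, h 4⟩

end Acyc75
end

section
/-!
# MP_1e9f59_co : MERGE

Colourings of the two sides of a 3-edge-cut are merged to a good colouring of the map.
-/
set_option autoImplicit false

namespace Acyc75

namespace Merge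

open CMap

/-- The six permutations of the colours. -/
def P6 : Fin 6 → Fin 3 → Fin 3 := ![![0, 1, 2], ![0, 2, 1], ![1, 0, 2], ![1, 2, 0], ![2, 0, 1],
  ![2, 1, 0]]

theorem P6_inj : ∀ (i : Fin 6) (x y : Fin 3), P6 i x = P6 i y → x = y := by decide

theorem P6_inj' (i : Fin 6) {x y : Fin 3} (h : x ≠ y) : P6 i x ≠ P6 i y :=
  fun e => h (P6_inj i x y e)

theorem P6_pair : ∀ x y : Fin 3, x ≠ y → ∀ x' y' : Fin 3, x' ≠ y' →
    ∃ i : Fin 6, P6 i x = x' ∧ P6 i y = y' := by decide

theorem P6_gg : ∀ zA u0 : Fin 3, u0 ≠ zA → ∀ u1 : Fin 3, u1 ≠ zA → ∀ u2 : Fin 3, u2 ≠ zA →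
    ∀ zB w0 : Fin 3, w0 ≠ zB → ∀ w1 : Fin 3, w1 ≠ zB → ∀ w2 : Fin 3, w2 ≠ zB →
    ∃ i : Fin 6, P6 i zB ≠ zA ∧ P6 i w0 ≠ u0 ∧ P6 i w1 ≠ u1 ∧ P6 i w2 ≠ u2 := by decide

theorem third : ∀ z u : Fin 3, ∃ b : Fin 3, b ≠ z ∧ b ≠ u := by decide

theorem cases3 : ∀ p : Fin 3, p = 0 ∨ p = 1 ∨ p = 2 := by decide

/-- For every colour `p` the inverse image of `p` under a permutation. -/
theorem P6_surj : ∀ (i : Fin 6) (p : Fin 3), ∃ q, P6 i q = p := by decide

variable {V : Type}

theorem sideGood_perm {M : CMap V} {S : Set V} {f : V → Fin 3} {c : Fin 3}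
    (h : M.SideGood S f c) (i : Fin 6) : M.SideGood S (fun v => P6 i (f v)) (P6 i c) := by
  refine ⟨fun d h1 h2 => P6_inj' i (h.1 d h1 h2), fun d h1 h2 => P6_inj' i (h.2.1 d h1 h2), ?_⟩
  intro p C hC hS hc
  obtain ⟨q, rfl⟩ := P6_surj i p
  refine h.2.2 q C hC (fun d hd hne e => hS d hd hne (congrArg (P6 i) e)) (fun e => hc ?_)
  rw [e]

theorem poleGood_perm {M : CMap V} {S : Set V} {f : V → Fin 3}
    (h : M.PoleGood S f) (i : Fin 6) : M.PoleGood S (fun v => P6 i (f v)) := by
  refine ⟨fun d h1 h2 => P6_inj' i (h.1 d h1 h2), ?_⟩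
  intro p C hC hS hc
  obtain ⟨q, rfl⟩ := P6_surj i p
  exact h.2 q C hC (fun d hd hne e => hS d hd hne (congrArg (P6 i) e)) hc

theorem poleGood_of_sideGood {M : CMap V} {S : Set V} {f : V → Fin 3} {c : Fin 3}
    (h : M.SideGood S f c) : M.PoleGood S f :=
  ⟨h.1, fun p C hC hS hc => h.2.2 p C hC hS (fun _ => hc)⟩

/-- Parity on a 3-edge-cut. -/
theorem par [Finite V] (M : CMap V) (S : Set V) (C : Dt V → ZMod 2) (h : M.RCh Sᶜ C)
    (d0 d1 d2 : Dt V) (h01 : d0 ≠ d1) (h02 : d0 ≠ d2) (h12 : d1 ≠ d2)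
    (hs : {d : Dt V | d.1 ∈ S ∧ (M.a d).1 ∉ S} = {d0, d1, d2}) : C d0 + C d1 + C d2 = 0 := by
  classical
  have := Fintype.ofFinite V
  have h1 : ∑ d : Dt V, (if d.1 ∈ S then C d else 0) = 0 := by
    rw [Fintype.sum_prod_type]
    apply Finset.sum_eq_zero
    intro v _
    rw [Fin.sum_univ_three]
    by_cases hv : v ∈ S
    · simp only [hv, if_true]
      exact h.2 v (by simpa using hv)
    · simp [hv]
  have h2 : ∑ d : Dt V, (if d.1 ∈ S ∧ (M.a d).1 ∈ S then C d else 0) = 0 := by
    refine Finset.sum_involution (fun d _ => M.a d) ?_ ?_ ?_ ?_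
    · intro d _
      rw [M.inv]
      by_cases hd : d.1 ∈ S ∧ (M.a d).1 ∈ S
      · rw [if_pos hd, if_pos hd.symm, h.1 d (by simpa using hd.1) (by simpa using hd.2)]
        exact CharTwo.add_self_eq_zero _
      · rw [if_neg hd, if_neg (fun h' => hd h'.symm), add_zero]
    · intro d _ _
      exact M.ne d
    · intro d _
      exact Finset.mem_univ _
    · intro d _
      exact M.inv d
  have h3 : ∑ d : Dt V, (if d.1 ∈ S ∧ (M.a d).1 ∉ S then C d else 0) = 0 := by
    have h4 : ∑ d : Dt V, (if d.1 ∈ S then C d else 0) =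
        ∑ d : Dt V, (if d.1 ∈ S ∧ (M.a d).1 ∈ S then C d else 0) +
        ∑ d : Dt V, (if d.1 ∈ S ∧ (M.a d).1 ∉ S then C d else 0) := by
      rw [← Finset.sum_add_distrib]
      refine Finset.sum_congr rfl (fun d _ => ?_)
      by_cases ha : d.1 ∈ S <;> by_cases hb : (M.a d).1 ∈ S <;> simp [ha, hb]
    rw [h1, h2, zero_add] at h4
    exact h4.symm
  have h5 : ∑ d : Dt V, (if d.1 ∈ S ∧ (M.a d).1 ∉ S then C d else 0) =
      ∑ d ∈ ({d0, d1, d2} : Finset (Dt V)), C d := by
    rw [← Finset.sum_filter]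
    refine Finset.sum_congr ?_ (fun _ _ => rfl)
    ext d
    have := Set.ext_iff.mp hs d
    simpa using this
  rw [h3, Finset.sum_insert (by simp [h01, h02]), Finset.sum_insert (by simpa using h12),
    Finset.sum_singleton] at h5
  rw [add_assoc]
  exact h5.symm

/-- The glued colouring. -/
theorem core (M : CMap V) (S : Set V) (f g : V → Fin 3)
    (hf : ∀ d : Dt V, d.1 ∈ S → (M.a d).1 ∈ S → f (M.a d).1 ≠ f d.1)
    (hg : ∀ d : Dt V, d.1 ∉ S → (M.a d).1 ∉ S → g (M.a d).1 ≠ g d.1)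
    (hcut : ∀ d : Dt V, d.1 ∈ S → (M.a d).1 ∉ S → f d.1 ≠ g (M.a d).1)
    (hvan : ∀ (p : Fin 3) (C : Dt V → ZMod 2), M.Ev C →
      M.RCh Sᶜ C → M.RCh Sᶜᶜ C → Sup Sᶜ f p C → Sup Sᶜᶜ g p C → ∀ d, C d = 0) : M.Col := by
  classical
  refine ⟨fun v => if v ∈ S then f v else g v, ?_, ?_⟩
  · intro d
    by_cases h1 : d.1 ∈ S <;> by_cases h2 : (M.a d).1 ∈ S
    · simp only [h1, h2, if_true]; exact hf d h1 h2
    · simp only [h1, h2, if_true, if_false]; exact (hcut d h1 h2).symm
    · simp only [h1, h2, if_true, if_false]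
      have := hcut (M.a d) h2 (by rwa [M.inv])
      rwa [M.inv] at this
    · simp only [h1, h2, if_false]; exact hg d h1 h2
  · intro p C hC hp
    refine hvan p C hC ⟨fun d _ _ => hC.1 d, fun v _ => hC.2 v⟩
      ⟨fun d _ _ => hC.1 d, fun v _ => hC.2 v⟩ ?_ ?_
    · intro d hd hne
      have h1 : d.1 ∈ S := by simpa using hd
      have := hp d hne
      simpa only [h1, if_true] using this
    · intro d hd hne
      have h1 : d.1 ∉ S := by simpa using hd
      have := hp d hne
      simpa only [h1, if_false] using this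

/-- If `C` vanishes on the cut it vanishes. -/
theorem van_of_cut {M : CMap V} {S : Set V} {f g : V → Fin 3} (hf : M.PoleGood S f)
    (hg : M.PoleGood Sᶜ g) {p : Fin 3} {C : Dt V → ZMod 2} (hE : M.Ev C) (h1 : M.RCh Sᶜ C)
    (h2 : M.RCh Sᶜᶜ C) (h3 : Sup Sᶜ f p C) (h4 : Sup Sᶜᶜ g p C)
    (h0 : ∀ d : Dt V, d.1 ∈ S → (M.a d).1 ∉ S → C d = 0) : ∀ d, C d = 0 := by
  intro d
  by_cases hd : d.1 ∈ S
  · exact hf.2 p C h1 h3 h0 d hd
  · refine hg.2 p C h2 h4 ?_ d hd
    intro e he1 he2
    have he2' : (M.a e).1 ∈ S := by simpa using he2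
    have := h0 (M.a e) he2' (by rw [M.inv]; exact he1)
    rwa [hE.1] at this

/-- If `C` vanishes on one side it vanishes. -/
theorem van_of_side {M : CMap V} {S : Set V} {f g : V → Fin 3} (hf : M.PoleGood S f)
    (hg : M.PoleGood Sᶜ g) {p : Fin 3} {C : Dt V → ZMod 2} (hE : M.Ev C) (h1 : M.RCh Sᶜ C)
    (h2 : M.RCh Sᶜᶜ C) (h3 : Sup Sᶜ f p C) (h4 : Sup Sᶜᶜ g p C)
    (h0 : (∀ d : Dt V, d.1 ∈ S → C d = 0) ∨ ∀ d : Dt V, d.1 ∉ S → C d = 0) : ∀ d, C d = 0 := by
  apply van_of_cut hf hg hE h1 h2 h3 h4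
  intro d hd hd'
  rcases h0 with h0 | h0
  · exact h0 d hd
  · rw [← hE.1]
    exact h0 _ hd'

theorem gg (M : CMap V) (S : Set V) (d0 d1 d2 : Dt V)
    (hs : {d : Dt V | d.1 ∈ S ∧ (M.a d).1 ∉ S} = {d0, d1, d2})
    {f g : V → Fin 3} {zA zB : Fin 3} (hf : M.SideGood S f zA) (hg : M.SideGood Sᶜ g zB) :
    M.Col := by
  have hmem : ∀ d : Dt V, (d.1 ∈ S ∧ (M.a d).1 ∉ S) ↔ (d = d0 ∨ d = d1 ∨ d = d2) := by
    intro d
    have := Set.ext_iff.mp hs d
    simpa using this
  have m0 := (hmem d0).mpr (Or.inl rfl)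
  have m1 := (hmem d1).mpr (Or.inr (Or.inl rfl))
  have m2 := (hmem d2).mpr (Or.inr (Or.inr rfl))
  have hu : ∀ d : Dt V, d.1 ∈ S ∧ (M.a d).1 ∉ S → f d.1 ≠ zA := fun d h => hf.2.1 d h.1 h.2
  have hw : ∀ d : Dt V, d.1 ∈ S ∧ (M.a d).1 ∉ S → g (M.a d).1 ≠ zB := by
    intro d h
    refine hg.2.1 (M.a d) h.2 ?_
    rw [M.inv]
    simpa using h.1
  obtain ⟨i, hz, e0, e1, e2⟩ := P6_gg zA (f d0.1) (hu d0 m0) (f d1.1) (hu d1 m1) (f d2.1)
    (hu d2 m2) zB (g (M.a d0).1) (hw d0 m0) (g (M.a d1).1) (hw d1 m1) (g (M.a d2).1) (hw d2 m2)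
  have hg' := sideGood_perm hg i
  refine core M S f (fun v => P6 i (g v)) hf.1 (fun d h1 h2 => hg'.1 d h1 h2) ?_ ?_
  · intro d h1 h2
    rcases (hmem d).mp ⟨h1, h2⟩ with rfl | rfl | rfl
    · exact e0.symm
    · exact e1.symm
    · exact e2.symm
  · intro p C hE h1 h2 h3 h4
    refine van_of_side (poleGood_of_sideGood hf) (poleGood_of_sideGood hg') hE h1 h2 h3 h4 ?_
    by_cases hp : zA = p
    · right
      have hp' : P6 i zB ≠ p := by rw [← hp]; exact hz
      exact hg'.2.2 p C h2 h4 (fun e => absurd e hp')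
    · left
      exact hf.2.2 p C h1 h3 (fun e => absurd e hp)

/-- One usable cut edge for every colour. -/
theorem gu (M : CMap V) [Finite V] (S : Set V) (l o t : Dt V) (hlo : l ≠ o) (hlt : l ≠ t)
    (hot : o ≠ t) (hs : {d : Dt V | d.1 ∈ S ∧ (M.a d).1 ∉ S} = {l, o, t})
    {f g : V → Fin 3} {z x y : Fin 3} (hf : M.SideGood S f z) (hg : M.PoleGood Sᶜ g)
    (hxy : x ≠ y) (hl : g (M.a l).1 = y) (ho : g (M.a o).1 = x) (ht : g (M.a t).1 = x) :
    M.Col := by
  have hmem : ∀ d : Dt V, (d.1 ∈ S ∧ (M.a d).1 ∉ S) ↔ (d = l ∨ d = o ∨ d = t) := by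
    intro d
    have := Set.ext_iff.mp hs d
    simpa using this
  have hu : ∀ d : Dt V, d.1 ∈ S ∧ (M.a d).1 ∉ S → f d.1 ≠ z := fun d h => hf.2.1 d h.1 h.2
  have ml := (hmem l).mpr (Or.inl rfl)
  have mo := (hmem o).mpr (Or.inr (Or.inl rfl))
  have mt := (hmem t).mpr (Or.inr (Or.inr rfl))
  obtain ⟨b, hbz, hbu⟩ := third z (f l.1)
  obtain ⟨i, hix, hiy⟩ := P6_pair x y hxy z b hbz.symm
  have hg' := poleGood_perm hg i
  refine core M S f (fun v => P6 i (g v)) hf.1 (fun d h1 h2 => hg'.1 d h1 h2) ?_ ?_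
  · intro d h1 h2
    rcases (hmem d).mp ⟨h1, h2⟩ with rfl | rfl | rfl
    · rw [hl, hiy]; exact hbu.symm
    · rw [ho, hix]; exact hu _ ⟨h1, h2⟩
    · rw [ht, hix]; exact hu _ ⟨h1, h2⟩
  · intro p C hE h1 h2 h3 h4
    by_cases hp : z = p
    · refine van_of_cut (poleGood_of_sideGood hf) hg' hE h1 h2 h3 h4 ?_
      have key : ∀ d : Dt V, d.1 ∈ S ∧ (M.a d).1 ∉ S → g (M.a d).1 = x → C d = 0 := by
        intro d hd hgx
        by_contra hne
        have hne' : C (M.a d) ≠ 0 := by rwa [hE.1]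
        refine h4 (M.a d) (by simpa using hd.2) hne' ?_
        change P6 i (g (M.a d).1) = p
        rw [hgx, hix, hp]
      have ko := key o mo ho
      have kt := key t mt ht
      have hsum := par M S C h1 l o t hlo hlt hot hs
      rw [ko, kt, add_zero, add_zero] at hsum
      intro d hd1 hd2
      rcases (hmem d).mp ⟨hd1, hd2⟩ with rfl | rfl | rfl
      · exact hsum
      · exact ko
      · exact kt
    · refine van_of_side (poleGood_of_sideGood hf) hg' hE h1 h2 h3 h4 (Or.inl ?_)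
      exact hf.2.2 p C h1 h3 (fun e => absurd e hp)

theorem uu (M : CMap V) [Finite V] (S : Set V) (l o t : Dt V) (hlo : l ≠ o) (hlt : l ≠ t)
    (hot : o ≠ t) (hs : {d : Dt V | d.1 ∈ S ∧ (M.a d).1 ∉ S} = {l, o, t})
    {f g : V → Fin 3} {x y x' y' : Fin 3} (hf : M.PoleGood S f) (hg : M.PoleGood Sᶜ g)
    (hxy : x ≠ y) (hl : f l.1 = y) (ho : f o.1 = x) (ht : f t.1 = x)
    (hxy' : x' ≠ y') (hl' : g (M.a l).1 = x') (ho' : g (M.a o).1 = y')
    (ht' : g (M.a t).1 = x') : M.Col := by
  have hmem : ∀ d : Dt V, (d.1 ∈ S ∧ (M.a d).1 ∉ S) ↔ (d = l ∨ d = o ∨ d = t) := by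
    intro d
    have := Set.ext_iff.mp hs d
    simpa using this
  have ml := (hmem l).mpr (Or.inl rfl)
  have mo := (hmem o).mpr (Or.inr (Or.inl rfl))
  have mt := (hmem t).mpr (Or.inr (Or.inr rfl))
  obtain ⟨i, hix, hiy⟩ := P6_pair x y hxy 0 1 (by decide)
  obtain ⟨j, hjx, hjy⟩ := P6_pair x' y' hxy' 2 1 (by decide)
  have hf' := poleGood_perm hf i
  have hg' := poleGood_perm hg j
  refine core M S (fun v => P6 i (f v)) (fun v => P6 j (g v)) hf'.1
    (fun d h1 h2 => hg'.1 d h1 h2) ?_ ?_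
  · intro d h1 h2
    rcases (hmem d).mp ⟨h1, h2⟩ with rfl | rfl | rfl
    · rw [hl, hiy, hl', hjx]; decide
    · rw [ho, hix, ho', hjy]; decide
    · rw [ht, hix, ht', hjx]; decide
  · intro p C hE h1 h2 h3 h4
    refine van_of_cut hf' hg' hE h1 h2 h3 h4 ?_
    have keyf : ∀ d : Dt V, d.1 ∈ S ∧ (M.a d).1 ∉ S → P6 i (f d.1) = p → C d = 0 := by
      intro d hd hgx
      by_contra hne
      exact h3 d (by simpa using hd.1) hne hgx
    have keyg : ∀ d : Dt V, d.1 ∈ S ∧ (M.a d).1 ∉ S → P6 j (g (M.a d).1) = p → C d = 0 := by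
      intro d hd hgx
      by_contra hne
      have hne' : C (M.a d) ≠ 0 := by rwa [hE.1]
      exact h4 (M.a d) (by simpa using hd.2) hne' hgx
    have hsum := par M S C h1 l o t hlo hlt hot hs
    have hall : C l = 0 ∧ C o = 0 ∧ C t = 0 := by
      rcases cases3 p with rfl | rfl | rfl
      · have ko := keyf o mo (by rw [ho, hix])
        have kt := keyf t mt (by rw [ht, hix])
        rw [ko, kt, add_zero, add_zero] at hsum
        exact ⟨hsum, ko, kt⟩
      · have kl := keyf l ml (by rw [hl, hiy])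
        have ko := keyg o mo (by rw [ho', hjy])
        rw [kl, ko, zero_add, zero_add] at hsum
        exact ⟨kl, ko, hsum⟩
      · have kl := keyg l ml (by rw [hl', hjx])
        have kt := keyg t mt (by rw [ht', hjx])
        rw [kl, kt, add_zero, zero_add] at hsum
        exact ⟨kl, hsum, kt⟩
    intro d hd1 hd2
    rcases (hmem d).mp ⟨hd1, hd2⟩ with rfl | rfl | rfl
    · exact hall.1
    · exact hall.2.1
    · exact hall.2.2

/-- Choose the enumeration of a three-element set starting with two given elements. -/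
theorem reorder {α : Type} {s : Set α} (hs : s.ncard = 3) {l : α} (hl : l ∈ s) :
    ∃ o t, l ≠ o ∧ l ≠ t ∧ o ≠ t ∧ s = {l, o, t} := by
  obtain ⟨x, y, z, hxy, hxz, hyz, rfl⟩ := Set.ncard_eq_three.mp hs
  simp only [Set.mem_insert_iff, Set.mem_singleton_iff] at hl
  rcases hl with rfl | rfl | rfl
  · exact ⟨y, z, hxy, hxz, hyz, rfl⟩
  · refine ⟨x, z, hxy.symm, hyz, hxz, ?_⟩
    ext w; simp only [Set.mem_insert_iff, Set.mem_singleton_iff]; tauto
  · refine ⟨x, y, hxz.symm, hyz.symm, hxy, ?_⟩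
    ext w; simp only [Set.mem_insert_iff, Set.mem_singleton_iff]; tauto

theorem reorder2 {α : Type} {s : Set α} (hs : s.ncard = 3) {l o : α} (hl : l ∈ s) (ho : o ∈ s)
    (hlo : l ≠ o) : ∃ t, l ≠ t ∧ o ≠ t ∧ s = {l, o, t} := by
  obtain ⟨o', t', h1, h2, h3, rfl⟩ := reorder hs hl
  simp only [Set.mem_insert_iff, Set.mem_singleton_iff] at ho
  rcases ho with rfl | rfl | rfl
  · exact absurd rfl hlo
  · exact ⟨t', h2, h3, rfl⟩
  · refine ⟨o', h1, h3.symm, ?_⟩
    ext w; simp only [Set.mem_insert_iff, Set.mem_singleton_iff]; tauto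

end Merge

open Merge CMap in
/-- MERGE. -/
theorem specMerge : SpecMerge := by
  intro V _ M S hS
  have hS' : {d : Dt V | d.1 ∈ S ∧ (M.a d).1 ∉ S}.ncard = 3 := hS
  refine ⟨?_, ?_, ?_⟩
  · rintro ⟨f, zA, hf⟩ ⟨g, zB, hg⟩
    obtain ⟨d0, d1, d2, _, _, _, hs⟩ := Set.ncard_eq_three.mp hS'
    exact gg M S d0 d1 d2 hs hf hg
  · rintro ⟨f, z, hf⟩ ⟨e1, e2, he, hU⟩
    obtain ⟨m1, m2, g, x, y, hg, hxy, hy, hx⟩ := hU e1 (Or.inl rfl)
    have hl : M.a e1 ∈ {d : Dt V | d.1 ∈ S ∧ (M.a d).1 ∉ S} := by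
      refine ⟨by simpa using m2, ?_⟩
      rw [M.inv]; exact m1
    obtain ⟨o, t, hlo, hlt, hot, hs⟩ := reorder hS' hl
    have mo : o ∈ {d : Dt V | d.1 ∈ S ∧ (M.a d).1 ∉ S} := by rw [hs]; simp
    have mt : t ∈ {d : Dt V | d.1 ∈ S ∧ (M.a d).1 ∉ S} := by rw [hs]; simp
    refine gu M S (M.a e1) o t hlo hlt hot hs hf hg hxy ?_ ?_ ?_
    · rw [M.inv]; exact hy
    · refine hx (M.a o) ?_ mo.2 ?_
      · rintro rfl; exact hlo (M.inv o)
      · rw [M.inv]; simpa using mo.1
    · refine hx (M.a t) ?_ mt.2 ?_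
      · rintro rfl; exact hlt (M.inv t)
      · rw [M.inv]; simpa using mt.1
  · rintro ⟨l1, l2, hl12, hU⟩ ⟨e1, e2, he, hU'⟩
    obtain ⟨n1, n2, f, x, y, hf, hxy, hy, hx⟩ := hU l1 (Or.inl rfl)
    obtain ⟨e, hee, hne⟩ : ∃ e, (e = e1 ∨ e = e2) ∧ M.a e ≠ l1 := by
      by_cases h : M.a e1 = l1
      · refine ⟨e2, Or.inr rfl, fun h' => he ?_⟩
        rw [← M.inv e1, h, ← h', M.inv]
      · exact ⟨e1, Or.inl rfl, h⟩
    obtain ⟨m1, m2, g, x', y', hg, hxy', hy', hx'⟩ := hU' e hee
    have hl : l1 ∈ {d : Dt V | d.1 ∈ S ∧ (M.a d).1 ∉ S} := ⟨n1, n2⟩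
    have ho : M.a e ∈ {d : Dt V | d.1 ∈ S ∧ (M.a d).1 ∉ S} := by
      refine ⟨by simpa using m2, ?_⟩
      rw [M.inv]; exact m1
    obtain ⟨t, hlt, hot, hs⟩ := reorder2 hS' hl ho hne.symm
    have mt : t ∈ {d : Dt V | d.1 ∈ S ∧ (M.a d).1 ∉ S} := by rw [hs]; simp
    refine uu M S l1 (M.a e) t hne.symm hlt hot hs hf hg hxy hy
      (hx _ hne ho.1 ho.2) (hx _ hlt.symm mt.1 mt.2) hxy' ?_ ?_ ?_
    · refine hx' (M.a l1) ?_ n2 ?_
      · intro h; apply hne; rw [← h, M.inv]
      · rw [M.inv]; simpa using n1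
    · rw [M.inv]; exact hy'
    · refine hx' (M.a t) ?_ mt.2 ?_
      · intro h; apply hot; rw [← h, M.inv]
      · rw [M.inv]; simpa using mt.1

end Acyc75
end

section
/-!
# MP_1e9f59_co : module PENT-EXT

Colourings extend in the pentagon reduction (the second face is a pentagon or a hexagon).
-/
set_option autoImplicit false

namespace Acyc75

open CMap

namespace PentExt

variable {V : Type} {M : CMap V}

/-- Extension of a colouring by zero. -/
noncomputable def extP {Q : V → Prop} (f' : {v // Q v} → Fin 3) : V → Fin 3 := by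
  classical
  exact fun v => if h : Q v then f' ⟨v, h⟩ else 0

theorem extP_eq {Q : V → Prop} (f' : {v // Q v} → Fin 3) (v : V) (h : Q v) :
    extP f' v = f' ⟨v, h⟩ := by
  unfold extP
  simp only [dif_pos h]

/-- The chain of the reduced map belonging to a chain outside the pentagon. -/
noncomputable def chP (E : M.Emb Tp) (C : Dt V → ZMod 2) :
    Dt {v // v ∉ Set.range E.x ∨ v = E.x 3} → ZMod 2 := by
  classical
  exact fun d => if d.1.1 = E.x 3 then
    (![C (E.b 4), C (E.b 3), C (E.b 2)] : Fin 3 → ZMod 2) (d.2 - E.pos 3) else C (d.1.1, d.2)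

theorem chP_out (E : M.Emb Tp) (C : Dt V → ZMod 2) (v : V)
    (hv : v ∉ Set.range E.x) (hv' : v ∉ Set.range E.x ∨ v = E.x 3) (i : Fin 3) :
    chP E C (⟨v, hv'⟩, i) = C (v, i) := by
  have h : v ≠ E.x 3 := fun h => hv ⟨3, h.symm⟩
  unfold chP
  simp only [if_neg h]

theorem chP_in (E : M.Emb Tp) (C : Dt V → ZMod 2) (v : V) (h : v = E.x 3)
    (hv' : v ∉ Set.range E.x ∨ v = E.x 3) (i : Fin 3) :
    chP E C (⟨v, hv'⟩, i) =
      (![C (E.b 4), C (E.b 3), C (E.b 2)] : Fin 3 → ZMod 2) (i - E.pos 3) := by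
  unfold chP
  simp only [if_pos h]

theorem sum3 (a b c : ZMod 2) (h : a + b + c = 0) (s : Fin 3) :
    (![a, b, c] : Fin 3 → ZMod 2) (0 - s) + (![a, b, c] : Fin 3 → ZMod 2) (1 - s) +
      (![a, b, c] : Fin 3 → ZMod 2) (2 - s) = 0 := by
  revert a b c s
  decide

theorem evP {E : M.Emb Tp} {M' : CMap {v // v ∉ Set.range E.x ∨ v = E.x 3}}
    (hB : M.Bdry (Set.range E.x) E.b) (hI : M.IsPent E M') (C : Dt V → ZMod 2)
    (hC : M.RCh (Set.range E.x) C) (h01 : C (E.b 0) = C (E.b 1))
    (hsum : C (E.b 4) + C (E.b 3) + C (E.b 2) = 0) : M'.Ev (chP E C) := by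
  have key : ∀ (v : V) (hv : v ∉ Set.range E.x) (i : Fin 3) (j : Fin 5), E.b j = (v, i) →
      chP E C (M'.a (⟨v, Or.inl hv⟩, i)) = C (v, i) := by
    intro v hv i j hj
    have h3 : (E.b j).1 = v := by rw [hj]
    have h4 : (E.b j).2 = i := by rw [hj]
    subst h3
    subst h4
    have hout := fun l (i : Fin 3) => chP_out E C (E.b l).1 (E.out l) (Or.inl (E.out l)) i
    have hin := fun i : Fin 3 => chP_in E C (E.x 3) rfl (Or.inr rfl) i
    fin_cases j
    · refine (congrArg _ hI.b01).trans ?_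
      exact (hout 1 _).trans h01.symm
    · have h5 := congrArg M'.a hI.b01
      rw [M'.inv] at h5
      refine (congrArg _ h5.symm).trans ?_
      exact (hout 0 _).trans h01
    · refine (congrArg _ hI.b2).trans ?_
      rw [hin, add_sub_cancel_left]
      rfl
    · refine (congrArg _ hI.b3).trans ?_
      rw [hin, add_sub_cancel_left]
      rfl
    · refine (congrArg _ hI.b4).trans ?_
      rw [hin, sub_self]
      rfl
  refine ⟨?_, ?_⟩
  · rintro ⟨⟨v, hv⟩, i⟩
    by_cases h3 : v = E.x 3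
    · subst h3
      rw [chP_in E C (E.x 3) rfl]
      have hout := fun l (i : Fin 3) => chP_out E C (E.b l).1 (E.out l) (Or.inl (E.out l)) i
      have h2 := congrArg M'.a hI.b2
      have h3 := congrArg M'.a hI.b3
      have h4 := congrArg M'.a hI.b4
      rw [M'.inv] at h2 h3 h4
      obtain ⟨t, ht⟩ : ∃ t, i = E.pos 3 + t := ⟨i - E.pos 3, (add_sub_cancel _ _).symm⟩
      subst ht
      rw [add_sub_cancel_left]
      fin_cases t
      · refine Eq.trans (congrArg _ (Eq.trans ?_ h4.symm)) (hout 4 _)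
        simp
      · exact Eq.trans (congrArg _ h3.symm) (hout 3 _)
      · exact Eq.trans (congrArg _ h2.symm) (hout 2 _)
    · have hv1 : v ∉ Set.range E.x := hv.resolve_right h3
      rw [chP_out E C v hv1]
      by_cases hw : (M.a (v, i)).1 ∈ Set.range E.x
      · obtain ⟨j, hj⟩ := (hB.2 (v, i)).1 ⟨hv1, hw⟩
        exact key v hv1 i j hj
      · have h1 := hI.int v (M.a (v, i)).1 hv1 hw i (M.a (v, i)).2 rfl
        rw [h1, chP_out E C _ hw]
        exact hC.1 (v, i) hv1 hw
  · rintro ⟨v, hv⟩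
    by_cases h3 : v = E.x 3
    · subst h3
      rw [chP_in E C (E.x 3) rfl, chP_in E C (E.x 3) rfl, chP_in E C (E.x 3) rfl]
      exact sum3 _ _ _ hsum _
    · have hv1 : v ∉ Set.range E.x := hv.resolve_right h3
      rw [chP_out E C v hv1, chP_out E C v hv1, chP_out E C v hv1]
      exact hC.2 v hv1

/-- A chain outside the pentagon which extends to the reduced map and avoids a colour vanishes. -/
theorem zeroP {E : M.Emb Tp} {M' : CMap {v // v ∉ Set.range E.x ∨ v = E.x 3}}
    (hB : M.Bdry (Set.range E.x) E.b) (hI : M.IsPent E M')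
    {f' : {v // v ∉ Set.range E.x ∨ v = E.x 3} → Fin 3} (hf' : M'.Good f') (p : Fin 3)
    (C : Dt V → ZMod 2) (hC : M.RCh (Set.range E.x) C)
    (hS : Sup (Set.range E.x) (extP f') p C) (h01 : C (E.b 0) = C (E.b 1))
    (hsum : C (E.b 4) + C (E.b 3) + C (E.b 2) = 0)
    (hz : C (E.b 4) ≠ 0 ∨ C (E.b 3) ≠ 0 ∨ C (E.b 2) ≠ 0 → extP f' (E.x 3) ≠ p) (d : Dt V)
    (hd : d.1 ∉ Set.range E.x) : C d = 0 := by
  have h := hf'.2 p (chP E C) (evP hB hI C hC h01 hsum) (by
    rintro ⟨⟨v, hv⟩, i⟩ h0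
    by_cases h3 : v = E.x 3
    · subst h3
      rw [chP_in E C (E.x 3) rfl] at h0
      have h5 : C (E.b 4) ≠ 0 ∨ C (E.b 3) ≠ 0 ∨ C (E.b 2) ≠ 0 := by
        by_contra hcon
        push Not at hcon
        rw [hcon.1, hcon.2.1, hcon.2.2] at h0
        apply h0
        generalize i - E.pos 3 = s
        fin_cases s <;> rfl
      have h6 := hz h5
      rwa [extP_eq f' (E.x 3) (Or.inr rfl)] at h6
    · have hv1 : v ∉ Set.range E.x := hv.resolve_right h3
      rw [chP_out E C v hv1] at h0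
      have h1 := hS (v, i) hv1 h0
      rwa [extP_eq f' v (Or.inl hv1)] at h1) (⟨d.1, Or.inl hd⟩, d.2)
  rw [chP_out E C d.1 hd] at h
  exact h

/-- The colouring is proper outside the pentagon. -/
theorem properP {E : M.Emb Tp} {M' : CMap {v // v ∉ Set.range E.x ∨ v = E.x 3}}
    (hI : M.IsPent E M')
    {f' : {v // v ∉ Set.range E.x ∨ v = E.x 3} → Fin 3} (hf' : M'.Good f') (d : Dt V)
    (hd : d.1 ∉ Set.range E.x) (hd' : (M.a d).1 ∉ Set.range E.x) :
    extP f' (M.a d).1 ≠ extP f' d.1 := by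
  rw [extP_eq f' _ (Or.inl hd), extP_eq f' _ (Or.inl hd')]
  have h := hf'.1 (⟨d.1, Or.inl hd⟩, d.2)
  rw [hI.int d.1 (M.a d).1 hd hd' d.2 (M.a d).2 rfl] at h
  exact h

theorem ne01 {E : M.Emb Tp} {M' : CMap {v // v ∉ Set.range E.x ∨ v = E.x 3}}
    (hI : M.IsPent E M')
    {f' : {v // v ∉ Set.range E.x ∨ v = E.x 3} → Fin 3} (hf' : M'.Good f') :
    extP f' (E.b 0).1 ≠ extP f' (E.b 1).1 := by
  rw [extP_eq f' _ (Or.inl (E.out 0)), extP_eq f' _ (Or.inl (E.out 1))]
  have h := hf'.1 (⟨(E.b 0).1, Or.inl (E.out 0)⟩, (E.b 0).2)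
  rw [hI.b01] at h
  exact h.symm

theorem nez {E : M.Emb Tp} {M' : CMap {v // v ∉ Set.range E.x ∨ v = E.x 3}}
    (hI : M.IsPent E M')
    {f' : {v // v ∉ Set.range E.x ∨ v = E.x 3} → Fin 3} (hf' : M'.Good f') :
    extP f' (E.x 3) ≠ extP f' (E.b 4).1 ∧ extP f' (E.x 3) ≠ extP f' (E.b 3).1 ∧
      extP f' (E.x 3) ≠ extP f' (E.b 2).1 := by
  rw [extP_eq f' _ (Or.inl (E.out 4)), extP_eq f' _ (Or.inl (E.out 3)),
    extP_eq f' _ (Or.inl (E.out 2)), extP_eq f' (E.x 3) (Or.inr rfl)]
  have h4 := hf'.1 (⟨(E.b 4).1, Or.inl (E.out 4)⟩, (E.b 4).2)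
  have h3 := hf'.1 (⟨(E.b 3).1, Or.inl (E.out 3)⟩, (E.b 3).2)
  have h2 := hf'.1 (⟨(E.b 2).1, Or.inl (E.out 2)⟩, (E.b 2).2)
  rw [hI.b4] at h4
  rw [hI.b3] at h3
  rw [hI.b2] at h2
  exact ⟨h4, h3, h2⟩

/-- The first step: the pentagon itself. -/
theorem step1 [Finite V] (hGlue : SpecGlue) (hFin : FinPent)
    {E : M.Emb Tp} {M' : CMap {v // v ∉ Set.range E.x ∨ v = E.x 3}}
    (hB : M.Bdry (Set.range E.x) E.b) (hT : SurT Tp) (hI : M.IsPent E M')
    {f' : {v // v ∉ Set.range E.x ∨ v = E.x 3} → Fin 3} (hf' : M'.Good f')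
    (L : Fin 3 → Fin 5 → Fin 5)
    (hL : ∀ p J, M.E (Set.range E.x) E.b (extP f') p J ↔
      EL (fun i => extP f' (E.b i).1) L p J) :
    M.Col ∨ BadA (fun i => extP f' (E.b i).1) (extP f' (E.x 3))
        (EL (fun i => extP f' (E.b i).1) L) ∨
      BadB (fun i => extP f' (E.b i).1) (extP f' (E.x 3))
        (EL (fun i => extP f' (E.b i).1) L) := by
  have hz := nez hI hf'
  have hFA : FA Tz (fun J => J 0 = J 1) (fun i => extP f' (E.b i).1) L
      (fun _ => extP f' (E.x 3)) := by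
    refine ⟨?_, ?_⟩
    · intro i t
      fin_cases i
      fin_cases t
      · exact hz.1
      · exact hz.2.1
      · exact hz.2.2
    · intro p e J he hes hep hK hEL
      have e0 : e 0 0 = J 4 := he 0 0
      have e1 : e 0 1 = J 3 := he 0 1
      have e2 : e 0 2 = J 2 := he 0 2
      obtain ⟨C, hC, hS, hJ⟩ := (hL p J).2 hEL
      have hsum := hes 0
      rw [e0, e1, e2] at hsum
      have hzero : ∀ j, J j = 0 := by
        intro j
        rw [← hJ j]
        refine zeroP hB hI hf' p C hC hS (by rw [hJ, hJ]; exact hK)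
          (by rw [hJ, hJ, hJ]; exact hsum) ?_ (E.b j) (E.out j)
        rw [hJ, hJ, hJ, ← e0, ← e1, ← e2]
        rintro (h | h | h)
        · exact hep 0 0 h
        · exact hep 0 1 h
        · exact hep 0 2 h
      refine ⟨hzero, ?_⟩
      intro i t
      fin_cases i
      fin_cases t
      · exact e0.trans (hzero _)
      · exact e1.trans (hzero _)
      · exact e2.trans (hzero _)
  rcases hFin (fun i => extP f' (E.b i).1) L (fun _ => extP f' (E.x 3)) (ne01 hI hf') hFA with
    ⟨g, hg⟩ | h | h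
  · left
    refine hGlue V M 5 5 Tp hT E (extP f') g L ?_ ?_ ?_ hg
    · exact fun d hd hd' => properP hI hf' d hd hd'
    · exact fun p J h => (hL p J).1 h
    · intro p C hC hS h0 d hd
      refine zeroP hB hI hf' p C hC hS (by rw [h0, h0]) (by rw [h0, h0, h0]; rfl) ?_ d hd
      rw [h0, h0, h0]
      simp
  · exact Or.inr (Or.inl h)
  · exact Or.inr (Or.inr h)

theorem BadA.mono {c : Fin 5 → Fin 3} {z : Fin 3} {F G : Fin 3 → (Fin 5 → ZMod 2) → Prop}
    (h : ∀ p J, F p J → G p J) (hA : BadA c z F) : BadA c z G := by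
  obtain ⟨a, b, h1, h2, h3, h4, h5, h6, h7, h8, h9, h10, h11⟩ := hA
  exact ⟨a, b, h1, h2, h3, h4, h5, h6, h7, h8, h _ _ h9, h _ _ h10, h _ _ h11⟩

theorem BadB.mono {c : Fin 5 → Fin 3} {z : Fin 3} {F G : Fin 3 → (Fin 5 → ZMod 2) → Prop}
    (h : ∀ p J, F p J → G p J) (hB : BadB c z F) : BadB c z G := by
  obtain ⟨a, b, h1, h2, h3, h4, h5, h6, h7, h8, h9, h10, h11⟩ := hB
  exact ⟨a, b, h1, h2, h3, h4, h5, h6, h7, h8, h _ _ h9, h _ _ h10, h _ _ h11⟩

/-- Extension of a chain outside a configuration by values on some of its vertices. -/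
noncomputable def glueC {m k : ℕ} {T : Tab m k} (E : M.Emb T) (e : Fin m → Fin 3 → ZMod 2)
    (C : Dt V → ZMod 2) : Dt V → ZMod 2 := by
  classical
  exact fun d => if h : ∃ i, E.x i = d.1 then e h.choose (d.2 - E.pos h.choose) else C d

theorem glueC_out {m k : ℕ} {T : Tab m k} (E : M.Emb T) (e : Fin m → Fin 3 → ZMod 2)
    (C : Dt V → ZMod 2) (d : Dt V) (hd : d.1 ∉ Set.range E.x) : glueC E e C d = C d := by
  have h : ¬ ∃ i, E.x i = d.1 := hd
  unfold glueC
  simp only [dif_neg h]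

theorem glueC_in {m k : ℕ} {T : Tab m k} (E : M.Emb T) (e : Fin m → Fin 3 → ZMod 2)
    (C : Dt V → ZMod 2) (i : Fin m) (s : Fin 3) :
    glueC E e C (E.x i, s) = e i (s - E.pos i) := by
  have h : ∃ j, E.x j = (E.x i, s).1 := ⟨i, rfl⟩
  unfold glueC
  simp only [dif_pos h]
  have h2 : h.choose = i := E.inj h.choose_spec
  rw [h2]

theorem glueC_rch {m k : ℕ} {T : Tab m k} (E : M.Emb T) (P : Fin m → Prop)
    (X5 : Set V) (hX5 : ∀ v, v ∈ X5 ↔ ∃ i, ¬ P i ∧ E.x i = v) (e : Fin m → Fin 3 → ZMod 2)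
    (C : Dt V → ZMod 2) (hC : M.RCh (Set.range E.x) C)
    (he1 : ∀ i t j, P i → T i t = Sum.inr j → e i t = C (E.b j))
    (he2 : ∀ i t q, P i → T i t = Sum.inl q → P q.1 → e i t = e q.1 q.2)
    (hes : ∀ i, P i → e i 0 + e i 1 + e i 2 = 0) : M.RCh X5 (glueC E e C) := by
  have hsub : ∀ v, v ∉ Set.range E.x → v ∉ X5 := by
    intro v hv h
    obtain ⟨i, _, hi⟩ := (hX5 v).1 h
    exact hv ⟨i, hi⟩
  have hP : ∀ i, E.x i ∉ X5 → P i := by
    intro i hi
    by_contra h
    exact hi ((hX5 _).2 ⟨i, h, rfl⟩)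
  have key : ∀ i t, P i → (M.a (E.x i, E.pos i + t)).1 ∉ X5 →
      glueC E e C (M.a (E.x i, E.pos i + t)) = e i t := by
    intro i t hi ht
    have h1 := E.tgt i t
    cases hT : T i t with
    | inl q =>
      rw [hT] at h1
      rw [h1] at ht ⊢
      have h2 := hP q.1 ht
      rw [he2 i t q hi hT h2]
      refine (glueC_in E e C q.1 (E.pos q.1 + q.2)).trans ?_
      rw [add_sub_cancel_left]
    | inr j =>
      rw [hT] at h1
      rw [h1, he1 i t j hi hT]
      exact glueC_out E e C (E.b j) (E.out j)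
  refine ⟨?_, ?_⟩
  · rintro ⟨v, s⟩ hd hd'
    by_cases hv : v ∈ Set.range E.x
    · obtain ⟨i, rfl⟩ := hv
      obtain ⟨t, rfl⟩ : ∃ t, s = E.pos i + t := ⟨s - E.pos i, (add_sub_cancel _ _).symm⟩
      rw [key i t (hP i hd) hd', glueC_in, add_sub_cancel_left]
    · by_cases hw : (M.a (v, s)).1 ∈ Set.range E.x
      · obtain ⟨i, hi⟩ := hw
        obtain ⟨t, ht⟩ : ∃ t, (M.a (v, s)).2 = E.pos i + t := ⟨(M.a (v, s)).2 - E.pos i, (add_sub_cancel _ _).symm⟩
        have h1 : M.a (v, s) = (E.x i, E.pos i + t) := by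
          rw [hi, ← ht]
        have h2 : M.a (E.x i, E.pos i + t) = (v, s) := by
          rw [← h1, M.inv]
        have h3 : P i := by
          apply hP
          rw [hi]
          exact hd'
        have h4 := key i t h3 (by rw [h2]; exact hd)
        rw [h1, glueC_in, add_sub_cancel_left, ← h4, h2]
      · rw [glueC_out E e C _ hw, glueC_out E e C _ hv]
        exact hC.1 (v, s) hv hw
  · intro v hd
    by_cases hv : v ∈ Set.range E.x
    · obtain ⟨i, rfl⟩ := hv
      rw [glueC_in, glueC_in, glueC_in]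
      have h1 := hes i (hP i hd)
      have h2 : ∀ (u : Fin 3 → ZMod 2) (s : Fin 3), u 0 + u 1 + u 2 = 0 →
          u (0 - s) + u (1 - s) + u (2 - s) = 0 := by
        intro u s hu
        have h3 := sum3 (u 0) (u 1) (u 2) hu s
        have h4 : (![u 0, u 1, u 2] : Fin 3 → ZMod 2) = u := by
          funext i
          fin_cases i <;> rfl
        rwa [h4] at h3
      exact h2 (e i) (E.pos i) h1
    · rw [glueC_out E e C _ hv, glueC_out E e C _ hv, glueC_out E e C _ hv]
      exact hC.2 v hv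

/-- Restriction of a chain outside the pentagon: values along the configuration. -/
theorem restr_inr {m k : ℕ} {T : Tab m k} (E : M.Emb T) (X5 : Set V)
    (hX5 : ∀ v, v ∉ Set.range E.x → v ∉ X5) (C : Dt V → ZMod 2) (hC : M.RCh X5 C) (i : Fin m)
    (t : Fin 3) (j : Fin k) (hT : T i t = Sum.inr j) (hi : E.x i ∉ X5) :
    C (E.x i, E.pos i + t) = C (E.b j) := by
  have h1 := E.tgt i t
  rw [hT] at h1
  have h2 := hC.1 (E.x i, E.pos i + t) hi (by rw [h1]; exact hX5 _ (E.out j))
  rw [← h2, h1]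
  rfl

theorem restr_inl {m k : ℕ} {T : Tab m k} (E : M.Emb T) (X5 : Set V)
    (C : Dt V → ZMod 2) (hC : M.RCh X5 C) (i : Fin m)
    (t : Fin 3) (q : Fin m × Fin 3) (hT : T i t = Sum.inl q) (hi : E.x i ∉ X5)
    (hq : E.x q.1 ∉ X5) :
    C (E.x i, E.pos i + t) = C (E.x q.1, E.pos q.1 + q.2) := by
  have h1 := E.tgt i t
  rw [hT] at h1
  have h2 := hC.1 (E.x i, E.pos i + t) hi (by rw [h1]; exact hq)
  rw [← h2, h1]
  rfl

/-- The vertex sum, shifted. -/
theorem vsum (u : Fin 3 → ZMod 2) (s : Fin 3) (hu : u 0 + u 1 + u 2 = 0) :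
    u (s + 0) + u (s + 1) + u (s + 2) = 0 := by
  have h3 : ∀ (a b c : ZMod 2), a + b + c = 0 → ∀ s : Fin 3,
      (![a, b, c] : Fin 3 → ZMod 2) (s + 0) + (![a, b, c] : Fin 3 → ZMod 2) (s + 1) +
        (![a, b, c] : Fin 3 → ZMod 2) (s + 2) = 0 := by decide
  have h4 : (![u 0, u 1, u 2] : Fin 3 → ZMod 2) = u := by
    funext i
    fin_cases i <;> rfl
  have h5 := h3 (u 0) (u 1) (u 2) hu s
  rwa [h4] at h5

/-- The chain glued from a chain outside the configuration and from values on its outer vertices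
vanishes. -/
theorem glue_zero {m k : ℕ} {T : Tab m k} (E : M.Emb T) (E5 : M.Emb Tp) (P : Fin m → Prop)
    (hX5 : ∀ v, v ∈ Set.range E5.x ↔ ∃ i, ¬ P i ∧ E.x i = v)
    {M' : CMap {v // v ∉ Set.range E5.x ∨ v = E5.x 3}}
    (hB : M.Bdry (Set.range E5.x) E5.b) (hI : M.IsPent E5 M')
    {f' : {v // v ∉ Set.range E5.x ∨ v = E5.x 3} → Fin 3} (hf' : M'.Good f') (p : Fin 3)
    (e : Fin m → Fin 3 → ZMod 2)
    (C : Dt V → ZMod 2) (hC : M.RCh (Set.range E.x) C)
    (he1 : ∀ i t j, P i → T i t = Sum.inr j → e i t = C (E.b j))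
    (he2 : ∀ i t q, P i → T i t = Sum.inl q → P q.1 → e i t = e q.1 q.2)
    (hes : ∀ i, P i → e i 0 + e i 1 + e i 2 = 0)
    (hS : Sup (Set.range E.x) (extP f') p C)
    (heS : ∀ i t, P i → e i t ≠ 0 → extP f' (E.x i) ≠ p)
    (h01 : glueC E e C (E5.b 0) = glueC E e C (E5.b 1))
    (hsum : glueC E e C (E5.b 4) + glueC E e C (E5.b 3) + glueC E e C (E5.b 2) = 0)
    (hz : glueC E e C (E5.b 4) ≠ 0 ∨ glueC E e C (E5.b 3) ≠ 0 ∨ glueC E e C (E5.b 2) ≠ 0 →
      extP f' (E5.x 3) ≠ p) (d : Dt V) (hd : d.1 ∉ Set.range E5.x) : glueC E e C d = 0 := by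
  refine zeroP hB hI hf' p (glueC E e C) (glueC_rch E P _ hX5 e C hC he1 he2 hes) ?_ h01 hsum hz
    d hd
  rintro ⟨v, s⟩ hv h0
  by_cases hv' : v ∈ Set.range E.x
  · obtain ⟨i, rfl⟩ := hv'
    rw [glueC_in] at h0
    refine heS i _ ?_ h0
    by_contra h
    exact hv ((hX5 _).2 ⟨i, h, rfl⟩)
  · rw [glueC_out E e C _ hv'] at h0
    exact hS (v, s) hv' h0

theorem surT_Tp : SurT Tp := by
  intro j
  fin_cases j
  exacts [⟨0, 1, rfl⟩, ⟨1, 1, rfl⟩, ⟨2, 1, rfl⟩, ⟨3, 1, rfl⟩, ⟨4, 1, rfl⟩]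

theorem surT_T53 : SurT T53 := by
  intro j
  fin_cases j
  exacts [⟨0, 1, rfl⟩, ⟨1, 1, rfl⟩, ⟨2, 1, rfl⟩, ⟨5, 1, rfl⟩, ⟨6, 1, rfl⟩, ⟨7, 1, rfl⟩]

theorem surT_T54 : SurT T54 := by
  intro j
  fin_cases j
  exacts [⟨0, 1, rfl⟩, ⟨1, 1, rfl⟩, ⟨2, 1, rfl⟩, ⟨5, 1, rfl⟩, ⟨6, 1, rfl⟩, ⟨7, 1, rfl⟩, ⟨8, 1, rfl⟩]

theorem range53 (E : M.Emb T53) (v : V) :
    v ∈ Set.range E.sub53.x ↔ ∃ i : Fin 8, ¬ (5 ≤ i.val) ∧ E.x i = v := by
  constructor
  · rintro ⟨i, rfl⟩
    fin_cases i
    exacts [⟨0, by decide, rfl⟩, ⟨1, by decide, rfl⟩, ⟨2, by decide, rfl⟩, ⟨3, by decide, rfl⟩,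
      ⟨4, by decide, rfl⟩]
  · rintro ⟨i, hi, rfl⟩
    have h5 : i.val < 5 := by omega
    refine ⟨⟨i.val, h5⟩, ?_⟩
    have h6 : ∀ j : Fin 5, E.sub53.x j = E.x ⟨j.val, by omega⟩ := by
      intro j
      fin_cases j <;> rfl
    rw [h6]

theorem range54 (E : M.Emb T54) (v : V) :
    v ∈ Set.range E.sub54.x ↔ ∃ i : Fin 9, ¬ (5 ≤ i.val) ∧ E.x i = v := by
  constructor
  · rintro ⟨i, rfl⟩
    fin_cases i
    exacts [⟨0, by decide, rfl⟩, ⟨1, by decide, rfl⟩, ⟨2, by decide, rfl⟩, ⟨3, by decide, rfl⟩,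
      ⟨4, by decide, rfl⟩]
  · rintro ⟨i, hi, rfl⟩
    have h5 : i.val < 5 := by omega
    refine ⟨⟨i.val, h5⟩, ?_⟩
    have h6 : ∀ j : Fin 5, E.sub54.x j = E.x ⟨j.val, by omega⟩ := by
      intro j
      fin_cases j <;> rfl
    rw [h6]

end PentExt

open PentExt in
theorem specPentExt53 (hState : SpecState) (hGlue : SpecGlue) (hBd : SpecBdry)
    (hFinP : SpecFinPent) (hFin : SpecFin53) (hNC : SpecNC53) : SpecPentExt53 := by
  intro V _ M E M' hPlan hI hCol
  obtain ⟨f', hf'⟩ := hCol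
  have hB5 := hBd V M 5 5 Tp surT_Tp E.sub53
  have hB := hBd V M 8 6 T53 surT_T53 E
  choose L5 hL5 using fun p => hState V M (Set.range E.sub53.x) 5 E.sub53.b (extP f') p hB5
  choose L hL using fun p => hState V M (Set.range E.x) 6 E.b (extP f') p hB
  have hX := range53 E
  have hsub : ∀ v, v ∉ Set.range E.x → v ∉ Set.range E.sub53.x := by
    intro v hv h
    obtain ⟨i, _, hi⟩ := (hX v).1 h
    exact hv ⟨i, hi⟩
  have hx : ∀ i : Fin 8, 5 ≤ i.val → E.x i ∉ Set.range E.sub53.x := by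
    intro i hi h
    obtain ⟨j, hj, hji⟩ := (hX _).1 h
    have h1 := E.inj hji
    subst h1
    exact hj hi
  have hbx : ∀ j, (E.b j).1 ∉ Set.range E.sub53.x := fun j => hsub _ (E.out j)
  rcases step1 hGlue hFinP hB5 surT_Tp hI hf' L5 (fun p J => hL5 p J) with h | hbad
  · exact h
  · have hpr := fun d hd hd' => properP hI hf' d hd hd'
    have hp1 : ∀ (i : Fin 8) (t : Fin 3) (j : Fin 6), 5 ≤ i.val → T53 i t = Sum.inr j →
        extP f' (E.x i) ≠ extP f' (E.b j).1 := by
      intro i t j hi hT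
      have h1 := E.tgt i t
      rw [hT] at h1
      have h2 := hpr (E.x i, E.pos i + t) (hx i hi) (by rw [h1]; exact hbx j)
      rw [h1] at h2
      exact h2.symm
    have hp2 : ∀ (i : Fin 8) (t : Fin 3) (q : Fin 8 × Fin 3), 5 ≤ i.val → 5 ≤ q.1.val →
        T53 i t = Sum.inl q → extP f' (E.x i) ≠ extP f' (E.x q.1) := by
      intro i t q hi hq hT
      have h1 := E.tgt i t
      rw [hT] at h1
      have h2 := hpr (E.x i, E.pos i + t) (hx i hi) (by rw [h1]; exact hx q.1 hq)
      rw [h1] at h2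
      exact h2.symm
    obtain ⟨z4, z3, z2⟩ := nez hI hf'
    have hz4 : extP f' (E.x 3) ≠ extP f' (E.x 7) := z4
    have hz3 : extP f' (E.x 3) ≠ extP f' (E.x 5) := z3
    have hz2 : extP f' (E.x 3) ≠ extP f' (E.b 2).1 := z2
    have h01 : extP f' (E.b 0).1 ≠ extP f' (E.b 1).1 := ne01 hI hf'
    -- the finite state
    have hFA : FA T53r (fun J => J 0 = J 1) (fun i => extP f' (E.b i).1) L
        ![extP f' (E.x 3), extP f' (E.x 5), extP f' (E.x 6), extP f' (E.x 7)] := by
      refine ⟨?_, ?_⟩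
      · intro i t
        fin_cases i <;> fin_cases t
        exacts [hz4, hz3, hz2,
          hp2 5 0 (6, 2) (by decide) (by decide) rfl, hp1 5 1 3 (by decide) rfl, hz3.symm,
          hp2 6 0 (7, 2) (by decide) (by decide) rfl, hp1 6 1 4 (by decide) rfl,
          hp2 6 2 (5, 0) (by decide) (by decide) rfl,
          hz4.symm, hp1 7 1 5 (by decide) rfl, hp2 7 2 (6, 0) (by decide) (by decide) rfl]
      · intro p e J he hes hep hK hEL
        obtain ⟨C, hC, hS, hJ⟩ := (hL p J).2 hEL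
        have e00 : e 0 0 = e 3 0 := he 0 0
        have e01 : e 0 1 = e 1 2 := he 0 1
        have e02 : e 0 2 = J 2 := he 0 2
        have e10 : e 1 0 = e 2 2 := he 1 0
        have e11 : e 1 1 = J 3 := he 1 1
        have e20 : e 2 0 = e 3 2 := he 2 0
        have e21 : e 2 1 = J 4 := he 2 1
        have e31 : e 3 1 = J 5 := he 3 1
        have hK' : J 0 = J 1 := hK
        have hs0 := hes 0
        have he8 : ∀ i : Fin 8, 5 ≤ i.val → i = 5 ∨ i = 6 ∨ i = 7 := by decide
        have hc0 : glueC E (![0, 0, 0, 0, 0, e 1, e 2, e 3] : Fin 8 → Fin 3 → ZMod 2) C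
            (E.sub53.b 0) = J 0 := (glueC_out E _ C (E.b 0) (E.out 0)).trans (hJ 0)
        have hc1 : glueC E (![0, 0, 0, 0, 0, e 1, e 2, e 3] : Fin 8 → Fin 3 → ZMod 2) C
            (E.sub53.b 1) = J 1 := (glueC_out E _ C (E.b 1) (E.out 1)).trans (hJ 1)
        have hc2 : glueC E (![0, 0, 0, 0, 0, e 1, e 2, e 3] : Fin 8 → Fin 3 → ZMod 2) C
            (E.sub53.b 2) = e 0 2 :=
          ((glueC_out E _ C (E.b 2) (E.out 2)).trans (hJ 2)).trans e02.symm
        have hc3 : glueC E (![0, 0, 0, 0, 0, e 1, e 2, e 3] : Fin 8 → Fin 3 → ZMod 2) C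
            (E.sub53.b 3) = e 0 1 := by
          refine (glueC_in E _ C 5 (E.pos 5 + 2)).trans ?_
          rw [add_sub_cancel_left]
          exact e01.symm
        have hc4 : glueC E (![0, 0, 0, 0, 0, e 1, e 2, e 3] : Fin 8 → Fin 3 → ZMod 2) C
            (E.sub53.b 4) = e 0 0 := by
          refine (glueC_in E _ C 7 (E.pos 7 + 0)).trans ?_
          rw [add_sub_cancel_left]
          exact e00.symm
        have hzero := glue_zero E E.sub53 (fun i => 5 ≤ i.val) hX hB5 hI hf' p
          (![0, 0, 0, 0, 0, e 1, e 2, e 3] : Fin 8 → Fin 3 → ZMod 2) C hC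
          (by
            intro i t j hi hT
            rw [hJ]
            rcases he8 i hi with h | h | h <;> subst h <;> fin_cases t
            · exact absurd hT (by simp [T53])
            · have h2 : (3 : Fin 6) = j := Sum.inr.inj hT
              subst h2
              exact e11
            · exact absurd hT (by simp [T53])
            · exact absurd hT (by simp [T53])
            · have h2 : (4 : Fin 6) = j := Sum.inr.inj hT
              subst h2
              exact e21
            · exact absurd hT (by simp [T53])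
            · exact absurd hT (by simp [T53])
            · have h2 : (5 : Fin 6) = j := Sum.inr.inj hT
              subst h2
              exact e31
            · exact absurd hT (by simp [T53]))
          (by
            intro i t q hi hT hq
            rcases he8 i hi with h | h | h <;> subst h <;> fin_cases t
            · have h2 : ((6, 2) : Fin 8 × Fin 3) = q := Sum.inl.inj hT
              subst h2
              exact e10
            · exact absurd hT (by simp [T53])
            · have h2 : ((3, 1) : Fin 8 × Fin 3) = q := Sum.inl.inj hT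
              subst h2
              exact absurd hq (by decide)
            · have h2 : ((7, 2) : Fin 8 × Fin 3) = q := Sum.inl.inj hT
              subst h2
              exact e20
            · exact absurd hT (by simp [T53])
            · have h2 : ((5, 0) : Fin 8 × Fin 3) = q := Sum.inl.inj hT
              subst h2
              exact e10.symm
            · have h2 : ((4, 1) : Fin 8 × Fin 3) = q := Sum.inl.inj hT
              subst h2
              exact absurd hq (by decide)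
            · exact absurd hT (by simp [T53])
            · have h2 : ((6, 0) : Fin 8 × Fin 3) = q := Sum.inl.inj hT
              subst h2
              exact e20.symm)
          (by
            intro i hi
            rcases he8 i hi with h | h | h <;> subst h
            exacts [hes 1, hes 2, hes 3])
          hS
          (by
            intro i t hi h0
            rcases he8 i hi with h | h | h <;> subst h
            exacts [hep 1 t h0, hep 2 t h0, hep 3 t h0])
          (by rw [hc0, hc1]; exact hK')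
          (by rw [hc2, hc3, hc4]; exact hs0)
          (by
            rw [hc2, hc3, hc4]
            rintro (h | h | h)
            exacts [hep 0 0 h, hep 0 1 h, hep 0 2 h])
        have hJ0 : ∀ j, J j = 0 := by
          intro j
          rw [← hJ j, ← glueC_out E (![0, 0, 0, 0, 0, e 1, e 2, e 3] : Fin 8 → Fin 3 → ZMod 2) C
            (E.b j) (E.out j)]
          exact hzero (E.b j) (hbx j)
        have hin : ∀ i : Fin 8, 5 ≤ i.val → ∀ t,
            (![0, 0, 0, 0, 0, e 1, e 2, e 3] : Fin 8 → Fin 3 → ZMod 2) i t = 0 := by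
          intro i hi t
          have h1 := hzero (E.x i, E.pos i + t) (hx i hi)
          rw [glueC_in, add_sub_cancel_left] at h1
          exact h1
        have he1 : ∀ t, e 1 t = 0 := hin 5 (by decide)
        have he2 : ∀ t, e 2 t = 0 := hin 6 (by decide)
        have he3 : ∀ t, e 3 t = 0 := hin 7 (by decide)
        refine ⟨hJ0, ?_⟩
        intro i t
        fin_cases i
        · fin_cases t
          exacts [e00.trans (he3 0), e01.trans (he1 2), e02.trans (hJ0 2)]
        · exact he1 t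
        · exact he2 t
        · exact he3 t
    have hNC' : NC (EL (fun i => extP f' (E.b i).1) L) := by
      have h1 : EL (fun i => extP f' (E.b i).1) L = M.E (Set.range E.x) E.b (extP f') := by
        funext p J
        exact propext (hL p J).symm
      rw [h1]
      exact hNC V M E (extP f') hPlan (fun d hd hd' => hpr d (hsub _ hd) (hsub _ hd'))
    have hLift : ∀ p J5, EL (fun i => extP f' (E.sub53.b i).1) L5 p J5 →
        Lift53 ![extP f' (E.x 5), extP f' (E.x 6), extP f' (E.x 7)]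
          (EL (fun i => extP f' (E.b i).1) L) p J5 := by
      intro p J5 h5
      obtain ⟨C, hC, hS, hJ⟩ := (hL5 p J5).2 h5
      refine ⟨![fun t => C (E.x 5, E.pos 5 + t), fun t => C (E.x 6, E.pos 6 + t),
        fun t => C (E.x 7, E.pos 7 + t)], fun j => C (E.b j), ?_, ?_, ?_, ?_, ?_, ?_, ?_, ?_,
        (hJ 0).symm, (hJ 1).symm, (hJ 2).symm, (hJ 3).symm, (hJ 4).symm⟩
      · exact restr_inl E _ C hC 5 0 (6, 2) rfl (hx 5 (by decide)) (hx 6 (by decide))
      · exact restr_inl E _ C hC 6 0 (7, 2) rfl (hx 6 (by decide)) (hx 7 (by decide))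
      · exact restr_inr E _ hsub C hC 5 1 3 rfl (hx 5 (by decide))
      · exact restr_inr E _ hsub C hC 6 1 4 rfl (hx 6 (by decide))
      · exact restr_inr E _ hsub C hC 7 1 5 rfl (hx 7 (by decide))
      · intro i
        fin_cases i
        · exact vsum (fun t => C (E.x 5, t)) (E.pos 5) (hC.2 _ (hx 5 (by decide)))
        · exact vsum (fun t => C (E.x 6, t)) (E.pos 6) (hC.2 _ (hx 6 (by decide)))
        · exact vsum (fun t => C (E.x 7, t)) (E.pos 7) (hC.2 _ (hx 7 (by decide)))
      · intro i t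
        fin_cases i
        · exact hS (E.x 5, E.pos 5 + t) (hx 5 (by decide))
        · exact hS (E.x 6, E.pos 6 + t) (hx 6 (by decide))
        · exact hS (E.x 7, E.pos 7 + t) (hx 7 (by decide))
      · refine (hL p _).1 ⟨C, ⟨?_, ?_⟩, ?_, fun i => rfl⟩
        · exact fun d hd hd' => hC.1 d (hsub _ hd) (hsub _ hd')
        · exact fun v hv => hC.2 v (hsub _ hv)
        · exact fun d hd => hS d (hsub _ hd)
    have hc5 : (fun i => extP f' (E.sub53.b i).1) = ![extP f' (E.b 0).1, extP f' (E.b 1).1,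
        extP f' (E.b 2).1, extP f' (E.x 5), extP f' (E.x 7)] := by
      funext i
      fin_cases i <;> rfl
    have hbad' : BadA ![extP f' (E.b 0).1, extP f' (E.b 1).1,
        extP f' (E.b 2).1, extP f' (E.x 5), extP f' (E.x 7)] (extP f' (E.x 3))
          (Lift53 ![extP f' (E.x 5), extP f' (E.x 6), extP f' (E.x 7)]
            (EL (fun i => extP f' (E.b i).1) L)) ∨
        BadB ![extP f' (E.b 0).1, extP f' (E.b 1).1,
        extP f' (E.b 2).1, extP f' (E.x 5), extP f' (E.x 7)] (extP f' (E.x 3))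
          (Lift53 ![extP f' (E.x 5), extP f' (E.x 6), extP f' (E.x 7)]
            (EL (fun i => extP f' (E.b i).1) L)) := by
      rw [← hc5]
      rcases hbad with h | h
      · exact Or.inl (BadA.mono hLift h)
      · exact Or.inr (BadB.mono hLift h)
    obtain ⟨g, hg⟩ := hFin (fun i => extP f' (E.b i).1) L (extP f' (E.x 3))
      ![extP f' (E.x 5), extP f' (E.x 6), extP f' (E.x 7)] h01 hFA hNC' hbad'
    refine hGlue V M 8 6 T53 surT_T53 E (extP f') g L ?_ ?_ ?_ hg
    · exact fun d hd hd' => hpr d (hsub _ hd) (hsub _ hd')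
    · exact fun p J h => (hL p J).1 h
    · intro p C hC hS h0 d hd
      have hc : ∀ j, glueC E (fun _ _ => 0) C (E.sub53.b j) = 0 := by
        intro j
        fin_cases j
        · exact (glueC_out E _ C (E.b 0) (E.out 0)).trans (h0 0)
        · exact (glueC_out E _ C (E.b 1) (E.out 1)).trans (h0 1)
        · exact (glueC_out E _ C (E.b 2) (E.out 2)).trans (h0 2)
        · exact glueC_in E _ C 5 (E.pos 5 + 2)
        · exact glueC_in E _ C 7 (E.pos 7 + 0)
      have hzero := glue_zero E E.sub53 (fun i => 5 ≤ i.val) hX hB5 hI hf' p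
        (fun _ _ => 0) C hC (fun i t j _ _ => (h0 j).symm) (fun _ _ _ _ _ _ => rfl)
        (fun _ _ => rfl) hS (fun _ _ _ h => absurd rfl h) (by rw [hc, hc])
        (by rw [hc, hc, hc]; rfl) (by rw [hc, hc, hc]; simp) d (hsub _ hd)
      rwa [glueC_out E _ C d hd] at hzero

open PentExt in
theorem specPentExt54 (hState : SpecState) (hGlue : SpecGlue) (hBd : SpecBdry)
    (hFinP : SpecFinPent) (hFin : SpecFin54) (hNC : SpecNC54) : SpecPentExt54 := by
  intro V _ M E M' hPlan hI hCol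
  obtain ⟨f', hf'⟩ := hCol
  have hB5 := hBd V M 5 5 Tp surT_Tp E.sub54
  have hB := hBd V M 9 7 T54 surT_T54 E
  choose L5 hL5 using fun p => hState V M (Set.range E.sub54.x) 5 E.sub54.b (extP f') p hB5
  choose L hL using fun p => hState V M (Set.range E.x) 7 E.b (extP f') p hB
  have hX := range54 E
  have hsub : ∀ v, v ∉ Set.range E.x → v ∉ Set.range E.sub54.x := by
    intro v hv h
    obtain ⟨i, _, hi⟩ := (hX v).1 h
    exact hv ⟨i, hi⟩
  have hx : ∀ i : Fin 9, 5 ≤ i.val → E.x i ∉ Set.range E.sub54.x := by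
    intro i hi h
    obtain ⟨j, hj, hji⟩ := (hX _).1 h
    have h1 := E.inj hji
    subst h1
    exact hj hi
  have hbx : ∀ j, (E.b j).1 ∉ Set.range E.sub54.x := fun j => hsub _ (E.out j)
  rcases step1 hGlue hFinP hB5 surT_Tp hI hf' L5 (fun p J => hL5 p J) with h | hbad
  · exact h
  · have hpr := fun d hd hd' => properP hI hf' d hd hd'
    have hp1 : ∀ (i : Fin 9) (t : Fin 3) (j : Fin 7), 5 ≤ i.val → T54 i t = Sum.inr j →
        extP f' (E.x i) ≠ extP f' (E.b j).1 := by
      intro i t j hi hT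
      have h1 := E.tgt i t
      rw [hT] at h1
      have h2 := hpr (E.x i, E.pos i + t) (hx i hi) (by rw [h1]; exact hbx j)
      rw [h1] at h2
      exact h2.symm
    have hp2 : ∀ (i : Fin 9) (t : Fin 3) (q : Fin 9 × Fin 3), 5 ≤ i.val → 5 ≤ q.1.val →
        T54 i t = Sum.inl q → extP f' (E.x i) ≠ extP f' (E.x q.1) := by
      intro i t q hi hq hT
      have h1 := E.tgt i t
      rw [hT] at h1
      have h2 := hpr (E.x i, E.pos i + t) (hx i hi) (by rw [h1]; exact hx q.1 hq)
      rw [h1] at h2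
      exact h2.symm
    obtain ⟨z4, z3, z2⟩ := nez hI hf'
    have hz4 : extP f' (E.x 3) ≠ extP f' (E.x 8) := z4
    have hz3 : extP f' (E.x 3) ≠ extP f' (E.x 5) := z3
    have hz2 : extP f' (E.x 3) ≠ extP f' (E.b 2).1 := z2
    have h01 : extP f' (E.b 0).1 ≠ extP f' (E.b 1).1 := ne01 hI hf'
    -- the finite state
    have hFA : FA T54r (fun J => J 0 = J 1) (fun i => extP f' (E.b i).1) L
        ![extP f' (E.x 3), extP f' (E.x 5), extP f' (E.x 6), extP f' (E.x 7),
          extP f' (E.x 8)] := by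
      refine ⟨?_, ?_⟩
      · intro i t
        fin_cases i <;> fin_cases t
        exacts [hz4, hz3, hz2,
          hp2 5 0 (6, 2) (by decide) (by decide) rfl, hp1 5 1 3 (by decide) rfl, hz3.symm,
          hp2 6 0 (7, 2) (by decide) (by decide) rfl, hp1 6 1 4 (by decide) rfl,
          hp2 6 2 (5, 0) (by decide) (by decide) rfl,
          hp2 7 0 (8, 2) (by decide) (by decide) rfl, hp1 7 1 5 (by decide) rfl,
          hp2 7 2 (6, 0) (by decide) (by decide) rfl,
          hz4.symm, hp1 8 1 6 (by decide) rfl, hp2 8 2 (7, 0) (by decide) (by decide) rfl]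
      · intro p e J he hes hep hK hEL
        obtain ⟨C, hC, hS, hJ⟩ := (hL p J).2 hEL
        have e00 : e 0 0 = e 4 0 := he 0 0
        have e01 : e 0 1 = e 1 2 := he 0 1
        have e02 : e 0 2 = J 2 := he 0 2
        have e10 : e 1 0 = e 2 2 := he 1 0
        have e11 : e 1 1 = J 3 := he 1 1
        have e20 : e 2 0 = e 3 2 := he 2 0
        have e21 : e 2 1 = J 4 := he 2 1
        have e30 : e 3 0 = e 4 2 := he 3 0
        have e31 : e 3 1 = J 5 := he 3 1
        have e41 : e 4 1 = J 6 := he 4 1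
        have hK' : J 0 = J 1 := hK
        have hs0 := hes 0
        have he8 : ∀ i : Fin 9, 5 ≤ i.val → i = 5 ∨ i = 6 ∨ i = 7 ∨ i = 8 := by decide
        have hc0 : glueC E (![0, 0, 0, 0, 0, e 1, e 2, e 3, e 4] : Fin 9 → Fin 3 → ZMod 2) C
            (E.sub54.b 0) = J 0 := (glueC_out E _ C (E.b 0) (E.out 0)).trans (hJ 0)
        have hc1 : glueC E (![0, 0, 0, 0, 0, e 1, e 2, e 3, e 4] : Fin 9 → Fin 3 → ZMod 2) C
            (E.sub54.b 1) = J 1 := (glueC_out E _ C (E.b 1) (E.out 1)).trans (hJ 1)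
        have hc2 : glueC E (![0, 0, 0, 0, 0, e 1, e 2, e 3, e 4] : Fin 9 → Fin 3 → ZMod 2) C
            (E.sub54.b 2) = e 0 2 :=
          ((glueC_out E _ C (E.b 2) (E.out 2)).trans (hJ 2)).trans e02.symm
        have hc3 : glueC E (![0, 0, 0, 0, 0, e 1, e 2, e 3, e 4] : Fin 9 → Fin 3 → ZMod 2) C
            (E.sub54.b 3) = e 0 1 := by
          refine (glueC_in E _ C 5 (E.pos 5 + 2)).trans ?_
          rw [add_sub_cancel_left]
          exact e01.symm
        have hc4 : glueC E (![0, 0, 0, 0, 0, e 1, e 2, e 3, e 4] : Fin 9 → Fin 3 → ZMod 2) C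
            (E.sub54.b 4) = e 0 0 := by
          refine (glueC_in E _ C 8 (E.pos 8 + 0)).trans ?_
          rw [add_sub_cancel_left]
          exact e00.symm
        have hzero := glue_zero E E.sub54 (fun i => 5 ≤ i.val) hX hB5 hI hf' p
          (![0, 0, 0, 0, 0, e 1, e 2, e 3, e 4] : Fin 9 → Fin 3 → ZMod 2) C hC
          (by
            intro i t j hi hT
            rw [hJ]
            rcases he8 i hi with h | h | h | h <;> subst h <;> fin_cases t
            · exact absurd hT (by simp [T54])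
            · have h2 : (3 : Fin 7) = j := Sum.inr.inj hT
              subst h2
              exact e11
            · exact absurd hT (by simp [T54])
            · exact absurd hT (by simp [T54])
            · have h2 : (4 : Fin 7) = j := Sum.inr.inj hT
              subst h2
              exact e21
            · exact absurd hT (by simp [T54])
            · exact absurd hT (by simp [T54])
            · have h2 : (5 : Fin 7) = j := Sum.inr.inj hT
              subst h2
              exact e31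
            · exact absurd hT (by simp [T54])
            · exact absurd hT (by simp [T54])
            · have h2 : (6 : Fin 7) = j := Sum.inr.inj hT
              subst h2
              exact e41
            · exact absurd hT (by simp [T54]))
          (by
            intro i t q hi hT hq
            rcases he8 i hi with h | h | h | h <;> subst h <;> fin_cases t
            · have h2 : ((6, 2) : Fin 9 × Fin 3) = q := Sum.inl.inj hT
              subst h2
              exact e10
            · exact absurd hT (by simp [T54])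
            · have h2 : ((3, 1) : Fin 9 × Fin 3) = q := Sum.inl.inj hT
              subst h2
              exact absurd hq (by decide)
            · have h2 : ((7, 2) : Fin 9 × Fin 3) = q := Sum.inl.inj hT
              subst h2
              exact e20
            · exact absurd hT (by simp [T54])
            · have h2 : ((5, 0) : Fin 9 × Fin 3) = q := Sum.inl.inj hT
              subst h2
              exact e10.symm
            · have h2 : ((8, 2) : Fin 9 × Fin 3) = q := Sum.inl.inj hT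
              subst h2
              exact e30
            · exact absurd hT (by simp [T54])
            · have h2 : ((6, 0) : Fin 9 × Fin 3) = q := Sum.inl.inj hT
              subst h2
              exact e20.symm
            · have h2 : ((4, 1) : Fin 9 × Fin 3) = q := Sum.inl.inj hT
              subst h2
              exact absurd hq (by decide)
            · exact absurd hT (by simp [T54])
            · have h2 : ((7, 0) : Fin 9 × Fin 3) = q := Sum.inl.inj hT
              subst h2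
              exact e30.symm)
          (by
            intro i hi
            rcases he8 i hi with h | h | h | h <;> subst h
            exacts [hes 1, hes 2, hes 3, hes 4])
          hS
          (by
            intro i t hi h0
            rcases he8 i hi with h | h | h | h <;> subst h
            exacts [hep 1 t h0, hep 2 t h0, hep 3 t h0, hep 4 t h0])
          (by rw [hc0, hc1]; exact hK')
          (by rw [hc2, hc3, hc4]; exact hs0)
          (by
            rw [hc2, hc3, hc4]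
            rintro (h | h | h)
            exacts [hep 0 0 h, hep 0 1 h, hep 0 2 h])
        have hJ0 : ∀ j, J j = 0 := by
          intro j
          rw [← hJ j, ← glueC_out E (![0, 0, 0, 0, 0, e 1, e 2, e 3, e 4] : Fin 9 → Fin 3 → ZMod 2) C
            (E.b j) (E.out j)]
          exact hzero (E.b j) (hbx j)
        have hin : ∀ i : Fin 9, 5 ≤ i.val → ∀ t,
            (![0, 0, 0, 0, 0, e 1, e 2, e 3, e 4] : Fin 9 → Fin 3 → ZMod 2) i t = 0 := by
          intro i hi t
          have h1 := hzero (E.x i, E.pos i + t) (hx i hi)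
          rw [glueC_in, add_sub_cancel_left] at h1
          exact h1
        have he1 : ∀ t, e 1 t = 0 := hin 5 (by decide)
        have he2 : ∀ t, e 2 t = 0 := hin 6 (by decide)
        have he3 : ∀ t, e 3 t = 0 := hin 7 (by decide)
        have he4 : ∀ t, e 4 t = 0 := hin 8 (by decide)
        refine ⟨hJ0, ?_⟩
        intro i t
        fin_cases i
        · fin_cases t
          exacts [e00.trans (he4 0), e01.trans (he1 2), e02.trans (hJ0 2)]
        · exact he1 t
        · exact he2 t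
        · exact he3 t
        · exact he4 t
    have hNC' : NC (EL (fun i => extP f' (E.b i).1) L) := by
      have h1 : EL (fun i => extP f' (E.b i).1) L = M.E (Set.range E.x) E.b (extP f') := by
        funext p J
        exact propext (hL p J).symm
      rw [h1]
      exact hNC V M E (extP f') hPlan (fun d hd hd' => hpr d (hsub _ hd) (hsub _ hd'))
    have hLift : ∀ p J5, EL (fun i => extP f' (E.sub54.b i).1) L5 p J5 →
        Lift54 ![extP f' (E.x 5), extP f' (E.x 6), extP f' (E.x 7), extP f' (E.x 8)]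
          (EL (fun i => extP f' (E.b i).1) L) p J5 := by
      intro p J5 h5
      obtain ⟨C, hC, hS, hJ⟩ := (hL5 p J5).2 h5
      refine ⟨![fun t => C (E.x 5, E.pos 5 + t), fun t => C (E.x 6, E.pos 6 + t),
        fun t => C (E.x 7, E.pos 7 + t), fun t => C (E.x 8, E.pos 8 + t)],
        fun j => C (E.b j), ?_, ?_, ?_, ?_, ?_, ?_, ?_, ?_, ?_, ?_,
        (hJ 0).symm, (hJ 1).symm, (hJ 2).symm, (hJ 3).symm, (hJ 4).symm⟩
      · exact restr_inl E _ C hC 5 0 (6, 2) rfl (hx 5 (by decide)) (hx 6 (by decide))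
      · exact restr_inl E _ C hC 6 0 (7, 2) rfl (hx 6 (by decide)) (hx 7 (by decide))
      · exact restr_inl E _ C hC 7 0 (8, 2) rfl (hx 7 (by decide)) (hx 8 (by decide))
      · exact restr_inr E _ hsub C hC 5 1 3 rfl (hx 5 (by decide))
      · exact restr_inr E _ hsub C hC 6 1 4 rfl (hx 6 (by decide))
      · exact restr_inr E _ hsub C hC 7 1 5 rfl (hx 7 (by decide))
      · exact restr_inr E _ hsub C hC 8 1 6 rfl (hx 8 (by decide))
      · intro i
        fin_cases i
        · exact vsum (fun t => C (E.x 5, t)) (E.pos 5) (hC.2 _ (hx 5 (by decide)))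
        · exact vsum (fun t => C (E.x 6, t)) (E.pos 6) (hC.2 _ (hx 6 (by decide)))
        · exact vsum (fun t => C (E.x 7, t)) (E.pos 7) (hC.2 _ (hx 7 (by decide)))
        · exact vsum (fun t => C (E.x 8, t)) (E.pos 8) (hC.2 _ (hx 8 (by decide)))
      · intro i t
        fin_cases i
        · exact hS (E.x 5, E.pos 5 + t) (hx 5 (by decide))
        · exact hS (E.x 6, E.pos 6 + t) (hx 6 (by decide))
        · exact hS (E.x 7, E.pos 7 + t) (hx 7 (by decide))
        · exact hS (E.x 8, E.pos 8 + t) (hx 8 (by decide))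
      · refine (hL p _).1 ⟨C, ⟨?_, ?_⟩, ?_, fun i => rfl⟩
        · exact fun d hd hd' => hC.1 d (hsub _ hd) (hsub _ hd')
        · exact fun v hv => hC.2 v (hsub _ hv)
        · exact fun d hd => hS d (hsub _ hd)
    have hc5 : (fun i => extP f' (E.sub54.b i).1) = ![extP f' (E.b 0).1, extP f' (E.b 1).1,
        extP f' (E.b 2).1, extP f' (E.x 5), extP f' (E.x 8)] := by
      funext i
      fin_cases i <;> rfl
    have hbad' : BadA ![extP f' (E.b 0).1, extP f' (E.b 1).1,
        extP f' (E.b 2).1, extP f' (E.x 5), extP f' (E.x 8)] (extP f' (E.x 3))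
          (Lift54 ![extP f' (E.x 5), extP f' (E.x 6), extP f' (E.x 7), extP f' (E.x 8)]
            (EL (fun i => extP f' (E.b i).1) L)) ∨
        BadB ![extP f' (E.b 0).1, extP f' (E.b 1).1,
        extP f' (E.b 2).1, extP f' (E.x 5), extP f' (E.x 8)] (extP f' (E.x 3))
          (Lift54 ![extP f' (E.x 5), extP f' (E.x 6), extP f' (E.x 7), extP f' (E.x 8)]
            (EL (fun i => extP f' (E.b i).1) L)) := by
      rw [← hc5]
      rcases hbad with h | h
      · exact Or.inl (BadA.mono hLift h)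
      · exact Or.inr (BadB.mono hLift h)
    obtain ⟨g, hg⟩ := hFin (fun i => extP f' (E.b i).1) L (extP f' (E.x 3))
      ![extP f' (E.x 5), extP f' (E.x 6), extP f' (E.x 7), extP f' (E.x 8)] h01 hFA hNC' hbad'
    refine hGlue V M 9 7 T54 surT_T54 E (extP f') g L ?_ ?_ ?_ hg
    · exact fun d hd hd' => hpr d (hsub _ hd) (hsub _ hd')
    · exact fun p J h => (hL p J).1 h
    · intro p C hC hS h0 d hd
      have hc : ∀ j, glueC E (fun _ _ => 0) C (E.sub54.b j) = 0 := by
        intro j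
        fin_cases j
        · exact (glueC_out E _ C (E.b 0) (E.out 0)).trans (h0 0)
        · exact (glueC_out E _ C (E.b 1) (E.out 1)).trans (h0 1)
        · exact (glueC_out E _ C (E.b 2) (E.out 2)).trans (h0 2)
        · exact glueC_in E _ C 5 (E.pos 5 + 2)
        · exact glueC_in E _ C 8 (E.pos 8 + 0)
      have hzero := glue_zero E E.sub54 (fun i => 5 ≤ i.val) hX hB5 hI hf' p
        (fun _ _ => 0) C hC (fun i t j _ _ => (h0 j).symm) (fun _ _ _ _ _ _ => rfl)
        (fun _ _ => rfl) hS (fun _ _ _ h => absurd rfl h) (by rw [hc, hc])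
        (by rw [hc, hc, hc]; rfl) (by rw [hc, hc, hc]; simp) d (hsub _ hd)
      rwa [glueC_out E _ C d hd] at hzero

end Acyc75
end

section
/-!
# MP_1e9f59_co : module THR-EXT

Colourings extend in the reductions with two through edges.
-/
set_option autoImplicit false

namespace Acyc75

open CMap

namespace ThrExt

variable {V : Type} {M : CMap V} {m : ℕ} {T : Tab m 4} {E : M.Emb T}
  {M' : CMap {v // v ∉ Set.range E.x}}

/-- Extension of a colouring of the outside by zero. -/
noncomputable def ext {X : Set V} (f' : {v // v ∉ X} → Fin 3) : V → Fin 3 := by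
  classical
  exact fun v => if h : v ∉ X then f' ⟨v, h⟩ else 0

theorem ext_eq {X : Set V} (f' : {v // v ∉ X} → Fin 3) (v : V) (h : v ∉ X) :
    ext f' v = f' ⟨v, h⟩ := by
  unfold ext
  simp only [dif_pos h]

/-- A chain outside which respects the pairing of the boundary edges is a chain of the reduced map. -/
theorem ev_of (hB : M.Bdry (Set.range E.x) E.b) (hI : M.IsThr E M') (C : Dt V → ZMod 2)
    (hC : M.RCh (Set.range E.x) C) (hs : ∀ j, C (E.b (sw j)) = C (E.b j)) :
    M'.Ev (fun d => C (d.1.1, d.2)) := by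
  refine ⟨?_, ?_⟩
  · rintro ⟨⟨v, hv⟩, i⟩
    by_cases hw : (M.a (v, i)).1 ∈ Set.range E.x
    · obtain ⟨j, hj⟩ := (hB.2 (v, i)).1 ⟨hv, hw⟩
      have h1 := hI.bd j
      have h2 : ((⟨⟨(E.b j).1, E.out j⟩, (E.b j).2⟩ : Dt {v // v ∉ Set.range E.x})) =
          (⟨v, hv⟩, i) := by
        have h3 : (E.b j).1 = v := by rw [hj]
        have h4 : (E.b j).2 = i := by rw [hj]
        subst h3
        rw [h4]
      rw [h2] at h1
      rw [h1]
      have h5 := hs j
      rw [hj] at h5
      exact h5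
    · have h1 := hI.int v (M.a (v, i)).1 hv hw i (M.a (v, i)).2 rfl
      rw [h1]
      exact hC.1 (v, i) hv hw
  · rintro ⟨v, hv⟩
    exact hC.2 v hv

/-- Hence it vanishes if it avoids a colour. -/
theorem zero_of (hB : M.Bdry (Set.range E.x) E.b) (hI : M.IsThr E M')
    {f' : {v // v ∉ Set.range E.x} → Fin 3} (hf' : M'.Good f') (p : Fin 3) (C : Dt V → ZMod 2)
    (hC : M.RCh (Set.range E.x) C) (hS : Sup (Set.range E.x) (ext f') p C)
    (hs : ∀ j, C (E.b (sw j)) = C (E.b j)) (d : Dt V) (hd : d.1 ∉ Set.range E.x) : C d = 0 := by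
  have h := hf'.2 p (fun d => C (d.1.1, d.2)) (ev_of hB hI C hC hs) (by
    rintro ⟨⟨v, hv⟩, i⟩ h0
    have h1 := hS (v, i) hv h0
    rwa [ext_eq f' v hv] at h1) (⟨d.1, hd⟩, d.2)
  exact h

/-- The outside colouring is proper. -/
theorem proper_of (hI : M.IsThr E M')
    {f' : {v // v ∉ Set.range E.x} → Fin 3} (hf' : M'.Good f') (d : Dt V)
    (hd : d.1 ∉ Set.range E.x) (hd' : (M.a d).1 ∉ Set.range E.x) :
    ext f' (M.a d).1 ≠ ext f' d.1 := by
  rw [ext_eq f' _ hd, ext_eq f' _ hd']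
  have h := hf'.1 (⟨d.1, hd⟩, d.2)
  rw [hI.int d.1 (M.a d).1 hd hd' d.2 (M.a d).2 rfl] at h
  exact h

theorem bd_ne (hI : M.IsThr E M') {f' : {v // v ∉ Set.range E.x} → Fin 3} (hf' : M'.Good f')
    (j : Fin 4) : ext f' (E.b (sw j)).1 ≠ ext f' (E.b j).1 := by
  rw [ext_eq f' _ (E.out j), ext_eq f' _ (E.out (sw j))]
  have h := hf'.1 (⟨(E.b j).1, E.out j⟩, (E.b j).2)
  rw [hI.bd j] at h
  exact h

end ThrExt

open ThrExt in
theorem specThrExt (hState : SpecState) (hGlue : SpecGlue) (hBd : SpecBdry) : SpecThrExt := by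
  intro m T hT hFin V _ M E M' hI hCol
  obtain ⟨f', hf'⟩ := hCol
  have hB := hBd V M m 4 T hT E
  choose L hL using fun p => hState V M (Set.range E.x) 4 E.b (ext f') p hB
  have hsw : ∀ J : Fin 4 → ZMod 2, J 0 = J 1 → J 2 = J 3 → ∀ j, J (sw j) = J j := by
    intro J h1 h2 j
    fin_cases j
    · exact h1.symm
    · exact h1
    · exact h2.symm
    · exact h2
  have hFA0 : FA T0 (fun J => J 0 = J 1 ∧ J 2 = J 3) (fun i => ext f' (E.b i).1) L
      (fun i => i.elim0) := by
    refine ⟨fun i => i.elim0, ?_⟩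
    intro p e J _ _ _ hK hEL
    refine ⟨?_, fun i => i.elim0⟩
    obtain ⟨C, hC, hS, hJ⟩ := (hL p J).2 hEL
    intro j
    rw [← hJ j]
    refine zero_of hB hI hf' p C hC hS ?_ (E.b j) (E.out j)
    intro j
    rw [hJ, hJ]
    exact hsw J hK.1 hK.2 j
  obtain ⟨g, hg⟩ := hFin (fun i => ext f' (E.b i).1) L (bd_ne hI hf' 1) (bd_ne hI hf' 3) hFA0
  refine hGlue V M m 4 T hT E (ext f') g L ?_ ?_ ?_ hg
  · exact fun d hd hd' => proper_of hI hf' d hd hd'
  · exact fun p J h => (hL p J).1 h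
  · intro p C hC hS h0 d hd
    refine zero_of hB hI hf' p C hC hS ?_ d hd
    intro j
    rw [h0, h0]

end Acyc75
end
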