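import Pool.Agent.Lib.MP_1e9f59_co.Spec
import Pool.Agent.Lib.MP_1e9f59_co.Three

section
/-!
# MP_1e9f59_co : the induction
-/
set_option autoImplicit false

namespace Acyc75

namespace Main

open CMap

theorem card_compl_range {V : Type} [Finite V] {m : ℕ} (x : Fin m → V)
    (hx : Function.Injective x) : Nat.card {v // v ∉ Set.range x} + m = Nat.card V := by
  have h1 : Nat.card {v // v ∉ Set.range x} = (Set.range x)ᶜ.ncard := rfl
  have h2 : (Set.range x).ncard = m := by
    rw [← Set.image_univ, Set.ncard_image_of_injective _ hx, Set.ncard_univ, Nat.card_fin]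
  have h3 := Set.ncard_add_ncard_compl (Set.range x)
  omega

theorem card_pent {V : Type} [Finite V] (x : Fin 5 → V) (hx : Function.Injective x) :
    Nat.card {v // v ∉ Set.range x ∨ v = x 3} + 4 = Nat.card V := by
  have h1 : Nat.card {v // v ∉ Set.range x ∨ v = x 3} =
      {v | v ∉ Set.range x ∨ v = x 3}.ncard := rfl
  have h3 := Set.ncard_add_ncard_compl {v | v ∉ Set.range x ∨ v = x 3}
  have h4 : {v | v ∉ Set.range x ∨ v = x 3}ᶜ = x '' ({3}ᶜ : Set (Fin 5)) := by
    ext v
    simp only [Set.mem_compl_iff, Set.mem_setOf_eq, not_or, not_not, Set.mem_range, Set.mem_image,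
      Set.mem_singleton_iff]
    constructor
    · rintro ⟨⟨i, rfl⟩, h⟩
      exact ⟨i, fun hi => h (hi ▸ rfl), rfl⟩
    · rintro ⟨i, hi, rfl⟩
      exact ⟨⟨i, rfl⟩, fun h => hi (hx h)⟩
  have h5 : ({3}ᶜ : Set (Fin 5)).ncard = 4 := by
    rw [Set.ncard_eq_toFinset_card']; decide
  rw [h4, Set.ncard_image_of_injective _ hx, h5] at h3
  omega

theorem cut_univ {V : Type} (M : CMap V) : M.cut Set.univ = 0 := by
  unfold CMap.cut
  convert Set.ncard_empty (Dt V)
  ext d; simp

/-- Three vertices with at most three outgoing edges form a triangle. -/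
theorem tri3 (hSimple : SpecSimple) {V : Type} [Finite V] (M : CMap V) (hT : M.TEC)
    (hV : 3 ≤ Nat.card V) (S : Set V) (hS : S.ncard = 3) (hc : M.cut S ≤ 3) :
    ∀ x ∈ S, ∀ y ∈ S, x ≠ y → M.Adj x y := by
  classical
  haveI := Fintype.ofFinite V
  obtain ⟨hloop, hpar⟩ := hSimple V M hT hV
  intro x hx y hy hxy
  by_contra hadj
  -- in-degree
  let inn : V → Finset (Fin 3) := fun v => Finset.univ.filter fun t => (M.a (v, t)).1 ∈ S
  let out : V → Finset (Fin 3) := fun v => Finset.univ.filter fun t => (M.a (v, t)).1 ∉ S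
  have hio : ∀ v, (inn v).card + (out v).card = 3 := by
    intro v
    have := Finset.card_filter_add_card_filter_not (s := (Finset.univ : Finset (Fin 3)))
      (fun t => (M.a (v, t)).1 ∈ S)
    simpa [inn, out] using this
  have hcut : M.cut S = ∑ v ∈ S.toFinset, (out v).card := by
    rw [cut_eq_card]
    have : (Finset.univ.filter fun d : Dt V => d.1 ∈ S ∧ (M.a d).1 ∉ S) =
        (S.toFinset.sigma (fun v => out v)).map
          ⟨fun p : (_ : V) × Fin 3 => ((p.1, p.2) : Dt V), fun p q h => by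
            obtain ⟨a, b⟩ := p; obtain ⟨c, e⟩ := q
            simp only [Prod.mk.injEq] at h
            obtain ⟨rfl, rfl⟩ := h; rfl⟩ := by
      ext ⟨v, t⟩
      simp only [Finset.mem_filter, Finset.mem_univ, true_and, Finset.mem_map, Finset.mem_sigma,
        Set.mem_toFinset, Function.Embedding.coeFn_mk, Sigma.exists, Prod.mk.injEq, out]
      constructor
      · rintro ⟨h1, h2⟩; exact ⟨v, t, ⟨h1, h2⟩, rfl, rfl⟩
      · rintro ⟨v', t', ⟨h1, h2⟩, rfl, rfl⟩; exact ⟨h1, h2⟩
    rw [this, Finset.card_map, Finset.card_sigma]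
  have hSc : S.toFinset.card = 3 := by rw [← hS, Set.ncard_eq_toFinset_card']
  -- inn v injects into S \ {v}
  have hin : ∀ v, ∀ F : Finset V, (∀ t, (M.a (v, t)).1 ∈ S → (M.a (v, t)).1 ∈ F) →
      (inn v).card ≤ F.card := by
    intro v F hF
    refine Finset.card_le_card_of_injOn (fun t => (M.a (v, t)).1) ?_ ?_
    · intro t ht
      have := (Finset.mem_filter.1 ht).2
      exact hF t this
    · intro t _ t' _ h
      have := hpar (v, t) (v, t') rfl h
      exact congrArg Prod.snd this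
  have h1 : ∀ v ∈ S, (inn v).card ≤ 2 := by
    intro v hv
    have := hin v (S.toFinset.erase v) (fun t ht => by
      rw [Finset.mem_erase, Set.mem_toFinset]
      exact ⟨hloop (v, t), ht⟩)
    rw [Finset.card_erase_of_mem (by simpa using hv), hSc] at this
    omega
  have h2 : ∀ v ∈ S, ∀ w ∈ S, v ≠ w → ¬ M.Adj v w → (inn v).card ≤ 1 := by
    intro v hv w hw hvw hna
    have := hin v ((S.toFinset.erase v).erase w) (fun t ht => by
      rw [Finset.mem_erase, Finset.mem_erase, Set.mem_toFinset]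
      exact ⟨fun h => hna ⟨t, h⟩, hloop (v, t), ht⟩)
    rw [Finset.card_erase_of_mem (by
        rw [Finset.mem_erase, Set.mem_toFinset]; exact ⟨hvw.symm, hw⟩),
      Finset.card_erase_of_mem (by simpa using hv), hSc] at this
    omega
  have hna' : ¬ M.Adj y x := by
    rintro ⟨t, ht⟩
    exact hadj ⟨(M.a (y, t)).2, by
      have : (x, (M.a (y, t)).2) = M.a (y, t) := by rw [← ht]
      rw [this, M.inv]⟩
  have e1 := h2 x hx y hy hxy hadj
  have e2 := h2 y hy x hx hxy.symm hna'
  have e3 := hio x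
  have e4 := hio y
  have hsum : 5 ≤ ∑ v ∈ S.toFinset, (out v).card := by
    rw [← Finset.add_sum_erase S.toFinset _ (a := x) (by simpa using hx),
      ← Finset.add_sum_erase (S.toFinset.erase x) _ (a := y) (by
        rw [Finset.mem_erase, Set.mem_toFinset]; exact ⟨hxy.symm, hy⟩)]
    have hc1 : ((S.toFinset.erase x).erase y).card = 1 := by
      rw [Finset.card_erase_of_mem (by
        rw [Finset.mem_erase, Set.mem_toFinset]; exact ⟨hxy.symm, hy⟩),
      Finset.card_erase_of_mem (by simpa using hx), hSc]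
    obtain ⟨w, hw⟩ := Finset.card_eq_one.1 hc1
    rw [hw, Finset.sum_singleton]
    have hwS : w ∈ S := by
      have : w ∈ (S.toFinset.erase x).erase y := by rw [hw]; simp
      rw [Finset.mem_erase, Finset.mem_erase, Set.mem_toFinset] at this
      exact this.2.2
    have := h1 w hwS
    have := hio w
    omega
  omega

/-- Without triangular faces, all 3-edge-cuts are trivial as soon as none has two large sides. -/
theorem nt_of_nt5 (hCut : SpecCut) (hSimple : SpecSimple) (hJC3 : SpecJC3) {V : Type} [Finite V]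
    (M : CMap V) (hT : M.TEC) (hP : M.Plan) (hV : 4 ≤ Nat.card V) (h3 : ∀ d, M.ph^[3] d ≠ d)
    (h5 : M.NT5) : M.NT := by
  have key : ∀ S : Set V, M.cut S = 3 → S.ncard < 5 → S.ncard = 1 := by
    intro S hS hlt
    have hpar := (hCut V M S S).2.1
    rw [hS] at hpar
    by_contra h1
    have h3' : S.ncard = 3 := by omega
    have htri := tri3 hSimple M hT (by omega) S h3' (by omega)
    obtain ⟨x, y, z, hxy, hxz, hyz, rfl⟩ := Set.ncard_eq_three.1 h3'
    obtain ⟨i, hi⟩ := htri x (by simp) y (by simp) hxy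
    obtain ⟨j, hj⟩ := htri y (by simp) z (by simp) hyz
    obtain ⟨k, hk⟩ := htri z (by simp) x (by simp) hxz.symm
    rcases hJC3 V M hT hP hV (x, i) (y, j) (z, k) hi hj hk with ⟨e1, e2, e3⟩ | ⟨e1, e2, e3⟩
    · refine h3 (x, i) ?_
      simp only [Function.iterate_succ, Function.iterate_zero, Function.comp, id]
      rw [e1, e2, e3]
    · refine h3 (M.a (y, j)) ?_
      simp only [Function.iterate_succ, Function.iterate_zero, Function.comp, id]
      rw [e1, e3, e2]
  intro S hS
  have hSc : M.cut Sᶜ = 3 := by rw [(hCut V M S S).1, hS]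
  rcases h5 S hS with h | h
  · left; exact key S hS h
  · right; exact key Sᶜ hSc h

/-- The step for the reductions with two through edges. -/
theorem thr_step (hThrEx : SpecThrEx) (hThrTEC : SpecThrTEC) (hThrExt : SpecThrExt) {m : ℕ}
    (T : Tab m 4) (hS : SurT T) (hFin : FinThr T) (hPl : ThrPlan T) {V : Type} [Finite V]
    (M : CMap V) (hT : M.TEC) (hP : M.Plan) (ih : IH (Nat.card V)) (E : M.Emb T)
    (hE : M.CutA (Set.range E.x) E.b) (hm : 0 < m) (h4 : 4 + m < Nat.card V)
    (h8 : Nat.card V ≠ 8 + m) : M.Col := by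
  obtain ⟨M', hM'⟩ := hThrEx m T hS V M E
  have hc := card_compl_range E.x E.inj
  refine hThrExt m T hS hFin V M E M' hM' (ih _ M' ?_ ?_ ?_ ?_ ?_ ?_)
  · exact hThrTEC m T hS V M E M' hM' hT hE
  · exact hPl V M E M' hM' hP
  all_goals omega

theorem pent_step (hPentEx : SpecPentEx) (hPentTEC : SpecPentTEC) (hPentPlan : SpecPentPlan)
    {V : Type} [Finite V]
    (M : CMap V) (hT : M.TEC) (hP : M.Plan) (ih : IH (Nat.card V)) (E : M.Emb Tp)
    (hE : M.CutP (Set.range E.x) (E.b 0).1 (E.b 1).1) (h4 : 8 < Nat.card V)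
    (h8 : Nat.card V ≠ 12) :
    ∃ M' : CMap {v // v ∉ Set.range E.x ∨ v = E.x 3}, M.IsPent E M' ∧ M'.Col := by
  obtain ⟨M', hM'⟩ := hPentEx V M E
  have hc := card_pent E.x E.inj
  refine ⟨M', hM', ih _ M' ?_ ?_ ?_ ?_ ?_ ?_⟩
  · exact hPentTEC V M E M' hM' hT hE
  · exact hPentPlan V M E M' hM' hP
  all_goals omega

theorem surTsq : SurT Tsq := by unfold SurT; decide
theorem surTx4 : SurT Tx4 := by unfold SurT; decide
theorem surTx6 : SurT Tx6 := by unfold SurT; decide
theorem surTdA : SurT TdA := by unfold SurT; decide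
theorem surTdB : SurT TdB := by unfold SurT; decide

end Main

open Main CMap in
theorem specMain (hCut : SpecCut) (hSimple : SpecSimple) (hThrExt : SpecThrExt)
    (hPentExt53 : SpecPentExt53) (hPentExt54 : SpecPentExt54) (hFinThr : SpecFinThr)
    (hThrEx : SpecThrEx) (hThrTEC : SpecThrTEC) (hThrPlan : SpecThrPlan) (hPentEx : SpecPentEx)
    (hPentTEC : SpecPentTEC) (hPentPlan : SpecPentPlan) (hJC3 : SpecJC3) (hMir : SpecMir)
    (hDis : SpecDis) (hThree : SpecThree) (hSix : SpecSix) (hTwelve : SpecTwelve) (hX4 : SpecX4)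
    (hX6 : SpecX6) (hSq : SpecSq) (hDom : SpecDom) (hPair : SpecPair) : SpecMain := by
  have main : ∀ n : ℕ, ∀ (V : Type) [Finite V] (M : CMap V), Nat.card V = n → M.TEC → M.Plan →
      4 ≤ Nat.card V → Nat.card V ≠ 4 → Nat.card V ≠ 8 → M.Col := by
    intro n
    induction n using Nat.strong_induction_on with
    | _ n ihn =>
    intro V _ M hn hT hP h4 hn4 hn8
    have ih : IH (Nat.card V) := by
      intro W _ N h1 h2 h3 h4 h5 h6
      exact ihn (Nat.card W) (hn ▸ h6) W N rfl h1 h2 h3 h4 h5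
    have heven : Nat.card V % 2 = 0 := by
      have := (hCut V M Set.univ Set.univ).2.1
      rw [cut_univ, Set.ncard_univ] at this
      omega
    by_cases h5 : M.NT5
    swap
    · exact hThree V M hT hP ih h5
    by_cases h6 : Nat.card V = 6
    · exact (hSix V M hT hP h6).2
    have hgt : 8 < Nat.card V := by omega
    by_cases h3 : ∃ d, M.ph^[3] d = d
    · by_cases hall : ∀ v, ∃ t, M.ph^[3] (v, t) = (v, t)
      · obtain ⟨hdvd, E, hE⟩ := hX6 V M hT hP h5 hgt hall
        exact thr_step hThrEx hThrTEC hThrExt Tx6 surTx6 hFinThr.2.2.1 hThrPlan.2.2.1 M hT hP ih E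
          hE (by omega) (by omega) (by omega)
      · push Not at hall
        obtain ⟨v₀, hv₀⟩ := hall
        obtain ⟨d₀, hd₀⟩ := h3
        have hU := hT {v | ∃ t, M.ph^[3] (v, t) = (v, t)} ⟨d₀.1, d₀.2, hd₀⟩ (by
          intro h
          have : v₀ ∈ {v | ∃ t, M.ph^[3] (v, t) = (v, t)} := h ▸ Set.mem_univ _
          obtain ⟨t, ht⟩ := this
          exact hv₀ t ht)
        have hne : {d : Dt V | d.1 ∈ {v | ∃ t, M.ph^[3] (v, t) = (v, t)} ∧
            (M.a d).1 ∉ {v | ∃ t, M.ph^[3] (v, t) = (v, t)}}.Nonempty := by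
          refine Set.nonempty_of_ncard_ne_zero ?_
          unfold CMap.cut at hU
          omega
        obtain ⟨e, ⟨t, ht⟩, he2⟩ := hne
        have he2' : ∀ t, M.ph^[3] ((M.a e).1, t) ≠ ((M.a e).1, t) := fun t ht => he2 ⟨t, ht⟩
        set d' : Dt V := (e.1, t) with hd'
        have hfix : M.ph (M.ph (M.ph d')) = d' := ht
        have hr1 : e = rot d' := by
          rcases dart_cases (d := d') (d' := e) rfl with h | h | h
          · exfalso
            refine he2' (M.ph d').2 ?_
            have hp : ((M.a e).1, (M.ph d').2) = M.ph d' := by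
              rw [h]; rfl
            rw [hp]
            change M.ph (M.ph (M.ph (M.ph d'))) = M.ph d'
            rw [hfix]
          · exact h
          · exfalso
            have ha : M.a e = M.ph (M.ph d') := by
              apply M.ph_injective
              rw [hfix, h, M.ph_a, rot_rot_rot]
            refine he2' (M.a e).2 ?_
            change M.ph (M.ph (M.ph (M.a e))) = M.a e
            rw [ha, hfix]
        have hd2 : M.ph^[2] (M.ph d') = d' := hfix
        obtain ⟨E, hE⟩ := hX4 V M (M.ph d') hT hP h5 hgt (by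
          change M.ph (M.ph (M.ph (M.ph d'))) = M.ph d'
          rw [hfix]) (by
          rw [hd2, ← hr1]; exact he2')
        by_cases h12 : Nat.card V = 12
        · obtain ⟨M', hM'⟩ := hThrEx 4 Tx4 surTx4 V M E
          exact hTwelve V M E M' hT h12 hM' (hThrTEC 4 Tx4 surTx4 V M E M' hM' hT hE)
            (hThrPlan.2.1 V M E M' hM' hP)
        · exact thr_step hThrEx hThrTEC hThrExt Tx4 surTx4 hFinThr.2.1 hThrPlan.2.1 M hT hP ih E
            hE (by omega) (by omega) (by omega)
    · push Not at h3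
      have hNT := nt_of_nt5 hCut hSimple hJC3 M hT hP h4 h3 h5
      by_cases h4' : ∃ d, M.ph^[4] d = d
      · by_cases h12 : Nat.card V = 12
        · obtain ⟨d, hd1, hd2⟩ := (hDis V M hT hP h4).2.2.2.1 h3 h12
          rcases hDom V M d hT hP hNT (by omega) h3 hd1 hd2 with ⟨E, hE⟩ | ⟨E, hE⟩
          · exact thr_step hThrEx hThrTEC hThrExt TdA surTdA hFinThr.2.2.2.1 hThrPlan.2.2.2.1 M hT
              hP ih E hE (by omega) (by omega) (by omega)
          · exact thr_step hThrEx hThrTEC hThrExt TdB surTdB hFinThr.2.2.2.2 hThrPlan.2.2.2.2 M hT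
              hP ih E hE (by omega) (by omega) (by omega)
        · obtain ⟨d, hd⟩ := h4'
          obtain ⟨E, hE⟩ := hSq V M d hT hP hNT hgt h3 hd
          exact thr_step hThrEx hThrTEC hThrExt Tsq surTsq hFinThr.1 hThrPlan.1 M hT hP ih E
            hE (by omega) (by omega) (by omega)
      · push Not at h4'
        obtain ⟨h20, hd⟩ := (hDis V M hT hP h4).2.2.2.2 h3 h4'
        obtain ⟨N, hN, hE⟩ := hPair V M hT hP hNT hgt h3 h4' hd
        obtain ⟨m1, m2, m3, m4, m5⟩ := hMir V M
        have hNT' : N.TEC ∧ N.Plan ∧ (N.Col → M.Col) := by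
          rcases hN with rfl | rfl
          · exact ⟨hT, hP, id⟩
          · exact ⟨m1 hT, m2 hP, m3⟩
        refine hNT'.2.2 ?_
        rcases hE with ⟨E, hE⟩ | ⟨E, hE⟩
        · obtain ⟨M', hM', hcol⟩ := pent_step hPentEx hPentTEC hPentPlan N hNT'.1 hNT'.2.1 ih
            E.sub53 hE (by omega) (by omega)
          exact hPentExt53 V N E M' hNT'.2.1 hM' hcol
        · obtain ⟨M', hM', hcol⟩ := pent_step hPentEx hPentTEC hPentPlan N hNT'.1 hNT'.2.1 ih
            E.sub54 hE (by omega) (by omega)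
          exact hPentExt54 V N E M' hNT'.2.1 hM' hcol
  intro V _ M h1 h2 h3 h4 h5
  exact main (Nat.card V) V M rfl h1 h2 h3 h4 h5

end Acyc75
end

section
/-!
# MP_1e9f59_co : THR-PLAN and PENT-PLAN, planarity of the reduced maps
-/
set_option autoImplicit false

namespace Acyc75

namespace PlanRed

variable {V : Type}

/-- Planarity of a map on a part of the vertices. -/
theorem plan_sub (M : CMap V) (P : V → Prop) (M' : CMap {v // P v}) (hM : M.Plan)
    (H : ∀ C' : Dt {v // P v} → ZMod 2, M'.Ev C' → ∃ C : Dt V → ZMod 2, M.Ev C ∧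
      (∀ (v : V) (hv : P v) (t : Fin 3), C (v, t) = C' (⟨v, hv⟩, t)) ∧
      ∀ A : Dt V → ZMod 2, (∀ d, A (M.ph d) = A d) → (∀ d, A d + A (M.a d) = C d) →
        ∀ d : Dt {v // P v}, A (d.1.1, d.2) + A ((M'.a d).1.1, (M'.a d).2) = C' d) : M'.Plan := by
  intro C' hC'
  obtain ⟨C, hC, hCC, hA⟩ := H C' hC'
  obtain ⟨A, h1, h2⟩ := hM C hC
  have h3 := hA A h1 h2
  refine ⟨fun d => A (d.1.1, d.2), ?_, h3⟩
  intro d
  change A ((M'.ph d).1.1, (M'.ph d).2) = A (d.1.1, d.2)
  have h4 : (((M'.ph d).1.1, (M'.ph d).2) : Dt V) = rot ((M'.a d).1.1, (M'.a d).2) := rfl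
  rw [h4, CMap.pot_rot h1 h2]
  have h5 : C ((M'.a d).1.1, (M'.a d).2) = C' d := by
    rw [hCC _ (M'.a d).1.2]
    exact hC'.1 d
  rw [h5, ← h3 d]
  generalize A (d.1.1, d.2) = x
  generalize A ((M'.a d).1.1, (M'.a d).2) = y
  revert x y; decide

section ext

variable {M : CMap V} {m k : ℕ} {T : Tab m k} (E : M.Emb T)
  (F : ∀ v : V, v ∉ Set.range E.x → Fin 3 → ZMod 2) (e : Fin m → Fin 3 → ZMod 2)

open Classical in
/-- The chain which is given by `F` outside the configuration and by `e` on the configuration. -/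
noncomputable def ext : Dt V → ZMod 2 := fun d =>
  if h : d.1 ∈ Set.range E.x then e h.choose (d.2 - E.pos h.choose) else F d.1 h d.2

theorem ext_in (i : Fin m) (t : Fin 3) : ext E F e (E.x i, E.pos i + t) = e i t := by
  have h : E.x i ∈ Set.range E.x := ⟨i, rfl⟩
  unfold ext
  rw [dif_pos h]
  have h2 : h.choose = i := E.inj h.choose_spec
  rw [h2]
  change e i (E.pos i + t - E.pos i) = e i t
  rw [add_sub_cancel_left]

theorem ext_out (v : V) (hv : v ∉ Set.range E.x) (t : Fin 3) : ext E F e (v, t) = F v hv t := by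
  unfold ext
  rw [dif_neg hv]

theorem mem_range_cases (d : Dt V) (h : d.1 ∈ Set.range E.x) :
    ∃ i t, d = (E.x i, E.pos i + t) := by
  obtain ⟨i, hi⟩ := h
  refine ⟨i, d.2 - E.pos i, ?_⟩
  rw [add_sub_cancel]
  exact Prod.ext hi.symm rfl

/-- A dart outside whose reverse is inside is a boundary dart. -/
theorem exists_b (d : Dt V) (h1 : d.1 ∉ Set.range E.x) (h2 : (M.a d).1 ∈ Set.range E.x) :
    ∃ i t j, T i t = Sum.inr j ∧ M.a d = (E.x i, E.pos i + t) ∧ d = E.b j := by
  obtain ⟨i, t, hit⟩ := mem_range_cases E _ h2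
  have h3 := E.tgt i t
  rw [← hit, M.inv] at h3
  rcases hT : T i t with q | j
  · rw [hT] at h3
    exact absurd ⟨q.1, (congrArg Prod.fst h3).symm⟩ h1
  · rw [hT] at h3
    exact ⟨i, t, j, hT, hit, h3⟩

theorem ext_ev
    (H1 : ∀ (v : V) (hv : v ∉ Set.range E.x) (w : V) (hw : w ∉ Set.range E.x) (s t : Fin 3),
      M.a (v, s) = (w, t) → F w hw t = F v hv s)
    (H2 : ∀ i t, Sum.elim (fun q : Fin m × Fin 3 => e q.1 q.2)
      (fun j => F (E.b j).1 (E.out j) (E.b j).2) (T i t) = e i t)
    (H3 : ∀ (v : V) (hv : v ∉ Set.range E.x), F v hv 0 + F v hv 1 + F v hv 2 = 0)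
    (H4 : ∀ i, e i 0 + e i 1 + e i 2 = 0) : M.Ev (ext E F e) := by
  have key : ∀ i t, ext E F e (M.a (E.x i, E.pos i + t)) = ext E F e (E.x i, E.pos i + t) := by
    intro i t
    rw [ext_in, E.tgt, ← H2 i t]
    rcases hT : T i t with q | j
    · exact ext_in E F e q.1 q.2
    · exact ext_out E F e (E.b j).1 (E.out j) (E.b j).2
  refine ⟨?_, ?_⟩
  · intro d
    by_cases h : d.1 ∈ Set.range E.x
    · obtain ⟨i, t, rfl⟩ := mem_range_cases E d h
      exact key i t
    · by_cases h' : (M.a d).1 ∈ Set.range E.x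
      · obtain ⟨i, t, hit⟩ := mem_range_cases E _ h'
        have := key i t
        rw [← hit, M.inv] at this
        exact this.symm
      · obtain ⟨v, s⟩ := d
        have h1 := ext_out E F e (M.a (v, s)).1 h' (M.a (v, s)).2
        have h2 := ext_out E F e v h s
        rw [h2]
        exact h1.trans (H1 v h _ h' s _ rfl)
  · intro v
    by_cases h : v ∈ Set.range E.x
    · obtain ⟨i, rfl⟩ := h
      have h1 := sum_at (C := ext E F e) (E.x i, E.pos i + 0)
      have h2 : rot (E.x i, E.pos i + 0) = (E.x i, E.pos i + 1) := by simp [rot]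
      have h3 : rot (rot (E.x i, E.pos i + 0)) = (E.x i, E.pos i + 2) := by
        rw [h2]
        simp only [rot, add_assoc]
        rfl
      rw [h3, h2, ext_in, ext_in, ext_in, H4] at h1
      exact h1
    · rw [ext_out E F e v h, ext_out E F e v h, ext_out E F e v h]
      exact H3 v h

end ext

/-- The local potentials on the configuration. -/
theorem pot_local {M : CMap V} {m k : ℕ} {T : Tab m k} (E : M.Emb T) {A C : Dt V → ZMod 2}
    (hA : ∀ d, A (M.ph d) = A d) (hC : ∀ d, A d + A (M.a d) = C d) (e : Fin m → Fin 3 → ZMod 2)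
    (he : ∀ i t, C (E.x i, E.pos i + t) = e i t) :
    (∀ i t, A (E.x i, E.pos i + (t + 1)) = A (E.x i, E.pos i + t) + e i t) ∧
    ∀ i t, Sum.elim (fun q : Fin m × Fin 3 => A (E.x q.1, E.pos q.1 + q.2))
      (fun j => A (E.b j)) (T i t) = A (E.x i, E.pos i + t) + e i t := by
  constructor
  · intro i t
    rw [← he, ← CMap.pot_rot hA hC]
    simp only [rot, add_assoc]
  · intro i t
    rw [← he, ← CMap.pot_a hC, E.tgt]
    rcases T i t with q | j <;> rfl

/-- The finite statement behind THR-PLAN: `α`, `β` are the indicators of the two paths. -/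
structure PathCert {m : ℕ} (T : Tab m 4) (α β : Fin m → Fin 3 → ZMod 2) : Prop where
  eα : ∀ i t, Sum.elim (fun q : Fin m × Fin 3 => α q.1 q.2) (![1, 1, 0, 0] : Fin 4 → ZMod 2)
    (T i t) = α i t
  eβ : ∀ i t, Sum.elim (fun q : Fin m × Fin 3 => β q.1 q.2) (![0, 0, 1, 1] : Fin 4 → ZMod 2)
    (T i t) = β i t
  sα : ∀ i, α i 0 + α i 1 + α i 2 = 0
  sβ : ∀ i, β i 0 + β i 1 + β i 2 = 0
  pot : ∀ (a : Fin m → Fin 3 → ZMod 2) (B : Fin 4 → ZMod 2) (x y : ZMod 2),
    (∀ i t, a i (t + 1) = a i t + (x * α i t + y * β i t)) →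
    (∀ i t, Sum.elim (fun q : Fin m × Fin 3 => a q.1 q.2) B (T i t) =
      a i t + (x * α i t + y * β i t)) → B 0 + B 1 = x ∧ B 2 + B 3 = y

theorem thrPlan_of_cert {m : ℕ} {T : Tab m 4} {α β : Fin m → Fin 3 → ZMod 2}
    (h : PathCert T α β) : ThrPlan T := by
  intro V M E M' hM' hM
  refine plan_sub M _ M' hM fun C' hC' => ?_
  set F : ∀ v : V, v ∉ Set.range E.x → Fin 3 → ZMod 2 := fun v hv t => C' (⟨v, hv⟩, t) with hF
  set J : Fin 4 → ZMod 2 := fun j => C' (⟨(E.b j).1, E.out j⟩, (E.b j).2) with hJ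
  have hJsw : ∀ j, J (sw j) = J j := by
    intro j
    have h1 := hC'.1 (⟨(E.b j).1, E.out j⟩, (E.b j).2)
    rw [hM'.bd] at h1
    exact h1
  have hJ1 : J 1 = J 0 := hJsw 0
  have hJ3 : J 3 = J 2 := hJsw 2
  set e : Fin m → Fin 3 → ZMod 2 := fun i t => J 0 * α i t + J 2 * β i t with he
  have hJform : ∀ j, J j = J 0 * (![1, 1, 0, 0] : Fin 4 → ZMod 2) j +
      J 2 * (![0, 0, 1, 1] : Fin 4 → ZMod 2) j := by
    intro j
    fin_cases j
    · simp
    · simpa using hJ1
    · simp
    · simpa using hJ3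
  have hEv : M.Ev (ext E F e) := by
    refine ext_ev E F e ?_ ?_ ?_ ?_
    · intro v hv w hw s t hvw
      have h1 := hM'.int v w hv hw s t hvw
      have h2 := hC'.1 (⟨v, hv⟩, s)
      rw [h1] at h2
      exact h2
    · intro i t
      have h1 := h.eα i t
      have h2 := h.eβ i t
      rcases hT : T i t with q | j
      · rw [hT] at h1 h2
        simp only [Sum.elim_inl] at h1 h2 ⊢
        simp only [he]
        rw [h1, h2]
      · rw [hT] at h1 h2
        simp only [Sum.elim_inr] at h1 h2 ⊢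
        simp only [he]
        rw [← h1, ← h2]
        exact hJform j
    · intro v hv
      exact hC'.2 ⟨v, hv⟩
    · intro i
      simp only [he]
      have h1 := h.sα i
      have h2 := h.sβ i
      linear_combination J 0 * h1 + J 2 * h2
  refine ⟨ext E F e, hEv, fun v hv t => ext_out E F e v hv t, fun A hA hC d => ?_⟩
  obtain ⟨h1, h2⟩ := pot_local E hA hC e (ext_in E F e)
  obtain ⟨h3, h4⟩ := h.pot (fun i t => A (E.x i, E.pos i + t)) (fun j => A (E.b j)) (J 0) (J 2) h1 h2
  have h5 : ∀ j, A (E.b j) + A (E.b (sw j)) = J j := by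
    intro j
    fin_cases j
    · exact h3
    · change A (E.b 1) + A (E.b 0) = J 1
      rw [add_comm, hJ1]; exact h3
    · exact h4
    · change A (E.b 3) + A (E.b 2) = J 3
      rw [add_comm, hJ3]; exact h4
  obtain ⟨⟨v, hv⟩, t⟩ := d
  by_cases hin : (M.a (v, t)).1 ∈ Set.range E.x
  · obtain ⟨i, s, j, -, -, hb⟩ := exists_b E (v, t) hv hin
    have h6 : (((⟨v, hv⟩, t) : Dt {v // v ∉ Set.range E.x})) =
        (⟨(E.b j).1, E.out j⟩, (E.b j).2) := by
      ext
      · exact congrArg Prod.fst hb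
      · exact congrArg (fun z : Dt V => z.2.val) hb
    rw [h6, hM'.bd]
    exact h5 j
  · have h7 := hM'.int v (M.a (v, t)).1 hv hin t (M.a (v, t)).2 rfl
    rw [h7]
    change A (v, t) + A (M.a (v, t)) = C' (⟨v, hv⟩, t)
    rw [hC]
    exact ext_out E F e v hv t

end PlanRed

end Acyc75
end

section
/-!
# MP_1e9f59_co : PENT-PLAN, planarity of the map of the pentagon reduction
-/
set_option autoImplicit false

namespace Acyc75
namespace PlanRed

/-- The chain on the pentagon; `u, v, w, z` are the values at the boundary edges `0` (and `1`), `2`,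
`3`, `4`. -/
def pe (u v w z : ZMod 2) : Fin 5 → Fin 3 → ZMod 2 :=
  ![![u, u, 0], ![0, u, u], ![v, v, 0], ![z, w, v], ![0, z, z]]

theorem pe_T (u v w z : ZMod 2) : ∀ i t, Sum.elim (fun q : Fin 5 × Fin 3 => pe u v w z q.1 q.2)
    (![u, u, v, w, z] : Fin 5 → ZMod 2) (Tp i t) = pe u v w z i t := by
  revert u v w z; decide

theorem pe_sum (u v w z : ZMod 2) (h : v + w + z = 0) (i : Fin 5) :
    pe u v w z i 0 + pe u v w z i 1 + pe u v w z i 2 = 0 := by
  revert i h; revert u v w z; decide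

theorem pe_pot (u v w z : ZMod 2) (h : v + w + z = 0) (a : Fin 5 → Fin 3 → ZMod 2)
    (B : Fin 5 → ZMod 2) (h1 : ∀ i t, a i (t + 1) = a i t + pe u v w z i t)
    (h2 : ∀ i t, Sum.elim (fun q : Fin 5 × Fin 3 => a q.1 q.2) B (Tp i t) =
      a i t + pe u v w z i t) :
    B 0 + B 1 = u ∧ B 4 + a 3 0 = z ∧ B 3 + a 3 1 = w ∧ B 2 + a 3 2 = v := by
  have h00 := h1 0 0
  have h01 := h1 0 1
  have h10 := h1 1 0
  have h11 := h1 1 1
  have h20 := h1 2 0
  have h21 := h1 2 1
  have h30 := h1 3 0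
  have h31 := h1 3 1
  have h40 := h1 4 0
  have h41 := h1 4 1
  have g00 := h2 0 0
  have g01 := h2 0 1
  have g02 := h2 0 2
  have g10 := h2 1 0
  have g11 := h2 1 1
  have g12 := h2 1 2
  have g20 := h2 2 0
  have g21 := h2 2 1
  have g22 := h2 2 2
  have g30 := h2 3 0
  have g31 := h2 3 1
  have g32 := h2 3 2
  have g40 := h2 4 0
  have g41 := h2 4 1
  have g42 := h2 4 2
  simp [Tp, pe] at h00 h01 h10 h11 h20 h21 h30 h31 h40 h41 g00 g01 g02 g10 g11 g12 g20 g21 g22 g30 g31 g32 g40 g41 g42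
  clear h1 h2
  grind

end PlanRed

open PlanRed in
/-- PENT-PLAN. -/
theorem specPentPlan : SpecPentPlan := by
  intro V M E M' hM' hM
  refine plan_sub M _ M' hM fun C' hC' => ?_
  set F : ∀ v : V, v ∉ Set.range E.x → Fin 3 → ZMod 2 :=
    fun v hv t => C' (⟨v, Or.inl hv⟩, t) with hF
  set J : Fin 5 → ZMod 2 := fun j => C' (⟨(E.b j).1, Or.inl (E.out j)⟩, (E.b j).2) with hJ
  have hJ1 : J 1 = J 0 := by
    have h1 := hC'.1 (⟨(E.b 0).1, Or.inl (E.out 0)⟩, (E.b 0).2)
    rw [hM'.b01] at h1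
    exact h1
  have hJ4 : C' (⟨E.x 3, Or.inr rfl⟩, E.pos 3) = J 4 := by
    have h1 := hC'.1 (⟨(E.b 4).1, Or.inl (E.out 4)⟩, (E.b 4).2)
    rw [hM'.b4] at h1
    exact h1
  have hJ3 : C' (⟨E.x 3, Or.inr rfl⟩, E.pos 3 + 1) = J 3 := by
    have h1 := hC'.1 (⟨(E.b 3).1, Or.inl (E.out 3)⟩, (E.b 3).2)
    rw [hM'.b3] at h1
    exact h1
  have hJ2 : C' (⟨E.x 3, Or.inr rfl⟩, E.pos 3 + 2) = J 2 := by
    have h1 := hC'.1 (⟨(E.b 2).1, Or.inl (E.out 2)⟩, (E.b 2).2)
    rw [hM'.b2] at h1
    exact h1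
  have hsum : J 2 + J 3 + J 4 = 0 := by
    have h1 := hC'.sum (⟨E.x 3, Or.inr rfl⟩, E.pos 3)
    have h2 : rot (((⟨E.x 3, Or.inr rfl⟩ : {v // v ∉ Set.range E.x ∨ v = E.x 3}), E.pos 3)) =
        (⟨E.x 3, Or.inr rfl⟩, E.pos 3 + 1) := rfl
    have h3 : rot (((⟨E.x 3, Or.inr rfl⟩ : {v // v ∉ Set.range E.x ∨ v = E.x 3}), E.pos 3 + 1)) =
        (⟨E.x 3, Or.inr rfl⟩, E.pos 3 + 2) := by
      simp only [rot, add_assoc]
      rfl
    rw [h2, h3, hJ4, hJ3, hJ2] at h1
    rw [← h1]; ring
  set e : Fin 5 → Fin 3 → ZMod 2 := pe (J 0) (J 2) (J 3) (J 4) with he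
  have hJform : ∀ j, J j = (![J 0, J 0, J 2, J 3, J 4] : Fin 5 → ZMod 2) j := by
    intro j
    fin_cases j
    · rfl
    · exact hJ1
    · rfl
    · rfl
    · rfl
  have hEv : M.Ev (ext E F e) := by
    refine ext_ev E F e ?_ ?_ ?_ ?_
    · intro v hv w hw s t hvw
      have h1 := hM'.int v w hv hw s t hvw
      have h2 := hC'.1 (⟨v, Or.inl hv⟩, s)
      rw [h1] at h2
      exact h2
    · intro i t
      have h1 := pe_T (J 0) (J 2) (J 3) (J 4) i t
      rcases hT : Tp i t with q | j
      · rw [hT] at h1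
        exact h1
      · rw [hT] at h1
        simp only [Sum.elim_inr] at h1 ⊢
        rw [he, ← h1]
        exact hJform j
    · intro v hv
      exact hC'.2 ⟨v, Or.inl hv⟩
    · intro i
      exact pe_sum _ _ _ _ hsum i
  have hx3 : ∀ t, ext E F e (E.x 3, t) = C' (⟨E.x 3, Or.inr rfl⟩, t) := by
    intro t
    obtain ⟨s, rfl⟩ : ∃ s, t = E.pos 3 + s := ⟨t - E.pos 3, by rw [add_sub_cancel]⟩
    rw [ext_in]
    fin_cases s
    · change J 4 = C' (⟨E.x 3, Or.inr rfl⟩, E.pos 3 + 0)
      rw [add_zero]; exact hJ4.symm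
    · exact hJ3.symm
    · exact hJ2.symm
  refine ⟨ext E F e, hEv, ?_, fun A hA hC => ?_⟩
  · intro v hv t
    by_cases h : v ∉ Set.range E.x
    · exact ext_out E F e v h t
    · have h3 : v = E.x 3 := hv.resolve_left h
      subst h3
      exact hx3 t
  obtain ⟨h1, h2⟩ := pot_local E hA hC e (ext_in E F e)
  obtain ⟨k0, k4, k3, k2⟩ := pe_pot (J 0) (J 2) (J 3) (J 4) hsum
    (fun i t => A (E.x i, E.pos i + t)) (fun j => A (E.b j)) h1 h2
  simp only [add_zero] at k4
  have main : ∀ d : Dt {v // v ∉ Set.range E.x ∨ v = E.x 3}, d.1.1 ∉ Set.range E.x →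
      A (d.1.1, d.2) + A ((M'.a d).1.1, (M'.a d).2) = C' d := by
    rintro ⟨⟨v, hv'⟩, t⟩ hv
    change v ∉ Set.range E.x at hv
    by_cases hin : (M.a (v, t)).1 ∈ Set.range E.x
    · obtain ⟨i, s, j, -, -, hb⟩ := exists_b E (v, t) hv hin
      have h6 : (((⟨v, hv'⟩, t) : Dt {v // v ∉ Set.range E.x ∨ v = E.x 3})) =
          (⟨(E.b j).1, Or.inl (E.out j)⟩, (E.b j).2) := by
        ext
        · exact congrArg Prod.fst hb
        · exact congrArg (fun z : Dt V => z.2.val) hb
      rw [h6]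
      fin_cases j
      · change A (E.b 0) + A ((M'.a (⟨(E.b 0).1, Or.inl (E.out 0)⟩, (E.b 0).2)).1.1,
          (M'.a (⟨(E.b 0).1, Or.inl (E.out 0)⟩, (E.b 0).2)).2) = J 0
        rw [hM'.b01]
        exact k0
      · change A (E.b 1) + A ((M'.a (⟨(E.b 1).1, Or.inl (E.out 1)⟩, (E.b 1).2)).1.1,
          (M'.a (⟨(E.b 1).1, Or.inl (E.out 1)⟩, (E.b 1).2)).2) = J 1
        have h7 : M'.a (⟨(E.b 1).1, Or.inl (E.out 1)⟩, (E.b 1).2) =
            (⟨(E.b 0).1, Or.inl (E.out 0)⟩, (E.b 0).2) := by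
          rw [← hM'.b01, M'.inv]
        rw [h7, hJ1, add_comm]
        exact k0
      · change A (E.b 2) + A ((M'.a (⟨(E.b 2).1, Or.inl (E.out 2)⟩, (E.b 2).2)).1.1,
          (M'.a (⟨(E.b 2).1, Or.inl (E.out 2)⟩, (E.b 2).2)).2) = J 2
        rw [hM'.b2]
        exact k2
      · change A (E.b 3) + A ((M'.a (⟨(E.b 3).1, Or.inl (E.out 3)⟩, (E.b 3).2)).1.1,
          (M'.a (⟨(E.b 3).1, Or.inl (E.out 3)⟩, (E.b 3).2)).2) = J 3
        rw [hM'.b3]
        exact k3
      · change A (E.b 4) + A ((M'.a (⟨(E.b 4).1, Or.inl (E.out 4)⟩, (E.b 4).2)).1.1,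
          (M'.a (⟨(E.b 4).1, Or.inl (E.out 4)⟩, (E.b 4).2)).2) = J 4
        rw [hM'.b4]
        exact k4
    · have h7 := hM'.int v (M.a (v, t)).1 hv hin t (M.a (v, t)).2 rfl
      change A (v, t) + A ((M'.a (⟨v, Or.inl hv⟩, t)).1.1, (M'.a (⟨v, Or.inl hv⟩, t)).2) =
        C' (⟨v, Or.inl hv⟩, t)
      rw [h7]
      change A (v, t) + A (M.a (v, t)) = C' (⟨v, Or.inl hv⟩, t)
      rw [hC]
      exact ext_out E F e v hv t
  -- the darts at `x 3` are the reverses of `b 4`, `b 3`, `b 2`
  intro d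
  by_cases hd : d.1.1 ∈ Set.range E.x
  swap
  · exact main d hd
  obtain ⟨⟨v, hv⟩, t⟩ := d
  have h3 : v = E.x 3 := hv.resolve_left (fun h => h hd)
  subst h3
  have hout : (M'.a (⟨E.x 3, hv⟩, t)).1.1 ∉ Set.range E.x := by
    obtain ⟨s, rfl⟩ : ∃ s, t = E.pos 3 + s := ⟨t - E.pos 3, by rw [add_sub_cancel]⟩
    fin_cases s
    · have h8 : M'.a (⟨E.x 3, hv⟩, E.pos 3 + 0) = (⟨(E.b 4).1, Or.inl (E.out 4)⟩, (E.b 4).2) := by
        rw [add_zero, ← hM'.b4, M'.inv]
      change (M'.a (⟨E.x 3, hv⟩, E.pos 3 + 0)).1.1 ∉ Set.range E.x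
      rw [h8]
      exact E.out 4
    · have h8 : M'.a (⟨E.x 3, hv⟩, E.pos 3 + 1) = (⟨(E.b 3).1, Or.inl (E.out 3)⟩, (E.b 3).2) := by
        rw [← hM'.b3, M'.inv]
      change (M'.a (⟨E.x 3, hv⟩, E.pos 3 + 1)).1.1 ∉ Set.range E.x
      rw [h8]
      exact E.out 3
    · have h8 : M'.a (⟨E.x 3, hv⟩, E.pos 3 + 2) = (⟨(E.b 2).1, Or.inl (E.out 2)⟩, (E.b 2).2) := by
        rw [← hM'.b2, M'.inv]
      change (M'.a (⟨E.x 3, hv⟩, E.pos 3 + 2)).1.1 ∉ Set.range E.x
      rw [h8]
      exact E.out 2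
  have h9 := main _ hout
  rw [M'.inv] at h9
  rw [add_comm, h9]
  exact hC'.1 _

end Acyc75
end

section
/-!
# MP_1e9f59_co : TJOIN and STATE
-/
set_option autoImplicit false

namespace Acyc75

open CMap

theorem specTJoin : SpecTJoin := by
  classical
  intro V _ M R hR u hu w hw
  set U : Set V := {x | Relation.ReflTransGen (M.Step R) u x} with hU
  have hUR : U ⊆ R := fun x hx => (M.reach_symm hu hx).1
  have hUeq : U = R := by
    by_contra hne
    obtain ⟨d, hd1, hd2⟩ := hR U hUR ⟨u, Relation.ReflTransGen.refl⟩ hne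
    exact hd2.2 (Relation.ReflTransGen.tail hd1 ⟨hd2.1, d, rfl, rfl⟩)
  have hwU : w ∈ U := by rw [hUeq]; exact hw
  obtain ⟨C, h1, h2, h3⟩ := M.pathChain R hu hwU
  refine ⟨C, h1, h2, fun v => ?_⟩
  rw [h3 v]
  simp only [Set.indicator_apply, Set.mem_singleton_iff]

namespace State

variable {V : Type} {M : CMap V} {X : Set V} {k : ℕ} {b : Fin k → Dt V} {f : V → Fin 3}
  {p : Fin 3}

theorem E_zero : M.E X b f p (fun _ => 0) :=
  ⟨fun _ => 0, ⟨fun _ _ _ => rfl, fun _ _ => by simp⟩, fun _ _ h => absurd rfl h, fun _ => rfl⟩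

theorem E_add {J J' : Fin k → ZMod 2} (h : M.E X b f p J) (h' : M.E X b f p J') :
    M.E X b f p (fun i => J i + J' i) := by
  obtain ⟨C, h1, h2, h3⟩ := h
  obtain ⟨C', h1', h2', h3'⟩ := h'
  refine ⟨fun d => C d + C' d, ⟨fun d hd hd' => ?_, fun v hv => ?_⟩, fun d hd hne => ?_,
    fun i => ?_⟩
  · change C (M.a d) + C' (M.a d) = C d + C' d
    rw [h1.1 d hd hd', h1'.1 d hd hd']
  · have e1 := h1.2 v hv
    have e2 := h1'.2 v hv
    change C (v, 0) + C' (v, 0) + (C (v, 1) + C' (v, 1)) + (C (v, 2) + C' (v, 2)) = 0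
    calc _ = (C (v, 0) + C (v, 1) + C (v, 2)) + (C' (v, 0) + C' (v, 1) + C' (v, 2)) := by ring
      _ = 0 := by rw [e1, e2, add_zero]
  · change C d + C' d ≠ 0 at hne
    by_cases hc : C d = 0
    · exact h2' d hd (fun h => hne (by rw [hc, h, add_zero]))
    · exact h2 d hd hc
  · change C (b i) + C' (b i) = _
    rw [h3, h3']

theorem E_sum {ι : Type} (s : Finset ι) (J : ι → Fin k → ZMod 2)
    (h : ∀ i ∈ s, M.E X b f p (J i)) : M.E X b f p (fun j => ∑ i ∈ s, J i j) := by
  classical
  induction s using Finset.induction_on with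
  | empty => simpa using (E_zero (M := M) (X := X) (b := b) (f := f) (p := p))
  | insert a s ha ih =>
    have := E_add (h a (Finset.mem_insert_self _ _))
      (ih fun i hi => h i (Finset.mem_insert_of_mem hi))
    simpa only [Finset.sum_insert ha] using this

/-- the part of the outside which may be used -/
def RR (X : Set V) (f : V → Fin 3) (p : Fin 3) : Set V := {v | v ∉ X ∧ f v ≠ p}

/-- the relation of the boundary darts -/
def rel (M : CMap V) (X : Set V) (b : Fin k → Dt V) (f : V → Fin 3) (p : Fin 3) (i j : Fin k) :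
    Prop :=
  i = j ∨ ((b i).1 ∈ RR X f p ∧ Relation.ReflTransGen (M.Step (RR X f p)) (b i).1 (b j).1)

theorem rel_equiv : Equivalence (rel M X b f p) where
  refl i := Or.inl rfl
  symm := by
    rintro i j (h | ⟨h1, h2⟩)
    · exact Or.inl h.symm
    · exact Or.inr (M.reach_symm h1 h2)
  trans := by
    rintro i j l (h | ⟨h1, h2⟩) (h' | ⟨h1', h2'⟩)
    · exact Or.inl (h.trans h')
    · subst h; exact Or.inr ⟨h1', h2'⟩
    · subst h'; exact Or.inr ⟨h1, h2⟩
    · exact Or.inr ⟨h1, h2.trans h2'⟩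

/-- two equivalent boundary darts are joined by a chain -/
theorem E_pair [Finite V] (hb : M.Bdry X b) {i j : Fin k} (hi : (b i).1 ∈ RR X f p)
    (h : Relation.ReflTransGen (M.Step (RR X f p)) (b i).1 (b j).1) :
    M.E X b f p (fun l => ei i l + ei j l) := by
  classical
  obtain ⟨C, h1, h2, h3⟩ := M.pathChain (RR X f p) hi h
  have hj : (b j).1 ∈ RR X f p := (M.reach_symm hi h).1
  have hX : ∀ i, (M.a (b i)).1 ∈ X := fun i => ((hb.2 (b i)).2 ⟨i, rfl⟩).2
  refine ⟨fun d => C d + ((if d = b i then 1 else 0) + (if d = b j then 1 else 0)),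
    ⟨fun d hd hd' => ?_, fun v hv => ?_⟩, fun d hd hne => ?_, fun l => ?_⟩
  · have e1 : ∀ l, d ≠ b l := fun l hl => hd' (by rw [hl]; exact hX l)
    have e2 : ∀ l, M.a d ≠ b l := fun l hl => hd (by
      have := hX l
      rwa [← hl, M.inv] at this)
    change C (M.a d) + ((if M.a d = b i then 1 else 0) + (if M.a d = b j then 1 else 0)) =
      C d + ((if d = b i then 1 else 0) + (if d = b j then 1 else 0))
    rw [if_neg (e1 i), if_neg (e1 j), if_neg (e2 i), if_neg (e2 j), h1]
  · have e1 := h3 v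
    have e2 := single_sum (b i) v
    have e3 := single_sum (b j) v
    change C (v, 0) + ((if (v, (0 : Fin 3)) = b i then 1 else 0) +
      (if (v, (0 : Fin 3)) = b j then 1 else 0)) + (C (v, 1) +
      ((if (v, (1 : Fin 3)) = b i then 1 else 0) + (if (v, (1 : Fin 3)) = b j then 1 else 0))) +
      (C (v, 2) + ((if (v, (2 : Fin 3)) = b i then 1 else 0) +
      (if (v, (2 : Fin 3)) = b j then 1 else 0))) = 0
    calc _ = (C (v, 0) + C (v, 1) + C (v, 2)) +
          (((if (v, (0 : Fin 3)) = b i then 1 else 0) + (if (v, (1 : Fin 3)) = b i then 1 else 0) +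
          (if (v, (2 : Fin 3)) = b i then 1 else 0)) +
          ((if (v, (0 : Fin 3)) = b j then 1 else 0) + (if (v, (1 : Fin 3)) = b j then 1 else 0) +
          (if (v, (2 : Fin 3)) = b j then 1 else 0))) := by ring
      _ = 0 := by
        rw [e1, e2, e3]
        exact zmod2_add_self _
  · change C d + ((if d = b i then 1 else 0) + (if d = b j then 1 else 0)) ≠ 0 at hne
    by_cases hc : C d = 0
    · by_cases hdi : d = b i
      · rw [hdi]; exact hi.2
      · by_cases hdj : d = b j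
        · rw [hdj]; exact hj.2
        · exact absurd (by rw [hc, if_neg hdi, if_neg hdj]; simp) hne
    · exact (h2 d hc).1.2
  · have e0 : C (b l) = 0 := by
      by_contra hc
      exact (h2 _ hc).2.1 (hX l)
    change C (b l) + ((if b l = b i then 1 else 0) + (if b l = b j then 1 else 0)) = _
    rw [e0, zero_add]
    simp only [hb.1.eq_iff, ei, Pi.single_apply]

theorem main [Finite V] (hb : M.Bdry X b) :
    ∃ L : Fin k → Fin k, ∀ J : Fin k → ZMod 2, M.E X b f p J ↔
      (∀ i, J i ≠ 0 → f (b i).1 ≠ p) ∧ ∀ l, (∑ i, if L i = l then J i else 0) = 0 := by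
  classical
  have := Fintype.ofFinite V
  let s : Setoid (Fin k) := ⟨rel M X b f p, rel_equiv⟩
  let L : Fin k → Fin k := fun i => (Quotient.mk s i).out
  have hL1 : ∀ i, rel M X b f p (L i) i := fun i => Quotient.exact (Quotient.out_eq (Quotient.mk s i))
  have hL2 : ∀ i j, L i = L j ↔ rel M X b f p i j := by
    intro i j
    constructor
    · intro h
      have h1 := hL1 i
      rw [h] at h1
      exact rel_equiv.trans (rel_equiv.symm h1) (hL1 j)
    · intro h
      exact congrArg Quotient.out (Quotient.sound h : Quotient.mk s i = Quotient.mk s j)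
  have hbX : ∀ i, (b i).1 ∉ X := fun i => ((hb.2 (b i)).2 ⟨i, rfl⟩).1
  refine ⟨L, fun J => ⟨?_, ?_⟩⟩
  · rintro ⟨C, hC1, hC2, hC3⟩
    have hfirst : ∀ i, J i ≠ 0 → f (b i).1 ≠ p := fun i hi =>
      hC2 (b i) (hbX i) (by rw [hC3]; exact hi)
    refine ⟨hfirst, fun l => ?_⟩
    by_cases hl : ∃ i0, L i0 = l
    · obtain ⟨i0, rfl⟩ := hl
      by_cases h0 : (b i0).1 ∈ RR X f p
      · set U : Set V := {x | Relation.ReflTransGen (M.Step (RR X f p)) (b i0).1 x} with hU
        have hUR : U ⊆ RR X f p := fun x hx => (M.reach_symm h0 hx).1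
        have hpar := M.par U C (fun d hd hd' => hC1.1 d (hUR hd).1 (hUR hd').1)
          (fun v hv => hC1.2 v (hUR hv).1)
        have himg : ∑ d : Dt V with (d.1 ∈ U ∧ (M.a d).1 ∉ U), C d =
            ∑ d ∈ (Finset.univ.filter fun i => (b i).1 ∈ U).image b, C d := by
          symm
          apply Finset.sum_subset_zero_on_sdiff
          · intro d hd
            simp only [Finset.mem_image, Finset.mem_filter, Finset.mem_univ, true_and] at hd ⊢
            obtain ⟨i, hi, rfl⟩ := hd
            exact ⟨hi, fun h => (hUR h).1 ((hb.2 (b i)).2 ⟨i, rfl⟩).2⟩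
          · intro d hd
            simp only [Finset.mem_sdiff, Finset.mem_image, Finset.mem_filter, Finset.mem_univ,
              true_and, not_exists, not_and] at hd
            obtain ⟨⟨hd1, hd2⟩, hd3⟩ := hd
            have hax : (M.a d).1 ∉ X := by
              intro hax
              obtain ⟨i, hi⟩ := (hb.2 d).1 ⟨(hUR hd1).1, hax⟩
              exact hd3 i (by rw [hi]; exact hd1) hi
            by_contra hc
            have hc' : C (M.a d) ≠ 0 := by rw [hC1.1 d (hUR hd1).1 hax]; exact hc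
            exact hd2 (Relation.ReflTransGen.tail hd1 ⟨⟨hax, hC2 _ hax hc'⟩, d, rfl, rfl⟩)
          · intro d _; rfl
        rw [himg, Finset.sum_image (fun i _ j _ h => hb.1 h)] at hpar
        rw [← Finset.sum_filter]
        have hfil : (Finset.univ.filter fun i => L i = L i0) =
            Finset.univ.filter fun i => (b i).1 ∈ U := by
          ext i
          simp only [Finset.mem_filter, Finset.mem_univ, true_and]
          rw [hL2]
          constructor
          · intro h
            rcases rel_equiv.symm h with h | h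
            · subst h; exact Relation.ReflTransGen.refl
            · exact h.2
          · intro h
            exact rel_equiv.symm (Or.inr ⟨h0, h⟩)
        rw [hfil, ← hpar]
        exact Finset.sum_congr rfl fun i _ => (hC3 i).symm
      · have hJ0 : J i0 = 0 := by
          by_contra hne
          exact h0 ⟨hbX i0, hfirst i0 hne⟩
        apply Finset.sum_eq_zero
        intro i _
        by_cases h : L i = L i0
        · rw [if_pos h]
          rw [hL2] at h
          rcases rel_equiv.symm h with h | h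
          · rw [← h]; exact hJ0
          · exact absurd h.1 h0
        · rw [if_neg h]
    · apply Finset.sum_eq_zero
      intro i _
      rw [if_neg (fun h => hl ⟨i, h⟩)]
  · rintro ⟨hJ1, hJ2⟩
    have key := E_sum (M := M) (X := X) (b := b) (f := f) (p := p)
      (Finset.univ.filter fun i => J i ≠ 0) (fun i j => ei i j + ei (L i) j) (by
        intro i hi
        simp only [Finset.mem_filter, Finset.mem_univ, true_and] at hi
        rcases rel_equiv.symm (hL1 i) with h | h
        · have : (fun l => ei i l + ei (L i) l) = fun _ => (0 : ZMod 2) := by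
            funext l
            rw [← h]
            exact zmod2_add_self _
          rw [this]
          exact E_zero
        · exact E_pair hb h.1 h.2)
    convert key using 1
    funext j
    rw [Finset.sum_add_distrib]
    have e1 : ∑ i with J i ≠ 0, ei i j = J j := by
      simp only [ei, Pi.single_apply]
      rw [Finset.sum_ite_eq]
      by_cases h : J j = 0
      · simp [h]
      · rw [if_pos (by simpa using h)]
        exact (zmod2_ne_zero.1 h).symm
    have e2 : ∑ i with J i ≠ 0, ei (L i) j = 0 := by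
      refine Eq.trans ?_ (hJ2 j)
      rw [Finset.sum_filter]
      apply Finset.sum_congr rfl
      intro i _
      by_cases h : J i = 0
      · simp [h]
      · rw [if_pos h]
        simp only [ei, Pi.single_apply]
        by_cases h' : L i = j
        · rw [if_pos h'.symm, if_pos h']
          exact (zmod2_ne_zero.1 h).symm
        · rw [if_neg (fun h'' => h' h''.symm), if_neg h']
    rw [e1, e2, add_zero]

end State

theorem specState : SpecState := fun _ _ _ _ _ _ _ _ hb => State.main hb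

end Acyc75
end

section
/-!
# MP_1e9f59_co : THR-PLAN, the five tables
-/
set_option autoImplicit false

namespace Acyc75
namespace PlanRed

theorem certSq : PathCert Tsq ![![1,1,0],![0,1,1],![0,0,0],![0,0,0]]
    ![![0,0,0],![0,0,0],![1,1,0],![0,1,1]] where
  eα := by decide
  eβ := by decide
  sα := by decide
  sβ := by decide
  pot := by
    intro a B x y h1 h2
    have h00 := h1 0 0
    have h01 := h1 0 1
    have g00 := h2 0 0
    have g01 := h2 0 1
    have g02 := h2 0 2
    have h10 := h1 1 0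
    have h11 := h1 1 1
    have g10 := h2 1 0
    have g11 := h2 1 1
    have g12 := h2 1 2
    have h20 := h1 2 0
    have h21 := h1 2 1
    have g20 := h2 2 0
    have g21 := h2 2 1
    have g22 := h2 2 2
    have h30 := h1 3 0
    have h31 := h1 3 1
    have g30 := h2 3 0
    have g31 := h2 3 1
    have g32 := h2 3 2
    simp [Tsq] at h00 h01 g00 g01 g02 h10 h11 g10 g11 g12 h20 h21 g20 g21 g22 h30 h31 g30 g31 g32
    clear h1 h2
    grind

theorem certX4 : PathCert Tx4 ![![1,1,0],![0,1,1],![0,0,0],![0,0,0]]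
    ![![0,0,0],![0,0,0],![0,0,0],![0,1,1]] where
  eα := by decide
  eβ := by decide
  sα := by decide
  sβ := by decide
  pot := by
    intro a B x y h1 h2
    have h00 := h1 0 0
    have h01 := h1 0 1
    have g00 := h2 0 0
    have g01 := h2 0 1
    have g02 := h2 0 2
    have h10 := h1 1 0
    have h11 := h1 1 1
    have g10 := h2 1 0
    have g11 := h2 1 1
    have g12 := h2 1 2
    have h20 := h1 2 0
    have h21 := h1 2 1
    have g20 := h2 2 0
    have g21 := h2 2 1
    have g22 := h2 2 2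
    have h30 := h1 3 0
    have h31 := h1 3 1
    have g30 := h2 3 0
    have g31 := h2 3 1
    have g32 := h2 3 2
    simp [Tx4] at h00 h01 g00 g01 g02 h10 h11 g10 g11 g12 h20 h21 g20 g21 g22 h30 h31 g30 g31 g32
    clear h1 h2
    grind

theorem certX6 : PathCert Tx6 ![![1,1,0],![0,1,1],![0,0,0],![0,0,0],![0,0,0],![0,0,0]]
    ![![0,0,0],![0,0,0],![0,0,0],![1,1,0],![0,1,1],![0,0,0]] where
  eα := by decide
  eβ := by decide
  sα := by decide
  sβ := by decide
  pot := by
    intro a B x y h1 h2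
    have h00 := h1 0 0
    have h01 := h1 0 1
    have g00 := h2 0 0
    have g01 := h2 0 1
    have g02 := h2 0 2
    have h10 := h1 1 0
    have h11 := h1 1 1
    have g10 := h2 1 0
    have g11 := h2 1 1
    have g12 := h2 1 2
    have h20 := h1 2 0
    have h21 := h1 2 1
    have g20 := h2 2 0
    have g21 := h2 2 1
    have g22 := h2 2 2
    have h30 := h1 3 0
    have h31 := h1 3 1
    have g30 := h2 3 0
    have g31 := h2 3 1
    have g32 := h2 3 2
    have h40 := h1 4 0
    have h41 := h1 4 1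
    have g40 := h2 4 0
    have g41 := h2 4 1
    have g42 := h2 4 2
    have h50 := h1 5 0
    have h51 := h1 5 1
    have g50 := h2 5 0
    have g51 := h2 5 1
    have g52 := h2 5 2
    simp [Tx6] at h00 h01 g00 g01 g02 h10 h11 g10 g11 g12 h20 h21 g20 g21 g22 h30 h31 g30 g31 g32 h40 h41 g40 g41 g42 h50 h51 g50 g51 g52
    clear h1 h2
    grind

theorem certDA : PathCert TdA ![![0,0,0],![0,0,0],![1,1,0],![0,1,1],![0,0,0],![0,0,0]]
    ![![0,0,0],![0,0,0],![0,0,0],![0,0,0],![1,1,0],![0,1,1]] where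
  eα := by decide
  eβ := by decide
  sα := by decide
  sβ := by decide
  pot := by
    intro a B x y h1 h2
    have h00 := h1 0 0
    have h01 := h1 0 1
    have g00 := h2 0 0
    have g01 := h2 0 1
    have g02 := h2 0 2
    have h10 := h1 1 0
    have h11 := h1 1 1
    have g10 := h2 1 0
    have g11 := h2 1 1
    have g12 := h2 1 2
    have h20 := h1 2 0
    have h21 := h1 2 1
    have g20 := h2 2 0
    have g21 := h2 2 1
    have g22 := h2 2 2
    have h30 := h1 3 0
    have h31 := h1 3 1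
    have g30 := h2 3 0
    have g31 := h2 3 1
    have g32 := h2 3 2
    have h40 := h1 4 0
    have h41 := h1 4 1
    have g40 := h2 4 0
    have g41 := h2 4 1
    have g42 := h2 4 2
    have h50 := h1 5 0
    have h51 := h1 5 1
    have g50 := h2 5 0
    have g51 := h2 5 1
    have g52 := h2 5 2
    simp [TdA] at h00 h01 g00 g01 g02 h10 h11 g10 g11 g12 h20 h21 g20 g21 g22 h30 h31 g30 g31 g32 h40 h41 g40 g41 g42 h50 h51 g50 g51 g52
    clear h1 h2
    grind

theorem certDB : PathCert TdB ![![0,1,1],![0,0,0],![0,0,0],![1,1,0],![0,1,1],![0,0,0]]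
    ![![0,0,0],![1,1,0],![0,1,1],![0,0,0],![0,0,0],![1,1,0]] where
  eα := by decide
  eβ := by decide
  sα := by decide
  sβ := by decide
  pot := by
    intro a B x y h1 h2
    have h00 := h1 0 0
    have h01 := h1 0 1
    have g00 := h2 0 0
    have g01 := h2 0 1
    have g02 := h2 0 2
    have h10 := h1 1 0
    have h11 := h1 1 1
    have g10 := h2 1 0
    have g11 := h2 1 1
    have g12 := h2 1 2
    have h20 := h1 2 0
    have h21 := h1 2 1
    have g20 := h2 2 0
    have g21 := h2 2 1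
    have g22 := h2 2 2
    have h30 := h1 3 0
    have h31 := h1 3 1
    have g30 := h2 3 0
    have g31 := h2 3 1
    have g32 := h2 3 2
    have h40 := h1 4 0
    have h41 := h1 4 1
    have g40 := h2 4 0
    have g41 := h2 4 1
    have g42 := h2 4 2
    have h50 := h1 5 0
    have h51 := h1 5 1
    have g50 := h2 5 0
    have g51 := h2 5 1
    have g52 := h2 5 2
    simp [TdB] at h00 h01 g00 g01 g02 h10 h11 g10 g11 g12 h20 h21 g20 g21 g22 h30 h31 g30 g31 g32 h40 h41 g40 g41 g42 h50 h51 g50 g51 g52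
    clear h1 h2
    grind

end PlanRed

/-- THR-PLAN. -/
theorem specThrPlan : SpecThrPlan :=
  ⟨PlanRed.thrPlan_of_cert PlanRed.certSq, PlanRed.thrPlan_of_cert PlanRed.certX4,
    PlanRed.thrPlan_of_cert PlanRed.certX6, PlanRed.thrPlan_of_cert PlanRed.certDA,
    PlanRed.thrPlan_of_cert PlanRed.certDB⟩

end Acyc75
end

section
/-!
# MP_1e9f59_co : U2, colourings of the two exceptional graphs minus a vertex
-/
set_option autoImplicit false

namespace Acyc75

open CMap

namespace U2

/-- Certificates: for every vertex `z` two rows; a row consists of a neighbour `y` of `z`, its colour,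
the colour of the other neighbours, the colouring in base 4 and three rankings in base 8. -/
def tQ : List (List (List Nat)) :=
  [[[1, 0, 1, 18832, 4227584, 8, 262144], [2, 1, 0, 9360, 64, 4456960, 32768]],
   [[0, 0, 2, 10640, 528448, 2097152, 1], [3, 2, 0, 17040, 512, 4096, 2621504]],
   [[0, 0, 2, 10628, 69640, 2097152, 1], [3, 2, 0, 17028, 512, 4096, 2162696]],
   [[1, 1, 2, 37412, 262144, 40961, 8], [2, 2, 1, 18724, 32768, 64, 270337]],
   [[0, 0, 2, 10388, 1096, 2097152, 1], [5, 2, 0, 18468, 32768, 64, 2098184]],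
   [[1, 1, 2, 37412, 262144, 641, 8], [4, 2, 1, 17044, 512, 4096, 262273]],
   [[2, 2, 1, 18724, 32768, 64, 529], [4, 2, 1, 17044, 512, 4096, 32785]],
   [[3, 2, 0, 660, 512, 4096, 74], [5, 2, 0, 2340, 32768, 64, 4106]]]

/-- The same for the second graph. -/
def tH : List (List (List Nat)) :=
  [[[3, 1, 0, 33360, 0, 2166784, 64], [6, 2, 0, 10512, 32768, 2359296, 4176]],
   [[0, 0, 1, 37264, 2621952, 0, 32768], [2, 1, 0, 10320, 0, 4489216, 512]],
   [[5, 0, 1, 25156, 267264, 0, 1], [7, 0, 1, 9796, 4608, 262144, 1]],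
   [[0, 0, 2, 25124, 2097288, 32768, 0], [6, 2, 0, 26628, 2097152, 32768, 72]],
   [[3, 2, 1, 38020, 2359296, 0, 81], [5, 2, 1, 26692, 2359296, 0, 81]],
   [[2, 2, 0, 4260, 0, 512, 262154], [7, 2, 0, 36996, 262144, 512, 9]],
   [[0, 0, 1, 16996, 4176, 32768, 1], [3, 2, 0, 1188, 64, 512, 40968]],
   [[2, 2, 1, 5284, 64, 512, 4113], [5, 0, 2, 8804, 8712, 32768, 1]]]

/-- An entry of the certificate. -/
def ent (t : List (List (List Nat))) (z : Fin 8) (i : Fin 2) (j : Nat) : Nat :=
  ((t.getD z.val []).getD i.val []).getD j 0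

/-- The neighbour of `z`. -/
def yy (t : List (List (List Nat))) (z : Fin 8) (i : Fin 2) : Fin 8 := Fin.ofNat 8 (ent t z i 0)

/-- The colouring. -/
def hh (t : List (List (List Nat))) (z : Fin 8) (i : Fin 2) (v : Fin 8) : Fin 3 :=
  Fin.ofNat 3 (ent t z i 3 / 4 ^ v.val % 4)

/-- The colour of the neighbour. -/
def cy (t : List (List (List Nat))) (z : Fin 8) (i : Fin 2) : Fin 3 := Fin.ofNat 3 (ent t z i 1)

/-- The colour of the other neighbours. -/
def cx (t : List (List (List Nat))) (z : Fin 8) (i : Fin 2) : Fin 3 := Fin.ofNat 3 (ent t z i 2)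

/-- The rankings. -/
def rk (t : List (List (List Nat))) (z : Fin 8) (i : Fin 2) (p : Fin 3) (v : Fin 8) : Nat :=
  ent t z i (4 + p.val) / 8 ^ v.val % 8

/-- The property of a certificate. -/
def Ok (adj : Fin 8 → Fin 8 → Bool) (t : List (List (List Nat))) : Prop :=
  (∀ z : Fin 8, yy t z 0 ≠ yy t z 1) ∧ ∀ (z : Fin 8) (i : Fin 2),
    adj z (yy t z i) = true ∧ yy t z i ≠ z ∧ cx t z i ≠ cy t z i ∧
    hh t z i (yy t z i) = cy t z i ∧
    (∀ w : Fin 8, adj z w = true → w ≠ yy t z i → hh t z i w = cx t z i) ∧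
    (∀ v w : Fin 8, adj v w = true → v ≠ z → w ≠ z → hh t z i w ≠ hh t z i v) ∧
    ∀ (p : Fin 3) (v w w' : Fin 8), adj v w = true → adj v w' = true → w ≠ w' →
      v ≠ z → w ≠ z → w' ≠ z → hh t z i v ≠ p → hh t z i w ≠ p → hh t z i w' ≠ p →
      rk t z i p v ≤ rk t z i p w → rk t z i p v ≤ rk t z i p w' → False

set_option synthInstance.maxSize 100000 in
instance (adj : Fin 8 → Fin 8 → Bool) (t : List (List (List Nat))) : Decidable (Ok adj t) := by
  unfold Ok; infer_instance

theorem okQ : Ok adjQ tQ := by decide +kernel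

theorem okH : Ok adjH tH := by decide +kernel

/-- A graph with a certificate has the required colourings. -/
theorem side {V : Type} [Finite V] (M : CMap V)
    (hsimple : ∀ d d' : Dt V, d.1 = d'.1 → (M.a d).1 = (M.a d').1 → d = d')
    (e : V ≃ Fin 8) (adj : Fin 8 → Fin 8 → Bool) (hadj : ∀ v w, M.Adj v w ↔ adj (e v) (e w) = true)
    (t : List (List (List Nat))) (hok : Ok adj t) (z : V) : M.SideU {z}ᶜ := by
  obtain ⟨hy, hok⟩ := hok
  -- the dart from the neighbour `yy` to `z`
  have hd : ∀ i : Fin 2, ∃ d : Dt V, e d.1 = yy t (e z) i ∧ (M.a d).1 = z := by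
    intro i
    have h1 := (hadj z (e.symm (yy t (e z) i))).2 (by
      rw [Equiv.apply_symm_apply]; exact (hok (e z) i).1)
    obtain ⟨s, hs⟩ := h1
    exact ⟨M.a (z, s), by rw [hs, Equiv.apply_symm_apply], by rw [M.inv]⟩
  -- both darts have the property
  have key : ∀ (i : Fin 2) (d : Dt V), e d.1 = yy t (e z) i → (M.a d).1 = z →
      d.1 ∈ ({z}ᶜ : Set V) ∧ (M.a d).1 ∉ ({z}ᶜ : Set V) ∧
      ∃ (h : V → Fin 3) (x y : Fin 3), M.PoleGood {z}ᶜ h ∧ x ≠ y ∧ h d.1 = y ∧
        ∀ d' : Dt V, d' ≠ d → d'.1 ∈ ({z}ᶜ : Set V) → (M.a d').1 ∉ ({z}ᶜ : Set V) → h d'.1 = x := by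
    intro i d h1 h2
    obtain ⟨g1, g2, g3, g4, g5, g6, g7⟩ := hok (e z) i
    have hmem : ∀ v : V, v ∈ ({z}ᶜ : Set V) ↔ v ≠ z := fun v => Iff.rfl
    have hne : ∀ v : V, e v ≠ e z ↔ v ≠ z := fun v => by rw [ne_eq, e.injective.eq_iff]
    refine ⟨?_, ?_, fun v => hh t (e z) i (e v), cx t (e z) i, cy t (e z) i, ⟨?_, ?_⟩, g3, ?_, ?_⟩
    · rw [hmem, ← hne, h1]; exact g2
    · rw [hmem, h2]; exact fun h => h rfl
    · intro f hf hf'
      rw [hmem, ← hne] at hf hf'
      exact g6 _ _ ((hadj _ _).1 ⟨f.2, rfl⟩) hf hf'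
    · intro p C hC hS hb f hf
      classical
      -- forget the darts at `z`
      have hz := forest M (fun d => if d.1 = z then 0 else C d)
        {v | v ≠ z ∧ hh t (e z) i (e v) ≠ p} (fun v => rk t (e z) i p (e v)) ?_ ?_ ?_ f
      · rw [hmem] at hf
        simpa [hf] using hz
      · intro f hf
        by_cases hfz : f.1 = z
        · simp [hfz] at hf
        · have hCf : C f ≠ 0 := by simpa [hfz] using hf
          have hfz' : f.1 ∉ ({z}ᶜᶜ : Set V) := by simpa using hfz
          have h3 := hS f hfz' hCf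
          have h4 : (M.a f).1 ≠ z := by
            intro h4
            exact hCf (hb f (by rw [hmem]; exact hfz) (by rw [hmem, h4]; exact fun h => h rfl))
          have h4' : (M.a f).1 ∉ ({z}ᶜᶜ : Set V) := by simpa using h4
          have h5 : C (M.a f) ≠ 0 := by rw [hC.1 f hfz' h4']; exact hCf
          refine ⟨⟨hfz, h3⟩, ⟨h4, hS _ h4' h5⟩, ?_⟩
          simpa [h4] using h5
      · intro v hv
        have h3 := hC.2 v (by simpa using hv.1)
        have h4 : v ≠ z := hv.1
        simpa [h4] using h3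
      · intro f f' hff hv hw hw' hr hr'
        refine hsimple f f' hff ?_
        by_contra hne'
        refine g7 p (e f.1) (e (M.a f).1) (e (M.a f').1) ((hadj _ _).1 ⟨f.2, rfl⟩)
          ((hadj _ _).1 ?_) (fun h => hne' (e.injective h)) ((hne _).2 hv.1) ((hne _).2 hw.1)
          ((hne _).2 hw'.1) hv.2 hw.2 hw'.2 hr hr'
        rw [hff]; exact ⟨f'.2, rfl⟩
    · change hh t (e z) i (e d.1) = cy t (e z) i
      rw [h1]; exact g4
    · intro d' hd' hz1 hz2
      have hz3 : (M.a d').1 = z := by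
        by_contra hc
        exact hz2 ((hmem _).2 hc)
      refine g5 (e d'.1) ((hadj _ _).1 ⟨(M.a d').2, ?_⟩) ?_
      · rw [← hz3]
        change (M.a (M.a d')).1 = d'.1
        rw [M.inv]
      · intro h3
        refine hd' (hsimple d' d (e.injective (by rw [h3, h1])) (by rw [hz3, h2]))
  obtain ⟨d₁, a1, a2⟩ := hd 0
  obtain ⟨d₂, b1, b2⟩ := hd 1
  refine ⟨d₁, d₂, ?_, ?_⟩
  · intro h
    rw [h, b1] at a1
    exact hy (e z) a1.symm
  · rintro d (rfl | rfl)
    · exact key 0 d a1 a2
    · exact key 1 d b1 b2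

end U2

theorem specU2 (hEight : SpecEight) (hSimple : SpecSimple) : SpecU2 := by
  intro V _ M hT hP h8 z
  have hs := (hSimple V M hT (by omega)).2
  obtain ⟨e, he | he⟩ := hEight V M hT hP h8
  · exact U2.side M hs e adjQ he U2.tQ U2.okQ z
  · exact U2.side M hs e adjH he U2.tH U2.okH z

end Acyc75
end
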