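import Pool.Agent.Lib.MP_1e9f59_co.Three

/-!
# MP_1e9f59_co : X6
-/

set_option autoImplicit false

namespace Acyc75

open CMap EmbPre X4

namespace X6

variable {V : Type} [Finite V] {M : CMap V}

theorem disj {D0 : Dt V} (hl : ∀ d, (M.a d).1 ≠ d.1) (hM : M.TEC) (hV : 4 < Nat.card V)
    (h : M.ph^[3] D0 = D0) (h' : M.ph^[3] (rot D0) = rot D0) : False := by
  have t1 := Tri.of_ph h
  have t2 := Tri.of_ph h'
  apply t1.out_ne hl hM hV
  -- `a (rot D0)` and `a (rot D1)` end at the second vertex of the other triangle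
  have e1 : M.a (rot D0) = rot (rot (M.ph (rot D0))) := t2.a0
  have e2 : M.ph^[2] (rot D0) = M.a D0 := by
    have := t2.r0
    rw [rot_rot_rot] at this
    exact this.symm
  have e3 : M.a (M.ph (rot D0)) = rot (M.ph D0) := by
    rw [t2.a1, e2, t1.a0, rot_rot_rot]
  have e4 : M.a (rot (M.ph D0)) = M.ph (rot D0) := by rw [← e3, M.inv]
  rw [e1, e4]
  rfl

theorem uniq {d g : Dt V} (hl : ∀ d, (M.a d).1 ≠ d.1) (hM : M.TEC) (hV : 4 < Nat.card V)
    (h : M.ph^[3] d = d) (h' : M.ph^[3] g = g) (hdg : g.1 = d.1) : g = d := by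
  rcases dart_cases hdg with rfl | rfl | rfl
  · rfl
  · exact (disj hl hM hV h h').elim
  · exact (disj hl hM hV h' (by rw [rot_rot_rot]; exact h)).elim

omit [Finite V] in
theorem ph3 {d : Dt V} (h : M.ph^[3] d = d) : M.ph^[3] (M.ph d) = M.ph d := by
  rw [← Function.iterate_succ_apply, Function.iterate_succ_apply', h]

theorem three_dvd (hl : ∀ d, (M.a d).1 ≠ d.1) (hM : M.TEC) (hV : 4 < Nat.card V)
    (hall : ∀ v, ∃ t, M.ph^[3] (v, t) = (v, t)) : 3 ∣ Nat.card V := by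
  classical
  have : Fintype V := Fintype.ofFinite V
  choose t ht using hall
  let F : Function.End V := fun v => (M.ph (v, t v)).1
  have hF : ∀ v, M.ph (v, t v) = (F v, t (F v)) := fun v =>
    uniq hl hM hV (ht (F v)) (ph3 (ht v)) rfl
  have h3 : F ^ 3 ^ 1 = 1 := by
    funext v
    have h1 := ht v
    change M.ph (M.ph (M.ph (v, t v))) = (v, t v) at h1
    rw [hF, hF, hF] at h1
    exact congrArg Prod.fst h1
  have : Fact (Nat.Prime 3) := ⟨by norm_num⟩
  have h4 := Equiv.Perm.card_fixedPoints_modEq (f := F) (p := 3) (n := 1) h3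
  have h5 : Fintype.card (Function.fixedPoints F) = 0 := by
    rw [Fintype.card_eq_zero_iff]
    refine ⟨fun ⟨v, hv⟩ => ?_⟩
    exact hl (v, t v) hv
  have h6 : Fintype.card V ≡ Fintype.card (Function.fixedPoints F) [MOD 3] := h4
  rw [h5] at h6
  rw [Nat.card_eq_fintype_card]
  exact (Nat.modEq_zero_iff_dvd.1 h6)

end X6

open X6

theorem specX6 : SpecX6 := by
  intro V _ M hM hP hN hV hall
  obtain ⟨hl, hp⟩ := specSimple V M hM (by omega)
  refine ⟨three_dvd hl hM (by omega) hall, ?_⟩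
  have hne : Nonempty V := by
    by_contra h
    rw [not_nonempty_iff] at h
    rw [Nat.card_of_isEmpty] at hV
    omega
  obtain ⟨v0⟩ := hne
  obtain ⟨t0, ht0⟩ := hall v0
  set D0 : Dt V := (v0, t0) with hD0
  have h := Tri.of_ph ht0
  set D1 := M.ph D0 with hD1
  set D2 := M.ph^[2] D0 with hD2
  have f0 : M.ph^[3] D0 = D0 := ht0
  have f1 : M.ph^[3] D1 = D1 := ph3 f0
  have f2 : M.ph^[3] D2 = D2 := ph3 f1
  have n01 := h.ne01 hl
  have n12 := h.cyc.ne01 hl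
  have n20 := h.cyc.cyc.ne01 hl
  set e := M.a (rot D2) with he
  have ae : M.a e = rot D2 := M.inv _
  set D5 := rot (rot e) with hD5
  have rD5 : rot D5 = e := by rw [hD5, rot_rot_rot]
  have f5 : M.ph^[3] D5 = D5 := by
    obtain ⟨t, ht⟩ := hall e.1
    rcases dart_cases (d := e) (d' := (e.1, t)) rfl with h1 | h1 | h1
    · exfalso
      rw [h1] at ht
      have h2 := ph3 ht
      have h3 : M.ph e = rot (rot D2) := by rw [CMap.ph_def, ae]
      rw [h3] at h2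
      exact rot_rot_ne D2 (uniq hl hM (by omega) f2 h2 rfl)
    · exfalso
      rw [h1] at ht
      have t1 := Tri.of_ph ht
      have h2 := t1.r0
      rw [rot_rot_rot, ae] at h2
      have h3 := ph3 (ph3 ht)
      change M.ph^[3] (M.ph^[2] (rot e)) = M.ph^[2] (rot e) at h3
      rw [← h2] at h3
      exact rot_ne D2 (uniq hl hM (by omega) f2 h3 rfl)
    · rw [h1] at ht
      exact ht
  have h5 := Tri.of_ph f5
  set D3 := M.ph D5 with hD3
  set D4 := M.ph^[2] D5 with hD4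
  have h' := h5.cyc
  have f3 : M.ph^[3] D3 = D3 := ph3 f5
  have f4 : M.ph^[3] D4 = D4 := ph3 f3
  have n34 := h'.ne01 hl
  have n45 := h'.cyc.ne01 hl
  have n53 := h'.cyc.cyc.ne01 hl
  have n52 : D5.1 ≠ D2.1 := hl (rot D2)
  have n50 : D5.1 ≠ D0.1 := by
    intro he
    refine rot_ne D2 (hp (rot D2) D2 rfl ?_)
    rw [h.a2]
    exact he
  have n51 : D5.1 ≠ D1.1 := by
    intro he
    refine rot_ne (rot D2) (hp (rot (rot D2)) (rot D2) rfl ?_)
    rw [h.r2]
    exact he.symm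
  -- the two triangles are disjoint
  have hcl : ∀ x : Dt V, M.ph^[3] x = x → (x.1 = D0.1 ∨ x.1 = D1.1 ∨ x.1 = D2.1) →
      (x = D0 ∨ x = D1 ∨ x = D2) := by
    rintro x hx (h1 | h1 | h1)
    · exact Or.inl (uniq hl hM (by omega) f0 hx h1)
    · exact Or.inr (Or.inl (uniq hl hM (by omega) f1 hx h1))
    · exact Or.inr (Or.inr (uniq hl hM (by omega) f2 hx h1))
  have hst : ∀ x : Dt V, (x = D0 ∨ x = D1 ∨ x = D2) →
      (M.ph x = D0 ∨ M.ph x = D1 ∨ M.ph x = D2) := by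
    rintro x (rfl | rfl | rfl)
    · exact Or.inr (Or.inl h.p0)
    · exact Or.inr (Or.inr h.p1)
    · exact Or.inl h.p2
  have hno5 : ¬ (D5 = D0 ∨ D5 = D1 ∨ D5 = D2) := by
    rintro (h1 | h1 | h1)
    · exact n50 (by rw [h1])
    · exact n51 (by rw [h1])
    · exact n52 (by rw [h1])
  have hno4 : ¬ (D4 = D0 ∨ D4 = D1 ∨ D4 = D2) := fun h1 => hno5 (h'.p1 ▸ hst D4 h1)
  have hno3 : ¬ (D3 = D0 ∨ D3 = D1 ∨ D3 = D2) := fun h1 => hno4 (h'.p0 ▸ hst D3 h1)
  have v4 : ¬ (D4.1 = D0.1 ∨ D4.1 = D1.1 ∨ D4.1 = D2.1) := fun h1 => hno4 (hcl D4 f4 h1)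
  have v3 : ¬ (D3.1 = D0.1 ∨ D3.1 = D1.1 ∨ D3.1 = D2.1) := fun h1 => hno3 (hcl D3 f3 h1)
  have n30 : D3.1 ≠ D0.1 := fun h1 => v3 (Or.inl h1)
  have n31 : D3.1 ≠ D1.1 := fun h1 => v3 (Or.inr (Or.inl h1))
  have n32 : D3.1 ≠ D2.1 := fun h1 => v3 (Or.inr (Or.inr h1))
  have n40 : D4.1 ≠ D0.1 := fun h1 => v4 (Or.inl h1)
  have n41 : D4.1 ≠ D1.1 := fun h1 => v4 (Or.inr (Or.inl h1))
  have n42 : D4.1 ≠ D2.1 := fun h1 => v4 (Or.inr (Or.inr h1))
  have hpre : Pre M Tx6 (fun i => ((![D0, D1, D2, D3, D4, D5] : Fin 6 → Dt V) i).1)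
      (fun i => ((![D0, D1, D2, D3, D4, D5] : Fin 6 → Dt V) i).2) := by
    refine pre_of (T := Tx6) ![D0, D1, D2, D3, D4, D5] ?_ ?_
    · intro i j hij
      fin_cases i <;> fin_cases j
      exacts [rfl, absurd hij n01, absurd hij n20.symm, absurd hij n30.symm,
        absurd hij n40.symm, absurd hij n50.symm,
        absurd hij n01.symm, rfl, absurd hij n12, absurd hij n31.symm, absurd hij n41.symm,
        absurd hij n51.symm,
        absurd hij n20, absurd hij n12.symm, rfl, absurd hij n32.symm, absurd hij n42.symm,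
        absurd hij n52.symm,
        absurd hij n30, absurd hij n31, absurd hij n32, rfl, absurd hij n34, absurd hij n53.symm,
        absurd hij n40, absurd hij n41, absurd hij n42, absurd hij n34.symm, rfl,
        absurd hij n45,
        absurd hij n50, absurd hij n51, absurd hij n52, absurd hij n53, absurd hij n45.symm, rfl]
    · intro i t
      fin_cases i <;> fin_cases t
      exacts [h.a0, trivial, h.r0, h.a1, trivial, h.r1, h.a2, rD5.symm, h.r2,
        h'.a0, trivial, h'.r0, h'.a1, trivial, h'.r1, h'.a2, (congrArg M.a rD5).trans ae, h'.r2]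
  obtain ⟨E, hx, hpos, hb⟩ := hpre.emb4 tb_x6 hM (by norm_num) (by omega)
  have b0 : E.b 0 = M.a (rot D0) := hb 0
  have b1 : E.b 1 = M.a (rot D1) := hb 1
  have b2 : E.b 2 = M.a (rot D3) := hb 2
  have hx0 : E.x 0 = D0.1 := by rw [hx]; rfl
  have hx1 : E.x 1 = D1.1 := by rw [hx]; rfl
  have hx2 : E.x 2 = D2.1 := by rw [hx]; rfl
  have hx3 : E.x 3 = D3.1 := by rw [hx]; rfl
  have hx4 : E.x 4 = D4.1 := by rw [hx]; rfl
  have hx5 : E.x 5 = D5.1 := by rw [hx]; rfl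
  refine ⟨E, ?_⟩
  intro S hS s0 s1 s2 s3
  by_contra hcut
  have hS0 : D0.1 ∉ S := fun hm => hS _ hm ⟨0, hx0⟩
  have hS1 : D1.1 ∉ S := fun hm => hS _ hm ⟨1, hx1⟩
  have hS2 : D2.1 ∉ S := fun hm => hS _ hm ⟨2, hx2⟩
  have hS3 : D3.1 ∉ S := fun hm => hS _ hm ⟨3, hx3⟩
  have hS4 : D4.1 ∉ S := fun hm => hS _ hm ⟨4, hx4⟩
  have hS5 : D5.1 ∉ S := fun hm => hS _ hm ⟨5, hx5⟩
  rw [b0] at s0
  rw [b1] at s1
  rw [b2] at s2
  have ho : ∀ i, (M.a (rot D3)).1 ≠ E.x i := by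
    intro i he
    apply E.out 2
    rw [b2]
    exact ⟨i, he.symm⟩
  have h3W : D3.1 ∉ S ∪ {D0.1, D1.1, D2.1} := by
    rintro (hm | hm | hm | hm)
    exacts [hS3 hm, n30 hm, n31 hm, n32 hm]
  have h4W : D4.1 ∉ S ∪ {D0.1, D1.1, D2.1} := by
    rintro (hm | hm | hm | hm)
    exacts [hS4 hm, n40 hm, n41 hm, n42 hm]
  have h5W : D5.1 ∉ S ∪ {D0.1, D1.1, D2.1} := by
    rintro (hm | hm | hm | hm)
    exacts [hS5 hm, n50 hm, n51 hm, n52 hm]
  obtain ⟨c1, c2, c3⟩ := h.key hl hM hN (by omega) hS0 hS1 hS2 s0 s1 h3W (by omega)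
  have hvW : (M.a (rot D3)).1 ∉ S ∪ {D0.1, D1.1, D2.1} := by
    rintro (hm | hm | hm | hm)
    · exact s2 hm
    · exact ho 0 (by rw [hx0]; exact hm)
    · exact ho 1 (by rw [hx1]; exact hm)
    · exact ho 2 (by rw [hx2]; exact hm)
  have hsub : ({(M.a (rot D3)).1, D3.1, D4.1, D5.1} : Set V) ⊆ (S ∪ {D0.1, D1.1, D2.1})ᶜ := by
    rintro x (rfl | rfl | rfl | rfl)
    exacts [hvW, h3W, h4W, h5W]
  have hcard : ({(M.a (rot D3)).1, D3.1, D4.1, D5.1} : Set V).ncard = 4 := by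
    rw [Set.ncard_insert_of_notMem, Set.ncard_insert_of_notMem, Set.ncard_pair n45]
    · rintro (hx | hx)
      · exact n34 hx
      · exact n53 hx.symm
    · rintro (hx | hx | hx)
      · exact ho 3 (by rw [hx3]; exact hx)
      · exact ho 4 (by rw [hx4]; exact hx)
      · exact ho 5 (by rw [hx5]; exact hx)
  have := Set.ncard_le_ncard hsub (Set.toFinite _)
  omega

end Acyc75
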