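import Pool.Agent.Lib.MP_1e9f59_co.Three
import Pool.Agent.Lib.MP_1e9f59_co.Fin54c
import Pool.Agent.Lib.MP_1e9f59_co.Dis
import Pool.Agent.Lib.MP_1e9f59_co.Fin54
import Pool.Agent.Lib.MP_1e9f59_co.FinPent
import Pool.Agent.Lib.MP_1e9f59_co.ThrExt
import Pool.Agent.Lib.MP_1e9f59_co.Iso
import Pool.Agent.Lib.MP_1e9f59_co.U2
import Pool.Agent.Lib.MP_1e9f59_co.NC
import Pool.Agent.Lib.MP_1e9f59_co.Reduce
import Pool.Agent.Lib.MP_1e9f59_co.SqDom
import Pool.Agent.Lib.MP_1e9f59_co.Twelve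
import Pool.Agent.Lib.MP_1e9f59_co.X6

section
/-!
# MP_1e9f59_co : PAIR, the configuration for the pentagon reduction
-/
set_option autoImplicit false

namespace Acyc75

open CMap

namespace Pair

variable {V : Type}

/-- The next vertex of an embedded pentagon is given by the face permutation. -/
theorem next {M : CMap V} {m k : ℕ} {T : Tab m k} (E : M.Emb T) {i j : Fin m}
    (h : T i 0 = Sum.inl (j, 2)) : (E.x j, E.pos j) = M.ph (E.x i, E.pos i) := by
  have h1 := E.tgt i 0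
  rw [h, add_zero] at h1
  rw [ph_def, h1]
  simp only [Sum.elim_inl, rot]
  congr 1
  rw [add_assoc, show (2 : Fin 3) + 1 = 0 from by decide, add_zero]

theorem bdart {M : CMap V} {m k : ℕ} {T : Tab m k} (E : M.Emb T) {i : Fin m} {j : Fin k}
    (h : T i 1 = Sum.inr j) : E.b j = M.a (rot (E.x i, E.pos i)) := by
  have h1 := E.tgt i 1
  rw [h] at h1
  exact h1.symm

/-- The darts of an embedded pentagon. -/
theorem pent {M : CMap V} (E : M.Emb Tp) {d : Dt V} (h : (E.x 0, E.pos 0) = d) :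
    (E.x 1, E.pos 1) = M.ph d ∧ (E.x 2, E.pos 2) = M.ph (M.ph d) ∧
    (E.x 3, E.pos 3) = M.ph (M.ph (M.ph d)) ∧ (E.x 4, E.pos 4) = M.ph (M.ph (M.ph (M.ph d))) ∧
    E.b 0 = M.a (rot d) ∧ E.b 1 = M.a (rot (M.ph d)) ∧ E.b 2 = M.a (rot (M.ph (M.ph d))) := by
  have h1 : (E.x 1, E.pos 1) = M.ph d := by rw [← h]; exact next E rfl
  have h2 : (E.x 2, E.pos 2) = M.ph (M.ph d) := by rw [← h1]; exact next E rfl
  have h3 : (E.x 3, E.pos 3) = M.ph (M.ph (M.ph d)) := by rw [← h2]; exact next E rfl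
  have h4 : (E.x 4, E.pos 4) = M.ph (M.ph (M.ph (M.ph d))) := by rw [← h3]; exact next E rfl
  refine ⟨h1, h2, h3, h4, ?_, ?_, ?_⟩
  · rw [← h]; exact bdart E rfl
  · rw [← h1]; exact bdart E rfl
  · rw [← h2]; exact bdart E rfl

theorem range5 (x : Fin 5 → V) : Set.range x = {x 0, x 1, x 2, x 3, x 4} := by
  ext v
  simp only [Set.mem_range, Set.mem_insert_iff, Set.mem_singleton_iff]
  constructor
  · rintro ⟨i, rfl⟩
    fin_cases i <;> simp
  · rintro (h | h | h | h | h) <;> exact ⟨_, h.symm⟩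

/-- The vertex set of an embedded pentagon. -/
theorem pent_range {M : CMap V} (E : M.Emb Tp) {d : Dt V} (h : (E.x 0, E.pos 0) = d) :
    Set.range E.x = {d.1, (M.ph d).1, (M.ph (M.ph d)).1, (M.ph (M.ph (M.ph d))).1,
      (M.ph (M.ph (M.ph (M.ph d)))).1} := by
  obtain ⟨h1, h2, h3, h4, -, -, -⟩ := pent E h
  rw [range5, ← h4, ← h3, ← h2, ← h1, ← h]

theorem perm5 (a b c d e : V) : ({c, b, a, e, d} : Set V) = {a, b, c, d, e} := by
  ext v
  simp only [Set.mem_insert_iff, Set.mem_singleton_iff]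
  constructor
  · rintro (h | h | h | h | h) <;> simp [h]
  · rintro (h | h | h | h | h) <;> simp [h]

theorem mir_ph_rfl3 (M : CMap V) (d : Dt V) :
    M.mir.ph (rfl3 (M.a (M.ph d))) = rfl3 (M.a d) := Mir.mir_iter M 1 d

theorem mir_no_face (M : CMap V) (n : ℕ) (h : ∀ d, M.ph^[n] d ≠ d) (e : Dt V) :
    M.mir.ph^[n] e ≠ e := by
  intro he
  obtain ⟨f, hf⟩ := (M.ph_bijective.iterate n).2 (M.a (rfl3 e))
  have h1 := Mir.mir_iter M n f
  rw [hf, M.inv, rfl3_rfl3, he] at h1
  have h2 : M.a (rfl3 e) = f := by rw [h1, rfl3_rfl3, M.inv]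
  exact h f (by rw [hf, h2])

theorem mir_face (M : CMap V) (n : ℕ) (d : Dt V) (h : M.ph^[n] (M.a d) = M.a d) :
    M.mir.ph^[n] (rfl3 d) = rfl3 d := by
  have h1 := Mir.mir_iter M n (M.a d)
  rw [h, M.inv] at h1
  exact h1

end Pair

theorem specPair (hEmb : SpecEmb5) (hPinch : SpecPinch) (hMir : SpecMir) : SpecPair := by
  intro V _ M hT hP hN h8 h3 h4 ⟨d, hd, hd2⟩
  -- the base dart
  set d0 : Dt V := M.ph (M.ph d) with hd0
  have e5 : M.ph (M.ph (M.ph (M.ph (M.ph d)))) = d := hd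
  have hd05 : M.ph^[5] d0 = d0 := by
    change M.ph (M.ph (M.ph (M.ph (M.ph (M.ph (M.ph d)))))) = M.ph (M.ph d)
    rw [e5]
  have hd03 : M.ph^[3] d0 = d := e5
  obtain ⟨hE1, hE2, E, hE, hinj, hadj⟩ := hEmb V M d0 hT hP h8 h3 h4 hd05
  rw [hd03] at hE1 hE2
  have hrange := Pair.pent_range E hE
  obtain ⟨-, -, -, -, hb0, hb1, hb2⟩ := Pair.pent E hE
  rcases hPinch V M E hT hN hinj (hadj 0) (hadj 1) with hc | hc
  · refine ⟨M, Or.inl rfl, ?_⟩
    rcases hd2 with hd2 | hd2
    · left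
      obtain ⟨F, hF⟩ := hE1 hd2
      refine ⟨F, ?_⟩
      have hF' : (F.sub53.x 0, F.sub53.pos 0) = d0 := hF
      have hr := Pair.pent_range F.sub53 hF'
      obtain ⟨-, -, -, -, hb0', hb1', -⟩ := Pair.pent F.sub53 hF'
      rw [hr, ← hrange, hb0', hb1', ← hb0, ← hb1]
      exact hc
    · right
      obtain ⟨F, hF⟩ := hE2 hd2
      refine ⟨F, ?_⟩
      have hF' : (F.sub54.x 0, F.sub54.pos 0) = d0 := hF
      have hr := Pair.pent_range F.sub54 hF'
      obtain ⟨-, -, -, -, hb0', hb1', -⟩ := Pair.pent F.sub54 hF'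
      rw [hr, ← hrange, hb0', hb1', ← hb0, ← hb1]
      exact hc
  · refine ⟨M.mir, Or.inr rfl, ?_⟩
    obtain ⟨mT, mP, -, -, -⟩ := hMir V M
    -- the darts of the mirrored pentagon
    set m0 : Dt V := rfl3 (M.a (M.ph d0)) with hm0
    have m1 : M.mir.ph m0 = rfl3 (M.a d0) := Pair.mir_ph_rfl3 M d0
    have q4 : M.ph (M.ph (M.ph (M.ph (M.ph d0)))) = d0 := hd05
    have m2 : M.mir.ph (M.mir.ph m0) = rfl3 (M.a (M.ph (M.ph (M.ph (M.ph d0))))) := by
      rw [m1]
      conv_lhs => rw [← q4]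
      exact Pair.mir_ph_rfl3 M _
    have m3 : M.mir.ph (M.mir.ph (M.mir.ph m0)) = rfl3 (M.a (M.ph (M.ph (M.ph d0)))) := by
      rw [m2]
      exact Pair.mir_ph_rfl3 M _
    have m4 : M.mir.ph (M.mir.ph (M.mir.ph (M.mir.ph m0))) = rfl3 (M.a (M.ph (M.ph d0))) := by
      rw [m3]
      exact Pair.mir_ph_rfl3 M _
    have m5 : M.mir.ph^[5] m0 = m0 := by
      change M.mir.ph (M.mir.ph (M.mir.ph (M.mir.ph (M.mir.ph m0)))) = m0
      rw [m4]
      exact Pair.mir_ph_rfl3 M _
    obtain ⟨gE1, gE2, -⟩ := hEmb V M.mir m0 (mT hT) (mP hP) h8 (Pair.mir_no_face M 3 h3)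
      (Pair.mir_no_face M 4 h4) m5
    have hq : M.mir.a (M.mir.ph^[3] m0) = rfl3 d := by
      have : M.mir.ph^[3] m0 = rfl3 (M.a (M.ph (M.ph (M.ph d0)))) := m3
      rw [this, Mir.mir_a, rfl3_rfl3, M.inv]
      exact congrArg rfl3 hd03
    rw [hq] at gE1 gE2
    -- the set of vertices and the outer vertices
    have key : ∀ F : M.mir.Emb Tp, (F.x 0, F.pos 0) = m0 →
        M.mir.CutP (Set.range F.x) (F.b 0).1 (F.b 1).1 := by
      intro F hF
      have hr := Pair.pent_range F hF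
      obtain ⟨-, -, -, -, hb0', hb1', -⟩ := Pair.pent F hF
      have hr' : Set.range F.x = Set.range E.x := by
        rw [hr, hrange, m4, m3, m2, m1, hm0]
        simp only [Mir.rfl3_fst, ← ph_fst]
        rw [q4]
        exact Pair.perm5 _ _ _ _ _
      have hq0 : (F.b 0).1 = (E.b 2).1 := by
        rw [hb0', hb2, Mir.mir_a, hm0, Mir.rfl3_rot_rfl3]
        rfl
      have hq1 : (F.b 1).1 = (E.b 1).1 := by
        rw [hb1', hb1, Mir.mir_a, m1, Mir.rfl3_rot_rfl3]
        rfl
      intro S hS hS0 hS1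
      rw [Mir.mir_cut]
      refine hc S (fun v hv => by rw [← hr']; exact hS v hv) ?_ ?_
      · rw [← hq1]; exact hS1
      · rw [← hq0]; exact hS0
    rcases hd2 with hd2 | hd2
    · left
      obtain ⟨F, hF⟩ := gE1 (Pair.mir_face M 5 d hd2)
      exact ⟨F, key F.sub53 hF⟩
    · right
      obtain ⟨F, hF⟩ := gE2 (Pair.mir_face M 6 d hd2)
      exact ⟨F, key F.sub54 hF⟩

end Acyc75
end

section
/-!
# MP_1e9f59_co : all modules together
-/
set_option autoImplicit false

namespace Acyc75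

/-- The main theorem without hypotheses. -/
theorem all75 :
    ∀ (V : Type) [Fintype V] (G : SimpleGraph V),
      (∀ v : V, Nat.card (G.neighborSet v) = 3) →
      G.Connected →
      4 ≤ Fintype.card V →
      (∀ u v : V, (G.induce ({u, v}ᶜ : Set V)).Connected) →
      (∃ k : ℕ, k + Fintype.card V = 2 + Nat.card G.edgeSet ∧
        ∃ (σ φ : Equiv.Perm G.Dart) (face : G.Dart → Fin k),
          (∀ d : G.Dart, (σ d).fst = d.fst) ∧
          (∀ d d' : G.Dart, d.fst = d'.fst → ∃ n : ℕ, (σ ^ n) d = d') ∧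
          (∀ d : G.Dart, φ d = σ d.symm) ∧
          (∀ d d' : G.Dart, face d = face d' ↔ ∃ n : ℕ, (φ ^ n) d = d') ∧
          Function.Surjective face) →
      ¬ Nonempty (G ≃g (⊤ : SimpleGraph (Fin 4))) →
      ¬ Nonempty (G ≃g SimpleGraph.fromRel
          (fun x y : Fin 3 → Bool => ∃ i, x i ≠ y i ∧ ∀ j, j ≠ i → x j = y j)) →
      ¬ Nonempty (G ≃g SimpleGraph.fromRel
          (fun a b : Fin 8 => (a, b) ∈ ({(0, 6), (0, 1), (1, 2), (2, 7), (3, 6), (3, 4),
            (4, 5), (5, 7), (0, 3), (1, 4), (2, 5), (6, 7)} : Finset (Fin 8 × Fin 8)))) →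
      ∃ c : G.Coloring (Fin 3),
        ∀ i j : Fin 3, (G.induce {v : V | c v = i ∨ c v = j}).IsAcyclic := by
  have hCut : SpecCut := specCut
  have hSimple : SpecSimple := specSimple
  have hState : SpecState := specState
  have hGlue : SpecGlue := specGlue
  have hBdry : SpecBdry := specBdry
  have hThrExt : SpecThrExt := specThrExt hState hGlue hBdry
  have hFinPent : SpecFinPent := specFinPent
  have hFin53 : SpecFin53 := specFin53
  have hNC53 : SpecNC53 := specNC53
  have hPentExt53 : SpecPentExt53 := specPentExt53 hState hGlue hBdry hFinPent hFin53 hNC53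
  have hFin54 : SpecFin54 := specFin54
  have hNC54 : SpecNC54 := specNC54
  have hPentExt54 : SpecPentExt54 := specPentExt54 hState hGlue hBdry hFinPent hFin54 hNC54
  have hFinThr : SpecFinThr := specFinThr
  have hThrEx : SpecThrEx := specThrEx
  have hThrTEC : SpecThrTEC := specThrTEC
  have hThrPlan : SpecThrPlan := specThrPlan
  have hPentEx : SpecPentEx := specPentEx
  have hPentTEC : SpecPentTEC := specPentTEC
  have hPentPlan : SpecPentPlan := specPentPlan
  have hJC3 : SpecJC3 := specJC3 hSimple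
  have hMir : SpecMir := specMir
  have hEuler : SpecEuler := specEuler
  have hDis : SpecDis := specDis hEuler hSimple
  have hEdgeFace : SpecEdgeFace := specEdgeFace
  have hTJoin : SpecTJoin := specTJoin
  have hCtr : SpecCtr := specCtr hEdgeFace hTJoin
  have hCtrGood : SpecCtrGood := specCtrGood
  have hMerge : SpecMerge := specMerge
  have hSix : SpecSix := specSix hSimple hDis
  have hEight : SpecEight := specEight hSimple hJC3 hDis hCtr hSix
  have hU2 : SpecU2 := specU2 hEight hSimple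
  have hThree : SpecThree := specThree hCut hCtr hCtrGood hMerge hU2
  have hTwelve : SpecTwelve := specTwelve hSimple hBdry hEight
  have hX4 : SpecX4 := specX4 hJC3
  have hX6 : SpecX6 := specX6
  have hSq : SpecSq := specSq
  have hDom : SpecDom := specDom hJC3
  have hJC4 : SpecJC4 := specJC4 hSimple
  have hJC5 : SpecJC5 := specJC5 hSimple
  have hEmb5 : SpecEmb5 := specEmb5 hJC3 hJC4 hJC5
  have hPinch : SpecPinch := specPinch
  have hPair : SpecPair := specPair hEmb5 hPinch hMir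
  have hMain : SpecMain := specMain hCut hSimple hThrExt hPentExt53 hPentExt54 hFinThr hThrEx hThrTEC hThrPlan hPentEx hPentTEC hPentPlan hJC3 hMir hDis hThree hSix hTwelve hX4 hX6 hSq hDom hPair
  have hPlanEuler : SpecPlanEuler := specPlanEuler hTJoin
  have hInit : SpecInit := specInit hPlanEuler
  have hFin : SpecFin := specFin
  have hFour : SpecFour := specFour hSimple
  have hIso : SpecIso := specIso hFour hEight
  exact final hMain hInit hFin hIso hSimple

end Acyc75
end
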