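import Mathlib

/-!
# MP_1e9f59_co : definitions

Cubic rotation systems (cubic maps), even vectors, planarity in homological form, acyclic
3-colourings, chains on a part of the map, embeddings of small configurations.
-/

set_option autoImplicit false

namespace Acyc75

/-- The darts of a cubic rotation system on the vertex set `V`: the three darts at the vertex `v`
are `(v, 0)`, `(v, 1)`, `(v, 2)`, in this cyclic order. -/
abbrev Dt (V : Type) : Type := V × Fin 3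

/-- The next dart at the same vertex. -/
def rot {V : Type} (d : Dt V) : Dt V := (d.1, d.2 + 1)

/-- A cubic map (rotation system): an involution `a` without fixed points on the darts. The edges are
the orbits `{d, a d}`, the faces are the orbits of `ph = rot ∘ a`. -/
structure CMap (V : Type) where
  a : Dt V → Dt V
  inv : ∀ d, a (a d) = d
  ne : ∀ d, a d ≠ d

namespace CMap

variable {V : Type} (M : CMap V)

/-- The face permutation. -/
def ph (d : Dt V) : Dt V := rot (M.a d)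

/-- `C` is an even edge set (a vector of the cycle space). -/
def Ev (C : Dt V → ZMod 2) : Prop :=
  (∀ d, C (M.a d) = C d) ∧ ∀ v, C (v, 0) + C (v, 1) + C (v, 2) = 0

/-- Planarity: every even edge set is the boundary of a set of faces. -/
def Plan : Prop := ∀ C : Dt V → ZMod 2, M.Ev C →
  ∃ A : Dt V → ZMod 2, (∀ d, A (M.ph d) = A d) ∧ ∀ d, A d + A (M.a d) = C d

/-- `f` is an acyclic proper 3-colouring: no non-zero even edge set avoids a colour `p`. -/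
def Good (f : V → Fin 3) : Prop :=
  (∀ d : Dt V, f (M.a d).1 ≠ f d.1) ∧
    ∀ (p : Fin 3) (C : Dt V → ZMod 2), M.Ev C → (∀ d, C d ≠ 0 → f d.1 ≠ p) → ∀ d, C d = 0

/-- The map has an acyclic 3-colouring. -/
def Col : Prop := ∃ f, M.Good f

/-- The size of the edge cut of `S`. -/
noncomputable def cut (S : Set V) : ℕ := {d : Dt V | d.1 ∈ S ∧ (M.a d).1 ∉ S}.ncard

/-- Three-edge-connectivity. -/
def TEC : Prop := ∀ S : Set V, S.Nonempty → S ≠ Set.univ → 3 ≤ M.cut S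

/-- All 3-edge-cuts are trivial. -/
def NT : Prop := ∀ S : Set V, M.cut S = 3 → S.ncard = 1 ∨ Sᶜ.ncard = 1

/-- No 3-edge-cut has both sides with at least five vertices. -/
def NT5 : Prop := ∀ S : Set V, M.cut S = 3 → S.ncard < 5 ∨ Sᶜ.ncard < 5

/-- Chains on the complement `V \ X` of `X` (including the darts from `V \ X` to `X`); values on
darts at vertices of `X` are irrelevant. -/
def RCh (X : Set V) (C : Dt V → ZMod 2) : Prop :=
  (∀ d : Dt V, d.1 ∉ X → (M.a d).1 ∉ X → C (M.a d) = C d) ∧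
    ∀ v, v ∉ X → C (v, 0) + C (v, 1) + C (v, 2) = 0

/-- `C` only uses darts (at vertices outside `X`) whose vertex does not have colour `p`. -/
def Sup (X : Set V) (f : V → Fin 3) (p : Fin 3) (C : Dt V → ZMod 2) : Prop :=
  ∀ d : Dt V, d.1 ∉ X → C d ≠ 0 → f d.1 ≠ p

/-- The boundary vector `J` (on the boundary darts `b i`) is realised by a chain on `V \ X` avoiding
the colour `p`. -/
def E (X : Set V) {k : ℕ} (b : Fin k → Dt V) (f : V → Fin 3) (p : Fin 3) (J : Fin k → ZMod 2) :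
    Prop :=
  ∃ C : Dt V → ZMod 2, M.RCh X C ∧ Sup X f p C ∧ ∀ i, C (b i) = J i

/-- `b` enumerates the darts from `V \ X` to `X`. -/
def Bdry (X : Set V) {k : ℕ} (b : Fin k → Dt V) : Prop :=
  Function.Injective b ∧ ∀ d : Dt V, (d.1 ∉ X ∧ (M.a d).1 ∈ X) ↔ ∃ i, b i = d

end CMap

/-- Incidence table of a small configuration with `m` vertices and `k` outgoing edges: the dart in
position `t` at the vertex `i` goes to a dart of the configuration or is the `j`-th outgoing edge. -/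
abbrev Tab (m k : ℕ) : Type := Fin m → Fin 3 → (Fin m × Fin 3) ⊕ Fin k

/-- An embedding of the configuration `T` in the map `M`: the vertices `x i` are distinct, position
`0` at `x i` is the dart `(x i, pos i)`, and `b j` is the dart outside which is matched with the
`j`-th outgoing edge. -/
structure CMap.Emb {V : Type} (M : CMap V) {m k : ℕ} (T : Tab m k) where
  x : Fin m → V
  pos : Fin m → Fin 3
  b : Fin k → Dt V
  inj : Function.Injective x
  out : ∀ j, (b j).1 ∉ Set.range x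
  tgt : ∀ i t, M.a (x i, pos i + t) = Sum.elim (fun q => (x q.1, pos q.1 + q.2)) b (T i t)

/-- Every outgoing edge occurs in the table. -/
def SurT {m k : ℕ} (T : Tab m k) : Prop := ∀ j, ∃ i t, T i t = Sum.inr j

/-- Abstract boundary state: `c i` is the colour of the outer end of the `i`-th outgoing edge and
`L p` labels the outgoing edges; `J` is admissible for `p` if it avoids the colour `p` and is even on
every label class. -/
def EL {k : ℕ} (c : Fin k → Fin 3) (L : Fin 3 → Fin k → Fin k) (p : Fin 3)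
    (J : Fin k → ZMod 2) : Prop :=
  (∀ i, J i ≠ 0 → c i ≠ p) ∧ ∀ l, (∑ i, if L p i = l then J i else 0) = 0

/-- The colouring `g` of the configuration `T` fits the boundary state `(c, L)`; `K` is an extra
condition on the boundary vector. -/
def FA {m k : ℕ} (T : Tab m k) (K : (Fin k → ZMod 2) → Prop) (c : Fin k → Fin 3)
    (L : Fin 3 → Fin k → Fin k) (g : Fin m → Fin 3) : Prop :=
  (∀ i t, Sum.elim (fun q : Fin m × Fin 3 => g i ≠ g q.1) (fun j => g i ≠ c j) (T i t)) ∧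
    ∀ (p : Fin 3) (e : Fin m → Fin 3 → ZMod 2) (J : Fin k → ZMod 2),
      (∀ i t, e i t = Sum.elim (fun q : Fin m × Fin 3 => e q.1 q.2) J (T i t)) →
      (∀ i, e i 0 + e i 1 + e i 2 = 0) →
      (∀ i t, e i t ≠ 0 → g i ≠ p) →
      K J → EL c L p J → (∀ j, J j = 0) ∧ ∀ i t, e i t = 0

/-- The unit vector. -/
def ei {k : ℕ} (i : Fin k) : Fin k → ZMod 2 := Pi.single i 1

/-! ### The reductions with four outgoing edges -/

/-- The partner of a boundary edge in the reductions with two through edges. -/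
def sw : Fin 4 → Fin 4 := ![1, 0, 3, 2]

/-- The square. -/
def Tsq : Tab 4 4 := ![
  ![.inl (1, 2), .inr 0, .inl (3, 0)],
  ![.inl (2, 2), .inr 1, .inl (0, 0)],
  ![.inl (3, 2), .inr 2, .inl (1, 0)],
  ![.inl (0, 2), .inr 3, .inl (2, 0)]]

/-- The triangle `0 1 2` and the outer neighbour `3` of `2`. -/
def Tx4 : Tab 4 4 := ![
  ![.inl (1, 2), .inr 0, .inl (2, 0)],
  ![.inl (2, 2), .inr 1, .inl (0, 0)],
  ![.inl (0, 2), .inl (3, 0), .inl (1, 0)],
  ![.inl (2, 1), .inr 2, .inr 3]]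

/-- Two triangles `0 1 2` and `3 4 5` joined by the edge `2 5`. -/
def Tx6 : Tab 6 4 := ![
  ![.inl (1, 2), .inr 0, .inl (2, 0)],
  ![.inl (2, 2), .inr 1, .inl (0, 0)],
  ![.inl (0, 2), .inl (5, 1), .inl (1, 0)],
  ![.inl (4, 2), .inr 2, .inl (5, 0)],
  ![.inl (5, 2), .inr 3, .inl (3, 0)],
  ![.inl (3, 2), .inl (2, 1), .inl (4, 0)]]

/-- Two squares `0 1 2 3` and `1 0 4 5` sharing the edge `0 1`; outgoing edges at `2, 3, 4, 5`. -/
def TdA : Tab 6 4 := ![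
  ![.inl (1, 2), .inl (4, 2), .inl (3, 0)],
  ![.inl (2, 2), .inl (5, 0), .inl (0, 0)],
  ![.inl (3, 2), .inr 0, .inl (1, 0)],
  ![.inl (0, 2), .inr 1, .inl (2, 0)],
  ![.inl (5, 2), .inr 2, .inl (0, 1)],
  ![.inl (1, 1), .inr 3, .inl (4, 0)]]

/-- The same configuration, outgoing edges at `3, 4, 5, 2`. -/
def TdB : Tab 6 4 := ![
  ![.inl (1, 2), .inl (4, 2), .inl (3, 0)],
  ![.inl (2, 2), .inl (5, 0), .inl (0, 0)],
  ![.inl (3, 2), .inr 3, .inl (1, 0)],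
  ![.inl (0, 2), .inr 0, .inl (2, 0)],
  ![.inl (5, 2), .inr 1, .inl (0, 1)],
  ![.inl (1, 1), .inr 2, .inl (4, 0)]]

/-- The empty configuration with four outgoing edges. -/
def T0 : Tab 0 4 := fun i => i.elim0

/-- The finite statement behind the reductions with two through edges `01 | 23`. -/
def FinThr {m : ℕ} (T : Tab m 4) : Prop :=
  ∀ (c : Fin 4 → Fin 3) (L : Fin 3 → Fin 4 → Fin 4), c 0 ≠ c 1 → c 2 ≠ c 3 →
    FA T0 (fun J => J 0 = J 1 ∧ J 2 = J 3) c L (fun i => i.elim0) →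
    ∃ g : Fin m → Fin 3, FA T (fun _ => True) c L g

/-- The map obtained by deleting the configuration and joining the boundary edges `0, 1` and
`2, 3`. -/
structure CMap.IsThr {V : Type} (M : CMap V) {m : ℕ} {T : Tab m 4} (E : M.Emb T)
    (M' : CMap {v // v ∉ Set.range E.x}) : Prop where
  int : ∀ (v w : V) (hv : v ∉ Set.range E.x) (hw : w ∉ Set.range E.x) (i j : Fin 3),
    M.a (v, i) = (w, j) → M'.a (⟨v, hv⟩, i) = (⟨w, hw⟩, j)
  bd : ∀ j, M'.a (⟨(E.b j).1, E.out j⟩, (E.b j).2) =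
    (⟨(E.b (sw j)).1, E.out (sw j)⟩, (E.b (sw j)).2)

/-- The cut condition for the pairing `01 | 23` of the boundary darts `b` of `X`. -/
def CMap.CutA {V : Type} (M : CMap V) (X : Set V) (b : Fin 4 → Dt V) : Prop :=
  ∀ S : Set V, (∀ v ∈ S, v ∉ X) → (b 0).1 ∈ S → (b 1).1 ∈ S → (b 2).1 ∉ S → (b 3).1 ∉ S →
    5 ≤ M.cut S

/-! ### The pentagon -/

/-- The pentagon. -/
def Tp : Tab 5 5 := ![
  ![.inl (1, 2), .inr 0, .inl (4, 0)],
  ![.inl (2, 2), .inr 1, .inl (0, 0)],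
  ![.inl (3, 2), .inr 2, .inl (1, 0)],
  ![.inl (4, 2), .inr 3, .inl (2, 0)],
  ![.inl (0, 2), .inr 4, .inl (3, 0)]]

/-- The reduced pentagon: one vertex `z`, joined to the boundary edges `4, 3, 2`. -/
def Tz : Tab 1 5 := ![![.inr 4, .inr 3, .inr 2]]

/-- The first bad state of the pentagon reduction. -/
def BadA (c : Fin 5 → Fin 3) (z : Fin 3) (F : Fin 3 → (Fin 5 → ZMod 2) → Prop) : Prop :=
  ∃ a b : Fin 3, a ≠ b ∧ a ≠ z ∧ b ≠ z ∧ c 0 = z ∧ c 1 = a ∧ c 2 = a ∧ c 3 = b ∧ c 4 = b ∧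
    F a (ei 3 + ei 0) ∧ F b (ei 2 + ei 0) ∧ F z (ei 2 + ei 3)

/-- The second bad state of the pentagon reduction. -/
def BadB (c : Fin 5 → Fin 3) (z : Fin 3) (F : Fin 3 → (Fin 5 → ZMod 2) → Prop) : Prop :=
  ∃ a b : Fin 3, a ≠ b ∧ a ≠ z ∧ b ≠ z ∧ c 0 = a ∧ c 1 = z ∧ c 2 = b ∧ c 3 = b ∧ c 4 = a ∧
    F a (ei 3 + ei 1) ∧ F b (ei 4 + ei 1) ∧ F z (ei 4 + ei 3)

/-- The finite statement behind the pentagon reduction. -/
def FinPent : Prop :=
  ∀ (c : Fin 5 → Fin 3) (L : Fin 3 → Fin 5 → Fin 5) (z : Fin 1 → Fin 3), c 0 ≠ c 1 →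
    FA Tz (fun J => J 0 = J 1) c L z →
    (∃ g : Fin 5 → Fin 3, FA Tp (fun _ => True) c L g) ∨ BadA c (z 0) (EL c L) ∨
      BadB c (z 0) (EL c L)

/-- The map obtained by the pentagon reduction: the pentagon is deleted except its vertex `3`, which
is joined to the boundary edges `4, 3, 2`; the boundary edges `0, 1` are joined to each other. -/
structure CMap.IsPent {V : Type} (M : CMap V) (E : M.Emb Tp)
    (M' : CMap {v // v ∉ Set.range E.x ∨ v = E.x 3}) : Prop where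
  int : ∀ (v w : V) (hv : v ∉ Set.range E.x) (hw : w ∉ Set.range E.x) (i j : Fin 3),
    M.a (v, i) = (w, j) → M'.a (⟨v, Or.inl hv⟩, i) = (⟨w, Or.inl hw⟩, j)
  b01 : M'.a (⟨(E.b 0).1, Or.inl (E.out 0)⟩, (E.b 0).2) =
    (⟨(E.b 1).1, Or.inl (E.out 1)⟩, (E.b 1).2)
  b4 : M'.a (⟨(E.b 4).1, Or.inl (E.out 4)⟩, (E.b 4).2) = (⟨E.x 3, Or.inr rfl⟩, E.pos 3)
  b3 : M'.a (⟨(E.b 3).1, Or.inl (E.out 3)⟩, (E.b 3).2) = (⟨E.x 3, Or.inr rfl⟩, E.pos 3 + 1)
  b2 : M'.a (⟨(E.b 2).1, Or.inl (E.out 2)⟩, (E.b 2).2) = (⟨E.x 3, Or.inr rfl⟩, E.pos 3 + 2)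

/-- The cut condition for the pentagon reduction (with joined edges `0, 1`). -/
def CMap.CutP {V : Type} (M : CMap V) (X : Set V) (q0 q1 : V) : Prop :=
  ∀ S : Set V, (∀ v ∈ S, v ∉ X) → q0 ∈ S → q1 ∈ S → 5 ≤ M.cut S

/-- Pentagon `0..4` and a pentagon `3 5 6 7 4` sharing the edge `3 4`. -/
def T53 : Tab 8 6 := ![
  ![.inl (1, 2), .inr 0, .inl (4, 0)],
  ![.inl (2, 2), .inr 1, .inl (0, 0)],
  ![.inl (3, 2), .inr 2, .inl (1, 0)],
  ![.inl (4, 2), .inl (5, 2), .inl (2, 0)],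
  ![.inl (0, 2), .inl (7, 0), .inl (3, 0)],
  ![.inl (6, 2), .inr 3, .inl (3, 1)],
  ![.inl (7, 2), .inr 4, .inl (5, 0)],
  ![.inl (4, 1), .inr 5, .inl (6, 0)]]

/-- Pentagon `0..4` and a hexagon `3 5 6 7 8 4` sharing the edge `3 4`. -/
def T54 : Tab 9 7 := ![
  ![.inl (1, 2), .inr 0, .inl (4, 0)],
  ![.inl (2, 2), .inr 1, .inl (0, 0)],
  ![.inl (3, 2), .inr 2, .inl (1, 0)],
  ![.inl (4, 2), .inl (5, 2), .inl (2, 0)],
  ![.inl (0, 2), .inl (8, 0), .inl (3, 0)],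
  ![.inl (6, 2), .inr 3, .inl (3, 1)],
  ![.inl (7, 2), .inr 4, .inl (5, 0)],
  ![.inl (8, 2), .inr 5, .inl (6, 0)],
  ![.inl (4, 1), .inr 6, .inl (7, 0)]]

/-- The part of `T53` which remains after the pentagon reduction: `z` (index 0) and the three outer
vertices of the second pentagon. -/
def T53r : Tab 4 6 := ![
  ![.inl (3, 0), .inl (1, 2), .inr 2],
  ![.inl (2, 2), .inr 3, .inl (0, 1)],
  ![.inl (3, 2), .inr 4, .inl (1, 0)],
  ![.inl (0, 0), .inr 5, .inl (2, 0)]]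

/-- The part of `T54` which remains after the pentagon reduction: `z` (index 0) and the four outer
vertices of the hexagon. -/
def T54r : Tab 5 7 := ![
  ![.inl (4, 0), .inl (1, 2), .inr 2],
  ![.inl (2, 2), .inr 3, .inl (0, 1)],
  ![.inl (3, 2), .inr 4, .inl (1, 0)],
  ![.inl (4, 2), .inr 5, .inl (2, 0)],
  ![.inl (0, 0), .inr 6, .inl (3, 0)]]

/-- Restriction of an embedding of `T53` to the first pentagon. -/
def CMap.Emb.sub53 {V : Type} {M : CMap V} (E : M.Emb T53) : M.Emb Tp where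
  x := ![E.x 0, E.x 1, E.x 2, E.x 3, E.x 4]
  pos := ![E.pos 0, E.pos 1, E.pos 2, E.pos 3, E.pos 4]
  b := ![E.b 0, E.b 1, E.b 2, (E.x 5, E.pos 5 + 2), (E.x 7, E.pos 7 + 0)]
  inj := by
    have h : (![E.x 0, E.x 1, E.x 2, E.x 3, E.x 4] : Fin 5 → V) =
        E.x ∘ (![0, 1, 2, 3, 4] : Fin 5 → Fin 8) := by
      funext i; fin_cases i <;> rfl
    rw [h]
    exact E.inj.comp (by decide)
  out := by
    have h : ∀ i : Fin 5, (![E.x 0, E.x 1, E.x 2, E.x 3, E.x 4] : Fin 5 → V) i ∈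
        Set.range E.x := by
      intro i; fin_cases i <;> exact ⟨_, rfl⟩
    have h5 : E.x 5 ∉ Set.range (![E.x 0, E.x 1, E.x 2, E.x 3, E.x 4] : Fin 5 → V) := by
      rintro ⟨i, hi⟩
      fin_cases i <;> exact absurd (E.inj hi) (by decide)
    have h7 : E.x 7 ∉ Set.range (![E.x 0, E.x 1, E.x 2, E.x 3, E.x 4] : Fin 5 → V) := by
      rintro ⟨i, hi⟩
      fin_cases i <;> exact absurd (E.inj hi) (by decide)
    have hb : ∀ j, (E.b j).1 ∉ Set.range (![E.x 0, E.x 1, E.x 2, E.x 3, E.x 4] : Fin 5 → V) := by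
      rintro j ⟨i, hi⟩
      exact E.out j (hi ▸ h i)
    intro j
    fin_cases j
    exacts [hb 0, hb 1, hb 2, h5, h7]
  tgt := by
    intro i t
    fin_cases i <;> fin_cases t
    exacts [E.tgt 0 0, E.tgt 0 1, E.tgt 0 2, E.tgt 1 0, E.tgt 1 1, E.tgt 1 2, E.tgt 2 0, E.tgt 2 1,
      E.tgt 2 2, E.tgt 3 0, E.tgt 3 1, E.tgt 3 2, E.tgt 4 0, E.tgt 4 1, E.tgt 4 2]

/-- Restriction of an embedding of `T54` to the pentagon. -/
def CMap.Emb.sub54 {V : Type} {M : CMap V} (E : M.Emb T54) : M.Emb Tp where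
  x := ![E.x 0, E.x 1, E.x 2, E.x 3, E.x 4]
  pos := ![E.pos 0, E.pos 1, E.pos 2, E.pos 3, E.pos 4]
  b := ![E.b 0, E.b 1, E.b 2, (E.x 5, E.pos 5 + 2), (E.x 8, E.pos 8 + 0)]
  inj := by
    have h : (![E.x 0, E.x 1, E.x 2, E.x 3, E.x 4] : Fin 5 → V) =
        E.x ∘ (![0, 1, 2, 3, 4] : Fin 5 → Fin 9) := by
      funext i; fin_cases i <;> rfl
    rw [h]
    exact E.inj.comp (by decide)
  out := by
    have h : ∀ i : Fin 5, (![E.x 0, E.x 1, E.x 2, E.x 3, E.x 4] : Fin 5 → V) i ∈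
        Set.range E.x := by
      intro i; fin_cases i <;> exact ⟨_, rfl⟩
    have h5 : E.x 5 ∉ Set.range (![E.x 0, E.x 1, E.x 2, E.x 3, E.x 4] : Fin 5 → V) := by
      rintro ⟨i, hi⟩
      fin_cases i <;> exact absurd (E.inj hi) (by decide)
    have h8 : E.x 8 ∉ Set.range (![E.x 0, E.x 1, E.x 2, E.x 3, E.x 4] : Fin 5 → V) := by
      rintro ⟨i, hi⟩
      fin_cases i <;> exact absurd (E.inj hi) (by decide)
    have hb : ∀ j, (E.b j).1 ∉ Set.range (![E.x 0, E.x 1, E.x 2, E.x 3, E.x 4] : Fin 5 → V) := by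
      rintro j ⟨i, hi⟩
      exact E.out j (hi ▸ h i)
    intro j
    fin_cases j
    exacts [hb 0, hb 1, hb 2, h5, h8]
  tgt := by
    intro i t
    fin_cases i <;> fin_cases t
    exacts [E.tgt 0 0, E.tgt 0 1, E.tgt 0 2, E.tgt 1 0, E.tgt 1 1, E.tgt 1 2, E.tgt 2 0, E.tgt 2 1,
      E.tgt 2 2, E.tgt 3 0, E.tgt 3 1, E.tgt 3 2, E.tgt 4 0, E.tgt 4 1, E.tgt 4 2]

/-- Non-crossing condition for a family of admissible boundary vectors. -/
def NC {k : ℕ} (F : Fin 3 → (Fin k → ZMod 2) → Prop) : Prop :=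
  ∀ (p p' : Fin 3) (i j l n : Fin k), i < j → j < l → l < n →
    F p (ei i + ei l) → F p' (ei j + ei n) → p = p' ∧ F p (ei i + ei j)

/-- Boundary vectors on the five edges leaving the first pentagon of `T53`, expressed by the edges
leaving `T53`; `ρ` are the colours of the vertices `5, 6, 7`. -/
def Lift53 (ρ : Fin 3 → Fin 3) (F : Fin 3 → (Fin 6 → ZMod 2) → Prop) (p : Fin 3)
    (J5 : Fin 5 → ZMod 2) : Prop :=
  ∃ (e : Fin 3 → Fin 3 → ZMod 2) (J : Fin 6 → ZMod 2),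
    e 0 0 = e 1 2 ∧ e 1 0 = e 2 2 ∧ e 0 1 = J 3 ∧ e 1 1 = J 4 ∧ e 2 1 = J 5 ∧
    (∀ i, e i 0 + e i 1 + e i 2 = 0) ∧ (∀ i t, e i t ≠ 0 → ρ i ≠ p) ∧ F p J ∧
    J5 0 = J 0 ∧ J5 1 = J 1 ∧ J5 2 = J 2 ∧ J5 3 = e 0 2 ∧ J5 4 = e 2 0

/-- The same for `T54`; `ρ` are the colours of the vertices `5, 6, 7, 8`. -/
def Lift54 (ρ : Fin 4 → Fin 3) (F : Fin 3 → (Fin 7 → ZMod 2) → Prop) (p : Fin 3)
    (J5 : Fin 5 → ZMod 2) : Prop :=
  ∃ (e : Fin 4 → Fin 3 → ZMod 2) (J : Fin 7 → ZMod 2),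
    e 0 0 = e 1 2 ∧ e 1 0 = e 2 2 ∧ e 2 0 = e 3 2 ∧ e 0 1 = J 3 ∧ e 1 1 = J 4 ∧ e 2 1 = J 5 ∧
    e 3 1 = J 6 ∧
    (∀ i, e i 0 + e i 1 + e i 2 = 0) ∧ (∀ i t, e i t ≠ 0 → ρ i ≠ p) ∧ F p J ∧
    J5 0 = J 0 ∧ J5 1 = J 1 ∧ J5 2 = J 2 ∧ J5 3 = e 0 2 ∧ J5 4 = e 3 0

/-- The finite statement for two adjacent pentagons. -/
def FinSt53 : Prop :=
  ∀ (c : Fin 6 → Fin 3) (L : Fin 3 → Fin 6 → Fin 6) (z : Fin 3) (ρ : Fin 3 → Fin 3), c 0 ≠ c 1 →
    FA T53r (fun J => J 0 = J 1) c L ![z, ρ 0, ρ 1, ρ 2] → NC (EL c L) →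
    (BadA ![c 0, c 1, c 2, ρ 0, ρ 2] z (Lift53 ρ (EL c L)) ∨
      BadB ![c 0, c 1, c 2, ρ 0, ρ 2] z (Lift53 ρ (EL c L))) →
    ∃ g : Fin 8 → Fin 3, FA T53 (fun _ => True) c L g

/-- The finite statement for a pentagon and an adjacent hexagon. -/
def FinSt54 : Prop :=
  ∀ (c : Fin 7 → Fin 3) (L : Fin 3 → Fin 7 → Fin 7) (z : Fin 3) (ρ : Fin 4 → Fin 3), c 0 ≠ c 1 →
    FA T54r (fun J => J 0 = J 1) c L ![z, ρ 0, ρ 1, ρ 2, ρ 3] → NC (EL c L) →
    (BadA ![c 0, c 1, c 2, ρ 0, ρ 3] z (Lift54 ρ (EL c L)) ∨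
      BadB ![c 0, c 1, c 2, ρ 0, ρ 3] z (Lift54 ρ (EL c L))) →
    ∃ g : Fin 9 → Fin 3, FA T54 (fun _ => True) c L g

/-! ### Mirror image -/

/-- Reflection of darts. -/
def rfl3 {V : Type} (d : Dt V) : Dt V := (d.1, -d.2)

theorem rfl3_rfl3 {V : Type} (d : Dt V) : rfl3 (rfl3 d) = d := by
  simp [rfl3]

/-- The mirror image of a map. -/
def CMap.mir {V : Type} (M : CMap V) : CMap V where
  a d := rfl3 (M.a (rfl3 d))
  inv d := by rw [rfl3_rfl3, M.inv, rfl3_rfl3]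
  ne d h := M.ne (rfl3 d) (by
    have := congrArg rfl3 h
    rwa [rfl3_rfl3] at this)

/-! ### Contraction of one side of a 3-edge-cut -/

/-- `M'` is obtained from `M` by contracting the complement of `S` to one vertex `none`. -/
structure CMap.IsCtr {V : Type} (M : CMap V) (S : Set V) (M' : CMap (Option S)) : Prop where
  int : ∀ (v w : V) (hv : v ∈ S) (hw : w ∈ S) (i j : Fin 3),
    M.a (v, i) = (w, j) → M'.a (some ⟨v, hv⟩, i) = (some ⟨w, hw⟩, j)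
  bd : ∀ (v : V) (hv : v ∈ S) (i : Fin 3), (M.a (v, i)).1 ∉ S →
    (M'.a (some ⟨v, hv⟩, i)).1 = none

/-- `(f, c)` is a good colouring of the map obtained by contracting the complement of `S` to a vertex
of colour `c`. -/
def CMap.SideGood {V : Type} (M : CMap V) (S : Set V) (f : V → Fin 3) (c : Fin 3) : Prop :=
  (∀ d : Dt V, d.1 ∈ S → (M.a d).1 ∈ S → f (M.a d).1 ≠ f d.1) ∧
  (∀ d : Dt V, d.1 ∈ S → (M.a d).1 ∉ S → f d.1 ≠ c) ∧
  ∀ (p : Fin 3) (C : Dt V → ZMod 2), M.RCh Sᶜ C → CMap.Sup Sᶜ f p C →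
    (c = p → ∀ d : Dt V, d.1 ∈ S → (M.a d).1 ∉ S → C d = 0) → ∀ d : Dt V, d.1 ∈ S → C d = 0

/-- `h` is an acyclic colouring of the part `S`. -/
def CMap.PoleGood {V : Type} (M : CMap V) (S : Set V) (h : V → Fin 3) : Prop :=
  (∀ d : Dt V, d.1 ∈ S → (M.a d).1 ∈ S → h (M.a d).1 ≠ h d.1) ∧
  ∀ (p : Fin 3) (C : Dt V → ZMod 2), M.RCh Sᶜ C → CMap.Sup Sᶜ h p C →
    (∀ d : Dt V, d.1 ∈ S → (M.a d).1 ∉ S → C d = 0) → ∀ d : Dt V, d.1 ∈ S → C d = 0

/-- The part `S` has, for at least two of its outgoing darts `d`, an acyclic colouring for which the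
end in `S` of `d` has a colour `y` and all other ends of outgoing darts have the same colour
`x ≠ y`. -/
def CMap.SideU {V : Type} (M : CMap V) (S : Set V) : Prop :=
  ∃ d₁ d₂ : Dt V, d₁ ≠ d₂ ∧ ∀ d : Dt V, (d = d₁ ∨ d = d₂) → d.1 ∈ S ∧ (M.a d).1 ∉ S ∧
    ∃ (h : V → Fin 3) (x y : Fin 3), M.PoleGood S h ∧ x ≠ y ∧ h d.1 = y ∧
      ∀ d' : Dt V, d' ≠ d → d'.1 ∈ S → (M.a d').1 ∉ S → h d'.1 = x

/-! ### Faces -/

/-- The length of the face of the dart `d`. -/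
noncomputable def CMap.len {V : Type} (M : CMap V) (d : Dt V) : ℕ := Function.minimalPeriod M.ph d

/-- Adjacency. -/
def CMap.Adj {V : Type} (M : CMap V) (v w : V) : Prop := ∃ i, (M.a (v, i)).1 = w

/-- The cube `Q₃`. -/
def adjQ (a b : Fin 8) : Bool := (a.val ^^^ b.val == 1) || (a.val ^^^ b.val == 2) ||
  (a.val ^^^ b.val == 4)

/-- The planar dual `H` of `P₄ ∨ K₂`. -/
def adjH (a b : Fin 8) : Bool :=
  ((a, b) ∈ ({(0, 6), (0, 1), (1, 2), (2, 7), (3, 6), (3, 4), (4, 5), (5, 7), (0, 3), (1, 4),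
    (2, 5), (6, 7)} : Finset (Fin 8 × Fin 8))) || ((b, a) ∈ ({(0, 6), (0, 1), (1, 2), (2, 7),
    (3, 6), (3, 4), (4, 5), (5, 7), (0, 3), (1, 4), (2, 5), (6, 7)} : Finset (Fin 8 × Fin 8)))

end Acyc75
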