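import Mathlib

/-!
# MP_1e9f59_co : the three exceptions, forests and cycles

Auxiliary facts for the statement about the acyclic chromatic number: the cube and the dual of the
join of a path on four vertices and an edge have no acyclic 3-colouring, and they have acyclic
4-colourings.
-/

set_option autoImplicit false

namespace Acyc75

namespace Exc

open SimpleGraph

/-- A set which contains a cycle does not induce a forest. -/
theorem not_acyclic {V : Type*} {G : SimpleGraph V} {n : ℕ} (hn : 2 ≤ n) (f : ℕ → V)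
    (hf : ∀ i < n, G.Adj (f i) (f (i + 1))) (h0 : G.Adj (f 0) (f n))
    (hinj : ∀ i ≤ n, ∀ j ≤ n, f i = f j → i = j) (S : Set V) (hS : ∀ i, f i ∈ S) :
    ¬ (G.induce S).IsAcyclic := by
  intro h
  rw [isAcyclic_iff_forall_adj_isBridge] at h
  have hb := @h ⟨f 0, hS 0⟩ ⟨f n, hS n⟩ h0
  rw [isBridge_iff] at hb
  apply hb
  have key : ∀ k ≤ n, ((G.induce S).deleteEdges
      {s((⟨f 0, hS 0⟩ : S), (⟨f n, hS n⟩ : S))}).Reachable ⟨f 0, hS 0⟩ ⟨f k, hS k⟩ := by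
    intro k
    induction k with
    | zero => intro _; exact Reachable.refl _
    | succ k ih =>
      intro hk
      refine (ih (by omega)).trans (Adj.reachable ?_)
      rw [deleteEdges_adj]
      refine ⟨hf k (by omega), ?_⟩
      rw [Set.mem_singleton_iff, Sym2.eq_iff]
      rintro (⟨h1, h2⟩ | ⟨h1, h2⟩)
      · have e1 := hinj k (by omega) 0 (by omega) (congrArg Subtype.val h1)
        have e2 := hinj (k + 1) (by omega) n le_rfl (congrArg Subtype.val h2)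
        omega
      · have e1 := hinj k (by omega) n le_rfl (congrArg Subtype.val h1)
        omega
  exact key n le_rfl

/-- A graph in which every vertex has at most one neighbour of smaller rank is a forest. -/
theorem acyclic_of_rank {W : Type*} {G : SimpleGraph W} (r : W → ℕ) (hr : Function.Injective r)
    (h : ∀ v a b, G.Adj v a → G.Adj v b → r a < r v → r b < r v → a = b) : G.IsAcyclic := by
  classical
  intro u w hw
  obtain ⟨x, hx, hmax⟩ : ∃ x ∈ w.support.toFinset, ∀ y ∈ w.support.toFinset, r y ≤ r x :=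
    Finset.exists_max_image _ r ⟨u, by simp⟩
  rw [List.mem_toFinset] at hx
  have h2 := hw.ncard_neighborSet_toSubgraph_eq_two hx
  rw [Set.ncard_eq_two] at h2
  obtain ⟨a, b, hab, hS⟩ := h2
  have hlt : ∀ y ∈ w.toSubgraph.neighborSet x, G.Adj x y ∧ r y < r x := by
    intro y hy
    rw [Subgraph.mem_neighborSet] at hy
    have hadj : G.Adj x y := hy.adj_sub
    refine ⟨hadj, lt_of_le_of_ne (hmax y ?_) fun e => hadj.ne (hr e).symm⟩
    rw [List.mem_toFinset]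
    have := hy.snd_mem
    simpa using this
  have ha := hlt a (by rw [hS]; simp)
  have hb := hlt b (by rw [hS]; simp)
  exact hab (h x a b ha.1 hb.1 ha.2 hb.2)

/-- The adjacency of the cube on the vertex set `Fin 8`. -/
def q8 (x y : Fin 8) : Bool :=
  (x, y) ∈ [((0 : Fin 8), (1 : Fin 8)), (0, 2), (0, 4), (1, 3), (1, 5), (2, 3), (2, 6), (3, 7),
    (4, 5), (4, 6), (5, 7), (6, 7), (1, 0), (2, 0), (4, 0), (3, 1), (5, 1), (3, 2), (6, 2), (7, 3),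
    (5, 4), (6, 4), (7, 5), (7, 6)]

/-- The adjacency of the third exception on the vertex set `Fin 8` (`a = 0`, ..., `h = 7`). -/
def h8 (x y : Fin 8) : Bool :=
  (x, y) ∈ [((0 : Fin 8), (1 : Fin 8)), (0, 2), (1, 2), (1, 3), (2, 4), (3, 4), (0, 5), (3, 6),
    (4, 7), (5, 6), (6, 7), (5, 7), (1, 0), (2, 0), (2, 1), (3, 1), (4, 2), (4, 3), (5, 0), (6, 3),
    (7, 4), (6, 5), (7, 6), (7, 5)]

/-- The cycle through the vertices of a list, as a function on `ℕ`. -/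
def fn {V : Type*} (a : V) (L : List V) (i : ℕ) : V := L.getD i a

set_option synthInstance.maxSize 100000 in
set_option maxRecDepth 100000 in
theorem q_core : ∀ a0 a1 : Fin 3, a0 ≠ a1 → ∀ a2, a0 ≠ a2 → ∀ a3, a1 ≠ a3 → a2 ≠ a3 →
    ∀ a4, a0 ≠ a4 → ∀ a5, a1 ≠ a5 → a4 ≠ a5 → ∀ a6, a2 ≠ a6 → a4 ≠ a6 →
    ∀ a7, a3 ≠ a7 → a5 ≠ a7 → a6 ≠ a7 → ∃ p : Fin 3,
      (a0 ≠ p ∧ a1 ≠ p ∧ a3 ≠ p ∧ a2 ≠ p) ∨ (a0 ≠ p ∧ a1 ≠ p ∧ a5 ≠ p ∧ a4 ≠ p) ∨
      (a0 ≠ p ∧ a2 ≠ p ∧ a6 ≠ p ∧ a4 ≠ p) ∨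
      (a1 ≠ p ∧ a3 ≠ p ∧ a2 ≠ p ∧ a6 ≠ p ∧ a4 ≠ p ∧ a5 ≠ p) ∨
      (a0 ≠ p ∧ a1 ≠ p ∧ a3 ≠ p ∧ a7 ≠ p ∧ a6 ≠ p ∧ a4 ≠ p) ∨
      (a0 ≠ p ∧ a1 ≠ p ∧ a5 ≠ p ∧ a7 ≠ p ∧ a6 ≠ p ∧ a2 ≠ p) ∨
      (a0 ≠ p ∧ a2 ≠ p ∧ a3 ≠ p ∧ a7 ≠ p ∧ a5 ≠ p ∧ a4 ≠ p) := by
  decide

set_option synthInstance.maxSize 100000 in
set_option maxRecDepth 100000 in
theorem h_core : ∀ a0 a1 : Fin 3, a0 ≠ a1 → ∀ a2, a0 ≠ a2 → a1 ≠ a2 → ∀ a3, a1 ≠ a3 →
    ∀ a4, a2 ≠ a4 → a3 ≠ a4 → ∀ a5, a0 ≠ a5 → ∀ a6, a3 ≠ a6 → a5 ≠ a6 →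
    ∀ a7, a4 ≠ a7 → a6 ≠ a7 → a5 ≠ a7 → ∃ p : Fin 3,
      (a1 ≠ p ∧ a2 ≠ p ∧ a4 ≠ p ∧ a3 ≠ p) ∨ (a3 ≠ p ∧ a4 ≠ p ∧ a7 ≠ p ∧ a6 ≠ p) ∨
      (a0 ≠ p ∧ a1 ≠ p ∧ a3 ≠ p ∧ a4 ≠ p ∧ a7 ≠ p ∧ a5 ≠ p) ∨
      (a0 ≠ p ∧ a2 ≠ p ∧ a4 ≠ p ∧ a3 ≠ p ∧ a6 ≠ p ∧ a5 ≠ p) := by
  decide

theorem third : ∀ p x : Fin 3, x ≠ p → x = p + 1 ∨ x = p + 2 := by decide

theorem third_ne : ∀ p : Fin 3, p + 1 ≠ p + 2 := by decide

/-- A cycle given by a list avoiding the colour `p` gives a pair of colours which does not induce a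
forest. -/
theorem pair_of_list {V : Type*} {G : SimpleGraph V} (e : Fin 8 → V) (he : Function.Injective e)
    (A : Fin 8 → Fin 8 → Bool) (hA : ∀ x y, A x y = true → G.Adj (e x) (e y))
    (c : V → Fin 3) (p : Fin 3) (L : List (Fin 8)) (n : ℕ) (hn : 2 ≤ n)
    (h1 : ∀ i < n, A (fn (L.headD 0) L i) (fn (L.headD 0) L (i + 1)) = true)
    (h2 : A (fn (L.headD 0) L 0) (fn (L.headD 0) L n) = true)
    (h3 : ∀ i ≤ n, ∀ j ≤ n, fn (L.headD 0) L i = fn (L.headD 0) L j → i = j)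
    (hp : ∀ x ∈ L, c (e x) ≠ p) (hL : L ≠ []) :
    ¬ (G.induce (c ⁻¹' {p + 1, p + 2})).IsAcyclic := by
  refine not_acyclic hn (fun i => e (fn (L.headD 0) L i)) (fun i hi => hA _ _ (h1 i hi)) (hA _ _ h2)
    (fun i hi j hj h => h3 i hi j hj (he h)) _ ?_
  intro i
  have hmem : fn (L.headD 0) L i ∈ L := by
    unfold fn
    rw [List.getD_eq_getElem?_getD]
    cases hg : L[i]? with
    | none =>
      simp only [Option.getD_none]
      cases L with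
      | nil => exact absurd rfl hL
      | cons a t => simp
    | some y =>
      simp only [Option.getD_some]
      exact List.mem_of_getElem? hg
  have h4 := third p _ (hp _ hmem)
  simp only [Set.mem_preimage, Set.mem_insert_iff, Set.mem_singleton_iff]
  exact h4

end Exc

end Acyc75
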