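import Pool.Agent.Lib.MP_1e9f59_co.Spec

/-!
# MP_1e9f59_co : a checker for the finite statements
-/

set_option autoImplicit false

namespace Acyc75

namespace Fc

/-! ### Programs -/

/-- a bit of a number -/
def bit (x i : ℕ) : Bool := Nat.beq (Nat.land (Nat.shiftRight x i) 1) 1

/-- table of the parities of the numbers below 128 -/
def PT : ℕ := 0x96696996699696696996966996696996

/-- parity of the number of bits of a number below 128 -/
def odd (x : ℕ) : Bool := bit PT x

/-- `v` has an even number of common bits with all masks -/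
def evn (v : ℕ) (ms : List ℕ) : Bool := ms.all fun m => !(odd (Nat.land v m))

/-- extensions of a partial partition by the element `d` -/
def ext (nf d : ℕ) (ms : List ℕ) : List (List ℕ) :=
  (ms ++ [2 ^ d]) :: (if bit nf d then
    (List.range d).filterMap (fun j => if bit nf j && !(Nat.beq (ms.getD j 0) 0) then
      some (ms.set j (Nat.xor (ms.getD j 0) (2 ^ d)) ++ [0]) else none) else [])

/-- enumeration of the partitions for which no vector of `H` is even -/
def enum (nf : ℕ) (H : List ℕ) : ℕ → List (List ℕ)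
  | 0 => [[]]
  | d + 1 => ((enum nf H d).flatMap (ext nf d)).filter
      (fun ms => (H.filter (fun v => Nat.beq (Nat.log2 v) d)).all (fun v => !(evn v ms)))

/-- data of a table: the mask of the inner edges, the incidences, the masks of the vertices -/
structure TC where
  A : ℕ
  inc : List (ℕ × ℕ × ℕ)
  vm : List ℕ

/-- mask of the positions of a list which are different from `p` -/
def nem (p : ℕ) : List ℕ → ℕ
  | [] => 0
  | a :: l => Nat.bit (!(Nat.beq a p)) (nem p l)

/-- mask of the edges which may be used by a chain avoiding the colour `p` -/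
def un (tc : TC) (g : List ℕ) (nf p : ℕ) : ℕ :=
  tc.inc.foldl (fun Z q => if Nat.beq (g.getD q.2.1 0) p || Nat.beq (g.getD q.2.2 0) p then
    Nat.xor Z (Nat.land Z (2 ^ q.1)) else Z) (Nat.lor nf tc.A)

/-- propagation step -/
def stp (Z u : ℕ) : ℕ := if Nat.beq u (2 ^ (Nat.log2 u)) then Nat.xor Z u else Z

/-- propagation -/
def prop (cs : List ℕ) : ℕ → ℕ → Bool
  | 0, Z => Nat.beq Z 0
  | n + 1, Z => if Nat.beq Z 0 then true else
      prop cs n (cs.foldl (fun Z m => stp Z (Nat.land m Z)) Z)

/-- proper colouring -/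
def proper (k : ℕ) (tc : TC) (g c : List ℕ) : Bool :=
  tc.inc.all (fun q => if Nat.blt q.1 k then !(Nat.beq (g.getD q.2.1 0) (c.getD q.1 0)) else
    !(Nat.beq (g.getD q.2.1 0) (g.getD q.2.2 0)))

/-- the forbidden boundary vectors -/
def hvs (k : ℕ) (HV : List ℕ) (Z : ℕ) : List ℕ :=
  (HV.filter (fun v => Nat.beq (Nat.land v Z) v)).map (fun v => v % 2 ^ k)

/-- the colouring `g` works for the colour `p` -/
def fa (tc : TC) (g : List ℕ) (nf p : ℕ) (ms : List ℕ) : Bool :=
  prop (tc.vm ++ ms) 12 (un tc g nf p)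

/-- look up in a table -/
def look (tab : List (List ℕ × List (List ℕ))) (c : List ℕ) : List (List ℕ) :=
  tab.foldr (fun q r => if q.1 == c then q.2 else r) []

/-- the colours -/
def R3 : List ℕ := [0, 1, 2]

/-! ### Bits -/

theorem beq_iff (a b : ℕ) : Nat.beq a b = true ↔ a = b := by
  rw [Nat.beq_eq]

theorem bit_eq (x i : ℕ) : bit x i = x.testBit i := by
  rw [Nat.testBit_eq_decide_div_mod_eq]
  unfold bit
  have h : Nat.land (Nat.shiftRight x i) 1 = x / 2 ^ i % 2 := by
    have h1 : Nat.land (Nat.shiftRight x i) 1 = (x >>> i) &&& 1 := rfl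
    rw [h1, Nat.and_one_is_mod, Nat.shiftRight_eq_div_pow]
  rw [h, Bool.eq_iff_iff, beq_iff, decide_eq_true_iff]

/-- sum of the values of the bits of `m` -/
def S (N : ℕ) (val : ℕ → ZMod 2) (m : ℕ) : ZMod 2 :=
  ∑ x ∈ Finset.range N, if m.testBit x then val x else 0

theorem S_zero (N : ℕ) (val : ℕ → ZMod 2) : S N val 0 = 0 := by simp [S]

theorem S_pow {N a : ℕ} (h : a < N) (val : ℕ → ZMod 2) : S N val (2 ^ a) = val a := by
  unfold S
  simp only [Nat.testBit_two_pow]
  rw [Finset.sum_eq_single a]
  · simp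
  · intro b _ hb
    simp [hb.symm]
  · intro h'
    exact absurd (Finset.mem_range.2 h) h'

theorem z2_add_self (v : ZMod 2) : v + v = 0 := by
  revert v
  decide

theorem S_xor (N : ℕ) (val : ℕ → ZMod 2) (m m' : ℕ) :
    S N val (m ^^^ m') = S N val m + S N val m' := by
  unfold S
  rw [← Finset.sum_add_distrib]
  refine Finset.sum_congr rfl fun x _ => ?_
  rw [Nat.testBit_xor]
  cases m.testBit x <;> cases m'.testBit x <;> simp [z2_add_self]

/-! ### Classes -/

/-- mask of the elements below `d` which are related to `l` -/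
def mk (R : ℕ → ℕ → Bool) (l : ℕ) : ℕ → ℕ
  | 0 => 0
  | d + 1 => if R d l then mk R l d ^^^ 2 ^ d else mk R l d

/-- `l` is the first element of its class -/
def root (R : ℕ → ℕ → Bool) (l : ℕ) : Bool := (List.range l).all fun i => !R i l

/-- the masks of the classes -/
def cd (R : ℕ → ℕ → Bool) (d : ℕ) : List ℕ :=
  (List.range d).map fun l => if root R l then mk R l d else 0

theorem S_mk (N : ℕ) (val : ℕ → ZMod 2) (R : ℕ → ℕ → Bool) (l d : ℕ) (h : d ≤ N) :
    S N val (mk R l d) = ∑ i ∈ Finset.range d, if R i l then val i else 0 := by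
  induction d with
  | zero => simp [mk, S_zero]
  | succ d ih =>
    rw [Finset.sum_range_succ, ← ih (by omega), mk]
    split_ifs with h1
    · rw [S_xor, S_pow (by omega)]
    · rw [add_zero]

theorem testBit_mk (R : ℕ → ℕ → Bool) (l d i : ℕ) :
    (mk R l d).testBit i = (decide (i < d) && R i l) := by
  induction d with
  | zero => simp [mk]
  | succ d ih =>
    rw [mk]
    split_ifs with h1
    · rw [Nat.testBit_xor, ih, Nat.testBit_two_pow]
      by_cases h2 : d = i
      · subst h2
        simp [h1]
      · have h3 : (i < d + 1) ↔ i < d := by omega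
        simp [h2, h3]
    · rw [ih]
      by_cases h2 : i = d
      · subst h2
        simp [h1]
      · have h3 : (i < d + 1) ↔ i < d := by omega
        simp [h3]

theorem mk_zero (R : ℕ → ℕ → Bool) (l d : ℕ) (h : ∀ i, i < d → R i l = false) : mk R l d = 0 := by
  induction d with
  | zero => rfl
  | succ d ih => rw [mk, if_neg (by simp [h d (by omega)]), ih fun i hi => h i (by omega)]

theorem root_iff (R : ℕ → ℕ → Bool) (l : ℕ) : root R l = true ↔ ∀ i, i < l → R i l = false := by
  simp [root]

theorem length_cd (R : ℕ → ℕ → Bool) (d : ℕ) : (cd R d).length = d := by simp [cd]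

theorem getD_cd (R : ℕ → ℕ → Bool) (d l : ℕ) (h : l < d) :
    (cd R d).getD l 0 = if root R l then mk R l d else 0 := by
  simp [cd, List.getD, h]

/-- properties of the relation -/
structure Eqv (k nf : ℕ) (R : ℕ → ℕ → Bool) : Prop where
  refl : ∀ i, i < k → R i i = true
  symm : ∀ i j, i < k → j < k → R i j = true → R j i = true
  trans : ∀ i j l, i < k → j < k → l < k → R i j = true → R j l = true → R i l = true
  nf : ∀ i j, i < k → j < k → i ≠ j → R i j = true → nf.testBit i = true

theorem cd_succ_mem {k nf : ℕ} {R : ℕ → ℕ → Bool} (hR : Eqv k nf R) (d : ℕ) (hd : d < k) :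
    cd R (d + 1) ∈ ext nf d (cd R d) := by
  unfold ext
  have hlast : cd R (d + 1) = ((List.range d).map fun l => if root R l then mk R l (d + 1) else 0) ++
      [if root R d then mk R d (d + 1) else 0] := by
    unfold cd
    rw [List.range_succ, List.map_append]
    rfl
  by_cases hroot : root R d = true
  · have h0 := (root_iff R d).1 hroot
    refine List.mem_cons.2 (Or.inl ?_)
    rw [hlast, if_pos hroot]
    congr 1
    · unfold cd
      refine List.map_congr_left fun l hl => ?_
      have hl' := List.mem_range.1 hl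
      split_ifs with h1
      · rw [mk, if_neg]
        intro h2
        have := hR.symm d l hd (by omega) h2
        rw [h0 l hl'] at this
        exact absurd this (by simp)
      · rfl
    · rw [mk, if_pos (hR.refl d hd), mk_zero R d d h0, Nat.zero_xor]
  · have hex : ∃ j, j < d ∧ R j d = true := by
      by_contra hcon
      push Not at hcon
      exact hroot ((root_iff R d).2 fun i hi => by
        have := hcon i hi
        simpa using this)
    classical
    obtain ⟨j, ⟨hjd, hj⟩, hmin⟩ : ∃ j, (j < d ∧ R j d = true) ∧ ∀ i, i < j → ¬ (i < d ∧ R i d = true) :=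
      ⟨Nat.find hex, Nat.find_spec hex, fun i hi => Nat.find_min hex hi⟩
    have hjr : root R j = true := by
      rw [root_iff]
      intro i hi
      by_contra hc
      have hc' : R i j = true := by simpa using hc
      exact hmin i hi ⟨by omega, hR.trans i j d (by omega) (by omega) hd hc' hj⟩
    have hdj : R d j = true := hR.symm j d (by omega) hd hj
    have hnfd : bit nf d = true := by
      rw [bit_eq]
      exact hR.nf d j hd (by omega) (by omega) hdj
    have hnfj : bit nf j = true := by
      rw [bit_eq]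
      exact hR.nf j d (by omega) hd (by omega) hj
    refine List.mem_cons.2 (Or.inr ?_)
    rw [if_pos hnfd, List.mem_filterMap]
    refine ⟨j, List.mem_range.2 hjd, ?_⟩
    have hgj : (cd R d).getD j 0 = mk R j d := by
      rw [getD_cd R d j hjd, if_pos hjr]
    have hne : Nat.beq (mk R j d) 0 = false := by
      rw [Bool.eq_false_iff]
      intro h
      rw [beq_iff] at h
      have h2 := testBit_mk R j d j
      rw [h] at h2
      simp [hjd, hR.refl j (by omega)] at h2
    rw [hgj, hnfj, hne]
    simp only [Bool.not_false, Bool.and_self, if_true, Option.some.injEq]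
    rw [hlast, if_neg hroot]
    congr 1
    refine List.ext_getElem (by simp [cd]) fun l h1 h2 => ?_
    have hl : l < d := by simpa [cd] using h1
    rw [List.getElem_set]
    simp only [List.getElem_map, List.getElem_range, cd]
    by_cases hlj : j = l
    · subst hlj
      rw [if_pos rfl, if_pos hjr, mk, if_pos hdj]
      rfl
    · rw [if_neg hlj]
      split_ifs with h3
      · rw [mk, if_neg]
        intro h4
        have h5 : R l j = true := hR.trans l d j (by omega) hd (by omega)
          (hR.symm d l hd (by omega) h4) hdj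
        have h6 : R j l = true := hR.symm l j (by omega) (by omega) h5
        rcases lt_or_gt_of_ne hlj with h7 | h7
        · rw [(root_iff R l).1 h3 j h7] at h6
          exact absurd h6 (by simp)
        · rw [(root_iff R j).1 hjr l h7] at h5
          exact absurd h5 (by simp)
      · rfl

theorem enum_mem {k nf : ℕ} {R : ℕ → ℕ → Bool} (hR : Eqv k nf R) (H : List ℕ)
    (hH : ∀ v ∈ H, ∀ d, d < k → v < 2 ^ (d + 1) → evn v (cd R (d + 1)) = false) (d : ℕ)
    (hd : d ≤ k) : cd R d ∈ enum nf H d := by
  induction d with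
  | zero => simp [cd, enum]
  | succ d ih =>
    rw [enum, List.mem_filter]
    refine ⟨List.mem_flatMap.2 ⟨cd R d, ih (by omega), cd_succ_mem hR d (by omega)⟩, ?_⟩
    rw [List.all_eq_true]
    intro v hv
    rw [List.mem_filter, beq_iff] at hv
    rw [hH v hv.1 d (by omega)]
    · rfl
    · by_cases h0 : v = 0
      · rw [h0]
        positivity
      · rw [← hv.2]
        exact Nat.lt_log2_self

/-! ### The relation of a labelling -/

section Labels

variable {k : ℕ} (c : Fin k → Fin 3) (L : Fin 3 → Fin k → Fin k) (p : Fin 3)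

/-- the relation of a labelling -/
def Rel (i j : ℕ) : Bool :=
  decide (∃ (hi : i < k) (hj : j < k), i = j ∨ (c ⟨i, hi⟩ ≠ p ∧ c ⟨j, hj⟩ ≠ p ∧
    L p ⟨i, hi⟩ = L p ⟨j, hj⟩))

theorem Rel_iff (i j : Fin k) : Rel c L p i j = true ↔
    (i = j ∨ (c i ≠ p ∧ c j ≠ p ∧ L p i = L p j)) := by
  simp [Rel, Fin.ext_iff]

theorem testBit_nem (q : ℕ) (l : List ℕ) (i : ℕ) :
    (nem q l).testBit i = (decide (i < l.length) && decide (l.getD i 0 ≠ q)) := by
  induction l generalizing i with
  | nil => simp [nem]
  | cons a l ih =>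
    rw [nem]
    cases i with
    | zero =>
      rw [Nat.testBit_bit_zero, Bool.eq_iff_iff]
      simp only [List.length_cons, List.getD_cons_zero, Bool.not_eq_true', Bool.and_eq_true,
        decide_eq_true_eq]
      rw [← Bool.not_eq_true, beq_iff]
      exact ⟨fun h => ⟨by omega, h⟩, fun h => h.2⟩
    | succ i =>
      rw [Nat.testBit_bit_succ, ih]
      simp

/-- the list of the values of a function -/
def lst {n : ℕ} (f : Fin n → Fin 3) : List ℕ := List.ofFn fun i => (f i).val

theorem getD_lst {n : ℕ} (f : Fin n → Fin 3) (i : Fin n) : (lst f).getD i 0 = (f i).val := by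
  simp [lst, List.getD]

theorem length_lst {n : ℕ} (f : Fin n → Fin 3) : (lst f).length = n := by simp [lst]

theorem nem_iff {n : ℕ} (f : Fin n → Fin 3) (q : Fin 3) (i : Fin n) :
    (nem q.val (lst f)).testBit i = true ↔ f i ≠ q := by
  rw [testBit_nem, getD_lst, length_lst]
  simp [Fin.ext_iff]

theorem eqv : Eqv k (nem p.val (lst c)) (Rel c L p) := by
  refine ⟨fun i hi => ?_, fun i j hi hj h => ?_, fun i j l hi hj hl h h' => ?_,
    fun i j hi hj hne h => ?_⟩
  · exact (Rel_iff c L p ⟨i, hi⟩ ⟨i, hi⟩).2 (Or.inl rfl)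
  · rcases (Rel_iff c L p ⟨i, hi⟩ ⟨j, hj⟩).1 h with h | h
    · exact (Rel_iff c L p ⟨j, hj⟩ ⟨i, hi⟩).2 (Or.inl h.symm)
    · exact (Rel_iff c L p ⟨j, hj⟩ ⟨i, hi⟩).2 (Or.inr ⟨h.2.1, h.1, h.2.2.symm⟩)
  · refine (Rel_iff c L p ⟨i, hi⟩ ⟨l, hl⟩).2 ?_
    rcases (Rel_iff c L p ⟨i, hi⟩ ⟨j, hj⟩).1 h with h | h
    · rw [h]
      exact (Rel_iff c L p ⟨j, hj⟩ ⟨l, hl⟩).1 h'
    · rcases (Rel_iff c L p ⟨j, hj⟩ ⟨l, hl⟩).1 h' with h' | h'
      · rw [← h']
        exact Or.inr h
      · exact Or.inr ⟨h.1, h'.2.1, h.2.2.trans h'.2.2⟩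
  · rcases (Rel_iff c L p ⟨i, hi⟩ ⟨j, hj⟩).1 h with h | h
    · exact absurd (Fin.ext_iff.1 h) hne
    · exact (nem_iff c p ⟨i, hi⟩).2 h.1

/-- extension of a boundary vector by zero -/
def exz (J : Fin k → ZMod 2) (x : ℕ) : ZMod 2 := if h : x < k then J ⟨x, h⟩ else 0

variable {c L p}

theorem even_of_EL {J : Fin k → ZMod 2} (h : EL c L p J) {N : ℕ} (hN : k ≤ N) (val : ℕ → ZMod 2)
    (hval : ∀ j : Fin k, val j = J j) : ∀ m ∈ cd (Rel c L p) k, S N val m = 0 := by
  intro m hm
  unfold cd at hm
  rw [List.mem_map] at hm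
  obtain ⟨l, hl, rfl⟩ := hm
  have hl' := List.mem_range.1 hl
  split_ifs with h1
  · rw [S_mk N val _ l k hN, ← Fin.sum_univ_eq_sum_range
      (fun i => if Rel c L p i l = true then val i else 0) k]
    by_cases hc : c ⟨l, hl'⟩ = p
    · refine Finset.sum_eq_zero fun i _ => ?_
      split_ifs with h2
      · rcases (Rel_iff c L p i ⟨l, hl'⟩).1 h2 with h2 | h2
        · rw [hval, h2]
          by_contra h3
          exact h.1 _ h3 hc
        · exact absurd hc h2.2.1
      · rfl
    · refine Eq.trans ?_ (h.2 (L p ⟨l, hl'⟩))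
      refine Finset.sum_congr rfl fun i _ => ?_
      by_cases h3 : J i = 0
      · rw [hval, h3]
        simp
      · have h4 := h.1 i h3
        have h5 : Rel c L p i l = true ↔ L p i = L p ⟨l, hl'⟩ := by
          refine (Rel_iff c L p i ⟨l, hl'⟩).trans ⟨?_, fun h => Or.inr ⟨h4, hc, h⟩⟩
          rintro (h | h)
          · rw [h]
          · exact h.2.2
        rw [hval]
        by_cases h6 : L p i = L p ⟨l, hl'⟩
        · rw [if_pos (h5.2 h6), if_pos h6]
        · rw [if_neg (fun h => h6 (h5.1 h)), if_neg h6]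
  · exact S_zero _ _

theorem EL_of_even {J : Fin k → ZMod 2} {d : ℕ} (hd : d ≤ k) (hJ : ∀ i : Fin k, J i ≠ 0 → i.val < d)
    (h : ∀ m ∈ cd (Rel c L p) d, S k (exz J) m = 0) : EL c L p J := by
  have hval : ∀ i : Fin k, exz J i = J i := by
    intro i
    simp [exz]
  have key : ∀ r : Fin k, r.val < d → root (Rel c L p) r = true →
      ∑ i : Fin k, (if Rel c L p i r = true then J i else 0) = 0 := by
    intro r hr hroot
    have h1 : mk (Rel c L p) r d ∈ cd (Rel c L p) d := by
      unfold cd
      exact List.mem_map.2 ⟨r, List.mem_range.2 hr, by rw [if_pos hroot]⟩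
    have h2 := h _ h1
    rw [S_mk k _ _ r d hd] at h2
    refine Eq.trans ?_ h2
    have h3 : ∑ i ∈ Finset.range d, (if Rel c L p i r = true then exz J i else 0) =
        ∑ i ∈ Finset.range k, (if Rel c L p i r = true then exz J i else 0) := by
      refine Finset.sum_subset (fun i hi => ?_) fun i hi hi' => ?_
      · rw [Finset.mem_range] at hi ⊢
        omega
      · rw [Finset.mem_range] at hi hi'
        have : exz J i = 0 := by
          by_contra h4
          have h5 := hval ⟨i, hi⟩
          rw [h5] at h4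
          exact hi' (hJ _ h4)
        rw [this]
        simp
    rw [h3, ← Fin.sum_univ_eq_sum_range
      (fun i => if Rel c L p i r = true then exz J i else 0) k]
    refine Finset.sum_congr rfl fun i _ => ?_
    rw [hval]
  have hcol : ∀ i, J i ≠ 0 → c i ≠ p := by
    intro i hi hc
    have hroot : root (Rel c L p) i = true := by
      rw [root_iff]
      intro j hj
      by_contra h1
      have h2 : Rel c L p j i = true := by simpa using h1
      rcases (Rel_iff c L p ⟨j, by omega⟩ i).1 h2 with h3 | h3
      · rw [Fin.ext_iff] at h3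
        simp at h3
        omega
      · exact h3.2.1 hc
    have h1 := key i (hJ i hi) hroot
    rw [Finset.sum_eq_single i] at h1
    · rw [if_pos ((Rel_iff c L p i i).2 (Or.inl rfl))] at h1
      exact hi h1
    · intro j _ hj
      rw [if_neg]
      intro h2
      rcases (Rel_iff c L p j i).1 h2 with h3 | h3
      · exact hj h3
      · exact h3.2.1 hc
    · intro h2
      exact absurd (Finset.mem_univ i) h2
  refine ⟨hcol, fun l => ?_⟩
  by_cases hex : ∃ i : Fin k, c i ≠ p ∧ L p i = l ∧ J i ≠ 0
  · -- the least element of the class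
    classical
    have hex2 : ∃ n, ∃ hn : n < k, c ⟨n, hn⟩ ≠ p ∧ L p ⟨n, hn⟩ = l := by
      obtain ⟨i, h1, h2, _⟩ := hex
      exact ⟨i, i.2, h1, h2⟩
    obtain ⟨hr, hrc, hrl⟩ := Nat.find_spec hex2
    have hmin := fun i (hi : i < Nat.find hex2) => Nat.find_min hex2 hi
    set r := Nat.find hex2 with hrd
    have hrle : r < d := by
      obtain ⟨i, h1, h2, h3⟩ := hex
      have h4 : r ≤ i := by
        by_contra h5
        exact hmin i (by omega) ⟨i.2, h1, h2⟩
      have := hJ i h3
      omega
    have hroot : root (Rel c L p) r = true := by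
      rw [root_iff]
      intro j hj
      by_contra h1
      have h2 : Rel c L p j r = true := by simpa using h1
      rcases (Rel_iff c L p ⟨j, by omega⟩ ⟨r, hr⟩).1 h2 with h3 | h3
      · rw [Fin.ext_iff] at h3
        simp at h3
        omega
      · exact hmin j hj ⟨by omega, h3.1, h3.2.2.trans hrl⟩
    refine Eq.trans ?_ (key ⟨r, hr⟩ hrle hroot)
    refine Finset.sum_congr rfl fun i _ => ?_
    by_cases h3 : J i = 0
    · rw [h3]
      simp
    · have h4 := hcol i h3
      have h5 : Rel c L p i r = true ↔ L p i = l := by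
        refine (Rel_iff c L p i ⟨r, hr⟩).trans ⟨?_, fun h => Or.inr ⟨h4, hrc, h.trans hrl.symm⟩⟩
        rintro (h | h)
        · rw [h]
          exact hrl
        · exact h.2.2.trans hrl
      by_cases h6 : L p i = l
      · rw [if_pos h6, if_pos (h5.2 h6)]
      · rw [if_neg h6, if_neg (fun h => h6 (h5.1 h))]
  · refine Finset.sum_eq_zero fun i _ => ?_
    split_ifs with h1
    · by_contra h2
      exact hex ⟨i, hcol i h2, h1, h2⟩
    · rfl

end Labels

/-! ### Parities -/

/-- the vector of a number -/
def dec (k v : ℕ) : Fin k → ZMod 2 := fun i => if v.testBit i then 1 else 0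

theorem parity_table : ∀ x < 128, (∑ i ∈ Finset.range 7, if x.testBit i then (1 : ZMod 2) else 0) =
    if odd x then 1 else 0 := by
  decide +kernel

theorem evn_iff {k v : ℕ} (hk : k ≤ 7) (hv : v < 2 ^ k) (ms : List ℕ) :
    evn v ms = true ↔ ∀ m ∈ ms, S k (exz (dec k v)) m = 0 := by
  unfold evn
  rw [List.all_eq_true]
  refine forall₂_congr fun m _ => ?_
  have h1 : S k (exz (dec k v)) m =
      ∑ i ∈ Finset.range 7, if (v &&& m).testBit i then (1 : ZMod 2) else 0 := by
    unfold S
    have h2 : ∑ i ∈ Finset.range 7, (if (v &&& m).testBit i then (1 : ZMod 2) else 0) =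
        ∑ i ∈ Finset.range k, (if (v &&& m).testBit i then (1 : ZMod 2) else 0) := by
      symm
      refine Finset.sum_subset (fun i hi => ?_) fun i hi hi' => ?_
      · rw [Finset.mem_range] at hi ⊢
        omega
      · rw [Finset.mem_range] at hi hi'
        have : v.testBit i = false := Nat.testBit_lt_two_pow
          (lt_of_lt_of_le hv (Nat.pow_le_pow_right (by norm_num) (by omega)))
        rw [Nat.testBit_and, this]
        simp
    rw [h2]
    refine Finset.sum_congr rfl fun i hi => ?_
    have hi' := Finset.mem_range.1 hi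
    rw [Nat.testBit_and, exz, dif_pos hi', dec]
    cases m.testBit i <;> cases v.testBit i <;> simp
  have hlt : v &&& m < 128 := lt_of_le_of_lt Nat.and_le_left
    (lt_of_lt_of_le hv (Nat.pow_le_pow_right (by norm_num) hk))
  rw [h1, parity_table _ hlt]
  have h3 : Nat.land v m = v &&& m := rfl
  rw [h3]
  cases odd (v &&& m) <;> simp

/-! ### Propagation -/

theorem stp_sound {N : ℕ} {val : ℕ → ZMod 2} {Z m : ℕ} (hm : S N val m = 0)
    (hZ : ∀ x, x < N → val x ≠ 0 → Z.testBit x = true) :
    ∀ x, x < N → val x ≠ 0 → (stp Z (Nat.land m Z)).testBit x = true := by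
  intro x hx hv
  unfold stp
  split_ifs with h
  · rw [beq_iff] at h
    have hland : Nat.land m Z = m &&& Z := rfl
    rw [hland] at h ⊢
    set y := Nat.log2 (m &&& Z) with hy
    have hxor : Nat.xor Z (m &&& Z) = Z ^^^ (m &&& Z) := rfl
    rw [hxor, Nat.testBit_xor, hZ x hx hv, h, Nat.testBit_two_pow]
    by_cases hxy : y = x
    · exfalso
      have hS : S N val m = val x := by
        unfold S
        rw [Finset.sum_eq_single x]
        · have h1 : (m &&& Z).testBit x = true := by
            rw [h, Nat.testBit_two_pow]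
            simpa using hxy
          rw [Nat.testBit_and, Bool.and_eq_true] at h1
          rw [if_pos h1.1]
        · intro z hz hne
          split_ifs with h2
          · by_contra h3
            have h4 : (m &&& Z).testBit z = true := by
              rw [Nat.testBit_and, h2, hZ z (Finset.mem_range.1 hz) h3]
              rfl
            rw [h, Nat.testBit_two_pow] at h4
            simp only [decide_eq_true_eq] at h4
            exact hne (h4.symm.trans hxy)
          · rfl
        · intro h5
          exact absurd (Finset.mem_range.2 hx) h5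
      rw [hS] at hm
      exact hv hm
    · simp [hxy]
  · exact hZ x hx hv

theorem foldl_sound {N : ℕ} {val : ℕ → ZMod 2} (cs : List ℕ) (hcs : ∀ m ∈ cs, S N val m = 0) :
    ∀ Z : ℕ, (∀ x, x < N → val x ≠ 0 → Z.testBit x = true) →
      ∀ x, x < N → val x ≠ 0 →
        (cs.foldl (fun Z m => stp Z (Nat.land m Z)) Z).testBit x = true := by
  induction cs with
  | nil => exact fun Z hZ => hZ
  | cons m cs ih =>
    intro Z hZ
    rw [List.foldl_cons]
    exact ih (fun m' hm' => hcs m' (List.mem_cons_of_mem _ hm')) _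
      (stp_sound (hcs m List.mem_cons_self) hZ)

theorem prop_sound {N : ℕ} {val : ℕ → ZMod 2} {cs : List ℕ} (hcs : ∀ m ∈ cs, S N val m = 0)
    (n : ℕ) : ∀ Z : ℕ, prop cs n Z = true → (∀ x, x < N → val x ≠ 0 → Z.testBit x = true) →
      ∀ x, x < N → val x = 0 := by
  have hz : ∀ Z : ℕ, Nat.beq Z 0 = true → (∀ x, x < N → val x ≠ 0 → Z.testBit x = true) →
      ∀ x, x < N → val x = 0 := by
    intro Z h hZ x hx
    rw [beq_iff] at h
    by_contra h1
    have := hZ x hx h1
    rw [h] at this
    simp at this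
  induction n with
  | zero =>
    intro Z h hZ
    exact hz Z h hZ
  | succ n ih =>
    intro Z h hZ
    rw [prop] at h
    split_ifs at h with h1
    · exact hz Z h1 hZ
    · exact ih _ h (foldl_sound cs hcs Z hZ)

/-! ### Tables -/

theorem testBit_clear (Z y x : ℕ) :
    (Nat.xor Z (Nat.land Z (2 ^ y))).testBit x = (Z.testBit x && !decide (y = x)) := by
  have h : Nat.xor Z (Nat.land Z (2 ^ y)) = Z ^^^ (Z &&& 2 ^ y) := rfl
  rw [h, Nat.testBit_xor, Nat.testBit_and, Nat.testBit_two_pow]
  cases Z.testBit x <;> cases decide (y = x) <;> rfl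

theorem testBit_un (tc : TC) (g : List ℕ) (nf p x : ℕ) : (un tc g nf p).testBit x = true ↔
    ((Nat.lor nf tc.A).testBit x = true ∧
      ∀ q ∈ tc.inc, q.1 = x → g.getD q.2.1 0 ≠ p ∧ g.getD q.2.2 0 ≠ p) := by
  unfold un
  generalize Nat.lor nf tc.A = Z
  induction tc.inc generalizing Z with
  | nil => simp
  | cons q l ih =>
    rw [List.foldl_cons, ih]
    have hb : (Nat.beq (g.getD q.2.1 0) p || Nat.beq (g.getD q.2.2 0) p) = true ↔
        ¬ (g.getD q.2.1 0 ≠ p ∧ g.getD q.2.2 0 ≠ p) := by
      rw [Bool.or_eq_true, beq_iff, beq_iff]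
      tauto
    split_ifs with h
    · have h' := hb.1 h
      rw [testBit_clear]
      simp only [Bool.and_eq_true, Bool.not_eq_true', decide_eq_false_iff_not, List.mem_cons]
      constructor
      · rintro ⟨⟨h1, h2⟩, h3⟩
        refine ⟨h1, ?_⟩
        rintro q' (rfl | hq') hx
        · exact absurd hx h2
        · exact h3 q' hq' hx
      · rintro ⟨h1, h2⟩
        exact ⟨⟨h1, fun h4 => h' (h2 q (Or.inl rfl) h4)⟩, fun q' hq' => h2 q' (Or.inr hq')⟩
    · have h' : g.getD q.2.1 0 ≠ p ∧ g.getD q.2.2 0 ≠ p := by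
        by_contra hc
        exact h (hb.2 hc)
      simp only [List.mem_cons]
      constructor
      · rintro ⟨h1, h2⟩
        refine ⟨h1, ?_⟩
        rintro q' (rfl | hq') hx
        · exact h'
        · exact h2 q' hq' hx
      · rintro ⟨h1, h2⟩
        exact ⟨h1, fun q' hq' => h2 q' (Or.inr hq')⟩

/-- index of the edge of a dart of the table -/
def ix {m k : ℕ} (T : Tab m k) (i : Fin m) (t : Fin 3) : ℕ :=
  match T i t with
  | .inr j => j.val
  | .inl q => k + min (3 * i.val + t.val) (3 * q.1.val + q.2.val)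

/-- `tc` are the data of the table `T` -/
structure OK {m k : ℕ} (T : Tab m k) (tc : TC) : Prop where
  inv : ∀ i t, ∀ q, T i t = Sum.inl q → T q.1 q.2 = Sum.inl (i, t)
  vm : tc.vm = List.ofFn fun i => 2 ^ ix T i 0 ^^^ 2 ^ ix T i 1 ^^^ 2 ^ ix T i 2
  bitA : ∀ i t, k ≤ ix T i t → tc.A.testBit (ix T i t) = true
  inr : ∀ i t j, T i t = Sum.inr j → (j.val, i.val, i.val) ∈ tc.inc
  inl : ∀ i t q, T i t = Sum.inl q → (ix T i t, i.val, q.1.val) ∈ tc.inc ∨
    (ix T i t, q.1.val, i.val) ∈ tc.inc
  inc : ∀ q ∈ tc.inc, (∃ i t j, T i t = Sum.inr j ∧ q = (j.val, i.val, i.val)) ∨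
    ∃ i t q', T i t = Sum.inl q' ∧ q = (ix T i t, i.val, q'.1.val)

section Table

variable {m k : ℕ} {T : Tab m k} {tc : TC} (ok : OK T tc)

/-- value of the edges -/
def vl (m k A : ℕ) (e : Fin m → Fin 3 → ZMod 2) (J : Fin k → ZMod 2) (x : ℕ) : ZMod 2 :=
  if h : x < k then J ⟨x, h⟩ else
    if h : x < k + 3 * m ∧ A.testBit x = true then
      e ⟨(x - k) / 3, by omega⟩ ⟨(x - k) % 3, by omega⟩ else 0

theorem ix_lt (T : Tab m k) (i : Fin m) (t : Fin 3) : ix T i t < k + 3 * m := by
  unfold ix
  have := i.2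
  have := t.2
  split
  · rename_i j _
    have := j.2
    omega
  · omega

include ok in
theorem vl_ix {e : Fin m → Fin 3 → ZMod 2} {J : Fin k → ZMod 2}
    (he : ∀ i t, e i t = Sum.elim (fun q : Fin m × Fin 3 => e q.1 q.2) J (T i t)) (i : Fin m)
    (t : Fin 3) : vl m k tc.A e J (ix T i t) = e i t := by
  rcases hT : T i t with q | j
  · have hix : ix T i t = k + min (3 * i.val + t.val) (3 * q.1.val + q.2.val) := by
      unfold ix
      rw [hT]
    have hA := ok.bitA i t (by rw [hix]; omega)
    have hlt := ix_lt T i t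
    unfold vl
    rw [dif_neg (by rw [hix]; omega), dif_pos ⟨hlt, hA⟩]
    rcases le_total (3 * i.val + t.val) (3 * q.1.val + q.2.val) with h | h
    · have h1 : ix T i t = k + (3 * i.val + t.val) := by rw [hix, min_eq_left h]
      congr 1
      · exact Fin.ext (by simp only [h1]; omega)
      · exact Fin.ext (by simp only [h1]; omega)
    · have h1 : ix T i t = k + (3 * q.1.val + q.2.val) := by rw [hix, min_eq_right h]
      rw [he i t, hT]
      simp only [Sum.elim_inl]
      congr 1
      · exact Fin.ext (by simp only [h1]; omega)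
      · exact Fin.ext (by simp only [h1]; omega)
  · have hix : ix T i t = j.val := by
      unfold ix
      rw [hT]
    unfold vl
    rw [dif_pos (by rw [hix]; exact j.2), he i t, hT]
    simp only [Sum.elim_inr, hix]

include ok in
theorem vertex_zero {e : Fin m → Fin 3 → ZMod 2} {J : Fin k → ZMod 2}
    (he : ∀ i t, e i t = Sum.elim (fun q : Fin m × Fin 3 => e q.1 q.2) J (T i t))
    (hs : ∀ i, e i 0 + e i 1 + e i 2 = 0) :
    ∀ m' ∈ tc.vm, S (k + 3 * m) (vl m k tc.A e J) m' = 0 := by
  intro m' hm'
  rw [ok.vm, List.mem_ofFn] at hm'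
  obtain ⟨i, rfl⟩ := hm'
  rw [S_xor, S_xor, S_pow (ix_lt T i 0), S_pow (ix_lt T i 1), S_pow (ix_lt T i 2), vl_ix ok he,
    vl_ix ok he, vl_ix ok he]
  exact hs i

include ok in
/-- the checker is sound -/
theorem fa_sound {c : Fin k → Fin 3} {L : Fin 3 → Fin k → Fin k} {g : Fin m → Fin 3}
    (gl : List ℕ) (hg : ∀ i, gl.getD i.val 0 = (g i).val)
    (hprop : proper k tc gl (lst c) = true)
    (hfa : ∀ p : Fin 3, fa tc gl (nem p.val (lst c)) p.val (cd (Rel c L p) k) = true) :
    FA T (fun _ => True) c L g := by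
  constructor
  · intro i t
    unfold proper at hprop
    rw [List.all_eq_true] at hprop
    rcases hT : T i t with q | j
    · simp only [Sum.elim_inl]
      have hix : k ≤ ix T i t := by
        unfold ix
        rw [hT]
        simp
      rcases ok.inl i t q hT with h | h
      · have h1 := hprop _ h
        rw [if_neg (by simpa using hix)] at h1
        simp only [Bool.not_eq_true'] at h1
        intro h2
        rw [Bool.eq_false_iff] at h1
        apply h1
        rw [beq_iff, hg, hg, h2]
      · have h1 := hprop _ h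
        rw [if_neg (by simpa using hix)] at h1
        simp only [Bool.not_eq_true'] at h1
        intro h2
        rw [Bool.eq_false_iff] at h1
        apply h1
        rw [beq_iff, hg, hg, h2]
    · simp only [Sum.elim_inr]
      have h1 := hprop _ (ok.inr i t j hT)
      rw [if_pos (by simp)] at h1
      simp only [Bool.not_eq_true'] at h1
      intro h2
      rw [Bool.eq_false_iff] at h1
      apply h1
      rw [beq_iff, hg, getD_lst, h2]
  · intro p e J he hs hav _ hEL
    have hvalJ : ∀ j : Fin k, vl m k tc.A e J j = J j := by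
      intro j
      unfold vl
      rw [dif_pos j.2]
    have hcs : ∀ m' ∈ tc.vm ++ cd (Rel c L p) k, S (k + 3 * m) (vl m k tc.A e J) m' = 0 := by
      intro m' hm'
      rcases List.mem_append.1 hm' with h | h
      · exact vertex_zero ok he hs m' h
      · exact even_of_EL hEL (by omega) _ hvalJ m' h
    have hZ : ∀ x, x < k + 3 * m → vl m k tc.A e J x ≠ 0 →
        (un tc gl (nem p.val (lst c)) p.val).testBit x = true := by
      intro x hx hv
      rw [testBit_un]
      refine ⟨?_, ?_⟩
      · have hlor : Nat.lor (nem p.val (lst c)) tc.A = nem p.val (lst c) ||| tc.A := rfl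
        rw [hlor, Nat.testBit_or, Bool.or_eq_true]
        by_cases hxk : x < k
        · left
          have h1 := hvalJ ⟨x, hxk⟩
          rw [h1] at hv
          exact (nem_iff c p ⟨x, hxk⟩).2 (hEL.1 _ hv)
        · right
          unfold vl at hv
          rw [dif_neg hxk] at hv
          by_contra h1
          rw [dif_neg (fun h => h1 h.2)] at hv
          exact hv rfl
      · intro q hq hqx
        rcases ok.inc q hq with ⟨i, t, j, hT, rfl⟩ | ⟨i, t, q', hT, rfl⟩
        · have hxj : x = j.val := hqx.symm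
          have h2 : e i t = J j := by rw [he i t, hT]; rfl
          have h3 : e i t ≠ 0 := by
            rw [h2, ← hvalJ j, ← hxj]
            exact hv
          have h4 := hav i t h3
          rw [hg]
          have h5 : (g i).val ≠ p.val := fun h => h4 (Fin.ext h)
          exact ⟨h5, h5⟩
        · have hxi : x = ix T i t := hqx.symm
          have h3 : e i t ≠ 0 := by
            rw [← vl_ix ok he i t, ← hxi]
            exact hv
          have h4 := hav i t h3
          have h6 : e q'.1 q'.2 ≠ 0 := by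
            rw [he i t, hT] at h3
            exact h3
          have h7 := hav q'.1 q'.2 h6
          rw [hg, hg]
          exact ⟨fun h => h4 (Fin.ext h), fun h => h7 (Fin.ext h)⟩
    have hall := prop_sound hcs 12 _ (hfa p) hZ
    refine ⟨fun j => ?_, fun i t => ?_⟩
    · rw [← hvalJ j]
      exact hall j (by have := j.2; omega)
    · rw [← vl_ix ok he i t]
      exact hall _ (ix_lt T i t)

end Table

/-! ### Use of the hypothesis -/

section Hyp

variable {m k : ℕ} {T : Tab m k} {tc : TC}

/-- valid forbidden vectors -/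
def Valid (T : Tab m k) (K : (Fin k → ZMod 2) → Prop) (v : ℕ) : Prop :=
  (∀ i, Bool.xor (Bool.xor (v.testBit (ix T i 0)) (v.testBit (ix T i 1)))
    (v.testBit (ix T i 2)) = false) ∧ K (dec k v) ∧
    ((∃ j : Fin k, v.testBit j = true) ∨ ∃ i t, v.testBit (ix T i t) = true)

theorem hvs_sound (ok : OK T tc) {K : (Fin k → ZMod 2) → Prop} {HV : List ℕ}
    (hHV : ∀ v ∈ HV, Valid T K v) {c : Fin k → Fin 3} {L : Fin 3 → Fin k → Fin k}
    {g : Fin m → Fin 3} (hFA : FA T K c L g) (p : Fin 3) :
    ∀ v ∈ hvs k HV (un tc (lst g) (nem p.val (lst c)) p.val), v < 2 ^ k ∧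
      ¬ EL c L p (dec k v) := by
  intro v hv
  unfold hvs at hv
  rw [List.mem_map] at hv
  obtain ⟨w, hw, rfl⟩ := hv
  rw [List.mem_filter, beq_iff] at hw
  obtain ⟨hw1, hw2⟩ := hw
  obtain ⟨h1, h2, h3⟩ := hHV w hw1
  have hZ : ∀ x, w.testBit x = true →
      (un tc (lst g) (nem p.val (lst c)) p.val).testBit x = true := by
    intro x hx
    have h4 : Nat.land w (un tc (lst g) (nem p.val (lst c)) p.val) =
      w &&& (un tc (lst g) (nem p.val (lst c)) p.val) := rfl
    rw [h4] at hw2
    rw [← hw2, Nat.testBit_and, Bool.and_eq_true] at hx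
    exact hx.2
  have hdec : dec k (w % 2 ^ k) = dec k w := by
    funext i
    unfold dec
    rw [Nat.testBit_mod_two_pow]
    simp
  refine ⟨Nat.mod_lt _ (by positivity), fun hEL => ?_⟩
  rw [hdec] at hEL
  set e : Fin m → Fin 3 → ZMod 2 := fun i t => if w.testBit (ix T i t) then 1 else 0 with he
  have key := hFA.2 p e (dec k w) ?_ ?_ ?_ h2 hEL
  · rcases h3 with ⟨j, hj⟩ | ⟨i, t, hj⟩
    · have := key.1 j
      unfold dec at this
      rw [if_pos hj] at this
      exact absurd this (by decide)
    · have := key.2 i t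
      rw [he] at this
      simp only at this
      rw [if_pos hj] at this
      exact absurd this (by decide)
  · intro i t
    rcases hT : T i t with q | j
    · have hT2 := ok.inv i t q hT
      have h5 : ix T i t = ix T q.1 q.2 := by
        unfold ix
        rw [hT, hT2]
        simp only
        rw [min_comm]
      simp only [he, Sum.elim_inl, h5]
    · have h5 : ix T i t = j.val := by
        unfold ix
        rw [hT]
      simp only [he, Sum.elim_inr, h5]
      rfl
  · intro i
    have := h1 i
    simp only [he]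
    revert this
    cases w.testBit (ix T i 0) <;> cases w.testBit (ix T i 1) <;>
      cases w.testBit (ix T i 2) <;> decide
  · intro i t hne hgi
    have hb : w.testBit (ix T i t) = true := by
      by_contra h6
      apply hne
      rw [he]
      simp only
      rw [if_neg h6]
    have h7 := ((testBit_un _ _ _ _ _).1 (hZ _ hb)).2
    have h8 : (g i).val = p.val := by rw [hgi]
    rcases hT : T i t with q | j
    · rcases ok.inl i t q hT with h9 | h9
      · have := (h7 _ h9 rfl).1
        rw [getD_lst] at this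
        exact this h8
      · have := (h7 _ h9 rfl).2
        rw [getD_lst] at this
        exact this h8
    · have h5 : ix T i t = j.val := by
        unfold ix
        rw [hT]
      have := (h7 _ (ok.inr i t j hT) h5.symm).1
      rw [getD_lst] at this
      exact this h8

/-- the codes of the boundary states are enumerated -/
theorem code_mem (hk : k ≤ 7) (ok : OK T tc) {K : (Fin k → ZMod 2) → Prop} {HV : List ℕ}
    (hHV : ∀ v ∈ HV, Valid T K v) {c : Fin k → Fin 3} {L : Fin 3 → Fin k → Fin k}
    {g : Fin m → Fin 3} (hFA : FA T K c L g) (p : Fin 3) :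
    cd (Rel c L p) k ∈ enum (nem p.val (lst c))
      (hvs k HV (un tc (lst g) (nem p.val (lst c)) p.val)) k := by
  refine enum_mem (eqv c L p) _ ?_ k le_rfl
  intro v hv d hd hvd
  obtain ⟨h1, h2⟩ := hvs_sound ok hHV hFA p v hv
  by_contra h3
  have h4 : evn v (cd (Rel c L p) (d + 1)) = true := by simpa using h3
  rw [evn_iff hk h1] at h4
  refine h2 (EL_of_even (d := d + 1) (by omega) (fun i hi => ?_) h4)
  unfold dec at hi
  by_contra h5
  rw [if_neg] at hi
  · exact hi rfl
  · rw [Nat.testBit_lt_two_pow (lt_of_lt_of_le hvd (Nat.pow_le_pow_right (by norm_num) (by omega)))]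
    simp

theorem hyp_proper (ok : OK T tc) {K : (Fin k → ZMod 2) → Prop} {c : Fin k → Fin 3}
    {L : Fin 3 → Fin k → Fin k} {g : Fin m → Fin 3} (hFA : FA T K c L g) :
    proper k tc (lst g) (lst c) = true := by
  unfold proper
  rw [List.all_eq_true]
  intro q hq
  rcases ok.inc q hq with ⟨i, t, j, hT, rfl⟩ | ⟨i, t, q', hT, rfl⟩
  · simp only
    rw [if_pos (by simp), getD_lst, getD_lst, Bool.not_eq_true', Bool.eq_false_iff, Ne, beq_iff]
    intro h
    have := hFA.1 i t
    rw [hT] at this
    exact this (Fin.ext h)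
  · simp only
    have hix : k ≤ ix T i t := by
      unfold ix
      rw [hT]
      simp
    rw [if_neg (by simpa using hix), getD_lst, getD_lst, Bool.not_eq_true', Bool.eq_false_iff, Ne,
      beq_iff]
    intro h
    have := hFA.1 i t
    rw [hT] at this
    exact this (Fin.ext h)

end Hyp

/-! ### Crossings -/

/-- `C` and `D` alternate -/
def alt (C D : ℕ) : Bool :=
  !(Nat.beq (C % 2 ^ (Nat.log2 D)) 0) &&
  !(Nat.beq (D % 2 ^ (Nat.log2 (C % 2 ^ (Nat.log2 D)))) 0) &&
  !(Nat.beq (C % 2 ^ (Nat.log2 (D % 2 ^ (Nat.log2 (C % 2 ^ (Nat.log2 D)))))) 0)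

/-- the classes with at least two elements -/
def big (ms : List ℕ) : List ℕ :=
  ms.filter (fun m => !(Nat.beq m 0) && !(Nat.beq m (2 ^ Nat.log2 m)))

/-- crossing partitions -/
def cr (ms ms' : List ℕ) : Bool :=
  (big ms).any fun C => (big ms').any fun D => alt C D || alt D C

theorem alt_spec {C D : ℕ} (h : alt C D = true) : ∃ i j l n : ℕ, i < j ∧ j < l ∧ l < n ∧
    C.testBit i = true ∧ D.testBit j = true ∧ C.testBit l = true ∧ D.testBit n = true := by
  unfold alt at h
  simp only [Bool.and_eq_true, Bool.not_eq_true', Bool.eq_false_iff, Ne, beq_iff] at h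
  obtain ⟨⟨h1, h2⟩, h3⟩ := h
  set n := Nat.log2 D with hn
  set l := Nat.log2 (C % 2 ^ n) with hl
  set j := Nat.log2 (D % 2 ^ l) with hj
  have b1 := Nat.testBit_log2 h1
  have b2 := Nat.testBit_log2 h2
  have b3 := Nat.testBit_log2 h3
  have hD : D ≠ 0 := by
    rintro rfl
    simp at h2
  have b4 := Nat.testBit_log2 hD
  rw [Nat.testBit_mod_two_pow, Bool.and_eq_true, decide_eq_true_eq] at b1 b2 b3
  exact ⟨_, j, l, n, b3.1, b2.1, b1.1, b3.2, b2.2, b1.2, b4⟩

section Cross

variable {k : ℕ} {c : Fin k → Fin 3} {L : Fin 3 → Fin k → Fin k}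

theorem link {p : Fin 3} {C i l : ℕ} (hC : C ∈ cd (Rel c L p) k) (hi : C.testBit i = true)
    (hl : C.testBit l = true) (hne : i ≠ l) :
    ∃ (hi : i < k) (hl : l < k), c ⟨i, hi⟩ ≠ p ∧ c ⟨l, hl⟩ ≠ p ∧ L p ⟨i, hi⟩ = L p ⟨l, hl⟩ := by
  unfold cd at hC
  rw [List.mem_map] at hC
  obtain ⟨r, hr, rfl⟩ := hC
  have hr' := List.mem_range.1 hr
  split_ifs at hi hl with h1
  · rw [testBit_mk, Bool.and_eq_true, decide_eq_true_eq] at hi hl
    have h2 := (eqv c L p).symm l r hl.1 hr' hl.2
    have h3 := (eqv c L p).trans i r l hi.1 hr' hl.1 hi.2 h2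
    rcases (Rel_iff c L p ⟨i, hi.1⟩ ⟨l, hl.1⟩).1 h3 with h4 | h4
    · exact absurd (Fin.ext_iff.1 h4) hne
    · exact ⟨hi.1, hl.1, h4⟩
  · simp at hi

theorem EL_link {p : Fin 3} {i l : Fin k} (hi : c i ≠ p) (hl : c l ≠ p) (h : L p i = L p l) :
    EL c L p (ei i + ei l) := by
  constructor
  · intro x hx
    by_cases h1 : x = i
    · rw [h1]
      exact hi
    · by_cases h2 : x = l
      · rw [h2]
        exact hl
      · exfalso
        apply hx
        simp [ei, h1, h2]
  · intro q
    have h3 : ∀ a : Fin k, (∑ x, if L p x = q then (ei a x : ZMod 2) else 0) =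
        if L p a = q then 1 else 0 := by
      intro a
      rw [Finset.sum_eq_single a]
      · simp [ei]
      · intro b _ hb
        simp [ei, hb]
      · intro h'
        exact absurd (Finset.mem_univ a) h'
    have h4 : (∑ x, if L p x = q then (ei i + ei l : Fin k → ZMod 2) x else 0) =
        (∑ x, if L p x = q then (ei i x : ZMod 2) else 0) +
          ∑ x, if L p x = q then (ei l x : ZMod 2) else 0 := by
      rw [← Finset.sum_add_distrib]
      refine Finset.sum_congr rfl fun x _ => ?_
      split_ifs <;> simp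
    rw [h4, h3, h3, h]
    exact z2_add_self _

theorem cr_false (hNC : NC (EL c L)) {p p' : Fin 3} (hpp : p ≠ p') :
    cr (cd (Rel c L p) k) (cd (Rel c L p') k) = false := by
  by_contra h
  have h' : cr (cd (Rel c L p) k) (cd (Rel c L p') k) = true := by simpa using h
  unfold cr at h'
  rw [List.any_eq_true] at h'
  obtain ⟨C, hC, h'⟩ := h'
  rw [List.any_eq_true] at h'
  obtain ⟨D, hD, h'⟩ := h'
  have hC' := (List.mem_filter.1 hC).1
  have hD' := (List.mem_filter.1 hD).1
  rw [Bool.or_eq_true] at h'
  rcases h' with h' | h'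
  · obtain ⟨i, j, l, n, h1, h2, h3, b1, b2, b3, b4⟩ := alt_spec h'
    obtain ⟨hi, hl, e1, e2, e3⟩ := link hC' b1 b3 (by omega)
    obtain ⟨hj, hn, e4, e5, e6⟩ := link hD' b2 b4 (by omega)
    exact hpp (hNC p p' ⟨i, hi⟩ ⟨j, hj⟩ ⟨l, hl⟩ ⟨n, hn⟩ h1 h2 h3 (EL_link e1 e2 e3)
      (EL_link e4 e5 e6)).1
  · obtain ⟨i, j, l, n, h1, h2, h3, b1, b2, b3, b4⟩ := alt_spec h'
    obtain ⟨hi, hl, e1, e2, e3⟩ := link hD' b1 b3 (by omega)
    obtain ⟨hj, hn, e4, e5, e6⟩ := link hC' b2 b4 (by omega)
    exact hpp (hNC p' p ⟨i, hi⟩ ⟨j, hj⟩ ⟨l, hl⟩ ⟨n, hn⟩ h1 h2 h3 (EL_link e1 e2 e3)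
      (EL_link e4 e5 e6)).1.symm

end Cross

end Fc

end Acyc75
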