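import Pool.Agent.Lib.MP_1e9f59_co.Fin54c

/-!
# MP_1e9f59_co : module FIN-54, part 4

Certificates for the colourings of the configuration.
-/

set_option autoImplicit false

namespace Acyc75

namespace Fin54

theorem blt_lt {a b : ℕ} (h : Nat.blt a b = true) : a < b := Nat.le_of_ble_eq_true h

theorem ip_zero {k : ℕ} (J : Fin k → ZMod 2) : ip 0 J = 0 := by
  simp [ip]

theorem ip_xor {k : ℕ} (a b : ℕ) (J : Fin k → ZMod 2) : ip (a ^^^ b) J = ip a J + ip b J := by
  unfold ip
  rw [← Finset.sum_add_distrib]
  apply Finset.sum_congr rfl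
  intro i _
  rw [Nat.testBit_xor]
  generalize J i = x
  cases a.testBit i <;> cases b.testBit i <;> revert x <;> decide

theorem ip_pow {k : ℕ} (j : Fin k) (J : Fin k → ZMod 2) : ip (2 ^ j.val) J = J j := by
  unfold ip
  rw [Finset.sum_eq_single j]
  · simp
  · intro b _ hb
    have : ¬ (j.val = b.val) := fun h => hb (Fin.ext h.symm)
    simp [Nat.testBit_two_pow, this]
  · simp

/-- A certificate: masks, elimination order, pivots, positions of the relations. -/
structure Cert where
  M : Fin 9 → Fin 3 → ℕ
  o : Fin 9 → ℕ
  v : Fin 9 → Fin 3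
  ps : List (Fin 9 × Fin 3)

/-- The relation between the masks of the two darts of an edge. -/
def rel (C : Cert) (i : Fin 9) (t : Fin 3) : ℕ :=
  Sum.elim (fun q => C.M i t ^^^ C.M q.1 q.2) (fun j => C.M i t ^^^ 2 ^ j.val) (T54 i t)

/-- Validity of a certificate. -/
def okC (g : Fin 9 → Fin 3) (p : Fin 3) (C : Cert) (s : ℕ) : Bool :=
  ((List.finRange 9).all fun i =>
    (bif decide (g i = p) then (List.finRange 3).all fun t => Nat.beq (C.M i t) 0
    else Nat.beq (Nat.xor (Nat.xor (C.M i 0) (C.M i 1)) (C.M i 2)) 0 &&
      (List.finRange 3).all fun t => decide (t = C.v i) ||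
        Sum.elim (fun q => (decide (g q.1 = p) && Nat.beq (C.M i t) 0) ||
          (Nat.blt (C.o q.1) (C.o i) && Nat.beq (C.M i t) (C.M q.1 q.2)))
          (fun j => Nat.beq (C.M i t) (2 ^ j.val)) (T54 i t)) ) &&
  (C.ps.all fun q => Nat.blt (rel C q.1 q.2) 128) &&
  Nat.beq (As (C.ps.map fun q => rel C q.1 q.2) full7) s

theorem okC_sound {g : Fin 9 → Fin 3} {p : Fin 3} {C : Cert} {s : ℕ} (h : okC g p C s = true)
    {e : Fin 9 → Fin 3 → ZMod 2} {J : Fin 7 → ZMod 2}
    (h1 : ∀ i t, e i t = Sum.elim (fun q : Fin 9 × Fin 3 => e q.1 q.2) J (T54 i t))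
    (h2 : ∀ i, e i 0 + e i 1 + e i 2 = 0) (h3 : ∀ i t, e i t ≠ 0 → g i ≠ p) :
    s.testBit (enc J) = true ∧ ((∀ j, J j = 0) → ∀ i t, e i t = 0) := by
  unfold okC at h
  rw [Bool.and_eq_true, Bool.and_eq_true] at h
  obtain ⟨⟨hv, hb⟩, hs⟩ := h
  rw [List.all_eq_true] at hv hb
  have hz : ∀ i t, g i = p → e i t = 0 := by
    intro i t hi
    by_contra hne
    exact h3 i t hne hi
  have key : ∀ n : ℕ, ∀ i, C.o i = n → ∀ t, e i t = ip (C.M i t) J := by
    intro n
    induction n using Nat.strong_induction_on with
    | _ n ih =>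
      intro i hi t
      have hvi := hv i (List.mem_finRange i)
      cases hg : decide (g i = p)
      · rw [hg] at hvi
        simp only [cond_false, Bool.and_eq_true] at hvi
        obtain ⟨hx, ht⟩ := hvi
        rw [List.all_eq_true] at ht
        have hx' := Nat.eq_of_beq_eq_true hx
        have hx2 : ip (C.M i 0) J + ip (C.M i 1) J + ip (C.M i 2) J = 0 := by
          have : Nat.xor (Nat.xor (C.M i 0) (C.M i 1)) (C.M i 2) =
            (C.M i 0 ^^^ C.M i 1) ^^^ C.M i 2 := rfl
          rw [← ip_xor, ← ip_xor, ← this, hx', ip_zero]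
        have hnp : ∀ t, t ≠ C.v i → e i t = ip (C.M i t) J := by
          intro t htv
          have := ht t (List.mem_finRange t)
          rw [Bool.or_eq_true] at this
          rcases this with h' | h'
          · exact absurd (of_decide_eq_true h') htv
          rw [h1 i t]
          cases hT : T54 i t with
          | inl q =>
            rw [hT] at h'
            simp only [Sum.elim_inl, Bool.or_eq_true, Bool.and_eq_true] at h'
            rcases h' with ⟨h4, h5⟩ | ⟨h4, h5⟩
            · rw [Nat.eq_of_beq_eq_true h5, ip_zero]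
              exact hz _ _ (of_decide_eq_true h4)
            · rw [Nat.eq_of_beq_eq_true h5]
              have hlt : C.o q.1 < n := by
                rw [← hi]; exact blt_lt h4
              exact ih _ hlt q.1 rfl q.2
          | inr j =>
            rw [hT] at h'
            simp only [Sum.elim_inr] at h'
            rw [Nat.eq_of_beq_eq_true h', ip_pow]; rfl
        have hs2 := h2 i
        have cases3 : ∀ v : Fin 3, v = 0 ∨ v = 1 ∨ v = 2 := by decide
        have alg : ∀ a b c a' b' c' : ZMod 2, a + b + c = 0 → a' + b' + c' = 0 →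
            (a = a' → b = b' → c = c') ∧ (a = a' → c = c' → b = b') ∧ (b = b' → c = c' → a = a') := by
          decide
        obtain ⟨A1, A2, A3⟩ := alg _ _ _ _ _ _ hs2 hx2
        by_cases htv : t = C.v i
        · rcases cases3 (C.v i) with h0 | h0 | h0 <;> rw [h0] at hnp htv <;> subst htv
          · exact A3 (hnp 1 (by decide)) (hnp 2 (by decide))
          · exact A2 (hnp 0 (by decide)) (hnp 2 (by decide))
          · exact A1 (hnp 0 (by decide)) (hnp 1 (by decide))
        · exact hnp t htv
      · rw [hg] at hvi
        simp only [cond_true] at hvi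
        rw [List.all_eq_true] at hvi
        rw [Nat.eq_of_beq_eq_true (hvi t (List.mem_finRange t)), ip_zero]
        exact hz i t (of_decide_eq_true hg)
  have key' : ∀ i t, e i t = ip (C.M i t) J := fun i t => key _ i rfl t
  refine ⟨?_, ?_⟩
  · rw [← Nat.eq_of_beq_eq_true hs, As_spec]
    refine ⟨full7_spec J, fun m hm => ?_⟩
    obtain ⟨q, hq, rfl⟩ := List.mem_map.1 hm
    rw [Hx_spec (blt_lt (hb q hq))]
    unfold rel
    have e1 := h1 q.1 q.2
    cases hT : T54 q.1 q.2 with
    | inl q' =>
      simp only [Sum.elim_inl]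
      rw [hT] at e1
      simp only [Sum.elim_inl] at e1
      rw [ip_xor, ← key', ← key', e1]
      exact CharTwo.add_self_eq_zero _
    | inr j =>
      simp only [Sum.elim_inr]
      rw [hT] at e1
      simp only [Sum.elim_inr] at e1
      rw [ip_xor, ← key', ip_pow, e1]
      exact CharTwo.add_self_eq_zero _
  · intro hJ i t
    rw [key']
    unfold ip
    exact Finset.sum_eq_zero (fun j _ => by simp [hJ j])

/-- A colouring of the configuration together with the sets of boundary vectors of its chains. -/
structure GD where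
  g : Fin 9 → Fin 3
  s : Fin 3 → ℕ

def Sound (x : GD) : Prop :=
  (∀ i t, Sum.elim (fun q : Fin 9 × Fin 3 => x.g i ≠ x.g q.1) (fun _ => True) (T54 i t)) ∧
  ∀ (p : Fin 3) (e : Fin 9 → Fin 3 → ZMod 2) (J : Fin 7 → ZMod 2),
    (∀ i t, e i t = Sum.elim (fun q : Fin 9 × Fin 3 => e q.1 q.2) J (T54 i t)) →
    (∀ i, e i 0 + e i 1 + e i 2 = 0) → (∀ i t, e i t ≠ 0 → x.g i ≠ p) →
    (x.s p).testBit (enc J) = true ∧ ((∀ j, J j = 0) → ∀ i t, e i t = 0)

/-- Decoding of a number. -/
def dec (m o v : ℕ) (ps : List (Fin 9 × Fin 3)) : Cert where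
  M i t := Nat.land (Nat.shiftRight m (Nat.mul 7 (Nat.add (Nat.mul 3 i.val) t.val))) 127
  o i := Nat.land (Nat.shiftRight o (Nat.mul 4 i.val)) 15
  v i := ⟨Nat.mod (Nat.land (Nat.shiftRight v (Nat.mul 2 i.val)) 3) 3, Nat.mod_lt _ (by decide)⟩
  ps := ps

def prB (x : GD) : Bool := (List.finRange 9).all fun i => (List.finRange 3).all fun t =>
  Sum.elim (fun q : Fin 9 × Fin 3 => decide (x.g i ≠ x.g q.1)) (fun _ => true) (T54 i t)

def okG (y : GD × (Fin 3 → Cert)) : Bool :=
  prB y.1 && (List.finRange 3).all fun p => okC y.1.g p (y.2 p) (y.1.s p)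

theorem okG_sound {y : GD × (Fin 3 → Cert)} (h : okG y = true) : Sound y.1 := by
  unfold okG at h
  rw [Bool.and_eq_true, List.all_eq_true] at h
  refine ⟨?_, fun p e J h1 h2 h3 => okC_sound (h.2 p (List.mem_finRange p)) h1 h2 h3⟩
  intro i t
  have h1 := h.1
  unfold prB at h1
  rw [List.all_eq_true] at h1
  have h2 := h1 i (List.mem_finRange i)
  rw [List.all_eq_true] at h2
  have h3 := h2 t (List.mem_finRange t)
  cases hT : T54 i t with
  | inl q =>
    rw [hT] at h3
    simp only [Sum.elim_inl] at h3 ⊢
    exact of_decide_eq_true h3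
  | inr j => trivial

/-- The colourings. -/
def GT54 : List GD := [
   ⟨![1, 0, 2, 1, 2, 0, 1, 0, 1],
    ![332041393326771929121,
      65,
      11963052675128628318190722544343973897]⟩,
   ⟨![2, 1, 0, 2, 1, 0, 2, 1, 0],
    ![2533274790395913,
      17829889,
      5149830563427181943580356771905]⟩,
   ⟨![2, 1, 0, 2, 1, 0, 1, 2, 0],
    ![2533274790395913,
      324597781820940991120749564530689,
      1090519105]⟩,
   ⟨![0, 1, 2, 1, 2, 2, 0, 2, 1],
    ![410798022943783346762080667571265,
      282574505115649,
      9]⟩,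
   ⟨![0, 1, 2, 1, 2, 2, 0, 1, 0],
    ![5185,
      618970056536178284885442561,
      713064342960758103279258304521]⟩,
   ⟨![0, 2, 1, 0, 1, 2, 0, 1, 2],
    ![5149830563427181943580356771905,
      150994953,
      9288674231451681]⟩,
   ⟨![1, 0, 2, 1, 2, 0, 2, 0, 1],
    ![332041393326771929121,
      18367342832517185,
      713053462628379038341895553033]⟩,
   ⟨![2, 1, 2, 1, 0, 0, 1, 2, 1],
    ![8319084001208844538258013552745,
      1,
      1213648186097498836697089]⟩,
   ⟨![0, 2, 1, 0, 1, 2, 0, 2, 0],
    ![65,
      11963052675128628318190722544343973897,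
      332041393326771929121]⟩,
   ⟨![1, 0, 2, 0, 2, 1, 2, 0, 1],
    ![618970056536178284885442561,
      18295873486192705,
      713053462628379038341895553033]⟩]

def GC54 : List (GD × (Fin 3 → Cert)) := [
   (GT54.getD 0 ⟨fun _ => 0, fun _ => 0⟩, ![dec 241323150356078689853793719628060586208190747992146048
        25853964801 69890
        [(1, 1), (5, 1), (6, 1), (7, 1), (8, 1)],
      dec 145241088523763712
        1346568720 17424
        [(0, 1), (2, 1), (5, 1), (6, 1), (7, 1), (8, 1)],
      dec 345960939243305880811037286676421465662741277098324787329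
        31763476513 65604
        [(1, 1), (2, 1), (8, 1)]]),
   (GT54.getD 1 ⟨fun _ => 0, fun _ => 0⟩, ![dec 47133427979507320443273083002201424818765477970178
        1409490966 16393
        [(0, 1), (2, 1), (5, 1), (7, 1), (8, 1)],
      dec 16856230028276751995328916758332471580295168
        25857896961 69697
        [(0, 1), (1, 1), (6, 1), (7, 1), (8, 1)],
      dec 197691925508159472164502065128465444922902078223705702400
        27116372496 66832
        [(0, 1), (2, 1), (5, 1), (6, 1), (8, 1)]]),
   (GT54.getD 2 ⟨fun _ => 0, fun _ => 0⟩, ![dec 47133427979507320443273083002201424818765477970178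
        1409490966 16393
        [(0, 1), (2, 1), (5, 1), (7, 1), (8, 1)],
      dec 197691925508159472167181290307470025164357132817291804672
        27116188161 66625
        [(0, 1), (1, 1), (5, 1), (6, 1), (8, 1)],
      dec 11237484927059965239351530936094928593223680
        25858081296 69904
        [(0, 1), (2, 1), (6, 1), (7, 1), (8, 1)]]),
   (GT54.getD 3 ⟨fun _ => 0, fun _ => 0⟩, ![dec 199260338913264405298336640948662745642999056637720788992
        22552207888 2048
        [(0, 1), (0, 2), (6, 1)],
      dec 70700153032521335861354370561585129076819077644416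
        1698890241 16402
        [(0, 2), (1, 1), (2, 1), (7, 1), (8, 1)],
      dec 34628173953
        21541957665 69636
        [(1, 1), (2, 1), (5, 1), (6, 1), (7, 1), (8, 1)]]),
   (GT54.getD 4 ⟨fun _ => 0, fun _ => 0⟩, ![dec 5358450358008858381014750815603130368
        1346593296 18944
        [(0, 1), (3, 0), (6, 1), (7, 1), (8, 1)],
      dec 48264630082453222897818455650196952916565972962263168
        25858081281 69906
        [(1, 1), (2, 1), (6, 1), (7, 1), (8, 1)],
      dec 296537934664916369088622081863938753227418564605656432769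
        27179102241 65540
        [(1, 1), (2, 1), (5, 1), (8, 1)]]),
   (GT54.getD 5 ⟨fun _ => 0, fun _ => 0⟩, ![dec 197691925508159472164502065128465444922902078223705702400
        27116372496 66832
        [(0, 1), (2, 1), (5, 1), (6, 1), (8, 1)],
      dec 11237484927059965239351530790853874697633921
        25857896481 69700
        [(1, 1), (2, 1), (6, 1), (7, 1), (8, 1)],
      dec 47133427979507320444540811578181915121314112225408
        1694773761 16386
        [(0, 2), (1, 1), (5, 1), (7, 1), (8, 1)]]),
   (GT54.getD 6 ⟨fun _ => 0, fun _ => 0⟩, ![dec 241323150356078689853793719628060586208190747992146048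
        25853964801 69890
        [(1, 1), (5, 1), (6, 1), (7, 1), (8, 1)],
      dec 70700153032521335861354370561585274317907601391616
        1698890256 16400
        [(0, 1), (2, 1), (7, 1), (8, 1)],
      dec 197691925508159472164502065128465444922756837169810112641
        27116187681 66628
        [(1, 1), (2, 1), (5, 1), (6, 1), (8, 1)]]),
   (GT54.getD 7 ⟨fun _ => 0, fun _ => 0⟩, ![dec 296537934664916369088622081863939811102292787032695505025
        31759287073 65536
        [(3, 0), (5, 1), (8, 1)],
      dec 16512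
        1346568705 17426
        [(0, 2), (1, 1), (2, 1), (5, 1), (6, 1), (7, 1), (8, 1)],
      dec 3088936324580282215891881172495214099389594712745705472
        12923985936 10756
        [(0, 1), (1, 1), (2, 1), (3, 0), (7, 1)]]),
   (GT54.getD 8 ⟨fun _ => 0, fun _ => 0⟩, ![dec 145241088523763712
        1346568720 17424
        [(0, 1), (2, 1), (5, 1), (6, 1), (7, 1), (8, 1)],
      dec 345960939243305880811037286676421465662741277098324787329
        31763476513 65604
        [(1, 1), (2, 1), (8, 1)],
      dec 241323150356078689853793719628060586208190747992146048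
        25853964801 69890
        [(1, 1), (5, 1), (6, 1), (7, 1), (8, 1)]]),
   (GT54.getD 9 ⟨fun _ => 0, fun _ => 0⟩, ![dec 48264630082453222897818455650196952916565972962263168
        25858081281 69906
        [(1, 1), (2, 1), (6, 1), (7, 1), (8, 1)],
      dec 47133427979507320445174675866172303261911767580672
        1694773776 16384
        [(0, 1), (0, 2), (5, 1), (7, 1), (8, 1)],
      dec 197691925508159472164502065128465444922756837169810112641
        27116187681 66628
        [(1, 1), (2, 1), (5, 1), (6, 1), (8, 1)]])]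

theorem GC54_map : GT54 = GC54.map (·.1) := rfl

theorem GC54_ok : (GC54.all okG) = true := by decide +kernel

theorem GT54_sound : ∀ x ∈ GT54, Sound x := by
  intro x hx
  rw [GC54_map, List.mem_map] at hx
  obtain ⟨y, hy, rfl⟩ := hx
  exact okG_sound (List.all_eq_true.1 GC54_ok y hy)

end Fin54

end Acyc75
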