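import Pool.Agent.Lib.MP_1e9f59_co.Fin54d

/-!
# MP_1e9f59_co : module FIN-54, part 5

The finite check and its soundness.
-/

set_option autoImplicit false

namespace Acyc75

namespace Fin54

def ne (a b : ℕ) : Bool := !(Nat.beq a b)

theorem ne_of {a b : Fin 3} (h : a ≠ b) : ne a.val b.val = true := by
  unfold ne
  cases hb : Nat.beq a.val b.val
  · rfl
  · exact absurd (Fin.ext (Nat.eq_of_beq_eq_true hb)) h

theorem of_ne {a b : Fin 3} (h : ne a.val b.val = true) : a ≠ b := by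
  rintro rfl
  have : Nat.beq a.val a.val = true := Nat.beq_refl _
  unfold ne at h
  rw [this] at h
  exact absurd h (by decide)

/-- Relevant boundary edges for the colour `p`. -/
def rr (c : List ℕ) (p : ℕ) : ℕ → Bool := fun i => ne (c.getD i 3) p

def cond (A : ℕ) (ls cs : List ℕ) : Bool :=
  ls.any (Nat.testBit A) && cs.all (fun n => !(Nat.testBit A n)) && selfNC A

def surv (c : List ℕ) (z r0 r1 r2 r3 p : ℕ) (n : Nd) : List ℕ :=
  (AL (rr c p)).filter (fun A => cond A (LS r0 r1 r2 r3 p n) (CS z r0 r1 r2 r3 p))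

/-- The vertices carrying the outgoing edges. -/
def att : Fin 7 → Fin 9 := ![0, 1, 2, 5, 6, 7, 8]

def pok (g : Fin 9 → Fin 3) (c : List ℕ) : Bool :=
  (List.finRange 7).all fun j => ne (g (att j)).val (c.getD j.val 3)

def chk1 (c : List ℕ) (r0 r1 r2 r3 : ℕ) (n0 n1 n2 : Nd) : Bool :=
  (surv c 2 r0 r1 r2 r3 0 n0).all fun A0 => (surv c 2 r0 r1 r2 r3 1 n1).all fun A1 =>
    !(crossOK A0 A1) || (surv c 2 r0 r1 r2 r3 2 n2).all fun A2 => !(crossOK A0 A2) ||
      !(crossOK A1 A2) || GT54.any fun x => pok x.g c && Nat.beq (Nat.land (x.s 0) A0) 1 &&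
        Nat.beq (Nat.land (x.s 1) A1) 1 && Nat.beq (Nat.land (x.s 2) A2) 1

def cL (c : Fin 7 → Fin 3) : List ℕ :=
  [(c 0).val, (c 1).val, (c 2).val, (c 3).val, (c 4).val, (c 5).val, (c 6).val]

theorem cL_get (c : Fin 7 → Fin 3) (i : Fin 7) : (cL c).getD i.val 3 = (c i).val := by
  fin_cases i <;> rfl

theorem rr_iff (c : Fin 7 → Fin 3) (p : Fin 3) (i : Fin 7) :
    rr (cL c) p.val i = false ↔ c i = p := by
  unfold rr
  rw [cL_get]
  constructor
  · intro h
    by_contra hne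
    rw [ne_of hne] at h
    cases h
  · rintro rfl
    unfold ne
    rw [Nat.beq_refl]; rfl

theorem exists_A (c : Fin 7 → Fin 3) (L : Fin 3 → Fin 7 → Fin 7) (p : Fin 3) :
    ∃ A ∈ AL (rr (cL c) p.val), ∀ J, A.testBit (enc J) = true ↔ EL c L p J := by
  obtain ⟨A, hA, h⟩ := AL_complete (rr (cL c) p.val) (L p)
  refine ⟨A, hA, fun J => ?_⟩
  rw [h]
  unfold EL
  constructor
  · rintro ⟨h1, h2⟩
    exact ⟨fun i hi hc => hi (h1 i ((rr_iff c p i).2 hc)), h2⟩
  · rintro ⟨h1, h2⟩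
    refine ⟨fun i hi => ?_, h2⟩
    by_contra hne
    exact h1 i hne ((rr_iff c p i).1 hi)

theorem att_spec : ∀ (i : Fin 9) (t : Fin 3),
    Sum.elim (fun _ => true) (fun j => decide (i = att j)) (T54 i t) = true := by
  decide +kernel

theorem norm_case {c : Fin 7 → Fin 3} {L : Fin 3 → Fin 7 → Fin 7} {ρ : Fin 4 → Fin 3}
    {J5 : Fin 3 → Fin 5 → ZMod 2} {n : Fin 3 → Nd}
    (hn : ∀ p, n p = ⟨bd (J5 p 0), bd (J5 p 1), bd (J5 p 2), bd (J5 p 3), bd (J5 p 4)⟩)
    (hchk : chk1 (cL c) (ρ 0).val (ρ 1).val (ρ 2).val (ρ 3).val (n 0) (n 1) (n 2) = true)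
    (hFA : FA T54r (fun J => J 0 = J 1) c L ![2, ρ 0, ρ 1, ρ 2, ρ 3]) (hNC : NC (EL c L))
    (hl : ∀ p, Lift54 ρ (EL c L) p (J5 p)) :
    ∃ g : Fin 9 → Fin 3, FA T54 (fun _ => True) c L g := by
  have hex : ∀ p : Fin 3, ∃ A ∈ surv (cL c) 2 (ρ 0).val (ρ 1).val (ρ 2).val (ρ 3).val p.val (n p),
      ∀ J, A.testBit (enc J) = true ↔ EL c L p J := by
    intro p
    obtain ⟨A, hA, h⟩ := exists_A c L p
    refine ⟨A, List.mem_filter.2 ⟨hA, ?_⟩, h⟩
    have h1 := lift_sound (F := EL c L) (p := p) (fun J hJ => (h J).2 hJ) (hl p)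
    have h2 := cs_sound (z := 2) (p := p) (fun J hJ => (h J).1 hJ) hFA
    have h3 := selfNC_sound hNC h
    rw [← hn p] at h1
    change cond A (LS (ρ 0).val (ρ 1).val (ρ 2).val (ρ 3).val p.val (n p))
      (CS 2 (ρ 0).val (ρ 1).val (ρ 2).val (ρ 3).val p.val) = true
    unfold cond
    rw [h1, h3]
    rw [show List.all (CS 2 (ρ 0).val (ρ 1).val (ρ 2).val (ρ 3).val p.val)
      (fun n => !(Nat.testBit A n)) = true from h2]
    rfl
  obtain ⟨A0, m0, h0⟩ := hex 0
  obtain ⟨A1, m1, h1⟩ := hex 1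
  obtain ⟨A2, m2, h2⟩ := hex 2
  have c01 := cross_sound hNC (by decide) h0 h1
  have c02 := cross_sound hNC (by decide) h0 h2
  have c12 := cross_sound hNC (by decide) h1 h2
  unfold chk1 at hchk
  rw [List.all_eq_true] at hchk
  have k0 := hchk A0 m0
  rw [List.all_eq_true] at k0
  have k1 := k0 A1 m1
  rw [c01, Bool.not_true, Bool.false_or, List.all_eq_true] at k1
  have k2 := k1 A2 m2
  rw [c02, c12, Bool.not_true, Bool.false_or, Bool.false_or, List.any_eq_true] at k2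
  obtain ⟨x, hx, hk⟩ := k2
  simp only [Bool.and_eq_true] at hk
  obtain ⟨⟨⟨hp, b0⟩, b1⟩, b2⟩ := hk
  obtain ⟨s1, s2⟩ := GT54_sound x hx
  have hland : ∀ p : Fin 3, ∃ A, (∀ J, A.testBit (enc J) = true ↔ EL c L p J) ∧
      Nat.land (x.s p) A = 1 := by
    intro p
    fin_cases p
    · exact ⟨A0, h0, Nat.eq_of_beq_eq_true b0⟩
    · exact ⟨A1, h1, Nat.eq_of_beq_eq_true b1⟩
    · exact ⟨A2, h2, Nat.eq_of_beq_eq_true b2⟩
  refine ⟨x.g, ?_, ?_⟩
  · intro i t
    have hs := s1 i t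
    have ha := att_spec i t
    cases hT : T54 i t with
    | inl q =>
      rw [hT] at hs
      exact hs
    | inr j =>
      rw [hT] at ha
      simp only [Sum.elim_inr] at ha ⊢
      have hi := of_decide_eq_true ha
      unfold pok at hp
      rw [List.all_eq_true] at hp
      have := hp j (List.mem_finRange j)
      rw [cL_get] at this
      rw [hi]
      exact of_ne this
  · intro p e J e1 e2 e3 _ hEL
    obtain ⟨t1, t2⟩ := s2 p e J e1 e2 e3
    obtain ⟨A, hA, hl⟩ := hland p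
    have : (Nat.land (x.s p) A).testBit (enc J) = true := by
      have h' : (Nat.land (x.s p) A).testBit (enc J) =
        ((x.s p).testBit (enc J) && A.testBit (enc J)) := Nat.testBit_and ..
      rw [h', t1, (hA J).2 hEL]; rfl
    rw [hl] at this
    have h0 : enc J = 0 := by
      by_contra hne
      rw [Nat.testBit_one_eq_true_iff_self_eq_zero] at this
      exact hne this
    have hJ : ∀ j, J j = 0 := enc_eq_zero h0
    exact ⟨hJ, t2 hJ⟩

def CC : List ℕ := [0, 1, 2]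

theorem mem_CC (a : Fin 3) : a.val ∈ CC := by
  fin_cases a <;> simp [CC]

def chkA : Bool := CC.all fun v3 => CC.all fun v4 => CC.all fun v5 => CC.all fun v6 =>
  CC.all fun r1 => CC.all fun r2 =>
  !(ne 1 r1 && ne r1 r2 && ne r2 1 && ne 1 v3 && ne r1 v4 && ne r2 v5 && ne 1 v6) ||
    chk1 [2, 0, 0, v3, v4, v5, v6] 1 r1 r2 1 ⟨true, false, false, true, false⟩
      ⟨true, false, true, false, false⟩ ⟨false, false, true, true, false⟩

def chkB (v3 : ℕ) : Bool := CC.all fun v4 => CC.all fun v5 => CC.all fun v6 =>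
  CC.all fun r1 => CC.all fun r2 =>
  !(ne 1 r1 && ne r1 r2 && ne r2 0 && ne 1 v3 && ne r1 v4 && ne r2 v5 && ne 0 v6) ||
    chk1 [0, 2, 1, v3, v4, v5, v6] 1 r1 r2 0 ⟨false, true, false, true, false⟩
      ⟨false, true, false, false, true⟩ ⟨false, false, false, true, true⟩

theorem chkA_true : chkA = true := by decide +kernel

theorem chkB_true : (chkB 0 && chkB 1 && chkB 2) = true := by decide +kernel

end Fin54

end Acyc75
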