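import Pool.Agent.Lib.MP_1e9f59_co.Spec

/-!
# MP_1e9f59_co : module TWELVE

A map `M` with 12 vertices which contains the configuration `Tx4` and whose reduced map is a
planar three-edge-connected map with 8 vertices (so the graph `Q₃` or `H`, by EIGHT) has an acyclic
3-colouring. The `1056` graphs are checked by the kernel: 22 colourings suffice; acyclicity is
checked by peeling off vertices with at most one neighbour.
-/

set_option autoImplicit false

namespace Acyc75

namespace Twelve

/-! ## Peeling -/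

/-- One step: the vertex `v` is removed from the set `S` if it has at most one neighbour in `S`. -/
def pstep (nb : ℕ → ℕ) (S v : ℕ) : ℕ :=
  cond (S.testBit v && ((nb v &&& S) == 0 || (nb v &&& S) == 2 ^ Nat.log2 (nb v &&& S)))
    (S ^^^ 2 ^ v) S

/-- Peeling along a list of vertices. -/
def peel (nb : ℕ → ℕ) : List ℕ → ℕ → ℕ
  | [], S => S
  | v :: l, S => cond (S == 0) 0 (peel nb l (pstep nb S v))

section sound

variable {V : Type} (M : CMap V) (e : V → ℕ) (nb : ℕ → ℕ)

/-- The support of a chain. -/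
def sup (C : Dt V → ZMod 2) : Set V := {v | ∃ t, C (v, t) ≠ 0}

theorem zmod2 (x : ZMod 2) : x = 0 ∨ x = 1 := by
  revert x; decide

theorem two_darts {C : Dt V → ZMod 2} (hC : M.Ev C) {v : V} (hv : v ∈ sup C) :
    ∃ t t' : Fin 3, t ≠ t' ∧ C (v, t) ≠ 0 ∧ C (v, t') ≠ 0 := by
  obtain ⟨t, ht⟩ := hv
  have h := hC.2 v
  rcases zmod2 (C (v, 0)) with h0 | h0 <;> rcases zmod2 (C (v, 1)) with h1 | h1 <;>
    rcases zmod2 (C (v, 2)) with h2 | h2
  · fin_cases t <;> simp_all
  · rw [h0, h1, h2] at h; exact absurd h (by decide)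
  · rw [h0, h1, h2] at h; exact absurd h (by decide)
  · exact ⟨1, 2, by decide, by rw [h1]; decide, by rw [h2]; decide⟩
  · rw [h0, h1, h2] at h; exact absurd h (by decide)
  · exact ⟨0, 2, by decide, by rw [h0]; decide, by rw [h2]; decide⟩
  · exact ⟨0, 1, by decide, by rw [h0]; decide, by rw [h1]; decide⟩
  · rw [h0, h1, h2] at h; exact absurd h (by decide)

theorem pstep_sound (he : Function.Injective e)
    (hadj : ∀ d : Dt V, (nb (e d.1)).testBit (e (M.a d).1) = true)
    (hs : ∀ d d' : Dt V, d.1 = d'.1 → (M.a d).1 = (M.a d').1 → d = d')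
    {C : Dt V → ZMod 2} (hC : M.Ev C) (S v : ℕ) (hS : ∀ u ∈ sup C, S.testBit (e u) = true) :
    ∀ u ∈ sup C, (pstep nb S v).testBit (e u) = true := by
  intro u hu
  unfold pstep
  by_cases hc : (S.testBit v && ((nb v &&& S) == 0 ||
      (nb v &&& S) == 2 ^ Nat.log2 (nb v &&& S))) = true
  · rw [hc]
    simp only [cond_true, Nat.testBit_xor, hS u hu]
    by_cases huv : e u = v
    · exfalso
      obtain ⟨t, t', htt, h1, h2⟩ := two_darts M hC hu
      have w1 : (M.a (u, t)).1 ∈ sup C := ⟨(M.a (u, t)).2, by rw [Prod.mk.eta, hC.1]; exact h1⟩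
      have w2 : (M.a (u, t')).1 ∈ sup C := ⟨(M.a (u, t')).2, by rw [Prod.mk.eta, hC.1]; exact h2⟩
      have b1 : (nb v &&& S).testBit (e (M.a (u, t)).1) = true := by
        rw [Nat.testBit_and, ← huv, hadj (u, t), hS _ w1]; rfl
      have b2 : (nb v &&& S).testBit (e (M.a (u, t')).1) = true := by
        rw [Nat.testBit_and, ← huv, hadj (u, t'), hS _ w2]; rfl
      rw [Bool.and_eq_true, Bool.or_eq_true, beq_iff_eq, beq_iff_eq] at hc
      rcases hc.2 with h | h
      · rw [h, Nat.zero_testBit] at b1
        exact absurd b1 (by decide)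
      · rw [h, Nat.testBit_two_pow, decide_eq_true_eq] at b1 b2
        have : (M.a (u, t)).1 = (M.a (u, t')).1 := he (b1.symm.trans b2)
        have := hs (u, t) (u, t') rfl this
        exact htt (congrArg Prod.snd this)
    · rw [Nat.testBit_two_pow]
      have : ¬ v = e u := fun h => huv h.symm
      simp [this]
  · rw [Bool.not_eq_true] at hc
    rw [hc]
    exact hS u hu

theorem peel_sound (he : Function.Injective e)
    (hadj : ∀ d : Dt V, (nb (e d.1)).testBit (e (M.a d).1) = true)
    (hs : ∀ d d' : Dt V, d.1 = d'.1 → (M.a d).1 = (M.a d').1 → d = d')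
    {C : Dt V → ZMod 2} (hC : M.Ev C) (l : List ℕ) :
    ∀ S : ℕ, (∀ u ∈ sup C, S.testBit (e u) = true) → peel nb l S = 0 → ∀ d, C d = 0 := by
  induction l with
  | nil =>
    intro S hS h d
    by_contra hd
    have := hS d.1 ⟨d.2, hd⟩
    rw [peel] at h
    rw [h, Nat.zero_testBit] at this
    exact absurd this (by decide)
  | cons v l ih =>
    intro S hS h
    by_cases h0 : S = 0
    · intro d
      by_contra hd
      have := hS d.1 ⟨d.2, hd⟩
      rw [h0, Nat.zero_testBit] at this
      exact absurd this (by decide)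
    · apply ih (pstep nb S v) (pstep_sound M e nb he hadj hs hC S v hS)
      rw [peel] at h
      have hb : (S == 0) = false := by simpa using h0
      rw [hb] at h
      exact h

end sound

/-! ## The check of a colouring -/

/-- Orders of peeling. -/
def order : List ℕ := [0, 1, 2, 3, 4, 5, 6, 7, 8, 9, 10, 11, 0, 1, 2, 3, 4, 5, 6, 7, 8, 9, 10, 11,
  0, 1, 2, 3, 4, 5, 6, 7, 8, 9, 10, 11, 0, 1, 2, 3, 4, 5, 6, 7, 8, 9, 10, 11]

/-- The vertices. -/
def verts : List ℕ := [0, 1, 2, 3, 4, 5, 6, 7, 8, 9, 10, 11]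

/-- The colouring with colour classes `A`, `B` and the rest is proper at `v`. -/
def okv (nb : ℕ → ℕ) (A B v : ℕ) : Bool :=
  cond (A.testBit v) ((nb v &&& A) == 0)
    (cond (B.testBit v) ((nb v &&& B) == 0) ((nb v &&& (4095 ^^^ (A ||| B))) == 0))

/-- The check of a colouring. -/
def check (nb : ℕ → ℕ) (A B : ℕ) : Bool :=
  verts.all (okv nb A B) && ((A &&& B) == 0 && (peel nb order (4095 ^^^ A) == 0 &&
    (peel nb order (4095 ^^^ B) == 0 && peel nb order (A ||| B) == 0)))

/-- The colour of a vertex. -/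
def colr (A B v : ℕ) : Fin 3 := cond (A.testBit v) 0 (cond (B.testBit v) 1 2)

theorem mem_verts {v : ℕ} (h : v < 12) : v ∈ verts := by
  unfold verts
  interval_cases v <;> simp

theorem test4095 {v : ℕ} (h : v < 12) : (4095 : ℕ).testBit v = true := by
  interval_cases v <;> rfl

theorem check_sound {V : Type} (M : CMap V) (e : V → ℕ) (nb : ℕ → ℕ) (he : Function.Injective e)
    (h12 : ∀ v, e v < 12)
    (hadj : ∀ d : Dt V, (nb (e d.1)).testBit (e (M.a d).1) = true)
    (hs : ∀ d d' : Dt V, d.1 = d'.1 → (M.a d).1 = (M.a d').1 → d = d')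
    (A B : ℕ) (hAB : check nb A B = true) : M.Good (fun v => colr A B (e v)) := by
  unfold check at hAB
  simp only [Bool.and_eq_true, List.all_eq_true, beq_iff_eq] at hAB
  obtain ⟨h1, h0, h2, h3, h4⟩ := hAB
  refine ⟨?_, ?_⟩
  · intro d hd
    have hv := h1 (e d.1) (mem_verts (h12 _))
    have ha := hadj d
    unfold okv at hv
    simp only [colr] at hd
    cases hA : A.testBit (e d.1) with
    | true =>
      cases hA' : A.testBit (e (M.a d).1) with
      | true =>
        rw [hA, cond_true, beq_iff_eq] at hv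
        have : (nb (e d.1) &&& A).testBit (e (M.a d).1) = true := by
          rw [Nat.testBit_and, ha, hA']; rfl
        rw [hv, Nat.zero_testBit] at this
        exact absurd this (by decide)
      | false =>
        rw [hA, hA'] at hd
        cases hB' : B.testBit (e (M.a d).1) <;> rw [hB'] at hd <;> simp at hd
    | false =>
      cases hB : B.testBit (e d.1) with
      | true =>
        rw [hA, cond_false, hB, cond_true, beq_iff_eq] at hv
        cases hA' : A.testBit (e (M.a d).1) with
        | true =>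
          rw [hA, hA', hB] at hd; simp at hd
        | false =>
          cases hB' : B.testBit (e (M.a d).1) with
          | true =>
            have : (nb (e d.1) &&& B).testBit (e (M.a d).1) = true := by
              rw [Nat.testBit_and, ha, hB']; rfl
            rw [hv, Nat.zero_testBit] at this
            exact absurd this (by decide)
          | false =>
            rw [hA, hA', hB, hB'] at hd; exact absurd hd (by decide)
      | false =>
        rw [hA, cond_false, hB, cond_false, beq_iff_eq] at hv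
        cases hA' : A.testBit (e (M.a d).1) with
        | true =>
          rw [hA, hA', hB] at hd; simp at hd
        | false =>
          cases hB' : B.testBit (e (M.a d).1) with
          | true =>
            rw [hA, hA', hB, hB'] at hd; exact absurd hd (by decide)
          | false =>
            have : (nb (e d.1) &&& (4095 ^^^ (A ||| B))).testBit (e (M.a d).1) = true := by
              rw [Nat.testBit_and, ha, Nat.testBit_xor, Nat.testBit_or, hA', hB',
                test4095 (h12 _)]
              rfl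
            rw [hv, Nat.zero_testBit] at this
            exact absurd this (by decide)
  · intro p C hC hp
    have hp' : ∀ u ∈ sup C, colr A B (e u) ≠ p := by
      rintro u ⟨t, ht⟩
      exact hp (u, t) ht
    fin_cases p
    · refine peel_sound M e nb he hadj hs hC order (4095 ^^^ A) ?_ h2
      intro u hu
      have := hp' u hu
      rw [Nat.testBit_xor, test4095 (h12 _)]
      cases hA : A.testBit (e u) with
      | true => unfold colr at this; rw [hA] at this; exact absurd rfl this
      | false => rfl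
    · refine peel_sound M e nb he hadj hs hC order (4095 ^^^ B) ?_ h3
      intro u hu
      have := hp' u hu
      rw [Nat.testBit_xor, test4095 (h12 _)]
      cases hB : B.testBit (e u) with
      | true =>
        exfalso
        cases hA : A.testBit (e u) with
        | true =>
          have h : (A &&& B).testBit (e u) = true := by rw [Nat.testBit_and, hA, hB]; rfl
          rw [h0, Nat.zero_testBit] at h
          exact absurd h (by decide)
        | false => unfold colr at this; rw [hA, hB] at this; exact absurd rfl this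
      | false => rfl
    · refine peel_sound M e nb he hadj hs hC order (A ||| B) ?_ h4
      intro u hu
      have := hp' u hu
      rw [Nat.testBit_or]
      unfold colr at this
      cases hA : A.testBit (e u) with
      | true => rfl
      | false =>
        cases hB : B.testBit (e u) with
        | true => rfl
        | false => rw [hA, hB] at this; exact absurd rfl this

/-! ## The graphs -/

/-- Neighbourhoods in `Q₃`. -/
def nbQ : List ℕ := [22, 41, 73, 134, 97, 146, 148, 104]

/-- Neighbourhoods in `H`. -/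
def nbH : List ℕ := [74, 21, 162, 81, 42, 148, 137, 100]

/-- Neighbourhoods in the graph with eight vertices. -/
def nb8 (g : Bool) (a : ℕ) : ℕ := (cond g nbQ nbH).getD a 0

/-- Neighbourhoods in the graph with twelve vertices: the vertices `0, 1, 2, 3` are those of `Tx4`. -/
def nb12 (g : Bool) (u0 u1 u2 u3 : ℕ) : ℕ → ℕ
  | 0 => 6 ||| 2 ^ (4 + u0)
  | 1 => 5 ||| 2 ^ (4 + u1)
  | 2 => 11
  | 3 => 4 ||| (2 ^ (4 + u2) ||| 2 ^ (4 + u3))
  | a + 4 =>
    ((nb8 g a &&& (cond (a == u0) (255 ^^^ 2 ^ u1) 255 &&& (cond (a == u1) (255 ^^^ 2 ^ u0) 255 &&&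
      (cond (a == u2) (255 ^^^ 2 ^ u3) 255 &&& cond (a == u3) (255 ^^^ 2 ^ u2) 255)))) <<< 4) |||
      (cond (a == u0) 1 0 ||| (cond (a == u1) 2 0 ||| (cond (a == u2) 8 0 ||| cond (a == u3) 8 0)))

/-- The colourings. -/
def cols : List (ℕ × ℕ) := [(1065, 2370), (2369, 1066), (201, 2322), (2321, 202), (393, 1554),
  (1553, 394), (2209, 538), (537, 2210), (585, 1170), (1169, 586), (1065, 2322), (2321, 1066),
  (2089, 658), (657, 2090), (353, 2074), (1665, 2074), (2185, 338), (1345, 2074), (2209, 330),
  (2089, 338), (2073, 450), (2321, 650)]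

/-- The numbers `0, ..., 7`. -/
def l8 : List ℕ := [0, 1, 2, 3, 4, 5, 6, 7]

/-- The check of all cases. -/
def allCases : Bool := [true, false].all fun g => l8.all fun u0 => l8.all fun u1 =>
  cond ((nb8 g u0).testBit u1) (l8.all fun u2 => l8.all fun u3 =>
    cond ((nb8 g u2).testBit u3 && !((u0 == u2 && u1 == u3) || (u0 == u3 && u1 == u2)))
      (cols.any fun c => check (nb12 g u0 u1 u2 u3) c.1 c.2) true) true

set_option maxRecDepth 100000 in
theorem allCases_eq : allCases = true := by decide +kernel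

theorem mem_l8 {v : ℕ} (h : v < 8) : v ∈ l8 := by
  unfold l8
  interval_cases v <;> simp

theorem exists_col (g : Bool) {u0 u1 u2 u3 : ℕ} (h0 : u0 < 8) (h1 : u1 < 8) (h2 : u2 < 8)
    (h3 : u3 < 8) (h01 : (nb8 g u0).testBit u1 = true) (h23 : (nb8 g u2).testBit u3 = true)
    (hn : ¬ (u0 = u2 ∧ u1 = u3)) (hn' : ¬ (u0 = u3 ∧ u1 = u2)) :
    ∃ A B, check (nb12 g u0 u1 u2 u3) A B = true := by
  have h := allCases_eq
  unfold allCases at h
  rw [List.all_eq_true] at h
  have h := h g (by cases g <;> simp)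
  rw [List.all_eq_true] at h
  have h := h u0 (mem_l8 h0)
  rw [List.all_eq_true] at h
  have h := h u1 (mem_l8 h1)
  rw [h01, cond_true, List.all_eq_true] at h
  have h := h u2 (mem_l8 h2)
  rw [List.all_eq_true] at h
  have h := h u3 (mem_l8 h3)
  have hc : ((nb8 g u2).testBit u3 && !((u0 == u2 && u1 == u3) || (u0 == u3 && u1 == u2))) =
      true := by
    rw [h23]
    simp only [Bool.true_and, Bool.not_eq_true', Bool.or_eq_false_iff, Bool.and_eq_false_iff,
      beq_eq_false_iff_ne]
    constructor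
    · by_cases h : u0 = u2
      · right; exact fun h' => hn ⟨h, h'⟩
      · left; exact h
    · by_cases h : u0 = u3
      · right; exact fun h' => hn' ⟨h, h'⟩
      · left; exact h
  rw [hc, cond_true, List.any_eq_true] at h
  obtain ⟨c, _, hc⟩ := h
  exact ⟨c.1, c.2, hc⟩

/-! ## Adjacency in the graph with twelve vertices -/

theorem test_two_pow_or (a b : ℕ) : (a ||| 2 ^ b).testBit b = true := by
  rw [Nat.testBit_or, Nat.testBit_two_pow_self, Bool.or_true]

theorem nb12_low (g : Bool) (u0 u1 u2 u3 : ℕ) :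
    (nb12 g u0 u1 u2 u3 0).testBit 1 = true ∧ (nb12 g u0 u1 u2 u3 0).testBit 2 = true ∧
    (nb12 g u0 u1 u2 u3 0).testBit (4 + u0) = true ∧
    (nb12 g u0 u1 u2 u3 1).testBit 0 = true ∧ (nb12 g u0 u1 u2 u3 1).testBit 2 = true ∧
    (nb12 g u0 u1 u2 u3 1).testBit (4 + u1) = true ∧
    (nb12 g u0 u1 u2 u3 2).testBit 0 = true ∧ (nb12 g u0 u1 u2 u3 2).testBit 1 = true ∧
    (nb12 g u0 u1 u2 u3 2).testBit 3 = true ∧
    (nb12 g u0 u1 u2 u3 3).testBit 2 = true ∧ (nb12 g u0 u1 u2 u3 3).testBit (4 + u2) = true ∧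
    (nb12 g u0 u1 u2 u3 3).testBit (4 + u3) = true := by
  refine ⟨?_, ?_, ?_, ?_, ?_, ?_, ?_, ?_, ?_, ?_, ?_, ?_⟩
  · simp only [nb12, Nat.testBit_or]; rfl
  · simp only [nb12, Nat.testBit_or]; rfl
  · simp only [nb12]; exact test_two_pow_or _ _
  · simp only [nb12, Nat.testBit_or]; rfl
  · simp only [nb12, Nat.testBit_or]; rfl
  · simp only [nb12]; exact test_two_pow_or _ _
  · simp only [nb12]; rfl
  · simp only [nb12]; rfl
  · simp only [nb12]; rfl
  · simp only [nb12, Nat.testBit_or]; rfl
  · simp only [nb12, Nat.testBit_or, Nat.testBit_two_pow_self, Bool.true_or, Bool.or_true]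
  · simp only [nb12, Nat.testBit_or, Nat.testBit_two_pow_self, Bool.true_or, Bool.or_true]

theorem nb12_back (g : Bool) (u0 u1 u2 u3 : ℕ) :
    (nb12 g u0 u1 u2 u3 (u0 + 4)).testBit 0 = true ∧
    (nb12 g u0 u1 u2 u3 (u1 + 4)).testBit 1 = true ∧
    (nb12 g u0 u1 u2 u3 (u2 + 4)).testBit 3 = true ∧
    (nb12 g u0 u1 u2 u3 (u3 + 4)).testBit 3 = true := by
  have t21 : Nat.testBit 2 1 = true := rfl
  have t83 : Nat.testBit 8 3 = true := rfl
  refine ⟨?_, ?_, ?_, ?_⟩
  · simp only [nb12, Nat.testBit_or, beq_self_eq_true, cond_true]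
    simp
  · simp only [nb12, Nat.testBit_or, beq_self_eq_true, cond_true, t21, Bool.true_or, Bool.or_true]
  · simp only [nb12, Nat.testBit_or, beq_self_eq_true, cond_true, t83, Bool.true_or, Bool.or_true]
  · simp only [nb12, Nat.testBit_or, beq_self_eq_true, cond_true, t83, Bool.true_or, Bool.or_true]

theorem test_mask (p : Bool) (u b : ℕ) (hb : b < 8) (h : p = true → u ≠ b) :
    (cond p (255 ^^^ 2 ^ u) 255).testBit b = true := by
  have h255 : (255 : ℕ).testBit b = true := by interval_cases b <;> rfl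
  cases p with
  | false => exact h255
  | true =>
    rw [cond_true, Nat.testBit_xor, h255, Nat.testBit_two_pow]
    simp [h rfl]

theorem nb12_out (g : Bool) (u0 u1 u2 u3 a b : ℕ) (hb : b < 8)
    (hab : (nb8 g a).testBit b = true) (h1 : ¬ (a = u0 ∧ b = u1)) (h2 : ¬ (a = u1 ∧ b = u0))
    (h3 : ¬ (a = u2 ∧ b = u3)) (h4 : ¬ (a = u3 ∧ b = u2)) :
    (nb12 g u0 u1 u2 u3 (a + 4)).testBit (4 + b) = true := by
  simp only [nb12]
  rw [Nat.testBit_or, Nat.testBit_shiftLeft]
  have e4 : 4 + b - 4 = b := by omega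
  have e5 : decide (4 + b ≥ 4) = true := by simp
  rw [e4, e5, Bool.true_and]
  simp only [Nat.testBit_and]
  rw [hab, test_mask (a == u0) u1 b hb (fun h h' => h1 ⟨by simpa using h, h'.symm⟩),
    test_mask (a == u1) u0 b hb (fun h h' => h2 ⟨by simpa using h, h'.symm⟩),
    test_mask (a == u2) u3 b hb (fun h h' => h3 ⟨by simpa using h, h'.symm⟩),
    test_mask (a == u3) u2 b hb (fun h h' => h4 ⟨by simpa using h, h'.symm⟩)]
  rfl

theorem adjQ_nb (a b : Fin 8) (h : adjQ a b = true) : (nb8 true a.val).testBit b.val = true := by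
  revert a b; decide

theorem adjH_nb (a b : Fin 8) (h : adjH a b = true) : (nb8 false a.val).testBit b.val = true := by
  revert a b; decide

/-! ## The module -/

section final

variable {V : Type} (M : CMap V) (E : M.Emb Tx4) (q : {v // v ∉ Set.range E.x} → Fin 8)

open Classical in
/-- The numbering of the twelve vertices. -/
noncomputable def num (v : V) : ℕ :=
  if h : ∃ i, E.x i = v then (Classical.choose h).val else (q ⟨v, fun hr => h hr⟩).val + 4

theorem num_x (i : Fin 4) : num M E q (E.x i) = i.val := by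
  have h : ∃ j, E.x j = E.x i := ⟨i, rfl⟩
  unfold num
  rw [dif_pos h, E.inj (Classical.choose_spec h)]

theorem num_out (v : V) (h : v ∉ Set.range E.x) : num M E q v = (q ⟨v, h⟩).val + 4 := by
  unfold num
  exact dif_neg (fun h' => h h')

theorem num_lt (v : V) : num M E q v < 12 := by
  by_cases h : v ∈ Set.range E.x
  · obtain ⟨i, rfl⟩ := h
    rw [num_x]; have := i.isLt; omega
  · rw [num_out M E q v h]; have := (q ⟨v, h⟩).isLt; omega

theorem num_inj (hq : Function.Injective q) : Function.Injective (num M E q) := by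
  intro v w h
  by_cases hv : v ∈ Set.range E.x <;> by_cases hw : w ∈ Set.range E.x
  · obtain ⟨i, rfl⟩ := hv
    obtain ⟨j, rfl⟩ := hw
    rw [num_x, num_x] at h
    rw [Fin.ext h]
  · obtain ⟨i, rfl⟩ := hv
    rw [num_x, num_out M E q w hw] at h
    have := i.isLt; omega
  · obtain ⟨j, rfl⟩ := hw
    rw [num_x, num_out M E q v hv] at h
    have := j.isLt; omega
  · rw [num_out M E q v hv, num_out M E q w hw] at h
    have := hq (Fin.ext (Nat.add_right_cancel h))
    exact congrArg Subtype.val this

/-- The number of the outer end of the `j`-th outgoing edge. -/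
def uu (j : Fin 4) : ℕ := (q ⟨(E.b j).1, E.out j⟩).val

theorem num_b (j : Fin 4) : num M E q (E.b j).1 = 4 + uu M E q j := by
  rw [num_out M E q _ (E.out j), Nat.add_comm]; rfl

theorem adj12 (g : Bool) (hBd : M.Bdry (Set.range E.x) E.b)
    (M' : CMap {v // v ∉ Set.range E.x}) (hM' : M.IsThr E M')
    (hs' : ∀ d d' : Dt {v // v ∉ Set.range E.x}, d.1 = d'.1 → (M'.a d).1 = (M'.a d').1 → d = d')
    (hq : Function.Injective q)
    (hadj : ∀ v w, M'.Adj v w → (nb8 g (q v).val).testBit (q w).val = true) (d : Dt V) :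
    (nb12 g (uu M E q 0) (uu M E q 1) (uu M E q 2) (uu M E q 3) (num M E q d.1)).testBit
      (num M E q (M.a d).1) = true := by
  obtain ⟨c1, c2, c3, c4, c5, c6, c7, c8, c9, c10, c11, c12⟩ :=
    nb12_low g (uu M E q 0) (uu M E q 1) (uu M E q 2) (uu M E q 3)
  obtain ⟨e1, e2, e3, e4⟩ := nb12_back g (uu M E q 0) (uu M E q 1) (uu M E q 2) (uu M E q 3)
  -- the darts at the vertices of the configuration
  have key : ∀ (i : Fin 4) (t : Fin 3),
      (nb12 g (uu M E q 0) (uu M E q 1) (uu M E q 2) (uu M E q 3) i.val).testBit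
        (num M E q (M.a (E.x i, E.pos i + t)).1) = true := by
    intro i t
    rw [E.tgt i t]
    fin_cases i <;> fin_cases t
    · change (nb12 _ _ _ _ _ 0).testBit (num M E q (E.x 1)) = true
      rw [num_x]; exact c1
    · change (nb12 _ _ _ _ _ 0).testBit (num M E q (E.b 0).1) = true
      rw [num_b]; exact c3
    · change (nb12 _ _ _ _ _ 0).testBit (num M E q (E.x 2)) = true
      rw [num_x]; exact c2
    · change (nb12 _ _ _ _ _ 1).testBit (num M E q (E.x 2)) = true
      rw [num_x]; exact c5
    · change (nb12 _ _ _ _ _ 1).testBit (num M E q (E.b 1).1) = true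
      rw [num_b]; exact c6
    · change (nb12 _ _ _ _ _ 1).testBit (num M E q (E.x 0)) = true
      rw [num_x]; exact c4
    · change (nb12 _ _ _ _ _ 2).testBit (num M E q (E.x 0)) = true
      rw [num_x]; exact c7
    · change (nb12 _ _ _ _ _ 2).testBit (num M E q (E.x 3)) = true
      rw [num_x]; exact c9
    · change (nb12 _ _ _ _ _ 2).testBit (num M E q (E.x 1)) = true
      rw [num_x]; exact c8
    · change (nb12 _ _ _ _ _ 3).testBit (num M E q (E.x 2)) = true
      rw [num_x]; exact c10
    · change (nb12 _ _ _ _ _ 3).testBit (num M E q (E.b 2).1) = true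
      rw [num_b]; exact c11
    · change (nb12 _ _ _ _ _ 3).testBit (num M E q (E.b 3).1) = true
      rw [num_b]; exact c12
  by_cases hd : d.1 ∈ Set.range E.x
  · obtain ⟨i, hi⟩ := hd
    have hd2 : d = (E.x i, E.pos i + (d.2 - E.pos i)) := by
      apply Prod.ext
      · exact hi.symm
      · simp
    have h := key i (d.2 - E.pos i)
    rw [← hd2] at h
    rw [← hi, num_x]
    exact h
  · by_cases hd' : (M.a d).1 ∈ Set.range E.x
    · obtain ⟨j, hj⟩ := (hBd.2 d).1 ⟨hd, hd'⟩
      subst hj
      have hb0 : M.a (E.b 0) = (E.x 0, E.pos 0 + 1) := by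
        have h := E.tgt 0 1
        change M.a (E.x 0, E.pos 0 + 1) = E.b 0 at h
        rw [← h, M.inv]
      have hb1 : M.a (E.b 1) = (E.x 1, E.pos 1 + 1) := by
        have h := E.tgt 1 1
        change M.a (E.x 1, E.pos 1 + 1) = E.b 1 at h
        rw [← h, M.inv]
      have hb2 : M.a (E.b 2) = (E.x 3, E.pos 3 + 1) := by
        have h := E.tgt 3 1
        change M.a (E.x 3, E.pos 3 + 1) = E.b 2 at h
        rw [← h, M.inv]
      have hb3 : M.a (E.b 3) = (E.x 3, E.pos 3 + 2) := by
        have h := E.tgt 3 2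
        change M.a (E.x 3, E.pos 3 + 2) = E.b 3 at h
        rw [← h, M.inv]
      rw [num_b, Nat.add_comm]
      fin_cases j
      · change (nb12 _ _ _ _ _ (uu M E q 0 + 4)).testBit (num M E q (M.a (E.b 0)).1) = true
        rw [hb0, num_x]; exact e1
      · change (nb12 _ _ _ _ _ (uu M E q 1 + 4)).testBit (num M E q (M.a (E.b 1)).1) = true
        rw [hb1, num_x]; exact e2
      · change (nb12 _ _ _ _ _ (uu M E q 2 + 4)).testBit (num M E q (M.a (E.b 2)).1) = true
        rw [hb2, num_x]; exact e3
      · change (nb12 _ _ _ _ _ (uu M E q 3 + 4)).testBit (num M E q (M.a (E.b 3)).1) = true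
        rw [hb3, num_x]; exact e4
    · -- both ends outside
      have h1 : M'.a (⟨d.1, hd⟩, d.2) = (⟨(M.a d).1, hd'⟩, (M.a d).2) :=
        hM'.int d.1 (M.a d).1 hd hd' d.2 (M.a d).2 rfl
      have hA : M'.Adj ⟨d.1, hd⟩ ⟨(M.a d).1, hd'⟩ := ⟨d.2, by rw [h1]⟩
      have hn : ∀ j j' : Fin 4, sw j = j' → ¬ ((q ⟨d.1, hd⟩).val = uu M E q j ∧
          (q ⟨(M.a d).1, hd'⟩).val = uu M E q j') := by
        rintro j j' hjj ⟨ha, hb⟩
        have ha' := hq (Fin.ext ha)
        have hb' := hq (Fin.ext hb)
        have hbd := hM'.bd j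
        rw [hjj] at hbd
        have := hs' (⟨d.1, hd⟩, d.2) (⟨(E.b j).1, E.out j⟩, (E.b j).2) ha' (by
          rw [h1, hbd]; exact hb')
        have hdb : d = E.b j := by
          apply Prod.ext
          · exact congrArg (fun z => z.1.val) this
          · exact congrArg (fun z => z.2) this
        have := ((hBd.2 d).2 ⟨j, hdb.symm⟩).2
        exact hd' this
      rw [num_out M E q _ hd, num_out M E q _ hd', Nat.add_comm (q ⟨(M.a d).1, hd'⟩).val]
      exact nb12_out g _ _ _ _ _ _ (q ⟨(M.a d).1, hd'⟩).isLt (hadj _ _ hA)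
        (hn 0 1 rfl) (fun h => hn 1 0 rfl h) (hn 2 3 rfl) (fun h => hn 3 2 rfl h)

end final

end Twelve

open Twelve in
/-- TWELVE. -/
theorem specTwelve (hSimple : SpecSimple) (hBdry : SpecBdry) (hEight : SpecEight) :
    SpecTwelve := by
  intro V _ M E M' hM hcard hThr hT' hP'
  have hBd : M.Bdry (Set.range E.x) E.b := hBdry V M 4 4 Tx4 (by
    intro j; fin_cases j
    · exact ⟨0, 1, rfl⟩
    · exact ⟨1, 1, rfl⟩
    · exact ⟨3, 1, rfl⟩
    · exact ⟨3, 2, rfl⟩) E
  have hs := (hSimple V M hM (by omega)).2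
  have hcard' : Nat.card {v // v ∉ Set.range E.x} = 8 := by
    classical
    have := Fintype.ofFinite V
    have h1 : Nat.card (Set.range E.x) = 4 := by
      rw [Nat.card_range_of_injective E.inj, Nat.card_eq_fintype_card, Fintype.card_fin]
    have h2 : Nat.card {v // v ∈ Set.range E.x} + Nat.card {v // v ∉ Set.range E.x} =
        Nat.card V := by
      rw [← Nat.card_sum]
      exact Nat.card_congr (Equiv.sumCompl _)
    have h3 : Nat.card {v // v ∈ Set.range E.x} = 4 := h1
    omega
  have hs' := (hSimple _ M' hT' (by omega)).2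
  obtain ⟨q, hq⟩ := hEight _ M' hT' hP' hcard'
  obtain ⟨g, hg⟩ : ∃ g : Bool, ∀ v w, M'.Adj v w → (nb8 g (q v).val).testBit (q w).val = true := by
    rcases hq with h | h
    · exact ⟨true, fun v w hvw => adjQ_nb _ _ ((h v w).1 hvw)⟩
    · exact ⟨false, fun v w hvw => adjH_nb _ _ ((h v w).1 hvw)⟩
  have hadj := adj12 M E q g hBd M' hThr hs' q.injective hg
  have hb01 : (nb8 g (uu M E q 0)).testBit (uu M E q 1) = true := by
    apply hg
    exact ⟨(E.b 0).2, by rw [hThr.bd 0]; rfl⟩
  have hb23 : (nb8 g (uu M E q 2)).testBit (uu M E q 3) = true := by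
    apply hg
    exact ⟨(E.b 2).2, by rw [hThr.bd 2]; rfl⟩
  have hne : ∀ j k j' k' : Fin 4, sw j = j' → sw k = k' → j ≠ k →
      ¬ (uu M E q j = uu M E q k ∧ uu M E q j' = uu M E q k') := by
    rintro j k j' k' hj hk hjk ⟨h1, h2⟩
    have h1' := q.injective (Fin.ext h1)
    have h2' := q.injective (Fin.ext h2)
    have := hs' (⟨(E.b j).1, E.out j⟩, (E.b j).2) (⟨(E.b k).1, E.out k⟩, (E.b k).2) h1' (by
      rw [hThr.bd j, hThr.bd k, hj, hk]; exact h2')
    apply hjk
    apply hBd.1
    apply Prod.ext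
    · exact congrArg (fun z => z.1.val) this
    · exact congrArg (fun z => z.2) this
  obtain ⟨A, B, hAB⟩ := exists_col g (q _).isLt (q _).isLt (q _).isLt (q _).isLt hb01 hb23
    (hne 0 2 1 3 rfl rfl (by decide)) (hne 0 3 1 2 rfl rfl (by decide))
  exact ⟨_, check_sound M (num M E q) _ (num_inj M E q q.injective) (num_lt M E q) hadj hs A B hAB⟩

end Acyc75
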